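import Pool.Agent.Lib.MP_40dc3c_ag.P.TDefs

/-! The anticommutation relations. -/

namespace Pool.Agent.Lib.MP_40dc3c_ag.P

open Finset

variable {σ τ : Type} [LinearOrder σ] {E : Type} [CommRing E] {M M' : Type} [AddCommGroup M]
  [Module E M] [AddCommGroup M']

theorem io_apply (s : σ) (v : Finset σ → M) (I : Finset σ) :
    io E M s v I = if s ∈ I then 0 else sg s I • v (insert s I) := rfl

theorem ep_apply (s : σ) (v : Finset σ → M) (I : Finset σ) :
    ep E M s v I = if s ∈ I then sg s I • v (I.erase s) else 0 := rfl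

theorem sg_mul_self (s : σ) (I : Finset σ) : sg s I * sg s I = 1 := by
  rw [sg, ← mul_pow, neg_one_mul, neg_neg, one_pow]

theorem sg_insert {s : σ} (r : σ) {I : Finset σ} (h : s ∉ I) :
    sg r (insert s I) = (if s < r then -1 else 1) * sg r I := by
  rw [sg, sg, filter_insert]
  split_ifs with c
  · rw [card_insert_of_notMem fun x => h (mem_filter.1 x).1, pow_succ']
  · rw [one_mul]

theorem sg_erase {s : σ} (r : σ) {I : Finset σ} (h : s ∈ I) :
    sg r (I.erase s) = (if s < r then -1 else 1) * sg r I := by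
  conv_rhs => rw [← insert_erase h, sg_insert r (notMem_erase s I)]
  split_ifs <;> simp

theorem sg_skew {s r : σ} (h : s ≠ r) :
    (if s < r then -1 else 1 : ℤ) = -if r < s then -1 else 1 := by
  rcases h.lt_or_gt with c | c
  · rw [if_pos c, if_neg c.not_gt]
  · rw [if_pos c, if_neg c.not_gt, neg_neg]

theorem io_sq (s : σ) (v : Finset σ → M) : io E M s (io E M s v) = 0 := by
  ext I
  simp [io_apply]

theorem ep_sq (s : σ) (v : Finset σ → M) : ep E M s (ep E M s v) = 0 := by
  ext I
  simp [ep_apply]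

theorem io_io (s r : σ) (v : Finset σ → M) : io E M s (io E M r v) = -io E M r (io E M s v) := by
  by_cases h : s = r
  · rw [h, io_sq, neg_zero]
  ext I
  by_cases hs : s ∈ I
  · simp [io_apply, hs]
  by_cases hr : r ∈ I
  · simp [io_apply, hr]
  simp only [io_apply, Pi.neg_apply, mem_insert, hs, hr, h, Ne.symm h, or_self, if_false, smul_smul]
  rw [sg_insert r hs, sg_insert s hr, sg_skew h, insert_comm, ← neg_smul]
  congr 1
  ring

theorem ep_ep (s r : σ) (v : Finset σ → M) : ep E M s (ep E M r v) = -ep E M r (ep E M s v) := by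
  by_cases h : s = r
  · rw [h, ep_sq, neg_zero]
  ext I
  by_cases hs : s ∈ I
  swap
  · simp [ep_apply, hs]
  by_cases hr : r ∈ I
  swap
  · simp [ep_apply, hr]
  simp only [ep_apply, Pi.neg_apply, mem_erase, hs, hr, h, Ne.symm h, ne_eq, not_false_eq_true,
    and_self, if_true, smul_smul]
  rw [sg_erase r hs, sg_erase s hr, sg_skew h, erase_right_comm, ← neg_smul]
  congr 1
  ring

theorem io_ep (s r : σ) (v : Finset σ → M) :
    io E M s (ep E M r v) + ep E M r (io E M s v) = if s = r then v else 0 := by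
  ext I
  split_ifs with h
  · subst h
    by_cases hs : s ∈ I
    · simp [io_apply, ep_apply, hs, sg_erase s hs, smul_smul, sg_mul_self]
    · simp [io_apply, ep_apply, hs, sg_insert s hs, smul_smul, sg_mul_self]
  by_cases hs : s ∈ I
  · simp [io_apply, ep_apply, hs, h]
  by_cases hr : r ∈ I
  swap
  · simp [io_apply, ep_apply, hr, Ne.symm h]
  simp only [io_apply, ep_apply, Pi.add_apply, Pi.zero_apply, mem_erase, mem_insert, hs, hr,
    or_true, and_false, if_true, if_false, smul_smul]
  rw [sg_insert r hs, sg_erase s hr, sg_skew h, erase_insert_of_ne h, ← add_smul]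
  convert zero_smul ℤ _
  ring

theorem io_map {E' : Type} [CommRing E'] [Module E' M'] (φ : M →+ M') (s : σ) (v : Finset σ → M) :
    io E' M' s (fun I => φ (v I)) = fun I => φ (io E M s v I) := by
  ext I
  simp only [io_apply]
  split_ifs <;> simp

theorem ep_map {E' : Type} [CommRing E'] [Module E' M'] (φ : M →+ M') (s : σ) (v : Finset σ → M) :
    ep E' M' s (fun I => φ (v I)) = fun I => φ (ep E M s v I) := by
  ext I
  simp only [ep_apply]
  split_ifs <;> simp

theorem kd_apply (A : Finset σ) (a c : σ → E) (v : Finset σ → M) :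
    kd M A a c v = ∑ s ∈ A, (a s • io E M s v + c s • ep E M s v) := by
  simp [kd, LinearMap.sum_apply]

omit [LinearOrder σ] in
theorem sum_skew {N : Type} [AddCommGroup N] (A : Finset σ) (f : σ → σ → N)
    (h : ∀ s r, f s r = -f r s) (h0 : ∀ s, f s s = 0) : ∑ s ∈ A, ∑ r ∈ A, f s r = 0 := by
  classical
  induction A using Finset.induction_on with
  | empty => simp
  | insert x A hx ih =>
    simp only [sum_insert hx, sum_add_distrib, h0, ih, zero_add, add_zero]
    rw [← sum_add_distrib]
    exact sum_eq_zero fun r _ => by rw [h x r, neg_add_cancel]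

theorem car_sq (A : Finset σ) (a c : σ → E) (u : Finset σ → M) (u1 : σ → Finset σ → M)
    (u2 : σ → σ → Finset σ → M) (hu : ∀ s r, u2 s r = u2 r s) :
    ∑ s ∈ A, (a s • io E M s (∑ r ∈ A, (a r • io E M r u + c r • ep E M r (u1 r))) +
      c s • ep E M s (∑ r ∈ A, (a r • io E M r (u1 s) + c r • ep E M r (u2 s r)))) =
      ∑ s ∈ A, (a s * c s) • u1 s := by
  have h1 := sum_skew A (fun s r => a s • a r • io E M s (io E M r u))
    (fun s r => by rw [io_io, smul_comm, smul_neg, smul_neg]) fun s => by simp [io_sq]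
  have h2 := sum_skew A (fun s r => c s • c r • ep E M s (ep E M r (u2 s r)))
    (fun s r => by rw [ep_ep, smul_comm, smul_neg, smul_neg, hu]) fun s => by simp [ep_sq]
  have h3 : ∑ s ∈ A, ∑ r ∈ A, a s • c r • io E M s (ep E M r (u1 r)) +
      ∑ s ∈ A, ∑ r ∈ A, c s • a r • ep E M s (io E M r (u1 s)) = ∑ s ∈ A, (a s * c s) • u1 s := by
    rw [sum_comm, ← sum_add_distrib]
    refine sum_congr rfl fun r hr => ?_
    rw [← sum_add_distrib, sum_eq_single_of_mem r hr fun s _ e => by
      rw [smul_comm (c r), ← smul_add, ← smul_add, io_ep, if_neg e, smul_zero, smul_zero],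
      smul_comm (c r), ← smul_add, ← smul_add, io_ep, if_pos rfl, smul_smul]
  simp only [map_sum, map_add, map_smul, smul_sum, smul_add, sum_add_distrib]
  rw [h1, h2, zero_add, add_zero, h3]

theorem car_ep (A : Finset σ) (a c : σ → E) (s : σ) (u : Finset σ → M) (u1 : σ → Finset σ → M) :
    ∑ r ∈ A, (a r • io E M r (ep E M s u) + c r • ep E M r (ep E M s (u1 r))) +
      ep E M s (∑ r ∈ A, (a r • io E M r u + c r • ep E M r (u1 r))) =
      if s ∈ A then a s • u else 0 := by
  rw [map_sum, ← sum_add_distrib, ← sum_ite_eq' A s fun r => a r • u]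
  refine sum_congr rfl fun r _ => ?_
  rw [map_add, map_smul, map_smul, add_add_add_comm, ← smul_add, io_ep, ep_ep, smul_neg,
    neg_add_cancel, add_zero, smul_ite, smul_zero]

theorem car_io (A : Finset σ) (a c : σ → E) (s : σ) (u : Finset σ → M) (u1 : σ → Finset σ → M) :
    ∑ r ∈ A, (a r • io E M r (io E M s u) + c r • ep E M r (io E M s (u1 r))) +
      io E M s (∑ r ∈ A, (a r • io E M r u + c r • ep E M r (u1 r))) =
      if s ∈ A then c s • u1 s else 0 := by
  rw [map_sum, ← sum_add_distrib, ← sum_ite_eq A s fun r => c r • u1 r]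
  refine sum_congr rfl fun r _ => ?_
  rw [map_add, map_smul, map_smul, add_add_add_comm, ← smul_add (c r), add_comm (ep E M r _),
    io_ep, io_io, smul_neg, neg_add_cancel, zero_add, smul_ite, smul_zero]

theorem kd_sq (A : Finset σ) (a c : σ → E) (v : Finset σ → M) :
    kd M A a c (kd M A a c v) = (∑ s ∈ A, a s * c s) • v := by
  rw [kd_apply, kd_apply, car_sq A a c v (fun _ => v) (fun _ _ => v) fun _ _ => rfl, sum_smul]

theorem kd_ep (A : Finset σ) (a c : σ → E) (s : σ) (v : Finset σ → M) :
    kd M A a c (ep E M s v) + ep E M s (kd M A a c v) = if s ∈ A then a s • v else 0 := by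
  rw [kd_apply, kd_apply, car_ep A a c s v fun _ => v]

theorem kd_io (A : Finset σ) (a c : σ → E) (s : σ) (v : Finset σ → M) :
    kd M A a c (io E M s v) + io E M s (kd M A a c v) = if s ∈ A then c s • v else 0 := by
  rw [kd_apply, kd_apply, car_io A a c s v fun _ => v]

variable [Fintype σ]

theorem td_apply (b : σ → τ) (a c : σ → E) (v : (τ → ℤ) → Finset σ → M) (J : τ → ℤ) :
    td M b a c v J = ∑ s, (a s • io E M s (v J) + c s • ep E M s (v (J + wt b s))) := rfl

theorem td_sq (b : σ → τ) (a c : σ → E) (v : (τ → ℤ) → Finset σ → M) (J : τ → ℤ) :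
    td M b a c (td M b a c v) J = ∑ s, (a s * c s) • v (J + wt b s) :=
  car_sq univ a c (v J) (fun s => v (J + wt b s)) (fun s r => v (J + wt b s + wt b r))
    fun s r => by rw [add_right_comm]

theorem td_ep (b : σ → τ) (a c : σ → E) (s : σ) (v : (τ → ℤ) → Finset σ → M) (J : τ → ℤ) :
    td M b a c (fun J => ep E M s (v J)) J + ep E M s (td M b a c v J) = a s • v J :=
  (car_ep univ a c s (v J) fun r => v (J + wt b r)).trans (if_pos (mem_univ s))

theorem td_io (b : σ → τ) (a c : σ → E) (s : σ) (v : (τ → ℤ) → Finset σ → M) (J : τ → ℤ) :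
    td M b a c (fun J => io E M s (v J)) J + io E M s (td M b a c v J) = c s • v (J + wt b s) :=
  (car_io univ a c s (v J) fun r => v (J + wt b r)).trans (if_pos (mem_univ s))

end Pool.Agent.Lib.MP_40dc3c_ag.P
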