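import Pool.Agent.Lib.MP_40dc3c_ag.P.TDefs
import Pool.Agent.Lib.MP_40dc3c_ag.T.FDefs

/-! The averaged invariant, affine parts, homogenisation, linear sections and patterns. -/

namespace Pool.Agent.Lib.MP_40dc3c_ag.P

open MvPolynomial Finset T

variable {k : Type} [Field k] {σ τ : Type}

/-- the unit vector of a block. -/
noncomputable abbrev et (t : τ) : τ → ℤ := wt id t

/-- the difference operator in the direction of a block. -/
noncomputable def dl {B : Type} [AddCommGroup B] (t : τ) (F : (τ → ℤ) → B) (j : τ → ℤ) : B :=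
  F j - F (j - et t)

/-- the numerical shadow of a long exact sequence. -/
def Tri (hA hB hC : ℤ → ℤ) : Prop :=
  ∃ α β γ : ℤ → ℕ, ∀ i, hC i = α i + β i ∧ hB i = β i + γ i ∧ hA i = γ i + α (i + 1)

/-- the weight of a degree in the vanishing bound. -/
def Ty.wv : Ty → ℤ → ℤ
  | .all, j => j
  | .neg, j => min j 0
  | _, _ => 0

/-- the ideal of the product of cones. -/
noncomputable abbrev FI (k : Type) [Field k] [Fintype σ] (b : σ → τ) (m : ℕ) :
    Ideal (MvPolynomial σ k) := .span (Set.range (fer k b m))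

/-- the total form on the doubled variables. -/
noncomputable def hF (k : Type) [Field k] (σ : Type) [Fintype σ] (m : ℕ) :
    MvPolynomial (σ ⊕ σ) k := ∑ s, fa k s * fc k m s

/-- the action on the left variables. -/
noncomputable def lact (m : ℕ) (g : σ → rootsOfUnity m k) :
    MvPolynomial (σ ⊕ σ) k →ₐ[k] MvPolynomial (σ ⊕ σ) k := diagAct (σ ⊕ σ) m (Sum.elim g 1)

/-- the averaged invariant. -/
noncomputable def thb [LinearOrder σ] [Fintype σ] (ω : kˣ →* ℂˣ) (m : ℕ) (c : σ → ℤ)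
    (I : Ideal (MvPolynomial (σ ⊕ σ) k)) : ℂ :=
  ∑ᶠ g : σ → rootsOfUnity m k, chis ω m c g⁻¹ * thI m univ (I.map (lact m g))

/-- the equations of an affine chart. -/
noncomputable def unitI (k : Type) [Field k] (s₀ : τ → σ) : Ideal (MvPolynomial σ k) :=
  .span (Set.range fun t => X (s₀ t) - 1)

/-- the homogenisation of an ideal. -/
noncomputable def cor (b : σ → τ) (P : Ideal (MvPolynomial σ k)) : Ideal (MvPolynomial σ k) :=
  RingHom.ker (aeval fun s => C (Ideal.Quotient.mk P (X s)) * X (b s) :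
    MvPolynomial σ k →ₐ[k] MvPolynomial τ (MvPolynomial σ k ⧸ P))

/-- normalisation of a group element in the chart. -/
def nrm (b : σ → τ) (s₀ : τ → σ) (m : ℕ) :
    (σ → rootsOfUnity m k) →* (σ → rootsOfUnity m k) where
  toFun g s := g s * (g (s₀ (b s)))⁻¹
  map_one' := by ext : 1; simp
  map_mul' g h := by ext : 1; simp only [Pi.mul_apply, mul_inv]; exact mul_mul_mul_comm _ _ _ _

theorem diagAct_fer [Fintype σ] (b : σ → τ) (m : ℕ) (g : σ → rootsOfUnity m k) (t : τ) :
    diagAct σ m g (fer k b m t) = fer k b m t := by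
  simp only [fer, map_sum, diagAct_X_pow]

theorem aff_inv' [Fintype σ] {b : σ → τ} {s₀ : τ → σ} (hs : ∀ t, b (s₀ t) = t) (m : ℕ)
    (g : σ → rootsOfUnity m k) (a : MvPolynomial σ k) (ha : a ∈ FI k b m ⊔ unitI k s₀) :
    ((diagAct σ m).comp (nrm b s₀ m)) g a ∈ FI k b m ⊔ unitI k s₀ := by
  have : FI k b m ⊔ unitI k s₀ ≤
      (FI k b m ⊔ unitI k s₀).comap (diagAct σ m (nrm b s₀ m g)) := by
    refine sup_le (Ideal.span_le.2 ?_) (Ideal.span_le.2 ?_)
    · rintro _ ⟨t, rfl⟩
      rw [SetLike.mem_coe, Ideal.mem_comap, diagAct_fer]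
      exact Ideal.mem_sup_left (Ideal.subset_span ⟨t, rfl⟩)
    · rintro _ ⟨t, rfl⟩
      have e : nrm b s₀ m g (s₀ t) = 1 := by simp [nrm, hs]
      have h : X (s₀ t) - 1 ∈ FI k b m ⊔ unitI k s₀ :=
        Ideal.mem_sup_right (Ideal.subset_span ⟨t, rfl⟩)
      rw [SetLike.mem_coe, Ideal.mem_comap, map_sub, map_one, diagAct_X, e]
      simpa using h
  exact this ha

/-- the affine part of the product with the character `c`. -/
@[reducible] noncomputable def Jo [Fintype σ] (ω : kˣ →* ℂˣ) {b : σ → τ} {s₀ : τ → σ}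
    (hs : ∀ t, b (s₀ t) = t) (m : ℕ) [NeZero m] (c : σ → ℤ) : Obj k :=
  letI := Fintype.ofFinite (σ → rootsOfUnity m k)
  Obj.quot ⟨⟨MvPolynomial σ k⟩, σ → rootsOfUnity m k, (diagAct σ m).comp (nrm b s₀ m), chis ω m c⟩
    (FI k b m ⊔ unitI k s₀) (aff_inv' hs m)

/-- a homogeneous ideal of the join of the diagonal. -/
noncomputable def aD (k : Type) [Field k] [Fintype σ] (b : σ → τ) (m : ℕ) (s₀ : τ → σ) :
    Ideal (MvPolynomial (σ ⊕ σ) k) :=
  two (FI k b m) (FI k b m) ⊔ .span (Set.range fun s =>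
    X (.inl s) * X (.inr (s₀ (b s))) - X (.inr s) * X (.inl (s₀ (b s))))

open Classical in
/-- the variables of a block. -/
noncomputable def blk [Fintype σ] (b : σ → τ) (t : τ) : Finset σ := {s | b s = t}

open Classical in
/-- the character is primitive in every block. -/
structure Prim [Fintype σ] (b : σ → τ) (m : ℕ) (c : σ → ℤ) : Prop where
  ne : ∀ s, ¬(m : ℤ) ∣ c s
  sum : ∀ t, (m : ℤ) ∣ ∑ s ∈ blk b t, c s

/-- the block map on the blocks of `T`. -/
def bT (b : σ → τ) (T : Finset τ) (s : {s // b s ∈ T}) : {t // t ∈ T} := ⟨b s.1, s.2⟩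

/-- linear sections in the blocks outside `T`. -/
structure Sec [Fintype σ] (b : σ → τ) (T : Finset τ) where
  /-- the variables that do not vanish. -/
  R : τ → Finset σ
  /-- a first variable. -/
  y : τ → σ
  /-- a second variable. -/
  w : τ → σ
  sub : ∀ t, R t ⊆ blk b t
  hy : ∀ t, y t ∈ R t
  hw : ∀ t, w t ∈ R t
  ne : ∀ t, y t ≠ w t

/-- the last equation of a section: a point if two variables remain. -/
noncomputable def Sec.φ [Fintype σ] {b : σ → τ} {T : Finset τ} (D : Sec b T) (m : ℕ) (e : τ → k)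
    (t : τ) : MvPolynomial σ k :=
  if #(D.R t) = 2 then X (D.y t) - C (e t) * X (D.w t) else ∑ s ∈ D.R t, X s ^ m

/-- the product of a subvariety of the blocks in `T` with the sections. -/
noncomputable def Sec.I [Fintype σ] {b : σ → τ} {T : Finset τ} (D : Sec b T) (m : ℕ) (e : τ → k)
    (P : Ideal (MvPolynomial {s // b s ∈ T} k)) : Ideal (MvPolynomial σ k) :=
  P.map (rename Subtype.val) ⊔ .span {f | ∃ s, b s ∉ T ∧ s ∉ D.R (b s) ∧ f = X s} ⊔
    .span {f | ∃ t, t ∉ T ∧ f = D.φ m e t}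

/-- a pattern: in each factor a power of the hyperplane class or a primitive character. -/
abbrev Pat {n : ℕ} (d : Fin n → ℕ) : Type := ∀ t : Fin n, ℕ ⊕ (Fin (d t + 2) → ℕ)

variable {n : ℕ} {d : Fin n → ℕ}

/-- the primitive factors. -/
def Pat.T (π : Pat d) : Finset (Fin n) := {t | (π t).isRight}

/-- the exponents of the hyperplane classes. -/
def Pat.α (π : Pat d) (t : Fin n) : ℕ := (π t).elim id fun _ => 0

/-- the character. -/
def Pat.c (π : Pat d) (s : Σ t, Fin (d t + 2)) : ℕ := (π s.1).elim (fun _ => 0) fun a => a s.2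

/-- a Tate pattern of codimension `r`. -/
structure Pat.OK (π : Pat d) (m r : ℕ) : Prop where
  le : ∀ t, π.α t ≤ d t
  pos : ∀ s, s.1 ∈ π.T → 0 < π.c s ∧ π.c s < m
  dvd : ∀ t ∈ π.T, m ∣ ∑ i, π.c ⟨t, i⟩
  wt : ∑ t ∈ π.T, d t + 2 * ∑ t, π.α t = 2 * r

end Pool.Agent.Lib.MP_40dc3c_ag.P
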