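import Pool.Agent.Lib.MP_40dc3c_ag.T.D2
import Pool.Agent.Lib.MP_40dc3c_ag.P.KDefs
import Pool.Agent.Lib.MP_40dc3c_ag.Fe.GIff

/-! The number of points of a product of Fermat hypersurfaces. -/

namespace Pool.Agent.Lib.MP_40dc3c_ag.P.Cn

open Finset Projectivization
open scoped LinearAlgebra.Projectivization

variable {F E : Type} [Field F] [Fintype F] [Field E] [Fintype E]

/-- the exponent tuples of the primitive part in dimension `d` -/
def Tup (m d : ℕ) : Finset (Fin (d + 2) → ℕ) :=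
  (Fintype.piFinset fun _ => Ioo 0 m).filter fun a => m ∣ ∑ i, a i

/-- the primitive Frobenius eigenvalues -/
noncomputable def lam (χ : MulChar F ℂ) (ψ : AddChar F ℂ) {d : ℕ} (a : Fin (d + 2) → ℕ) : ℂ :=
  (∏ i, -gaussSum (χ ^ a i) ψ) / Fintype.card F

/-- a power of the hyperplane class or a primitive class -/
abbrev Sy (m d : ℕ) : Type := Fin (d + 1) ⊕ Tup m d

/-- one symbol for each factor -/
abbrev Pt (m : ℕ) {n : ℕ} (d : Fin n → ℕ) : Type := (t : Fin n) → Sy m (d t)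

/-- the eigenvalue of a symbol -/
noncomputable def ev (χ : MulChar F ℂ) (ψ : AddChar F ℂ) {m d : ℕ} : Sy m d → ℂ :=
  Sum.elim (fun i => (Fintype.card F : ℂ) ^ (i : ℕ)) fun a => lam χ ψ a.1

/-- the cohomological degree of a symbol -/
def wgt {m d : ℕ} : Sy m d → ℕ := Sum.elim (fun i => 2 * i) fun _ => d

/-- the fractions of a symbol -/
def frac {m d : ℕ} : Sy m d → Multiset ℚ :=
  Sum.elim (fun _ => 0) fun a => univ.val.map fun s => (a.1 s : ℚ) / m

/-- the signed multiplicities of the eigenvalues -/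
noncomputable def mu (χ : MulChar F ℂ) (ψ : AddChar F ℂ) (m : ℕ) {n : ℕ} (d : Fin n → ℕ) : ℂ →₀ ℤ :=
  ∑ f : Pt m d, Finsupp.single (∏ t, ev χ ψ (f t)) ((-1) ^ ∑ t, wgt (f t))

variable {χ : MulChar F ℂ} {ψ : AddChar F ℂ} {m n r : ℕ} {d : Fin n → ℕ}

theorem hyp_count [Algebra F E] (hm : orderOf χ = m) (hψ : ψ ≠ 1) (d : ℕ) :
    (Nat.card {P : ℙ E (Fin (d + 2) → E) // ∑ s, P.rep s ^ m = 0} : ℂ) =
      ∑ x : Sy m d, (-1) ^ wgt x * ev χ ψ x ^ Module.finrank F E := by
  classical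
  have m0 : m ≠ 0 := hm ▸ (orderOf_pos χ).ne'
  have c := HD.card_cone (E := E) (fun v : Fin (d + 2) → E => ∑ s, v s ^ m = 0) (by simp [m0]) fun c v h => by
    simp only [Pi.smul_apply, Units.smul_def, smul_eq_mul, mul_pow, ← mul_sum, h, mul_zero]
  have h : (Fintype.card E : ℂ) * #{v : Fin (d + 2) → E | ∑ i, v i ^ m = 0} = Fintype.card E ^ (d + 2) +
      (Fintype.card E - 1) * ((-1) ^ (d + 2) *
        ∑ a ∈ Tup m d, (∏ i, -gaussSum (χ ^ a i) ψ) ^ Module.finrank F E) := by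
    have e := HD.cone_lift (E := E) (ι := Fin (d + 2)) hm hψ
    rw [Fintype.card_fin] at e
    refine Eq.trans ?_ (e.trans ?_)
    · congr 3
      ext v
      simp
    · congr 4
      ext a
      simp [Tup]
  rw [c, Module.card_eq_pow_finrank (K := F) (V := E)] at h
  have q1 : 1 < Fintype.card F ^ Module.finrank F E := by
    rw [← Module.card_eq_pow_finrank]; exact Fintype.one_lt_card
  have q0 : (Fintype.card F : ℂ) ^ Module.finrank F E ≠ 0 := by simp
  have q2 : (Fintype.card F : ℂ) ^ Module.finrank F E - 1 ≠ 0 := sub_ne_zero.2 (by exact_mod_cast q1.ne')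
  push_cast [Nat.cast_pred (zero_lt_one.trans q1)] at h
  have g := geom_sum_mul ((Fintype.card F : ℂ) ^ Module.finrank F E) (d + 1)
  rw [← sum_coe_sort] at h
  rw [sum_range] at g
  simp only [Fintype.sum_sum_type, ev, wgt, Sum.elim_inl, Sum.elim_inr, lam, div_pow, ← mul_sum, ← sum_div,
    pow_mul, neg_one_sq, one_pow, one_mul, pow_right_comm (Fintype.card F : ℂ) _ (Module.finrank F E)]
  rw [← sub_eq_iff_eq_add', ← mul_div_assoc, eq_div_iff q0]
  exact mul_left_cancel₀ q2 (by linear_combination h - (Fintype.card F : ℂ) ^ Module.finrank F E * g)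

theorem prod_count (hm : orderOf χ = m) (hψ : ψ ≠ 1) (d : Fin n → ℕ) {j : ℕ}
    (h : Fintype.card E = Fintype.card F ^ j) :
    (Nat.card {x : (t : Fin n) → ℙ E (Fin (d t + 2) → E) // ∀ t, ∑ s, (x t).rep s ^ m = 0} : ℂ) =
      (mu χ ψ m d).sum fun t c => c * t ^ j := by
  obtain ⟨_, rfl⟩ := HD.exists_alg h
  rw [Nat.card_congr (Equiv.subtypePiEquivPi
    (p := fun t (P : ℙ E (Fin (d t + 2) → E)) => ∑ s, P.rep s ^ m = 0)), Nat.card_pi, Nat.cast_prod,
    prod_congr rfl fun t _ => hyp_count hm hψ (d t), prod_univ_sum, mu,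
    ← Finsupp.sum_finsetSum_index (by simp) (by simp [add_mul])]
  refine sum_congr (by simp) fun f _ => ?_
  rw [Finsupp.sum_single_index (by simp), prod_mul_distrib, prod_pow, prod_pow_eq_pow_sum]
  simp

omit [Fintype F] in
lemma ne_one (hm : orderOf χ = m) {d : ℕ} (a : Tup m d) (s : Fin (d + 2)) : χ ^ a.1 s ≠ 1 := by
  have := mem_Ioo.1 (Fintype.mem_piFinset.1 (mem_filter.1 a.2).1 s)
  exact pow_ne_one_of_lt_orderOf this.1.ne' (hm ▸ this.2)

lemma norm_ev (hm : orderOf χ = m) (hψ : ψ ≠ 1) {d : ℕ} (x : Sy m d) :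
    ‖ev χ ψ x‖ ^ 2 = Fintype.card F ^ wgt x := by
  obtain i | a := x
  · simp [ev, wgt, ← pow_mul, mul_comm]
  have : ∀ s, ‖-gaussSum (χ ^ a.1 s) ψ‖ ^ 2 = Fintype.card F := fun s => by
    have h := gaussSum_mul_gaussSum_eq_card (ne_one hm a s) (AddChar.IsPrimitive.of_ne_one hψ)
    rw [← star_gaussSum_eq] at h
    have h2 := congrArg norm h
    rwa [norm_mul, norm_star, Complex.norm_natCast, ← sq, ← norm_neg] at h2
  rw [ev, wgt, Sum.elim_inr, Sum.elim_inr, lam, norm_div, norm_prod, div_pow, ← prod_pow,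
    prod_congr rfl fun s _ => this s]
  simp [pow_add]

/-- the weight of a pattern -/
theorem weight (hm : orderOf χ = m) (hψ : ψ ≠ 1) {f : Pt m d}
    (h : IsOfFinOrder ((∏ t, ev χ ψ (f t)) / (Fintype.card F : ℂ) ^ r)) : ∑ t, wgt (f t) = 2 * r := by
  have h1 := h.norm_eq_one
  rw [norm_div, div_eq_one_iff_eq (by simp)] at h1
  have := congrArg (· ^ 2) h1
  simp only [norm_prod, ← prod_pow, norm_pow, Complex.norm_natCast, norm_ev hm hψ, prod_pow_eq_pow_sum,
    ← pow_mul] at this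
  exact (Nat.pow_right_injective (Fintype.one_lt_card (α := F)) (by exact_mod_cast this)).trans (mul_comm _ _)

open Classical in
theorem mu_sum (hm : orderOf χ = m) (hψ : ψ ≠ 1) :
    ((mu χ ψ m d).sum fun t c => if IsOfFinOrder (t / (Fintype.card F : ℂ) ^ r) then c else 0) =
      #{f : Pt m d | IsOfFinOrder ((∏ t, ev χ ψ (f t)) / (Fintype.card F : ℂ) ^ r)} := by
  rw [mu, ← Finsupp.sum_finsetSum_index (by simp) (fun a b c => by split_ifs <;> simp), card_filter]
  push_cast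
  refine sum_congr rfl fun f _ => ?_
  rw [Finsupp.sum_single_index (by simp)]
  split_ifs with h
  · rw [weight hm hψ h, pow_mul, neg_one_sq, one_pow]
  · rfl

theorem gtate {p : ℕ} [CharP F p] (hm : orderOf χ = m) (hψ : ψ ≠ 1) {f : Pt m d}
    (h : IsOfFinOrder ((∏ t, ev χ ψ (f t)) / (Fintype.card F : ℂ) ^ r)) : Fe.GTate p (∑ t, frac (f t)) := by
  let N : ∀ {d}, Sy m d → Multiset ℤ := Sum.elim (fun _ => 0) fun a => univ.val.map fun s => (a.1 s : ℤ)
  have mp : ∀ {β : Type} (g : ℤ → β), (∑ t, N (f t)).map g = ∑ t, (N (f t)).map g := fun g =>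
    map_sum (Multiset.mapAddMonoidHom g) _ _
  have w := weight hm hψ h
  obtain ⟨k, k0, hk⟩ := isOfFinOrder_iff_pow_eq_one.1 h
  have q0 : (Fintype.card F : ℂ) ≠ 0 := by simp
  rw [div_pow, div_eq_one_iff_eq (pow_ne_zero _ (pow_ne_zero _ q0))] at hk
  refine ⟨F, ‹_›, ‹_›, ‹_›, χ, ψ, ∑ t, N (f t), k, hψ, k0, fun z hz => ?_, ?_, ?_⟩
  · obtain ⟨t, -, ht⟩ := Multiset.mem_sum.1 hz
    revert ht
    obtain b | a := f t
    · simp [N]
    · intro ht
      obtain ⟨s, -, rfl⟩ := Multiset.mem_map.1 (show z ∈ univ.val.map fun s => (a.1 s : ℤ) from ht)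
      exact_mod_cast ne_one hm a s
  · rw [mp]
    refine sum_congr rfl fun t _ => ?_
    obtain b | a := f t
    · rfl
    · simp only [N, frac, hm, Sum.elim_inr, Multiset.map_map, Function.comp, Int.cast_natCast]
  have e : ∀ {d} (x : Sy m d), (Fintype.card F : ℂ) ^ wgt x * ((N x).map fun i => gaussSum (χ ^ i) ψ).prod ^ 2 =
      (Fintype.card F : ℂ) ^ (N x).card * ev χ ψ x ^ 2 := fun {d} x => by
    obtain i | a := x
    · simp [N, wgt, ev, ← pow_mul, mul_comm]
    · simp only [N, wgt, ev, lam, Sum.elim_inr, Multiset.map_map, Function.comp, zpow_natCast, Multiset.card_map,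
        card_val, card_univ, Fintype.card_fin, prod_map_val, div_pow, ← prod_pow, neg_sq]
      field_simp
      ring
  have := congrArg (· ^ k) (prod_congr (s₁ := univ) rfl fun t _ => e (f t))
  simp only [prod_mul_distrib, prod_pow_eq_pow_sum, w, prod_pow, mul_pow] at this
  rw [pow_right_comm (∏ t, ev χ ψ (f t)), hk] at this
  rw [mp, Multiset.prod_sum, Multiset.card_sum, pow_mul, mul_comm k, pow_mul]
  exact mul_left_cancel₀ (pow_ne_zero k (pow_ne_zero (2 * r) q0)) (this.trans (by ring))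

/-- the pattern of a family of symbols -/
def toPat (f : Pt m d) : Pat d := fun t => (f t).map Fin.val Subtype.val

lemma toPat_inj : Function.Injective (toPat : Pt m d → Pat d) := fun _ _ h => funext fun t =>
  Sum.map_injective.2 ⟨Fin.val_injective, Subtype.val_injective⟩ (congrFun h t)

lemma toPat_ok {f : Pt m d} (h : ∑ t, wgt (f t) = 2 * r) : (toPat f).OK m r := by
  refine ⟨fun t => ?_, fun ⟨t, s⟩ => ?_, fun t => ?_, ?_⟩
  · simp only [Pat.α, toPat]
    obtain i | a := f t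
    exacts [Nat.lt_succ_iff.1 i.2, Nat.zero_le _]
  · simp only [Pat.T, Pat.c, toPat, mem_filter_univ]
    obtain i | a := f t
    exacts [by simp, fun _ => mem_Ioo.1 (Fintype.mem_piFinset.1 (mem_filter.1 a.2).1 s)]
  · simp only [Pat.T, Pat.c, toPat, mem_filter_univ]
    obtain i | a := f t
    exacts [by simp, fun _ => (mem_filter.1 a.2).2]
  · rw [← h, Pat.T, sum_filter, mul_sum, ← sum_add_distrib]
    refine sum_congr rfl fun t _ => ?_
    simp only [Pat.α, toPat, Sum.isRight_map]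
    obtain i | a := f t <;> simp [wgt]

lemma toPat_frac (f : Pt m d) : ∑ t, frac (f t) =
    univ.val.map fun s : {s : Σ t, Fin (d t + 2) // s.1 ∈ (toPat f).T} => (((toPat f).c s.1 : ℤ) : ℚ) / m := by
  have e : ∀ {ι : Type} (s : Finset ι) (g : ι → ℚ), s.val.map g = ∑ i ∈ s, {g i} := fun s g => by
    rw [sum_eq_multiset_sum, ← Multiset.bind_singleton]; rfl
  rw [e, ← sum_subtype (univ.filter fun s : Σ t, Fin (d t + 2) => s.1 ∈ (toPat f).T) (by simp)
    (fun s => ({(((toPat f).c s : ℤ) : ℚ) / m} : Multiset ℚ)), sum_filter, Fintype.sum_sigma]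
  refine sum_congr rfl fun t _ => ?_
  simp only [Pat.T, Pat.c, toPat, mem_filter_univ]
  obtain i | a := f t
  · simp [frac]
  · simp only [frac, Sum.elim_inr, e, Sum.map_inr, Sum.isRight_inr, if_true, Int.cast_natCast]

open Classical in
/-- the point count and the Tate patterns -/
theorem count (p f m : ℕ) [Fact p.Prime] (d : Fin n → ℕ) (hf : 0 < f) (hm : m ∣ p ^ f - 1) :
    ∃ μ : ℂ →₀ ℤ, (∀ (F : Type) [Field F] [Fintype F] (j : ℕ), Fintype.card F = (p ^ f) ^ j →
      (Nat.card {x : (t : Fin n) → ℙ F (Fin (d t + 2) → F) // ∀ t, ∑ s, (x t).rep s ^ m = 0} : ℂ) =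
        μ.sum fun t c => c * t ^ j) ∧ ∀ r, ∃ T : Finset (Pat d),
      (#T : ℤ) = (μ.sum fun t c => if IsOfFinOrder (t / ((p : ℂ) ^ f) ^ r) then c else 0) ∧
      ∀ π ∈ T, π.OK m r ∧ Fe.Tate p
        (univ.val.map fun s : {s : Σ t, Fin (d t + 2) // s.1 ∈ π.T} => ((π.c s.1 : ℤ) : ℚ) / m) := by
  obtain ⟨F, _, _, _, χ, ψ, a, b, c⟩ := HD.exists_chi p f m hf hm
  refine ⟨mu χ ψ m d, fun E _ _ j h => prod_count b c d (a ▸ h), fun r => ⟨(univ.filter fun g : Pt m d =>
    IsOfFinOrder ((∏ t, ev χ ψ (g t)) / (Fintype.card F : ℂ) ^ r)).map ⟨toPat, toPat_inj⟩, ?_, fun π h => ?_⟩⟩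
  · rw [card_map, ← mu_sum b c, a, Nat.cast_pow]
  · obtain ⟨g, u, rfl⟩ := mem_map.1 h
    have v := (Fe.gtate_iff (Fact.out : p.Prime) _).1 (gtate b c (mem_filter.1 u).2)
    exact ⟨toPat_ok (weight b c (mem_filter.1 u).2), by rwa [toPat_frac] at v⟩

end Pool.Agent.Lib.MP_40dc3c_ag.P.Cn
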