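import Pool.Agent.Lib.MP_40dc3c_ag.P.KDefs

/-! The homogenisation of an ideal for a general block map. -/

namespace Pool.Agent.Lib.MP_40dc3c_ag.P

open Function hiding eval
open MvPolynomial

set_option linter.style.haveILetI false

variable (k : Type) [Field k] {σ τ D : Type} [CommRing D] [Algebra k D] (β : σ → τ)

/-- the parametrisation of the cone over the point `v`. -/
noncomputable def cn (v : σ → D) : MvPolynomial σ k →ₐ[k] MvPolynomial τ D :=
  aeval fun a => C (v a) * X (β a)

/-- the ideal of the cone. -/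
noncomputable def cnI (v : σ → D) : Ideal (MvPolynomial σ k) := RingHom.ker (cn k β v)

variable {k β}

@[simp] theorem cn_X (v : σ → D) (a : σ) : cn k β v (X a) = C (v a) * X (β a) :=
  aeval_X _ _

theorem mem_cnI {v : σ → D} {F : MvPolynomial σ k} :
    F ∈ cnI k β v ↔ cn k β v F = 0 := RingHom.mem_ker

theorem cnI_prime [IsDomain D] (v : σ → D) : (cnI k β v).IsPrime := RingHom.ker_isPrime _

theorem X_mem_cnI {v : σ → D} {a : σ} : X a ∈ cnI k β v ↔ v a = 0 := by
  rw [mem_cnI, cn_X, C_mul_X_eq_monomial, monomial_eq_zero]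

theorem cn_monomial (v : σ → D) (d : σ →₀ ℕ) (c : k) :
    cn k β v (monomial d c) = monomial (d.mapDomain β) (aeval v (monomial d c)) := by
  rw [cn, aeval_monomial, aeval_monomial, monomial_eq, map_mul, map_finsuppProd,
    Finsupp.prod_mapDomain_index (fun _ => pow_zero _) fun _ _ _ => pow_add _ _ _, mul_assoc,
    ← Finsupp.prod_mul]
  simp only [mul_pow, map_pow]
  rfl

theorem cn_one (v : σ → D) (F : MvPolynomial σ k) :
    eval (fun _ => 1) (cn k β v F) = aeval v F := by
  induction F using MvPolynomial.induction_on with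
  | C c =>
    rw [← algebraMap_eq, AlgHom.commutes, AlgHom.commutes, MvPolynomial.algebraMap_apply,
      eval_C]
  | add p q hp hq => rw [map_add, map_add, hp, hq, map_add]
  | mul_X p a hp => rw [map_mul, map_mul, hp, cn_X, map_mul, map_mul, eval_C, eval_X, aeval_X,
      mul_one]

theorem aeval_of_mem_cnI {v : σ → D} {F : MvPolynomial σ k} (h : F ∈ cnI k β v) :
    aeval v F = 0 := by rw [← cn_one, mem_cnI.1 h, map_zero]

section weight

variable {M : Type} [AddCommMonoid M] (w : τ → M)

theorem cn_weight (d : σ →₀ ℕ) :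
    Finsupp.weight w (d.mapDomain β) = Finsupp.weight (fun a : σ => w (β a)) d := by
  induction d using Finsupp.induction_linear with
  | zero => simp
  | add a b ha hb => rw [Finsupp.mapDomain_add, map_add, map_add, ha, hb]
  | single a n => rw [Finsupp.mapDomain_single, Finsupp.weight_single, Finsupp.weight_single]

theorem cn_comp (v : σ → D) (n : M) (F : MvPolynomial σ k) :
    cn k β v (weightedHomogeneousComponent (fun a : σ => w (β a)) n F) =
      weightedHomogeneousComponent w n (cn k β v F) := by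
  classical
  induction F using MvPolynomial.induction_on' with
  | monomial d c =>
    rw [weightedHomogeneousComponent_of_mem
        (isWeightedHomogeneous_monomial (fun a : σ => w (β a)) d c rfl), cn_monomial,
      weightedHomogeneousComponent_of_mem
        (isWeightedHomogeneous_monomial w _ _ (cn_weight w d))]
    split_ifs
    · exact cn_monomial v d c
    · exact map_zero _
  | add p q hp hq => rw [map_add, map_add, hp, hq, map_add, map_add]

/-- the ideal of the cone is homogeneous for every weight that is constant on the blocks. -/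
theorem comp_mem_cnI {v : σ → D} {F : MvPolynomial σ k} (h : F ∈ cnI k β v) (n : M) :
    weightedHomogeneousComponent (fun a : σ => w (β a)) n F ∈ cnI k β v := by
  rw [mem_cnI, cn_comp, mem_cnI.1 h, map_zero]

theorem cn_homog (v : σ → D) {n : M} {F : MvPolynomial σ k}
    (h : IsWeightedHomogeneous (fun a : σ => w (β a)) F n) :
    IsWeightedHomogeneous w (cn k β v F) n := by
  rw [← h.weightedHomogeneousComponent_same, cn_comp]
  exact weightedHomogeneousComponent_isWeightedHomogeneous _ _

/-- a multihomogeneous form lies in the ideal of the cone iff it vanishes at the point. -/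
theorem mem_cnI_iff (hw : Injective fun d : τ →₀ ℕ => Finsupp.weight w d) {v : σ → D}
    {n : M}
    {F : MvPolynomial σ k} (h : IsWeightedHomogeneous (fun a : σ => w (β a)) F n) :
    F ∈ cnI k β v ↔ aeval v F = 0 := by
  refine ⟨aeval_of_mem_cnI, fun h0 => ?_⟩
  have h1 := cn_homog w v h
  rw [mem_cnI]
  by_contra hn
  obtain ⟨d, hd⟩ := ne_zero_iff.1 hn
  have h2 := h1.eq_monomial_of_unique_weight (d₀ := d) fun e he => hw (he.trans (h1 hd).symm)
  rw [← cn_one, h2, eval_monomial] at h0
  simp only [one_pow, Finsupp.prod, Finset.prod_const_one, mul_one] at h0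
  exact hd h0

end weight

theorem cn_wt_inj : Injective fun d : τ →₀ ℕ => Finsupp.weight (fun t : τ => et t) d := by
  have : ∀ (d : τ →₀ ℕ) t, Finsupp.weight (fun t : τ => et t) d t = d t := fun d t => by
    classical
    induction d using Finsupp.induction_linear with
    | zero => simp
    | add a b ha hb => rw [map_add, Pi.add_apply, ha, hb, Finsupp.add_apply, Nat.cast_add]
    | single a n =>
      rw [Finsupp.weight_single, Finsupp.single_apply]
      by_cases h : a = t
      · simp [h, wt]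
      · simp [h, wt]
  exact fun a b h => Finsupp.ext fun t => by
    exact_mod_cast (this a t).symm.trans ((congrFun h t).trans (this b t))

theorem cn_frac [IsDomain D] {v : σ → D} (hv : Surjective (aeval v : _ →ₐ[k] D))
    (h1 : ∀ i, ∃ s, β s = i ∧ v s = 1) (y : MvPolynomial τ D) :
    ∃ a b, cn k β v a ≠ 0 ∧ cn k β v a * y = cn k β v b := by
  have hX : ∀ i, ∃ a, cn k β v a = X i := fun i => by
    obtain ⟨s, rfl, hs⟩ := h1 i
    exact ⟨X s, by rw [cn_X, hs, map_one, one_mul]⟩
  have hadd : ∀ y z, (∃ a b, cn k β v a ≠ 0 ∧ cn k β v a * y = cn k β v b) →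
      (∃ a b, cn k β v a ≠ 0 ∧ cn k β v a * z = cn k β v b) →
      ∃ a b, cn k β v a ≠ 0 ∧ cn k β v a * (y + z) = cn k β v b := by
    rintro y z ⟨a, b, h, e⟩ ⟨a', b', h', e'⟩
    refine ⟨a * a', b * a' + a * b', by rw [map_mul]; exact mul_ne_zero h h', ?_⟩
    rw [map_add, map_mul, map_mul, map_mul, ← e, ← e']
    ring
  induction y using MvPolynomial.induction_on with
  | C c =>
    obtain ⟨F, rfl⟩ := hv c
    induction F using MvPolynomial.induction_on with
    | C c =>
      refine ⟨1, C c, by rw [map_one]; exact one_ne_zero, ?_⟩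
      rw [map_one, one_mul, ← algebraMap_eq (R := k), AlgHom.commutes, AlgHom.commutes,
        MvPolynomial.algebraMap_apply]
    | add p q hp hq => rw [map_add, map_add]; exact hadd _ _ hp hq
    | mul_X p x hp =>
      obtain ⟨a, b, h, e⟩ := hp
      obtain ⟨c, hc⟩ := hX (β x)
      refine ⟨a * c, b * X x, by rw [map_mul, hc]; exact mul_ne_zero h (X_ne_zero _), ?_⟩
      rw [map_mul, map_mul, map_mul, map_mul, hc, ← e, cn_X, aeval_X]
      ring
  | add p q hp hq => exact hadd _ _ hp hq
  | mul_X p i hp =>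
    obtain ⟨a, b, h, e⟩ := hp
    obtain ⟨c, hc⟩ := hX i
    exact ⟨a, b * c, h, by rw [map_mul, hc, ← e, mul_assoc]⟩

/-- the dimension of the cone. -/
theorem trdeg_cnI [IsDomain D] [Fintype τ] {v : σ → D}
    (hv : Surjective (aeval v : _ →ₐ[k] D)) (h1 : ∀ i, ∃ s, β s = i ∧ v s = 1) :
    Algebra.trdeg k (MvPolynomial σ k ⧸ cnI k β v) =
      Algebra.trdeg k D + Fintype.card τ := by
  have hP := cnI_prime (k := k) (β := β) v
  let f : (MvPolynomial σ k ⧸ cnI k β v) →ₐ[k] MvPolynomial τ D :=
    Ideal.kerLiftAlg (cn k β v)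
  have hf : Injective f := Ideal.kerLiftAlg_injective _
  letI := f.toAlgebra
  haveI : IsScalarTower k (MvPolynomial σ k ⧸ cnI k β v) (MvPolynomial τ D) :=
    .of_algebraMap_eq fun x => (f.commutes x).symm
  haveI : FaithfulSMul (MvPolynomial σ k ⧸ cnI k β v) (MvPolynomial τ D) :=
    (faithfulSMul_iff_algebraMap_injective _ _).2 hf
  haveI : Algebra.IsAlgebraic (MvPolynomial σ k ⧸ cnI k β v) (MvPolynomial τ D) :=
    ⟨fun y => by
      obtain ⟨a, b, h, e⟩ := cn_frac hv h1 y
      have ha : Ideal.Quotient.mk (cnI k β v) a ≠ 0 := fun h0 =>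
        h (mem_cnI.1 (Ideal.Quotient.eq_zero_iff_mem.1 h0))
      refine ⟨Polynomial.C (Ideal.Quotient.mk _ a) * Polynomial.X -
        Polynomial.C (Ideal.Quotient.mk _ b), fun h0 => ha ?_, ?_⟩
      · simpa using congrArg (fun p => Polynomial.coeff p 1) h0
      · rw [map_sub, map_mul, Polynomial.aeval_C, Polynomial.aeval_C, Polynomial.aeval_X]
        exact sub_eq_zero.2 e⟩
  have e1 := trdeg_add_eq k (MvPolynomial σ k ⧸ cnI k β v) (A := MvPolynomial τ D)
  have e2 := trdeg_add_eq k D (A := MvPolynomial τ D)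
  rw [trdeg_eq_zero (A := MvPolynomial τ D), add_zero] at e1
  rw [e1, ← e2, MvPolynomial.trdeg_of_isDomain]
  simp

variable {b : σ → τ} {P : Ideal (MvPolynomial σ k)}

theorem cor_eq (b : σ → τ) (P : Ideal (MvPolynomial σ k)) :
    cor b P = cnI k b fun s => Ideal.Quotient.mk P (X s) := rfl

theorem cor_aeval (P : Ideal (MvPolynomial σ k)) (f : MvPolynomial σ k) :
    aeval (fun s => Ideal.Quotient.mk P (X s)) f = Ideal.Quotient.mk P f :=
  AlgHom.congr_fun (algHom_ext fun s => aeval_X _ s :
    aeval (fun s => Ideal.Quotient.mk P (X s)) = Ideal.Quotient.mkₐ k P) f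

theorem cor_prime (b : σ → τ) (hP : P.IsPrime) : (cor b P).IsPrime :=
  cnI_prime fun s => Ideal.Quotient.mk P (X s)

theorem hg_cor (b : σ → τ) (P : Ideal (MvPolynomial σ k)) : Hg b (cor b P) := fun _ hf d =>
  comp_mem_cnI (fun t => et t) hf d

theorem cor_le_self (b : σ → τ) (P : Ideal (MvPolynomial σ k)) : cor b P ≤ P := fun f hf =>
  Ideal.Quotient.eq_zero_iff_mem.1 ((cor_aeval P f).symm.trans (aeval_of_mem_cnI hf))

theorem mem_cor {f : MvPolynomial σ k} {d : τ → ℤ} (hf : f.IsWeightedHomogeneous (wt b) d) :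
    f ∈ cor b P ↔ f ∈ P := by
  rw [cor_eq, mem_cnI_iff (fun t => et t) cn_wt_inj hf, cor_aeval, Ideal.Quotient.eq_zero_iff_mem]

theorem le_cor {I : Ideal (MvPolynomial σ k)} (hI : Hg b I) (h : I ≤ P) : I ≤ cor b P :=
  fun f hf => by
    rw [← finsum_weightedHomogeneousComponent (wt b) f,
      finsum_eq_sum _ (weightedHomogeneousComponent_finsupp f)]
    exact Ideal.sum_mem _ fun d _ =>
      (mem_cor (weightedHomogeneousComponent_isWeightedHomogeneous d f)).2 (h (hI f hf d))

theorem cor_mono {Q : Ideal (MvPolynomial σ k)} (h : P ≤ Q) : cor b P ≤ cor b Q :=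
  le_cor (hg_cor b P) ((cor_le_self b P).trans h)

theorem cor_fer [Fintype σ] {m : ℕ} {t : τ} (h : fer k b m t ∈ P) : fer k b m t ∈ cor b P := by
  classical
  refine (mem_cor (d := m • et t) (IsWeightedHomogeneous.sum _ _ _ fun s hs => ?_)).2 h
  obtain rfl : b s = t := by simpa using hs
  exact (isWeightedHomogeneous_X k (wt b) s).pow m

theorem trdeg_cor [Fintype τ] {s₀ : τ → σ} (hs : ∀ t, b (s₀ t) = t) (hP : P.IsPrime)
    (h : unitI k s₀ ≤ P) : Algebra.trdeg k (MvPolynomial σ k ⧸ cor b P) =
      Algebra.trdeg k (MvPolynomial σ k ⧸ P) + Fintype.card τ := by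
  rw [cor_eq]
  refine trdeg_cnI (fun a => ?_) fun t => ⟨s₀ t, hs t, ?_⟩
  · obtain ⟨f, rfl⟩ := Ideal.Quotient.mk_surjective a
    exact ⟨f, cor_aeval P f⟩
  · exact (Ideal.Quotient.eq.2 (h (Ideal.subset_span ⟨t, rfl⟩))).trans (map_one _)

theorem subv_cor [Fintype σ] [Fintype τ] {s₀ : τ → σ} (hs : ∀ t, b (s₀ t) = t) {m e : ℕ}
    (hP : P.IsPrime) (h : FI k b m ⊔ unitI k s₀ ≤ P)
    (he : Algebra.trdeg k (MvPolynomial σ k ⧸ P) = e) : Subv b m (cor b P) e := by
  refine ⟨cor_prime b hP, hg_cor b P, fun t =>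
    cor_fer (h (Ideal.mem_sup_left (Ideal.subset_span ⟨t, rfl⟩))), fun t => ⟨s₀ t, hs t, fun h0 =>
      hP.ne_top ((Ideal.eq_top_iff_one P).2 ?_)⟩, ?_⟩
  · simpa using P.sub_mem (cor_le_self b P h0) (h (Ideal.mem_sup_right (Ideal.subset_span ⟨t, rfl⟩)))
  · rw [trdeg_cor hs hP (le_sup_right.trans h), he]

end Pool.Agent.Lib.MP_40dc3c_ag.P
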