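import Pool.Agent.Lib.MP_40dc3c_ag.P.DgA

/-! The averaged invariant of the join of the diagonal. -/

namespace Pool.Agent.Lib.MP_40dc3c_ag.P

open MvPolynomial Finset Function T

section
variable {k : Type} [Field k] {σ τ : Type} [Fintype σ] {b : σ → τ} {m : ℕ} {s₀ : τ → σ}

/-- the equation of a block: the Fermat form or a value of the scalar. -/
noncomputable def dgq (b : σ → τ) (m : ℕ) (u : τ) : Option k → MvPolynomial (σ ⊕ τ) k
  | none => dgf k b m u
  | some z => X (.inr u) - C z

/-- the equations of the other blocks. -/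
def dgG (b : σ → τ) (m : ℕ) (o : τ → Option k) (t : τ) : Set (MvPolynomial (σ ⊕ τ) k) :=
  {f | ∃ u, u ≠ t ∧ f = dgq b m u (o u)}

theorem dg_span [DecidableEq τ] (o : τ → Option k) (t : τ) (v : Option k) :
    Ideal.span (Set.range fun u => dgq b m u (update o t v u)) =
      Ideal.span (dgG b m o t) ⊔ .span {dgq b m t v} := by
  rw [← Ideal.span_union]
  congr 1
  ext f
  constructor
  · rintro ⟨u, rfl⟩
    by_cases e : u = t
    · subst e; right; simp
    · left; exact ⟨u, e, by simp [update_of_ne e]⟩
  · rintro (⟨u, e, rfl⟩ | rfl)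
    · exact ⟨u, by simp [update_of_ne e]⟩
    · exact ⟨t, by simp⟩

theorem dg_vars {u : τ} {v : Option k} {y : σ ⊕ τ} (h : y ∈ (dgq b m u v).vars) :
    Sum.elim b id y = u := by
  classical
  cases v with
  | none =>
    simp only [dgq, dgf, fer, map_sum, map_pow, rename_X] at h
    obtain ⟨s, hs, h⟩ := mem_biUnion.1 (vars_sum_subset _ _ h)
    have := vars_pow _ _ h
    rw [vars_X, mem_singleton] at this
    rw [this]
    exact (mem_filter.1 hs).2
  | some z =>
    have := vars_sub_subset _ h
    rw [vars_X, vars_C, union_empty, mem_singleton] at this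
    rw [this]
    rfl

theorem dg_fresh {o : τ → Option k} {t : τ} {y : σ ⊕ τ} (hy : Sum.elim b id y = t) :
    ∀ g ∈ dgG b m o t, y ∉ g.vars := by
  rintro _ ⟨u, e, rfl⟩ h
  exact e ((dg_vars h).symm.trans hy)

theorem dg_reg_l (o : τ → Option k) (t : τ) {n : ℕ} (hn : 0 < n) (z : k)
    (x : MvPolynomial (σ ⊕ τ) k) (h : (X (.inr t) ^ n - C z) * x ∈ Ideal.span (dgG b m o t)) :
    x ∈ Ideal.span (dgG b m o t) :=
  reg_fresh _ (.inr t) (dg_fresh rfl) hn (ψ := C (-z)) (by rwa [degreeOf_C]) isUnit_one x
    (by simpa [sub_eq_add_neg] using h)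

theorem dg_reg_f (hm : 0 < m) (hs : ∀ t, b (s₀ t) = t) (o : τ → Option k) (t : τ)
    (x : MvPolynomial (σ ⊕ τ) k) (h : dgf k b m t * x ∈ Ideal.span (dgG b m o t)) :
    x ∈ Ideal.span (dgG b m o t) := by
  classical
  refine reg_fresh _ (.inl (s₀ t)) (dg_fresh (b := b) (m := m) (o := o) (y := .inl (s₀ t)) (hs t)) hm
    (ψ := ∑ s ∈ (univ.filter fun s => b s = t).erase (s₀ t), X (.inl s) ^ m) ?_ isUnit_one x ?_
  · refine lt_of_eq_of_lt ?_ hm
    by_contra e
    obtain ⟨s, hs', h⟩ := mem_biUnion.1 (vars_sum_subset _ _ (mem_vars_iff_degreeOf_ne_zero.2 e))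
    have := vars_pow _ _ h
    rw [vars_X, mem_singleton] at this
    exact (mem_erase.1 hs').1 (Sum.inl_injective this).symm
  · convert h using 2
    simp only [dgf, fer, map_sum, map_pow, rename_X, map_one, one_mul]
    exact add_sum_erase _ (fun s => (X (Sum.inl s) : MvPolynomial (σ ⊕ τ) k) ^ m)
      (mem_filter.2 ⟨mem_univ _, hs t⟩)

theorem dg_term (u : τ) (v : Option k) (hv : ∀ z, v = some z → z ^ m = 1) :
    dgq b m u v ∣ dgf k b m u * (1 - X (.inr u) ^ m) := by
  cases v with
  | none => exact dvd_mul_right _ _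
  | some z =>
    refine Dvd.dvd.mul_left ?_ _
    have := sub_dvd_pow_sub_pow (X (.inr u) : MvPolynomial (σ ⊕ τ) k) (C z) m
    rw [← map_pow, hv z rfl, map_one] at this
    rw [← neg_sub]
    exact dvd_neg.2 this

theorem dg_H_mod [Fintype τ] {o : τ → Option k} (ho : ∀ u z, o u = some z → z ^ m = 1) (t : τ) :
    dgψ k b (hF k σ m) + dgf k b m t * (X (.inr t) ^ m - 1) ∈ Ideal.span (dgG b m o t) := by
  classical
  rw [dg_H, ← add_sum_erase _ _ (mem_univ t)]
  have h : ∑ u ∈ univ.erase t, dgf k b m u * (1 - X (.inr u) ^ m) ∈ Ideal.span (dgG b m o t) := by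
    refine Ideal.sum_mem _ fun u hu => ?_
    obtain ⟨y, hy⟩ := dg_term (b := b) u (o u) (ho u)
    rw [hy]
    exact Ideal.mul_mem_right _ _ (Ideal.subset_span ⟨u, (mem_erase.1 hu).1, rfl⟩)
  convert h using 1
  ring

theorem dg_base (g : τ → rootsOfUnity m k) :
    (Ideal.span (Set.range fun u => dgq b m u (some (((g u).1 : kˣ) : k)))).comap (dgψ k b) =
      gamI m (g ∘ b) := by
  refine le_antisymm (fun x hx => ?_) (Ideal.span_le.2 ?_)
  · let π := Ideal.Quotient.mkₐ k (gamI m (g ∘ b))
    let ev : MvPolynomial (σ ⊕ τ) k →ₐ[k] _ :=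
      aeval (Sum.elim (fun s => π (X (.inl s))) fun t => π (C (((g t).1 : kˣ) : k)))
    have e1 : ev.comp (dgψ k b) = π := by
      refine algHom_ext fun s => ?_
      rcases s with s | s
      · simp [ev]
      · simp only [AlgHom.comp_apply, dgψ_r, map_mul, ev, aeval_X, Sum.elim_inl, Sum.elim_inr]
        rw [← map_mul]
        have h : X (.inr s) - C (((g (b s)).1 : kˣ) : k) * X (.inl s) ∈ gamI m (g ∘ b) :=
          Ideal.subset_span ⟨s, rfl⟩
        exact (Ideal.Quotient.eq.2 h).symm
    have e3 : Ideal.span (Set.range fun u => dgq b m u (some (((g u).1 : kˣ) : k))) ≤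
        RingHom.ker ev := by
      refine Ideal.span_le.2 ?_
      rintro _ ⟨u, rfl⟩
      simp [dgq, ev]
    have e4 : ev (dgψ k b x) = 0 := e3 hx
    exact Ideal.Quotient.eq_zero_iff_mem.1 ((DFunLike.congr_fun e1 x).symm.trans e4)
  · rintro _ ⟨s, rfl⟩
    rw [SetLike.mem_coe, Ideal.mem_comap]
    simp only [map_sub, map_mul, dgψ_l, dgψ_r, algHom_C, algebraMap_eq, comp_apply]
    rw [← sub_mul]
    exact Ideal.mul_mem_right _ _ (Ideal.subset_span ⟨b s, rfl⟩)

theorem dg_chis {ω : kˣ →* ℂˣ} {c : σ → ℤ} [Fintype τ] (hc : Prim b m c)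
    (g : τ → rootsOfUnity m k) : chis ω m c (g ∘ b) = 1 := by
  classical
  rw [chis_apply, ← Finset.prod_fiberwise univ b]
  refine prod_eq_one fun t _ => ?_
  obtain ⟨a, ha⟩ := hc.sum t
  have e1 : ∀ S : Finset σ, ∏ s ∈ S, ((ω (g t).1 : ℂˣ) : ℂ) ^ c s =
      ((ω (g t).1 : ℂˣ) : ℂ) ^ ∑ s ∈ S, c s := fun S => by
    induction S using Finset.induction_on with
    | empty => simp
    | insert s S hs ih => rw [prod_insert hs, sum_insert hs, ih, zpow_add₀ (Units.ne_zero _)]
  have e2 : ((ω (g t).1 : ℂˣ) : ℂ) ^ m = 1 := by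
    rw [← Units.val_pow_eq_pow_val, ← map_pow, (mem_rootsOfUnity _ _).1 (g t).2]; simp
  rw [prod_congr rfl fun s h => by rw [chi_apply, comp_apply, (mem_filter.1 h).2], e1]
  have e3 : ∑ s with b s = t, c s = m * a := by rw [← ha]; congr
  rw [e3, zpow_mul, zpow_natCast, e2, one_zpow]

end

variable {k : Type} [Field k] [IsAlgClosed k] {σ τ : Type} [LinearOrder σ] [Fintype σ] [Fintype τ]
  {b : σ → τ} {m : ℕ} {ω : kˣ →* ℂˣ} {c : σ → ℤ} {s₀ : τ → σ}

theorem thb_aD (hm : (m : k) ≠ 0) (hω : Injective ω) (hs : ∀ t, b (s₀ t) = t) (hc : Prim b m c) :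
    thb ω m c (aD k b m s₀) = (-(m : ℂ)) ^ (Fintype.card σ + Fintype.card τ) := by
  classical
  have m0 : 0 < m := Nat.pos_of_ne_zero fun e => hm (by simp [e])
  have : NeZero (m : k) := ⟨hm⟩
  have : NeZero m := ⟨m0.ne'⟩
  obtain ⟨ζ, hζ⟩ := HasEnoughRootsOfUnity.exists_primitiveRoot k m
  obtain ⟨lam, h1, h2⟩ := dg_lam hm hω hs hc.ne
  have hH : ∀ o : τ → Option k, (∀ u z, o u = some z → z ^ m = 1) →
      dgψ k b (hF k σ m) ∈ Ideal.span (Set.range fun u => dgq b m u (o u)) := fun o ho => by
    rw [dg_H]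
    exact Ideal.sum_mem _ fun u _ =>
      Ideal.mem_of_dvd _ (dg_term u (o u) (ho u)) (Ideal.subset_span ⟨u, rfl⟩)
  have key : ∀ (A : Finset τ) (o : τ → Option k), (∀ u, o u = none ↔ u ∈ A) →
      (∀ u z, o u = some z → z ^ m = 1) → lam (Ideal.span (Set.range fun u => dgq b m u (o u))) =
        (-(m : ℂ)) ^ (Fintype.card σ + #A) := by
    intro A
    induction A using Finset.induction_on with
    | empty =>
      intro o hA ho
      choose z hz using fun u => Option.ne_none_iff_exists'.1 fun e => notMem_empty u ((hA u).1 e)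
      let g : τ → rootsOfUnity m k := fun u => rootsOfUnity.mkOfPowEq (z u) (ho u _ (hz u))
      have e : o = fun u => some (((g u).1 : kˣ) : k) := funext hz
      have hH' := hH o ho
      simp only [congrFun e] at hH' ⊢
      rw [h1 (gamI m (g ∘ b)) _ (by rw [← dg_base]; exact hH') hH' fun x => by
        simp only [← dg_base (b := b) g, Ideal.mem_comap, map_mul, map_pow],
        thb_gam hm hω hc.ne, dg_chis hc, mul_one, card_empty, add_zero]
    | insert t A ht ih =>
      intro o hA ho
      set J := Ideal.span (dgG b m o t) with hJ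
      let Z := Polynomial.nthRootsFinset m (1 : k)
      let L : k → MvPolynomial (σ ⊕ τ) k := fun z => X (.inr t) - C z
      have eZ : X (.inr t) ^ m - 1 = ∏ z ∈ Z, L z := by
        have := congrArg (Polynomial.aeval (X (.inr t) : MvPolynomial (σ ⊕ τ) k))
          (Polynomial.X_pow_sub_one_eq_prod m0 hζ)
        simpa [map_prod] using this
      have hm1 := dg_H_mod (b := b) ho t
      have s1 : ∀ Y : Finset k, Y ⊆ Z → lam (J ⊔ .span {(∏ z ∈ Y, L z) * dgf k b m t}) =
          lam (J ⊔ .span {dgf k b m t}) + #Y * (-(m : ℂ)) ^ (Fintype.card σ + #A) := by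
        intro Y
        induction Y using Finset.induction_on with
        | empty => simp
        | insert z Y hz ihY =>
          intro hY
          have hz1 : z ^ m = 1 := (Polynomial.mem_nthRootsFinset m0 1).1 (hY (mem_insert_self _ _))
          have hd : L z * ((∏ z ∈ Y, L z) * dgf k b m t) ∣ dgf k b m t * (X (.inr t) ^ m - 1) := by
            rw [← mul_assoc, ← prod_insert hz, mul_comm, eZ]
            exact mul_dvd_mul_left _ (prod_dvd_prod_of_subset _ _ _ hY)
          have e1 : lam (J ⊔ .span {L z}) = (-(m : ℂ)) ^ (Fintype.card σ + #A) := by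
            refine (congrArg lam (dg_span o t (some z)).symm).trans (ih _ (fun u => ?_) fun u y => ?_)
            · by_cases e : u = t
              · subst e; simp [ht]
              · rw [update_of_ne e, hA, mem_insert, or_iff_right e]
            · by_cases e : u = t
              · subst e
                rw [update_self, Option.some.injEq]
                rintro rfl
                exact hz1
              · rw [update_of_ne e]; exact ho u y
          rw [prod_insert hz, mul_assoc, h2 J _ _ (by
              have := sub_mem (Ideal.mem_sup_left hm1)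
                (Ideal.mem_sup_right (Ideal.mem_span_singleton.2 hd))
              rwa [add_sub_cancel_right] at this)
            (fun x hx => dg_reg_l o t one_pos z x (by rwa [pow_one])),
            ihY ((subset_insert _ _).trans hY), e1, card_insert_of_notMem hz]
          push_cast
          ring
      have s2 : J ⊔ .span {(∏ z ∈ Z, L z) * dgf k b m t} = J ⊔ .span {dgψ k b (hF k σ m)} := by
        rw [← eZ, mul_comm]
        refine le_antisymm (sup_le le_sup_left ((Ideal.span_singleton_le_iff_mem _).2 ?_))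
          (sup_le le_sup_left ((Ideal.span_singleton_le_iff_mem _).2 ?_))
        · have := sub_mem (Ideal.mem_sup_left hm1)
            (Ideal.mem_sup_right (Ideal.mem_span_singleton_self (dgψ k b (hF k σ m))))
          rwa [add_sub_cancel_left] at this
        · have := sub_mem (Ideal.mem_sup_left hm1)
            (Ideal.mem_sup_right (Ideal.mem_span_singleton_self
              (dgf k b m t * (X (.inr t) ^ m - 1))))
          rwa [add_sub_cancel_right] at this
      have s3 : lam (J ⊔ .span {dgψ k b (hF k σ m)}) = 0 := by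
        rw [h1 (J.comap (dgψ k b) ⊔ .span {hF k σ m}) _
          (Ideal.mem_sup_right (Ideal.mem_span_singleton_self _))
          (Ideal.mem_sup_right (Ideal.mem_span_singleton_self _)) fun x => ?_]
        · refine thb_ci fun x hx => ?_
          rw [Ideal.mem_comap, map_mul] at hx
          refine dg_reg_l o t m0 1 _ (dg_reg_f m0 hs o t _ ?_)
          have := sub_mem (J.mul_mem_right (dgψ k b x) hm1) hx
          rw [map_one]
          convert this using 1
          ring
        · simp only [sup_comm _ (Ideal.span {_}), Ideal.mem_span_singleton_sup]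
          constructor
          · rintro ⟨n, a, j, hj, e⟩
            exact ⟨n, dgψ k b a, dgψ k b j, hj, by rw [← map_pow, ← map_mul, ← map_mul, ← map_add, e]⟩
          · rintro ⟨n, a, j, hj, e⟩
            obtain ⟨N, a', ha⟩ := dg_surj (k := k) hs a
            refine ⟨N + n, a', dgg k s₀ ^ (N + n) * x - a' * hF k σ m, ?_, by ring⟩
            rw [Ideal.mem_comap, map_sub, map_mul, map_mul, map_pow, ← ha]
            convert J.mul_mem_left (dgψ k b (dgg k s₀) ^ N) hj using 1
            linear_combination (-(dgψ k b (dgg k s₀) ^ N)) * e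
      have s4 := s1 Z subset_rfl
      rw [s2, s3, hζ.card_nthRootsFinset] at s4
      have e : o = update o t none := by
        rw [← (hA t).2 (mem_insert_self _ _), update_eq_self]
      rw [e, dg_span, card_insert_of_notMem ht, ← add_assoc, pow_succ]
      show lam (J ⊔ .span {dgf k b m t}) = _
      linear_combination -s4
  rw [← h1 _ _ dg_hF_mem (hH (fun _ => none) fun _ _ => nofun) fun x =>
    ⟨fun ⟨n, hn⟩ => ⟨n, by
      have := dg_le hs hn
      rw [Ideal.mem_comap, map_mul, map_pow] at this
      exact this⟩,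
      fun ⟨n, hn⟩ => dg_sat x n hn⟩]
  exact key univ _ (by simp) fun _ _ => nofun

end Pool.Agent.Lib.MP_40dc3c_ag.P
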