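import Pool.Agent.Lib.MP_40dc3c_ag.P.Reg
import Pool.Agent.Lib.MP_40dc3c_ag.P.Cor
import Pool.Agent.Lib.MP_40dc3c_ag.T.KA

/-! Transport of a functional through a localisation. -/

namespace Pool.Agent.Lib.MP_40dc3c_ag.P

open MvPolynomial Finset Function T

theorem loc2 {R R' : Type} [CommRing R] [CommRing R'] [IsNoetherianRing R] [IsNoetherianRing R']
    (ψ : R →+* R') (g : R) (hs : ∀ y, ∃ (n : ℕ) (x : R), ψ g ^ n * y = ψ x) (Θ : K R →ₗ[ℂ] ℂ)
    (hΘ : ∀ P : Ideal R, P.IsPrime → g ∈ P → Θ (q P) = 0) : ∃ Λ : K R' →ₗ[ℂ] ℂ,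
      ∀ (I : Ideal R) (J : Ideal R'),
        (∀ x, (∃ n : ℕ, g ^ n * x ∈ I) ↔ ∃ n : ℕ, ψ g ^ n * ψ x ∈ J) → Λ (q J) = Θ (q I) := by
  have hf : (algebraMap R (Localization.Away g)).Flat :=
    RingHom.flat_algebraMap_iff.2 (IsLocalization.flat _ (Submonoid.powers g))
  have hf' : (algebraMap R' (Localization.Away (ψ g))).Flat :=
    RingHom.flat_algebraMap_iff.2 (IsLocalization.flat _ (Submonoid.powers (ψ g)))
  let φ := IsLocalization.Away.map (Localization.Away g) (Localization.Away (ψ g)) ψ g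
  have hφ : Surjective φ := fun z => by
    obtain ⟨⟨y, _, n, rfl⟩, rfl⟩ := IsLocalization.mk'_surjective (Submonoid.powers (ψ g)) z
    obtain ⟨m, x, e⟩ := hs y
    refine ⟨IsLocalization.mk' _ x (⟨g ^ (m + n), m + n, rfl⟩ : Submonoid.powers g), ?_⟩
    refine (IsLocalization.map_mk' _ _ _).trans (IsLocalization.mk'_eq_of_eq ?_)
    simp only [← e, map_pow]
    ring
  have hk : Θ ∈ (LinearMap.ker (pull _ hf)).dualAnnihilator := by
    refine (Submodule.mem_dualAnnihilator _).2 fun x hx => ?_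
    have := ker_pull_loc (Submonoid.powers g) _ hf rfl hx
    rw [tor_powers] at this
    refine (Submodule.span_le.2 ?_ : _ ≤ LinearMap.ker Θ) this
    rintro _ ⟨P, hP, hg, rfl⟩
    exact hΘ P hP hg
  rw [← LinearMap.range_dualMap_eq_dualAnnihilator_ker] at hk
  obtain ⟨Θ', rfl⟩ := hk
  refine ⟨Θ' ∘ₗ push φ (.of_surjective φ hφ) ∘ₗ pull _ hf', fun I J h => ?_⟩
  rw [LinearMap.comp_apply, LinearMap.comp_apply, pull_q, push_q _ _ hφ, LinearMap.dualMap_apply,
    pull_q]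
  refine congrArg (fun I => Θ' (q I)) (Ideal.ext fun z => ?_)
  obtain ⟨⟨x, s⟩, rfl⟩ := IsLocalization.mk'_surjective (Submonoid.powers g) z
  have e0 : φ (IsLocalization.mk' _ x s) = _ := IsLocalization.map_mk' _ _ _
  rw [Ideal.mem_comap, e0, IsLocalization.mk'_mem_map_algebraMap_iff,
    IsLocalization.mk'_mem_map_algebraMap_iff]
  refine ⟨?_, ?_⟩
  · rintro ⟨_, ⟨n, rfl⟩, e⟩
    obtain ⟨m, e'⟩ := (h x).2 ⟨n, e⟩
    exact ⟨_, ⟨m, rfl⟩, e'⟩
  · rintro ⟨_, ⟨n, rfl⟩, e⟩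
    obtain ⟨m, e'⟩ := (h x).1 ⟨n, e⟩
    exact ⟨_, ⟨m, rfl⟩, e'⟩

section cone

variable {k : Type} [Field k] {ρ τ D : Type} [CommRing D] [Algebra k D] {β : ρ → τ}

theorem lo_eval (v : ρ → D) (u : τ → D) (f : MvPolynomial ρ k) :
    MvPolynomial.eval u (cn k β v f) = aeval (fun s => v s * u (β s)) f := by
  induction f using MvPolynomial.induction_on with
  | C c =>
    rw [← algebraMap_eq, AlgHom.commutes, AlgHom.commutes, MvPolynomial.algebraMap_apply,
      eval_C]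
  | add p q hp hq => rw [map_add, map_add, hp, hq, map_add]
  | mul_X p a hp => rw [map_mul, map_mul, hp, cn_X, map_mul, map_mul, eval_C, eval_X, aeval_X]

theorem lo_le {I : Ideal (MvPolynomial ρ k)} (hI : Hg β I) {v : ρ → D}
    (h : ∀ f ∈ I, aeval v f = 0) : I ≤ cnI k β v := by
  obtain ⟨G, hG, rfl⟩ := hI.exists_span
  refine Ideal.span_le.2 fun f hf => ?_
  obtain ⟨d, hd⟩ := hG f hf
  exact (mem_cnI_iff (fun t => et t) cn_wt_inj hd).2 (h f (Ideal.subset_span hf))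

theorem lo_scale {I : Ideal (MvPolynomial ρ k)} (hI : Hg β I) {v : ρ → D}
    (h : ∀ f ∈ I, aeval v f = 0) (u : τ → D) {f : MvPolynomial ρ k} (hf : f ∈ I) :
    aeval (fun s => v s * u (β s)) f = 0 := by
  rw [← lo_eval, mem_cnI.1 (lo_le hI h hf), map_zero]

theorem lo_hg (v : ρ → D) : Hg β (cnI k β v) := fun _ hf d => comp_mem_cnI (fun t => et t) hf d

theorem lo_aeval (π : MvPolynomial ρ k →ₐ[k] D) (f : MvPolynomial ρ k) :
    aeval (fun s => π (X s)) f = π f :=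
  AlgHom.congr_fun (algHom_ext fun s => aeval_X _ s : aeval (fun s => π (X s)) = π) f

theorem lo_mem (v : ρ → D) (J : Ideal D) (f : MvPolynomial ρ k) :
    cn k β v f ∈ J.map (C : D →+* MvPolynomial τ D) ↔
      f ∈ cnI k β fun s => Ideal.Quotient.mk J (v s) := by
  have e : map (Ideal.Quotient.mk J) (cn k β v f) =
      cn k β (fun s => Ideal.Quotient.mk J (v s)) f := by
    induction f using MvPolynomial.induction_on with
    | C c =>
      rw [← algebraMap_eq, AlgHom.commutes, AlgHom.commutes, MvPolynomial.algebraMap_apply,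
        map_C]
      rfl
    | add p q hp hq => rw [map_add, map_add, hp, hq, map_add]
    | mul_X p a hp => rw [map_mul, map_mul, hp, cn_X, map_mul, map_mul, map_C, map_X, cn_X]
  rw [mem_cnI, ← e, ← RingHom.mem_ker, MvPolynomial.ker_map, Ideal.mk_ker]

/-- saturation of a homogeneous ideal. -/
theorem lo_sat [Fintype τ] {y₀ : τ → ρ} (hy : ∀ t, β (y₀ t) = t) {I N : Ideal (MvPolynomial ρ k)}
    (hI : Hg β I) (hN : Hg β N) (h : N ≤ I ⊔ unitI k y₀) {f : MvPolynomial ρ k} (hf : f ∈ N) :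
    ∃ n : ℕ, (∏ t, X (y₀ t)) ^ n * f ∈ I := by
  let L := Localization.Away (Ideal.Quotient.mk I (∏ t, X (y₀ t)))
  let j : MvPolynomial ρ k →ₐ[k] L :=
    (IsScalarTower.toAlgHom k (MvPolynomial ρ k ⧸ I) L).comp (Ideal.Quotient.mkₐ k I)
  have hu : ∀ t, ∃ w, j (X (y₀ t)) * w = 1 := fun t =>
    (isUnit_of_dvd_unit (map_dvd j (dvd_prod_of_mem (fun t => X (y₀ t)) (mem_univ t)))
      (IsLocalization.Away.algebraMap_isUnit (S := L)
        (Ideal.Quotient.mk I (∏ t, X (y₀ t))))).exists_right_inv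
  choose w hw using hu
  have h1 : I ⊔ unitI k y₀ ≤ RingHom.ker (aeval (R := k) fun s => j (X s) * w (β s)) := by
    refine sup_le (fun x hx => lo_scale hI (fun x hx => ?_) w hx) (Ideal.span_le.2 ?_)
    · rw [lo_aeval]
      exact (congrArg (algebraMap _ L) (Ideal.Quotient.eq_zero_iff_mem.2 hx)).trans (map_zero _)
    · rintro _ ⟨t, rfl⟩
      rw [SetLike.mem_coe, RingHom.mem_ker, map_sub, aeval_X, hy, hw, map_one, sub_self]
  have h2 := lo_scale hN (fun x hx => h1 (h hx)) (fun t => j (X (y₀ t))) hf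
  have h3 : (fun s => j (X s) * w (β s) * j (X (y₀ (β s)))) = fun s => j (X s) :=
    funext fun s => by rw [mul_assoc, mul_comm (w _), hw, mul_one]
  rw [h3, lo_aeval] at h2
  obtain ⟨⟨_, n, rfl⟩, e⟩ := (IsLocalization.map_eq_zero_iff
    (Submonoid.powers (Ideal.Quotient.mk I (∏ t, X (y₀ t)))) L (Ideal.Quotient.mk I f)).1 h2
  exact ⟨n, Ideal.Quotient.eq_zero_iff_mem.1 (by rw [map_mul, map_pow]; exact e)⟩

/-- the parametrisation is onto after inverting the chart variables. -/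
theorem lo_surj [Fintype τ] {y₀ : τ → ρ} (hy : ∀ t, β (y₀ t) = t) {v : ρ → D}
    (hv : Surjective (aeval v : MvPolynomial ρ k →ₐ[k] D)) (h1 : ∀ t, v (y₀ t) = 1)
    (y : MvPolynomial τ D) :
    ∃ (n : ℕ) (x : MvPolynomial ρ k), (∏ t, X t) ^ n * y = cn k β v x := by
  classical
  have hX : ∀ t, cn k β v (X (y₀ t)) = X t := fun t => by rw [cn_X, h1, hy, map_one, one_mul]
  have hG : cn k β v (∏ t, X (y₀ t)) = ∏ t, X t := by simp only [map_prod, hX]
  have hadd : ∀ y z : MvPolynomial τ D, (∃ (n : ℕ) (x : _), (∏ t, X t) ^ n * y = cn k β v x) →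
      (∃ (n : ℕ) (x : _), (∏ t, X t) ^ n * z = cn k β v x) →
      ∃ (n : ℕ) (x : _), (∏ t, X t) ^ n * (y + z) = cn k β v x := by
    rintro y z ⟨n, a, e⟩ ⟨m, b, e'⟩
    refine ⟨n + m, (∏ t, X (y₀ t)) ^ m * a + (∏ t, X (y₀ t)) ^ n * b, ?_⟩
    rw [map_add, map_mul, map_mul, map_pow, map_pow, hG, ← e, ← e']
    ring
  induction y using MvPolynomial.induction_on with
  | C c =>
    obtain ⟨f, rfl⟩ := hv c
    induction f using MvPolynomial.induction_on with
    | C c =>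
      refine ⟨0, C c, ?_⟩
      rw [pow_zero, one_mul, ← algebraMap_eq (R := k), AlgHom.commutes, AlgHom.commutes,
        MvPolynomial.algebraMap_apply]
    | add p q hp hq => rw [map_add, map_add]; exact hadd _ _ hp hq
    | mul_X p s hp =>
      obtain ⟨n, a, e⟩ := hp
      refine ⟨n + 1, a * X s * ∏ t ∈ univ.erase (β s), X (y₀ t), ?_⟩
      simp only [map_mul, map_prod, hX, ← e, aeval_X]
      rw [cn_X, pow_succ, mul_assoc, ← mul_prod_erase univ (fun t => X t) (mem_univ (β s))]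
      ring
  | add p q hp hq => exact hadd _ _ hp hq
  | mul_X p t hp =>
    obtain ⟨n, a, e⟩ := hp
    exact ⟨n, a * X (y₀ t), by rw [map_mul, hX, ← e, mul_assoc]⟩

end cone

variable {k : Type} [Field k] {ρ τ : Type} [Finite ρ] [Finite τ]

theorem loc_lam (β : ρ → τ) (y₀ : τ → ρ) (hy : ∀ t, β (y₀ t) = t)
    {F₀ F : Ideal (MvPolynomial ρ k)} (h0 : F₀ ≤ F) (hF : Hg β F)
    (Θ : K (MvPolynomial ρ k ⧸ F₀) →ₗ[ℂ] ℂ)
    (hΘ : ∀ (P : Ideal (MvPolynomial ρ k)) t, F₀ ≤ P → X (y₀ t) ∈ P →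
      Θ (q (P.map (Ideal.Quotient.mk F₀))) = 0)
    {A : Type} [CommRing A] [Algebra k A] (π : MvPolynomial ρ k →ₐ[k] A) (hπ : Surjective π)
    (hk : RingHom.ker π = F ⊔ unitI k y₀) : ∃ Λ : K A →ₗ[ℂ] ℂ, (∀ I, Hg β I → F ≤ I →
      Λ (q (I.map π)) = Θ (q (I.map (Ideal.Quotient.mk F₀)))) ∧
      ∀ Q : Ideal A, ∃ I, Hg β I ∧ F ≤ I ∧ I.map π = Q := by
  have := Fintype.ofFinite τ
  have : IsNoetherianRing A := isNoetherianRing_of_surjective _ _ π.toRingHom hπ
  have hπF : ∀ f ∈ F, π f = 0 := fun f hf => (hk.ge (Ideal.mem_sup_left hf) :)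
  have h1 : ∀ t, π (X (y₀ t)) = 1 := fun t => by
    have : π (X (y₀ t) - 1) = 0 := hk.ge (Ideal.mem_sup_right (Ideal.subset_span ⟨t, rfl⟩))
    rwa [map_sub, map_one, sub_eq_zero] at this
  have hF' : F ≤ cnI k β fun s => π (X s) := lo_le hF fun f hf => (lo_aeval π f).trans (hπF f hf)
  have hs := lo_surj (k := k) hy (v := fun s => π (X s))
    (fun a => (hπ a).imp fun f hf => (lo_aeval π f).trans hf) h1
  have hG : cn k β (fun s => π (X s)) (∏ t, X (y₀ t)) = ∏ t, X t := by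
    simp only [map_prod, cn_X, h1, hy, map_one, one_mul]
  have hq : ∀ (J : Ideal A) f, aeval (fun s => Ideal.Quotient.mk J (π (X s))) f = 0 ↔ π f ∈ J :=
    fun J f => by
      rw [← Ideal.Quotient.eq_zero_iff_mem]
      exact Eq.congr_left (lo_aeval ((Ideal.Quotient.mkₐ k J).comp π) f)
  let ψ : (MvPolynomial ρ k ⧸ F₀) →+* MvPolynomial τ A :=
    Ideal.Quotient.lift F₀ (cn k β fun s => π (X s)) fun f hf => hF' (h0 hf)
  have hψ : ∀ f, ψ (Ideal.Quotient.mk F₀ f) = cn k β (fun s => π (X s)) f := fun _ => rfl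
  obtain ⟨Λ, hΛ⟩ := loc2 ψ (Ideal.Quotient.mk F₀ (∏ t, X (y₀ t))) (fun y => by
      obtain ⟨n, x, e⟩ := hs y
      exact ⟨n, Ideal.Quotient.mk F₀ x, by rw [hψ, hψ, hG, e]⟩) Θ fun P hP hg => by
    obtain ⟨t, -, ht⟩ := (Ideal.IsPrime.prod_mem_iff
      (p := P.comap (Ideal.Quotient.mk F₀))).1 hg
    have := hΘ (P.comap (Ideal.Quotient.mk F₀)) t
      (fun f hf => by rw [Ideal.mem_comap, Ideal.Quotient.eq_zero_iff_mem.2 hf]; exact zero_mem _) ht
    rwa [Ideal.map_comap_of_surjective _ Ideal.Quotient.mk_surjective] at this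
  have hC : (C : A →+* MvPolynomial τ A).Flat :=
    RingHom.flat_algebraMap_iff.2 (inferInstance : Module.Flat A (MvPolynomial τ A))
  refine ⟨Λ ∘ₗ pull C hC, fun I hI hFI => ?_, fun Q => ⟨cnI k β fun s =>
    Ideal.Quotient.mk Q (π (X s)), lo_hg _, lo_le hF fun f hf => (hq Q f).2 ?_, le_antisymm
      (Ideal.map_le_iff_le_comap.2 fun f hf => (hq Q f).1 (aeval_of_mem_cnI hf)) fun a ha => ?_⟩⟩
  · rw [LinearMap.comp_apply, pull_q]
    refine hΛ _ _ fun x => ?_
    obtain ⟨f, rfl⟩ := Ideal.Quotient.mk_surjective x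
    simp only [← map_pow, ← map_mul, hψ, lo_mem, Ideal.mem_quotient_iff_mem (h0.trans hFI)]
    refine ⟨fun ⟨n, e⟩ => ⟨n, lo_le hI (fun f hf => (hq _ f).2 (Ideal.mem_map_of_mem _ hf)) e⟩,
      fun ⟨n, e⟩ => ?_⟩
    obtain ⟨m, e'⟩ := lo_sat hy hI (lo_hg _) (fun f hf => by
      have := (hq _ f).1 (aeval_of_mem_cnI hf)
      rw [← Ideal.mem_comap, Ideal.comap_map_of_surjective _ hπ, ← RingHom.ker_eq_comap_bot, hk,
        ← sup_assoc, sup_eq_left.2 hFI] at this
      exact this) e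
    exact ⟨m + n, by rwa [pow_add, mul_assoc]⟩
  · rw [hπF f hf]
    exact zero_mem _
  · obtain ⟨n, x, e⟩ := hs (C a)
    have e' := congrArg (MvPolynomial.eval fun _ => (1 : A)) e
    rw [cn_one, lo_aeval] at e'
    simp only [map_mul, map_pow, map_prod, eval_X, eval_C, prod_const_one, one_pow, one_mul] at e'
    rw [e']
    exact Ideal.mem_map_of_mem _ ((lo_mem _ Q x).1
      (e ▸ Ideal.mul_mem_left _ _ (Ideal.mem_map_of_mem _ ha)))

/-- additivity along a product with a regular factor. -/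
theorem q_mul {R : Type} [CommRing R] [IsNoetherianRing R] (I : Ideal R) {a : R} (b : R)
    (h : ∀ x, a * x ∈ I → x ∈ I) :
    q (I ⊔ .span {a * b}) = q (I ⊔ .span {a}) + q (I ⊔ .span {b}) := by
  have l : I ⊔ .span {a * b} ≤ I ⊔ .span {a} :=
    sup_le_sup_left (Ideal.span_singleton_le_span_singleton.2 (dvd_mul_right a b)) I
  have l' : I ⊔ .span {b} ≤
      Submodule.comap (a • LinearMap.id : R →ₗ[R] R) (I ⊔ Ideal.span {a * b}) :=
    sup_le (fun x hx => Ideal.mem_sup_left (I.mul_mem_left a hx))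
      ((Ideal.span_singleton_le_iff_mem _).2 (Ideal.mem_sup_right (Ideal.mem_span_singleton_self _)))
  rw [add_comm]
  refine cl_exact (Submodule.mapQ _ _ _ l') (Submodule.factor l) ?_ (fun x => ?_)
    (Submodule.factor_surjective l)
  · refine (injective_iff_map_eq_zero _).2 fun x hx => ?_
    obtain ⟨x, rfl⟩ := Submodule.Quotient.mk_surjective _ x
    obtain ⟨i, hi, c, hc, e⟩ := Submodule.mem_sup.1 ((Submodule.Quotient.mk_eq_zero _).1 hx)
    obtain ⟨c, rfl⟩ := Ideal.mem_span_singleton.1 hc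
    have e' : i + a * b * c = a * x := e
    refine (Submodule.Quotient.mk_eq_zero _).2 (Submodule.mem_sup.2 ⟨x - b * c, h _ ?_, b * c,
      Ideal.mem_span_singleton.2 (dvd_mul_right _ _), sub_add_cancel _ _⟩)
    rwa [mul_sub, ← e', ← mul_assoc, add_sub_cancel_right]
  · obtain ⟨x, rfl⟩ := Submodule.Quotient.mk_surjective _ x
    refine ((Submodule.Quotient.mk_eq_zero _).trans Submodule.mem_sup).trans ⟨?_, ?_⟩
    · rintro ⟨i, hi, c, hc, rfl⟩
      obtain ⟨c, rfl⟩ := Ideal.mem_span_singleton.1 hc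
      exact ⟨Submodule.Quotient.mk c, (Submodule.Quotient.eq _).2
        (Ideal.mem_sup_left (by simpa using hi))⟩
    · rintro ⟨c, hc⟩
      obtain ⟨c, rfl⟩ := Submodule.Quotient.mk_surjective _ c
      have hc' : a * c - x ∈ I ⊔ .span {a} := l ((Submodule.Quotient.eq _).1 hc)
      refine Submodule.mem_sup.1 ?_
      have := sub_mem (Ideal.mem_sup_right (S := I)
        (Ideal.mem_span_singleton.2 (dvd_mul_right a c))) hc'
      rwa [sub_sub_cancel] at this

end Pool.Agent.Lib.MP_40dc3c_ag.P
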