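import Pool.Agent.Lib.MP_40dc3c_ag.P.Ti
import Pool.Agent.Lib.MP_40dc3c_ag.P.Lo

/-! The chart of the join of the diagonal. -/

namespace Pool.Agent.Lib.MP_40dc3c_ag.P

open MvPolynomial Finset Function T

theorem dg_colon {R : Type} [CommRing R] [IsNoetherianRing R] (I J : Ideal R) (a : R)
    (h : ∀ x, a * x ∈ I ↔ x ∈ J) : q I = q J + q (I ⊔ .span {a}) :=
  cl_exact (R := R) (Submodule.mapQ J I (a • LinearMap.id) fun x hx => by
      simpa using (h x).2 hx)
    (Submodule.factor (le_sup_left : I ≤ I ⊔ Ideal.span {a})) (by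
      refine (injective_iff_map_eq_zero _).2 fun x hx => ?_
      obtain ⟨x, rfl⟩ := Submodule.Quotient.mk_surjective _ x
      exact (Submodule.Quotient.mk_eq_zero _).2
        ((h x).1 ((Submodule.Quotient.mk_eq_zero _).1 hx))) (fun x => by
      obtain ⟨x, rfl⟩ := Submodule.Quotient.mk_surjective _ x
      refine ((Submodule.Quotient.mk_eq_zero _).trans Submodule.mem_sup).trans ⟨?_, ?_⟩
      · rintro ⟨u, hu, v, hv, rfl⟩
        obtain ⟨c, rfl⟩ := Ideal.mem_span_singleton.1 hv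
        exact ⟨Submodule.Quotient.mk c, (Submodule.Quotient.eq _).2 (by simpa using hu)⟩
      · rintro ⟨c, hc⟩
        obtain ⟨c, rfl⟩ := Submodule.Quotient.mk_surjective _ c
        exact ⟨-(a * c - x), I.neg_mem ((Submodule.Quotient.eq _).1 hc), a * c,
          Ideal.mem_span_singleton.2 (dvd_mul_right _ _), show _ = x by ring⟩)
    (Submodule.factor_surjective _)

variable {k : Type} [Field k] {σ τ : Type} {b : σ → τ} {m : ℕ} {s₀ : τ → σ}

/-- the chart: the right variables are multiples of the left ones. -/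
noncomputable def dgψ (k : Type) [Field k] (b : σ → τ) :
    MvPolynomial (σ ⊕ σ) k →ₐ[k] MvPolynomial (σ ⊕ τ) k :=
  aeval (Sum.elim (fun s => X (.inl s)) fun s => X (.inr (b s)) * X (.inl s))

@[simp] theorem dgψ_l (s : σ) : dgψ k b (X (.inl s)) = X (.inl s) := by simp [dgψ]

@[simp] theorem dgψ_r (s : σ) : dgψ k b (X (.inr s)) = X (.inr (b s)) * X (.inl s) := by
  simp [dgψ]

/-- the product of the chosen variables. -/
noncomputable def dgg (k : Type) [Field k] [Fintype τ] (s₀ : τ → σ) : MvPolynomial (σ ⊕ σ) k :=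
  ∏ t, X (.inl (s₀ t))

theorem dg_surj [Fintype τ] (hs : ∀ t, b (s₀ t) = t) (y : MvPolynomial (σ ⊕ τ) k) :
    ∃ (n : ℕ) (x : MvPolynomial (σ ⊕ σ) k), dgψ k b (dgg k s₀) ^ n * y = dgψ k b x := by
  classical
  induction y using MvPolynomial.induction_on with
  | C a => exact ⟨0, C a, by simp⟩
  | add p r hp hr =>
    obtain ⟨n, x, hx⟩ := hp
    obtain ⟨n', x', hx'⟩ := hr
    refine ⟨n + n', dgg k s₀ ^ n' * x + dgg k s₀ ^ n * x', ?_⟩
    rw [map_add, map_mul, map_mul, map_pow, map_pow, ← hx, ← hx']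
    ring
  | mul_X p s hp =>
    obtain ⟨n, x, hx⟩ := hp
    rcases s with s | t
    · exact ⟨n, x * X (.inl s), by rw [map_mul, dgψ_l, ← hx, mul_assoc]⟩
    · refine ⟨n + 1, x * ((∏ u ∈ univ.erase t, X (.inl (s₀ u))) * X (.inr (s₀ t))), ?_⟩
      have e : dgg k s₀ = (∏ u ∈ univ.erase t, X (.inl (s₀ u))) * X (.inl (s₀ t)) :=
        (prod_erase_mul _ _ (mem_univ t)).symm
      rw [map_mul, map_mul, dgψ_r, hs, ← hx, pow_succ]
      nth_rewrite 2 [e]
      rw [map_mul, dgψ_l]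
      ring

variable [Fintype σ]

/-- the Fermat form of a block in the chart. -/
noncomputable def dgf (k : Type) [Field k] (b : σ → τ) (m : ℕ) (u : τ) : MvPolynomial (σ ⊕ τ) k :=
  rename Sum.inl (fer k b m u)

theorem dgψ_fl (u : τ) : dgψ k b (rename Sum.inl (fer k b m u)) = dgf k b m u := by
  simp [fer, dgf]

theorem dgψ_fr (u : τ) :
    dgψ k b (rename Sum.inr (fer k b m u)) = X (.inr u) ^ m * dgf k b m u := by
  classical
  simp only [fer, dgf, map_sum, map_pow, rename_X, dgψ_r, mul_sum]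
  refine sum_congr rfl fun s h => ?_
  rw [(mem_filter.1 h).2, mul_pow]

theorem dg_hF [Fintype τ] :
    hF k σ m = ∑ u, (rename Sum.inl (fer k b m u) - rename Sum.inr (fer k b m u)) := by
  classical
  simp only [hF, fa_mul_fc, fer, map_sum, map_pow, rename_X, ← sum_sub_distrib]
  rw [← Finset.sum_fiberwise univ b]

theorem dg_H [Fintype τ] :
    dgψ k b (hF k σ m) = ∑ u, dgf k b m u * (1 - X (.inr u) ^ m) := by
  rw [dg_hF (b := b), map_sum]
  refine sum_congr rfl fun u _ => ?_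
  rw [map_sub, dgψ_fl, dgψ_fr]
  ring

theorem dg_hF_mem [Fintype τ] : hF k σ m ∈ aD k b m s₀ := by
  rw [dg_hF (b := b)]
  refine Ideal.mem_sup_left (Ideal.sum_mem _ fun u _ => sub_mem ?_ ?_)
  · exact Ideal.mem_sup_left (Ideal.mem_map_of_mem _ (Ideal.subset_span ⟨u, rfl⟩))
  · exact Ideal.mem_sup_right (Ideal.mem_map_of_mem _ (Ideal.subset_span ⟨u, rfl⟩))

theorem dg_le (hs : ∀ t, b (s₀ t) = t) :
    aD k b m s₀ ≤ (Ideal.span (Set.range (dgf k b m))).comap (dgψ k b) := by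
  refine sup_le (sup_le ?_ ?_) (Ideal.span_le.2 ?_)
  · rw [Ideal.map_le_iff_le_comap]
    refine Ideal.span_le.2 ?_
    rintro _ ⟨u, rfl⟩
    rw [SetLike.mem_coe, Ideal.mem_comap, Ideal.mem_comap, dgψ_fl]
    exact Ideal.subset_span ⟨u, rfl⟩
  · rw [Ideal.map_le_iff_le_comap]
    refine Ideal.span_le.2 ?_
    rintro _ ⟨u, rfl⟩
    rw [SetLike.mem_coe, Ideal.mem_comap, Ideal.mem_comap, dgψ_fr]
    exact Ideal.mul_mem_left _ _ (Ideal.subset_span ⟨u, rfl⟩)
  · rintro _ ⟨s, rfl⟩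
    rw [SetLike.mem_coe, Ideal.mem_comap]
    simp only [map_sub, map_mul, dgψ_l, dgψ_r, hs]
    convert Ideal.zero_mem _
    ring

theorem dg_sat [Fintype τ] (x : MvPolynomial (σ ⊕ σ) k) (n : ℕ)
    (h : dgψ k b (dgg k s₀) ^ n * dgψ k b x ∈ Ideal.span (Set.range (dgf k b m))) :
    ∃ n : ℕ, dgg k s₀ ^ n * x ∈ aD k b m s₀ := by
  let g := Ideal.Quotient.mk (aD k b m s₀) (dgg k s₀)
  let π : MvPolynomial (σ ⊕ σ) k →ₐ[k] Localization.Away g :=
    (IsScalarTower.toAlgHom k _ _).comp (Ideal.Quotient.mkₐ k (aD k b m s₀))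
  have p0 : ∀ y ∈ aD k b m s₀, π y = 0 := fun y hy => by
    show algebraMap _ (Localization.Away g) (Ideal.Quotient.mk (aD k b m s₀) y) = 0
    rw [Ideal.Quotient.eq_zero_iff_mem.2 hy, map_zero]
  have p1 : IsUnit (π (dgg k s₀)) := IsLocalization.Away.algebraMap_isUnit g
  have p2 : ∀ t, ∃ v, π (X (.inl (s₀ t))) * v = 1 := fun t =>
    (isUnit_of_dvd_unit (map_dvd π (dvd_prod_of_mem (fun t => X (Sum.inl (s₀ t))) (mem_univ t)))
      p1).exists_right_inv
  choose v hv using p2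
  let ev : MvPolynomial (σ ⊕ τ) k →ₐ[k] Localization.Away g :=
    aeval (Sum.elim (fun s => π (X (.inl s))) fun t => π (X (.inr (s₀ t))) * v t)
  have e1 : ev.comp (dgψ k b) = π := by
    refine algHom_ext fun s => ?_
    rcases s with s | s
    · simp [ev]
    · have h1 := p0 _ (Ideal.mem_sup_right (Ideal.subset_span ⟨s, rfl⟩))
      simp only [map_sub, map_mul] at h1
      simp only [AlgHom.comp_apply, dgψ_r, map_mul, ev, aeval_X, Sum.elim_inl, Sum.elim_inr]
      linear_combination v (b s) * h1 + π (X (.inr s)) * hv (b s)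
  have e2 : ∀ y, ev (dgψ k b y) = π y := fun y => DFunLike.congr_fun e1 y
  have e3 : Ideal.span (Set.range (dgf k b m)) ≤ RingHom.ker ev := by
    refine Ideal.span_le.2 ?_
    rintro _ ⟨u, rfl⟩
    rw [SetLike.mem_coe, RingHom.mem_ker, ← dgψ_fl, e2]
    exact p0 _ (Ideal.mem_sup_left (Ideal.mem_sup_left
      (Ideal.mem_map_of_mem _ (Ideal.subset_span ⟨u, rfl⟩))))
  have e4 := e3 h
  rw [← map_pow, ← map_mul, RingHom.mem_ker, e2] at e4
  obtain ⟨⟨_, N, rfl⟩, hN⟩ := (IsLocalization.map_eq_zero_iff (Submonoid.powers g)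
    (Localization.Away g) (Ideal.Quotient.mk (aD k b m s₀) (dgg k s₀ ^ n * x))).1 e4
  refine ⟨N + n, Ideal.Quotient.eq_zero_iff_mem.1 ?_⟩
  rw [pow_add, mul_assoc, map_mul, map_pow]
  exact hN

variable [IsAlgClosed k] [LinearOrder σ] [Fintype τ] {ω : kˣ →* ℂˣ} {c : σ → ℤ}

theorem dg_lam (hm : (m : k) ≠ 0) (hω : Injective ω) (hs : ∀ t, b (s₀ t) = t)
    (hc : ∀ s, ¬(m : ℤ) ∣ c s) : ∃ lam : Ideal (MvPolynomial (σ ⊕ τ) k) → ℂ,
    (∀ I J, hF k σ m ∈ I → dgψ k b (hF k σ m) ∈ J → (∀ x, (∃ n : ℕ, dgg k s₀ ^ n * x ∈ I) ↔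
      ∃ n : ℕ, dgψ k b (dgg k s₀) ^ n * dgψ k b x ∈ J) → lam J = thb ω m c I) ∧
    ∀ J u v, dgψ k b (hF k σ m) ∈ J ⊔ .span {u * v} → (∀ x, u * x ∈ J → x ∈ J) →
      lam (J ⊔ .span {u * v}) = lam (J ⊔ .span {v}) + lam (J ⊔ .span {u}) := by
  obtain ⟨Θ, hΘ⟩ := exists_thb (σ := σ) hm ω c
  let F : Ideal (MvPolynomial (σ ⊕ σ) k) := .span {hF k σ m}
  let H : Ideal (MvPolynomial (σ ⊕ τ) k) := .span {dgψ k b (hF k σ m)}
  have hFH : F ≤ H.comap (dgψ k b).toRingHom :=
    (Ideal.span_singleton_le_iff_mem _).2 (Ideal.mem_span_singleton_self _)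
  let ψ := Ideal.quotientMap H (dgψ k b).toRingHom hFH
  have hψ : ∀ x, ψ (Ideal.Quotient.mk F x) = Ideal.Quotient.mk H (dgψ k b x) :=
    fun x => Ideal.quotientMap_mk
  obtain ⟨Λ, hΛ⟩ := loc2 ψ (Ideal.Quotient.mk F (dgg k s₀)) (fun y => by
      obtain ⟨y, rfl⟩ := Ideal.Quotient.mk_surjective y
      obtain ⟨n, x, hx⟩ := dg_surj (k := k) hs y
      exact ⟨n, Ideal.Quotient.mk F x, by rw [hψ, hψ, ← map_pow, ← map_mul, hx]⟩) Θ
    (fun P hP hg => by
      have h1 : hF k σ m ∈ P.comap (Ideal.Quotient.mk F) := by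
        rw [Ideal.mem_comap, Ideal.Quotient.eq_zero_iff_mem.2 (Ideal.mem_span_singleton_self _)]
        exact zero_mem _
      obtain ⟨t, -, ht⟩ := (Ideal.IsPrime.prod_mem_iff (hp := hP.comap (Ideal.Quotient.mk F))).1
        (show ∏ t, X (Sum.inl (s₀ t)) ∈ P.comap (Ideal.Quotient.mk F) from hg)
      rw [← Ideal.map_comap_of_surjective _ Ideal.Quotient.mk_surjective P, hΘ _ h1]
      exact thb_var hm hω h1 (hc _) (Or.inl ht))
  refine ⟨fun J => Λ (q (J.map (Ideal.Quotient.mk H))), fun I J hI hJ h => ?_,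
    fun J u v hJ h => ?_⟩
  · rw [← hΘ I hI]
    refine hΛ _ _ fun x => ?_
    obtain ⟨x, rfl⟩ := Ideal.Quotient.mk_surjective x
    have l1 : F ≤ I := (Ideal.span_singleton_le_iff_mem _).2 hI
    have l2 : H ≤ J := (Ideal.span_singleton_le_iff_mem _).2 hJ
    refine (exists_congr fun n => ?_).trans ((h x).trans (exists_congr fun n => ?_))
    · rw [← map_pow, ← map_mul]
      exact Ideal.mem_quotient_iff_mem l1
    · rw [hψ, hψ, ← map_pow (Ideal.Quotient.mk H), ← map_mul (Ideal.Quotient.mk H)]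
      exact (Ideal.mem_quotient_iff_mem l2).symm
  · have l1 : J ⊔ .span {u * v} ≤ J ⊔ .span {v} :=
      sup_le_sup_left (Ideal.span_singleton_le_span_singleton.2 (dvd_mul_left _ _)) _
    have l0 : H ≤ J ⊔ .span {u * v} := (Ideal.span_singleton_le_iff_mem _).2 hJ
    have e := dg_colon ((J ⊔ .span {u * v}).map (Ideal.Quotient.mk H))
      ((J ⊔ .span {v}).map (Ideal.Quotient.mk H)) (Ideal.Quotient.mk H u) fun x => by
        obtain ⟨x, rfl⟩ := Ideal.Quotient.mk_surjective x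
        rw [← map_mul, Ideal.mem_quotient_iff_mem l0, Ideal.mem_quotient_iff_mem (l0.trans l1),
          sup_comm J, sup_comm J, Ideal.mem_span_singleton_sup, Ideal.mem_span_singleton_sup]
        constructor
        · rintro ⟨a, j, hj, e⟩
          refine ⟨a, x - a * v, h _ ?_, by ring⟩
          rwa [show u * (x - a * v) = j by linear_combination -e]
        · rintro ⟨a, j, hj, rfl⟩
          exact ⟨a, u * j, J.mul_mem_left _ hj, by ring⟩
    have e2 : (J ⊔ .span {u * v}).map (Ideal.Quotient.mk H) ⊔ .span {Ideal.Quotient.mk H u} =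
        (J ⊔ .span {u}).map (Ideal.Quotient.mk H) := by
      rw [← Set.image_singleton (f := Ideal.Quotient.mk H), ← Ideal.map_span, ← Ideal.map_sup,
        sup_assoc, sup_eq_right.2
        (Ideal.span_singleton_le_span_singleton.2 (dvd_mul_right u v))]
    simp only [e, e2, map_add]

end Pool.Agent.Lib.MP_40dc3c_ag.P
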