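import Pool.Agent.Lib.MP_40dc3c_ag.P.KDefs

/-! Small definitions for the mixed computation. -/

namespace Pool.Agent.Lib.MP_40dc3c_ag.P

open MvPolynomial Finset T

variable {k : Type} [Field k] {σ τ : Type}

open Classical in
/-- the type `x` on the blocks of `T` and `zero` on the others. -/
noncomputable def eT (T : Finset τ) (x : Ty) (t : τ) : Ty := if t ∈ T then x else .zero

open Classical in
/-- the variables of the blocks of `T`. -/
noncomputable def AT [Fintype σ] (b : σ → τ) (T : Finset τ) : Finset σ := {s | b s ∈ T}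

open Classical in
/-- extension of a group element by one. -/
noncomputable def xt (b : σ → τ) (T : Finset τ) {G : Type} [One G] (g : {s // b s ∈ T} → G)
    (s : σ) : G := if h : b s ∈ T then g ⟨s, h⟩ else 1

/-- the ideal of the variables of a block. -/
noncomputable def blkI (k : Type) [Field k] (b : σ → τ) (t : τ) : Ideal (MvPolynomial σ k) :=
  .span {f | ∃ s, b s = t ∧ f = X s}

/-- the equations of a section in one block. -/
noncomputable def Sec.B [Fintype σ] {b : σ → τ} {T : Finset τ} (D : Sec b T) (m : ℕ) (e : τ → k)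
    (t : τ) : Ideal (MvPolynomial σ k) :=
  .span {f | ∃ s, b s = t ∧ s ∉ D.R t ∧ f = X s} ⊔ .span {D.φ m e t}

/-- the multiplicity of a pair of sections in one block. -/
def Sec.ν [Fintype σ] {b : σ → τ} {T : Finset τ} (D D' : Sec b T) (m : ℕ) (t : τ) : ℕ :=
  if #(D.R t) = 2 ∨ #(D'.R t) = 2 then 1 else m

/-- the Euler characteristic of a truncation for a cyclic module. -/
noncomputable def chI [LinearOrder σ] [Fintype σ] [Fintype τ] (b : σ → τ) (m : ℕ)
    (hm : (m : k) ≠ 0) (I : Ideal (MvPolynomial (σ ⊕ σ) k)) (A : Finset σ) (ε : τ → Ty)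
    (j : τ → ℤ) : ℤ := (ferD k b m hm).ch (qpc (Sum.elim b b) I) A ε j

end Pool.Agent.Lib.MP_40dc3c_ag.P
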