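import Pool.Agent.Lib.MP_40dc3c_ag.P.Sec
import Pool.Agent.Lib.MP_40dc3c_ag.P.Cor
import Pool.Agent.Lib.MP_40dc3c_ag.P.MDefs

/-! Products of subvarieties are subvarieties. -/

namespace Pool.Agent.Lib.MP_40dc3c_ag.P

open MvPolynomial Finset Function T

variable {k : Type} [Field k] [IsAlgClosed k] {σ τ : Type} [Fintype σ] [Fintype τ] {b : σ → τ}
  {m : ℕ}

theorem two_prime {V W : Ideal (MvPolynomial σ k)} (hV : V.IsPrime) (hW : W.IsPrime) :
    (two V W).IsPrime ∧ Algebra.trdeg k (MvPolynomial (σ ⊕ σ) k ⧸ two V W) =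
      Algebra.trdeg k (MvPolynomial σ k ⧸ V) + Algebra.trdeg k (MvPolynomial σ k ⧸ W) ∧
    (two V W).comap (rename Sum.inl) = V ∧ (two V W).comap (rename Sum.inr) = W := by
  obtain ⟨a, b, c, d⟩ := prime_sum hV hW
  exact ⟨a, b, le_antisymm c fun f hf => Ideal.mem_sup_left (Ideal.mem_map_of_mem _ hf),
    le_antisymm d fun f hf => Ideal.mem_sup_right (Ideal.mem_map_of_mem _ hf)⟩

theorem Sec.subv [DecidableEq τ] (hm : (m : k) ≠ 0) {T : Finset τ} (D : Sec b T) {e : τ → k}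
    (he : ∀ t, e t ^ m = -1) {P : Ideal (MvPolynomial {s // b s ∈ T} k)} {e₀ : ℕ}
    (hP : Subv (bT b T) m P e₀) : Subv b m (D.I m e P) (e₀ + ∑ t ∈ Tᶜ, (#(D.R t) - 2)) := by
  have hm0 : m ≠ 0 := by rintro rfl; simp at hm
  obtain ⟨p1, p2, p3, p4, p5⟩ := hP
  obtain ⟨a1, a2, a3, a4⟩ := D.prime hm (e := e) (fun t h => by simpa [h, hm0] using he t) p1
    (r := e₀ + #T) (by rw [p5]; simp)
  refine ⟨a1, D.hg0 m e p2, D.fer_mem hm0 he p3, fun t => ?_, ?_⟩
  · by_cases ht : t ∈ T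
    · obtain ⟨s, hs, h⟩ := p4 ⟨t, ht⟩
      exact ⟨s.1, congrArg Subtype.val hs, a3 s h⟩
    · exact ⟨_, D.blk (D.hy t), a4 t ht _ (D.hy t)⟩
  · rw [a2, ← Nat.cast_add, ← card_add_card_compl T,
      sum_congr rfl (g := fun t => #(D.R t) - 2 + 1) fun t _ => by have := D.two_le t; omega,
      sum_add_distrib, sum_const, smul_eq_mul, mul_one]
    congr 1
    ring

/-- the affine part of the product is a variety. -/
theorem aff_prime (hm : (m : k) ≠ 0) {s₀ : τ → σ} (hs : ∀ t, b (s₀ t) = t)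
    (h3 : ∀ t, 3 ≤ #(blk b t)) : (FI k b m ⊔ unitI k s₀).IsPrime ∧
      Algebra.trdeg k (MvPolynomial σ k ⧸ (FI k b m ⊔ unitI k s₀)) =
        (Fintype.card σ - 2 * Fintype.card τ : ℕ) := by
  classical
  have hb : ∀ {s t}, s ∈ blk b t ↔ b s = t := by simp [blk]
  have hc : ∀ t, #((blk b t).erase (s₀ t)) = #(blk b t) - 1 := fun t =>
    card_erase_of_mem (hb.2 (hs t))
  let g : τ → MvPolynomial σ k := fun t => ∑ s ∈ (blk b t).erase (s₀ t), X s ^ m + 1
  have h1 := PrA.biUnion univ (fun t _ => PrA.fermat_aff hm ((blk b t).erase (s₀ t))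
    (by have := hc t; have := h3 t; omega)) fun i _ j _ hij => Set.disjoint_left.2 fun s hi hj =>
      hij ((hb.1 (mem_of_mem_erase hi)).symm.trans (hb.1 (mem_of_mem_erase hj)))
  have h2 := h1.union (PrA.pt (A := Set.range s₀) 1 (Set.disjoint_empty _)) (by
    simp only [Set.disjoint_iUnion_left]
    refine fun t _ => Set.disjoint_left.2 ?_
    rintro _ h ⟨t', rfl⟩
    obtain rfl : t' = t := (hs t').symm.trans (hb.1 (mem_of_mem_erase h))
    exact notMem_erase _ _ h)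
  have e1 : (⋃ t ∈ (univ : Finset τ), ((blk b t).erase (s₀ t) : Set σ)) ∪ Set.range s₀ =
      Set.univ := Set.eq_univ_of_forall fun s => by
    by_cases a : s = s₀ (b s)
    · exact .inr ⟨_, a.symm⟩
    · exact .inl (Set.mem_iUnion₂.2 ⟨b s, mem_univ _, mem_erase.2 ⟨a, hb.2 rfl⟩⟩)
  have e2 : Ideal.span {f : MvPolynomial σ k | ∃ s ∈ Set.range s₀, f = X s - C ((1 : σ → k) s)} =
      unitI k s₀ := by
    rw [unitI]
    congr 1
    ext f
    simp [eq_comm]
  have e3 : ∀ t, fer k b m t - g t ∈ unitI k s₀ := fun t => by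
    have : fer k b m t - g t = X (s₀ t) ^ m - 1 ^ m := by
      change ∑ s ∈ blk b t, X s ^ m - _ = _
      rw [← add_sum_erase _ _ (hb.2 (hs t))]
      ring
    rw [this]
    exact Ideal.mem_of_dvd _ (sub_dvd_pow_sub_pow _ _ m) (Ideal.subset_span ⟨t, rfl⟩)
  have e4 : (⨆ t ∈ (univ : Finset τ), Ideal.span {g t}) ⊔ unitI k s₀ = FI k b m ⊔ unitI k s₀ := by
    refine le_antisymm (sup_le (iSup₂_le fun t _ => (Ideal.span_singleton_le_iff_mem _).2 ?_)
      le_sup_right) (sup_le (Ideal.span_le.2 ?_) le_sup_right)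
    · rw [← sub_sub_cancel (fer k b m t) (g t)]
      exact sub_mem (Ideal.mem_sup_left (Ideal.subset_span ⟨t, rfl⟩)) (Ideal.mem_sup_right (e3 t))
    · rintro _ ⟨t, rfl⟩
      rw [← add_sub_cancel (g t) (fer k b m t)]
      exact add_mem (Ideal.mem_sup_left ((le_iSup₂ (f := fun t (_ : t ∈ (univ : Finset τ)) =>
        Ideal.span {g t}) t (mem_univ t)) (Ideal.mem_span_singleton_self _)))
        (Ideal.mem_sup_right (e3 t))
  rw [e1, e2, e4] at h2
  refine ⟨h2.univ.1, h2.univ.2.1.trans (congrArg _ ?_)⟩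
  have e5 : Fintype.card σ = ∑ t, (#((blk b t).erase (s₀ t)) - 1 + 2) := by
    rw [← card_univ, card_eq_sum_card_fiberwise (f := b) (t := univ) (by simp)]
    refine sum_congr rfl fun t _ => ?_
    have : #{s | b s = t} = #(blk b t) := congrArg card (by ext; simp [hb])
    have := hc t
    have := h3 t
    omega
  rw [e5, sum_add_distrib, sum_const, card_univ, smul_eq_mul, mul_comm]
  omega

omit [IsAlgClosed k] [Fintype σ] in
/-- homogenisation of a polynomial. -/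
theorem exists_homog {s₀ : τ → σ} (hs : ∀ t, b (s₀ t) = t) (f : MvPolynomial σ k) :
    ∃ (F : MvPolynomial σ k) (d : τ → ℤ), F.IsWeightedHomogeneous (wt b) d ∧
      F - f ∈ unitI k s₀ := by
  have up : ∀ (F : MvPolynomial σ k) (d : τ → ℤ) (n : τ → ℕ), F.IsWeightedHomogeneous (wt b) d →
      ∃ F' : MvPolynomial σ k, F'.IsWeightedHomogeneous (wt b) (d + fun t => (n t : ℤ)) ∧
        F' - F ∈ unitI k s₀ := fun F d n hF => by
    refine ⟨F * ∏ t, X (s₀ t) ^ n t, hF.mul ?_, ?_⟩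
    · convert IsWeightedHomogeneous.prod univ (fun t => (X (s₀ t) ^ n t : MvPolynomial σ k))
        (fun t => n t • wt b (s₀ t)) (fun t _ => (isWeightedHomogeneous_X k (wt b) _).pow _) using 1
      classical
      ext t
      simp [wt, hs, Pi.single_apply]
    · have : ∀ t, Ideal.Quotient.mk (unitI k s₀) (X (s₀ t)) = 1 := fun t =>
        (Ideal.Quotient.eq.2 (show X (s₀ t) - 1 ∈ unitI k s₀ from
          Ideal.subset_span ⟨t, rfl⟩)).trans (map_one _)
      simp [← Ideal.Quotient.eq, this]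
  induction f using MvPolynomial.induction_on with
  | C c => exact ⟨C c, 0, isWeightedHomogeneous_C _ _, by simp⟩
  | mul_X p s hp =>
    obtain ⟨F, d, h1, h2⟩ := hp
    exact ⟨F * X s, _, h1.mul (isWeightedHomogeneous_X k (wt b) s), by
      rw [← sub_mul]
      exact Ideal.mul_mem_right _ _ h2⟩
  | add p q hp hq =>
    obtain ⟨F, d, h1, h2⟩ := hp
    obtain ⟨G, d', h3, h4⟩ := hq
    obtain ⟨F', h5, h6⟩ := up F d (fun t => (d' t - d t).toNat) h1
    obtain ⟨G', h7, h8⟩ := up G d' (fun t => (d t - d' t).toNat) h3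
    have e : (d' + fun t => ((d t - d' t).toNat : ℤ)) = d + fun t => ((d' t - d t).toNat : ℤ) := by
      ext t
      simp only [Pi.add_apply]
      omega
    refine ⟨F' + G', _, h5.add (e ▸ h7), ?_⟩
    convert add_mem (add_mem h6 h2) (add_mem h8 h4) using 1
    ring

omit [IsAlgClosed k] [Fintype σ] in
theorem cor_sup {s₀ : τ → σ} (hs : ∀ t, b (s₀ t) = t) {P : Ideal (MvPolynomial σ k)}
    (h : unitI k s₀ ≤ P) : cor b P ⊔ unitI k s₀ = P := by
  refine le_antisymm (sup_le (cor_le_self b P) h) fun f hf => ?_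
  obtain ⟨F, d, h1, h2⟩ := exists_homog (k := k) hs f
  rw [← sub_sub_cancel F f]
  refine sub_mem (Ideal.mem_sup_left ((mem_cor h1).2 ?_)) (Ideal.mem_sup_right h2)
  simpa using add_mem (h h2) hf

omit [IsAlgClosed k] [Fintype σ] in
theorem le_cor_sup {s₀ : τ → σ} (hs : ∀ t, b (s₀ t) = t) {P : Ideal (MvPolynomial σ k)}
    (h : unitI k s₀ ≤ P) : P ≤ cor b P ⊔ unitI k s₀ := (cor_sup hs h).ge

omit [IsAlgClosed k] [Fintype τ] in
theorem FI_le_cor {P : Ideal (MvPolynomial σ k)} (h : FI k b m ≤ P) : FI k b m ≤ cor b P :=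
  le_cor (hg_FI b m) h

end Pool.Agent.Lib.MP_40dc3c_ag.P
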