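import Pool.Agent.Lib.MP_40dc3c_ag.P.Jb
import Pool.Agent.Lib.MP_40dc3c_ag.P.Sv
import Pool.Agent.Lib.MP_40dc3c_ag.T.E1
import Pool.Agent.Lib.MP_40dc3c_ag.T.E2

/-! The Frobenius map of the affine part. -/

namespace Pool.Agent.Lib.MP_40dc3c_ag.P

open scoped TensorProduct
open MvPolynomial Finset Function T

theorem fr_gen {k : Type} [Field k] (Y : Obj k) (hχ : ∀ g, Y.χ g = 1) (h1 : Ge (Obj.one k) Y)
    [IsDomain Y.A.R] (φ : Y.A.R →ₐ[k] Y.A.R) (hφ : φ.toRingHom.Finite)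
    (hc : ∀ g a, φ (Y.act g a) = Y.act g (φ a)) {Q : ℕ} (hQ : 0 < Q)
    (hfr : ∀ a, ∃ s, 0 < s ∧ (φ ^ s) a = a ^ Q ^ s) {d : ℕ} (hd : Algebra.trdeg k Y.A.R = d) :
    push _ hφ (q ⊥) = (Q : ℂ) ^ d • q ⊥ := by
  obtain ⟨z, μ, -, a2, -, a4, -⟩ := exists_gen' h1 φ hφ hc
  obtain ⟨c, hz⟩ := a2 (q ⊥)
  have e0 : Y.pr (q ⊥) = q ⊥ := by
    simp only [Obj.pr_apply, hχ, pull_q, Ideal.map_bot, one_smul, sum_const, card_univ]
    rw [← Nat.cast_smul_eq_nsmul ℂ, smul_smul,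
      inv_mul_cancel₀ (Nat.cast_ne_zero.2 Fintype.card_ne_zero), one_smul]
  have e1 : push _ hφ (q ⊥) = μ • q ⊥ := by rw [← e0, hz, map_smul, a4, smul_comm]
  have r1 : rk Y.A.R (q ⊥) = 1 := by rw [q_bot, rk_cl, Module.finrank_self, Nat.cast_one]
  obtain ⟨n, hn⟩ : ∃ n : ℕ, rk Y.A.R (push _ hφ (q ⊥)) = n := by
    rw [q, push, lift_cl]
    exact ⟨_, rk_cl _⟩
  rw [e1, map_smul, r1, smul_eq_mul, mul_one] at hn
  have hd' : Algebra.trdeg k (Y.A.R ⧸ (⊥ : Ideal Y.A.R)) = d :=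
    (AlgEquiv.quotientBot k _).trdeg_eq.trans hd
  have hk : Fd k Y.A.R d ≤ LinearMap.ker (rk Y.A.R) := Submodule.span_le.2 (by
    rintro _ ⟨P, -, ht, rfl⟩
    have := (rk_push_q (RingHom.id _) (RingHom.Finite.id _) P).2 (by
      rintro (rfl : P = ⊥)
      exact ht.ne hd')
    rwa [push_id] at this)
  obtain ⟨s, hs, e⟩ := frob_eig hφ hQ hfr (i := d)
    (Submodule.subset_span ⟨⊥, Ideal.isPrime_bot, by rw [hd']; exact_mod_cast d.lt_succ_self, rfl⟩)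
    (fun h => one_ne_zero (r1.symm.trans (hk h))) e1
  rw [e1, hn]
  rw [hn, mul_comm, pow_mul] at e
  have : n = Q ^ d := Nat.pow_left_injective hs.ne' (by exact_mod_cast e)
  rw [this, Nat.cast_pow]

theorem fr_diag {k : Type} [Field k] {A : Alg k} {φ : A.R →ₐ[k] A.R} (hφ : φ.toRingHom.Finite)
    {N : ℂ} (h : push _ hφ (q ⊥) = N • q ⊥) :
    pushL φ hφ _ (pushR _ φ hφ (T.diag A)) = N • T.diag A := by
  let μ : A.R ⊗[k] A.R →ₐ[k] A.R := Algebra.TensorProduct.lmul' k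
  have hs : Surjective μ := fun a => ⟨a ⊗ₜ 1, by simp [μ]⟩
  have hμ : μ.toRingHom.Finite := RingHom.Finite.of_surjective _ hs
  have e0 : T.diag A = push _ hμ (q ⊥) := (push_q _ hμ hs ⊥).symm
  have e1 : pushL φ hφ _ (pushR _ φ hφ (T.diag A)) = push _ hμ (push _ hφ (q ⊥)) := by
    rw [e0, pushL, pushR, push_push, push_push, push_push]
    refine LinearMap.congr_fun (push_congr _ _ (RingHom.ext fun a => ?_)) _
    induction a with
    | zero => simp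
    | tmul a b => simp [μ]
    | add a b ha hb => rw [map_add, map_add, ha, hb]
  rw [e1, h, map_smul, ← e0]

theorem fr_ex {k : Type} [Field k] (p : ℕ) [Fact p.Prime] [CharP k p] {σ τ : Type} [Fintype σ]
    (b : σ → τ) (s₀ : τ → σ) (m f : ℕ) [Nontrivial (MvPolynomial σ k ⧸ (FI k b m ⊔ unitI k s₀))] :
    ∃ φ : (MvPolynomial σ k ⧸ (FI k b m ⊔ unitI k s₀)) →ₐ[k]
      MvPolynomial σ k ⧸ (FI k b m ⊔ unitI k s₀),
      ∀ s, φ (Ideal.Quotient.mk _ (X s)) = Ideal.Quotient.mk _ (X s) ^ p ^ f := by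
  let R := MvPolynomial σ k ⧸ (FI k b m ⊔ unitI k s₀)
  have : CharP R p := charP_of_injective_algebraMap (algebraMap k R).injective p
  let ψ : MvPolynomial σ k →ₐ[k] R := aeval fun s => Ideal.Quotient.mk _ (X s) ^ p ^ f
  have hX : ∀ s, ψ (X s) = iterateFrobenius R p f (Ideal.Quotient.mk _ (X s)) := aeval_X _
  have h : FI k b m ⊔ unitI k s₀ ≤ RingHom.ker ψ := by
    refine sup_le (Ideal.span_le.2 ?_) (Ideal.span_le.2 ?_) <;> rintro _ ⟨t, rfl⟩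
    · have : Ideal.Quotient.mk (FI k b m ⊔ unitI k s₀) (fer k b m t) = 0 :=
        Ideal.Quotient.eq_zero_iff_mem.2 (Ideal.mem_sup_left (Ideal.subset_span ⟨t, rfl⟩))
      have := congrArg (iterateFrobenius R p f) this
      simpa only [SetLike.mem_coe, RingHom.mem_ker, fer, map_sum, map_pow, hX, map_zero] using this
    · have : Ideal.Quotient.mk (FI k b m ⊔ unitI k s₀) (X (s₀ t) - 1) = 0 :=
        Ideal.Quotient.eq_zero_iff_mem.2 (Ideal.mem_sup_right (Ideal.subset_span ⟨t, rfl⟩))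
      have := congrArg (iterateFrobenius R p f) this
      simpa only [SetLike.mem_coe, RingHom.mem_ker, map_sub, map_one, hX, map_zero] using this
  exact ⟨Ideal.Quotient.liftₐ _ ψ fun a ha => h ha, fun s => aeval_X _ s⟩

variable {k : Type} [Field k] [IsAlgClosed k] (ω : kˣ →* ℂˣ) (p : ℕ) [Fact p.Prime] [CharP k p]
  {σ τ : Type} [Fintype σ] [Fintype τ] {b : σ → τ} {s₀ : τ → σ} (hs : ∀ t, b (s₀ t) = t) (m : ℕ)
  [NeZero m]

omit [IsAlgClosed k] [Fintype τ] in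
theorem Jo_act (c : σ → ℤ) (g) (s : σ) : (Jo ω hs m c).act g (Ideal.Quotient.mk _ (X s)) =
    ((nrm b s₀ m g s).1 : k) • Ideal.Quotient.mk (FI k b m ⊔ unitI k s₀) (X s) := by
  change Ideal.Quotient.mk _ (diagAct _ m (nrm b s₀ m g) (X s)) = _
  rw [diagAct_X, ← smul_eq_C_mul]
  rfl

theorem exists_frobJ (halg : ∀ x : kˣ, IsOfFinOrder x) (f : ℕ) (hf : 0 < f) (hm : m ∣ p ^ f - 1)
    (h3 : ∀ t, 3 ≤ #(blk b t)) (c : σ → ℤ) :
    ∃ (φ : (Jo ω hs m c).A.R →ₐ[k] (Jo ω hs m c).A.R) (hφ : φ.toRingHom.Finite),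
      (∀ g a, φ ((Jo ω hs m c).act g a) = (Jo ω hs m c).act g (φ a)) ∧
      (∀ a, ∃ s, 0 < s ∧ (φ ^ s) a = a ^ (p ^ f) ^ s) ∧
      pushL φ hφ _ (pushR _ φ hφ (T.diag (Jo ω hs m c).A)) =
        ((p ^ f : ℕ) : ℂ) ^ (Fintype.card σ - 2 * Fintype.card τ) • T.diag (Jo ω hs m c).A := by
  have hp : p.Prime := Fact.out
  have hQ : 0 < p ^ f := pow_pos hp.pos f
  have hpm : (m : k) ≠ 0 := fun h => hp.one_lt.ne' (Nat.dvd_one.1
    ((Nat.dvd_sub_iff_right hQ (dvd_pow_self p hf.ne')).1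
      (((CharP.cast_eq_zero_iff k p m).1 h).trans hm)))
  obtain ⟨hP, hd⟩ := aff_prime hpm hs h3
  obtain ⟨φ, h⟩ := fr_ex (k := k) p b s₀ m f
  have hφ : φ.toRingHom.Finite := e2_fin (e2_adj _) hQ fun v => ⟨_, hQ, _, h v⟩
  have hfr := e2_pow p halg (e2_adj _) h
  have hc : ∀ g a, φ ((Jo ω hs m c).act g a) = (Jo ω hs m c).act g (φ a) := fun g a => by
    have : φ.comp ((Jo ω hs m c).act g) = ((Jo ω hs m c).act g).comp φ :=
      Ideal.Quotient.algHom_ext k (algHom_ext fun v => by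
        have e2 : ((nrm b s₀ m g v).1 : k) ^ p ^ f = (nrm b s₀ m g v).1 := by
          obtain ⟨t, ht⟩ := hm
          rw [← Nat.sub_add_cancel hQ, ht, pow_succ, pow_mul,
            (mem_rootsOfUnity' _ _).1 (nrm b s₀ m g v).2, one_pow, one_mul]
        change φ ((Jo ω hs m c).act g (Ideal.Quotient.mk _ (X v))) =
          (Jo ω hs m c).act g (φ (Ideal.Quotient.mk _ (X v)))
        rw [h, map_pow, Jo_act, map_smul, h, smul_pow, e2])
    exact AlgHom.congr_fun this a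
  refine ⟨φ, hφ, hc, hfr, fr_diag (A := (Jo ω hs m c).A) hφ ?_⟩
  exact fr_gen (Jo ω hs m 0) (fun g => by simp [chis_apply, chi])
    (one_ge_Jo0 ω hs m fun t => (h3 t).trans' (by norm_num)) φ hφ hc hQ hfr hd

end Pool.Agent.Lib.MP_40dc3c_ag.P
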