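import Pool.Agent.Lib.MP_40dc3c_ag.P.KDefs

/-! Finite multigraded modules. -/

namespace Pool.Agent.Lib.MP_40dc3c_ag.P

open MvPolynomial Finset

set_option linter.unusedSectionVars false

variable {k : Type} [Field k] {τ ρ : Type} {M : Type} [AddCommGroup M]
  [Module (MvPolynomial ρ k) M] [Module k M] [IsScalarTower k (MvPolynomial ρ k) M] {β : ρ → τ}
  {pc : (τ → ℤ) → Submodule k M}

theorem gm_indep {V W ι : Type} [AddCommGroup V] [Module k V] [AddCommGroup W] [Module k W]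
    (q : ι → Submodule k V) (p : ι → V →ₗ[k] W) (h1 : ∀ j, ∀ x ∈ q j, p j x = 0 → x = 0)
    (h2 : ∀ i j, i ≠ j → ∀ x ∈ q j, p i x = 0) : iSupIndep q := fun i =>
  Submodule.disjoint_def.2 fun x a b => h1 i x a <|
    (iSup₂_le fun j e y hy => h2 i j (Ne.symm e) y hy : _ ≤ LinearMap.ker (p i)) b

theorem gm_rank {V W : Type} [AddCommGroup V] [Module k V] [AddCommGroup W] [Module k W]
    (f : V →ₗ[k] W) (U : Submodule k V) [FiniteDimensional k U] :
    Module.finrank k (U.map f) + Module.finrank k ↥(LinearMap.ker f ⊓ U) = Module.finrank k U := by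
  rw [← LinearMap.finrank_range_add_finrank_ker (f.domRestrict U), LinearMap.range_domRestrict,
    LinearMap.ker_domRestrict, ← Submodule.finrank_map_subtype_eq U, Submodule.map_comap_subtype,
    inf_comm]

theorem IsGM.mono (G : IsGM β pc) (d : ρ →₀ ℕ) {j : τ → ℤ} {x : M} (hx : x ∈ pc j) :
    (monomial d 1 : MvPolynomial ρ k) • x ∈ pc (j + Finsupp.weight (wt β) d) := by
  induction d using Finsupp.induction_linear generalizing j x with
  | zero => simpa using hx
  | add a b ha hb =>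
    have := hb (ha hx)
    rwa [← mul_smul, monomial_mul, mul_one, add_assoc, ← map_add, add_comm b] at this
  | single y n =>
    rw [← X_pow_eq_monomial, Finsupp.weight_single]
    induction n with
    | zero => simpa using hx
    | succ n ih =>
      have := G.smul y _ _ ih
      rwa [← mul_smul, ← pow_succ', add_assoc, ← succ_nsmul] at this

theorem gm_mono (d : ρ →₀ ℕ) (r : k) (x : M) :
    (monomial d r : MvPolynomial ρ k) • x = r • (monomial d 1 : MvPolynomial ρ k) • x := by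
  rw [← smul_assoc, smul_monomial, smul_eq_mul, mul_one]

theorem IsGM.smul_hom (G : IsGM β pc) {f : MvPolynomial ρ k} {e j : τ → ℤ}
    (hf : f.IsWeightedHomogeneous (wt β) e) {x : M} (hx : x ∈ pc j) : f • x ∈ pc (j + e) := by
  induction hf using IsWeightedHomogeneous.induction_on with
  | zero => simp
  | add p q _ _ a b => exact add_smul p q x ▸ add_mem a b
  | monomial d r hr => exact gm_mono d r x ▸ Submodule.smul_mem _ r (hr ▸ G.mono d hx)

theorem IsGM.exists_proj (G : IsGM β pc) : ∃ π : (τ → ℤ) → M →ₗ[k] M,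
    (∀ j x, π j x ∈ pc j) ∧ (∀ j, ∀ x ∈ pc j, π j x = x) ∧
    (∀ i j, i ≠ j → ∀ x ∈ pc j, π i x = 0) ∧ (∀ x, {j | π j x ≠ 0}.Finite) ∧
    (∀ x, ∑ᶠ j, π j x = x) ∧
    ∀ (f : MvPolynomial ρ k) e, f.IsWeightedHomogeneous (wt β) e →
      ∀ j x, π (j + e) (f • x) = f • π j x := by
  classical
  let _ := (DirectSum.isInternal_submodule_of_iSupIndep_of_iSup_eq_top G.ind
    G.top).chooseDecomposition
  obtain ⟨π, hπ⟩ : ∃ π : (τ → ℤ) → M →ₗ[k] M, ∀ j x, π j x = DirectSum.decompose pc x j :=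
    ⟨fun j => (pc j).subtype ∘ₗ DirectSum.component k _ _ j ∘ₗ
      (DirectSum.decomposeLinearEquiv pc).toLinearMap, fun _ _ => rfl⟩
  have h2 : ∀ j, ∀ x ∈ pc j, π j x = x := fun j x h => by
    rw [hπ, DirectSum.decompose_of_mem_same pc h]
  have h3 : ∀ i j, i ≠ j → ∀ x ∈ pc j, π i x = 0 := fun i j e x h => by
    rw [hπ, DirectSum.decompose_of_mem_ne pc h e.symm]
  have h4 : ∀ x, Function.support (fun j => π j x) ⊆ (DirectSum.decompose pc x).support :=
    fun x j h => by simpa [hπ] using h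
  refine ⟨π, fun j x => hπ j x ▸ Subtype.prop _, h2, h3,
    fun x => (Finset.finite_toSet _).subset (h4 x), fun x => ?_, fun f e hf j x => ?_⟩
  · rw [finsum_eq_sum_of_support_subset _ (h4 x)]
    simp only [hπ, DirectSum.sum_support_decompose]
  · refine Submodule.iSup_induction pc (motive := fun x => π (j + e) (f • x) = f • π j x)
      (G.top ▸ Submodule.mem_top : x ∈ ⨆ i, pc i) (fun i x h => ?_) (by simp)
      fun a b ha hb => by rw [smul_add, map_add, map_add, smul_add, ha, hb]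
    by_cases c : j = i
    · subst c
      rw [h2 _ _ h, h2 _ _ (G.smul_hom hf h)]
    · rw [h3 _ _ c _ h, h3 _ _ (by simpa using c) _ (G.smul_hom hf h), smul_zero]

/-- the projections preserve a homogeneous subspace. -/
theorem gm_stab {π : (τ → ℤ) → M →ₗ[k] M} (h2 : ∀ j, ∀ x ∈ pc j, π j x = x)
    (h3 : ∀ i j, i ≠ j → ∀ x ∈ pc j, π i x = 0) {N : Submodule k M} (hN : N ≤ ⨆ j, pc j ⊓ N)
    (i : τ → ℤ) {x : M} (hx : x ∈ N) : π i x ∈ N := by
  refine (hN.trans (iSup_le fun j y hy => ?_) : N ≤ N.comap (π i)) hx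
  by_cases c : i = j
  · subst c
    exact (h2 _ _ hy.1).symm ▸ hy.2 |> fun h : π i y ∈ N => h
  · exact (h3 _ _ c _ hy.1).symm ▸ N.zero_mem |> fun h : π i y ∈ N => h

/-- a subspace preserved by the projections is homogeneous. -/
theorem gm_hom {π : (τ → ℤ) → M →ₗ[k] M} (h1 : ∀ j x, π j x ∈ pc j) (h5 : ∀ x, ∑ᶠ j, π j x = x)
    {N : Submodule k M} (h : ∀ j, ∀ x ∈ N, π j x ∈ N) : N ≤ ⨆ j, pc j ⊓ N := fun x hx =>
  h5 x ▸ finsum_induction (· ∈ ⨆ j, pc j ⊓ N) (zero_mem _) (fun _ _ => add_mem) fun j =>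
    Submodule.mem_iSup_of_mem j ⟨h1 j x, h j x hx⟩

/-- homogeneous generators, and the monomials that span a graded piece. -/
theorem IsGM.gens (G : IsGM β pc) (Z : Submodule (MvPolynomial ρ k) M) (hf : Z.FG)
    (hZ : Z.restrictScalars k ≤ ⨆ j, pc j ⊓ Z.restrictScalars k) :
    ∃ (S : Finset M) (δ : M → τ → ℤ), (∀ x ∈ S, x ∈ Z ∧ x ∈ pc (δ x)) ∧ ∀ j, ∀ z ∈ Z, z ∈ pc j →
      z ∈ Submodule.span k {y | ∃ d, ∃ x ∈ S, δ x + Finsupp.weight (wt β) d = j ∧
        y = (monomial d 1 : MvPolynomial ρ k) • x} := by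
  obtain ⟨π, -, h2, h3, -⟩ := G.exists_proj
  have e : Submodule.span (MvPolynomial ρ k) {x | x ∈ Z ∧ ∃ j, x ∈ pc j} = Z :=
    le_antisymm (Submodule.span_le.2 fun x h => h.1) fun x h =>
      (hZ.trans (iSup_le fun j y hy => Submodule.subset_span ⟨hy.2, j, hy.1⟩) :
        _ ≤ (Submodule.span (MvPolynomial ρ k) {x | x ∈ Z ∧ ∃ j, x ∈ pc j}).restrictScalars k) h
  obtain ⟨S, hS, e'⟩ := (Submodule.fg_span_iff_fg_span_finset_subset _).1 (e.symm ▸ hf)
  choose! δ hδ using fun x (h : x ∈ S) => (hS h).2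
  refine ⟨S, δ, fun x h => ⟨(hS h).1, hδ x h⟩, fun j z hz hj => ?_⟩
  have h0 : Submodule.span k (Set.range fun d : ρ →₀ ℕ => (monomial d 1 : MvPolynomial ρ k)) = ⊤ :=
    by simpa using (basisMonomials ρ k).span_eq
  have h1 : z ∈ (Submodule.span (MvPolynomial ρ k) (S : Set M)).restrictScalars k := by
    rwa [← e', e]
  rw [← Submodule.span_smul_of_span_eq_top h0] at h1
  rw [← h2 j z hj]
  refine Submodule.mem_comap.1 ((Submodule.span_le.2 ?_ : _ ≤ Submodule.comap (π j) _) h1)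
  rintro _ ⟨_, ⟨d, rfl⟩, x, hx, rfl⟩
  have h := G.mono d (hδ x hx)
  by_cases c : j = δ x + Finsupp.weight (wt β) d
  · exact Submodule.mem_comap.2 ((h2 j _ (c ▸ h)).symm ▸
      Submodule.subset_span ⟨d, x, hx, c.symm, rfl⟩)
  · exact Submodule.mem_comap.2 ((h3 j _ c _ h).symm ▸ zero_mem _)

theorem IsGM.gens' (G : IsGM β pc) : ∃ (S : Finset M) (δ : M → τ → ℤ), ∀ j,
    pc j ≤ Submodule.span k {y | ∃ d, ∃ x ∈ S, δ x + Finsupp.weight (wt β) d = j ∧
      y = (monomial d 1 : MvPolynomial ρ k) • x} := by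
  obtain ⟨S, δ, -, h⟩ := G.gens ⊤ G.fg.fg_top (by simp [G.top])
  exact ⟨S, δ, fun j z hz => h j z trivial hz⟩

open Classical in
theorem gm_wt [Fintype ρ] (d : ρ →₀ ℕ) (T : Finset τ) :
    ∑ t ∈ T, Finsupp.weight (wt β) d t = ∑ y, if β y ∈ T then (d y : ℤ) else 0 := by
  simp only [Finsupp.weight_eq_sum, Finset.sum_apply]
  rw [sum_comm]
  simp [wt, Pi.single_apply]

theorem gm_wt0 (d : ρ →₀ ℕ) (t : τ) : 0 ≤ Finsupp.weight (wt β) d t := by
  classical
  rw [Finsupp.weight_apply, Finsupp.sum, Finset.sum_apply]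
  exact sum_nonneg fun y _ => nsmul_nonneg (by
    simp only [wt, Pi.single_apply]
    split_ifs <;> simp) _

theorem IsGM.low (G : IsGM β pc) [Finite τ] : ∃ L : ℤ, ∀ j t, j t < L → pc j = ⊥ := by
  obtain ⟨S, δ, h⟩ := G.gens'
  obtain ⟨L, hL⟩ := (Set.finite_range fun p : S × τ => δ p.1 p.2).bddBelow
  refine ⟨L, fun j t hj => le_bot_iff.1 ((h j).trans (Submodule.span_le.2 ?_))⟩
  rintro _ ⟨d, x, hx, rfl, rfl⟩
  have h1 : L ≤ δ x t := hL ⟨(⟨x, hx⟩, t), rfl⟩
  have h2 := gm_wt0 (β := β) d t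
  rw [Pi.add_apply] at hj
  omega

theorem IsGM.fin (G : IsGM β pc) [Finite ρ] [Finite τ] (j : τ → ℤ) :
    FiniteDimensional k (pc j) := by
  classical
  have := Fintype.ofFinite ρ
  have := Fintype.ofFinite τ
  obtain ⟨S, δ, h⟩ := G.gens'
  refine @Submodule.finiteDimensional_of_le _ _ _ _ _ _ _
    (FiniteDimensional.span_of_finite k ?_) (h j)
  refine (S.finite_toSet.biUnion fun x _ => (Finsupp.finite_of_degree_le
    (∑ t, (j - δ x) t).toNat).image fun d => (monomial d 1 : MvPolynomial ρ k) • x).subset ?_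
  rintro _ ⟨d, x, hx, rfl, rfl⟩
  refine Set.mem_biUnion hx ⟨d, ?_, rfl⟩
  rw [add_sub_cancel_left, gm_wt]
  simp [Finsupp.degree_eq_sum, ← Nat.cast_sum]

/-- a submodule that is spanned by homogeneous elements. -/
theorem IsGM.sub (G : IsGM β pc) [Finite ρ] (N : Submodule (MvPolynomial ρ k) M)
    (hN : N.restrictScalars k ≤ ⨆ j, pc j ⊓ N.restrictScalars k) :
    IsGM β fun j => (pc j).comap (N.subtype.restrictScalars k) := by
  obtain ⟨π, -, h2, h3, -⟩ := G.exists_proj
  have := G.fg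
  refine ⟨gm_indep _ (fun j => π j ∘ₗ N.subtype.restrictScalars k)
    (fun j x a b => Subtype.ext ((h2 j _ a).symm.trans b)) fun i j e x a => h3 i j e _ a,
    eq_top_iff.2 ?_, fun y j x a => G.smul y j _ a, inferInstance⟩
  rw [← Submodule.map_le_map_iff_of_injective (f := N.subtype.restrictScalars k)
    Subtype.val_injective, Submodule.map_iSup]
  refine le_trans ?_ (hN.trans (iSup_mono fun j x a => ⟨⟨x, a.2⟩, a.1, rfl⟩))
  rintro _ ⟨x, -, rfl⟩
  exact x.2

theorem IsGM.quot (G : IsGM β pc) (N : Submodule (MvPolynomial ρ k) M)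
    (hN : N.restrictScalars k ≤ ⨆ j, pc j ⊓ N.restrictScalars k) :
    IsGM β fun j => (pc j).map (N.mkQ.restrictScalars k) := by
  obtain ⟨π, -, h2, h3, -⟩ := G.exists_proj
  have := G.fg
  refine ⟨fun i => Submodule.disjoint_def.2 ?_, ?_, ?_, inferInstance⟩
  · rintro _ ⟨a, ha, rfl⟩ hb
    simp only [← Submodule.map_iSup] at hb
    obtain ⟨b, hb, e⟩ := hb
    have h0 : π i b = 0 :=
      (iSup₂_le fun j e y hy => h3 i j (Ne.symm e) y hy : _ ≤ LinearMap.ker (π i)) hb
    have h1 := gm_stab h2 h3 hN i ((Submodule.Quotient.eq N).1 e.symm)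
    rw [map_sub, h0, h2 i a ha, sub_zero] at h1
    exact (Submodule.Quotient.mk_eq_zero N).2 h1
  · rw [← Submodule.map_iSup, G.top, Submodule.map_top, LinearMap.range_eq_top]
    exact N.mkQ_surjective
  · rintro y j _ ⟨a, ha, rfl⟩
    exact ⟨_, G.smul y j a ha, rfl⟩

theorem gm_self (β : ρ → τ) : IsGM β (weightedHomogeneousSubmodule k (wt β)) :=
  ⟨gm_indep _ (weightedHomogeneousComponent (wt β))
    (fun _ _ a b => (IsWeightedHomogeneous.weightedHomogeneousComponent_same a).symm.trans b)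
    fun i _ e _ a => IsWeightedHomogeneous.weightedHomogeneousComponent_ne i a e,
    eq_top_iff.2 ((gm_hom (fun j x => weightedHomogeneousComponent_mem (wt β) x j)
      (sum_weightedHomogeneousComponent (wt β)) (N := ⊤) fun _ _ _ => trivial).trans
        (iSup_mono fun _ => inf_le_left)),
    fun y j x a => by
      rw [smul_eq_mul, mul_comm]
      exact IsWeightedHomogeneous.mul a (isWeightedHomogeneous_X k (wt β) y), inferInstance⟩

theorem qpc_gm {I : Ideal (MvPolynomial ρ k)} (h : Hg β I) : IsGM β (qpc β I) :=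
  (gm_self β).quot I (gm_hom (fun j x => weightedHomogeneousComponent_mem (wt β) x j)
    (sum_weightedHomogeneousComponent (wt β)) fun j x hx => h x hx j)

/-- a homogeneous subquotient on which the variables of some blocks are nilpotent. -/
theorem IsGM.nil (G : IsGM β pc) [Finite ρ] [Finite τ] (T : Finset τ)
    (Z B : Submodule (MvPolynomial ρ k) M)
    (hZ : Z.restrictScalars k ≤ ⨆ j, pc j ⊓ Z.restrictScalars k)
    (h : ∀ y, β y ∈ T → ∃ N : ℕ, ∀ x ∈ Z, (X y ^ N : MvPolynomial ρ k) • x ∈ B) :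
    ∃ L : ℤ, ∀ j, L ≤ ∑ t ∈ T, j t → ∀ x ∈ Z, x ∈ pc j → x ∈ B := by
  classical
  have := Fintype.ofFinite ρ
  have := G.fg
  obtain ⟨S, δ, h1, h2⟩ := G.gens Z (IsNoetherian.noetherian Z) hZ
  choose! N hN using h
  obtain ⟨L, hL⟩ := (Set.finite_range fun p : S => ∑ t ∈ T, δ p t).bddAbove
  refine ⟨L + ∑ y, (N y : ℤ) + 1, fun j hj x hx hp =>
    (Submodule.span_le.2 ?_ : _ ≤ B.restrictScalars k) (h2 j x hx hp)⟩
  rintro _ ⟨d, x, hx, rfl, rfl⟩
  have h3 : ∑ t ∈ T, δ x t ≤ L := hL ⟨⟨x, hx⟩, rfl⟩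
  simp only [Pi.add_apply, sum_add_distrib, gm_wt] at hj
  obtain ⟨y, -, hy⟩ := exists_lt_of_sum_lt (s := univ) (f := fun y => (N y : ℤ))
    (g := fun y => if β y ∈ T then (d y : ℤ) else 0) (by omega)
  split_ifs at hy with c
  · have e : d = d - Finsupp.single y (N y) + Finsupp.single y (N y) :=
      (tsub_add_cancel_of_le (Finsupp.single_le_iff.2 (by omega))).symm
    rw [e, ← one_mul (1 : k), ← monomial_mul, mul_smul, ← X_pow_eq_monomial]
    exact B.smul_mem _ (hN y c x (h1 x hx).1)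
  · omega

/-- the function is killed by a power of the difference operator in large degrees. -/
def GmEv (t : τ) (F : (τ → ℤ) → ℤ) : Prop := ∃ (c : ℕ) (L : ℤ), ∀ j, L ≤ j t → (dl t)^[c] F j = 0

theorem gm_dl_up {t : τ} {F : (τ → ℤ) → ℤ} {c : ℕ} {L : ℤ}
    (h : ∀ j, L ≤ j t → (dl t)^[c] F j = 0) (n : ℕ) (j : τ → ℤ) (hj : L + n ≤ j t) :
    (dl t)^[n + c] F j = 0 := by
  induction n generalizing j with
  | zero => simpa using h j (by simpa using hj)
  | succ n ih =>
    rw [Nat.add_right_comm, Function.iterate_succ_apply', dl, ih j (by omega), ih _ (by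
      simp only [Pi.sub_apply, wt, id, Pi.single_eq_same]
      omega), sub_zero]

theorem gm_dl_sub (t : τ) (F H : (τ → ℤ) → ℤ) (e : τ → ℤ) (c : ℕ) :
    (dl t)^[c] (fun j => F j - H (j - e)) = fun j => (dl t)^[c] F j - (dl t)^[c] H (j - e) := by
  induction c with
  | zero => rfl
  | succ c ih =>
    simp only [Function.iterate_succ_apply', ih]
    funext j
    simp only [dl, sub_right_comm j e]
    ring

theorem GmEv.step {t : τ} {F A B : (τ → ℤ) → ℤ} (a : GmEv t A) (b : GmEv t B)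
    (h : ∀ j, dl t F j = A j - B (j - et t)) : GmEv t F := by
  obtain ⟨c, L, a⟩ := a
  obtain ⟨c', L', b⟩ := b
  refine ⟨c' + c + 1, max (L + c') (L' + c + 1), fun j hj => ?_⟩
  rw [Function.iterate_succ_apply, funext h, gm_dl_sub]
  beta_reduce
  rw [gm_dl_up a c' j (by omega), add_comm c', gm_dl_up b c _ (by
    simp only [Pi.sub_apply, wt, id, Pi.single_eq_same]
    omega), sub_zero]

theorem gm_hs [Finite ρ] [Finite τ] (t : τ) (Y : Finset ρ) : ∀ {M : Type} [AddCommGroup M]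
    [Module (MvPolynomial ρ k) M] [Module k M] [IsScalarTower k (MvPolynomial ρ k) M]
    {pc : (τ → ℤ) → Submodule k M}, IsGM β pc →
    (∀ y, β y = t → y ∉ Y → ∀ x : M, (X y : MvPolynomial ρ k) • x = 0) →
    GmEv t fun j => (Module.finrank k (pc j) : ℤ) := by
  classical
  induction Y using Finset.induction_on with
  | empty =>
    intro M _ _ _ _ pc G h
    obtain ⟨L, hL⟩ := G.nil {t} ⊤ ⊥ (by simp [G.top]) fun y hy =>
      ⟨1, fun x _ => by simp [h y (mem_singleton.1 hy) (notMem_empty y) x]⟩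
    refine ⟨0, L, fun j hj => ?_⟩
    have : pc j = ⊥ := eq_bot_iff.2 fun x hx => hL j (by simpa using hj) x trivial hx
    rw [Function.iterate_zero_apply, this, finrank_bot, Nat.cast_zero]
  | insert y Y _ ih =>
    intro M _ _ _ _ pc G h
    by_cases c : β y = t
    swap
    · exact ih G fun z a b => h z a (by
        rw [mem_insert]
        rintro (rfl | e)
        exacts [c a, b e])
    obtain ⟨π, h1, h2, h3, -, h5, h6⟩ := G.exists_proj
    have hw : wt β y = et t := by rw [← c]; rfl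
    replace h6 := hw ▸ h6 _ _ (isWeightedHomogeneous_X k (wt β) y)
    obtain ⟨μ, hμ⟩ : ∃ μ : M →ₗ[MvPolynomial ρ k] M, ∀ x, μ x = (X y : MvPolynomial ρ k) • x :=
      ⟨LinearMap.lsmul _ _ (X y), fun _ => rfl⟩
    have h7 : ∀ j x, π j (μ x) = μ (π (j - et t) x) := fun j x => by
      rw [hμ, hμ, ← h6, sub_add_cancel]
    have GK := G.sub (LinearMap.ker μ) (gm_hom h1 h5 fun j x hx => by
      change μ _ = 0
      rw [← add_sub_cancel_right j (et t), ← h7, show μ x = 0 from hx, map_zero])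
    have GC := G.quot (LinearMap.range μ) (gm_hom h1 h5 (by
      rintro j _ ⟨x, rfl⟩
      exact ⟨_, (h7 j x).symm⟩))
    refine (ih GC fun z a b x => ?_).step (ih GK fun z a b x => ?_) fun j => ?_
    · obtain ⟨x, rfl⟩ := Submodule.mkQ_surjective _ x
      by_cases e : z = y
      · exact (Submodule.Quotient.mk_eq_zero _).2 ⟨x, e ▸ hμ x⟩
      · rw [← map_smul, h z a (by simp [e, b]), map_zero]
    · by_cases e : z = y
      · exact Subtype.ext (e ▸ (hμ x).symm.trans x.2)
      · exact Subtype.ext (h z a (by simp [e, b]) x)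
    have := G.fin j
    have := G.fin (j - et t)
    have r1 := gm_rank (μ.restrictScalars k) (pc (j - et t))
    have r2 := gm_rank ((LinearMap.range μ).mkQ.restrictScalars k) (pc j)
    have e1 : LinearMap.ker ((LinearMap.range μ).mkQ.restrictScalars k) ⊓ pc j =
        (pc (j - et t)).map (μ.restrictScalars k) := by
      refine le_antisymm (fun x hx => ?_) ?_
      · obtain ⟨z, rfl⟩ := (Submodule.Quotient.mk_eq_zero _).1 hx.1
        exact ⟨_, h1 _ z, (h7 j z).symm.trans (h2 j _ hx.2)⟩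
      · rintro _ ⟨x, hx, rfl⟩
        refine ⟨(Submodule.Quotient.mk_eq_zero _).2 ⟨x, rfl⟩, ?_⟩
        have := G.smul y _ x hx
        rwa [hw, sub_add_cancel, ← hμ] at this
    have e2 : Module.finrank k ((pc (j - et t)).comap ((LinearMap.ker μ).subtype.restrictScalars k))
        = Module.finrank k ↥(LinearMap.ker (μ.restrictScalars k) ⊓ pc (j - et t)) := by
      rw [(Submodule.equivMapOfInjective ((LinearMap.ker μ).subtype.restrictScalars k)
        Subtype.val_injective _).finrank_eq, Submodule.map_comap_eq,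
        show LinearMap.range ((LinearMap.ker μ).subtype.restrictScalars k) =
          LinearMap.ker (μ.restrictScalars k) by ext x; simp]
    rw [e1] at r2
    simp only [dl, e2]
    omega

theorem IsGM.hs (G : IsGM β pc) [Finite ρ] [Finite τ] (t : τ) : ∃ (c : ℕ) (L : ℤ), ∀ j, L ≤ j t →
    (dl t)^[c] (fun j => (Module.finrank k (pc j) : ℤ)) j = 0 := by
  have := Fintype.ofFinite ρ
  exact gm_hs t univ G fun y _ h => (h (mem_univ y)).elim

end Pool.Agent.Lib.MP_40dc3c_ag.P
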