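import Pool.Agent.Lib.MP_40dc3c_ag.P.Seq

/-! Regular elements and homogeneous ideals. -/

namespace Pool.Agent.Lib.MP_40dc3c_ag.P

open MvPolynomial Finset Filter T

variable {k : Type} [Field k] {σ τ ρ : Type}

theorem reg_monic {A : Type} [CommRing A] (I : Ideal A) {p x : Polynomial A} (hp : p.Monic)
    (h : p * x ∈ I.map (Polynomial.C : A →+* Polynomial A)) :
    x ∈ I.map (Polynomial.C : A →+* Polynomial A) := by
  have e := Polynomial.ker_mapRingHom (Ideal.Quotient.mk I)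
  rw [Ideal.mk_ker] at e
  rw [← e, RingHom.mem_ker] at h ⊢
  rw [map_mul] at h
  exact (hp.map (Ideal.Quotient.mk I)).mul_right_eq_zero_iff.1 h

/-- a polynomial that is monic in a fresh variable is regular. -/
theorem reg_fresh {R : Type} [CommRing R] (G : Set (MvPolynomial ρ R)) (y : ρ)
    (hG : ∀ g ∈ G, y ∉ g.vars) {ν : ℕ} (hν : 0 < ν) {ψ : MvPolynomial ρ R}
    (hψ : ψ.degreeOf y < ν) {u : R} (hu : IsUnit u) (x : MvPolynomial ρ R)
    (h : (C u * X y ^ ν + ψ) * x ∈ Ideal.span G) : x ∈ Ideal.span G := by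
  classical
  obtain ⟨u, rfl⟩ := hu
  let e : MvPolynomial ρ R ≃ₐ[R] Polynomial (MvPolynomial {b // b ≠ y} R) :=
    (renameEquiv R (Equiv.optionSubtypeNe y).symm).trans (optionEquivLeft R _)
  have he (g : MvPolynomial {b // b ≠ y} R) : e (rename Subtype.val g) = Polynomial.C g := by
    have : e.toAlgHom.comp (rename Subtype.val) = Polynomial.CAlgHom := by
      ext1 s
      simp [e, Equiv.optionSubtypeNe_symm_of_ne s.2]
    exact DFunLike.congr_fun this g
  have hy : e (X y) = Polynomial.X := by simp [e]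
  have hC (r : R) : e (C r) = Polynomial.C (C r) := by simp [e]
  let I : Ideal (MvPolynomial {b // b ≠ y} R) := .span {g | rename Subtype.val g ∈ G}
  have h1 : Ideal.span G ≤ (I.map (Polynomial.C : _ →+* Polynomial _)).comap e := by
    refine Ideal.span_le.2 fun g hg => ?_
    obtain ⟨g', rfl⟩ := exists_rename_eq_of_vars_subset_range g
      (Subtype.val : {b // b ≠ y} → ρ) Subtype.val_injective fun s hs =>
        ⟨⟨s, fun e => hG g hg (e ▸ hs)⟩, rfl⟩
    rw [SetLike.mem_coe, Ideal.mem_comap, he]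
    exact Ideal.mem_map_of_mem _ (Ideal.subset_span hg)
  have h2 : I.map (Polynomial.C : _ →+* Polynomial _) ≤ (Ideal.span G).comap e.symm := by
    rw [Ideal.map_le_iff_le_comap]
    refine Ideal.span_le.2 fun g hg => ?_
    rw [SetLike.mem_coe, Ideal.mem_comap, Ideal.mem_comap, ← he, e.symm_apply_apply]
    exact Ideal.subset_span hg
  have hd : (e (C (↑u⁻¹ : R) * ψ)).degree < ν := by
    refine Polynomial.degree_le_natDegree.trans_lt ?_
    rw [map_mul, hC]
    have : (e ψ).natDegree < ν := by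
      rw [degreeOf_eq_natDegree] at hψ
      exact hψ
    exact_mod_cast (Polynomial.natDegree_C_mul_le _ _).trans_lt this
  have hm := Polynomial.monic_X_pow_add hd
  have h3 : (X y ^ ν + C (↑u⁻¹ : R) * ψ) * x ∈ Ideal.span G := by
    have := Ideal.mul_mem_left _ (C (↑u⁻¹ : R)) h
    rwa [← mul_assoc, mul_add, ← mul_assoc, ← map_mul, Units.inv_mul, map_one, one_mul] at this
  have h4 := h1 h3
  rw [Ideal.mem_comap, map_mul, map_add, map_pow, hy] at h4
  have h5 := h2 (reg_monic I hm h4)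
  rwa [Ideal.mem_comap, e.symm_apply_apply] at h5

theorem hg_span {β : ρ → τ} {G : Set (MvPolynomial ρ k)}
    (h : ∀ g ∈ G, ∃ d, g.IsWeightedHomogeneous (wt β) d) : Hg β (Ideal.span G) := by
  classical
  let := weightedGradedAlgebra k (wt β)
  exact fun f hf d => weightedHomogeneousComponent_mem_of_mem k (wt β)
    (Ideal.homogeneous_span _ G h) hf d

theorem Hg.exists_span {β : ρ → τ} {I : Ideal (MvPolynomial ρ k)} (h : Hg β I) :
    ∃ G : Set (MvPolynomial ρ k), (∀ g ∈ G, ∃ d, g.IsWeightedHomogeneous (wt β) d) ∧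
      I = Ideal.span G := by
  refine ⟨{g | g ∈ I ∧ ∃ d, g.IsWeightedHomogeneous (wt β) d}, fun _ hg => hg.2,
    le_antisymm (fun f hf => ?_) (Ideal.span_le.2 fun _ hg => hg.1)⟩
  rw [← finsum_weightedHomogeneousComponent (wt β) f]
  exact finsum_induction (· ∈ Ideal.span _) (zero_mem _) (fun _ _ => add_mem) fun d =>
    Ideal.subset_span ⟨h f hf d, d, weightedHomogeneousComponent_isWeightedHomogeneous d f⟩

theorem Hg.sup {β : ρ → τ} {I J : Ideal (MvPolynomial ρ k)} (h : Hg β I) (h' : Hg β J) :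
    Hg β (I ⊔ J) := by
  obtain ⟨G, hG, rfl⟩ := h.exists_span
  obtain ⟨G', hG', rfl⟩ := h'.exists_span
  rw [← Ideal.span_union]
  exact hg_span fun g hg => hg.elim (hG g) (hG' g)

theorem Hg.map_of {ρ' τ' : Type} {β : ρ → τ} {β' : ρ' → τ'} {I : Ideal (MvPolynomial ρ k)}
    (h : Hg β I) (φ : MvPolynomial ρ k →ₐ[k] MvPolynomial ρ' k)
    (hφ : ∀ g d, g.IsWeightedHomogeneous (wt β) d →
      ∃ d', (φ g).IsWeightedHomogeneous (wt β') d') : Hg β' (I.map φ) := by
  obtain ⟨G, hG, rfl⟩ := h.exists_span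
  rw [Ideal.map_span]
  refine hg_span ?_
  rintro _ ⟨g, hg, rfl⟩
  obtain ⟨d, hd⟩ := hG g hg
  exact hφ g d hd

theorem weight_wt (β : ρ → τ) (u : ρ →₀ ℕ) (t : τ) :
    Finsupp.weight (wt β) u t = (u.mapDomain β t : ℕ) := by
  classical
  induction u using Finsupp.induction_linear with
  | zero => simp
  | add u v hu hv => simp [Finsupp.mapDomain_add, hu, hv]
  | single s n =>
    rw [Finsupp.weight_single, Finsupp.mapDomain_single, Finsupp.single_apply]
    by_cases e : β s = t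
    · simp [wt, e]
    · simp [wt, e]

theorem hom_rename {ρ' τ' : Type} {β : ρ → τ} {β' : ρ' → τ'} (r : ρ → ρ') (r' : τ → τ')
    (hr : ∀ s, β' (r s) = r' (β s)) (g : MvPolynomial ρ k) (d : τ → ℤ)
    (h : g.IsWeightedHomogeneous (wt β) d) :
    ∃ d', (rename r g).IsWeightedHomogeneous (wt β') d' := by
  by_cases h0 : g = 0
  · exact ⟨0, by rw [h0, map_zero]; exact isWeightedHomogeneous_zero k _ _⟩
  obtain ⟨u₀, hu₀⟩ := exists_coeff_ne_zero h0
  refine ⟨Finsupp.weight (wt β') (u₀.mapDomain r), fun v hv => ?_⟩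
  obtain ⟨u, rfl, hu⟩ := coeff_rename_ne_zero r g v hv
  have e : u.mapDomain β = u₀.mapDomain β := by
    ext t
    have := congrFun ((h hu).trans (h hu₀).symm) t
    rw [weight_wt, weight_wt] at this
    exact_mod_cast this
  have e' : β' ∘ r = r' ∘ β := funext hr
  ext t
  rw [weight_wt, weight_wt, ← Finsupp.mapDomain_comp, ← Finsupp.mapDomain_comp, e',
    Finsupp.mapDomain_comp, Finsupp.mapDomain_comp, e]

/-- renaming along a map that is compatible with the blocks. -/
theorem Hg.rename {ρ' τ' : Type} {β : ρ → τ} {β' : ρ' → τ'} {I : Ideal (MvPolynomial ρ k)}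
    (h : Hg β I) (r : ρ → ρ') (r' : τ → τ') (hr : ∀ s, β' (r s) = r' (β s)) :
    Hg β' (I.map (rename r)) := h.map_of _ (hom_rename r r' hr)

theorem hom_algHom {ρ' M : Type} [AddCommMonoid M] {w : ρ → M} {w' : ρ' → M}
    (φ : MvPolynomial ρ k →ₐ[k] MvPolynomial ρ' k)
    (hφ : ∀ s, (φ (X s)).IsWeightedHomogeneous w' (w s)) {g : MvPolynomial ρ k} {d : M}
    (h : g.IsWeightedHomogeneous w d) : (φ g).IsWeightedHomogeneous w' d := by
  induction h using IsWeightedHomogeneous.induction_on with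
  | zero => rw [map_zero]; exact isWeightedHomogeneous_zero k _ _
  | add p q _ _ hp hq => rw [map_add]; exact hp.add hq
  | monomial u r hu =>
    rw [monomial_eq, map_mul, Finsupp.prod, map_prod, ← hu, Finsupp.weight_apply, Finsupp.sum,
      algHom_C, algebraMap_eq]
    refine IsWeightedHomogeneous.C_mul (IsWeightedHomogeneous.prod _ _ _ fun s _ => ?_) r
    rw [map_pow]
    exact (hφ s).pow _

theorem hom_diag {M : Type} [AddCommMonoid M] {w : ρ → M} (m : ℕ) (g : ρ → rootsOfUnity m k)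
    {f : MvPolynomial ρ k} {d : M} (h : f.IsWeightedHomogeneous w d) :
    (diagAct ρ m g f).IsWeightedHomogeneous w d :=
  hom_algHom _ (fun s => by
    rw [diagAct_X]; exact (isWeightedHomogeneous_X k w s).C_mul _) h

theorem Hg.diag {β : ρ → τ} {I : Ideal (MvPolynomial ρ k)} (h : Hg β I) (m : ℕ)
    (g : ρ → rootsOfUnity m k) : Hg β (I.map (diagAct ρ m g)) :=
  h.map_of _ fun _ d hf => ⟨d, hom_diag m g hf⟩

theorem fer_hom [Fintype σ] (b : σ → τ) (m : ℕ) (t : τ) :
    (fer k b m t).IsWeightedHomogeneous (wt b) ((m : ℤ) • et t) := by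
  refine IsWeightedHomogeneous.sum _ _ _ fun s hs => ?_
  have hs' : b s = t := by simpa using hs
  have e : (m : ℤ) • et t = m • wt b s := by
    rw [natCast_zsmul, ← hs']
    rfl
  rw [e]
  exact (isWeightedHomogeneous_X k (wt b) s).pow m

theorem hg_FI [Fintype σ] (b : σ → τ) (m : ℕ) : Hg b (FI k b m) :=
  hg_span (by rintro _ ⟨t, rfl⟩; exact ⟨_, fer_hom b m t⟩)

theorem FI_le_map [Fintype σ] {b : σ → τ} {m : ℕ} {V : Ideal (MvPolynomial σ k)}
    (h : FI k b m ≤ V) (g : σ → rootsOfUnity m k) : FI k b m ≤ V.map (diagAct σ m g) := by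
  refine Ideal.span_le.2 ?_
  rintro _ ⟨t, rfl⟩
  rw [← diagAct_fer b m g t]
  exact Ideal.mem_map_of_mem _ (h (Ideal.subset_span ⟨t, rfl⟩))

theorem two_hg {b : σ → τ} {V W : Ideal (MvPolynomial σ k)} (hV : Hg b V) (hW : Hg b W) :
    Hg (Sum.elim b b) (two V W) ∧ Hg (Sum.map b b) (two V W) :=
  ⟨(hV.rename Sum.inl id fun _ => rfl).sup (hW.rename Sum.inr id fun _ => rfl),
    (hV.rename Sum.inl Sum.inl fun _ => rfl).sup (hW.rename Sum.inr Sum.inr fun _ => rfl)⟩

theorem map_algHom_comp {A B D : Type} [CommRing A] [CommRing B] [CommRing D] [Algebra k A]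
    [Algebra k B] [Algebra k D] (f : A →ₐ[k] B) (g : B →ₐ[k] D) (I : Ideal A) :
    (I.map f).map g = I.map (g.comp f) := Ideal.map_map (f : A →+* B) (g : B →+* D)

theorem two_map (m : ℕ) (V W : Ideal (MvPolynomial σ k)) (g g' : σ → rootsOfUnity m k) :
    (two V W).map (diagAct (σ ⊕ σ) m (Sum.elim g g')) =
      two (V.map (diagAct σ m g)) (W.map (diagAct σ m g')) := by
  rw [two, two, Ideal.map_sup, map_algHom_comp, map_algHom_comp, map_algHom_comp,
    map_algHom_comp]
  congr 2 <;> (ext1 s; simp)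

theorem ferD_h [LinearOrder σ] [Fintype σ] (b : σ → τ) (m : ℕ) (hm : (m : k) ≠ 0) (t : τ) :
    (ferD k b m hm).h t = rename Sum.inl (fer k b m t) - rename Sum.inr (fer k b m t) := by
  simp only [Dat.h, ferD, fer, fa_mul_fc, map_sum, map_pow, rename_X, sum_sub_distrib]
  rfl

theorem sum_pow_mem [Fintype σ] {b : σ → τ} {m : ℕ} {V : Ideal (MvPolynomial σ k)}
    (hV : FI k b m ≤ V) : ∑ s, X s ^ m ∈ V := by
  classical
  rw [← sum_fiberwise_of_maps_to (t := univ.image b) (g := b)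
    fun s hs => mem_image_of_mem b hs]
  refine sum_mem fun t _ => hV (Ideal.subset_span ⟨t, ?_⟩)
  rw [fer]

theorem hF_mem [Fintype σ] {b : σ → τ} {m : ℕ} {V W : Ideal (MvPolynomial σ k)}
    (hV : FI k b m ≤ V) (hW : FI k b m ≤ W) : hF k σ m ∈ two V W := by
  have e : hF k σ m = rename Sum.inl (∑ s, X s ^ m) - rename Sum.inr (∑ s, X s ^ m) := by
    simp only [hF, fa_mul_fc, map_sum, map_pow, rename_X, sum_sub_distrib]
  rw [e]
  exact sub_mem (Ideal.mem_sup_left (Ideal.mem_map_of_mem _ (sum_pow_mem hV)))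
    (Ideal.mem_sup_right (Ideal.mem_map_of_mem _ (sum_pow_mem hW)))

theorem subv_map [Fintype σ] [Fintype τ] {b : σ → τ} {m e : ℕ} {V : Ideal (MvPolynomial σ k)}
    (h : Subv b m V e) (g : σ → rootsOfUnity m k) : Subv b m (V.map (diagAct σ m g)) e := by
  obtain ⟨h1, h2, h3, h4, h5⟩ := h
  let ε := AlgEquiv.ofBijective (diagAct σ m g) (hom_bij (diagAct σ m) g)
  have hb := hom_bij (diagAct σ m) g
  refine ⟨Ideal.map_isPrime_of_equiv ε, Hg.diag h2 m g, fun t => ?_, fun t => ?_, ?_⟩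
  · rw [← diagAct_fer b m g t]
    exact Ideal.mem_map_of_mem _ (h3 t)
  · obtain ⟨s, hs, hx⟩ := h4 t
    refine ⟨s, hs, fun h => hx ?_⟩
    have h' := Ideal.mul_mem_left _ (C ((g s).1 : k)) h
    rw [← diagAct_X, ← Ideal.mem_comap, Ideal.comap_map_of_bijective _ hb] at h'
    exact h'
  · rw [← h5]
    exact (Ideal.quotientEquivAlg V (V.map (diagAct σ m g)) ε rfl).trdeg_eq.symm

end Pool.Agent.Lib.MP_40dc3c_ag.P
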