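import Pool.Agent.Lib.MP_40dc3c_ag.P.Hb
import Pool.Agent.Lib.MP_40dc3c_ag.P.Reg
import Pool.Agent.Lib.MP_40dc3c_ag.T.CMa

/-! The homology of the Tate complex is a finite graded module. -/

namespace Pool.Agent.Lib.MP_40dc3c_ag.P

open MvPolynomial Finset Function T

set_option linter.unusedSectionVars false

variable {k : Type} [Field k] {σ τ ρ : Type} [LinearOrder σ] [Fintype σ] [Fintype τ]

/-- functions that are killed by a power of the difference operator in large degree. -/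
def HeD (t : τ) (F : (τ → ℤ) → ℤ) : Prop := ∃ (c : ℕ) (L : ℤ), ∀ j, L ≤ j t → (dl t)^[c] F j = 0

theorem he_iter (t : τ) (c : ℕ) (a b : ℤ) (F F' : (τ → ℤ) → ℤ) :
    (dl t)^[c] (fun j => a * F j + b * F' j) =
      fun j => a * (dl t)^[c] F j + b * (dl t)^[c] F' j := by
  induction c with
  | zero => rfl
  | succ c ih =>
    simp only [iterate_succ_apply', ih]
    funext j
    simp only [dl]
    ring

theorem he_more {t : τ} {F : (τ → ℤ) → ℤ} {c : ℕ} {L : ℤ}
    (h : ∀ j, L ≤ j t → (dl t)^[c] F j = 0) (n : ℕ) :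
    ∀ j, L + n ≤ j t → (dl t)^[n + c] F j = 0 := by
  classical
  induction n with
  | zero => simpa using h
  | succ n ih =>
    intro j hj
    have : et t t = 1 := by simp [wt]
    rw [Nat.succ_add, iterate_succ_apply', dl, ih j (by omega), ih _ (by
      rw [Pi.sub_apply]
      omega), sub_zero]

theorem HeD.lin {t : τ} {F F' : (τ → ℤ) → ℤ} (h : HeD t F) (h' : HeD t F') (a b : ℤ) :
    HeD t fun j => a * F j + b * F' j := by
  obtain ⟨c, L, h⟩ := h
  obtain ⟨c', L', h'⟩ := h'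
  refine ⟨c' + c, max (L + c') (L' + c), fun j hj => ?_⟩
  rw [he_iter]
  dsimp only
  rw [he_more h c' j (le_of_max_le_left hj), add_comm c', he_more h' c j (le_of_max_le_right hj)]
  simp

theorem HeD.sum {t : τ} {α : Type} (s : Finset α) (a : α → ℤ) {F : α → (τ → ℤ) → ℤ}
    (h : ∀ i, HeD t (F i)) : HeD t fun j => ∑ i ∈ s, a i * F i j := by
  classical
  induction s using Finset.induction_on with
  | empty => exact ⟨0, 0, fun _ _ => rfl⟩
  | insert i s hi ih => simpa only [sum_insert hi, one_mul] using (h i).lin ih (a i) 1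

theorem he_rank {A B : Type} [AddCommGroup A] [Module k A] [AddCommGroup B] [Module k B]
    (f : A →ₗ[k] B) (hf : Injective f) {N : Submodule k B} (h : N ≤ LinearMap.range f) :
    Module.finrank k (N.comap f) = Module.finrank k N := by
  rw [(Submodule.equivMapOfInjective f hf _).finrank_eq, Submodule.map_comap_eq_self h]

section

variable [Finite ρ] {M : Type} [AddCommGroup M] [Module (MvPolynomial ρ k) M] [Module k M]
  [IsScalarTower k (MvPolynomial ρ k) M] {D : Dat k σ τ ρ} {pc : (τ → ℤ) → Submodule k M}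

theorem he_proj {β : ρ → τ} (G : IsGM β pc) {V : Type} [AddCommGroup V] [Module k V]
    (f : M →ₗ[k] V) (P : (τ → ℤ) → V →ₗ[k] V) (h1 : ∀ j, ∀ x ∈ pc j, P j (f x) = f x)
    (h2 : ∀ i j, i ≠ j → ∀ x ∈ pc j, P i (f x) = 0) : ∃ π : (τ → ℤ) → M →ₗ[k] M,
    (∀ j x, π j x ∈ pc j) ∧ (∀ j x, f (π j x) = P j (f x)) ∧
      ∀ x (N : Submodule k M), (∀ j, π j x ∈ N) → x ∈ N := by
  obtain ⟨π, p1, p2, p3, p4, p5, -⟩ := G.exists_proj
  refine ⟨π, p1, fun j x => ?_, fun x N hN => ?_⟩
  · refine Submodule.iSup_induction pc (motive := fun x => f (π j x) = P j (f x))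
      (G.top ▸ Submodule.mem_top (x := x)) (fun i y hy => ?_) (by simp)
      fun y z hy hz => by simp only [map_add, hy, hz]
    rcases eq_or_ne j i with rfl | h
    · rw [p2 _ _ hy, h1 _ _ hy]
    · rw [p3 _ _ h _ hy, h2 _ _ h _ hy, map_zero]
  · rw [← p5 x, finsum_eq_sum _ (p4 x)]
    exact sum_mem fun j _ => hN j

variable (M) in
/-- the part of homological degree `i`. -/
def heW (E : Type) [CommRing E] [Module E M] (σ τ : Type) [Fintype σ] [Fintype τ] (i : ℤ) :
    Submodule E ((τ → ℤ) → Finset σ → M) where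
  carrier := {v | ∀ J I,
    ¬((I, J) ∈ SS univ (fun _ => Ty.pos) ∧ (#I : ℤ) + 2 * ∑ t, J t = i) → v J I = 0}
  add_mem' ha hb J I h := by simp [ha J I h, hb J I h]
  zero_mem' _ _ _ := rfl
  smul_mem' c v hv J I h := by simp [hv J I h]

theorem he_fin (i : ℤ) : {x : (τ → ℤ) × Finset σ | (x.2, x.1) ∈ SS univ (fun _ => Ty.pos) ∧
    (#x.2 : ℤ) + 2 * ∑ t, x.1 t = i}.Finite := by
  classical
  refine ((Set.finite_Icc (0 : τ → ℤ) fun _ => i).prod Set.finite_univ).subset fun x hx =>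
    ⟨⟨hx.1.2, fun t => ?_⟩, trivial⟩
  have h1 : x.1 t ≤ ∑ t, x.1 t := single_le_sum (fun t _ => hx.1.2 t) (mem_univ t)
  have h2 : 0 ≤ x.1 t := hx.1.2 t
  have := hx.2
  change x.1 t ≤ i
  omega

theorem he_P (G : IsGM D.β pc) : ∃ P : (τ → ℤ) → ((τ → ℤ) → Finset σ → M) →ₗ[k]
    ((τ → ℤ) → Finset σ → M), (∀ S j i, ∀ v ∈ D.U pc S j i, P j v = v) ∧
      ∀ S j j' i, j ≠ j' → ∀ v ∈ D.U pc S j' i, P j v = 0 := by
  obtain ⟨π, -, p2, p3, -⟩ := G.exists_proj
  refine ⟨fun j => LinearMap.pi fun J => LinearMap.pi fun I =>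
    π (j - ∑ s ∈ I, wt D.b s - (D.m : ℤ) • J) ∘ₗ
      LinearMap.proj (φ := fun _ : Finset σ => M) I ∘ₗ LinearMap.proj J,
    fun S j i v hv => funext₂ fun J I => p2 _ _ (hv J I).1,
    fun S j j' i h v hv => funext₂ fun J I => p3 _ _ (fun e => h ?_) _ (hv J I).1⟩
  exact sub_left_injective (sub_left_injective e)

theorem he_gm (G : IsGM D.β pc) (i : ℤ) : IsGM D.β fun j =>
    (D.U pc (SS univ fun _ => .pos) j i).comap
      ((heW M (MvPolynomial ρ k) σ τ i).subtype.restrictScalars k) := by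
  classical
  obtain ⟨P, p1, p2⟩ := he_P G
  refine ⟨fun j => Submodule.disjoint_def.2 fun x hx hx' => Subtype.ext ?_,
    eq_top_iff.2 fun x _ => ?_, fun y j x hx J I => ⟨?_, (Submodule.smul_mem _ _ x.2 :) J I⟩, ?_⟩
  · refine (p1 _ _ _ _ hx).symm.trans ((iSup₂_le fun j' hj y hy => ?_ : _ ≤ LinearMap.ker
      (P j ∘ₗ (heW M (MvPolynomial ρ k) σ τ i).subtype.restrictScalars k)) hx')
    exact p2 _ _ _ _ hj.symm _ hy
  · let sg : (he_fin (σ := σ) (τ := τ) i).toFinset → M →ₗ[k] heW M (MvPolynomial ρ k) σ τ i :=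
      fun a =>
      { toFun := fun y => ⟨fun J I => if (J, I) = a.1 then y else 0, fun J I h =>
          if_neg fun e => h ((he_fin i).mem_toFinset.1 (e ▸ a.2 : (J, I) ∈ _))⟩
        map_add' := fun y z => Subtype.ext (funext₂ fun J I => by
          by_cases e : (J, I) = a.1 <;> simp [e])
        map_smul' := fun c y => Subtype.ext (funext₂ fun J I => by
          by_cases e : (J, I) = a.1 <;> simp [e]) }
    have h1 : x = ∑ a, sg a (x.1 a.1.1 a.1.2) := Subtype.ext (funext₂ fun J I => by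
      simp only [Submodule.coe_sum, Finset.sum_apply]
      by_cases h : (J, I) ∈ (he_fin (σ := σ) (τ := τ) i).toFinset
      · rw [Fintype.sum_eq_single (⟨_, h⟩ : (he_fin (σ := σ) (τ := τ) i).toFinset) fun a ha => ?_]
        · exact (if_pos rfl).symm
        · exact if_neg fun e : (J, I) = a.1 => ha (Subtype.ext e.symm)
      · exact (x.2 J I fun e => h ((he_fin i).mem_toFinset.2 e)).trans
          (sum_eq_zero fun a _ => if_neg fun e : (J, I) = a.1 => h (e ▸ a.2)).symm)
    rw [h1]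
    refine sum_mem fun a _ => Submodule.mem_comap.1
      ((iSup_le fun j y hy => ?_ : iSup pc ≤ _) (G.top ▸ Submodule.mem_top))
    refine Submodule.mem_iSup_of_mem (j + (D.m : ℤ) • a.1.1 + ∑ s ∈ a.1.2, wt D.b s)
      fun J I => ⟨?_, (sg a y).2 J I⟩
    change (if (J, I) = a.1 then y else 0) ∈ _
    split_ifs with e
    · simpa [← e] using hy
    · exact zero_mem _
  · rw [add_sub_right_comm, add_sub_right_comm]
    exact G.smul y _ _ (hx J I).1
  · have := G.fg
    have := (he_fin (σ := σ) (τ := τ) i).to_subtype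
    refine Module.Finite.of_injective (LinearMap.pi fun a : (he_fin (σ := σ) (τ := τ) i).toFinset =>
      LinearMap.proj (φ := fun _ : Finset σ => M) a.1.2 ∘ₗ LinearMap.proj a.1.1 ∘ₗ
        (heW M (MvPolynomial ρ k) σ τ i).subtype)
      ((injective_iff_map_eq_zero _).2 fun x hx => Subtype.ext (funext₂ fun J I => ?_))
    by_cases h : (J, I) ∈ (he_fin (σ := σ) (τ := τ) i).toFinset
    · exact congrFun hx ⟨_, h⟩
    · exact x.2 J I fun e => h ((he_fin i).mem_toFinset.2 e)

theorem he_ok (h : ∀ t (x : M), D.h t • x = 0) : D.OK M univ fun _ => .pos :=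
  fun t => .inr ⟨fun s _ => mem_univ s, h t⟩

variable (D M) in
/-- the differential on the part of degree `i`. -/
noncomputable def heD (i : ℤ) :
    heW M (MvPolynomial ρ k) σ τ i →ₗ[MvPolynomial ρ k] ((τ → ℤ) → Finset σ → M) :=
  cut M _ (SS univ fun _ => .pos) ∘ₗ td M D.b D.a D.c ∘ₗ Submodule.subtype _

theorem he_pi (G : IsGM D.β pc) (h : ∀ t (x : M), D.h t • x = 0) :
    ∃ P : (τ → ℤ) → ((τ → ℤ) → Finset σ → M) →ₗ[k] ((τ → ℤ) → Finset σ → M),
      (∀ S j i, ∀ v ∈ D.U pc S j i, P j v = v) ∧ ∀ i, ∃ π : (τ → ℤ) →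
        heW M (MvPolynomial ρ k) σ τ i →ₗ[k] heW M (MvPolynomial ρ k) σ τ i,
        (∀ j x, (π j x).1 ∈ D.U pc (SS univ fun _ => .pos) j i) ∧
        (∀ j x, heD M D i (π j x) = P j (heD M D i x)) ∧
        ∀ x (N : Submodule k _), (∀ j, π j x ∈ N) → x ∈ N := by
  obtain ⟨P, p1, p2⟩ := he_P G
  have h1 : ∀ i j, ∀ x : heW M (MvPolynomial ρ k) σ τ i,
      x.1 ∈ D.U pc (SS univ fun _ => .pos) j i →
      heD M D i x ∈ D.U pc (SS univ fun _ => .pos) j (i - 1) := fun i j x hx =>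
    (U_cx G (he_ok h) j).mem (i - 1) x.1 (by simpa using hx)
  exact ⟨P, p1, fun i => he_proj (he_gm G i) ((heD M D i).restrictScalars k) P
    (fun j x hx => p1 _ _ _ _ (h1 i j x hx)) fun j j' e x hx => p2 _ _ _ _ e _ (h1 i j' x hx)⟩

theorem he_ker (G : IsGM D.β pc) (h : ∀ t (x : M), D.h t • x = 0) (i : ℤ) :
    (LinearMap.ker (heD M D i)).restrictScalars k ≤ ⨆ j, (D.U pc (SS univ fun _ => .pos) j i).comap
      ((heW M (MvPolynomial ρ k) σ τ i).subtype.restrictScalars k) ⊓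
        (LinearMap.ker (heD M D i)).restrictScalars k := fun x hx => by
  obtain ⟨P, -, hP⟩ := he_pi G h
  obtain ⟨π, p1, p2, p3⟩ := hP i
  refine p3 x _ fun j => Submodule.mem_iSup_of_mem j ⟨p1 j x, (p2 j x).trans ?_⟩
  rw [show heD M D i x = 0 from hx, map_zero]

theorem EE_hs (G : IsGM D.β pc) (h : ∀ t (x : M), D.h t • x = 0) (t : τ) :
    ∃ (c : ℕ) (L : ℤ), ∀ j, L ≤ j t → (dl t)^[c] (D.EE pc) j = 0 := by
  have hu : ∀ i, HeD t fun j => Module.finrank k (D.U pc (SS univ fun _ => .pos) j i) := fun i => by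
    convert (show HeD t _ from (he_gm G i).hs t) using 3 with j
    exact (he_rank ((heW M (MvPolynomial ρ k) σ τ i).subtype.restrictScalars k)
      Subtype.val_injective fun v hv => ⟨⟨v, fun J I => (hv J I).2⟩, rfl⟩).symm
  have hz : ∀ i, HeD t fun j => Module.finrank k ↥(D.U pc (SS univ fun _ => .pos) j i ⊓
      LinearMap.ker (D.d M (SS univ fun _ => .pos))) := fun i => by
    convert (show HeD t _ from ((he_gm G i).sub _ (he_ker G h i)).hs t) using 3 with j
    have e := he_rank (A := LinearMap.ker (heD M D i))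
      (((heW M (MvPolynomial ρ k) σ τ i).subtype ∘ₗ
        (LinearMap.ker (heD M D i)).subtype).restrictScalars k)
      (Subtype.val_injective.comp Subtype.val_injective)
      (N := D.U pc (SS univ fun _ => .pos) j i ⊓ LinearMap.ker (D.d M (SS univ fun _ => .pos)))
      fun v hv => LinearMap.mem_range.2
        ⟨⟨⟨v, fun J I => ((Submodule.mem_inf.1 hv).1 J I).2⟩, (Submodule.mem_inf.1 hv).2⟩, rfl⟩
    refine e.symm.trans (congrArg (fun N : Submodule k (LinearMap.ker (heD M D i)) =>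
      Module.finrank k N) (Submodule.ext fun x => ?_))
    exact ⟨fun hx => hx.1, fun hx => ⟨hx, x.2⟩⟩
  refine HeD.sum (range (Fintype.card σ + 1)) (fun i => (-1) ^ i)
    (F := fun i j => D.hh pc univ (fun _ => .pos) j i) fun i => ?_
  convert (hz i).lin ((hz (i + 1)).lin (hu (i + 1)) 1 (-1)) 1 1 using 2 with j
  have C := U_cx G (he_ok h) j
  have := U_fin G (SS univ fun _ => .pos) j i
  have := U_fin G (SS univ fun _ => .pos) j (i + 1)
  have e := cm_rank (D.d M (SS univ fun _ => .pos))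
    (Module.Finite.iff_fg.1 (U_fin G (SS univ fun _ => .pos) j (i + 1)))
  have e' := hd_eq_sub (U' := D.U pc (SS univ fun _ => .pos) j (i + 1))
    (fun x hx => C.mem i x (by simpa using hx)) (C.sq _)
  rw [Dat.hh, e', e, inf_comm (LinearMap.ker _)]
  push_cast
  ring

theorem EE_dis (G : IsGM D.β pc) (h : ∀ t (x : M), D.h t • x = 0) (t : τ)
    (hn : ∀ y, D.β y = t → ∃ N : ℕ, X y ^ N ∈
      Ideal.span (Set.range D.a) ⊔ Module.annihilator (MvPolynomial ρ k) M) :
    ∃ L : ℤ, ∀ j, L ≤ j t → D.EE pc j = 0 := by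
  classical
  obtain ⟨P, p0, hP⟩ := he_pi G h
  have h1 : ∀ i : ℤ, ∃ L : ℤ, ∀ j, L ≤ j t → D.hh pc univ (fun _ => .pos) j i = 0 := fun i => by
    obtain ⟨L, hL⟩ := (he_gm G i).nil {t} _ ((LinearMap.range (heD M D (i + 1))).comap
      (heW M (MvPolynomial ρ k) σ τ i).subtype) (he_ker G h i) fun y hy => by
      obtain ⟨N, hN⟩ := hn y (mem_singleton.1 hy)
      refine ⟨N, fun x hx => Submodule.mem_comap.1 ((sup_le (Ideal.span_le.2 ?_) fun f hf => ?_ :
        _ ≤ Submodule.comap (LinearMap.toSpanSingleton (MvPolynomial ρ k) _ x)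
          ((LinearMap.range (heD M D (i + 1))).comap (Submodule.subtype _))) hN)⟩
      · rintro _ ⟨s, rfl⟩
        refine ⟨⟨fun J => ep (MvPolynomial ρ k) M s (x.1 J), fun J I hI => ?_⟩,
          funext₂ fun J I => ?_⟩
        · change (if s ∈ I then sg s I • x.1 J (I.erase s) else 0) = 0
          split_ifs with hs
          · rw [x.2 J (I.erase s) fun e => hI ⟨⟨subset_univ _, e.1.2⟩, by
              have := card_erase_add_one hs
              have := e.2
              omega⟩, smul_zero]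
          · rfl
        · change (if (I, J) ∈ SS univ fun _ => Ty.pos then td M D.b D.a D.c
            (fun J => ep (MvPolynomial ρ k) M s (x.1 J)) J I else 0) = D.a s • x.1 J I
          split_ifs with hJ
          · have e1 : td M D.b D.a D.c x.1 J = 0 := funext fun I' =>
              (if_pos (⟨subset_univ _, hJ.2⟩ : (I', J) ∈ SS univ fun _ => Ty.pos)).symm.trans
                (congrFun₂ (show heD M D i x = 0 from hx) J I')
            have e2 := td_ep D.b D.a D.c s x.1 J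
            rw [e1, map_zero, add_zero] at e2
            exact congrFun e2 I
          · rw [x.2 J I fun e => hJ e.1, smul_zero]
      · exact ⟨0, (map_zero _).trans (funext₂ fun J I =>
          (Module.mem_annihilator.1 hf (x.1 J I)).symm)⟩
    obtain ⟨π, p1, p2, -⟩ := hP (i + 1)
    refine ⟨L, fun j hj => (hd_eq_zero fun v hv hd => ?_).1⟩
    obtain ⟨w, hw⟩ := hL j (by simpa using hj) ⟨v, fun J I => (hv J I).2⟩ hd hv
    exact ⟨_, p1 j w, (p2 j w).trans ((congrArg _ hw).trans (p0 _ _ _ _ hv))⟩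
  choose L hL using h1
  obtain ⟨L₀, h0⟩ := ((range (Fintype.card σ + 1)).image fun i : ℕ => L i).bddAbove
  refine ⟨L₀, fun j hj => sum_eq_zero fun i hi => ?_⟩
  rw [hL i j ((h0 (mem_coe.2 (mem_image_of_mem _ hi))).trans hj), mul_zero]

end

variable {b : σ → τ} {m : ℕ} (hm : (m : k) ≠ 0) {V W : Ideal (MvPolynomial σ k)}

theorem he_h (h1 : FI k b m ≤ V) (h2 : FI k b m ≤ W) (t : τ)
    (x : MvPolynomial (σ ⊕ σ) k ⧸ two V W) : (ferD k b m hm).h t • x = 0 := by
  refine Module.mem_annihilator.1 ?_ x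
  rw [Ideal.annihilator_quotient, ferD_h]
  exact sub_mem (Ideal.mem_sup_left (Ideal.mem_map_of_mem _ (h1 (Ideal.subset_span ⟨t, rfl⟩))))
    (Ideal.mem_sup_right (Ideal.mem_map_of_mem _ (h2 (Ideal.subset_span ⟨t, rfl⟩))))

theorem EI_hs (hV : Hg b V) (hW : Hg b W) (h1 : FI k b m ≤ V) (h2 : FI k b m ≤ W) (t : τ) :
    ∃ (c : ℕ) (L : ℤ), ∀ j, L ≤ j t → (dl t)^[c] (EI b m hm V W) j = 0 :=
  EE_hs (D := ferD k b m hm) (qpc_gm (two_hg hV hW).1) (he_h hm h1 h2) t

theorem he_fa (f : MvPolynomial σ k) :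
    rename Sum.inl f - rename Sum.inr f ∈ Ideal.span (Set.range (fa k (σ := σ))) :=
  Ideal.Quotient.eq.1 (DFunLike.congr_fun (algHom_ext
    (f := (Ideal.Quotient.mkₐ k (Ideal.span (Set.range (fa k (σ := σ))))).comp (rename Sum.inl))
    (g := (Ideal.Quotient.mkₐ k _).comp (rename Sum.inr)) fun s => by
      simp only [AlgHom.comp_apply, rename_X]
      exact Ideal.Quotient.eq.2 (Ideal.subset_span (Set.mem_range_self s))) f)

theorem EI_dis (hV : Hg b V) (hW : Hg b W) (h1 : FI k b m ≤ V) (h2 : FI k b m ≤ W) (t : τ)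
    (hn : ∀ s, b s = t → ∃ N : ℕ, X s ^ N ∈ V ⊔ W) :
    ∃ L : ℤ, ∀ j, L ≤ j t → EI b m hm V W j = 0 := by
  refine EE_dis (D := ferD k b m hm) (qpc_gm (two_hg hV hW).1) (he_h hm h1 h2) t fun y hy => ?_
  rw [Ideal.annihilator_quotient]
  have key : ∀ f ∈ V ⊔ W, rename Sum.inl f ∈ Ideal.span (Set.range (fa k)) ⊔ two V W ∧
      rename Sum.inr f ∈ Ideal.span (Set.range (fa k)) ⊔ two V W := fun f hf => by
    obtain ⟨v, hv, w, hw, rfl⟩ := Submodule.mem_sup.1 hf
    have e1 : rename Sum.inl v + rename Sum.inr w ∈ Ideal.span (Set.range (fa k)) ⊔ two V W :=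
      Ideal.mem_sup_right (add_mem (Ideal.mem_sup_left (Ideal.mem_map_of_mem _ hv))
        (Ideal.mem_sup_right (Ideal.mem_map_of_mem _ hw)))
    constructor
    · convert add_mem e1 (Ideal.mem_sup_left (he_fa w)) using 1
      rw [map_add]
      ring
    · convert sub_mem e1 (Ideal.mem_sup_left (he_fa v)) using 1
      rw [map_add]
      ring
  rcases y with s | s <;> obtain ⟨N, hN⟩ := hn s hy
  · exact ⟨N, by have := (key _ hN).1; rwa [map_pow, rename_X] at this⟩
  · exact ⟨N, by have := (key _ hN).2; rwa [map_pow, rename_X] at this⟩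

theorem EI_diag (hV : Hg b V) (hW : Hg b W) (h1 : FI k b m ≤ V) (h2 : FI k b m ≤ W)
    (g : σ → rootsOfUnity m k) (j : τ → ℤ) :
    EI b m hm (V.map (diagAct σ m g)) (W.map (diagAct σ m g)) j = EI b m hm V W j := by
  let γ := diagAct (k := k) (σ ⊕ σ) m
  let φ := Ideal.quotientEquivAlg (two V W) _
    (AlgEquiv.ofBijective (γ (Sum.elim g g)) (hom_bij γ _)) (two_map m V W g g).symm
  have e : ∀ f, φ (Ideal.Quotient.mk _ f) = Ideal.Quotient.mk _ (γ (Sum.elim g g) f) :=
    fun _ => rfl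
  have es : ∀ f x, φ (f • x) = γ (Sum.elim g g) f • φ x := fun f x => by
    obtain ⟨y, rfl⟩ := Ideal.Quotient.mk_surjective x
    exact (e (f * y)).trans (congrArg _ (map_mul _ _ _))
  rw [EI, EI, Dat.EE, Dat.EE]
  refine sum_congr rfl fun i _ => congrArg _ (hh_inv (D := ferD k b m hm)
    (qpc_gm (two_hg hV hW).1) (he_ok (he_h hm h1 h2)) φ.toLinearEquiv (fun j x => ⟨?_, ?_⟩)
    (fun s => (g s).1) (fun s _ x => (es _ x).trans ?_) (fun s _ x => (es _ x).trans ?_) j i).symm
  · intro hx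
    obtain ⟨f, hf, e'⟩ := Submodule.mem_map.1 hx
    refine ⟨γ (Sum.elim g g)⁻¹ f, hom_diag m _ hf, φ.injective ((e _).trans (Eq.trans ?_ e'))⟩
    rw [← AlgHom.mul_apply, ← map_mul, mul_inv_cancel, map_one]
    rfl
  · rintro ⟨f, hf, rfl⟩
    exact ⟨_, hom_diag m (Sum.elim g g) hf, (e f).symm⟩
  · rw [Units.smul_def, ← smul_assoc]
    refine congrArg (· • _) ?_
    change γ _ (fa k s) = _ • fa k s
    simp [γ, fa, smul_sub, smul_eq_C_mul]
  · rw [Units.smul_def, ← smul_assoc]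
    refine congrArg (· • _) ?_
    change γ _ (fc k m s) = _ • fc k m s
    have h0 : ((g s).1 : k) ^ m = 1 := (mem_rootsOfUnity' _ _).1 (g s).2
    simp only [γ, fc, map_sum, map_mul, map_pow, diagAct_X, Sum.elim_inl, Sum.elim_inr, smul_sum,
      smul_eq_C_mul]
    refine sum_congr rfl fun n hn => ?_
    have h3 : (((g s).1⁻¹ : kˣ) : k) = ((g s).1 : k) ^ n * ((g s).1 : k) ^ (m - 1 - n) := by
      refine Units.inv_eq_of_mul_eq_one_right ?_
      have := mem_range.1 hn
      rw [← pow_add, ← pow_succ', ← h0]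
      congr 1
      omega
    rw [h3, map_mul, map_pow, map_pow]
    ring

end Pool.Agent.Lib.MP_40dc3c_ag.P
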