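import Pool.Agent.Lib.MP_40dc3c_ag.P.Mba

/-! One block of linear sections. -/

namespace Pool.Agent.Lib.MP_40dc3c_ag.P

open MvPolynomial Finset Function

section sec

variable {k : Type} [Field k] {σ τ ρ : Type} [Fintype σ] {b : σ → τ} {T : Finset τ} (S : Sec b T)
  (m : ℕ) (e : τ → k) (t : τ)

/-- the degree of the last equation. -/
def Sec.dg : ℕ := if #(S.R t) = 2 then 1 else m

theorem mem_blk {s : σ} {t : τ} : s ∈ blk b t ↔ b s = t := by simp [blk]

theorem fer_blk : fer k b m t = ∑ s ∈ blk b t, X s ^ m := rfl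

theorem Sec.phi_form : ∃ ψ : MvPolynomial σ k, ψ.degreeOf (S.y t) = 0 ∧
    S.φ m e t = X (S.y t) ^ S.dg m t + ψ ∧
    (S.φ m e t).IsWeightedHomogeneous (wt b) ((S.dg m t : ℤ) • et t) := by
  classical
  have hX : ∀ s ∈ S.R t, (X s : MvPolynomial σ k).IsWeightedHomogeneous (wt b) (et t) :=
    fun s hs => by
      simpa [wt, mem_blk.1 (S.sub t hs)] using isWeightedHomogeneous_X k (wt b) s
  rw [Sec.φ, Sec.dg]
  split_ifs with c
  · refine ⟨-(C (e t) * X (S.w t)), ?_, by ring, ?_⟩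
    · rw [degreeOf_neg, degreeOf_mul_X_of_ne _ (S.ne t), degreeOf_C]
    · rw [Nat.cast_one, one_smul]
      exact (weightedHomogeneousSubmodule k _ _).sub_mem (hX _ (S.hy t)) ((hX _ (S.hw t)).C_mul _)
  · refine ⟨∑ s ∈ (S.R t).erase (S.y t), X s ^ m, Nat.le_zero.1 ((degreeOf_sum_le _ _ _).trans
      (Finset.sup_le fun s hs => (degreeOf_X_pow_of_ne m (ne_of_mem_erase hs).symm).le)),
      (add_sum_erase _ _ (S.hy t)).symm, (weightedHomogeneousSubmodule k _ _).sum_mem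
        fun s hs => ?_⟩
    rw [natCast_zsmul]
    exact (hX s hs).pow m

theorem Sec.B_hg : Hg b (S.B m e t) := by
  refine (hg_span ?_).sup (hg_span ?_)
  · rintro _ ⟨s, -, -, rfl⟩
    exact ⟨_, isWeightedHomogeneous_X k _ s⟩
  · rintro _ rfl
    obtain ⟨ψ, -, -, h⟩ := S.phi_form m e t
    exact ⟨_, h⟩

omit [Fintype σ] in
theorem blkI_hg : Hg b (blkI k b t) := hg_span (by
  rintro _ ⟨s, -, rfl⟩
  exact ⟨_, isWeightedHomogeneous_X k _ s⟩)

variable {m}

theorem Sec.fer_sub (h0 : m ≠ 0) : fer k b m t - ∑ s ∈ S.R t, X s ^ m ∈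
    Ideal.span {f : MvPolynomial σ k | ∃ s, b s = t ∧ s ∉ S.R t ∧ f = X s} := by
  classical
  rw [fer_blk, ← sum_sdiff_eq_sub (S.sub t)]
  refine Ideal.sum_mem _ fun s hs => Ideal.pow_mem_of_mem _ (Ideal.subset_span ?_) _
    (Nat.pos_of_ne_zero h0)
  exact ⟨s, mem_blk.1 (mem_sdiff.1 hs).1, (mem_sdiff.1 hs).2, rfl⟩

theorem Sec.fer_mem_B (h0 : m ≠ 0) (he : e t ^ m = -1) : fer k b m t ∈ S.B m e t := by
  classical
  rw [← sub_add_cancel (fer k b m t) (∑ s ∈ S.R t, X s ^ m)]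
  refine Submodule.add_mem_sup (S.fer_sub t h0) (Ideal.mem_span_singleton.2 ?_)
  rw [Sec.φ]
  split_ifs with c
  · have h : ({S.y t, S.w t} : Finset σ) = S.R t := eq_of_subset_of_card_le
      (insert_subset (S.hy t) (singleton_subset_iff.2 (S.hw t))) (by rw [c, card_pair (S.ne t)])
    have := sub_dvd_pow_sub_pow (X (S.y t) : MvPolynomial σ k) (C (e t) * X (S.w t)) m
    rw [mul_pow, ← map_pow, he] at this
    rw [← h, sum_pair (S.ne t)]
    simpa using this
  · rfl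

variable [DecidableEq σ] (ι : σ ↪ ρ)

theorem Sec.off_map :
    (Ideal.span {f : MvPolynomial σ k | ∃ s, b s = t ∧ s ∉ S.R t ∧ f = X s}).map (rename ι) =
      .span (X '' (((blk b t \ S.R t).map ι : Finset ρ) : Set ρ)) := by
  rw [Ideal.map_span]
  congr 1
  ext f
  constructor
  · rintro ⟨_, ⟨s, h1, h2, rfl⟩, rfl⟩
    exact ⟨ι s, by simp [mem_blk, h1, h2], (rename_X _ _).symm⟩
  · rintro ⟨y, hy, rfl⟩
    obtain ⟨s, hs, rfl⟩ := mem_map.1 (mem_coe.1 hy)
    exact ⟨_, ⟨s, mem_blk.1 (mem_sdiff.1 hs).1, (mem_sdiff.1 hs).2, rfl⟩, rename_X _ _⟩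

omit [DecidableEq σ] in
theorem blkI_map : (blkI k b t).map (rename ι) =
    .span (X '' (((blk b t).map ι : Finset ρ) : Set ρ)) := by
  rw [blkI, Ideal.map_span]
  congr 1
  ext f
  constructor
  · rintro ⟨_, ⟨s, h1, rfl⟩, rfl⟩
    exact ⟨ι s, by simp [mem_blk, h1], (rename_X _ _).symm⟩
  · rintro ⟨y, hy, rfl⟩
    obtain ⟨s, hs, rfl⟩ := mem_map.1 (mem_coe.1 hy)
    exact ⟨_, ⟨s, mem_blk.1 hs, rfl⟩, rename_X _ _⟩

theorem Sec.fr_off {β : ρ → τ} {I : Ideal (MvPolynomial ρ k)}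
    (hI : Fr β ((blk b t).map ι : Finset ρ) I) :
    Fr β {ι (S.y t)} (I ⊔ .span (X '' (((blk b t \ S.R t).map ι : Finset ρ) : Set ρ))) :=
  (hI.mono (by simpa using S.sub t (S.hy t))).sup (fr_vars fun z hz c => by
    rw [Set.mem_singleton_iff.1 c] at hz
    simp [S.hy t] at hz)

end sec

theorem mb_unit {E : Type} [CommRing E] {I : Ideal E} {a c u : E} (hu : u * u = 1)
    (h : a - u * c ∈ I) : I ⊔ .span {c} = I ⊔ .span {a} ∧ ∀ x, a * x ∈ I → c * x ∈ I := by
  refine ⟨le_antisymm (sup_le le_sup_left ((Ideal.span_singleton_le_iff_mem _).2 ?_))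
    (sup_le le_sup_left ((Ideal.span_singleton_le_iff_mem _).2 ?_)), fun x hx => ?_⟩
  · rw [show c = -u * (a - u * c) + u * a by linear_combination (-c) * hu]
    exact Submodule.add_mem_sup (I.mul_mem_left _ h) (Ideal.mem_span_singleton'.2 ⟨u, rfl⟩)
  · rw [← sub_add_cancel a (u * c)]
    exact Submodule.add_mem_sup h (Ideal.mem_span_singleton'.2 ⟨u, rfl⟩)
  · rw [show c * x = u * (a * x) - u * x * (a - u * c) by linear_combination (-(c * x)) * hu]
    exact sub_mem (I.mul_mem_left _ hx) (I.mul_mem_left _ h)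

section side

variable {k : Type} [Field k] {σ τ ρ : Type} [LinearOrder σ] [Fintype σ] [Fintype τ] [Finite ρ]
  {b : σ → τ} {T : Finset τ} (S : Sec b T) {m : ℕ} (e : τ → k) {t : τ} {D : Dat k σ τ ρ}
  {A : Finset σ} {ε : τ → Ty} {I : Ideal (MvPolynomial ρ k)} (ι : σ ↪ ρ)
  (hι : ∀ s, D.β (ι s) = b s) (hI : Fr D.β ((blk b t).map ι : Finset ρ) I)

include hι hI

theorem Sec.side (h0 : m ≠ 0) (h : D.OK (MvPolynomial ρ k ⧸ I) A ε) :
    D.ch (qpc D.β (I ⊔ (S.B m e t).map (rename ι))) A ε =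
      op t (uu (S.dg m t) * uu 1 ^ (#(blk b t) - #(S.R t))) (D.ch (qpc D.β I) A ε) := by
  obtain ⟨ψ, h1, h2, h3⟩ := S.phi_form m e t
  rw [Sec.B, Ideal.map_sup, S.off_map t ι, Ideal.map_span, Set.image_singleton, ← sup_assoc,
    mb_reg (t := t) (ν := S.dg m t) (ψ := rename ι ψ) (S.fr_off t ι hI) (ok_mono h le_sup_left) rfl
      (by rw [Sec.dg]; split_ifs <;> omega)
      ((degreeOf_rename_of_injective ι.injective _).trans h1) (by rw [h2]; simp)
      (hom_algHom (rename ι) (fun s => by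
        simpa [wt, hι] using isWeightedHomogeneous_X k (wt D.β) (ι s)) h3),
    mb_vars (t := t) _ (fun y hy => ?_) (hI.mono (by
      simpa using Set.image_mono Set.sdiff_subset)) h, card_map, card_sdiff_of_subset (S.sub t),
    op_mul]
  obtain ⟨s, hs, rfl⟩ := mem_map.1 hy
  exact (hι s).trans (mem_blk.1 (mem_sdiff.1 hs).1)

theorem side_blk (h : D.OK (MvPolynomial ρ k ⧸ I) A ε) :
    D.ch (qpc D.β (I ⊔ (blkI k b t).map (rename ι))) A ε =
      op t (uu 1 ^ #(blk b t)) (D.ch (qpc D.β I) A ε) := by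
  rw [blkI_map, mb_vars (t := t) _ (fun y hy => ?_) hI h, card_map]
  obtain ⟨s, hs, rfl⟩ := mem_map.1 hy
  exact (hι s).trans (mem_blk.1 hs)

omit hι in
theorem Sec.side_ci [DecidableEq τ] (h0 : m ≠ 0) (hR : #(S.R t) ≠ 2) (ht : ε t = .all)
    (hA : ∀ s, D.b s = t → s ∈ A) (h : D.OK (MvPolynomial ρ k ⧸ I) A (update ε t .zero))
    {u : MvPolynomial ρ k} (hu : u * u = 1) (hh : D.h t - u * rename ι (fer k b m t) ∈ I)
    (j : τ → ℤ) : D.ch (qpc D.β (I ⊔ (S.B m e t).map (rename ι))) A ε j = 0 := by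
  obtain ⟨ψ, h1, h2, -⟩ := S.phi_form m e t
  have h3 := Ideal.mem_map_of_mem (rename ι) (S.fer_sub (k := k) t h0)
  rw [S.off_map t ι, map_sub, show ∑ s ∈ S.R t, X s ^ m = S.φ m e t from (if_neg hR).symm] at h3
  have h4 := mb_unit (a := D.h t) (c := rename ι (S.φ m e t)) hu (by
    have := Submodule.add_mem_sup hh (Ideal.mul_mem_left _ u h3)
    rwa [mul_sub, sub_add_sub_cancel] at this)
  refine mb_ci (S.fr_off t ι hI).hg ht hA (ok_mono h le_sup_left) (fun x hx =>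
    (S.fr_off t ι hI).reg rfl (ν := S.dg m t) (ψ := rename ι ψ)
      (by rw [Sec.dg]; split_ifs <;> omega)
      ((degreeOf_rename_of_injective ι.injective _).trans h1) x ?_) ?_ j
  · have := h4.2 x hx
    rw [h2] at this
    simpa using this
  · rw [Sec.B, Ideal.map_sup, S.off_map t ι, Ideal.map_span, Set.image_singleton, ← sup_assoc, h4.1]

end side

theorem ch_block' {k : Type} [Field k] {σ τ ρ : Type} [LinearOrder σ] [Fintype σ] [Fintype τ]
    [DecidableEq τ] [Finite ρ] (E : Dat k σ τ ρ) {T : Finset τ} (D D' : Sec E.b T) (t : τ)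
    (hc : #(D.R t) + #(D'.R t) = #(blk E.b t) + 2) (h3 : 3 ≤ #(blk E.b t)) {e e' : τ → k}
    (he : e t ^ E.m = -1) (he' : e' t ^ E.m = -1) (l r : σ ↪ ρ) (hl : ∀ s, E.β (l s) = E.b s)
    (hr : ∀ s, E.β (r s) = E.b s) (hlr : ∀ s s', l s ≠ r s')
    (hall : ∀ y, E.β y = t → ∃ s, E.b s = t ∧ (y = l s ∨ y = r s))
    (hh : E.h t = rename l (fer k E.b E.m t) - rename r (fer k E.b E.m t))
    {I : Ideal (MvPolynomial ρ k)} (hI : Fr E.β {y | E.β y = t} I) {A : Finset σ} {ε : τ → Ty}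
    (ht : ε t = .neg) (hA : blk E.b t ⊆ A)
    (h : E.OK (MvPolynomial ρ k ⧸ I) A (update ε t .zero)) (j : τ → ℤ) (hj : (E.m : ℤ) ≤ j t) :
    E.ch (qpc E.β (I ⊔ (D.B E.m e t).map (rename l) ⊔ (D'.B E.m e' t).map (rename r))) A ε j =
      -(D.ν D' E.m t) * E.ch (qpc E.β (I ⊔ (blkI k E.b t).map (rename l) ⊔
        (blkI k E.b t).map (rename r))) (A \ blk E.b t) (update ε t .zero) (update j t 0) := by
  have h0 : E.m ≠ 0 := E.pos.ne'
  have hA' : ∀ s, E.b s = t → s ∈ A := fun s hs => hA (mem_blk.2 hs)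
  have f0 : ∀ ι : σ ↪ ρ, (∀ s, E.β (ι s) = E.b s) →
      Fr E.β ((blk E.b t).map ι : Finset ρ) I := fun ι hι => hI.mono fun y hy => by
    obtain ⟨s, hs, rfl⟩ := mem_map.1 (mem_coe.1 hy)
    exact (hι s).trans (mem_blk.1 hs)
  have fl : ∀ K : Ideal (MvPolynomial σ k), Hg E.b K →
      Fr E.β ((blk E.b t).map r : Finset ρ) (I ⊔ K.map (rename l)) := fun K hK =>
    (f0 r hr).sup (fr_map hK l hl fun s c => by
      obtain ⟨s', -, c⟩ := mem_map.1 (mem_coe.1 c)
      exact hlr _ _ c.symm)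
  have fr : ∀ K : Ideal (MvPolynomial σ k), Hg E.b K →
      Fr E.β ((blk E.b t).map l : Finset ρ) (I ⊔ K.map (rename r)) := fun K hK =>
    (f0 l hl).sup (fr_map hK r hr fun s c => by
      obtain ⟨s', -, c⟩ := mem_map.1 (mem_coe.1 c)
      exact hlr _ _ c)
  have hg : ∀ K K' : Ideal (MvPolynomial σ k), Hg E.b K → Hg E.b K' →
      IsGM E.β (qpc E.β (I ⊔ K.map (rename l) ⊔ K'.map (rename r))) := fun K K' a a' =>
    qpc_gm ((fl K a).hg.sup (a'.rename r id hr))
  have m1 := Ideal.mem_map_of_mem (rename l) (D.fer_mem_B e t h0 he)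
  have m2 := Ideal.mem_map_of_mem (rename r) (D'.fer_mem_B e' t h0 he')
  have gI := hg _ _ (D.B_hg E.m e t) (D'.B_hg E.m e' t)
  have gJ := hg _ _ (blkI_hg t) (blkI_hg t)
  have ok : ∀ x, E.OK (MvPolynomial ρ k ⧸ (I ⊔ (D.B E.m e t).map (rename l) ⊔
      (D'.B E.m e' t).map (rename r))) A (update ε t x) := fun x u => by
    by_cases c : u = t
    · subst c
      refine .inr ⟨hA', smul_quot.2 ?_⟩
      rw [hh]
      exact sub_mem (Ideal.mem_sup_left (Ideal.mem_sup_right m1)) (Ideal.mem_sup_right m2)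
    · have := ok_mono h (le_sup_left.trans le_sup_left : I ≤ I ⊔ (D.B E.m e t).map (rename l) ⊔
        (D'.B E.m e' t).map (rename r)) u
      rwa [update_of_ne c] at this ⊢
  have hall0 : E.ch (qpc E.β (I ⊔ (D.B E.m e t).map (rename l) ⊔
      (D'.B E.m e' t).map (rename r))) A (update ε t .all) j = 0 := by
    by_cases c : #(D'.R t) = 2
    · rw [sup_right_comm]
      refine D.side_ci e l (fr _ (D'.B_hg E.m e' t)) h0 (by omega)
        (update_self ..) hA' (by rw [update_idem]; exact ok_mono h le_sup_left) (mul_one 1) ?_ j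
      rw [hh, one_mul, sub_sub_cancel_left]
      exact neg_mem (Ideal.mem_sup_right m2)
    · refine D'.side_ci e' r (fl _ (D.B_hg E.m e t)) h0 c (update_self ..) hA'
        (by rw [update_idem]; exact ok_mono h le_sup_left) (u := -1) (by simp) ?_ j
      rw [hh, neg_one_mul, sub_neg_eq_add, sub_add_cancel]
      exact Ideal.mem_sup_right m1
  have e1 := ch_add gI (ok .all) (update_self ..) j
  rw [hall0, update_idem, update_idem, ← ht, update_eq_self] at e1
  have e2 : op t (uu E.m) _ = _ := funext fun j =>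
    (op_uu t E.m _ j).trans (ch_pos gI (ok .pos) (update_self ..) j)
  have o' := (mb_peel (qpc_gm hI.hg) h (update_self ..) (blk E.b t)
    (fun s hs => mem_blk.1 hs) hA).1
  rw [update_idem, (mb_peel gI (ok .zero) (update_self ..) (blk E.b t)
    (fun s hs => mem_blk.1 hs) hA).2, D'.side e' r hr (fl _ (D.B_hg E.m e t)) h0
    (ok_mono o' le_sup_left), D.side e l hl (f0 l hl) h0 o'] at e2
  have n0 : 0 < D.ν D' E.m t ∧ D.ν D' E.m t ≤ E.m := by
    rw [Sec.ν]
    split_ifs <;> omega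
  have lo : ∀ {K : Ideal (MvPolynomial ρ k)} (g : IsGM E.β (qpc E.β K)) A x,
      x = Ty.pos ∨ x = Ty.zero → Low t (E.ch (qpc E.β K) A (update ε t x)) := fun g A x hx => by
    obtain ⟨L, hL⟩ := ch_low g
    exact ⟨L, fun j => hL A _ t j (by rwa [update_self])⟩
  have e3 := ((lo gI A _ (.inl rfl)).op (uu 1 * uu 1)).inj
    ((lo gJ (A \ blk E.b t) _ (.inr rfl)).op (uu (D.ν D' E.m t))) E.pos (by
      rw [← op_mul, mul_comm, op_mul, e2, side_blk r hr (fl _ (blkI_hg t))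
        (ok_mono o' le_sup_left), side_blk l hl (f0 l hl) o']
      simp only [← op_mul]
      congr 2
      have c1 := card_le_card (D.sub t)
      have c2 := card_le_card (D'.sub t)
      have c3 : uu (D'.dg E.m t) * uu (D.dg E.m t) = uu E.m * uu (D.ν D' E.m t) := by
        rw [Sec.dg, Sec.dg, Sec.ν]
        by_cases a : #(D.R t) = 2 <;> by_cases a' : #(D'.R t) = 2
        · omega
        · simp [a, a']
        · simp [a, a', mul_comm]
        · simp [a, a']
      have c4 : uu 1 ^ #(blk E.b t) =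
          uu 1 ^ (#(blk E.b t) - #(D'.R t)) * uu 1 ^ (#(blk E.b t) - #(D.R t)) * uu 1 ^ 2 := by
        rw [← pow_add, ← pow_add]
        congr 1
        omega
      generalize uu 1 ^ (#(blk E.b t) - #(D'.R t)) = p at *
      generalize uu 1 ^ (#(blk E.b t) - #(D.R t)) = q at *
      generalize uu 1 ^ #(blk E.b t) = w at *
      linear_combination (uu 1 ^ 2 * w * p * q) * c3 - uu E.m * uu (D.ν D' E.m t) * w * c4)
  have e4 := op_solve (lo gI A _ (.inl rfl)) n0.1 (fun j hj => finsum_eq_zero_of_forall_eq_zero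
    fun i => by
      rw [hh_off (qpc_off fun y hy => ?_) (update_self ..)
        (fun s hs c => (mem_sdiff.1 hs).2 (mem_blk.2 c)) j hj, mul_zero]
      obtain ⟨s, hs, rfl | rfl⟩ := hall y hy
      · rw [← rename_X (R := k) l s]
        exact Ideal.mem_sup_left (Ideal.mem_sup_right
          (Ideal.mem_map_of_mem _ (Ideal.subset_span ⟨s, hs, rfl⟩)))
      · rw [← rename_X (R := k) r s]
        exact Ideal.mem_sup_right
          (Ideal.mem_map_of_mem _ (Ideal.subset_span ⟨s, hs, rfl⟩))) e3 j (by omega)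
  rw [neg_mul]
  exact (eq_neg_of_add_eq_zero_left e1.symm).trans (congrArg Neg.neg e4)

variable {k : Type} [Field k] {σ τ : Type} [LinearOrder σ] [Fintype σ] [Fintype τ] [DecidableEq τ]
  {b : σ → τ} {m : ℕ} (hm : (m : k) ≠ 0) {T : Finset τ}

theorem ch_block (D D' : Sec b T) (t : τ) (hc : #(D.R t) + #(D'.R t) = #(blk b t) + 2)
    (h3 : 3 ≤ #(blk b t)) {e e' : τ → k} (he : e t ^ m = -1) (he' : e' t ^ m = -1)
    (G : Set (MvPolynomial (σ ⊕ σ) k))
    (hG : ∀ g ∈ G, (∃ d, g.IsWeightedHomogeneous (wt (Sum.elim b b)) d) ∧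
      ∀ y ∈ g.vars, Sum.elim b b y ≠ t) {A : Finset σ} {ε : τ → Ty} (ht : ε t = .neg)
    (hA : blk b t ⊆ A)
    (h : (ferD k b m hm).OK (MvPolynomial (σ ⊕ σ) k ⧸ Ideal.span G) A (update ε t .zero))
    (j : τ → ℤ) (hj : (m : ℤ) ≤ j t) :
    chI b m hm (.span G ⊔ two (D.B m e t) (D'.B m e' t)) A ε j = -(D.ν D' m t) *
      chI b m hm (.span G ⊔ two (blkI k b t) (blkI k b t)) (A \ blk b t) (update ε t .zero)
        (update j t 0) := by
  rw [two, two, ← sup_assoc, ← sup_assoc]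
  exact ch_block' (ferD k b m hm) D D' t hc h3 he he' Embedding.inl Embedding.inr (fun _ => rfl)
    (fun _ => rfl) (fun _ _ => Sum.inl_ne_inr) (by
      rintro (s | s) hs
      exacts [⟨s, hs, .inl rfl⟩, ⟨s, hs, .inr rfl⟩]) (ferD_h b m hm t)
    ⟨G, rfl, fun g hg => ⟨(hG g hg).1, fun y hy c => (hG g hg).2 y c hy⟩⟩ ht hA h j hj

end Pool.Agent.Lib.MP_40dc3c_ag.P
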