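import Pool.Agent.Lib.MP_40dc3c_ag.P.ThA

/-! The Euler characteristic of a Koszul factorisation. -/

namespace Pool.Agent.Lib.MP_40dc3c_ag.P

open Finset Function

set_option linter.unusedSectionVars false

variable {k : Type} [Field k] {σ : Type} [LinearOrder σ] {E : Type} [CommRing E] [Algebra k E]
  {M M' M'' : Type} [AddCommGroup M] [Module E M] [Module k M] [IsScalarTower k E M]
  [AddCommGroup M'] [Module E M'] [Module k M'] [IsScalarTower k E M']
  [AddCommGroup M''] [Module E M''] [Module k M''] [IsScalarTower k E M'']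
  {A : Finset σ} {a c : σ → E}

theorem ks_cx (h : ∀ x : M, (∑ s ∈ A, a s * c s) • x = 0) :
    IsCx (Equiv.addRight (1 : ZMod 2)) ((kd M A a c).restrictScalars k) (KS M k A) :=
  ⟨fun _ _ hx => ks_kd hx, fun _ x _ => kd_kd h x⟩

theorem thFin_of [IsNoetherianRing E] [Module.Finite E M]
    (h : ∀ x : M, (∑ s ∈ A, a s * c s) • x = 0)
    (hq : FiniteDimensional k (E ⧸ (Ideal.span (a '' A ∪ c '' A) ⊔ Module.annihilator E M))) :
    ThFin M k A a c := by
  intro e
  let KE : ZMod 2 → Submodule E (Finset σ → M) := fun e =>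
    ⟨(KS M k A e).toAddSubmonoid, fun r _ hv => ks_smul r hv⟩
  have hfg : (KE e ⊓ LinearMap.ker (kd M A a c)).FG := by
    rw [← Module.Finite.iff_fg]
    refine Module.Finite.of_injective ((LinearMap.funLeft E M
      fun I : A.powerset => I.1) ∘ₗ Submodule.subtype _) ((injective_iff_map_eq_zero _).2 ?_)
    rintro ⟨v, hv⟩ h0
    refine Subtype.ext (funext fun I => ?_)
    by_cases hI : I ⊆ A
    · exact congrFun h0 ⟨I, mem_powerset.2 hI⟩
    · exact hv.1 I fun h' => hI h'.1
  refine Submodule.fg_induction (motive := fun N _ => N ≤ KE e ⊓ LinearMap.ker (kd M A a c) →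
    FiniteDimensional k ((N.restrictScalars k).map
      ((KS M k A (e + 1)).map ((kd M A a c).restrictScalars k)).mkQ))
    (fun z hz => ?_) (fun N N' _ _ h1 h2 hN => ?_) _ hfg le_rfl
  · obtain ⟨hz, hz0⟩ := hz (Submodule.mem_span_singleton_self z)
    replace hz0 : kd M A a c z = 0 := hz0
    have hI : Ideal.span (a '' A ∪ c '' A) ⊔ Module.annihilator E M ≤
        ((KE (e + 1)).map (kd M A a c)).comap (LinearMap.toSpanSingleton E _ z) := by
      refine sup_le (Ideal.span_le.2 ?_) fun r hr => ?_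
      · rintro _ (⟨s, hs, rfl⟩ | ⟨s, hs, rfl⟩)
        · refine ⟨ep E M s z, ks_ep (k := k) hs hz, ?_⟩
          simpa [hz0, mem_coe.1 hs] using kd_ep A a c s z
        · refine ⟨io E M s z, ks_mono (k := k) (erase_subset s A)
            (ks_io s (by rw [th_two]; exact hz)), ?_⟩
          simpa [hz0, mem_coe.1 hs] using kd_io A a c s z
      · have : r • z = 0 := funext fun I => Module.mem_annihilator.1 hr _
        exact ⟨0, zero_mem _, by simp [this]⟩
    let l : (E ⧸ (Ideal.span (a '' A ∪ c '' A) ⊔ Module.annihilator E M)) →ₗ[k] _ :=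
      (Submodule.liftQ _ (((KS M k A (e + 1)).map ((kd M A a c).restrictScalars k)).mkQ ∘ₗ
        (LinearMap.toSpanSingleton E _ z).restrictScalars k) fun r hr =>
          (Submodule.Quotient.mk_eq_zero _).2 (hI hr)) ∘ₗ
        (Submodule.Quotient.restrictScalarsEquiv k _).symm.toLinearMap
    refine Submodule.finiteDimensional_of_le (S₂ := LinearMap.range l) ?_
    rintro _ ⟨x, hx, rfl⟩
    obtain ⟨r, rfl⟩ := Submodule.mem_span_singleton.1 hx
    exact ⟨Submodule.Quotient.mk r, rfl⟩
  · have := h1 (le_sup_left.trans hN)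
    have := h2 (le_sup_right.trans hN)
    rw [Submodule.restrictScalars_sup, Submodule.map_sup]
    infer_instance

theorem theta_add (h : ∀ x : M, (∑ s ∈ A, a s * c s) • x = 0) (f : M' →ₗ[E] M) (g : M →ₗ[E] M'')
    (hf : Injective f) (he : Exact f g) (hg : Surjective g) (h1 : ThFin M' k A a c)
    (h2 : ThFin M'' k A a c) :
    ThFin M k A a c ∧ theta M k A a c = theta M' k A a c + theta M'' k A a c := by
  refine th_add (f := (f.compLeft _).restrictScalars k) (g := (g.compLeft _).restrictScalars k)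
    (ks_cx fun x => hf (by rw [map_smul, h, map_zero])) (ks_cx h) (ks_cx fun x => ?_)
    ⟨fun _ _ => ks_map f, fun _ _ => ks_map g, fun _ x _ hx => funext fun I => hf
      ((congrFun hx I).trans (map_zero f).symm), fun i y hy => ⟨fun h0 => ?_, ?_⟩,
      fun _ _ => ks_lift g hg, fun _ x _ => cl_kd f x, fun _ x _ => cl_kd g x⟩ h1 h2
  · obtain ⟨y, rfl⟩ := hg x
    rw [← map_smul, h, map_zero]
  · choose x hx using fun I => (he (y I)).1 (congrFun h0 I)
    exact ⟨x, fun I hI => hf (by rw [hx, hy I hI, map_zero]), funext hx⟩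
  · rintro ⟨x, -, rfl⟩
    exact funext fun I => he.apply_apply_eq_zero _

/-- a module that is cut out by the form itself. -/
theorem theta_ci (hi : ∀ x : M, (∑ s ∈ A, a s * c s) • x = 0 → x = 0) (g : M →ₗ[E] M')
    (hg : Surjective g) (hk : ∀ x, g x = 0 ↔ ∃ y, x = (∑ s ∈ A, a s * c s) • y) :
    ThFin M' k A a c ∧ theta M' k A a c = 0 := by
  have key : ∀ e, ∀ x ∈ KS M' k A e, (kd M' A a c).restrictScalars k x = 0 →
      ∃ y ∈ KS M' k A (e + 1), (kd M' A a c).restrictScalars k y = x := fun e x hx h0 => by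
    obtain ⟨v, hv, rfl⟩ := ks_lift g hg hx
    obtain ⟨y, hy, e1⟩ := ks_div (e := e + 1) hi g hk (ks_kd (by rw [th_two]; exact hv))
      ((cl_kd g v).trans h0)
    refine ⟨_, ks_map g hy, (cl_kd g y).symm.trans (congrArg _ (funext fun I => ?_))⟩
    have e2 : (∑ s ∈ A, a s * c s) • (kd M A a c y - v) = 0 := by
      rw [← kd_sq, map_sub, kd_sq, e1, sub_self, map_zero]
    exact sub_eq_zero.1 (hi _ (congrFun e2 I))
  exact ⟨fun e => (hd_eq_zero (key e)).2, by
    rw [theta, (hd_eq_zero (U' := KS M' k A 1) (key 0)).1,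
      (hd_eq_zero (U' := KS M' k A 0) (key 1)).1, sub_self]⟩

/-- a surjective chain map with acyclic kernel. -/
theorem th_quasi {V : Type} [AddCommGroup V] [Module k V] {d : V →ₗ[k] V}
    {U : ZMod 2 → Submodule k V} (h : ∀ x : M, (∑ s ∈ A, a s * c s) • x = 0)
    (hC : IsCx (Equiv.addRight 1) d U) (π : (Finset σ → M) →ₗ[k] V)
    (h1 : ∀ i, ∀ y ∈ KS M k A i, π y ∈ U i) (h2 : ∀ i, ∀ z ∈ U i, ∃ y ∈ KS M k A i, π y = z)
    (h3 : ∀ y, π (kd M A a c y) = d (π y))
    (h4 : ∀ i, ∀ x ∈ KS M k A i, π x = 0 → kd M A a c x = 0 →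
      ∃ y ∈ KS M k A (i + 1), π y = 0 ∧ kd M A a c y = x)
    (hf : ∀ i, FiniteDimensional k (Hm d (U (i + 1)) (U i))) :
    ThFin M k A a c ∧ theta M k A a c = hd d (U 1) (U 0) - hd d (U 0) (U 1) := by
  have key : ∀ i, ∀ x ∈ KS M k A i ⊓ LinearMap.ker π, (kd M A a c).restrictScalars k x = 0 →
      ∃ y ∈ KS M k A (i + 1) ⊓ LinearMap.ker π, (kd M A a c).restrictScalars k y = x :=
    fun i x hx h0 => by
      obtain ⟨y, a1, a2, a3⟩ := h4 i x hx.1 hx.2 h0
      exact ⟨y, ⟨a1, a2⟩, a3⟩
  have := th_add (dA := (kd M A a c).restrictScalars k) (f := LinearMap.id) (g := π)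
    (UA := fun i => KS M k A i ⊓ LinearMap.ker π)
    ⟨fun _ x hx => ⟨ks_kd hx.1, (h3 x).trans (by rw [show π x = 0 from hx.2, map_zero])⟩,
      fun _ x _ => kd_kd h x⟩ (ks_cx h) hC
    ⟨fun _ _ hx => hx.1, h1, fun _ _ _ hx => hx, fun _ y hy => ⟨fun h0 => ⟨y, ⟨hy, h0⟩, rfl⟩,
      fun ⟨x, hx, e⟩ => e ▸ hx.2⟩, h2, fun _ _ _ => rfl, fun _ y _ => h3 y⟩
    (fun i => (hd_eq_zero (key i)).2) hf
  rwa [(hd_eq_zero (U' := KS M k A 1 ⊓ LinearMap.ker π) (key 0)).1,
    (hd_eq_zero (U' := KS M k A 0 ⊓ LinearMap.ker π) (key 1)).1, sub_self, zero_add] at this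

theorem kz_a (h : ∀ x : M, (∑ s ∈ A, a s * c s) • x = 0) {s : σ} (hs : s ∈ A)
    (hi : ∀ x : M, a s • x = 0 → x = 0) (g : M →ₗ[E] M') (hg : Surjective g)
    (hk : ∀ x, g x = 0 ↔ ∃ y, x = a s • y) (h1 : ThFin M' k (A.erase s) a c) :
    ThFin M k A a c ∧ theta M k A a c = theta M' k (A.erase s) a c := by
  have ha : ∀ v : Finset σ → M', a s • v = 0 := fun v => funext fun I => th_kill g hg hk _
  have e1 := fun v => eq_sub_of_add_eq' ((kd_ep (M := M) A a c s v).trans (if_pos hs))
  have e2 := fun v => eq_sub_of_add_eq' ((kd_io (M := M) A a c s v).trans (if_pos hs))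
  have e3 : ∀ v, ep E M s (io E M s (ep E M s v)) = ep E M s v := fun v => by
    have := io_ep (E := E) s s (ep E M s v)
    rwa [ep_sq, map_zero, zero_add, if_pos rfl] at this
  refine th_quasi (U := KS M' k (A.erase s)) h
    (ks_cx (th_erase h hs g hg fun x => by rw [mul_smul, th_kill g hg hk]))
    ((g.compLeft _ ∘ₗ io E M s ∘ₗ ep E M s).restrictScalars k)
    (fun i y hy => ks_map g (ks_io (E := E) s (ks_ep (E := E) hs hy))) (fun i z hz => ?_)
    (fun y => ?_) (fun i x hx h0 hd => ?_) h1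
  · obtain ⟨y, hy, rfl⟩ := ks_lift g hg hz
    refine ⟨y, ks_mono (erase_subset s A) hy, congrArg (g.compLeft _) ?_⟩
    simpa [ks_io_zero hy] using io_ep (E := E) s s y
  · change g.compLeft _ (io E M s (ep E M s (kd M A a c y))) =
      kd M' (A.erase s) a c (g.compLeft _ (io E M s (ep E M s y)))
    rw [← cl_kd, e1, map_sub, e2, kd_erase hs (io E M s _), e3, map_smul, map_sub, map_smul, ha,
      io_sq]
    simp
  · obtain ⟨y, hy, e⟩ := ks_div hi g hk (ks_io (E := E) s (ks_ep (E := E) hs hx)) h0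
    refine ⟨ep E M s y, ks_ep hs (ks_mono (erase_subset s A) hy), ?_, ?_⟩
    · simp [ep_sq]
    · have e4 : ep E M s (kd M A a c (ep E M s y) - x) = 0 := by
        rw [map_sub, e1, ep_sq, map_zero, sub_zero, ← map_smul, ← e, e3, sub_self]
      have e5 := e1 (kd M A a c (ep E M s y) - x)
      rw [e4, map_sub, kd_kd h, hd, sub_self, map_zero, map_zero, sub_zero] at e5
      exact funext fun I => sub_eq_zero.1 (hi _ (congrFun e5.symm I))

theorem kz_c (h : ∀ x : M, (∑ s ∈ A, a s * c s) • x = 0) {s : σ} (hs : s ∈ A)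
    (hi : ∀ x : M, c s • x = 0 → x = 0) (g : M →ₗ[E] M') (hg : Surjective g)
    (hk : ∀ x, g x = 0 ↔ ∃ y, x = c s • y) (h1 : ThFin M' k (A.erase s) a c) :
    ThFin M k A a c ∧ theta M k A a c = -theta M' k (A.erase s) a c := by
  have ha : ∀ v : Finset σ → M', c s • v = 0 := fun v => funext fun I => th_kill g hg hk _
  have e2 := fun v => eq_sub_of_add_eq' ((kd_io (M := M) A a c s v).trans (if_pos hs))
  have h' := th_erase h hs g hg fun x => by rw [mul_comm, mul_smul, th_kill g hg hk]
  have hC : IsCx (Equiv.addRight (1 : ZMod 2)) (-(kd M' (A.erase s) a c).restrictScalars k)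
      fun i => KS M' k (A.erase s) (i + 1) :=
    ⟨fun _ _ hx => neg_mem (ks_kd hx), fun _ x _ => by simpa using kd_kd h' x⟩
  have r := th_congr (f := LinearMap.id) (UB := fun i => KS M' k (A.erase s) (i + 1))
    (dB := (kd M' (A.erase s) a c).restrictScalars k) hC
    (fun i => Set.bijOn_id (KS M' k (A.erase s) (i + 1) : Set (Finset σ → M'))) (-1) (by simp)
  have := th_quasi h hC ((g.compLeft _ ∘ₗ io E M s).restrictScalars k)
    (fun i y hy => ks_map g (ks_io s (by rw [th_two]; exact hy))) (fun i z hz => ?_) (fun y => ?_)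
    (fun i x hx h0 hd => ?_) fun i => (r.2 i).2 (h1 (i + 1))
  · refine ⟨this.1, (this.2.trans r.1).trans ?_⟩
    rw [theta, neg_sub, th_one, zero_add]
  · obtain ⟨y, hy, rfl⟩ := ks_lift g hg hz
    have := ks_ep (E := E) hs (ks_mono (erase_subset s A) hy)
    rw [th_two] at this
    refine ⟨_, this, congrArg (g.compLeft _) ?_⟩
    simpa [ks_io_zero hy] using io_ep (E := E) s s y
  · change g.compLeft _ (io E M s (kd M A a c y)) =
      -kd M' (A.erase s) a c (g.compLeft _ (io E M s y))
    rw [← cl_kd, e2, kd_erase hs (io E M s _), io_sq]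
    simp [ha]
  · obtain ⟨y, hy, e⟩ := ks_div (e := i + 1) hi g hk (ks_io s (by rw [th_two]; exact hx)) h0
    refine ⟨y, ks_mono (erase_subset s A) hy, by simp [ks_io_zero hy], ?_⟩
    have e4 : io E M s (kd M A a c y - x) = 0 := by
      rw [map_sub, e2, ks_io_zero hy, map_zero, sub_zero, e, sub_self]
    have e5 := e2 (kd M A a c y - x)
    rw [e4, map_sub, kd_kd h, hd, sub_self, map_zero, map_zero, sub_zero] at e5
    exact funext fun I => sub_eq_zero.1 (hi _ (congrFun e5.symm I))

theorem theta_empty : theta M k ∅ a c = Module.finrank k M ∧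
    (FiniteDimensional k M → ThFin M k ∅ a c) := by
  have hi : ∀ e, Injective ((LinearMap.proj ∅ : _ →ₗ[k] M) ∘ₗ (KS M k (∅ : Finset σ) e).subtype) :=
    fun e => (injective_iff_map_eq_zero _).2 fun v hv => Subtype.ext (funext fun I => by
      by_cases hI : I = ∅
      · exact hI ▸ hv
      · exact v.2 I fun h => hI (subset_empty.1 h.1))
  have h0 : (kd M ∅ a c).restrictScalars k = 0 := by rw [kd, sum_empty]; rfl
  refine ⟨?_, fun _ e => ?_⟩
  · rw [theta, (hd_eq_zero (U := KS M k ∅ 1) fun x hx _ => ⟨0, zero_mem _, ?_⟩).1, sub_zero, hd, h0,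
      ← (Submodule.equivMapOfInjective _ ?_ _).finrank_eq, LinearMap.ker_zero, inf_top_eq,
      (LinearEquiv.ofBijective _ ⟨hi 0, fun x => ⟨⟨Pi.single ∅ x, fun I hI => ?_⟩, ?_⟩⟩).finrank_eq]
    · exact Pi.single_eq_of_ne (by rintro rfl; simp at hI) _
    · simp
    · rw [← LinearMap.ker_eq_bot, Submodule.ker_mkQ, Submodule.map_zero]
    · refine (map_zero _).trans (funext fun I => (hx I fun h => ?_).symm)
      have := h.2
      simp [subset_empty.1 h.1] at this
  · have := Module.Finite.of_injective _ (hi e)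
    exact Hm_fin _ _

theorem theta_congr {E' N : Type} [CommRing E'] [Algebra k E'] [AddCommGroup N] [Module E' N]
    [Module k N] [IsScalarTower k E' N] {a' c' : σ → E'}
    (h : ∀ x : M, (∑ s ∈ A, a s * c s) • x = 0) (φ : M ≃ₗ[k] N) (u : σ → kˣ)
    (ha : ∀ s ∈ A, ∀ x, φ (a s • x) = u s • a' s • φ x)
    (hc : ∀ s ∈ A, ∀ x, φ (c s • x) = (u s)⁻¹ • c' s • φ x) :
    theta M k A a c = theta N k A a' c' ∧ (ThFin M k A a c ↔ ThFin N k A a' c') := by
  let f : (Finset σ → M) →ₗ[k] Finset σ → N := LinearMap.pi fun I =>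
    (∏ s ∈ I, u s) • φ.toLinearMap ∘ₗ LinearMap.proj I
  have hf : ∀ v I, f v I = (∏ s ∈ I, u s) • φ (v I) := fun _ _ => rfl
  have hb : ∀ i, Set.BijOn f (KS M k A i) (KS N k A i) := fun i =>
    ⟨fun v hv I hI => by rw [hf, hv I hI, map_zero, smul_zero], fun v _ w _ e => funext fun I =>
      φ.injective (MulAction.injective (∏ s ∈ I, u s) (congrFun e I)), fun w hw =>
      ⟨fun I => φ.symm ((∏ s ∈ I, u s)⁻¹ • w I), fun I hI => by
        simp only [hw I hI, smul_zero, map_zero], funext fun I => by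
          rw [hf, φ.apply_symm_apply, smul_inv_smul]⟩⟩
  have hs : ∀ (r : kˣ) (b : E') (x : N), b • r • x = r • b • x := fun r b x => smul_comm b (r : k) x
  have hz : ∀ (r : kˣ) (b : ℤ) (x : N), b • r • x = r • b • x := fun r b x => smul_comm b (r : k) x
  have hd' : ∀ i, ∀ x ∈ KS M k A i, f ((kd M A a c).restrictScalars k x) =
      (1 : kˣ) • (kd N A a' c').restrictScalars k (f x) := fun i x _ => by
    rw [one_smul, LinearMap.restrictScalars_apply, LinearMap.restrictScalars_apply, kd_apply,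
      kd_apply, map_sum]
    refine sum_congr rfl fun s hs' => funext fun I => ?_
    change (∏ s ∈ I, u s) • φ (a s • (if s ∈ I then 0 else sg s I • x (insert s I)) +
      c s • (if s ∈ I then sg s I • x (I.erase s) else 0)) =
      a' s • (if s ∈ I then 0 else sg s I • f x (insert s I)) +
      c' s • (if s ∈ I then sg s I • f x (I.erase s) else 0)
    split_ifs with hI
    · rw [smul_zero, smul_zero, zero_add, zero_add, hc s hs', hf, hz, hs, map_zsmul, smul_smul,
        ← prod_erase_mul _ _ hI, mul_inv_cancel_right]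
    · rw [smul_zero, smul_zero, add_zero, add_zero, ha s hs', hf, hz, hs, map_zsmul, smul_smul,
        prod_insert hI, mul_comm]
  have r := th_congr (ks_cx h) hb 1 hd'
  exact ⟨r.1, forall_congr' r.2⟩

theorem theta_emb {σ' : Type} [LinearOrder σ'] (e : σ' ↪o σ) (A' : Finset σ')
    (h : ∀ x : M, (∑ s ∈ A', a (e s) * c (e s)) • x = 0) :
    theta M k (A'.map e.toEmbedding) a c = theta M k A' (fun s => a (e s)) fun s => c (e s) := by
  let f : (Finset σ → M) →ₗ[k] Finset σ' → M := LinearMap.funLeft k M (Finset.map e.toEmbedding)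
  have hf : ∀ v I, f v I = v (I.map e.toEmbedding) := fun _ _ => rfl
  have hb : ∀ i, Set.BijOn f (KS M k (A'.map e.toEmbedding) i) (KS M k A' i) := fun i =>
    ⟨fun v hv I hI => hv _ (by rwa [map_subset_map, card_map]), fun v hv w hw e' =>
      funext fun I => by
        by_cases hI : I ⊆ A'.map e.toEmbedding
        · obtain ⟨J, -, rfl⟩ := subset_map_iff.1 hI
          exact congrFun e' J
        · rw [hv I fun h => hI h.1, hw I fun h => hI h.1], fun w hw =>
      ⟨extend (Finset.map e.toEmbedding) w 0, fun I hI => by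
        by_cases h' : ∃ J, Finset.map e.toEmbedding J = I
        · obtain ⟨J, rfl⟩ := h'
          rw [(map_injective _).extend_apply]
          exact hw J (by rwa [map_subset_map, card_map] at hI)
        · exact extend_apply' _ _ _ h', funext fun I => (map_injective _).extend_apply _ _ _⟩⟩
  have hd' : ∀ i, ∀ x ∈ KS M k (A'.map e.toEmbedding) i,
      f ((kd M (A'.map e.toEmbedding) a c).restrictScalars k x) = (1 : kˣ) •
        (kd M A' (fun s => a (e s)) fun s => c (e s)).restrictScalars k (f x) := fun i x _ => by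
    rw [one_smul, LinearMap.restrictScalars_apply, LinearMap.restrictScalars_apply, kd_apply,
      kd_apply, sum_map, map_sum]
    refine sum_congr rfl fun s _ => funext fun I => ?_
    have e1 : sg (e.toEmbedding s) (I.map e.toEmbedding) = sg s I := by
      rw [sg, sg, filter_map, card_map]
      simp
    change a (e s) • (if e.toEmbedding s ∈ I.map e.toEmbedding then 0 else
        sg (e.toEmbedding s) _ • x (insert (e.toEmbedding s) (I.map e.toEmbedding))) +
      c (e s) • (if e.toEmbedding s ∈ I.map e.toEmbedding then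
        sg (e.toEmbedding s) _ • x ((I.map e.toEmbedding).erase (e.toEmbedding s)) else 0) =
      a (e s) • (if s ∈ I then 0 else sg s I • f x (insert s I)) +
      c (e s) • (if s ∈ I then sg s I • f x (I.erase s) else 0)
    simp only [e1, hf, map_insert, map_erase, mem_map']
  exact (th_congr (ks_cx (by rwa [sum_map])) hb 1 hd').1

end Pool.Agent.Lib.MP_40dc3c_ag.P
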