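import Pool.Agent.Lib.MP_40dc3c_ag.P.Hv
import Pool.Agent.Lib.MP_40dc3c_ag.P.Reg
import Pool.Agent.Lib.MP_40dc3c_ag.P.Th

/-! The folded complex of the blocks in `T`. -/

namespace Pool.Agent.Lib.MP_40dc3c_ag.P

open MvPolynomial Finset Function T

variable {k : Type} [Field k] {σ τ : Type} {b : σ → τ} {T : Finset τ}

theorem mf_blk : (⨆ t ∉ T, blkI k b t) = Ideal.span {f | ∃ s, b s ∉ T ∧ f = X s} := by
  refine le_antisymm (iSup₂_le fun t ht => Ideal.span_mono ?_) (Ideal.span_le.2 ?_)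
  · rintro _ ⟨s, rfl, rfl⟩
    exact ⟨s, ht, rfl⟩
  · rintro _ ⟨s, hs, rfl⟩
    exact le_iSup₂ (f := fun t (_ : t ∉ T) => blkI k b t) (b s) hs (Ideal.subset_span ⟨s, rfl, rfl⟩)

theorem mf_X {s : σ} (hs : b s ∉ T) : X s ∈ ⨆ t ∉ T, blkI k b t :=
  mf_blk.ge (Ideal.subset_span ⟨s, hs, rfl⟩)

theorem mf_hg {P : Ideal (MvPolynomial {s // b s ∈ T} k)} (hP : Hg (bT b T) P) :
    Hg b (P.map (rename Subtype.val) ⊔ ⨆ t ∉ T, blkI k b t) := by
  refine (hP.rename Subtype.val Subtype.val fun _ => rfl).sup ?_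
  rw [mf_blk]
  refine hg_span ?_
  rintro _ ⟨s, -, rfl⟩
  exact ⟨_, isWeightedHomogeneous_X k _ s⟩

theorem mf_fer [Fintype σ] [Fintype {s // b s ∈ T}] (m : ℕ) (t : {t // t ∈ T}) :
    rename Subtype.val (fer k (bT b T) m t) = fer k b m t.1 := by
  classical
  rw [fer, fer, map_sum]
  refine sum_bij (fun s _ => s.1) (fun s hs => ?_) (fun _ _ _ _ h => Subtype.ext h)
    (fun s hs => ?_) fun s _ => by rw [map_pow, rename_X]
  · simp only [mem_filter, mem_univ, true_and] at hs ⊢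
    exact congrArg Subtype.val hs
  · simp only [mem_filter, mem_univ, true_and] at hs ⊢
    exact ⟨⟨s, hs ▸ t.2⟩, Subtype.ext hs, rfl⟩

/-- a graded piece vanishes if the ideal contains the variables of a block of nonzero degree. -/
theorem mf_bot {ρ : Type} {β : ρ → τ} {I : Ideal (MvPolynomial ρ k)} {t : τ}
    (h : ∀ y, β y = t → X y ∈ I) {a : τ → ℤ} (ha : a t ≠ 0) : qpc β I a = ⊥ := by
  classical
  refine (Submodule.eq_bot_iff _).2 ?_
  rintro _ ⟨f, hf, rfl⟩
  refine Ideal.Quotient.eq_zero_iff_mem.2 ?_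
  rw [f.as_sum]
  refine sum_mem fun d hd => ?_
  rw [← hf (mem_support_iff.1 hd), Finsupp.weight_apply, Finsupp.sum, Finset.sum_apply] at ha
  obtain ⟨y, hy, h1⟩ := exists_ne_zero_of_sum_ne_zero ha
  have h2 : β y = t := by
    by_contra e
    exact h1 (by simp [wt, Ne.symm e])
  exact Ideal.mem_of_dvd _ (X_dvd_monomial.2 (.inr (Finsupp.mem_support_iff.1 hy))) (h y h2)

theorem mf_le (P P' : Ideal (MvPolynomial {s // b s ∈ T} k)) (K : Ideal (MvPolynomial σ k)) :
    two P P' ≤ (two (P.map (rename Subtype.val) ⊔ K) (P'.map (rename Subtype.val) ⊔ K)).comap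
      (rename (R := k) (Sum.map Subtype.val Subtype.val)) := by
  refine sup_le (Ideal.map_le_iff_le_comap.2 fun f hf => ?_)
    (Ideal.map_le_iff_le_comap.2 fun f hf => ?_) <;>
    rw [Ideal.mem_comap, Ideal.mem_comap, rename_rename]
  · rw [show Sum.map Subtype.val Subtype.val ∘ Sum.inl = Sum.inl ∘ Subtype.val from rfl,
      ← rename_rename]
    exact Ideal.mem_sup_left (Ideal.mem_map_of_mem _ (Ideal.mem_sup_left
      (Ideal.mem_map_of_mem _ hf)))
  · rw [show Sum.map Subtype.val Subtype.val ∘ Sum.inr = Sum.inr ∘ Subtype.val from rfl,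
      ← rename_rename]
    exact Ideal.mem_sup_right (Ideal.mem_map_of_mem _ (Ideal.mem_sup_left
      (Ideal.mem_map_of_mem _ hf)))

theorem mf_two (V W : Ideal (MvPolynomial σ k)) {y : σ ⊕ σ} (hy : Sum.elim b b y ∉ T) :
    X y ∈ two (V ⊔ ⨆ t ∉ T, blkI k b t) (W ⊔ ⨆ t ∉ T, blkI k b t) := by
  rcases y with s | s
  · exact Ideal.mem_sup_left (rename_X (R := k) Sum.inl s ▸
      Ideal.mem_map_of_mem (rename Sum.inl) (Ideal.mem_sup_right (mf_X hy)))
  · exact Ideal.mem_sup_right (rename_X (R := k) Sum.inr s ▸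
      Ideal.mem_map_of_mem (rename Sum.inr) (Ideal.mem_sup_right (mf_X hy)))

theorem mf_bij (P P' : Ideal (MvPolynomial {s // b s ∈ T} k)) :
    Bijective (Ideal.quotientMapₐ _ _ (mf_le P P' (⨆ t ∉ T, blkI k b t))) := by
  classical
  let π₀ : MvPolynomial σ k →ₐ[k] MvPolynomial {s // b s ∈ T} k :=
    aeval fun s => if h : b s ∈ T then X ⟨s, h⟩ else 0
  let π : MvPolynomial (σ ⊕ σ) k →ₐ[k] MvPolynomial ({s // b s ∈ T} ⊕ {s // b s ∈ T}) k :=
    aeval (Sum.elim (fun s => rename Sum.inl (π₀ (X s))) fun s => rename Sum.inr (π₀ (X s)))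
  have e0 : π₀.comp (rename Subtype.val) = AlgHom.id k _ := algHom_ext fun s => by simp [π₀, s.2]
  have el : π.comp (rename Sum.inl) = (rename Sum.inl).comp π₀ := algHom_ext fun s => by simp [π]
  have er : π.comp (rename Sum.inr) = (rename Sum.inr).comp π₀ := algHom_ext fun s => by simp [π]
  have e1 : π.comp (rename (Sum.map Subtype.val Subtype.val)) = AlgHom.id k _ :=
    algHom_ext fun s => by rcases s with s | s <;> simp [π, π₀, s.2]
  have h0 : ∀ Q : Ideal (MvPolynomial {s // b s ∈ T} k),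
      (Q.map (rename Subtype.val) ⊔ ⨆ t ∉ T, blkI k b t).map π₀ ≤ Q := fun Q => by
    rw [Ideal.map_sup, map_algHom_comp, e0, mf_blk, Ideal.map_span]
    refine sup_le (Ideal.map_le_iff_le_comap.2 fun f hf => hf) (Ideal.span_le.2 ?_)
    rintro _ ⟨_, ⟨s, hs, rfl⟩, rfl⟩
    simp [π₀, hs]
  have h1 : (two (P.map (rename Subtype.val) ⊔ ⨆ t ∉ T, blkI k b t)
      (P'.map (rename Subtype.val) ⊔ ⨆ t ∉ T, blkI k b t)).map π ≤ two P P' := by
    rw [two, Ideal.map_sup, map_algHom_comp, map_algHom_comp, el, er, ← map_algHom_comp,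
      ← map_algHom_comp]
    exact sup_le_sup (Ideal.map_mono (h0 P)) (Ideal.map_mono (h0 P'))
  refine ⟨(injective_iff_map_eq_zero _).2 fun x hx => ?_, fun x => ?_⟩
  · obtain ⟨f, rfl⟩ := Ideal.Quotient.mk_surjective x
    have := h1 (Ideal.mem_map_of_mem π (Ideal.Quotient.eq_zero_iff_mem.1 hx))
    exact Ideal.Quotient.eq_zero_iff_mem.2 (DFunLike.congr_fun e1 f ▸ this :)
  · obtain ⟨f, rfl⟩ := Ideal.Quotient.mk_surjective x
    refine ⟨Ideal.Quotient.mk _ (π f), DFunLike.congr_fun (algHom_ext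
      (f := (Ideal.Quotient.mkₐ k _).comp ((rename (Sum.map Subtype.val Subtype.val)).comp π))
      (g := Ideal.Quotient.mkₐ k _) fun y => ?_) f⟩
    rcases y with s | s <;> by_cases hs : b s ∈ T
    · simp [π, π₀, hs]
    · simpa [π, π₀, hs] using (Ideal.Quotient.eq_zero_iff_mem.2 (mf_two _ _ (y := .inl s) hs)).symm
    · simp [π, π₀, hs]
    · simpa [π, π₀, hs] using (Ideal.Quotient.eq_zero_iff_mem.2 (mf_two _ _ (y := .inr s) hs)).symm

variable [LinearOrder σ] [Fintype σ] [Fintype τ] [DecidableEq τ] {m : ℕ} (hm : (m : k) ≠ 0)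

/-- the sum over a period is the invariant of the blocks in `T`. -/
theorem fold_T {P P' : Ideal (MvPolynomial {s // b s ∈ T} k)} (hP : Hg (bT b T) P)
    (hP' : Hg (bT b T) P') (h1 : FI k (bT b T) m ≤ P) (h2 : FI k (bT b T) m ≤ P') (j₀ : τ → ℤ)
    (hj : ∀ t, t ∉ T → j₀ t = 0) :
    ∑ r ∈ Fintype.piFinset fun t => if t ∈ T then range m else {0},
      chI b m hm (two (P.map (rename Subtype.val) ⊔ ⨆ t ∉ T, blkI k b t)
        (P'.map (rename Subtype.val) ⊔ ⨆ t ∉ T, blkI k b t)) (AT b T) (eT T .all)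
        (j₀ + fun t => (r t : ℤ)) = thI m univ (two P P') := by
  refine (V4 (D := ferD k b m hm) (qpc_gm (two_hg (mf_hg hP) (mf_hg hP')).1) (fun t => ?_)
    (fun a t ht ha => mf_bot (fun y hy => ?_) ha) j₀ hj).trans ?_
  · by_cases ht : t ∈ T
    · refine .inr ⟨fun s hs => by simpa [AT, hs] using ht, Module.mem_annihilator.1 ?_⟩
      rw [Ideal.annihilator_quotient, ferD_h, ← mf_fer m ⟨t, ht⟩]
      exact sub_mem (Ideal.mem_sup_left (Ideal.mem_map_of_mem _ (Ideal.mem_sup_left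
        (Ideal.mem_map_of_mem _ (h1 (Ideal.subset_span ⟨_, rfl⟩))))))
        (Ideal.mem_sup_right (Ideal.mem_map_of_mem _ (Ideal.mem_sup_left
          (Ideal.mem_map_of_mem _ (h2 (Ideal.subset_span ⟨_, rfl⟩))))))
    · exact .inl (if_neg ht)
  · exact mf_two _ _ fun e => ht (hy ▸ e)
  have ea : ∀ s : {s // b s ∈ T},
      rename (Sum.map Subtype.val Subtype.val) (fa k s) = fa k s.1 := fun s => by simp [fa]
  have ec : ∀ s : {s // b s ∈ T},
      rename (Sum.map Subtype.val Subtype.val) (fc k m s) = fc k m s.1 := fun s => by simp [fc]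
  have hA : AT b T = univ.map (OrderEmbedding.subtype fun s => b s ∈ T).toEmbedding := by
    ext s
    simp [AT]
  let φ := AlgEquiv.ofBijective _ (mf_bij P P')
  have es : ∀ f x, φ (f • x) = rename (Sum.map Subtype.val Subtype.val) f • φ x := fun f x => by
    obtain ⟨y, rfl⟩ := Ideal.Quotient.mk_surjective x
    exact congrArg (Ideal.Quotient.mk _) (map_mul (rename (Sum.map Subtype.val Subtype.val)) f y)
  refine (congrArg (theta _ k · (fa k) (fc k m)) hA).trans ((theta_emb _ _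
    (Module.mem_annihilator.1 ?_)).trans (theta_congr (Module.mem_annihilator.1 ?_)
      φ.toLinearEquiv 1 (fun s _ x => (es _ x).trans ?_) fun s _ x => (es _ x).trans ?_).1.symm)
  · have := mf_le P P' (⨆ t ∉ T, blkI k b t) (hF_mem h1 h2)
    rw [Ideal.mem_comap, hF, map_sum] at this
    simp only [map_mul, ea, ec] at this
    rwa [Ideal.annihilator_quotient]
  · rw [Ideal.annihilator_quotient]
    exact hF_mem h1 h2
  · rw [ea, Pi.one_apply, one_smul]
    rfl
  · rw [ec, Pi.one_apply, inv_one, one_smul]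
    rfl

end Pool.Agent.Lib.MP_40dc3c_ag.P
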