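import Pool.Agent.Lib.MP_40dc3c_ag.P.Reg
import Pool.Agent.Lib.MP_40dc3c_ag.P.MDefs

/-! Ideals of products of linear sections. -/

namespace Pool.Agent.Lib.MP_40dc3c_ag.P

open MvPolynomial Finset Function T

variable {k : Type} [Field k] {σ τ ρ ρ' : Type}

theorem mx_span_unit {ι : Type} (φ : MvPolynomial ρ k →ₐ[k] MvPolynomial ρ' k) (p : ι → Prop)
    (F : ι → MvPolynomial ρ k) (F' : ι → MvPolynomial ρ' k)
    (h : ∀ i, ∃ u : kˣ, φ (F i) = C (u : k) * F' i) :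
    (Ideal.span {f | ∃ i, p i ∧ f = F i}).map φ = Ideal.span {f | ∃ i, p i ∧ f = F' i} := by
  refine le_antisymm (Ideal.map_le_iff_le_comap.2 (Ideal.span_le.2 ?_)) (Ideal.span_le.2 ?_)
  · rintro _ ⟨i, hi, rfl⟩
    obtain ⟨u, hu⟩ := h i
    rw [SetLike.mem_coe, Ideal.mem_comap, hu]
    exact Ideal.mul_mem_left _ _ (Ideal.subset_span ⟨i, hi, rfl⟩)
  · rintro _ ⟨i, hi, rfl⟩
    obtain ⟨u, hu⟩ := h i
    have e : F' i = C ((u⁻¹ : kˣ) : k) * φ (F i) := by
      rw [hu, ← mul_assoc, ← map_mul, Units.inv_mul, map_one, one_mul]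
    rw [SetLike.mem_coe, e]
    exact Ideal.mul_mem_left _ _ (Ideal.mem_map_of_mem _ (Ideal.subset_span ⟨i, hi, rfl⟩))

theorem mx_two_sup (V V' W W' : Ideal (MvPolynomial σ k)) :
    two (V ⊔ V') (W ⊔ W') = two V W ⊔ two V' W' := by
  simp only [two, Ideal.map_sup]
  exact sup_sup_sup_comm _ _ _ _

theorem mx_vars {β : ρ → τ} {g : MvPolynomial ρ k} {d : τ → ℤ}
    (h : g.IsWeightedHomogeneous (wt β) d) {t : τ} (hd : d t = 0) : ∀ y ∈ g.vars, β y ≠ t := by
  classical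
  intro y hy e
  obtain ⟨u, hu, hy'⟩ := (mem_vars_iff_mem_support y).1 hy
  have h1 := congrFun (h (mem_support_iff.1 hu)) t
  rw [hd, Finsupp.weight_apply, Finsupp.sum, Finset.sum_apply,
    sum_eq_zero_iff_of_nonneg fun z _ => ?_] at h1
  · have := h1 y hy'
    simp [wt, e] at this
    exact Finsupp.mem_support_iff.1 hy' this
  · refine nsmul_nonneg ?_ _
    simp only [wt, Pi.single_apply]
    split_ifs <;> simp

/-- the homogeneous elements of an ideal whose variables satisfy `q`. -/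
def mxS (β : ρ → τ) (q : ρ → Prop) (I : Ideal (MvPolynomial ρ k)) : Set (MvPolynomial ρ k) :=
  {g | g ∈ I ∧ (∃ d, g.IsWeightedHomogeneous (wt β) d) ∧ ∀ y ∈ g.vars, q y}

/-- the ideal is generated by such elements. -/
def MxOff (β : ρ → τ) (q : ρ → Prop) (I : Ideal (MvPolynomial ρ k)) : Prop :=
  I ≤ Ideal.span (mxS β q I)

theorem MxOff.eq {β : ρ → τ} {q : ρ → Prop} {I : Ideal (MvPolynomial ρ k)} (h : MxOff β q I) :
    Ideal.span (mxS β q I) = I := le_antisymm (Ideal.span_le.2 fun _ hg => hg.1) h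

theorem mxS_mono {β : ρ → τ} {q : ρ → Prop} {I J : Ideal (MvPolynomial ρ k)} (h : I ≤ J) :
    Ideal.span (mxS β q I) ≤ Ideal.span (mxS β q J) :=
  Ideal.span_mono fun _ hg => ⟨h hg.1, hg.2⟩

theorem MxOff.sup {β : ρ → τ} {q : ρ → Prop} {I J : Ideal (MvPolynomial ρ k)} (h : MxOff β q I)
    (h' : MxOff β q J) : MxOff β q (I ⊔ J) :=
  sup_le (le_trans h (mxS_mono le_sup_left)) (le_trans h' (mxS_mono le_sup_right))

theorem MxOff.iSup {β : ρ → τ} {q : ρ → Prop} {ι : Sort*} {I : ι → Ideal (MvPolynomial ρ k)}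
    (h : ∀ i, MxOff β q (I i)) : MxOff β q (⨆ i, I i) :=
  iSup_le fun i => le_trans (h i) (mxS_mono (le_iSup I i))

theorem mx_off_span {β : ρ → τ} {q : ρ → Prop} {G : Set (MvPolynomial ρ k)}
    (h : ∀ g ∈ G, (∃ d, g.IsWeightedHomogeneous (wt β) d) ∧ ∀ y ∈ g.vars, q y) :
    MxOff β q (Ideal.span G) := Ideal.span_mono fun g hg => ⟨Ideal.subset_span hg, h g hg⟩

theorem Hg.mxoff {β : ρ → τ} {I : Ideal (MvPolynomial ρ k)} (h : Hg β I) :
    MxOff β (fun _ => True) I := by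
  obtain ⟨G, hG, rfl⟩ := h.exists_span
  exact mx_off_span fun g hg => ⟨hG g hg, fun _ _ => trivial⟩

theorem MxOff.hg {β : ρ → τ} {q : ρ → Prop} {I : Ideal (MvPolynomial ρ k)} (h : MxOff β q I) :
    Hg β I := h.eq ▸ hg_span fun _ hg => hg.2.1

theorem MxOff.rename {τ' : Type} {β : ρ → τ} {β' : ρ' → τ'} {q : ρ → Prop} {q' : ρ' → Prop}
    {I : Ideal (MvPolynomial ρ k)} (h : MxOff β q I) (r : ρ → ρ') (r' : τ → τ')
    (hr : ∀ s, β' (r s) = r' (β s)) (hq : ∀ s, q s → q' (r s)) :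
    MxOff β' q' (I.map (rename r)) := by
  classical
  rw [← h.eq, Ideal.map_span]
  refine mx_off_span ?_
  rintro _ ⟨g, ⟨-, ⟨d, hd⟩, h3⟩, rfl⟩
  refine ⟨hom_rename r r' hr g d hd, fun y hy => ?_⟩
  obtain ⟨x, hx, rfl⟩ := mem_image.1 (vars_rename r g hy)
  exact hq x (h3 x hx)

theorem MxOff.two {b : σ → τ} {t : τ} {V W : Ideal (MvPolynomial σ k)}
    (h : MxOff b (fun s => b s ≠ t) V) (h' : MxOff b (fun s => b s ≠ t) W) :
    MxOff (Sum.elim b b) (fun y => Sum.elim b b y ≠ t) (two V W) :=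
  (h.rename Sum.inl id (fun _ => rfl) fun _ a => a).sup
    (h'.rename Sum.inr id (fun _ => rfl) fun _ a => a)

theorem mx_off_blkI (b : σ → τ) (t : τ) {q : σ → Prop} (h : ∀ s, b s = t → q s) :
    MxOff b q (blkI k b t) := by
  refine mx_off_span ?_
  rintro _ ⟨s, hs, rfl⟩
  exact ⟨⟨_, isWeightedHomogeneous_X k _ s⟩, fun y hy => by
    rw [vars_X, mem_singleton] at hy
    exact hy ▸ h s hs⟩

theorem mx_blkI_map (b : σ → τ) (m : ℕ) (t : τ) (g : σ → rootsOfUnity m k) :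
    (blkI k b t).map (diagAct σ m g) = blkI k b t :=
  mx_span_unit _ _ _ _ fun s => ⟨(g s).1, diagAct_X _ _ _ _⟩

variable [Fintype σ] {b : σ → τ} {m : ℕ} {T : Finset τ}

theorem mx_blk {s : σ} {t : τ} : s ∈ blk b t ↔ b s = t := by simp [blk]

theorem mx_fer_blkI (h0 : m ≠ 0) (t : τ) : fer k b m t ∈ blkI k b t :=
  sum_mem fun s hs => Ideal.pow_mem_of_mem _
    (Ideal.subset_span (by exact ⟨s, by simpa using hs, rfl⟩)) _ (Nat.pos_of_ne_zero h0)

theorem mx_fer_rename [DecidableEq τ] {t : τ} (ht : t ∈ T) :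
    rename Subtype.val (fer k (bT b T) m ⟨t, ht⟩) = fer k b m t := by
  simp only [fer, map_sum, map_pow, rename_X]
  refine sum_bij (fun s _ => s.1) (fun s hs => ?_) (fun _ _ _ _ h => Subtype.ext h)
    (fun s hs => ?_) fun _ _ => rfl
  · simpa [bT] using hs
  · have : b s = t := by simpa using hs
    exact ⟨⟨s, this ▸ ht⟩, by simpa [bT] using this, rfl⟩

theorem mx_fer_map [DecidableEq τ] {P : Ideal (MvPolynomial {s // b s ∈ T} k)}
    (h1 : FI k (bT b T) m ≤ P) {t : τ} (ht : t ∈ T) : fer k b m t ∈ P.map (rename Subtype.val) :=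
  mx_fer_rename (k := k) (b := b) (m := m) ht ▸
    Ideal.mem_map_of_mem _ (h1 (Ideal.subset_span (Set.mem_range_self _)))

theorem Sec.mx_hom (D : Sec b T) (m : ℕ) (e : τ → k) (t : τ) :
    ∃ n : ℕ, (D.φ m e t).IsWeightedHomogeneous (wt b) (n • et t) := by
  have key : ∀ s ∈ D.R t, (X s : MvPolynomial σ k).IsWeightedHomogeneous (wt b) (et t) := by
    intro s hs
    rw [← mx_blk.1 (D.sub t hs)]
    exact isWeightedHomogeneous_X k (wt b) s
  unfold Sec.φ
  split_ifs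
  · refine ⟨1, ?_⟩
    rw [one_smul]
    exact (weightedHomogeneousSubmodule k _ _).sub_mem (key _ (D.hy t)) ((key _ (D.hw t)).C_mul _)
  · exact ⟨m, IsWeightedHomogeneous.sum _ _ _ fun s hs => (key s hs).pow m⟩

theorem Sec.mx_off (D : Sec b T) (m : ℕ) (e : τ → k) {t t' : τ} (h : t' ≠ t) :
    MxOff b (fun s => b s ≠ t) (D.B m e t') := by
  refine MxOff.sup (mx_off_span ?_) (mx_off_span ?_)
  · rintro _ ⟨s, hs, -, rfl⟩
    exact ⟨⟨_, isWeightedHomogeneous_X k _ s⟩, fun y hy => by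
      rw [vars_X, mem_singleton] at hy
      rwa [hy, hs]⟩
  · rintro _ rfl
    obtain ⟨n, hn⟩ := D.mx_hom m e t'
    exact ⟨⟨_, hn⟩, mx_vars hn (by simp [wt, h])⟩

theorem Sec.mx_fer (D : Sec b T) (h0 : m ≠ 0) {e : τ → k} {t : τ} (he : e t ^ m = -1) :
    fer k b m t ∈ D.B m e t := by
  classical
  have e1 : fer k b m t = ∑ s ∈ blk b t \ D.R t, X s ^ m + ∑ s ∈ D.R t, X s ^ m := by
    rw [sum_sdiff (D.sub t), fer, blk]
  rw [e1]
  refine Submodule.add_mem_sup (sum_mem fun s hs => ?_) (Ideal.mem_span_singleton.2 ?_)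
  · exact Ideal.pow_mem_of_mem _ (Ideal.subset_span (by
      exact ⟨s, mx_blk.1 (mem_sdiff.1 hs).1, (mem_sdiff.1 hs).2, rfl⟩)) _ (Nat.pos_of_ne_zero h0)
  · unfold Sec.φ
    split_ifs with h
    · have e2 : D.R t = {D.y t, D.w t} := by
        refine (eq_of_subset_of_card_le ?_ ?_).symm
        · intro s hs
          rcases mem_insert.1 hs with rfl | hs
          · exact D.hy t
          · exact mem_singleton.1 hs ▸ D.hw t
        · rw [h, card_pair (D.ne t)]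
      rw [e2, sum_pair (D.ne t)]
      have := sub_dvd_pow_sub_pow (X (D.y t) : MvPolynomial σ k) (C (e t) * X (D.w t)) m
      rwa [mul_pow, ← map_pow, he, map_neg, map_one, neg_one_mul, sub_neg_eq_add] at this
    · exact dvd_rfl

theorem Sec.mx_eq (D : Sec b T) (m : ℕ) (e : τ → k) (P : Ideal (MvPolynomial {s // b s ∈ T} k)) :
    D.I m e P = P.map (rename Subtype.val) ⊔ ⨆ t ∉ T, D.B m e t := by
  rw [Sec.I, sup_assoc]
  congr 1
  refine le_antisymm (sup_le (Ideal.span_le.2 ?_) (Ideal.span_le.2 ?_))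
    (iSup₂_le fun t ht => sup_le_sup (Ideal.span_mono ?_) (Ideal.span_mono ?_))
  · rintro _ ⟨s, h1, h2, rfl⟩
    exact le_iSup₂ (f := fun t (_ : t ∉ T) => D.B m e t) (b s) h1
      (Ideal.mem_sup_left (Ideal.subset_span ⟨s, rfl, h2, rfl⟩))
  · rintro _ ⟨t, h1, rfl⟩
    exact le_iSup₂ (f := fun t (_ : t ∉ T) => D.B m e t) t h1
      (Ideal.mem_sup_right (Ideal.mem_span_singleton_self _))
  · rintro _ ⟨s, rfl, h2, rfl⟩
    exact ⟨s, ht, h2, rfl⟩
  · rintro _ rfl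
    exact ⟨t, ht, rfl⟩

theorem Sec.hg (D : Sec b T) (e : τ → k) {P : Ideal (MvPolynomial {s // b s ∈ T} k)}
    (hP : Hg (bT b T) P) : Hg b (D.I m e P) := by
  refine ((hP.rename Subtype.val Subtype.val fun _ => rfl).sup (hg_span ?_)).sup (hg_span ?_)
  · rintro _ ⟨s, -, -, rfl⟩
    exact ⟨_, isWeightedHomogeneous_X k _ s⟩
  · rintro _ ⟨t, -, rfl⟩
    obtain ⟨n, hn⟩ := D.mx_hom m e t
    exact ⟨_, hn⟩

theorem Sec.FI_le [DecidableEq τ] (D : Sec b T) (h0 : m ≠ 0) {e : τ → k} (he : ∀ t, e t ^ m = -1)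
    {P : Ideal (MvPolynomial {s // b s ∈ T} k)} (h1 : FI k (bT b T) m ≤ P) :
    FI k b m ≤ D.I m e P := by
  rw [Sec.mx_eq, Ideal.span_le]
  rintro _ ⟨t, rfl⟩
  by_cases ht : t ∈ T
  · exact Ideal.mem_sup_left (mx_fer_map h1 ht)
  · exact Ideal.mem_sup_right
      (le_iSup₂ (f := fun t (_ : t ∉ T) => D.B m e t) t ht (D.mx_fer h0 (he t)))

omit [Fintype σ] in
theorem mx_val_diag (P : Ideal (MvPolynomial {s // b s ∈ T} k)) (g : σ → rootsOfUnity m k) :
    (P.map (rename Subtype.val)).map (diagAct σ m g) =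
      (P.map (diagAct _ m fun s => g s.1)).map (rename Subtype.val) := by
  rw [map_algHom_comp, map_algHom_comp]
  congr 1
  ext1 s
  simp

theorem Sec.I_map (D : Sec b T) (e : τ → k) (P : Ideal (MvPolynomial {s // b s ∈ T} k))
    (g : σ → rootsOfUnity m k) : (D.I m e P).map (diagAct σ m g) =
      D.I m (fun t => e t * (((g (D.w t)).1 : kˣ) : k) * (((g (D.y t))⁻¹.1 : kˣ) : k))
        (P.map (diagAct _ m fun s => g s.1)) := by
  simp only [Sec.I, Ideal.map_sup, mx_val_diag, ← and_assoc]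
  congr 1
  · congr 1
    exact mx_span_unit _ _ _ _ fun s => ⟨(g s).1, diagAct_X _ _ _ _⟩
  · refine mx_span_unit _ _ _ _ fun t => ?_
    unfold Sec.φ
    split_ifs
    · refine ⟨(g (D.y t)).1, ?_⟩
      rw [map_sub, map_mul, diagAct_X, diagAct_X, mul_sub, ← mul_assoc, ← mul_assoc, ← map_mul,
        algHom_C, algebraMap_eq, ← map_mul]
      congr 3
      simp [mul_comm, mul_left_comm]
    · exact ⟨1, by simp only [map_sum, diagAct_X_pow, Units.val_one, map_one, one_mul]⟩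

end Pool.Agent.Lib.MP_40dc3c_ag.P
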