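import Pool.Agent.Lib.MP_40dc3c_ag.P.Ma
import Pool.Agent.Lib.MP_40dc3c_ag.P.Mb
import Pool.Agent.Lib.MP_40dc3c_ag.P.Mf
import Pool.Agent.Lib.MP_40dc3c_ag.P.He
import Pool.Agent.Lib.MP_40dc3c_ag.P.Mxa

/-! The averaged Euler characteristic of a mixed pair. -/

namespace Pool.Agent.Lib.MP_40dc3c_ag.P

open MvPolynomial Finset Function T

variable {k : Type} [Field k] {σ τ : Type} [LinearOrder σ] [Fintype σ] [Fintype τ] [DecidableEq τ]
  {b : σ → τ} {m : ℕ} (hm : (m : k) ≠ 0) {T : Finset τ}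

/-- a product of an ideal of the blocks in `T` with ideals of the other blocks. -/
noncomputable def mxI (P : Ideal (MvPolynomial {s // b s ∈ T} k))
    (F : τ → Ideal (MvPolynomial σ k)) : Ideal (MvPolynomial σ k) :=
  P.map (rename Subtype.val) ⊔ ⨆ t ∉ T, F t

omit [LinearOrder σ] [Fintype σ] [Fintype τ] in
theorem mxI_update (P : Ideal (MvPolynomial {s // b s ∈ T} k)) (F : τ → Ideal (MvPolynomial σ k))
    {t : τ} (ht : t ∉ T) (J : Ideal (MvPolynomial σ k)) :
    mxI P (update F t J) = mxI P (update F t ⊥) ⊔ J := by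
  rw [mxI, mxI, sup_assoc]
  congr 1
  refine le_antisymm (iSup₂_le fun t' h => ?_) (sup_le (iSup₂_le fun t' h => ?_) ?_)
  · by_cases e : t' = t
    · rw [e, update_self]
      exact le_sup_right
    · refine le_sup_of_le_left (le_iSup₂_of_le t' h ?_)
      rw [update_of_ne e, update_of_ne e]
  · by_cases e : t' = t
    · rw [e, update_self]
      exact bot_le
    · refine le_iSup₂_of_le t' h ?_
      rw [update_of_ne e, update_of_ne e]
  · refine le_iSup₂_of_le t ht ?_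
    rw [update_self]

/-- the equations of the blocks after the blocks in `Q` are treated. -/
noncomputable def Sec.mxF (D : Sec b T) (m : ℕ) (e : τ → k) (Q : Finset τ) (t : τ) :
    Ideal (MvPolynomial σ k) := if t ∈ Q then blkI k b t else D.B m e t

omit [LinearOrder σ] [Fintype τ] in
theorem Sec.mxF_off (D : Sec b T) (e : τ → k) (Q : Finset τ)
    {P : Ideal (MvPolynomial {s // b s ∈ T} k)} (hP : Hg (bT b T) P) {t : τ} (ht : t ∉ T) :
    MxOff b (fun s => b s ≠ t) (mxI P (update (D.mxF m e Q) t ⊥)) := by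
  refine (hP.mxoff.rename Subtype.val Subtype.val (fun _ => rfl)
    fun s _ (h : b s.1 = t) => ht (h ▸ s.2)).sup (MxOff.iSup fun t' => MxOff.iSup fun _ => ?_)
  by_cases h : t' = t
  · rw [h, update_self]
    exact bot_le
  · rw [update_of_ne h, Sec.mxF]
    split_ifs
    · exact mx_off_blkI b t' fun s hs => hs ▸ h
    · exact D.mx_off m e h

omit [LinearOrder σ] [Fintype τ] in
theorem Sec.mxF_fer (D : Sec b T) (h0 : m ≠ 0) {e : τ → k} (he : ∀ t, e t ^ m = -1) (Q : Finset τ)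
    {P : Ideal (MvPolynomial {s // b s ∈ T} k)} (h1 : FI k (bT b T) m ≤ P) {t t' : τ}
    (h : t' ≠ t) : fer k b m t' ∈ mxI P (update (D.mxF m e Q) t ⊥) := by
  by_cases ht : t' ∈ T
  · exact Ideal.mem_sup_left (mx_fer_map h1 ht)
  · refine Ideal.mem_sup_right
      (le_iSup₂ (f := fun t' (_ : t' ∉ T) => update (D.mxF m e Q) t ⊥ t') t' ht ?_)
    rw [update_of_ne h, Sec.mxF]
    split_ifs
    · exact mx_fer_blkI h0 t'
    · exact D.mx_fer h0 (he t')

omit [Fintype τ] [DecidableEq τ] in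
theorem mx_kill {V W : Ideal (MvPolynomial σ k)} {t : τ} (h1 : fer k b m t ∈ V)
    (h2 : fer k b m t ∈ W) {I : Ideal (MvPolynomial (σ ⊕ σ) k)} (hI : I = two V W)
    (x : MvPolynomial (σ ⊕ σ) k ⧸ I) : (ferD k b m hm).h t • x = 0 := by
  obtain ⟨y, rfl⟩ := Ideal.Quotient.mk_surjective x
  refine Ideal.Quotient.eq_zero_iff_mem.2 (Ideal.mul_mem_right y _ ?_)
  rw [ferD_h, hI]
  exact sub_mem (Ideal.mem_sup_left (Ideal.mem_map_of_mem _ h1))
    (Ideal.mem_sup_right (Ideal.mem_map_of_mem _ h2))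

theorem mx_blocks (D D' : Sec b T) (hc : ∀ t, t ∉ T → #(D.R t) + #(D'.R t) = #(blk b t) + 2)
    (h3 : ∀ t, 3 ≤ #(blk b t)) {e e' : τ → k} (he : ∀ t, e t ^ m = -1) (he' : ∀ t, e' t ^ m = -1)
    {P P' : Ideal (MvPolynomial {s // b s ∈ T} k)} (hP : Hg (bT b T) P) (hP' : Hg (bT b T) P')
    (h1 : FI k (bT b T) m ≤ P) (h2 : FI k (bT b T) m ≤ P') (j : τ → ℤ)
    (hj : ∀ t, (m : ℤ) ≤ j t) (Q : Finset τ) (hQ : ∀ t ∈ Q, t ∉ T) :
    chI b m hm (two (D.I m e P) (D'.I m e' P')) univ (fun _ => .neg) j =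
      (∏ t ∈ Q, -(D.ν D' m t : ℤ)) *
        chI b m hm (two (mxI P (D.mxF m e Q)) (mxI P' (D'.mxF m e' Q))) {s | b s ∉ Q}
          (fun t => if t ∈ Q then .zero else .neg) fun t => if t ∈ Q then 0 else j t := by
  have h0 : m ≠ 0 := fun h => hm (by simp [h])
  induction Q using Finset.induction_on with
  | empty => simp [mxI, Sec.mxF, Sec.mx_eq]
  | insert t Q ht ih =>
    have hT : t ∉ T := hQ t (mem_insert_self _ _)
    rw [ih fun t' h => hQ t' (mem_insert_of_mem h), prod_insert ht, mul_comm (-_ : ℤ), mul_assoc]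
    congr 1
    have o := (D.mxF_off (m := m) e Q hP hT).two (D'.mxF_off (m := m) e' Q hP' hT)
    have a1 : ∀ (D : Sec b T) (e : τ → k), D.mxF m e Q = update (D.mxF m e Q) t (D.B m e t) := by
      intro D e
      rw [eq_comm, update_eq_self_iff, Sec.mxF, if_neg ht]
    have a2 : ∀ (D : Sec b T) (e : τ → k),
        D.mxF m e (insert t Q) = update (D.mxF m e Q) t (blkI k b t) := by
      intro D e
      funext t'
      by_cases h : t' = t
      · rw [h, update_self, Sec.mxF, if_pos (mem_insert_self _ _)]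
      · simp [Sec.mxF, h]
    rw [a2, a2, mxI_update _ _ hT, mxI_update P' _ hT, mx_two_sup, a1 D, a1 D', mxI_update _ _ hT,
      mxI_update P' _ hT, mx_two_sup, ← a1 D, ← a1 D', ← o.eq]
    refine (ch_block hm D D' t (hc t hT) (h3 t) (he t) (he' t) _ (fun g hg => hg.2) (if_neg ht)
      (fun s hs => by simpa [mx_blk.1 hs] using ht) (fun t' => ?_) _
      (by simpa [ht] using hj t)).trans ?_
    · by_cases h : t' = t
      · exact .inl (by rw [h, update_self])
      · by_cases h' : t' ∈ Q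
        · exact .inl (by rw [update_of_ne h, if_pos h'])
        · refine .inr ⟨fun s hs => ?_, mx_kill hm (D.mxF_fer h0 he Q h1 h)
            (D'.mxF_fer h0 he' Q h2 h) o.eq⟩
          have : b s = t' := hs
          simpa [this] using h'
    · congr 2
      · ext s
        simp [mx_blk, and_comm]
      · funext t'
        by_cases h : t' = t <;> simp [h]
      · funext t'
        by_cases h : t' = t <;> simp [h]

/-- all blocks outside `T` at once. -/
theorem ch_blocks (D D' : Sec b T) (hc : ∀ t, t ∉ T → #(D.R t) + #(D'.R t) = #(blk b t) + 2)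
    (h3 : ∀ t, 3 ≤ #(blk b t)) {e e' : τ → k} (he : ∀ t, e t ^ m = -1) (he' : ∀ t, e' t ^ m = -1)
    {P P' : Ideal (MvPolynomial {s // b s ∈ T} k)} (hP : Hg (bT b T) P) (hP' : Hg (bT b T) P')
    (h1 : FI k (bT b T) m ≤ P) (h2 : FI k (bT b T) m ≤ P') (j : τ → ℤ)
    (hj : ∀ t, (m : ℤ) ≤ j t) :
    chI b m hm (two (D.I m e P) (D'.I m e' P')) univ (fun _ => .neg) j =
      (∏ t ∈ Tᶜ, -(D.ν D' m t : ℤ)) *
        chI b m hm (two (P.map (rename Subtype.val) ⊔ ⨆ t ∉ T, blkI k b t)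
          (P'.map (rename Subtype.val) ⊔ ⨆ t ∉ T, blkI k b t)) (AT b T) (eT T .neg)
          fun t => if t ∈ T then j t else 0 := by
  rw [mx_blocks hm D D' hc h3 he he' hP hP' h1 h2 j hj Tᶜ fun t h => mem_compl.1 h]
  have a : ∀ (D : Sec b T) (e : τ → k), ⨆ t ∉ T, D.mxF m e Tᶜ t = ⨆ t ∉ T, blkI k b t :=
    fun D e => iSup_congr fun t => iSup_congr fun h => if_pos (mem_compl.2 h)
  rw [mxI, mxI, a, a]
  congr 2
  · ext s
    simp [AT]
  · funext t
    by_cases h : t ∈ T <;> simp [eT, h]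
  · funext t
    by_cases h : t ∈ T <;> simp [h]

omit [Fintype τ] [DecidableEq τ] in
theorem mx_dl {α : Type} [Fintype α] (w : α → ℂ) (t : τ) (c : ℕ) (E : α → (τ → ℤ) → ℤ)
    (j : τ → ℤ) : (dl t)^[c] (fun j => ∑ a, w a * (E a j : ℂ)) j =
      ∑ a, w a * ((dl t)^[c] (E a) j : ℤ) := by
  induction c generalizing E with
  | zero => rfl
  | succ c ih =>
    simp only [Function.iterate_succ_apply]
    rw [← ih]
    refine congrFun (congrArg _ (funext fun j => ?_)) j
    simp only [dl, Int.cast_sub, mul_sub, sum_sub_distrib]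

theorem mx_const {F : (τ → ℤ) → ℂ} {j₀ : τ → ℤ}
    (h : ∀ t ∈ T, ∀ j, j₀ ≤ j → F (j + et t) = F j) (n : ℕ) : ∀ r : τ → ℕ, ∑ t, r t = n →
      (∀ t, t ∉ T → r t = 0) → ∀ j, j₀ ≤ j → F (j + fun t => (r t : ℤ)) = F j := by
  induction n with
  | zero =>
    intro r hr _ j _
    congr 1
    funext t
    simp [sum_eq_zero_iff.1 hr t (mem_univ t)]
  | succ n ih =>
    intro r hr h0 j hj
    obtain ⟨t, -, ht⟩ := exists_ne_zero_of_sum_ne_zero
      (by rw [hr]; exact Nat.succ_ne_zero n : ∑ t, r t ≠ 0)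
    have hT : t ∈ T := by_contra fun h => ht (h0 t h)
    have e : (j + fun t => (r t : ℤ)) = j + et t + fun t' => (update r t (r t - 1) t' : ℤ) := by
      funext t'
      by_cases h : t' = t
      · subst h
        simp [wt]
        omega
      · simp [wt, h]
    rw [e, ih _ ?_ ?_ _ (hj.trans (le_add_of_nonneg_right fun t' => (et_le t t').1)), h t hT j hj]
    · rw [sum_update_of_mem (mem_univ t)]
      rw [← add_sum_erase _ _ (mem_univ t), ← sdiff_singleton_eq_erase] at hr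
      omega
    · intro t' h'
      rw [update_of_ne (by rintro rfl; exact h' hT), h0 t' h']

theorem mix [IsAlgClosed k] {ω : kˣ →* ℂˣ} (hω : Injective ω) (D D' : Sec b T)
    (hc : ∀ t, t ∉ T → #(D.R t) + #(D'.R t) = #(blk b t) + 2) (h3 : ∀ t, 3 ≤ #(blk b t))
    {e e' : τ → k} (he : ∀ t, e t ^ m = -1) (he' : ∀ t, e' t ^ m = -1)
    {P P' : Ideal (MvPolynomial {s // b s ∈ T} k)} (hP : Hg (bT b T) P) (hP' : Hg (bT b T) P')
    (h1 : FI k (bT b T) m ≤ P) (h2 : FI k (bT b T) m ≤ P') (c : {s // b s ∈ T} → ℤ)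
    (hc' : ∀ s, ¬(m : ℤ) ∣ c s) : ∃ j₀, ∀ j, j₀ ≤ j →
      (m : ℂ) ^ #T * ∑ᶠ g : {s // b s ∈ T} → rootsOfUnity m k, chis ω m c g⁻¹ *
        EI b m hm (D.I m e (P.map (diagAct _ m g))) (D'.I m e' P') j =
      (-1) ^ #T * (∏ t ∈ Tᶜ, (D.ν D' m t : ℂ)) * thb ω m c (two P P') := by
  have h0 : m ≠ 0 := fun h => hm (by simp [h])
  have : NeZero m := ⟨h0⟩
  let G := {s // b s ∈ T} → rootsOfUnity m k
  let _ : Fintype G := Fintype.ofFinite G
  have hb : Surjective b := fun t => by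
    obtain ⟨s, hs⟩ := card_pos.1 (lt_of_lt_of_le (by norm_num) (h3 t))
    exact ⟨s, mx_blk.1 hs⟩
  let B : Ideal (MvPolynomial σ k) := ⨆ t ∉ T, blkI k b t
  have hB : Hg b B := (MxOff.iSup (q := fun _ => True) fun t => MxOff.iSup fun _ =>
    mx_off_blkI b t fun _ _ => trivial).hg
  have hI : ∀ {P : Ideal (MvPolynomial {s // b s ∈ T} k)}, Hg (bT b T) P →
      Hg b (P.map (rename Subtype.val) ⊔ B) := fun h =>
    (h.rename Subtype.val Subtype.val fun _ => rfl).sup hB
  let I : G → Ideal (MvPolynomial (σ ⊕ σ) k) := fun g =>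
    two ((P.map (diagAct _ m g)).map (rename Subtype.val) ⊔ B) (P'.map (rename Subtype.val) ⊔ B)
  have one : ∀ {ρ : Type} (W : Ideal (MvPolynomial ρ k)), W.map (diagAct ρ m 1) = W := fun W => by
    rw [map_one]
    exact Ideal.map_id W
  have eI : ∀ g : G, (two (P.map (rename Subtype.val) ⊔ B) (P'.map (rename Subtype.val) ⊔ B)).map
      (lact m (xt b T g)) = I g := fun g => by
    have e1 : (fun s : {s // b s ∈ T} => xt b T g s.1) = g := funext fun s => dif_pos s.2
    rw [lact, two_map, one, Ideal.map_sup, mx_val_diag, e1]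
    simp only [B, I, Ideal.map_iSup, mx_blkI_map]
  let E : G → (τ → ℤ) → ℤ := fun g => EI b m hm (D.I m e (P.map (diagAct _ m g))) (D'.I m e' P')
  let F : (τ → ℤ) → ℂ := fun j => ∑ g : G, chis ω m c g⁻¹ * E g j
  let Φ : (τ → ℤ) → ℂ := fun j =>
    ∑ g : G, chis ω m c g⁻¹ * chI b m hm (I g) (AT b T) (eT T .all) j
  let κ : ℂ := (-1) ^ #T * ∏ t ∈ Tᶜ, (D.ν D' m t : ℂ)
  have g1 := fun g : G => D.hg (m := m) e (hP.diag m g)
  have g2 := fun g : G => D.FI_le h0 he (FI_le_map h1 g)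
  have g3 := D'.hg (m := m) e' hP'
  have g4 := D'.FI_le h0 he' h2
  choose j₁ hj₁ using fun g : G => V2 (D := ferD k b m hm) (qpc_gm (two_hg (g1 g) g3).1) fun t =>
    mx_kill hm (g2 g (Ideal.subset_span ⟨t, rfl⟩)) (g4 (Ideal.subset_span ⟨t, rfl⟩)) rfl
  choose cc L hL using fun x : G × τ => EI_hs hm (g1 x.1) g3 (g2 x.1) g4 x.2
  obtain ⟨c₀, hc₀⟩ := (Set.finite_range cc).bddAbove
  obtain ⟨L₀, hL₀⟩ := (Set.finite_range L).bddAbove
  obtain ⟨j₂, hj₂⟩ := (Set.finite_range j₁).bddAbove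
  have key : ∀ j, j₂ ≤ j → (∀ t, (m : ℤ) ≤ j t) →
      F j = κ * Φ fun t => if t ∈ T then j t else 0 := by
    intro j a1 a2
    have a3 := avg_neg hm hω hb (two_hg (hI hP) (hI hP')).1 (fun t ht =>
      ⟨Ideal.mem_sup_left (Ideal.mem_map_of_mem _ (Ideal.mem_sup_left (mx_fer_map h1 ht))),
        Ideal.mem_sup_right (Ideal.mem_map_of_mem _ (Ideal.mem_sup_left (mx_fer_map h2 ht)))⟩)
      c hc' fun t => if t ∈ T then j t else 0
    simp only [finsum_eq_sum_of_fintype, eI] at a3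
    simp only [F, Φ]
    rw [← a3, mul_sum]
    refine sum_congr rfl fun g _ => ?_
    have a4 : E g j = (-1) ^ Fintype.card τ * chI b m hm (two (D.I m e (P.map (diagAct _ m g)))
        (D'.I m e' P')) univ (fun _ => .neg) j := hj₁ g j ((hj₂ ⟨g, rfl⟩).trans a1)
    have a5 := ch_blocks hm D D' hc h3 he he' (hP.diag m g) hP' (FI_le_map h1 g) h2 j a2
    rw [a4, a5, prod_neg, ← card_add_card_compl T]
    have a6 : ((-1 : ℂ) ^ #Tᶜ) ^ 2 = 1 := by rw [← pow_mul, mul_comm, pow_mul]; simp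
    push_cast
    simp only [κ, I, B]
    linear_combination (chis ω m c g⁻¹ * (-1) ^ #T * (∏ t ∈ Tᶜ, (D.ν D' m t : ℂ)) *
      (chI b m hm (two ((P.map (diagAct _ m g)).map (rename Subtype.val) ⊔ ⨆ t ∉ T, blkI k b t)
        (P'.map (rename Subtype.val) ⊔ ⨆ t ∉ T, blkI k b t)) (AT b T) (eT T .neg)
        (fun t => if t ∈ T then j t else 0) : ℤ)) * a6
  have per : ∀ t ∈ T, ∀ j, Φ (j + (m : ℤ) • et t) = Φ j := fun t ht j =>
    sum_congr rfl fun g _ => by
      refine congrArg (fun z : ℤ => chis ω m c g⁻¹ * (z : ℂ))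
        (ch_per (D := ferD k b m hm) (qpc_gm (two_hg (hI (hP.diag m g)) (hI hP')).1)
          (fun t' => ?_) (if_pos ht) j)
      by_cases h : t' ∈ T
      · refine .inr ⟨fun s hs => ?_, mx_kill hm (Ideal.mem_sup_left
          (mx_fer_map (FI_le_map h1 g) h)) (Ideal.mem_sup_left (mx_fer_map h2 h)) rfl⟩
        have : b s = t' := hs
        simpa [AT, this] using h
      · exact .inl (if_neg h)
  let j₀ : τ → ℤ := j₂ ⊔ fun _ => max (m : ℤ) (L₀ + c₀)
  have b1 : ∀ j, j₀ ≤ j → j₂ ≤ j := fun j h => le_sup_left.trans h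
  have b2 : ∀ j, j₀ ≤ j → ∀ t, (m : ℤ) ≤ j t := fun j h t =>
    (le_max_left _ _).trans ((le_sup_right.trans h : _ ≤ j) t)
  have b3 : ∀ j, j₀ ≤ j → ∀ t, L₀ + c₀ ≤ j t := fun j h t =>
    (le_max_right _ _).trans ((le_sup_right.trans h : _ ≤ j) t)
  have cst : ∀ t ∈ T, ∀ j, j₀ ≤ j → F (j + et t) = F j := fun t ht =>
    const_of_per F t (c := c₀) (Nat.pos_of_ne_zero h0) j₀ (fun j hj => by
      rw [mx_dl]
      refine sum_eq_zero fun g _ => ?_
      have c1 : cc (g, t) ≤ c₀ := hc₀ ⟨_, rfl⟩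
      have c2 : L (g, t) ≤ L₀ := hL₀ ⟨_, rfl⟩
      have c3 := b3 j hj t
      have := gm_dl_up (hL (g, t)) (c₀ - cc (g, t)) j (by push_cast [c1]; omega)
      rw [Nat.sub_add_cancel c1] at this
      rw [show (dl t)^[c₀] (E g) j = 0 from this, Int.cast_zero, mul_zero]) fun j hj => by
      have hj' : j₀ ≤ j + (m : ℤ) • et t := hj.trans (le_add_of_nonneg_right fun t' =>
        mul_nonneg (Int.natCast_nonneg m) (et_le t t').1)
      rw [key j (b1 j hj) (b2 j hj), key _ (b1 _ hj') (b2 _ hj'), ← per t ht fun t =>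
        if t ∈ T then j t else 0]
      congr 2
      funext t'
      by_cases h : t' ∈ T
      · simp [h]
      · simp [h, wt, show t' ≠ t from fun e => h (e ▸ ht)]
  refine ⟨j₀, fun j hj => ?_⟩
  rw [finsum_eq_sum_of_fintype, thb, finsum_eq_sum_of_fintype]
  have cnt : #(Fintype.piFinset fun t => if t ∈ T then range m else {0}) = m ^ #T := by
    rw [Fintype.card_piFinset]
    simp [apply_ite card]
  have s1 : ∑ r ∈ Fintype.piFinset fun t => if t ∈ T then range m else {0},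
      F (j + fun t => (r t : ℤ)) = (m : ℂ) ^ #T * F j := by
    rw [sum_congr rfl fun r hr => mx_const cst _ r rfl (fun t ht => by
      simpa [ht] using Fintype.mem_piFinset.1 hr t) j hj, sum_const, cnt, nsmul_eq_mul,
      Nat.cast_pow]
  refine s1.symm.trans ?_
  rw [sum_congr rfl (g := fun r => κ * Φ ((fun t => if t ∈ T then j t else 0) +
    fun t => (r t : ℤ))) fun r hr => ?_, ← mul_sum]
  · congr 1
    simp only [Φ]
    rw [sum_comm]
    refine sum_congr rfl fun g _ => ?_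
    rw [← mul_sum, ← Int.cast_sum, lact, two_map, one,
      ← fold_T hm (hP.diag m g) hP' (FI_le_map h1 g) h2 (fun t => if t ∈ T then j t else 0)
        fun t ht => if_neg ht]
  · have hj' : j₀ ≤ j + fun t => (r t : ℤ) := hj.trans (le_add_of_nonneg_right fun t =>
      Int.natCast_nonneg _)
    rw [key _ (b1 _ hj') (b2 _ hj')]
    congr 2
    funext t
    by_cases h : t ∈ T
    · simp [h]
    · have : r t = 0 := by simpa [h] using Fintype.mem_piFinset.1 hr t
      simp [h, this]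

end Pool.Agent.Lib.MP_40dc3c_ag.P
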