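import Pool.Agent.Lib.MP_40dc3c_ag.P.Rb
import Pool.Agent.Lib.MP_40dc3c_ag.P.He

/-! Coordinates on the Tate complex of the diagonal. -/

namespace Pool.Agent.Lib.MP_40dc3c_ag.P

open MvPolynomial Finset Function

set_option linter.unusedSectionVars false

variable {k : Type} [Field k] {σ τ : Type} [LinearOrder σ] [Fintype σ] [Fintype τ] {b : σ → τ}
  {m : ℕ} (hm : (m : k) ≠ 0) {V W : Ideal (MvPolynomial σ k)}

theorem rc_map {ρ M M' : Type} [Finite ρ] [AddCommGroup M] [Module (MvPolynomial ρ k) M]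
    [Module k M] [IsScalarTower k (MvPolynomial ρ k) M] [AddCommGroup M']
    [Module (MvPolynomial ρ k) M'] [Module k M'] [IsScalarTower k (MvPolynomial ρ k) M']
    (D : Dat k σ τ ρ) (φ : M →ₗ[MvPolynomial ρ k] M') (S : Set (Finset σ × (τ → ℤ)))
    (v : (τ → ℤ) → Finset σ → M) :
    D.d M' S (fun J I => φ (v J I)) = fun J I => φ (D.d M S v J I) := by
  ext J I
  rw [d_at, d_at]
  split_ifs
  · rw [td_at, td_at, map_sum]
    refine sum_congr rfl fun s _ => ?_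
    split_ifs <;> simp
  · exact φ.map_zero.symm

theorem rc_smul {ρ M : Type} [AddCommGroup M] [Module (MvPolynomial ρ k) M]
    [Module k M] [IsScalarTower k (MvPolynomial ρ k) M] (D : Dat k σ τ ρ)
    (S : Set (Finset σ × (τ → ℤ))) (e : MvPolynomial ρ k) (v : (τ → ℤ) → Finset σ → M) :
    D.d M S (e • v) = e • D.d M S v :=
  (cut M (MvPolynomial ρ k) S ∘ₗ td M D.b D.a D.c).map_smul e v

/-- coordinates on the doubled ring. -/
structure RcF (b : σ → τ) (W : Ideal (MvPolynomial σ k)) where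
  /-- the index set of the basis. -/
  ι : Type
  /-- the degrees. -/
  δ : ι → τ → ℤ
  /-- the basis. -/
  w : ι → MvPolynomial σ k
  /-- the coordinates. -/
  Φ : (ι →₀ MvPolynomial σ k) →ₗ[k] MvPolynomial (σ ⊕ σ) k
  h1 : ∀ x, (w x).IsWeightedHomogeneous (wt b) (δ x)
  h2 : ∀ x f, Φ (.single x f) = rename Sum.inl f * rename Sum.inr (w x)
  h3 : ∀ f v, Φ (f • v) = rename Sum.inl f * Φ v
  h4 : ∀ e, ∃ v, e - Φ v ∈ two ⊥ W
  h5 : ∀ V v, Φ v ∈ two V W ↔ ∀ x, v x ∈ V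
  h6 : ∀ j v, (∀ x, (v x).IsWeightedHomogeneous (wt b) (j - δ x)) →
    (Φ v).IsWeightedHomogeneous (wt (Sum.elim b b)) j
  h7 : ∀ j (e : MvPolynomial (σ ⊕ σ) k), e.IsWeightedHomogeneous (wt (Sum.elim b b)) j →
    ∃ v, (∀ x, (v x).IsWeightedHomogeneous (wt b) (j - δ x)) ∧ e - Φ v ∈ two ⊥ W

theorem rc_ex (hW : Hg b W) : Nonempty (RcF b W) := by
  obtain ⟨ι, δ, w, Φ, h1, h2, h3, h4, h5, h6, h7⟩ := exists_free hW
  exact ⟨⟨ι, δ, w, Φ, h1, h2, h3, h4, h5, h6, h7⟩⟩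

/-- the indices of homological degree `i`. -/
def RcN (σ τ : Type) [Fintype σ] [Fintype τ] (i : ℤ) : Type :=
  {p : Finset σ × (τ → ℤ) // p ∈ SS univ (fun _ => Ty.pos) ∧ (#p.1 : ℤ) + 2 * ∑ t, p.2 t = i}

instance (i : ℤ) : Finite (RcN σ τ i) :=
  ((he_fin (σ := σ) (τ := τ) i).preimage (f := Prod.swap) Prod.swap_injective.injOn).to_subtype

theorem rc_nonneg {I : Finset σ} {J : τ → ℤ} (h : (I, J) ∈ SS univ fun _ => Ty.pos) :
    0 ≤ ∑ t, J t := sum_nonneg fun t _ => h.2 t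

/-- the index of degree zero. -/
def rcO (σ τ : Type) [Fintype σ] [Fintype τ] : RcN σ τ 0 :=
  ⟨(∅, 0), ⟨empty_subset _, fun _ => le_rfl⟩, by simp⟩

theorem rc_zero (p : RcN σ τ 0) : p = rcO σ τ := by
  obtain ⟨⟨I, J⟩, h, e⟩ := p
  have := rc_nonneg h
  dsimp only at e
  refine Subtype.ext (Prod.ext (card_eq_zero.1 (show #I = 0 by omega)) (funext fun t => ?_))
  exact (sum_eq_zero_iff_of_nonneg fun t _ => h.2 t).1 (show ∑ t, J t = 0 by omega) t (mem_univ t)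

theorem rc_two : two ⊥ W ≤ two V W := sup_le_sup_right (Ideal.map_mono bot_le) _

theorem rc_add {α β N : Type} [AddCommMonoid N] (v v' : α × β →₀ N) (p : α) :
    (v + v').curry p = v.curry p + v'.curry p := Finsupp.ext fun _ => rfl

theorem rc_sm {α β N R : Type} [AddCommMonoid N] [Semiring R] [Module R N] (c : R)
    (v : α × β →₀ N) (p : α) : (c • v).curry p = c • v.curry p := Finsupp.ext fun _ => rfl

namespace RcF

variable (F : RcF b W)

open Classical in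
/-- the vector of the Tate complex with given coordinates. -/
noncomputable def Ψ (V : Ideal (MvPolynomial σ k)) (i : ℤ) :
    (RcN σ τ i × F.ι →₀ MvPolynomial σ k) →ₗ[k]
      ((τ → ℤ) → Finset σ → MvPolynomial (σ ⊕ σ) k ⧸ two V W) where
  toFun v J I := if h : _ then Ideal.Quotient.mk _ (F.Φ (v.curry ⟨(I, J), h⟩)) else 0
  map_add' v v' := by
    ext J I
    simp only [Pi.add_apply]
    split_ifs with h
    · rw [rc_add, map_add, map_add]
    · exact (add_zero _).symm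
  map_smul' c v := by
    ext J I
    simp only [Pi.smul_apply, RingHom.id_apply]
    split_ifs with h
    · rw [rc_sm, map_smul]; rfl
    · exact (smul_zero _).symm

/-- the degrees of the basis vectors. -/
noncomputable def dg (m : ℕ) (i : ℤ) (y : RcN σ τ i × F.ι) : τ → ℤ :=
  ∑ s ∈ y.1.1.1, wt b s + (m : ℤ) • y.1.1.2 + F.δ y.2

variable {i : ℤ}

theorem Ψ_pos (v : RcN σ τ i × F.ι →₀ MvPolynomial σ k) (p : RcN σ τ i) :
    F.Ψ V i v p.1.2 p.1.1 = Ideal.Quotient.mk _ (F.Φ (v.curry p)) := dif_pos p.2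

theorem Ψ_neg (v : RcN σ τ i × F.ι →₀ MvPolynomial σ k) {J : τ → ℤ} {I : Finset σ}
    (h : ¬((I, J) ∈ SS univ (fun _ => Ty.pos) ∧ (#I : ℤ) + 2 * ∑ t, J t = i)) :
    F.Ψ V i v J I = 0 := dif_neg h

theorem Ψ_ext {v : RcN σ τ i × F.ι →₀ MvPolynomial σ k}
    {u : (τ → ℤ) → Finset σ → MvPolynomial (σ ⊕ σ) k ⧸ two V W}
    (h : ∀ p : RcN σ τ i, Ideal.Quotient.mk _ (F.Φ (v.curry p)) = u p.1.2 p.1.1)
    (h' : ∀ J I, ¬((I, J) ∈ SS univ (fun _ => Ty.pos) ∧ (#I : ℤ) + 2 * ∑ t, J t = i) →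
      u J I = 0) : F.Ψ V i v = u := by
  ext J I
  by_cases c : (I, J) ∈ SS univ (fun _ => Ty.pos) ∧ (#I : ℤ) + 2 * ∑ t, J t = i
  · exact (F.Ψ_pos v ⟨(I, J), c⟩).trans (h _)
  · rw [F.Ψ_neg v c, h' J I c]

theorem Ψ_smul (f : MvPolynomial σ k) (v : RcN σ τ i × F.ι →₀ MvPolynomial σ k) :
    F.Ψ V i (f • v) = (rename Sum.inl f : MvPolynomial (σ ⊕ σ) k) • F.Ψ V i v :=
  F.Ψ_ext (fun p => by
    rw [rc_sm, F.h3, Pi.smul_apply, Pi.smul_apply, F.Ψ_pos]
    rfl) fun J I h => by rw [Pi.smul_apply, Pi.smul_apply, F.Ψ_neg v h, smul_zero]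

theorem Ψ_zero (v : RcN σ τ i × F.ι →₀ MvPolynomial σ k) : F.Ψ V i v = 0 ↔ ∀ y, v y ∈ V :=
  ⟨fun h y => (F.h5 V _).1 (Ideal.Quotient.eq_zero_iff_mem.1
    ((F.Ψ_pos v y.1).symm.trans (by rw [h]; rfl))) y.2, fun h => F.Ψ_ext
      (fun p => Ideal.Quotient.eq_zero_iff_mem.2 ((F.h5 V _).2 fun x => h (p, x))) fun _ _ _ => rfl⟩

theorem Ψ_eq (v v' : RcN σ τ i × F.ι →₀ MvPolynomial σ k) :
    (∀ y, (v - v') y ∈ V) ↔ F.Ψ V i v' = F.Ψ V i v := by
  rw [← F.Ψ_zero, map_sub, sub_eq_zero, eq_comm]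

theorem Ψ_top (v : RcN σ τ i × F.ι →₀ MvPolynomial σ k) :
    F.Ψ V i v ∈ (ferD k b m hm).U (fun _ => ⊤) (SS univ fun _ => .pos) 0 i :=
  fun _ _ => ⟨trivial, F.Ψ_neg v⟩

theorem Ψ_onto {u : (τ → ℤ) → Finset σ → MvPolynomial (σ ⊕ σ) k ⧸ two V W}
    (h : ∀ J I, ¬((I, J) ∈ SS univ (fun _ => Ty.pos) ∧ (#I : ℤ) + 2 * ∑ t, J t = i) →
      u J I = 0) : ∃ v, F.Ψ V i v = u := by
  choose e he using fun p : RcN σ τ i => Ideal.Quotient.mk_surjective (u p.1.2 p.1.1)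
  choose c hc using fun p => F.h4 (e p)
  refine ⟨(Finsupp.equivFunOnFinite.symm c).uncurry, F.Ψ_ext (fun p => ?_) h⟩
  rw [Finsupp.curry_uncurry, ← he]
  exact (Ideal.Quotient.eq.2 (rc_two (hc p))).symm

theorem dg_sub (j : τ → ℤ) (p : RcN σ τ i) (x : F.ι) :
    j - F.dg m i (p, x) = j - ∑ s ∈ p.1.1, wt b s - (m : ℤ) • p.1.2 - F.δ x := by
  simp only [dg]
  abel

theorem Ψ_mem {j : τ → ℤ} {v : RcN σ τ i × F.ι →₀ MvPolynomial σ k}
    (h : ∀ y, (v y).IsWeightedHomogeneous (wt b) (j - F.dg m i y)) : F.Ψ V i v ∈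
      (ferD k b m hm).U (qpc (Sum.elim b b) (two V W)) (SS univ fun _ => .pos) j i := by
  refine fun J I => ⟨?_, F.Ψ_neg v⟩
  by_cases c : (I, J) ∈ SS univ (fun _ => Ty.pos) ∧ (#I : ℤ) + 2 * ∑ t, J t = i
  · exact ⟨_, F.h6 _ _ fun x => F.dg_sub j ⟨(I, J), c⟩ x ▸ h (⟨(I, J), c⟩, x),
      (F.Ψ_pos v ⟨(I, J), c⟩).symm⟩
  · rw [F.Ψ_neg v c]
    exact zero_mem _

theorem Ψ_hom {j : τ → ℤ} {u : (τ → ℤ) → Finset σ → MvPolynomial (σ ⊕ σ) k ⧸ two V W}
    (h : u ∈ (ferD k b m hm).U (qpc (Sum.elim b b) (two V W)) (SS univ fun _ => .pos) j i) :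
    ∃ v : RcN σ τ i × F.ι →₀ MvPolynomial σ k,
      (∀ y, (v y).IsWeightedHomogeneous (wt b) (j - F.dg m i y)) ∧ F.Ψ V i v = u := by
  choose e h₁ he using fun p : RcN σ τ i => (h p.1.2 p.1.1).1
  choose c h₂ hc using fun p => F.h7 _ (e p) (h₁ p)
  refine ⟨(Finsupp.equivFunOnFinite.symm c).uncurry, fun y => ?_,
    F.Ψ_ext (fun p => ?_) fun J I => (h J I).2⟩
  · rw [F.dg_sub j y.1 y.2]
    exact h₂ y.1 y.2
  · rw [Finsupp.curry_uncurry, ← he]
    exact (Ideal.Quotient.eq.2 (rc_two (hc p))).symm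

theorem Ψ_one (y : RcN σ τ i × F.ι) : F.Ψ V i (.single y 1) ∈ (ferD k b m hm).U
    (qpc (Sum.elim b b) (two V W)) (SS univ fun _ => .pos) (F.dg m i y) i := by
  classical
  refine F.Ψ_mem hm fun y' => ?_
  rw [Finsupp.single_apply]
  split_ifs with c
  · rw [c, sub_self]
    exact isWeightedHomogeneous_one _ _
  · exact isWeightedHomogeneous_zero _ _ _

theorem Ψ_fac (v : RcN σ τ i × F.ι →₀ MvPolynomial σ k) : F.Ψ V i v = fun J I =>
    (Ideal.Quotient.factorₐ (MvPolynomial (σ ⊕ σ) k) (rc_two (V := V))).toLinearMap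
      (F.Ψ ⊥ i v J I) :=
  F.Ψ_ext (fun p => by rw [F.Ψ_pos]; rfl) fun J I h => by rw [F.Ψ_neg v h, map_zero]

theorem ind {P : (RcN σ τ i × F.ι →₀ MvPolynomial σ k) → Prop} (h0 : P 0)
    (h1 : ∀ v v', P v → P v' → P (v + v')) (h2 : ∀ y (f : MvPolynomial σ k), P (f • .single y 1))
    (v) : P v := by
  induction v using Finsupp.induction_linear with
  | zero => exact h0
  | add v v' a b => exact h1 _ _ a b
  | single y f => simpa using h2 y f

theorem exists_A (hW : Hg b W) (i : ℤ) :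
    ∃ A : (RcN σ τ (i + 1) × F.ι →₀ MvPolynomial σ k) →ₗ[MvPolynomial σ k]
      (RcN σ τ i × F.ι →₀ MvPolynomial σ k),
      (∀ x y, (A (.single y 1) x).IsWeightedHomogeneous (wt b) (F.dg m (i + 1) y - F.dg m i x)) ∧
      ∀ V v, F.Ψ V i (A v) = (ferD k b m hm).d _ (SS univ fun _ => .pos) (F.Ψ V (i + 1) v) := by
  have G : IsGM (ferD k b m hm).β (qpc (Sum.elim b b) (two ⊥ W)) :=
    qpc_gm (two_hg (fun f hf d => by rw [Ideal.mem_bot.1 hf, map_zero]; exact zero_mem _) hW).1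
  choose a h₁ h₂ using fun y : RcN σ τ (i + 1) × F.ι =>
    F.Ψ_hom hm (d_mem G _ _ i (F.Ψ_one hm y))
  refine ⟨Finsupp.linearCombination _ a, fun x y => by simpa using h₁ y x, fun V v => ?_⟩
  induction v using F.ind with
  | h0 => simp only [map_zero]
  | h1 v v' c c' => simp only [map_add, c, c']
  | h2 y f =>
    rw [map_smul, F.Ψ_smul, F.Ψ_smul, rc_smul, Finsupp.linearCombination_single, one_smul,
      F.Ψ_fac, F.Ψ_fac (V := V), h₂, rc_map]

theorem dd (hV : Hg b V) (hW : Hg b W) (h1 : FI k b m ≤ V) (h2 : FI k b m ≤ W)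
    (v : RcN σ τ i × F.ι →₀ MvPolynomial σ k) : (ferD k b m hm).d _ (SS univ fun _ => .pos)
      ((ferD k b m hm).d _ (SS univ fun _ => .pos) (F.Ψ V i v)) = 0 := by
  induction v using F.ind with
  | h0 => simp only [map_zero]
  | h1 v v' c c' => simp only [map_add, c, c', add_zero]
  | h2 y f =>
    rw [F.Ψ_smul, rc_smul, rc_smul, (U_cx (D := ferD k b m hm) (qpc_gm (two_hg hV hW).1)
      (he_ok (he_h hm h1 h2)) _).sq i _ (F.Ψ_one hm y), smul_zero]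

theorem aug (v : RcN σ τ 0 × F.ι →₀ MvPolynomial σ k) :
    rename (Sum.elim id id) (F.Φ (v.curry (rcO σ τ))) =
      Finsupp.linearCombination (MvPolynomial σ k) (fun y : RcN σ τ 0 × F.ι => F.w y.2) v := by
  induction v using Finsupp.induction_linear with
  | zero => rw [show Finsupp.curry 0 (rcO σ τ) = 0 from rfl, map_zero, map_zero, map_zero]
  | add v v' c c' => rw [rc_add, map_add, map_add, map_add, c, c']
  | single y f =>
    rw [Finsupp.curry_single, rc_zero y.1, Finsupp.single_eq_same, F.h2,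
      Finsupp.linearCombination_single, map_mul, rename_rename, rename_rename]
    simp

end RcF

end Pool.Agent.Lib.MP_40dc3c_ag.P
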