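import Pool.Agent.Lib.MP_40dc3c_ag.P.Ra
import Pool.Agent.Lib.MP_40dc3c_ag.P.Rca

/-! The Tate complex computes Tor, and the intersection number. -/

namespace Pool.Agent.Lib.MP_40dc3c_ag.P

open MvPolynomial Finset Function Filter

variable {k : Type} [Field k] {σ τ : Type} [LinearOrder σ] [Fintype σ] [Fintype τ] {b : σ → τ}
  {m : ℕ} (hm : (m : k) ≠ 0) {V W : Ideal (MvPolynomial σ k)}

theorem rc_rank {X Y : Type} [AddCommGroup X] [Module k X] [AddCommGroup Y] [Module k Y]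
    (Ψ : X →ₗ[k] Y) (d : Y →ₗ[k] Y) (Z B : Submodule k X)
    (U' U : Submodule k Y) (h : Z.map Ψ = U ⊓ LinearMap.ker d)
    (h' : ∀ z ∈ Z, z ∈ B ↔ Ψ z ∈ U'.map d) :
    (Module.finrank k (Z.map B.mkQ) : ℤ) = hd d U' U := by
  rw [hd, Hm, ← h, ← Submodule.map_comp, Module.finrank, Module.finrank,
    rk_congr (G := (U'.map d).mkQ ∘ₗ Ψ) fun z hz =>
      mkQ_zero.trans ((h' z hz).trans mkQ_zero.symm)]

theorem rc_A (F : RcF b W) (hW : Hg b W) (i i' : ℤ) (e : i' = i + 1) :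
    ∃ A : (RcN σ τ i' × F.ι →₀ MvPolynomial σ k) →ₗ[MvPolynomial σ k]
      (RcN σ τ i × F.ι →₀ MvPolynomial σ k),
      (∀ x y, (A (.single y 1) x).IsWeightedHomogeneous (wt b) (F.dg m i' y - F.dg m i x)) ∧
      (∀ V v, F.Ψ V i (A v) = (ferD k b m hm).d _ (SS univ fun _ => .pos) (F.Ψ V i' v)) ∧
      ∀ V v, (∃ u, ∀ x, (v - A u) x ∈ V) ↔
        ∃ u ∈ (ferD k b m hm).U (fun _ => ⊤) (SS univ fun _ => .pos) 0 (i + 1),
          (ferD k b m hm).d _ (SS univ fun _ => .pos) u = F.Ψ V i v := by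
  subst e
  obtain ⟨A, hA, hd⟩ := F.exists_A hm hW i
  refine ⟨A, hA, hd, fun V v => ⟨fun ⟨u, h⟩ =>
    ⟨_, F.Ψ_top hm u, (hd V u).symm.trans ((F.Ψ_eq _ _).1 h)⟩, fun ⟨u, h, e⟩ => ?_⟩⟩
  obtain ⟨u, rfl⟩ := F.Ψ_onto fun J I => (h J I).2
  exact ⟨u, (F.Ψ_eq _ _).2 ((hd V u).trans e)⟩

theorem rc_aug (F : RcF b W) (h2 : FI k b m ≤ W) (i : ℤ) (e : i = 0) :
    ∃ ε : (RcN σ τ i × F.ι →₀ MvPolynomial σ k) →ₗ[MvPolynomial σ k] MvPolynomial σ k,
      (∀ x, (ε (.single x 1)).IsWeightedHomogeneous (wt b) (F.dg m i x)) ∧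
      (∀ a, ∃ v, a - ε v ∈ W) ∧ ∀ v, ε v ∈ W ↔
        ∃ u ∈ (ferD k b m hm).U (fun _ => ⊤) (SS univ fun _ => .pos) 0 (i + 1),
          (ferD k b m hm).d _ (SS univ fun _ => .pos) u = F.Ψ (FI k b m) i v := by
  subst e
  refine ⟨Finsupp.linearCombination (MvPolynomial σ k) fun y : RcN σ τ 0 × F.ι => F.w y.2,
    fun y => ?_, fun a => ?_, fun v => ?_⟩
  · have e : F.dg m 0 y = F.δ y.2 := by simp [RcF.dg, rc_zero y.1, rcO]
    rw [Finsupp.linearCombination_single, one_smul, e]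
    exact F.h1 y.2
  · obtain ⟨v, hv⟩ := F.h4 (rename Sum.inl a)
    refine ⟨(Finsupp.single (rcO σ τ) v).uncurry, ?_⟩
    have h : two ⊥ W ≤ W.comap (rename (Sum.elim id id)) := sup_le
      (Ideal.map_le_iff_le_comap.2 bot_le) (Ideal.map_le_iff_le_comap.2 fun f hf => by
        simpa [rename_rename] using hf)
    have := h hv
    rw [Ideal.mem_comap, map_sub, rename_rename, Sum.elim_comp_inl, rename_id] at this
    rw [← F.aug, Finsupp.curry_uncurry, Finsupp.single_eq_same]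
    exact this
  · rw [← F.aug, zero_add]
    exact tate_zero hm h2 _ (F.Ψ_top hm v) _ (F.Ψ_pos v (rcO σ τ))

theorem rc_tor (F : RcF b W) (hV : Hg b V) (hW : Hg b W) (h1 : FI k b m ≤ V) (h2 : FI k b m ≤ W)
    (i : ℤ) (j : τ → ℤ) (C B : (RcN σ τ i × F.ι →₀ MvPolynomial σ k) → Prop)
    (cy : ∀ v : RcN σ τ i × F.ι →₀ MvPolynomial σ k,
      (∀ y, (v y).IsWeightedHomogeneous (wt b) (j - F.dg m i y)) →
        (C v ↔ (ferD k b m hm).d _ (SS univ fun _ => .pos) (F.Ψ V i v) = 0))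
    (bd : ∀ v, B v ↔ ∃ u ∈ (ferD k b m hm).U (fun _ => ⊤) (SS univ fun _ => .pos) 0 (i + 1),
      (ferD k b m hm).d _ (SS univ fun _ => .pos) u = F.Ψ V i v) :
    (Module.finrank k ((Submodule.span k {v | C v ∧ ∀ y,
      (v y).IsWeightedHomogeneous (wt b) (j - F.dg m i y)}).map
        (Submodule.span k {v | B v}).mkQ) : ℤ) =
      (ferD k b m hm).hh (qpc (Sum.elim b b) (two V W)) univ (fun _ => .pos) j i := by
  have G : IsGM (ferD k b m hm).β (qpc (Sum.elim b b) (two V W)) := qpc_gm (two_hg hV hW).1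
  have hZ : (Submodule.span k {v | C v ∧ ∀ y,
      (v y).IsWeightedHomogeneous (wt b) (j - F.dg m i y)}).map (F.Ψ V i) =
      (ferD k b m hm).U (qpc (Sum.elim b b) (two V W)) (SS univ fun _ => .pos) j i ⊓
        LinearMap.ker ((ferD k b m hm).d _ (SS univ fun _ => .pos)) := by
    refine le_antisymm (Submodule.map_le_iff_le_comap.2 (Submodule.span_le.2 fun v hv =>
      ⟨F.Ψ_mem hm hv.2, (cy v hv.2).1 hv.1⟩)) fun u hu => ?_
    obtain ⟨v, hv, rfl⟩ := F.Ψ_hom hm hu.1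
    exact ⟨v, Submodule.subset_span ⟨(cy v hv).2 hu.2, hv⟩, rfl⟩
  refine rc_rank (F.Ψ V i) _ _ _ _ _ hZ fun z hz => ⟨fun h => ?_,
    fun ⟨u, h, e⟩ => Submodule.subset_span ((bd z).2 ⟨u, fun J I => ⟨trivial, (h J I).2⟩, e⟩)⟩
  have hB : Submodule.span k {v | B v} ≤ (((ferD k b m hm).U (fun _ => ⊤)
      (SS univ fun _ => .pos) 0 (i + 1)).map ((ferD k b m hm).d _ (SS univ fun _ => .pos))).comap
        (F.Ψ V i) := Submodule.span_le.2 fun v hv => (bd v).1 hv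
  obtain ⟨u, hu, e⟩ := hB h
  obtain ⟨Q, q, hQ⟩ := he_pi G (he_h hm h1 h2)
  obtain ⟨π, p1, p2, -⟩ := hQ (i + 1)
  refine ⟨_, p1 j ⟨u, fun J I => (hu J I).2⟩, (p2 j _).trans ?_⟩
  exact (congrArg (Q j) e).trans (q _ _ _ _ (hZ.le ⟨z, hz, rfl⟩).1)

theorem rc_bot (hV : Hg b V) (hW : Hg b W) {i : ℤ} (e : i = 0) {j : τ → ℤ}
    {u : (τ → ℤ) → Finset σ → MvPolynomial (σ ⊕ σ) k ⧸ two V W}
    (h : u ∈ (ferD k b m hm).U (qpc (Sum.elim b b) (two V W)) (SS univ fun _ => .pos) j i) :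
    (ferD k b m hm).d _ (SS univ fun _ => .pos) u = 0 := by
  have G : IsGM (ferD k b m hm).β (qpc (Sum.elim b b) (two V W)) := qpc_gm (two_hg hV hW).1
  obtain rfl : i = -1 + 1 := by omega
  refine funext₂ fun J I => (d_mem G _ j (-1) h J I).2 fun c => ?_
  have := rc_nonneg c.1
  have := c.2
  omega

theorem exists_res (hb : Surjective b) (hW : Hg b W) (h2 : FI k b m ≤ W) :
    ∃ R : Res b (FI k b m) W, ∀ V, Hg b V → FI k b m ≤ V → ∀ (i : ℕ) j, (R.tor V i j : ℤ) =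
      (ferD k b m hm).hh (qpc (Sum.elim b b) (two V W)) univ (fun _ => .pos) j i := by
  obtain ⟨F⟩ := rc_ex hW
  choose A hA hd bd using fun i : ℕ => rc_A hm F hW i (i + 1 : ℕ) (Nat.cast_succ i)
  obtain ⟨ε, e1, e2, e3⟩ := rc_aug hm F h2 (0 : ℕ) Nat.cast_zero
  have cyc : ∀ V i v, (∀ x, A i v x ∈ V) ↔
      (ferD k b m hm).d _ (SS univ fun _ => .pos) (F.Ψ V (i + 1 : ℕ) v) = 0 := fun V i v => by
    rw [← hd, F.Ψ_zero]
  refine ⟨⟨fun i => RcN σ τ i × F.ι, fun i => F.dg m i, A, ε, hA, e1, e2,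
    fun v => (e3 v).trans (bd 0 _ v).symm, fun i v => (cyc _ i v).trans ⟨fun h =>
      (bd (i + 1) _ v).2 (tate_exact hm hb h2 (by omega) _ (F.Ψ_top hm v) h), fun ⟨u, h⟩ => ?_⟩⟩,
    fun V hV h1 i j => rc_tor hm F hV hW h1 h2 i j _ _ (fun v h => ?_) (bd i V)⟩
  · rw [← (F.Ψ_eq _ _).1 h, hd]
    exact F.dd hm (hg_FI b m) hW le_rfl h2 u
  · cases i with
    | succ i => exact cyc V i v
    | zero => exact iff_of_true trivial (rc_bot hm hV hW Nat.cast_zero (F.Ψ_mem hm h))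

theorem exists_inter (hb : Surjective b) (hV : Hg b V) (hW : Hg b W) (h1 : FI k b m ≤ V)
    (h2 : FI k b m ≤ W) : ∃ P : Polynomial ℚ, Inter b m V W (P.eval 0) ∧
      ∀ᶠ N : ℕ in atTop, (EI b m hm V W (fun _ => N) : ℚ) = P.eval (N : ℚ) := by
  obtain ⟨R, hR⟩ := exists_res hm hb hW h2
  obtain ⟨P, hP⟩ := poly_of_dl _ (EI_hs hm hV hW h1 h2)
  refine ⟨P, ⟨R, P, rfl, hP.mono fun N e => ?_⟩, hP⟩
  rw [← e, EI, Dat.EE]
  push_cast
  exact sum_congr rfl fun i _ => by rw [← hR V hV h1, Int.cast_natCast]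

end Pool.Agent.Lib.MP_40dc3c_ag.P
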