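import Pool.Agent.Lib.MP_40dc3c_ag.P.Th
import Pool.Agent.Lib.MP_40dc3c_ag.P.Reg
import Pool.Agent.Lib.MP_40dc3c_ag.T.KA

/-! The invariant of cyclic modules and its average. -/

namespace Pool.Agent.Lib.MP_40dc3c_ag.P

open MvPolynomial Finset Function T

set_option linter.style.haveILetI false
set_option linter.unusedSectionVars false

variable {k : Type} [Field k] {σ : Type} [LinearOrder σ] [Fintype σ] {m : ℕ}
  {I : Ideal (MvPolynomial (σ ⊕ σ) k)}

/-- the graph of a diagonal map. -/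
noncomputable def gamI (m : ℕ) (g : σ → rootsOfUnity m k) : Ideal (MvPolynomial (σ ⊕ σ) k) :=
  .span (Set.range fun s => X (.inr s) - C (((g s).1 : kˣ) : k) * X (.inl s))

theorem ti_fin (hm : (m : k) ≠ 0) {R : Type} [CommRing R] [Algebra k R]
    (π : MvPolynomial (σ ⊕ σ) k →ₐ[k] R) (hπ : Surjective π) (h1 : ∀ s, π (fa k s) = 0)
    (h2 : ∀ s, π (fc k m s) = 0) : FiniteDimensional k R := by
  have h0 : 0 < m := Nat.pos_of_ne_zero fun e => hm (by simp [e])
  have hX : ∀ y, π (X y) ^ (m - 1) = 0 := fun y => by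
    rw [← map_pow]
    rcases y with s | s
    · exact (fc_nil hm s (RingHom.ker π) (h1 s) (h2 s)).1
    · exact (fc_nil hm s (RingHom.ker π) (h1 s) (h2 s)).2
  haveI : Algebra.FiniteType k R := .of_surjective π hπ
  haveI : Algebra.IsIntegral k R := ⟨fun x => by
    obtain ⟨f, rfl⟩ := hπ x
    induction f using MvPolynomial.induction_on with
    | C a => exact (π.commutes a).symm ▸ isIntegral_algebraMap
    | add p q hp hq => exact map_add π p q ▸ hp.add hq
    | mul_X p y hp =>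
      refine map_mul π p _ ▸ hp.mul (IsIntegral.of_pow (Nat.succ_pos (m - 1)) ?_)
      rw [pow_succ, hX, zero_mul]
      exact isIntegral_zero⟩
  exact Algebra.IsIntegral.finite

theorem ti_kill (h : hF k σ m ∈ I) (x : MvPolynomial (σ ⊕ σ) k ⧸ I) :
    (∑ s : σ, fa k s * fc k m s) • x = 0 :=
  Module.mem_annihilator.1 (Ideal.annihilator_quotient.ge h) x

theorem ti_lift (hm : (m : k) ≠ 0) {R : Type} [CommRing R] [Algebra k R] [IsNoetherianRing R]
    (π : MvPolynomial (σ ⊕ σ) k →ₐ[k] R) (hπ : Surjective π) (h : π (hF k σ m) = 0) :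
    ∃ Θ : K R →ₗ[ℂ] ℂ, ∀ I J, (∀ f, π f ∈ J ↔ f ∈ I) → Θ (q J) = thI m univ I := by
  letI : ∀ N : FG R, Module k N.M := fun N => Module.compHom N.M (algebraMap k R)
  haveI : ∀ N : FG R, IsScalarTower k R N.M := fun N => .of_algebraMap_smul fun _ _ => rfl
  have h0 : ∀ (N : FG R) (x : N.M), (∑ s, π (fa k s) * π (fc k m s)) • x = 0 := fun N x => by
    simp only [← map_mul]
    rw [← map_sum, show π (∑ s, fa k s * fc k m s) = 0 from h, zero_smul]
  have h1 : ∀ N : FG R, ThFin N.M k univ (fun s => π (fa k s)) fun s => π (fc k m s) := fun N =>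
    thFin_of (h0 N) (ti_fin hm ((Ideal.Quotient.mkₐ k _).comp π)
      (Ideal.Quotient.mk_surjective.comp hπ)
      (fun s => Ideal.Quotient.eq_zero_iff_mem.2 (Ideal.mem_sup_left
        (Ideal.subset_span (.inl ⟨s, mem_univ s, rfl⟩))))
      fun s => Ideal.Quotient.eq_zero_iff_mem.2 (Ideal.mem_sup_left
        (Ideal.subset_span (.inr ⟨s, mem_univ s, rfl⟩))))
  refine ⟨lift (fun N => (theta N.M k univ (fun s => π (fa k s)) (fun s => π (fc k m s)) : ℤ))
    fun A B C f g hf he hg => ?_, fun I J hI => ?_⟩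
  · rw [(theta_add (h0 B) f g hf he hg (h1 A) (h1 C)).2, Int.cast_add]
  have hle : I ≤ J.comap (π : MvPolynomial (σ ⊕ σ) k →+* R) := fun f hf =>
    Ideal.mem_comap.2 ((hI f).2 hf)
  let e := Ideal.quotientMap J (π : MvPolynomial (σ ⊕ σ) k →+* R) hle
  have es : ∀ f x, e (f • x) = π f • e x := fun f x => by
    obtain ⟨y, rfl⟩ := Ideal.Quotient.mk_surjective x
    exact congrArg (Ideal.Quotient.mk J) (map_mul π f y)
  have eb : Bijective e := ⟨Ideal.quotientMap_injective' fun f hf => (hI f).1 hf,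
    Ideal.quotientMap_surjective hπ⟩
  have key : ∀ (N : FG R) (ε : (MvPolynomial (σ ⊕ σ) k ⧸ I) →+ N.M), Bijective ε →
      (∀ f x, ε (f • x) = π f • ε x) →
      theta N.M k univ (fun s => π (fa k s)) (fun s => π (fc k m s)) = thI m univ I :=
    fun N ε hb hs => by
    let φ : (MvPolynomial (σ ⊕ σ) k ⧸ I) ≃ₗ[k] N.M := LinearEquiv.ofBijective
      ({ toFun := ε
         map_add' := map_add ε
         map_smul' := fun a x => by
          rw [← algebraMap_smul (MvPolynomial (σ ⊕ σ) k), hs, AlgHom.commutes]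
          rfl } : _ →ₗ[k] N.M) hb
    exact (theta_congr (ti_kill ((hI _).1 (h ▸ J.zero_mem))) φ 1
      (fun s _ x => (hs _ x).trans (one_smul _ _).symm)
      fun s _ x => (hs _ x).trans (by rw [Pi.one_apply, inv_one, one_smul]; rfl)).1.symm
  rw [q, lift_cl]
  exact congrArg _ (key ⟨R ⧸ J⟩ e.toAddMonoidHom eb es)

theorem ti_mk {R : Type} [CommRing R] {a : R} {J : Ideal R} (h : a ∈ J) (f : R) :
    Ideal.Quotient.mk (Ideal.span {a}) f ∈ J.map (Ideal.Quotient.mk _) ↔ f ∈ J :=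
  Ideal.mem_quotient_iff_mem ((Ideal.span_singleton_le_iff_mem J).2 h)

theorem exists_th (hm : (m : k) ≠ 0) :
    ∃ Θ : K (MvPolynomial (σ ⊕ σ) k ⧸ Ideal.span {hF k σ m}) →ₗ[ℂ] ℂ, ∀ I, hF k σ m ∈ I →
      Θ (q (I.map (Ideal.Quotient.mk _))) = thI m univ I := by
  obtain ⟨Θ, h⟩ := ti_lift hm (Ideal.Quotient.mkₐ k (Ideal.span {hF k σ m}))
    Ideal.Quotient.mk_surjective
    (Ideal.Quotient.eq_zero_iff_mem.2 (Ideal.mem_span_singleton_self _))
  exact ⟨Θ, fun I hI => h I _ (ti_mk hI)⟩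

theorem ti_fa (g : σ → rootsOfUnity m k) (s : σ) :
    diagAct (σ ⊕ σ) m (Sum.elim g g) (fa k s) = (((g s).1 : kˣ) : k) • fa k s := by
  simp [fa, smul_sub, smul_eq_C_mul]

theorem ti_fc (g : σ → rootsOfUnity m k) (s : σ) :
    diagAct (σ ⊕ σ) m (Sum.elim g g) (fc k m s) = (((g s).1⁻¹ : kˣ) : k) • fc k m s := by
  have h0 : ((g s).1 : k) ^ m = 1 := (mem_rootsOfUnity' _ _).1 (g s).2
  simp only [fc, map_sum, map_mul, map_pow, diagAct_X, Sum.elim_inl, Sum.elim_inr, smul_sum,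
    smul_eq_C_mul]
  refine sum_congr rfl fun n hn => ?_
  have h3 : (((g s).1⁻¹ : kˣ) : k) = ((g s).1 : k) ^ n * ((g s).1 : k) ^ (m - 1 - n) := by
    refine Units.inv_eq_of_mul_eq_one_right ?_
    have := mem_range.1 hn
    rw [← pow_add, ← pow_succ', ← h0]
    congr 1
    omega
  rw [h3, map_mul, map_pow, map_pow]
  ring

theorem thI_diag (h : hF k σ m ∈ I) (g : σ → rootsOfUnity m k) :
    thI m univ (I.map (diagAct (σ ⊕ σ) m (Sum.elim g g))) = thI m univ I := by
  let γ := diagAct (k := k) (σ ⊕ σ) m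
  let φ := Ideal.quotientEquivAlg I (I.map (γ (Sum.elim g g)))
    (AlgEquiv.ofBijective (γ (Sum.elim g g)) (hom_bij γ _)) rfl
  have es : ∀ f x, φ (f • x) = γ (Sum.elim g g) f • φ x := fun f x => by
    obtain ⟨y, rfl⟩ := Ideal.Quotient.mk_surjective x
    exact congrArg (Ideal.Quotient.mk _) (map_mul (γ (Sum.elim g g)) f y)
  refine (theta_congr (ti_kill h) φ.toLinearEquiv (fun s => (g s).1)
    (fun s _ x => (es _ x).trans ?_) fun s _ x => (es _ x).trans ?_).1.symm
  · rw [ti_fa, Units.smul_def, smul_assoc]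
    rfl
  · rw [ti_fc, Units.smul_def, smul_assoc]
    rfl

theorem ti_fac {R : Type} [CommRing R] {J J' : Ideal R} {a : R} (h : J' = J ⊔ .span {a})
    (hl : J ≤ J') (x : R ⧸ J) : Submodule.factor hl x = 0 ↔ ∃ y, x = a • y := by
  obtain ⟨f, rfl⟩ := Ideal.Quotient.mk_surjective x
  refine Ideal.Quotient.eq_zero_iff_mem.trans ⟨fun hf => ?_, fun ⟨y, hy⟩ => ?_⟩
  · obtain ⟨u, hu, _, hv, rfl⟩ := Submodule.mem_sup.1 (h ▸ hf)
    obtain ⟨w, rfl⟩ := Ideal.mem_span_singleton'.1 hv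
    exact ⟨Ideal.Quotient.mk J w, Ideal.Quotient.eq.2 (by simpa [mul_comm] using hu)⟩
  · obtain ⟨w, rfl⟩ := Ideal.Quotient.mk_surjective y
    have : f - a * w + a * w ∈ J' := add_mem (hl (Ideal.Quotient.eq.1 hy)) (h.ge
      (Ideal.mem_sup_right (Ideal.mul_mem_right w _ (Ideal.mem_span_singleton_self a))))
    rwa [sub_add_cancel] at this

theorem ti_reg {R : Type} [CommRing R] {J : Ideal R} {a : R} (h : ∀ x, a * x ∈ J → x ∈ J)
    (x : R ⧸ J) (hx : a • x = 0) : x = 0 := by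
  obtain ⟨f, rfl⟩ := Ideal.Quotient.mk_surjective x
  exact Ideal.Quotient.eq_zero_iff_mem.2 (h f (Ideal.Quotient.eq_zero_iff_mem.1 hx))

theorem thI_ci (h : ∀ x, hF k σ m * x ∈ I → x ∈ I) :
    thI m univ (I ⊔ .span {hF k σ m}) = 0 :=
  (theta_ci (M := MvPolynomial (σ ⊕ σ) k ⧸ I) (M' := _ ⧸ (I ⊔ .span {hF k σ m})) (ti_reg h)
    (Submodule.factor le_sup_left)
    (Submodule.factor_surjective _) (ti_fac rfl _)).2

/-- the ideal of the powers of the variables outside `A`. -/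
noncomputable def tiJ (k : Type) [Field k] (n : σ → ℕ) (A : Finset σ) : Ideal (MvPolynomial σ k) :=
  .span {f | ∃ r, r ∉ A ∧ f = X r ^ n r}

theorem ti_rank (n : σ → ℕ) : FiniteDimensional k (MvPolynomial σ k ⧸ tiJ k n ∅) ∧
    Module.finrank k (MvPolynomial σ k ⧸ tiJ k n ∅) = ∏ s, n s := by
  let ι : ((s : σ) → Fin (n s)) → σ →₀ ℕ := fun e => Finsupp.equivFunOnFinite.symm fun s => e s
  have hι : Injective ι := fun e e' h => funext fun s => Fin.ext (DFunLike.congr_fun h s)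
  let l : MvPolynomial σ k →ₗ[k] ((s : σ) → Fin (n s)) → k := LinearMap.pi fun e => lcoeff k (ι e)
  have h1 : Surjective l := fun v => ⟨∑ e, monomial (ι e) (v e), funext fun e => by
    simp [l, coeff_monomial, hι.eq_iff]⟩
  have h2 : LinearMap.ker l = (tiJ k n ∅).restrictScalars k := Submodule.ext fun f => by
    have : tiJ k n ∅ = Ideal.span ((fun d => monomial d (1 : k)) ''
        Set.range fun r => Finsupp.single r (n r)) := by
      rw [← Set.range_comp, tiJ]
      congr 1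
      ext f
      simp [X_pow_eq_monomial, eq_comm]
    rw [Submodule.restrictScalars_mem, this, mem_ideal_span_monomial_image, LinearMap.mem_ker]
    refine ⟨fun h d hd => ?_, fun h => funext fun e => ?_⟩
    · by_contra hn
      have h3 : ∀ s, d s < n s := fun s => lt_of_not_ge fun e =>
        hn ⟨_, ⟨s, rfl⟩, Finsupp.single_le_iff.2 e⟩
      refine mem_support_iff.1 hd (Eq.trans ?_ (congrFun h fun s => ⟨d s, h3 s⟩))
      exact congrArg (coeff · f) (Finsupp.ext fun _ => rfl)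
    · by_contra hn
      obtain ⟨_, ⟨s, rfl⟩, hs⟩ := h _ (mem_support_iff.2 hn)
      exact (e s).2.not_ge (Finsupp.single_le_iff.1 hs)
  let φ := (Submodule.Quotient.restrictScalarsEquiv k (tiJ k n ∅)).symm.trans
    ((Submodule.quotEquivOfEq _ _ h2.symm).trans (l.quotKerEquivOfSurjective h1))
  exact ⟨Module.Finite.equiv φ.symm, by rw [φ.finrank_eq]; simp⟩

theorem ti_ind (n : σ → ℕ) (a c : σ → MvPolynomial σ k) (ε : σ → Prop) [DecidablePred ε]
    (h : ∀ s, ∃ u : k, u ≠ 0 ∧ if ε s then a s = 0 ∧ c s = C u * X s ^ n s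
      else c s = 0 ∧ a s = C u * X s ^ n s) (A : Finset σ) :
    ThFin (MvPolynomial σ k ⧸ tiJ k n A) k A a c ∧ theta (MvPolynomial σ k ⧸ tiJ k n A) k A a c =
      (∏ s ∈ A, if ε s then -1 else 1) * ∏ s, (n s : ℤ) := by
  induction A using Finset.induction_on with
  | empty => exact ⟨theta_empty.2 (ti_rank n).1, by rw [theta_empty.1, (ti_rank n).2]; simp⟩
  | insert s A hs ih =>
    obtain ⟨u, hu, h1⟩ := h s
    have h0 : ∀ x : MvPolynomial σ k ⧸ tiJ k n (insert s A),
        (∑ r ∈ insert s A, a r * c r) • x = 0 := fun x => by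
      rw [sum_eq_zero fun r _ => ?_, zero_smul]
      obtain ⟨_, -, h2⟩ := h r
      split_ifs at h2 <;> simp [h2.1]
    have h2 : tiJ k n A = tiJ k n (insert s A) ⊔ .span {C u * X s ^ n s} := by
      rw [Ideal.span_singleton_mul_left_unit (hu.isUnit.map C), tiJ, tiJ, ← Ideal.span_union]
      congr 1
      ext f
      constructor
      · rintro ⟨r, hr, rfl⟩
        rcases eq_or_ne r s with rfl | e
        · exact .inr rfl
        · exact .inl ⟨r, by simp [e, hr], rfl⟩
      · rintro (⟨r, hr, rfl⟩ | rfl)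
        · exact ⟨r, fun e => hr (mem_insert_of_mem e), rfl⟩
        · exact ⟨s, hs, rfl⟩
    have h3 : ∀ x, C u * X s ^ n s * x ∈ tiJ k n (insert s A) → x ∈ tiJ k n (insert s A) := by
      intro x hx
      rcases Nat.eq_zero_or_pos (n s) with e | e
      · rwa [e, pow_zero, mul_one, Ideal.unit_mul_mem_iff_mem _ (hu.isUnit.map C)] at hx
      refine reg_fresh _ s ?_ e (ψ := 0) (by simpa using e) hu.isUnit x (by rwa [add_zero])
      rintro _ ⟨r, hr, rfl⟩ hv
      have := vars_pow _ _ hv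
      rw [vars_X, mem_singleton] at this
      exact hr (this ▸ mem_insert_self s A)
    have hl : tiJ k n (insert s A) ≤ tiJ k n A := h2 ▸ le_sup_left
    rw [← erase_insert hs] at ih
    rw [prod_insert hs, mul_assoc, ← erase_insert hs, ← ih.2, erase_insert hs]
    rw [erase_insert hs] at ih
    split_ifs at h1 ⊢
    · have := kz_c h0 (mem_insert_self s A) (h1.2 ▸ ti_reg h3) (Submodule.factor hl)
        (Submodule.factor_surjective _) (h1.2 ▸ ti_fac h2 hl) (by rw [erase_insert hs]; exact ih.1)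
      rwa [erase_insert hs, ← neg_one_mul] at this
    · have := kz_a h0 (mem_insert_self s A) (h1.2 ▸ ti_reg h3) (Submodule.factor hl)
        (Submodule.factor_surjective _) (h1.2 ▸ ti_fac h2 hl) (by rw [erase_insert hs]; exact ih.1)
      rwa [erase_insert hs, ← one_mul (theta _ k A a c)] at this

open Classical in
theorem thI_gam (hm : (m : k) ≠ 0) (g : σ → rootsOfUnity m k) :
    thI m univ (gamI m g) = ∏ s, if g s = 1 then 1 - (m : ℤ) else 1 := by
  have h0 : 0 < m := Nat.pos_of_ne_zero fun e => hm (by simp [e])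
  let n : σ → ℕ := fun s => if g s = 1 then m - 1 else 1
  let ψ : MvPolynomial (σ ⊕ σ) k →ₐ[k] MvPolynomial σ k :=
    aeval (Sum.elim X fun s => C (((g s).1 : kˣ) : k) * X s)
  have hJ : tiJ k n univ = ⊥ := Ideal.span_eq_bot.2 fun _ ⟨r, hr, _⟩ => (hr (mem_univ r)).elim
  let φ : (MvPolynomial (σ ⊕ σ) k ⧸ gamI m g) ≃ₐ[k] MvPolynomial σ k ⧸ tiJ k n univ :=
    AlgEquiv.ofAlgHom
      (Ideal.Quotient.liftₐ _ ((Ideal.Quotient.mkₐ k _).comp ψ) fun a ha =>
        (Ideal.span_le.2 (by rintro _ ⟨s, rfl⟩; simp [ψ, RingHom.mem_ker]) :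
          gamI m g ≤ RingHom.ker ((Ideal.Quotient.mkₐ k (tiJ k n univ)).comp ψ)) ha)
      (Ideal.Quotient.liftₐ _ ((Ideal.Quotient.mkₐ k _).comp (rename Sum.inl)) fun a ha => by
        rw [hJ, Ideal.mem_bot] at ha
        rw [ha, map_zero])
      (Ideal.Quotient.algHom_ext k (algHom_ext fun s => by simp [ψ]))
      (Ideal.Quotient.algHom_ext k (algHom_ext fun s => by
        rcases s with s | s
        · simp [ψ]
        · have : Ideal.Quotient.mk (gamI m g) (X (.inr s)) =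
              Ideal.Quotient.mk _ (C (((g s).1 : kˣ) : k) * X (.inl s)) :=
            Ideal.Quotient.eq.2 (Ideal.subset_span ⟨s, rfl⟩)
          refine Eq.trans ?_ this.symm
          change Ideal.Quotient.mk (gamI m g) (rename Sum.inl (ψ (X (.inr s)))) = _
          simp [ψ]))
  have es : ∀ f x, φ (f • x) = ψ f • φ x := fun f x => by
    obtain ⟨y, rfl⟩ := Ideal.Quotient.mk_surjective x
    exact congrArg (Ideal.Quotient.mk _) (map_mul ψ f y)
  have ea : ∀ s, ψ (fa k s) = C (1 - (((g s).1 : kˣ) : k)) * X s := fun s => by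
    simp [ψ, fa, sub_mul]
  have ec : ∀ s, ψ (fc k m s) = C (∑ i ∈ range m, (((g s).1 : kˣ) : k) ^ i) * X s ^ (m - 1) :=
    fun s => by
      rw [← sum_range_reflect, map_sum, sum_mul, fc, map_sum]
      refine sum_congr rfl fun i hi => ?_
      have := mem_range.1 hi
      simp only [ψ, map_mul, map_pow, aeval_X, Sum.elim_inl, Sum.elim_inr, mul_pow]
      rw [mul_left_comm, ← pow_add]
      congr 2
      omega
  have h1 := ti_ind n (fun s => ψ (fa k s)) (fun s => ψ (fc k m s)) (fun s => g s = 1)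
    (fun s => ?_) univ
  · rw [thI, (theta_congr (fun x => φ.injective ?_) φ.toLinearEquiv 1
      (fun s _ x => (es _ x).trans (one_smul _ _).symm)
      fun s _ x => (es _ x).trans (by rw [Pi.one_apply, inv_one, one_smul]; rfl)).1, h1.2,
      ← prod_mul_distrib]
    · refine prod_congr rfl fun s _ => ?_
      by_cases h : g s = 1
      · simp [n, h, Nat.cast_pred h0]
      · simp [n, h]
    · rw [es, map_zero, map_sum, sum_eq_zero fun s _ => ?_, zero_smul]
      have h2 : ((g s).1 : k) ^ m = 1 := (mem_rootsOfUnity' _ _).1 (g s).2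
      simp only [ψ, fa_mul_fc, map_sub, map_pow, aeval_X, Sum.elim_inl, Sum.elim_inr, mul_pow]
      rw [← map_pow, h2, map_one, one_mul, sub_self]
  · by_cases h : g s = 1
    · exact ⟨m, hm, by simp [ea, ec, n, h]⟩
    · have h2 : (((g s).1 : kˣ) : k) ≠ 1 := fun e => h (Subtype.ext (Units.ext e))
      refine ⟨1 - (g s).1, sub_ne_zero.2 h2.symm, ?_⟩
      rw [if_neg h, ea, ec, geom_sum_eq h2, (mem_rootsOfUnity' _ _).1 (g s).2]
      simp [n, h]

variable {ω : kˣ →* ℂˣ} {c : σ → ℤ}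

theorem ti_hF (η : σ ⊕ σ → rootsOfUnity m k) : diagAct (σ ⊕ σ) m η (hF k σ m) = hF k σ m := by
  simp only [hF, fa_mul_fc, map_sum, map_sub, diagAct_X_pow]

theorem lact_hF (g : σ → rootsOfUnity m k) : lact m g (hF k σ m) = hF k σ m := ti_hF _

theorem ti_mem (h : hF k σ m ∈ I) (η : σ ⊕ σ → rootsOfUnity m k) :
    hF k σ m ∈ I.map (diagAct (σ ⊕ σ) m η) := ti_hF η ▸ Ideal.mem_map_of_mem _ h

theorem ti_map {ρ : Type} (J : Ideal (MvPolynomial ρ k)) (η η' : ρ → rootsOfUnity m k) :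
    (J.map (diagAct ρ m η)).map (diagAct ρ m η') = J.map (diagAct ρ m (η' * η)) := by
  rw [map_algHom_comp, map_mul]
  rfl

theorem ti_lact (g h : σ → rootsOfUnity m k) :
    (I.map (lact m g)).map (lact m h) = I.map (lact m (h * g)) :=
  (ti_map I _ _).trans (congrArg (fun η => I.map (diagAct (σ ⊕ σ) m η))
    (funext fun y => by rcases y with s | s <;> simp))

theorem exists_thb (hm : (m : k) ≠ 0) (ω : kˣ →* ℂˣ) (c : σ → ℤ) :
    ∃ Θ : K (MvPolynomial (σ ⊕ σ) k ⧸ Ideal.span {hF k σ m}) →ₗ[ℂ] ℂ, ∀ I, hF k σ m ∈ I →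
      Θ (q (I.map (Ideal.Quotient.mk _))) = thb ω m c I := by
  haveI : NeZero m := ⟨fun e => hm (by simp [e])⟩
  letI := Fintype.ofFinite (σ → rootsOfUnity m k)
  choose Θ hΘ using fun g : σ → rootsOfUnity m k => ti_lift hm
    ((Ideal.Quotient.mkₐ k (Ideal.span {hF k σ m})).comp (lact m g⁻¹))
    (Ideal.Quotient.mk_surjective.comp (hom_bij (diagAct (σ ⊕ σ) m) _).2)
    (Ideal.Quotient.eq_zero_iff_mem.2 ((lact_hF g⁻¹).symm ▸ Ideal.mem_span_singleton_self _))
  refine ⟨∑ g, chis ω m c g⁻¹ • Θ g, fun I hI => ?_⟩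
  rw [thb, finsum_eq_sum_of_fintype, LinearMap.sum_apply]
  refine sum_congr rfl fun g _ => congrArg (_ * ·) (hΘ g _ _ fun f => (ti_mk hI _).trans
    ⟨fun hf => ?_, fun hf => ?_⟩)
  · have : lact m g (lact m g⁻¹ f) ∈ I.map (lact m g) := Ideal.mem_map_of_mem _ hf
    rwa [lact, lact, ← AlgHom.mul_apply, ← map_mul, show Sum.elim g 1 * Sum.elim g⁻¹ 1 = 1 from
      funext fun y => by rcases y with s | s <;> simp, map_one, AlgHom.one_apply] at this
  · have := Ideal.mem_map_of_mem (lact m g⁻¹) hf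
    rwa [ti_lact, inv_mul_cancel, lact, show Sum.elim (1 : σ → rootsOfUnity m k) 1 = 1 from
      funext fun y => by rcases y with s | s <;> rfl, map_one,
      show I.map (1 : _ →ₐ[k] _) = I from Ideal.map_id I] at this

theorem thb_lact (hm : (m : k) ≠ 0) (g : σ → rootsOfUnity m k) :
    thb ω m c (I.map (lact m g)) = chis ω m c g * thb ω m c I := by
  haveI : NeZero m := ⟨fun e => hm (by simp [e])⟩
  letI := Fintype.ofFinite (σ → rootsOfUnity m k)
  rw [thb, thb, finsum_eq_sum_of_fintype, finsum_eq_sum_of_fintype, mul_sum]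
  refine Fintype.sum_equiv (Equiv.mulRight g) _ _ fun h => ?_
  rw [ti_lact, Equiv.coe_mulRight, ← mul_assoc, ← map_mul, mul_inv_rev, mul_inv_cancel_left]

theorem thb_ract (hm : (m : k) ≠ 0) (h : hF k σ m ∈ I) (g : σ → rootsOfUnity m k) :
    thb ω m c (I.map (diagAct (σ ⊕ σ) m (Sum.elim 1 g))) = chis ω m c g⁻¹ * thb ω m c I := by
  rw [← thb_lact hm, thb, thb]
  refine finsum_congr fun h' => congrArg (fun z : ℤ => _ * (z : ℂ)) ?_
  rw [lact, lact, ← thI_diag (ti_mem (ti_mem h (Sum.elim g⁻¹ 1)) (Sum.elim h' 1)) g, ti_map,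
    ti_map, ti_map]
  refine congrArg (fun η => thI m univ (I.map (diagAct (σ ⊕ σ) m η))) (funext fun y => ?_)
  rcases y with s | s
  · simp
  · simp

theorem thb_ci (h : ∀ x, hF k σ m * x ∈ I → x ∈ I) :
    thb ω m c (I ⊔ .span {hF k σ m}) = 0 := by
  refine finsum_eq_zero_of_forall_eq_zero fun g => ?_
  rw [Ideal.map_sup, Ideal.map_span, Set.image_singleton, lact_hF, thI_ci fun x hx => ?_,
    Int.cast_zero, mul_zero]
  have hb : Bijective (lact m g) := hom_bij (diagAct (k := k) (σ ⊕ σ) m) _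
  obtain ⟨y, rfl⟩ := hb.2 x
  rw [← lact_hF g, ← map_mul] at hx
  obtain ⟨z, hz, e⟩ := (Ideal.mem_map_iff_of_surjective _ hb.2).1 hx
  exact Ideal.mem_map_of_mem _ (h y (hb.1 e ▸ hz))

theorem ti_fix {ρ : Type} {J : Ideal (MvPolynomial ρ k)} (η : ρ → rootsOfUnity m k)
    (h : ∀ y, η y = 1 ∨ X y ∈ J) : J.map (diagAct ρ m η) = J := by
  have key : ∀ f, Ideal.Quotient.mk J (diagAct ρ m η f) = Ideal.Quotient.mk J f :=
    DFunLike.congr_fun (algHom_ext (f := (Ideal.Quotient.mkₐ k J).comp (diagAct ρ m η))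
      (g := Ideal.Quotient.mkₐ k J) fun y => by
        rcases h y with e | e
        · simp [e]
        · simp [Ideal.Quotient.eq_zero_iff_mem.2 e])
  refine le_antisymm (Ideal.map_le_iff_le_comap.2 fun f hf => ?_) fun f hf => ?_
  · rwa [Ideal.mem_comap, ← Ideal.Quotient.eq_zero_iff_mem, key, Ideal.Quotient.eq_zero_iff_mem]
  · obtain ⟨y, rfl⟩ := (hom_bij (diagAct ρ m) η).2 f
    rw [← Ideal.Quotient.eq_zero_iff_mem, key, Ideal.Quotient.eq_zero_iff_mem] at hf
    exact Ideal.mem_map_of_mem _ hf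

variable [IsAlgClosed k]

theorem chi_ne (hm : (m : k) ≠ 0) (hω : Injective ω) {a : ℤ} (ha : ¬(m : ℤ) ∣ a) :
    ∃ ζ : rootsOfUnity m k, chi ω m a ζ ≠ 1 := by
  haveI : NeZero m := ⟨fun e => hm (by simp [e])⟩
  haveI : NeZero (m : k) := ⟨hm⟩
  obtain ⟨z, hz⟩ := HasEnoughRootsOfUnity.exists_primitiveRoot k m
  refine ⟨hz.toRootsOfUnity, fun h => ha ?_⟩
  rw [chi_apply, ← Units.val_zpow_eq_zpow_val, Units.val_eq_one, ← map_zpow,
    map_eq_one_iff ω hω] at h
  exact (hz.zpow_eq_one_iff_dvd a).1 (by simpa using congrArg Units.val h)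

theorem thb_var (hm : (m : k) ≠ 0) (hω : Injective ω) (h : hF k σ m ∈ I) {s : σ}
    (hc : ¬(m : ℤ) ∣ c s) (hs : X (.inl s) ∈ I ∨ X (.inr s) ∈ I) : thb ω m c I = 0 := by
  obtain ⟨ζ, hζ⟩ := chi_ne hm hω hc
  have h1 : chis ω m c (Pi.mulSingle s ζ) ≠ 1 := by
    rwa [chis_apply, prod_eq_single s (fun j _ hj => by simp [Pi.mulSingle_eq_of_ne hj])
      (by simp), Pi.mulSingle_eq_same]
  refine eq_zero_of_mul_eq_self_left h1 ?_
  rcases hs with hs | hs
  · rw [← thb_lact hm, lact, ti_fix]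
    rintro (r | r)
    · rcases eq_or_ne r s with rfl | e
      · exact .inr hs
      · exact .inl (Pi.mulSingle_eq_of_ne e _)
    · exact .inl rfl
  · rw [← inv_inv (Pi.mulSingle s ζ : σ → rootsOfUnity m k), ← thb_ract hm h, ti_fix]
    rintro (r | r)
    · exact .inl rfl
    · rcases eq_or_ne r s with rfl | e
      · exact .inr hs
      · exact .inl (inv_eq_one.2 (Pi.mulSingle_eq_of_ne e _))

theorem thb_gam (hm : (m : k) ≠ 0) (hω : Injective ω) (hc : ∀ s, ¬(m : ℤ) ∣ c s)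
    (g : σ → rootsOfUnity m k) :
    thb ω m c (gamI m g) = (-(m : ℂ)) ^ Fintype.card σ * chis ω m c g := by
  classical
  haveI : NeZero m := ⟨fun e => hm (by simp [e])⟩
  letI := Fintype.ofFinite (rootsOfUnity m k)
  have h1 : ∀ h : σ → rootsOfUnity m k, (gamI m 1).map (lact m h) = gamI m h := fun h => by
    rw [gamI, Ideal.map_span, ← Set.range_comp]
    exact congrArg (fun f => Ideal.span (Set.range f)) (funext fun s => by simp [lact])
  rw [← h1, thb_lact hm, mul_comm, thb, finsum_eq_sum_of_fintype]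
  congr 1
  have h2 : ∀ s, ∑ ζ : rootsOfUnity m k, chi ω m (c s) ζ⁻¹ * (if ζ = 1 then 1 - (m : ℂ) else 1) =
      -m := fun s => by
    obtain ⟨ζ, hζ⟩ := chi_ne hm hω (hc s)
    have h3 := sum_hom_units_eq_zero (chi ω m (c s)) fun e => hζ (by rw [e]; rfl)
    rw [← Equiv.sum_comp (Equiv.inv _)] at h3
    rw [sum_congr rfl (g := fun ζ => chi ω m (c s) ζ⁻¹ - if ζ = 1 then (m : ℂ) else 0)
      fun ζ _ => by split_ifs with e <;> simp [e], sum_sub_distrib]
    simpa using h3
  rw [← card_univ, ← prod_const, ← prod_congr rfl fun s _ => h2 s, prod_univ_sum,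
    Fintype.piFinset_univ]
  refine sum_congr rfl fun h _ => ?_
  rw [h1, thI_gam hm, chis_apply, prod_mul_distrib]
  push_cast
  rfl

end Pool.Agent.Lib.MP_40dc3c_ag.P
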