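import Pool.Agent.Lib.MP_40dc3c_ag.P.Gra
import Pool.Agent.Lib.MP_40dc3c_ag.P.Mx
import Pool.Agent.Lib.MP_40dc3c_ag.P.Rc
import Pool.Agent.Lib.MP_40dc3c_ag.P.Sv
import Pool.Agent.Lib.MP_40dc3c_ag.P.Ti

/-! The intersection matrix of a family of patterns. -/

namespace Pool.Agent.Lib.MP_40dc3c_ag.P

open MvPolynomial Finset Function Filter T

variable {k : Type} [Field k] {σ τ : Type} [Fintype σ] [Fintype τ] {b : σ → τ} {m : ℕ}

theorem Subv.hg {V : Ideal (MvPolynomial σ k)} {e : ℕ} (h : Subv b m V e) : Hg b V := h.2.1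

theorem Subv.FI_le {V : Ideal (MvPolynomial σ k)} {e : ℕ} (h : Subv b m V e) : FI k b m ≤ V :=
  Ideal.span_le.2 (by rintro _ ⟨t, rfl⟩; exact h.2.2.1 t)

omit [Fintype σ] [Fintype τ] in
theorem gr_map (V : Ideal (MvPolynomial σ k)) (g h : σ → rootsOfUnity m k) :
    (V.map (diagAct σ m h)).map (diagAct σ m g) = V.map (diagAct σ m (g * h)) := by
  rw [map_mul]
  exact Ideal.map_map (diagAct σ m h).toRingHom (diagAct σ m g).toRingHom

omit [Fintype σ] [Fintype τ] in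
theorem gr_one (V : Ideal (MvPolynomial σ k)) : V.map (diagAct σ m 1) = V := by
  rw [map_one]
  exact Ideal.map_id V

omit [Fintype τ] in
theorem Sec.I_congr {T : Finset τ} (D : Sec b T) {e e' : τ → k} (h : ∀ t, t ∉ T → e t = e' t)
    (P : Ideal (MvPolynomial {s // b s ∈ T} k)) : D.I m e P = D.I m e' P := by
  have : {f | ∃ t, t ∉ T ∧ f = D.φ m e t} = {f | ∃ t, t ∉ T ∧ f = D.φ m e' t} := by
    ext f
    exact exists_congr fun t => and_congr_right fun ht => by rw [Sec.φ, Sec.φ, h t ht]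
  rw [Sec.I, Sec.I, this]

omit [Fintype τ] in
theorem Sec.X_mem {T : Finset τ} (D : Sec b T) (e : τ → k)
    (P : Ideal (MvPolynomial {s // b s ∈ T} k)) {s : σ} (h : b s ∉ T) (h' : s ∉ D.R (b s)) :
    X s ∈ D.I m e P :=
  Ideal.mem_sup_left (Ideal.mem_sup_right (Ideal.subset_span ⟨s, h, h', rfl⟩))

omit [Fintype σ] [Fintype τ] in
theorem chi_dvd (ω : kˣ →* ℂˣ) {a : ℤ} (h : (m : ℤ) ∣ a) (ζ : rootsOfUnity m k) :
    chi ω m a ζ = 1 := by
  obtain ⟨c, rfl⟩ := h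
  rw [chi_apply, zpow_mul, zpow_natCast, ← Units.val_pow_eq_pow_val, ← map_pow,
    (mem_rootsOfUnity _ _).1 ζ.2, map_one, Units.val_one, one_zpow]

theorem gr_tend (j₀ : τ → ℤ) : ∀ᶠ N : ℕ in atTop, j₀ ≤ fun _ => (N : ℤ) :=
  (eventually_all.2 fun t => tendsto_natCast_atTop_atTop.eventually_ge_atTop (j₀ t)).mono
    fun _ h => h

variable [LinearOrder σ] [DecidableEq τ] (hm : (m : k) ≠ 0)

omit [DecidableEq τ] in
theorem gr_off {T T' : Finset τ} (D : Sec b T) (D' : Sec b T') {e e' : τ → k}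
    {P : Ideal (MvPolynomial {s // b s ∈ T} k)} {P' : Ideal (MvPolynomial {s // b s ∈ T'} k)}
    (hV : Hg b (D.I m e P)) (hW : Hg b (D'.I m e' P')) (h1 : FI k b m ≤ D.I m e P)
    (h2 : FI k b m ≤ D'.I m e' P') {t : τ} (ht : t ∉ T) (ht' : t ∉ T')
    (h : #(D.R t ∩ D'.R t) ≤ 1) : ∀ᶠ N : ℕ in atTop,
      EI b m hm (D.I m e P) (D'.I m e' P') (fun _ => N) = 0 := by
  classical
  have key : ∀ s, b s = t → s ∉ D.R t ∩ D'.R t → X s ∈ D.I m e P ⊔ D'.I m e' P' := by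
    rintro s rfl hs
    rcases not_and_or.1 (mem_inter.not.1 hs) with h | h
    · exact Ideal.mem_sup_left (D.X_mem e P ht h)
    · exact Ideal.mem_sup_right (D'.X_mem e' P' ht' h)
  obtain ⟨L, hL⟩ := EI_dis hm hV hW h1 h2 t fun s hs => by
    by_cases h0 : s ∈ D.R t ∩ D'.R t
    · refine ⟨m, ?_⟩
      have hf : fer k b m t ∈ D.I m e P ⊔ D'.I m e' P' :=
        Ideal.mem_sup_left (h1 (Ideal.subset_span ⟨t, rfl⟩))
      rw [fer, ← add_sum_erase _ _ (show s ∈ _ by simpa using hs)] at hf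
      refine (Ideal.add_mem_iff_left _ (Ideal.sum_mem _ fun r hr => Ideal.pow_mem_of_mem _
        (key r (by simpa using (mem_erase.1 hr).2) fun h3 => (mem_erase.1 hr).1
          (card_le_one.1 h _ h3 _ h0)) _ (Nat.pos_of_ne_zero fun e => hm (by simp [e])))).1 hf
    · exact ⟨1, by rw [pow_one]; exact key s hs h0⟩
  exact (tendsto_natCast_atTop_atTop.eventually_ge_atTop L).mono fun N h => hL _ h

variable [IsAlgClosed k] {ω : kˣ →* ℂˣ} [Fintype (σ → rootsOfUnity m k)]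

theorem gr_diag (hω : Injective ω) {T : Finset τ} (D D' : Sec b T)
    (hc : ∀ t, t ∉ T → #(D.R t) + #(D'.R t) = #(blk b t) + 2) (h3 : ∀ t, 3 ≤ #(blk b t))
    {e : τ → k} (he : ∀ t, e t ^ m = -1) {P : Ideal (MvPolynomial {s // b s ∈ T} k)}
    (hP : Hg (bT b T) P) (h1 : FI k (bT b T) m ≤ P) (c : σ → ℤ)
    (hc' : ∀ s, (m : ℤ) ∣ c s ↔ b s ∉ T) (hθ : thb ω m (fun s => c s.1) (two P P) ≠ 0) :
    ∃ C : ℂ, C ≠ 0 ∧ ∀ᶠ N : ℕ in atTop, ∑ g, chis ω m c g⁻¹ *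
      EI b m hm ((D.I m e P).map (diagAct σ m g)) (D'.I m e P) (fun _ => N) = C := by
  classical
  have m0 : m ≠ 0 := fun e => hm (by simp [e])
  have : NeZero m := ⟨m0⟩
  have := Fintype.ofFinite (rootsOfUnity m k)
  have mC : (m : ℂ) ^ #T ≠ 0 := pow_ne_zero _ (Nat.cast_ne_zero.2 m0)
  let E := (Equiv.piEquivPiSubtypeProd (fun s => b s ∈ T) fun _ => rootsOfUnity m k).symm
  let ε (g : σ → rootsOfUnity m k) (t : τ) : k :=
    e t * (((g (D.w t)).1 : kˣ) : k) * (((g (D.y t))⁻¹.1 : kˣ) : k)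
  have hε : ∀ g t, ε g t ^ m = -1 := fun g t => by
    rw [mul_pow, mul_pow, he, (mem_rootsOfUnity' _ _).1 (g (D.w t)).2,
      (mem_rootsOfUnity' _ _).1 (g (D.y t))⁻¹.2, mul_one, mul_one]
  choose j₀ hj using fun v : {s // ¬b s ∈ T} → rootsOfUnity m k => mix hm hω D D' hc h3
    (hε (E (1, v))) he hP hP h1 h1 (fun s => c s.1) fun s h => (hc' s.1).1 h s.2
  refine ⟨Fintype.card ({s // ¬b s ∈ T} → rootsOfUnity m k) * (((m : ℂ) ^ #T)⁻¹ * ((-1) ^ #T *
    (∏ t ∈ Tᶜ, (D.ν D' m t : ℂ)) * thb ω m (fun s => c s.1) (two P P))),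
    mul_ne_zero (Nat.cast_ne_zero.2 Fintype.card_ne_zero) (mul_ne_zero (inv_ne_zero mC)
      (mul_ne_zero (mul_ne_zero (pow_ne_zero _ (by simp)) (prod_ne_zero_iff.2 fun t _ => ?_)) hθ)),
    (eventually_all.2 fun v => gr_tend (j₀ v)).mono fun N hN => ?_⟩
  · rw [Sec.ν]
    split_ifs <;> simp [m0]
  rw [← Equiv.sum_comp E, Fintype.sum_prod_type_right, ← nsmul_eq_mul, ← card_univ, ← sum_const]
  refine sum_congr rfl fun v _ => ?_
  rw [← hj v _ (hN v), inv_mul_cancel_left₀ mC, finsum_eq_sum_of_fintype]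
  refine sum_congr rfl fun u _ => ?_
  have e1 : (fun s : {s // b s ∈ T} => E (u, v) s.1) = u := funext fun s => by simp [E, s.2]
  have e2 : ∀ s, b s ∉ T → E (u, v) s = E (1, v) s := fun s h => by simp [E, h]
  have e3 : chis ω m c (E (u, v))⁻¹ = chis ω m (fun s : {s // b s ∈ T} => c s.1) u⁻¹ := by
    rw [chis_apply, chis_apply, ← Fintype.prod_subtype_mul_prod_subtype (fun s => b s ∈ T),
      prod_eq_one (s := (univ : Finset {s // ¬b s ∈ T})) fun s _ => chi_dvd ω ((hc' _).2 s.2) _,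
      mul_one]
    exact prod_congr (by congr) fun s _ => by rw [Pi.inv_apply, Pi.inv_apply, congrFun e1 s]
  rw [e3, Sec.I_map, e1, D.I_congr (e' := ε (E (1, v))) fun t ht => by
    rw [e2 _ (by rwa [D.blk (D.hw t)]), e2 _ (by rwa [D.blk (D.hy t)])]]

omit [DecidableEq τ] [Fintype τ] [Fintype (σ → rootsOfUnity m k)] in
include hm in
theorem gr_chi (hω : Injective ω) {c c' : σ → ℤ} (h : chis ω m c = chis ω m c') (s : σ) :
    (m : ℤ) ∣ c s - c' s := by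
  by_contra h0
  obtain ⟨ζ, hζ⟩ := chi_ne hm hω h0
  have e : ∀ c : σ → ℤ, chis ω m c (Pi.mulSingle s ζ) = chi ω m (c s) ζ := fun c => by
    rw [chis_apply, Fintype.prod_eq_single s fun r hr => by rw [Pi.mulSingle_eq_of_ne hr, map_one],
      Pi.mulSingle_eq_same]
  have := DFunLike.congr_fun h (Pi.mulSingle s ζ)
  rw [e, e, chi_apply, chi_apply] at this
  exact hζ (by rw [chi_apply, zpow_sub₀ (Units.ne_zero _), this, div_self
    (zpow_ne_zero _ (Units.ne_zero _))])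

omit [Fintype (σ → rootsOfUnity m k)] in
include hm in
theorem gram (hω : Injective ω) (h3 : ∀ t, 3 ≤ #(blk b t)) {ι : Type} [Fintype ι] [DecidableEq ι]
    (T : ι → Finset τ) (c : ι → σ → ℤ) (D D' : ∀ i, Sec b (T i))
    (P : ∀ i, Ideal (MvPolynomial {s // b s ∈ T i} k)) (e₀ : ι → ℕ) {dv dw : ℕ}
    (hP : ∀ i, Subv (bT b (T i)) m (P i) (e₀ i))
    (hθ : ∀ i, thb ω m (fun s => c i s.1) (two (P i) (P i)) ≠ 0)
    (hc : ∀ i s, (m : ℤ) ∣ c i s ↔ b s ∉ T i)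
    (hR : ∀ i t, t ∉ T i → #((D i).R t) + #((D' i).R t) = #(blk b t) + 2)
    (hv : ∀ i, e₀ i + ∑ t ∈ (T i)ᶜ, (#((D i).R t) - 2) = dv)
    (hw : ∀ i, e₀ i + ∑ t ∈ (T i)ᶜ, (#((D' i).R t) - 2) = dw)
    (ho : ∀ i i', i ≠ i' → (∀ s, (m : ℤ) ∣ c i s - c i' s) →
      ∃ t, t ∉ T i ∧ t ∉ T i' ∧ #((D i).R t ∩ (D' i').R t) ≤ 1) :
    ∃ (V W : ι → Ideal (MvPolynomial σ k)) (M : Matrix ι ι ℚ),
      (∀ a, Subv b m (V a) dv ∧ Subv b m (W a) dw) ∧ (∀ a a', Inter b m (V a) (W a') (M a a')) ∧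
      M.det ≠ 0 := by
  have m0 : m ≠ 0 := fun e => hm (by simp [e])
  have : NeZero m := ⟨m0⟩
  have := Fintype.ofFinite (σ → rootsOfUnity m k)
  obtain ⟨z, hz⟩ := IsAlgClosed.exists_pow_nat_eq (-1 : k) (Nat.pos_of_ne_zero m0)
  have hb : Surjective b := fun t => by
    obtain ⟨s, hs⟩ := card_pos.1 (show 0 < #(blk b t) by have := h3 t; omega)
    exact ⟨s, by simpa [blk] using hs⟩
  let V (u : ι × (σ → rootsOfUnity m k)) := ((D u.1).I m (fun _ => z) (P u.1)).map (diagAct σ m u.2)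
  let W (u : ι × (σ → rootsOfUnity m k)) := ((D' u.1).I m (fun _ => z) (P u.1)).map (diagAct σ m u.2)
  have hV : ∀ u, Subv b m (V u) dv := fun u =>
    hv u.1 ▸ subv_map ((D u.1).subv hm (fun _ => hz) (hP u.1)) u.2
  have hW : ∀ u, Subv b m (W u) dw := fun u =>
    hw u.1 ▸ subv_map ((D' u.1).subv hm (fun _ => hz) (hP u.1)) u.2
  choose Q hQ hQ' using fun u u' => exists_inter hm hb (hV u).hg (hW u').hg (hV u).FI_le
    (hW u').FI_le
  have hE : ∀ u u', Ev (fun N => EI b m hm (V u) (W u') fun _ => N) ((Q u u').eval 0) :=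
    fun u u' => ⟨_, rfl, hQ' u u'⟩
  obtain ⟨a, a', h⟩ := gr_abs (fun i => chis ω m (c i)) (fun u u' => (Q u u').eval 0)
    (fun i i' g h => (hE _ _).uniq (by
      have := hE (i, h) (i', 1)
      simp only [← EI_diag hm (hV (i, h)).hg (hW (i', 1)).hg (hV _).FI_le (hW _).FI_le g, V, W,
        gr_map, mul_one] at this
      exact this))
    (fun i => by
      obtain ⟨C, h0, h1⟩ := gr_diag hm hω (D i) (D' i) (hR i) h3 (fun _ => hz) (hP i).hg
        (hP i).FI_le (c i) (hc i) (hθ i)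
      rw [ev_sum _ _ _ (fun h => hE (i, h) (i, 1)) C (by simpa only [V, W, gr_one] using h1)]
      exact h0)
    fun i i' h1 h2 => by
      obtain ⟨t, t1, t2, t3⟩ := ho i i' h1 (gr_chi hm hω h2)
      refine ev_sum _ _ _ (fun h => hE (i, h) (i', 1)) 0 ((eventually_all.2 fun g =>
        (?_ : ∀ᶠ N : ℕ in atTop, EI b m hm (V (i, g)) (W (i', 1)) (fun _ => N) = 0)).mono
        fun N h => sum_eq_zero fun g _ => by rw [h g, Int.cast_zero, mul_zero])
      have v := hV (i, g)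
      have w := hW (i', 1)
      simp only [V, W, Sec.I_map] at v w ⊢
      exact gr_off hm _ _ v.hg w.hg v.FI_le w.FI_le t1 t2 t3
  exact ⟨fun i => V (a i), fun i => W (a' i), _, fun i => ⟨hV _, hW _⟩, fun i i' => hQ _ _, h⟩

end Pool.Agent.Lib.MP_40dc3c_ag.P
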