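import Mathlib

/-! A nonzero minor from orthogonality of characters; values of eventual polynomials. -/

namespace Pool.Agent.Lib.MP_40dc3c_ag.P

open Finset Filter

theorem gr_rows {α τ : Type} [Fintype α] [Fintype τ] [DecidableEq τ] (A : Matrix τ α ℂ)
    (N : Matrix α τ ℂ) (h : (A * N).det ≠ 0) : ∃ a : τ → α, (N.submatrix a id).det ≠ 0 := by
  classical
  by_contra hc
  push Not at hc
  apply h
  have e : A * N = fun i => ∑ j, A i j • N j := by
    ext i j
    simp [Matrix.mul_apply]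
  have key := (Matrix.detRowAlternating (R := ℂ) (n := τ)).toMultilinearMap.map_sum
    (fun i j => A i j • N j)
  refine (congrArg Matrix.det e).trans (key.trans (Finset.sum_eq_zero fun a _ => ?_))
  rw [MultilinearMap.map_smul_univ]
  exact smul_eq_zero_of_right _ (hc a)

theorem gr_minor {α β τ : Type} [Fintype α] [Fintype β] [Fintype τ] [DecidableEq τ]
    (M : Matrix α β ℚ) (A : Matrix τ α ℂ) (B : Matrix β τ ℂ)
    (h : (A * M.map (Rat.cast : ℚ → ℂ) * B).det ≠ 0) :
    ∃ (a : τ → α) (b : τ → β), (M.submatrix a b).det ≠ 0 := by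
  rw [Matrix.mul_assoc] at h
  obtain ⟨a, ha⟩ := gr_rows _ _ h
  have e : ((M.map (Rat.cast : ℚ → ℂ) * B).submatrix a id).transpose =
      B.transpose * ((M.map (Rat.cast : ℚ → ℂ)).submatrix a id).transpose := by
    ext i j
    simp [Matrix.mul_apply, mul_comm]
  rw [← Matrix.det_transpose, e] at ha
  obtain ⟨b, hb⟩ := gr_rows _ _ ha
  refine ⟨a, b, fun h0 => hb ?_⟩
  have := (Rat.castHom ℂ).map_det (M.submatrix a b)
  rw [h0, map_zero, ← Matrix.det_transpose] at this
  exact this.symm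

theorem gr_abs {G ι : Type} [CommGroup G] [Fintype G] [Fintype ι] [DecidableEq ι]
    (χ : ι → G →* ℂ) (x : Matrix (ι × G) (ι × G) ℚ)
    (hx : ∀ i i' g h, x (i, g * h) (i', g) = x (i, h) (i', 1))
    (hd : ∀ i, ∑ h, χ i h⁻¹ * x (i, h) (i, 1) ≠ 0)
    (ho : ∀ i i', i ≠ i' → χ i = χ i' → ∑ h, χ i h⁻¹ * x (i, h) (i', 1) = 0) :
    ∃ a b : ι → ι × G, (x.submatrix a b).det ≠ 0 := by
  refine gr_minor x (fun i u => if u.1 = i then χ i u.2⁻¹ else 0)
    (fun u i => if u.1 = i then χ i u.2 else 0) ?_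
  have key : ∀ i i', ∑ g', (∑ g, χ i g⁻¹ * x (i, g) (i', g')) * χ i' g' =
      (∑ g', χ i g'⁻¹ * χ i' g') * ∑ h, χ i h⁻¹ * x (i, h) (i', 1) := fun i i' => by
    rw [sum_mul]
    refine sum_congr rfl fun g' _ => ?_
    rw [← Equiv.sum_comp (Equiv.mulLeft g'), sum_mul, mul_sum]
    refine sum_congr rfl fun h _ => ?_
    rw [Equiv.coe_mulLeft, hx, mul_inv, map_mul]
    ring
  have e : (Matrix.of (fun i (u : ι × G) => if u.1 = i then χ i u.2⁻¹ else 0) *
      x.map (Rat.cast : ℚ → ℂ) * Matrix.of fun (u : ι × G) i => if u.1 = i then χ i u.2 else 0) =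
      Matrix.diagonal fun i => (Fintype.card G : ℂ) * ∑ h, χ i h⁻¹ * x (i, h) (i, 1) := by
    ext i i'
    simp only [Matrix.mul_apply, Matrix.of_apply, Matrix.map_apply, Fintype.sum_prod_type, ite_mul,
      zero_mul, mul_ite, mul_zero, sum_ite_irrel, sum_const_zero, sum_ite_eq', mem_univ, if_true]
    rw [key, Matrix.diagonal_apply]
    split_ifs with h
    · subst h
      simp only [← map_mul, inv_mul_cancel, map_one, sum_const, card_univ, nsmul_eq_mul, mul_one]
    · by_cases h' : χ i = χ i'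
      · rw [ho i i' h h', mul_zero]
      · have := sum_hom_units_eq_zero ((χ i).comp invMonoidHom * χ i') fun e => h' (by
          ext g
          have h1 : χ i g⁻¹ * χ i' g = 1 := DFunLike.congr_fun e g
          rw [← mul_one (χ i g), ← h1, ← mul_assoc, ← map_mul, mul_inv_cancel, map_one, one_mul])
        exact mul_eq_zero_of_left this _
  refine fun h => ?_
  have h2 := (congrArg Matrix.det e).symm.trans h
  rw [Matrix.det_diagonal, prod_eq_zero_iff] at h2
  obtain ⟨i, -, hi⟩ := h2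
  exact mul_ne_zero (Nat.cast_ne_zero.2 Fintype.card_ne_zero) (hd i) hi

/-- the sequence is eventually a polynomial with value `x` at zero. -/
def Ev (F : ℕ → ℤ) (x : ℚ) : Prop :=
  ∃ P : Polynomial ℚ, P.eval 0 = x ∧ ∀ᶠ N : ℕ in atTop, (F N : ℚ) = P.eval (N : ℚ)

theorem ev_sum {ι : Type} [Fintype ι] (a : ι → ℂ) (F : ι → ℕ → ℤ) (x : ι → ℚ)
    (h : ∀ i, Ev (F i) (x i)) (C : ℂ) (hC : ∀ᶠ N in atTop, ∑ i, a i * F i N = C) :
    ∑ i, a i * x i = C := by
  choose P h0 h1 using h
  have e : ∀ i (y : ℚ), ((P i).map (Rat.castHom ℂ)).eval (y : ℂ) = ((P i).eval y : ℚ) :=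
    fun i y => Polynomial.eval_map_apply (Rat.castHom ℂ) y
  have key : ∑ i, Polynomial.C (a i) * (P i).map (Rat.castHom ℂ) = Polynomial.C C := by
    refine Polynomial.eq_of_infinite_eval_eq _ _ ?_
    obtain ⟨N, hN⟩ := eventually_atTop.1 (hC.and (eventually_all.2 h1))
    refine Set.infinite_of_injective_forall_mem (f := fun n : ℕ => ((n + N : ℕ) : ℂ))
      (fun n n' h => by simpa using h) fun n => ?_
    obtain ⟨h2, h3⟩ := hN (n + N) (by omega)
    rw [Set.mem_ofPred_eq, Polynomial.eval_C, ← h2, Polynomial.eval_finsetSum]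
    refine sum_congr rfl fun i _ => ?_
    rw [Polynomial.eval_mul, Polynomial.eval_C, ← Rat.cast_natCast, e, ← h3 i, Rat.cast_intCast]
  have := congrArg (Polynomial.eval ((0 : ℚ) : ℂ)) key
  rw [Polynomial.eval_C, Polynomial.eval_finsetSum] at this
  rw [← this]
  exact sum_congr rfl fun i _ => by rw [Polynomial.eval_mul, Polynomial.eval_C, e, h0]

theorem Ev.uniq {F : ℕ → ℤ} {x y : ℚ} (h : Ev F x) (h' : Ev F y) : x = y := by
  have := ev_sum ![1, -1] (fun _ => F) ![x, y] (Fin.forall_fin_two.2 ⟨h, h'⟩) 0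
    (Eventually.of_forall fun N => by simp)
  simp only [Fin.sum_univ_two, Matrix.cons_val_zero, Matrix.cons_val_one, one_mul, neg_mul,
    ← sub_eq_add_neg, sub_eq_zero] at this
  exact_mod_cast this

end Pool.Agent.Lib.MP_40dc3c_ag.P
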