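import Pool.Agent.Lib.MP_40dc3c_ag.P.Haa

/-! The triangles between the truncations of the Tate complex. -/

namespace Pool.Agent.Lib.MP_40dc3c_ag.P

open MvPolynomial Finset Function

set_option linter.unusedSectionVars false

variable {k : Type} [Field k] {σ τ ρ : Type} [LinearOrder σ] [Fintype σ] [Fintype τ] [Finite ρ]
  {M : Type} [AddCommGroup M] [Module (MvPolynomial ρ k) M] [Module k M]
  [IsScalarTower k (MvPolynomial ρ k) M] {D : Dat k σ τ ρ} {pc : (τ → ℤ) → Submodule k M}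
  {A : Finset σ} {ε : τ → Ty}

/-- shifting the exponents. -/
theorem hS_shift {S S' : Set (Finset σ × (τ → ℤ))} {j j' : τ → ℤ}
    (hS : IsCx (Equiv.addRight (1 : ℤ)) (D.d M S) (D.U pc S j)) (t : τ)
    (h : ∀ I J, (I, J + et t) ∈ S ↔ (I, J) ∈ S') (hj : j' = j - (D.m : ℤ) • et t) (i : ℤ) :
    D.hS pc S j i = D.hS pc S' j' (i - 2) := by
  subst hj
  have key (i : ℤ) (v : (τ → ℤ) → Finset σ → M) : v ∈ D.U pc S j i ↔
      (fun J => v (J + et t)) ∈ D.U pc S' (j - (D.m : ℤ) • et t) (i - 2) := by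
    rw [mem_U, mem_U, ← (Equiv.addRight (et t)).forall_congr_right]
    refine forall₂_congr fun J I => ?_
    have e1 : j - ∑ s ∈ I, wt D.b s - (D.m : ℤ) • (J + et t) =
        j - (D.m : ℤ) • et t - ∑ s ∈ I, wt D.b s - (D.m : ℤ) • J := by module
    have e2 : ((#I : ℤ) + 2 * ∑ t', (J + et t) t' = i) ↔ (#I : ℤ) + 2 * ∑ t', J t' = i - 2 := by
      simp only [Pi.add_apply, sum_add_distrib, sum_wt id t]
      omega
    rw [Equiv.coe_addRight, e1, e2, h]
  refine hd_congr (nx' := Equiv.addRight (1 : ℤ)) (f := LinearMap.funLeft k _ (· + et t)) hS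
    (· - 2) (fun i => by simp only [Equiv.coe_addRight]; ring) (fun i => ⟨fun v hv => ?_,
      fun v _ w _ e => ?_, fun w hw => ⟨fun J => w (J - et t), ?_, ?_⟩⟩) 1 (fun i v _ => ?_) i
  · exact (key i v).1 hv
  · ext1 J
    simpa using congrFun e (J - et t)
  · exact (key i _).2 (by simpa using hw)
  · ext1 J
    simp
  · ext J I
    rw [one_smul, LinearMap.funLeft_apply, d_at, d_at, h, td_at, td_at]
    simp only [LinearMap.funLeft_apply, add_right_comm J (et t)]

theorem hh_per (G : IsGM D.β pc) (h : D.OK M A ε) {t : τ} (ht : ε t = .all) (j : τ → ℤ) (i : ℤ) :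
    D.hh pc A ε (j + (D.m : ℤ) • et t) (i + 2) = D.hh pc A ε j i := by
  refine (hS_shift (S' := SS A ε) (j' := j) (U_cx G h _) t (fun I J => and_congr_right fun _ =>
    forall_congr' fun t' => ?_) (by simp) (i + 2)).trans (by rw [add_sub_cancel_right]; rfl)
  by_cases e : t' = t
  · rw [e, ht]
    rfl
  · simp [wt, e]

theorem Dat.OK.erase (h : D.OK M A ε) {s : σ} (ht : ε (D.b s) = .zero) :
    D.OK M (A.erase s) ε := fun t => by
  by_cases e : ε t = .zero
  · exact .inl e
  · obtain ⟨a, b⟩ := (h t).resolve_left e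
    exact .inr ⟨fun r hr => mem_erase.2 ⟨fun e' => e (by rw [← hr, e', ht]), a r hr⟩, b⟩

theorem hS_io {s : σ} (hs : s ∈ A) {j : τ → ℤ}
    (hS : IsCx (Equiv.addRight (1 : ℤ)) (D.d M {p ∈ SS A ε | s ∈ p.1})
      (D.U pc {p ∈ SS A ε | s ∈ p.1} j)) (i : ℤ) :
    D.hS pc {p ∈ SS A ε | s ∈ p.1} j i = D.hh pc (A.erase s) ε (j - wt D.b s) (i - 1) := by
  have hi {I : Finset σ} (J : τ → ℤ) (h : s ∉ I) :
      (insert s I, J) ∈ {p ∈ SS A ε | s ∈ p.1} ↔ (I, J) ∈ SS (A.erase s) ε := by
    simp [SS, insert_subset_iff, subset_erase, hs, h]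
  refine hd_congr (nx' := Equiv.addRight (1 : ℤ))
    (U' := D.U pc (SS (A.erase s) ε) (j - wt D.b s)) (f := ((io (MvPolynomial ρ k) M s).restrictScalars k).compLeft _) hS
    (· - 1) (fun i => by simp only [Equiv.coe_addRight]; ring) (fun i => ⟨fun v hv J I => ?_,
      fun v hv w hw e => ?_, fun w hw => ⟨fun J => ep (MvPolynomial ρ k) M s (w J),
        fun J I => ?_, ?_⟩⟩) (-1) (fun i v hv => ?_) i
  · change io (MvPolynomial ρ k) M s (v J) I ∈ _ ∧ (_ → io (MvPolynomial ρ k) M s (v J) I = 0)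
    rw [io_apply]
    split_ifs with e
    · exact ⟨zero_mem _, fun _ => rfl⟩
    refine ⟨zsmul_mem ?_ _, fun e' => ?_⟩
    · convert (hv J (insert s I)).1 using 2
      rw [sum_insert e]
      module
    · rw [(hv J (insert s I)).2 fun e'' => e' ⟨(hi J e).1 e''.1, ?_⟩, smul_zero]
      have := e''.2
      rw [card_insert_of_notMem e] at this
      push_cast at this
      omega
  · ext J I
    by_cases hI : s ∈ I
    · have a := congrFun (io_ep (E := MvPolynomial ρ k) s s (v J)) I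
      have b := congrFun (io_ep (E := MvPolynomial ρ k) s s (w J)) I
      have c : io (MvPolynomial ρ k) M s (v J) = io (MvPolynomial ρ k) M s (w J) := congrFun e J
      rw [if_pos rfl, Pi.add_apply, io_apply, if_pos hI] at a b
      rw [← a, ← b, c]
    · rw [U_out hv (p := (I, J)) fun e => hI e.2, U_out hw (p := (I, J)) fun e => hI e.2]
  · simp only [ep_apply]
    split_ifs with e
    swap
    · exact ⟨zero_mem _, fun _ => rfl⟩
    refine ⟨zsmul_mem ?_ _, fun e' => ?_⟩
    · convert (hw J (I.erase s)).1 using 2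
      rw [← add_sum_erase I _ e]
      module
    · rw [(hw J (I.erase s)).2 fun e'' => e' ⟨?_, ?_⟩, smul_zero]
      · simpa only [insert_erase e] using (hi J (notMem_erase s I)).2 e''.1
      · have := e''.2
        rw [← card_erase_add_one e]
        push_cast
        omega
  · ext J I
    change io (MvPolynomial ρ k) M s (ep (MvPolynomial ρ k) M s (w J)) I = _
    have a := congrFun (io_ep (E := MvPolynomial ρ k) s s (w J)) I
    by_cases hI : s ∈ I
    · rw [io_apply, if_pos hI, U_out hw (p := (I, J)) fun e => notMem_erase s A (e.1 hI)]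
    · rwa [if_pos rfl, Pi.add_apply, ep_apply s (io _ M s _), if_neg hI, add_zero] at a
  · ext J I
    change io (MvPolynomial ρ k) M s (D.d M _ v J) I =
      ((-1 : kˣ) • D.d M _ (fun J => io (MvPolynomial ρ k) M s (v J))) J I
    rw [Units.neg_smul, one_smul, Pi.neg_apply, Pi.neg_apply, d_at, io_apply]
    by_cases hI : s ∈ I
    · rw [if_pos hI, if_neg fun e => notMem_erase s A (e.1 hI), neg_zero]
    rw [if_neg hI, d_at, hi J hI]
    split_ifs with e
    swap
    · rw [smul_zero, neg_zero]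
    have a := congrFun (td_io D.b D.a D.c s v J) I
    rw [Pi.add_apply, Pi.smul_apply, U_out hv (p := (I, J + wt D.b s)) fun e => hI e.2, smul_zero,
      io_apply, if_neg hI] at a
    exact eq_neg_of_add_eq_zero_right a

theorem tri_peel (G : IsGM D.β pc) (h : D.OK M A ε) {s : σ} (hs : s ∈ A)
    (ht : ε (D.b s) = .zero) (j : τ → ℤ) :
    Tri (D.hh pc (A.erase s) ε j) (D.hh pc A ε j)
      fun i => D.hh pc (A.erase s) ε (j - wt D.b s) (i - 1) := by
  obtain ⟨c, e⟩ := tri_cut G (S₁ := SS (A.erase s) ε) (S₂ := {p ∈ SS A ε | s ∈ p.1}) (U_cx G h j)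
    (fun p hp => ⟨hp.1.trans (erase_subset _ _), hp.2⟩)
    (fun p => and_congr_right fun hp => ⟨fun a b => notMem_erase s A (b.1 a), fun a =>
      by_contra fun b => a ⟨subset_erase.2 ⟨hp.1, b⟩, hp.2⟩⟩) fun p hp q hq hpq => by
      refine ⟨subset_erase.2 ⟨hq.1, fun a => ?_⟩, hq.2⟩
      obtain ⟨r, ⟨-, rfl⟩ | ⟨-, rfl⟩⟩ := hpq
      · exact notMem_erase s A (hp.1 (mem_insert_of_mem a))
      · by_cases b : s = r
        · have a1 := hp.2 (D.b s)
          have a2 := hq.2 (D.b s)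
          rw [ht] at a1 a2
          simp only [Ty.ok, ← b, Pi.add_apply, wt_self] at a1 a2
          omega
        · exact notMem_erase s A (hp.1 (mem_erase.2 ⟨b, a⟩))
  rwa [funext (hS_io hs c)] at e

variable [DecidableEq τ]

theorem mem_SS_update {t : τ} {x : Ty} (h : ∀ a, x.ok a → (ε t).ok a)
    {p : Finset σ × (τ → ℤ)} : p ∈ SS A (update ε t x) ↔ p ∈ SS A ε ∧ x.ok (p.2 t) := by
  refine ⟨fun hp => ?_, fun hp => ⟨hp.1.1, fun t' => ?_⟩⟩
  · have a : x.ok (p.2 t) := by simpa using hp.2 t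
    refine ⟨⟨hp.1, fun t' => ?_⟩, a⟩
    by_cases e : t' = t
    · exact e ▸ h _ a
    · simpa [e] using hp.2 t'
  · by_cases e : t' = t
    · simpa [e] using hp.2
    · simpa [e] using hp.1.2 t'

theorem tri_add (G : IsGM D.β pc) (h : D.OK M A ε) {t : τ} (ht : ε t = .all) (j : τ → ℤ) :
    Tri (D.hh pc A (update ε t .neg) j) (D.hh pc A ε j) (D.hh pc A (update ε t .pos) j) := by
  have a (x : Ty) (p) := mem_SS_update (A := A) (ε := ε) (t := t) (x := x) (p := p)
    fun _ _ => by rw [ht]; trivial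
  exact (tri_cut G (S₁ := SS A (update ε t .neg)) (S₂ := SS A (update ε t .pos)) (U_cx G h j)
    (fun p hp => ((a _ p).1 hp).1) (fun p => by
      rw [a, a]
      exact and_congr_right fun hp => by simp [Ty.ok, hp]) fun p hp q hq hpq =>
    (a _ q).2 ⟨hq, (hpq.le t).trans_lt ((a _ p).1 hp).2⟩).2

theorem tri_pos (G : IsGM D.β pc) (h : D.OK M A ε) {t : τ} (ht : ε t = .pos) (j : τ → ℤ) :
    Tri (D.hh pc A (update ε t .zero) j) (D.hh pc A ε j)
      fun i => D.hh pc A ε (j - (D.m : ℤ) • et t) (i - 2) := by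
  have a (p) := mem_SS_update (A := A) (ε := ε) (t := t) (x := .zero) (p := p)
    fun _ e => by rw [ht]; exact e.ge
  have b {p : Finset σ × (τ → ℤ)} (hp : p ∈ SS A ε) : 0 ≤ p.2 t := by
    have := hp.2 t
    rwa [ht] at this
  obtain ⟨c, e⟩ := tri_cut G (S₁ := SS A (update ε t .zero)) (S₂ := {p ∈ SS A ε | p.2 t ≠ 0})
    (U_cx G h j) (fun p hp => ((a p).1 hp).1) (fun p => by
      rw [a]
      exact and_congr_right fun hp => by simp [Ty.ok, hp]) fun p hp q hq hpq =>
    (a q).2 ⟨hq, le_antisymm ((hpq.le t).trans ((a p).1 hp).2.le) (b hq)⟩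
  rwa [funext (hS_shift (S' := SS A ε) c t (fun I J => ?_) rfl)] at e
  have e1 : (J + et t) t = J t + 1 := congrArg (J t + ·) (wt_self id t)
  have e2 (t' : τ) (h : t' ≠ t) : (J + et t) t' = J t' := by simp [wt, h]
  refine ⟨fun hp => ⟨hp.1.1, fun t' => ?_⟩, fun hp => ⟨⟨hp.1, fun t' => ?_⟩, ?_⟩⟩
  · by_cases e : t' = t
    · have := b hp.1
      have := hp.2
      simp only [e, ht, Ty.ok, e1] at *
      omega
    · simpa only [e2 t' e] using hp.1.2 t'
  · by_cases e : t' = t
    · have := b hp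
      simp only [e, ht, Ty.ok, e1] at *
      omega
    · simpa only [e2 t' e] using hp.2 t'
  · have := b hp
    simp only [e1] at *
    omega

end Pool.Agent.Lib.MP_40dc3c_ag.P
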