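import Pool.Agent.Lib.MP_40dc3c_ag.P.Les
import Pool.Agent.Lib.MP_40dc3c_ag.P.Car
import Pool.Agent.Lib.MP_40dc3c_ag.P.Gm

/-! The truncations of the Tate complex are complexes; closed parts give triangles. -/

namespace Pool.Agent.Lib.MP_40dc3c_ag.P

open MvPolynomial Finset Function

set_option linter.unusedSectionVars false

variable {k : Type} [Field k] {σ τ ρ : Type} [LinearOrder σ] [Fintype σ] [Fintype τ] [Finite ρ]
  {M : Type} [AddCommGroup M] [Module (MvPolynomial ρ k) M] [Module k M]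
  [IsScalarTower k (MvPolynomial ρ k) M] {D : Dat k σ τ ρ} {pc : (τ → ℤ) → Submodule k M}
  {A : Finset σ} {ε : τ → Ty}

/-- the differential leads from the index `p` to the index `q`. -/
def Arr (b : σ → τ) (p q : Finset σ × (τ → ℤ)) : Prop :=
  ∃ s, (s ∉ q.1 ∧ p = (insert s q.1, q.2)) ∨ (s ∈ q.1 ∧ p = (q.1.erase s, q.2 + wt b s))

theorem td_at (v : (τ → ℤ) → Finset σ → M) (J : τ → ℤ) (I : Finset σ) :
    td M D.b D.a D.c v J I = ∑ s, (D.a s • (if s ∈ I then 0 else sg s I • v J (insert s I)) +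
      D.c s • (if s ∈ I then sg s I • v (J + wt D.b s) (I.erase s) else 0)) := by
  rw [td_apply, Finset.sum_apply]
  rfl

theorem td_congr {v w : (τ → ℤ) → Finset σ → M} {J : τ → ℤ} {I : Finset σ}
    (h : ∀ p, Arr D.b p (I, J) → v p.2 p.1 = w p.2 p.1) :
    td M D.b D.a D.c v J I = td M D.b D.a D.c w J I := by
  rw [td_at, td_at]
  refine sum_congr rfl fun s _ => ?_
  by_cases hs : s ∈ I
  · rw [if_pos hs, if_pos hs, if_pos hs, if_pos hs, h _ ⟨s, .inr ⟨hs, rfl⟩⟩]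
  · rw [if_neg hs, if_neg hs, if_neg hs, if_neg hs, h _ ⟨s, .inl ⟨hs, rfl⟩⟩]

theorem td_zero {v : (τ → ℤ) → Finset σ → M} {J : τ → ℤ} {I : Finset σ}
    (h : ∀ p, Arr D.b p (I, J) → v p.2 p.1 = 0) : td M D.b D.a D.c v J I = 0 := by
  rw [td_congr (w := 0) h, map_zero]
  rfl

open Classical in
theorem cut_at (S : Set (Finset σ × (τ → ℤ))) (v : (τ → ℤ) → Finset σ → M) (J : τ → ℤ)
    (I : Finset σ) : cut M (MvPolynomial ρ k) S v J I = if (I, J) ∈ S then v J I else 0 := rfl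

open Classical in
theorem d_at (S : Set (Finset σ × (τ → ℤ))) (v : (τ → ℤ) → Finset σ → M) (J : τ → ℤ)
    (I : Finset σ) : D.d M S v J I = if (I, J) ∈ S then td M D.b D.a D.c v J I else 0 := rfl

theorem mem_U {S : Set (Finset σ × (τ → ℤ))} {j : τ → ℤ} {i : ℤ}
    {v : (τ → ℤ) → Finset σ → M} : v ∈ D.U pc S j i ↔
      ∀ J I, v J I ∈ pc (j - ∑ s ∈ I, wt D.b s - (D.m : ℤ) • J) ∧
        (¬((I, J) ∈ S ∧ (#I : ℤ) + 2 * ∑ t, J t = i) → v J I = 0) := Iff.rfl

theorem U_out {S : Set (Finset σ × (τ → ℤ))} {j : τ → ℤ} {i : ℤ}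
    {v : (τ → ℤ) → Finset σ → M} (h : v ∈ D.U pc S j i) {p : Finset σ × (τ → ℤ)} (hp : p ∉ S) :
    v p.2 p.1 = 0 := (h p.2 p.1).2 fun e => hp e.1

omit [LinearOrder σ] [Fintype σ] in
theorem sum_wt (b : σ → τ) (s : σ) : ∑ t, wt b s t = 1 := by
  classical
  simp [wt, Pi.single_apply]

omit [LinearOrder σ] [Fintype σ] in
theorem wt_self (b : σ → τ) (s : σ) : wt b s (b s) = 1 := by simp [wt]

omit [LinearOrder σ] [Fintype σ] in
theorem wt_nonneg (b : σ → τ) (s : σ) (t : τ) : 0 ≤ wt b s t := by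
  simp only [wt, Pi.single_apply]
  split_ifs <;> simp

theorem Arr.deg {b : σ → τ} {p q : Finset σ × (τ → ℤ)} (h : Arr b p q) :
    (#p.1 : ℤ) + 2 * ∑ t, p.2 t = #q.1 + 2 * ∑ t, q.2 t + 1 := by
  obtain ⟨s, ⟨hs, rfl⟩ | ⟨hs, rfl⟩⟩ := h
  · simp only [card_insert_of_notMem hs]
    push_cast
    ring
  · simp only [Pi.add_apply, sum_add_distrib, sum_wt, ← card_erase_add_one hs]
    push_cast
    ring

theorem Arr.le {b : σ → τ} {p q : Finset σ × (τ → ℤ)} (h : Arr b p q) (t : τ) : q.2 t ≤ p.2 t := by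
  obtain ⟨s, ⟨-, rfl⟩ | ⟨-, rfl⟩⟩ := h
  · exact le_rfl
  · exact le_add_of_nonneg_right (wt_nonneg b s t)

theorem d_mem (G : IsGM D.β pc) (S : Set (Finset σ × (τ → ℤ))) (j : τ → ℤ) (i : ℤ)
    {v : (τ → ℤ) → Finset σ → M} (h : v ∈ D.U pc S j (i + 1)) : D.d M S v ∈ D.U pc S j i := by
  intro J I
  rw [d_at]
  split_ifs with hS
  swap
  · exact ⟨zero_mem _, fun _ => rfl⟩
  refine ⟨?_, fun e => td_zero fun p hp => (h p.2 p.1).2 fun e' => e ⟨hS, ?_⟩⟩
  · rw [td_at]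
    refine sum_mem fun s _ => ?_
    by_cases hs : s ∈ I
    · rw [if_pos hs, if_pos hs, smul_zero, zero_add]
      have := G.smul_hom (D.hc s) (zsmul_mem (h (J + wt D.b s) (I.erase s)).1 (sg s I))
      convert this using 2
      rw [← add_sum_erase I _ hs]
      module
    · rw [if_neg hs, if_neg hs, smul_zero, add_zero]
      have := G.smul_hom (D.ha s) (zsmul_mem (h J (insert s I)).1 (sg s I))
      convert this using 2
      rw [sum_insert hs]
      module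
  · have := hp.deg
    have := e'.2
    simp only at *
    omega

theorem U_fin (G : IsGM D.β pc) (S : Set (Finset σ × (τ → ℤ))) (j : τ → ℤ) (i : ℤ) :
    FiniteDimensional k (D.U pc S j i) := by
  classical
  obtain ⟨L, hL⟩ := G.low
  let B : τ → ℤ := fun t => max (j t - L) 0
  let F : Finset (τ → ℤ) := Icc (fun t => B t - (2 * ∑ t, B t + Fintype.card σ + |i|)) B
  have := G.fin
  refine Module.Finite.of_injective (LinearMap.pi fun p : F × Finset σ =>
    LinearMap.codRestrict (pc (j - ∑ s ∈ p.2, wt D.b s - (D.m : ℤ) • p.1.1))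
      ((LinearMap.proj p.2 ∘ₗ LinearMap.proj p.1.1) ∘ₗ (D.U pc S j i).subtype)
      fun v => (v.2 _ _).1) ((injective_iff_map_eq_zero _).2 fun v hv => ?_)
  ext J I
  by_contra h0
  have h1 : ∀ t, J t ≤ B t := fun t => by
    by_contra h
    have h2 : (0 : ℤ) ≤ ∑ s ∈ I, wt D.b s t := sum_nonneg fun s _ => wt_nonneg _ s t
    have h3 : j t - L < J t ∧ 0 < J t := max_lt_iff.1 (not_le.1 h)
    have h4 : (1 : ℤ) ≤ D.m := by exact_mod_cast D.pos
    have h5 := (v.2 J I).1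
    rw [hL _ t (by
      simp only [Pi.sub_apply, Finset.sum_apply, Pi.smul_apply, smul_eq_mul]
      nlinarith)] at h5
    exact h0 h5
  have h2 : (#I : ℤ) + 2 * ∑ t, J t = i := by
    by_contra h
    exact h0 ((v.2 J I).2 fun e => h e.2)
  have hF : J ∈ F := mem_Icc.2 ⟨fun t => by
    have h3 := single_le_sum (f := fun t => B t - J t) (fun t _ => sub_nonneg.2 (h1 t))
      (mem_univ t)
    have h4 : (#I : ℤ) ≤ Fintype.card σ := by exact_mod_cast card_le_univ I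
    have h5 := neg_abs_le i
    have h6 := h1 t
    rw [sum_sub_distrib] at h3
    simp only at h3 ⊢
    omega, h1⟩
  exact h0 (congrArg Subtype.val (congrFun hv (⟨J, hF⟩, I)))

theorem Ty.ok_mid {x : Ty} {a b c : ℤ} (ha : x.ok a) (hc : x.ok c) (h : c ≤ b) (h' : b ≤ a) :
    x.ok b := by
  cases x <;> simp only [Ty.ok] at * <;> omega

theorem SS_conv (h : D.OK M A ε) {p q r : Finset σ × (τ → ℤ)} (hp : p ∈ SS A ε)
    (hr : r ∈ SS A ε) (h1 : Arr D.b p q) (h2 : Arr D.b q r) : q ∈ SS A ε := by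
  refine ⟨?_, fun t => Ty.ok_mid (hp.2 t) (hr.2 t) (h2.le t) (h1.le t)⟩
  obtain ⟨s', ⟨-, e⟩ | ⟨-, rfl⟩⟩ := h2
  swap
  · exact (erase_subset _ _).trans hr.1
  obtain ⟨s, ⟨-, rfl⟩ | ⟨hs, rfl⟩⟩ := h1
  · exact (subset_insert _ _).trans hp.1
  rw [← insert_erase hs]
  refine insert_subset ?_ hp.1
  rcases h (D.b s) with h0 | h0
  · have a := hp.2 (D.b s)
    have b := hr.2 (D.b s)
    rw [h0] at a b
    simp only [Ty.ok, e, Pi.add_apply, wt_self] at a b
    omega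
  · exact h0.1 s rfl

theorem U_cx (G : IsGM D.β pc) (h : D.OK M A ε) (j : τ → ℤ) :
    IsCx (Equiv.addRight (1 : ℤ)) (D.d M (SS A ε)) (D.U pc (SS A ε) j) := by
  classical
  refine ⟨fun i v hv => d_mem G _ j i hv, fun i v hv => ?_⟩
  ext J I
  rw [d_at]
  split_ifs with hS
  swap
  · rfl
  rw [td_congr (w := td M D.b D.a D.c v) fun q hq => ?_, td_sq, Finset.sum_apply,
    ← sum_fiberwise univ D.b]
  · refine sum_eq_zero fun t _ => ?_
    rw [sum_congr rfl (g := fun s => (D.a s * D.c s) • v (J + et t) I) fun s hs => by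
      rw [← (mem_filter.1 hs).2]; rfl, ← sum_smul]
    rcases h t with h0 | h0
    · rw [U_out hv (p := (I, J + et t)) fun e => ?_, smul_zero]
      have a := hS.2 t
      have b := e.2 t
      rw [h0] at a b
      simp only [Ty.ok, Pi.add_apply, show et t t = 1 from wt_self id t] at a b
      omega
    · convert h0.2 (v (J + et t) I) using 2
      rw [Dat.h]
  · rw [d_at]
    split_ifs with hq'
    · rfl
    · exact (td_zero fun p hp => U_out hv fun e => hq' (SS_conv h e hS hp hq)).symm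

theorem hh_nonneg (j : τ → ℤ) (i : ℤ) : 0 ≤ D.hh pc A ε j i := hd_nonneg _ _

/-- the dimension of the homology on an index set. -/
noncomputable def Dat.hS (D : Dat k σ τ ρ) (pc : (τ → ℤ) → Submodule k M)
    (S : Set (Finset σ × (τ → ℤ))) (j : τ → ℤ) (i : ℤ) : ℤ :=
  hd (D.d M S) (D.U pc S j (i + 1)) (D.U pc S j i)

theorem U_mono {S S' : Set (Finset σ × (τ → ℤ))} (h : S' ⊆ S) (j : τ → ℤ) (i : ℤ) :
    D.U pc S' j i ≤ D.U pc S j i := fun _ hx J I =>
  ⟨(hx J I).1, fun e => (hx J I).2 fun e' => e ⟨h e'.1, e'.2⟩⟩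

theorem ses_cut {S S₁ S₂ : Set (Finset σ × (τ → ℤ))} (j : τ → ℤ) (h1 : S₁ ⊆ S)
    (h2 : ∀ p, p ∈ S₂ ↔ p ∈ S ∧ p ∉ S₁) (hc : ∀ p ∈ S₁, ∀ q ∈ S, Arr D.b p q → q ∈ S₁) :
    Ses (D.d M S₁) (D.d M S) (D.d M S₂) (D.U pc S₁ j) (D.U pc S j) (D.U pc S₂ j)
      LinearMap.id ((cut M (MvPolynomial ρ k) S₂).restrictScalars k) where
  fm i := U_mono h1 j i
  gm i y hy J I := by
    rw [LinearMap.restrictScalars_apply, cut_at]
    split_ifs with e
    · exact ⟨(hy J I).1, fun e' => (hy J I).2 fun e'' => e' ⟨e, e''.2⟩⟩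
    · exact ⟨zero_mem _, fun _ => rfl⟩
  inj _ _ _ e := e
  ex i y hy := by
    refine ⟨fun e => ⟨y, fun J I => ⟨(hy J I).1, fun e' => ?_⟩, rfl⟩, ?_⟩
    · by_cases e2 : (I, J) ∈ S₂
      · have := congrFun (congrFun e J) I
        rwa [LinearMap.restrictScalars_apply, cut_at, if_pos e2] at this
      · exact (hy J I).2 fun e'' => e' ⟨by_contra fun e3 => e2 ((h2 _).2 ⟨e''.1, e3⟩), e''.2⟩
    · rintro ⟨x, hx, rfl⟩
      ext J I
      rw [LinearMap.restrictScalars_apply, cut_at]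
      split_ifs with e
      · exact U_out hx (p := (I, J)) ((h2 _).1 e).2
      · rfl
  surj i z hz := by
    refine ⟨z, U_mono (fun p hp => ((h2 p).1 hp).1) j i hz, ?_⟩
    ext J I
    rw [LinearMap.restrictScalars_apply, cut_at]
    split_ifs with e
    · rfl
    · exact (U_out hz (p := (I, J)) e).symm
  fd i x hx := by
    ext J I
    rw [LinearMap.id_apply, LinearMap.id_apply, d_at, d_at]
    by_cases e : (I, J) ∈ S₁
    · rw [if_pos e, if_pos (h1 e)]
    · rw [if_neg e]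
      split_ifs with e'
      · exact (td_zero fun p hp => U_out hx fun e'' => e (hc p e'' _ e' hp)).symm
      · rfl
  gd i y hy := by
    ext J I
    rw [LinearMap.restrictScalars_apply, LinearMap.restrictScalars_apply, cut_at, d_at, d_at]
    by_cases e : (I, J) ∈ S₂
    · rw [if_pos e, if_pos e, if_pos ((h2 _).1 e).1]
      refine td_congr fun p hp => ?_
      rw [cut_at]
      split_ifs with e'
      · rfl
      · exact U_out hy fun e'' => e' ((h2 _).2 ⟨e'', fun e3 =>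
          ((h2 _).1 e).2 (hc p e3 _ ((h2 _).1 e).1 hp)⟩)
    · rw [if_neg e, if_neg e]

/-- a closed part of the index set gives a triangle. -/
theorem tri_cut (G : IsGM D.β pc) {S S₁ S₂ : Set (Finset σ × (τ → ℤ))} {j : τ → ℤ}
    (hS : IsCx (Equiv.addRight (1 : ℤ)) (D.d M S) (D.U pc S j)) (h1 : S₁ ⊆ S)
    (h2 : ∀ p, p ∈ S₂ ↔ p ∈ S ∧ p ∉ S₁) (hc : ∀ p ∈ S₁, ∀ q ∈ S, Arr D.b p q → q ∈ S₁) :
    IsCx (Equiv.addRight (1 : ℤ)) (D.d M S₂) (D.U pc S₂ j) ∧
      Tri (D.hS pc S₁ j) (D.hS pc S j) (D.hS pc S₂ j) := by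
  have ses := ses_cut (D := D) (pc := pc) j h1 h2 hc
  have a (S) (i : ℤ) (v) (hv : v ∈ D.U pc S j i) : D.d M S v ∈ D.U pc S j (i - 1) :=
    d_mem G S j (i - 1) (by rwa [sub_add_cancel])
  have c1 : IsCx (Equiv.addRight (1 : ℤ)) (D.d M S₁) (D.U pc S₁ j) := by
    refine ⟨fun i v hv => d_mem G _ j i hv, fun i v hv => ?_⟩
    have b1 := ses.fd _ _ (a _ i v hv)
    have b2 := ses.fd _ _ hv
    simp only [LinearMap.id_apply] at b1 b2
    rw [b1, b2]
    exact hS.sq i v (U_mono h1 j i hv)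
  have c2 : IsCx (Equiv.addRight (1 : ℤ)) (D.d M S₂) (D.U pc S₂ j) := by
    refine ⟨fun i v hv => d_mem G _ j i hv, fun i v hv => ?_⟩
    obtain ⟨y, hy, rfl⟩ := ses.surj i v hv
    rw [← ses.gd _ _ hy, ← ses.gd _ _ (a _ i y hy), hS.sq i y hy, map_zero]
  obtain ⟨α, β, γ, e⟩ := les_nat c1 hS c2 ses
    (fun i => @Hm_fin _ _ _ _ _ _ _ _ (U_fin G S₁ j i))
    fun i => @Hm_fin _ _ _ _ _ _ _ _ (U_fin G S₂ j i)
  exact ⟨c2, α, β, γ, fun i => by simpa only [Dat.hS, Equiv.coe_addRight] using e i⟩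

end Pool.Agent.Lib.MP_40dc3c_ag.P
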