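import Pool.Agent.Lib.MP_40dc3c_ag.P.Ha

/-! Change of the module and trivial vanishing. -/

namespace Pool.Agent.Lib.MP_40dc3c_ag.P

open MvPolynomial Finset Function

variable {k : Type} [Field k] {σ τ ρ : Type} [LinearOrder σ] [Fintype σ] [Fintype τ] [Finite ρ]
  {M M' M'' : Type} [AddCommGroup M] [Module (MvPolynomial ρ k) M] [Module k M]
  [IsScalarTower k (MvPolynomial ρ k) M] [AddCommGroup M'] [Module (MvPolynomial ρ k) M']
  [Module k M'] [IsScalarTower k (MvPolynomial ρ k) M'] [AddCommGroup M'']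
  [Module (MvPolynomial ρ k) M''] [Module k M''] [IsScalarTower k (MvPolynomial ρ k) M'']
  {D : Dat k σ τ ρ} {pc : (τ → ℤ) → Submodule k M} {pc' : (τ → ℤ) → Submodule k M'}
  {pc'' : (τ → ℤ) → Submodule k M''} {A : Finset σ} {ε : τ → Ty}

section aux

omit [LinearOrder σ] [Fintype σ] [Fintype τ] [Finite ρ]

/-- a linear map applied to all coefficients. -/
def hbM (σ τ : Type) (φ : M →ₗ[k] M') :
    ((τ → ℤ) → Finset σ → M) →ₗ[k] ((τ → ℤ) → Finset σ → M') where
  toFun v J I := φ (v J I)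
  map_add' v w := by ext J I; simp
  map_smul' c v := by ext J I; simp

theorem hb_pre (top : iSup pc' = ⊤) (G : IsGM D.β pc) (f : M' →ₗ[k] M) (e : τ → ℤ)
    (hf : ∀ j, ∀ x ∈ pc' j, f x ∈ pc (j + e)) {d : τ → ℤ} (x : M') (h : f x ∈ pc (d + e)) :
    ∃ x' ∈ pc' d, f x' = f x := by
  obtain ⟨π, -, h2, h3, -⟩ := G.exists_proj
  have key : ∃ x' ∈ pc' d, f x' = π (d + e) (f x) := by
    have hx : x ∈ iSup pc' := top ▸ Submodule.mem_top
    clear h
    induction hx using Submodule.iSup_induction' with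
    | mem j x hx =>
      by_cases a : j = d
      · exact ⟨x, a ▸ hx, (h2 _ _ (a ▸ hf j x hx)).symm⟩
      · exact ⟨0, zero_mem _, by
          rw [map_zero, h3 _ _ (fun b => a (add_right_cancel b).symm) _ (hf j x hx)]⟩
    | zero => exact ⟨0, zero_mem _, by simp⟩
    | add x y _ _ a b =>
      obtain ⟨x', a, a'⟩ := a
      obtain ⟨y', b, b'⟩ := b
      exact ⟨x' + y', add_mem a b, by rw [map_add, map_add, map_add, a', b']⟩
  rwa [h2 _ _ h] at key

theorem hb_wt0 (b : σ → τ) (s : σ) (t : τ) : 0 ≤ wt b s t := by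
  classical
  rw [wt, Pi.single_apply]; split_ifs <;> omega

theorem hb_wt_ne {b : σ → τ} {s : σ} {t : τ} (h : b s ≠ t) : wt b s t = 0 := by
  classical
  rw [wt, Pi.single_apply, if_neg h.symm]

theorem hb_wt_eq (b : σ → τ) (s : σ) : wt b s (b s) = 1 := by
  classical
  rw [wt, Pi.single_apply, if_pos rfl]

theorem hb_h [Fintype σ] [DecidableEq τ] (t : τ) :
    D.h t = ∑ s with D.b s = t, D.a s * D.c s := by
  rw [Dat.h]; congr

end aux

omit [Finite ρ] in
theorem hb_d (S : Set (Finset σ × (τ → ℤ))) (v : (τ → ℤ) → Finset σ → M) (J I) :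
    ((I, J) ∈ S → D.d M S v J I = td M D.b D.a D.c v J I) ∧ ((I, J) ∉ S → D.d M S v J I = 0) :=
  ⟨fun h => if_pos h, fun h => if_neg h⟩

omit [Finite ρ] [Fintype τ] in
theorem hb_td (v : (τ → ℤ) → Finset σ → M) (J I) : td M D.b D.a D.c v J I =
    ∑ s, if s ∈ I then sg s I • D.c s • v (J + wt D.b s) (I.erase s) else
      sg s I • D.a s • v J (insert s I) := by
  rw [td_apply, Finset.sum_apply]
  refine sum_congr rfl fun s _ => ?_
  rw [Pi.add_apply, Pi.smul_apply, Pi.smul_apply, io_apply, ep_apply]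
  split_ifs <;> simp [smul_comm (sg s I)]

omit [Finite ρ] in
theorem hb_map (f : M →ₗ[MvPolynomial ρ k] M') (S : Set (Finset σ × (τ → ℤ)))
    (v : (τ → ℤ) → Finset σ → M) :
    hbM σ τ (f.restrictScalars k) (D.d M S v) = D.d M' S (hbM σ τ (f.restrictScalars k) v) := by
  ext J I
  change f (D.d M S v J I) = _
  by_cases h : (I, J) ∈ S
  · rw [(hb_d S _ J I).1 h, (hb_d S _ J I).1 h, hb_td, hb_td, map_sum]
    refine sum_congr rfl fun s _ => ?_
    split_ifs <;> rw [map_zsmul, map_smul] <;> rfl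
  · rw [(hb_d S _ J I).2 h, (hb_d S _ J I).2 h, map_zero]

theorem tri_ses (G' : IsGM D.β pc') (G : IsGM D.β pc) (G'' : IsGM D.β pc'') (h : D.OK M A ε)
    (f : M' →ₗ[MvPolynomial ρ k] M) (g : M →ₗ[MvPolynomial ρ k] M'') (hf : Injective f)
    (he : Exact f g) (hg : Surjective g) (e : τ → ℤ) (hfe : ∀ j, ∀ x ∈ pc' j, f x ∈ pc (j + e))
    (hge : ∀ j, ∀ x ∈ pc j, g x ∈ pc'' j) (j : τ → ℤ) :
    Tri (D.hh pc' A ε (j - e)) (D.hh pc A ε j) (D.hh pc'' A ε j) := by
  have h' : D.OK M' A ε := fun t => (h t).imp_right fun a =>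
    ⟨a.1, fun x => hf (by rw [map_smul, a.2, map_zero])⟩
  have h'' : D.OK M'' A ε := fun t => (h t).imp_right fun a => ⟨a.1, fun x => by
    obtain ⟨y, rfl⟩ := hg x
    rw [← map_smul, a.2, map_zero]⟩
  have e1 : ∀ (J : τ → ℤ) (I : Finset σ), j - e - ∑ s ∈ I, wt D.b s - (D.m : ℤ) • J + e =
      j - ∑ s ∈ I, wt D.b s - (D.m : ℤ) • J := fun J I => by abel
  suffices S : Ses (D.d M' (SS A ε)) (D.d M (SS A ε)) (D.d M'' (SS A ε)) (D.U pc' (SS A ε) (j - e))
      (D.U pc (SS A ε) j) (D.U pc'' (SS A ε) j) (hbM σ τ (f.restrictScalars k))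
      (hbM σ τ (g.restrictScalars k)) by
    obtain ⟨α, β, γ, H⟩ := les_nat (U_cx G' h' (j - e)) (U_cx G h j) (U_cx G'' h'' j) S
      (fun i => have := U_fin G' (SS A ε) (j - e) i; Hm_fin _ _)
      fun i => have := U_fin G'' (SS A ε) j i; Hm_fin _ _
    exact ⟨α, β, γ, H⟩
  refine ⟨fun i x hx J I => ⟨?_, fun a => ?_⟩,
    fun i x hx J I => ⟨hge _ _ (hx J I).1, fun a => ?_⟩, fun i x _ a => ?_,
    fun i y hy => ⟨fun a => ?_, ?_⟩, fun i z hz => ?_, fun i x _ => hb_map f _ x,
    fun i x _ => hb_map g _ x⟩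
  · rw [← e1 J I]
    exact hfe _ _ (hx J I).1
  · exact (congrArg f ((hx J I).2 a)).trans (map_zero f)
  · exact (congrArg g ((hx J I).2 a)).trans (map_zero g)
  · ext J I
    exact hf ((congrFun (congrFun a J) I).trans (map_zero f).symm)
  · have : ∀ J I, ∃ x ∈ pc' (j - e - ∑ s ∈ I, wt D.b s - (D.m : ℤ) • J), f x = y J I := by
      intro J I
      obtain ⟨x, b⟩ := (he _).1 (congrFun (congrFun a J) I)
      obtain ⟨x', c, c'⟩ := hb_pre G'.top G (f.restrictScalars k) e hfe x
        (d := j - e - ∑ s ∈ I, wt D.b s - (D.m : ℤ) • J) (by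
          rw [e1]; exact (congrArg (· ∈ _) b).mpr (hy J I).1)
      exact ⟨x', c, c'.trans b⟩
    choose x b c using this
    exact ⟨x, fun J I => ⟨b J I, fun a => hf ((c J I).trans (((hy J I).2 a).trans
      (map_zero f).symm))⟩, funext fun J => funext fun I => c J I⟩
  · rintro ⟨x, -, rfl⟩
    ext J I
    exact he.apply_apply_eq_zero _
  · have : ∀ J I, ∃ y ∈ pc (j - ∑ s ∈ I, wt D.b s - (D.m : ℤ) • J),
        g y = z J I ∧ (z J I = 0 → y = 0) := by
      intro J I
      by_cases a : z J I = 0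
      · exact ⟨0, zero_mem _, by rw [map_zero, a], fun _ => rfl⟩
      obtain ⟨x, b⟩ := hg (z J I)
      obtain ⟨x', c, c'⟩ := hb_pre G.top G'' (g.restrictScalars k) 0
        (fun j x hx => (add_zero j).symm ▸ hge j x hx) x
        (d := j - ∑ s ∈ I, wt D.b s - (D.m : ℤ) • J) (by
          rw [add_zero]; exact (congrArg (· ∈ _) b).mpr (hz J I).1)
      exact ⟨x', c, c'.trans b, fun b => absurd b a⟩
    choose y b c d using this
    exact ⟨y, fun J I => ⟨b J I, fun a => d J I ((hz J I).2 a)⟩,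
      funext fun J => funext fun I => c J I⟩

theorem hh_inv (G : IsGM D.β pc) (h : D.OK M A ε) (φ : M ≃ₗ[k] M')
    (hφ : ∀ j x, φ x ∈ pc' j ↔ x ∈ pc j) (u : σ → kˣ)
    (ha : ∀ s ∈ A, ∀ x, φ (D.a s • x) = u s • D.a s • φ x)
    (hc : ∀ s ∈ A, ∀ x, φ (D.c s • x) = (u s)⁻¹ • D.c s • φ x) (j : τ → ℤ) (i : ℤ) :
    D.hh pc A ε j i = D.hh pc' A ε j i := by
  let F : ((τ → ℤ) → Finset σ → M) →ₗ[k] ((τ → ℤ) → Finset σ → M') :=
    { toFun := fun v J I => ((∏ s ∈ I, u s : kˣ) : k) • φ (v J I)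
      map_add' := fun v w => by ext J I; simp
      map_smul' := fun c v => by
        ext J I
        simp only [Pi.smul_apply, map_smul, RingHom.id_apply]
        exact smul_comm _ _ _ }
  have eF : ∀ v J I, F v J I = ((∏ s ∈ I, u s : kˣ) : k) • φ (v J I) := fun _ _ _ => rfl
  refine hd_congr (f := F) (nx' := Equiv.addRight (1 : ℤ)) (U' := D.U pc' (SS A ε) j)
    (U_cx G h j) id (fun _ => rfl) (fun i => ⟨fun v hv J I => ⟨?_, fun a => ?_⟩,
      fun v _ w _ a => ?_, fun z hz => ?_⟩) 1 (fun i v hv => ?_) i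
  · exact Submodule.smul_mem _ _ ((hφ _ _).2 (hv J I).1)
  · rw [eF, (hv J I).2 a, map_zero, smul_zero]
  · ext J I
    have b := congrFun (congrFun a J) I
    rw [eF, eF] at b
    exact φ.injective (smul_right_injective M' (Units.ne_zero _) b)
  · refine ⟨fun J I => φ.symm ((((∏ s ∈ I, u s)⁻¹ : kˣ) : k) • z J I),
      fun J I => ⟨(hφ _ _).1 ?_, fun a => ?_⟩, ?_⟩
    · rw [φ.apply_symm_apply]
      exact Submodule.smul_mem _ _ (hz J I).1
    · dsimp only
      rw [(hz J I).2 a, smul_zero, map_zero]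
    · ext J I
      rw [eF, φ.apply_symm_apply, smul_smul, Units.mul_inv, one_smul]
  · rw [one_smul]
    ext J I
    by_cases a : (I, J) ∈ SS A ε
    · rw [eF, (hb_d _ _ J I).1 a, (hb_d _ _ J I).1 a, hb_td, hb_td, map_sum, smul_sum]
      refine sum_congr rfl fun s _ => ?_
      split_ifs with b
      · rw [map_zsmul, hc s (a.1 b), eF, smul_comm, Units.smul_def, smul_smul,
          ← mul_prod_erase I u b, smul_comm (D.c s)]
        congr 2
        rw [← Units.val_mul, mul_inv_cancel_comm]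
      · by_cases c : s ∈ A
        · rw [map_zsmul, ha s c, eF, smul_comm, Units.smul_def, smul_smul, prod_insert b,
            smul_comm (D.a s), ← Units.val_mul, mul_comm]
        · rw [eF, (hv J _).2 fun d => c (d.1.1 (mem_insert_self _ _))]
          simp
    · rw [eF, (hb_d _ _ J I).2 a, (hb_d _ _ J I).2 a, map_zero, smul_zero]

omit [Finite ρ] in
theorem hb_dmem (G : IsGM D.β pc) (S : Set (Finset σ × (τ → ℤ))) (j : τ → ℤ) (i : ℤ)
    {v : (τ → ℤ) → Finset σ → M} (hv : v ∈ D.U pc S j i) : D.d M S v ∈ D.U pc S j (i - 1) := by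
  intro J I
  by_cases a : (I, J) ∈ S
  · rw [(hb_d _ _ J I).1 a, hb_td]
    have w : ∀ s, ∑ t, wt D.b s t = 1 := fun s => by
      rw [sum_eq_single (D.b s) (fun t _ b => hb_wt_ne b.symm) (by simp), hb_wt_eq]
    refine ⟨sum_mem fun s _ => ?_, fun b => sum_eq_zero fun s _ => ?_⟩
    · split_ifs with c
      · refine zsmul_mem ?_ _
        convert G.smul_hom (D.hc s) (hv (J + wt D.b s) (I.erase s)).1 using 2
        rw [← add_sum_erase I _ c, smul_add, sub_smul, one_smul]
        abel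
      · refine zsmul_mem ?_ _
        convert G.smul_hom (D.ha s) (hv J (insert s I)).1 using 2
        rw [sum_insert c]
        abel
    · split_ifs with c
      · rw [(hv _ _).2 fun d => b ⟨a, ?_⟩, smul_zero, smul_zero]
        have := d.2
        have := card_erase_add_one c
        simp only [Pi.add_apply, sum_add_distrib, w] at *
        omega
      · rw [(hv _ _).2 fun d => b ⟨a, ?_⟩, smul_zero, smul_zero]
        have := d.2
        have := card_insert_of_notMem c
        omega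
  · rw [(hb_d _ _ J I).2 a]
    exact ⟨zero_mem _, fun _ => rfl⟩

omit [Finite ρ] in
theorem hb_dd (hA : ∀ s, s ∉ A → ε (D.b s) = .zero) {v : (τ → ℤ) → Finset σ → M}
    (hv : ∀ J I, (I, J) ∉ SS A ε → v J I = 0) {J : τ → ℤ} {I : Finset σ} (h : (I, J) ∈ SS A ε) :
    D.d M (SS A ε) (D.d M (SS A ε) v) J I = ∑ s, (D.a s * D.c s) • v (J + wt D.b s) I := by
  have key : ∀ J : τ → ℤ, (∀ t, ε t = .pos ∨ ε t = .zero → 0 ≤ J t) →
      D.d M (SS A ε) v J = td M D.b D.a D.c v J := by
    intro J hJ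
    ext I
    by_cases a : (I, J) ∈ SS A ε
    · exact (hb_d _ _ J I).1 a
    rw [(hb_d _ _ J I).2 a, hb_td]
    refine (sum_eq_zero fun s _ => ?_).symm
    split_ifs with c
    · rw [hv _ _ fun d => a ?_, smul_zero, smul_zero]
      have d2 : ∀ t, (ε t).ok (J t + wt D.b s t) := d.2
      have z : ε (D.b s) ≠ .zero := fun z => by
        have p := d2 (D.b s)
        have q := hJ _ (.inr z)
        rw [z, hb_wt_eq] at p
        have : J (D.b s) + 1 = 0 := p
        omega
      refine ⟨fun r hr => ?_, fun t => ?_⟩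
      · by_cases b : r = s
        · exact b ▸ by_contra fun n => z (hA s n)
        · exact d.1 (mem_erase.2 ⟨b, hr⟩)
      · have p := d2 t
        have q := hJ t
        have r := hb_wt0 D.b s t
        by_cases b : D.b s = t
        · subst b
          revert z p q
          cases ε (D.b s) <;> simp [Ty.ok]
          omega
        · rwa [hb_wt_ne b, add_zero] at p
    · rw [hv _ _ fun d => a ⟨(subset_insert _ _).trans d.1, d.2⟩, smul_zero, smul_zero]
  have lo : ∀ t, ε t = .pos ∨ ε t = .zero → 0 ≤ J t := fun t a => by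
    have p : (ε t).ok (J t) := h.2 t
    rcases a with a | a <;> rw [a] at p
    · exact p
    · exact Eq.ge p
  rw [(hb_d _ _ J I).1 h, td_apply]
  simp only [key J lo, fun s => key (J + wt D.b s) fun t a => add_nonneg (lo t a) (hb_wt0 _ s t)]
  rw [← td_apply, td_sq, Finset.sum_apply]
  rfl

/-- a module that is cut out by the form of a block. -/
theorem hh_ci [DecidableEq τ] (G : IsGM D.β pc) {t : τ} (ht : ε t = .all)
    (hA : ∀ s, D.b s = t → s ∈ A) (h : D.OK M A (update ε t .zero))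
    (hi : ∀ x : M, D.h t • x = 0 → x = 0) (g : M →ₗ[MvPolynomial ρ k] M')
    (hk : ∀ x, g x = 0 ↔ ∃ y, x = D.h t • y)
    (hg : ∀ j, pc' j = (pc j).map (g.restrictScalars k)) (j : τ → ℤ) (i : ℤ) :
    D.hh pc' A ε j i = 0 := by
  refine (hd_eq_zero fun z hz dz => ?_).1
  have h1 : ∀ r, r ≠ t → ε r = .zero ∨ (∀ s, D.b s = r → s ∈ A) ∧ ∀ x : M, D.h r • x = 0 :=
    fun r a => by have := h r; rwa [update_of_ne a] at this
  have hA' : ∀ s, s ∉ A → ε (D.b s) = .zero := fun s a =>
    (h1 _ fun b => a (hA s b)).resolve_right fun b => a (b.1 s rfl)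
  have sh : ∀ (J : τ → ℤ) (I : Finset σ) (n : ℤ), (I, J + n • et t) ∈ SS A ε ↔ (I, J) ∈ SS A ε :=
    fun J I n => and_congr_right fun _ => forall_congr' fun r => by
      by_cases a : t = r
      · subst a; rw [ht]; exact Iff.rfl
      · change (ε r).ok (J r + n * wt id t r) ↔ _
        rw [hb_wt_ne (b := id) a, mul_zero, add_zero]
  have we : ∑ r, et t r = 1 := by
    rw [sum_eq_single t (fun r _ b => hb_wt_ne (b := id) b.symm) (by simp)]
    exact hb_wt_eq id t
  have hh : (D.h t).IsWeightedHomogeneous (wt D.β) ((D.m : ℤ) • et t) :=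
    hb_h (D := D) t ▸ (weightedHomogeneousSubmodule k _ _).sum_mem fun s hs => by
      have e : wt D.b s = et t := by rw [← (mem_filter.1 hs).2]; rfl
      have := (D.ha s).mul (D.hc s)
      rwa [sub_smul, one_smul, add_sub_cancel, e] at this
  have l1 : ∀ J I, ∃ y ∈ pc (j - ∑ s ∈ I, wt D.b s - (D.m : ℤ) • J),
      g y = z J I ∧ (z J I = 0 → y = 0) := by
    intro J I
    by_cases a : z J I = 0
    · exact ⟨0, zero_mem _, by rw [map_zero, a], fun _ => rfl⟩
    have b := (hz J I).1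
    rw [hg] at b
    obtain ⟨y, b, c⟩ := b
    exact ⟨y, b, c, fun b => absurd b a⟩
  choose v v1 v2 v3 using l1
  have hv : v ∈ D.U pc (SS A ε) j i := fun J I => ⟨v1 J I, fun a => v3 J I ((hz J I).2 a)⟩
  have v0 : ∀ J I, (I, J) ∉ SS A ε → v J I = 0 := fun J I a => (hv J I).2 fun b => a b.1
  have gv : hbM σ τ (g.restrictScalars k) v = z := funext fun J => funext fun I => v2 J I
  have dv := hb_dmem G _ j i hv
  have l2 : ∀ J I, ∃ y ∈ pc (j - ∑ s ∈ I, wt D.b s - (D.m : ℤ) • (J + et t)),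
      D.h t • y = D.d M (SS A ε) v J I := by
    intro J I
    have a := congrFun (congrFun (hb_map (D := D) g (SS A ε) v) J) I
    rw [gv, dz] at a
    obtain ⟨y, b⟩ := (hk _).1 a
    obtain ⟨y', c, c'⟩ := hb_pre G.top G ((LinearMap.lsmul _ M (D.h t)).restrictScalars k)
      ((D.m : ℤ) • et t) (fun j x hx => G.smul_hom hh hx) y
      (d := j - ∑ s ∈ I, wt D.b s - (D.m : ℤ) • (J + et t)) (by
        have := (dv J I).1
        rw [b] at this
        convert this using 2
        · rw [smul_add]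
          abel
        · rfl)
    exact ⟨y', c, c'.trans b.symm⟩
  choose w w1 w2 using l2
  have dw : ∀ J I, D.d M (SS A ε) w J I = v (J + et t) I := by
    intro J I
    by_cases a : (I, J) ∈ SS A ε
    · refine sub_eq_zero.1 (hi _ ?_)
      have e : D.h t • w = D.d M (SS A ε) v := funext fun J => funext fun I => w2 J I
      have e2 : D.h t • D.d M (SS A ε) w J I = D.d M (SS A ε) (D.h t • w) J I := by
        rw [(hb_d _ _ J I).1 a, (hb_d _ _ J I).1 a, map_smul]
        rfl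
      rw [smul_sub, e2, e, hb_dd hA' v0 a, sub_eq_zero, ← sum_fiberwise univ D.b,
        sum_eq_single t (fun r _ b => ?_) (by simp)]
      · rw [hb_h, sum_smul]
        refine sum_congr rfl fun s hs => ?_
        rw [← (mem_filter.1 hs).2]
        rfl
      · have e3 : ∑ s with D.b s = r, (D.a s * D.c s) • v (J + wt D.b s) I =
            D.h r • v (J + et r) I := by
          rw [hb_h, sum_smul]
          refine sum_congr rfl fun s hs => ?_
          rw [← (mem_filter.1 hs).2]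
          rfl
        rw [e3]
        rcases h1 r b with c | c
        · rw [v0 _ _ fun d => ?_, smul_zero]
          have p : (ε r).ok (J r) := a.2 r
          have q : (ε r).ok (J r + wt id r r) := d.2 r
          rw [c] at p q
          have p : J r = 0 := p
          have q : J r + wt id r r = 0 := q
          have := hb_wt_eq (id : τ → τ) r
          rw [id] at this
          omega
        · exact c.2 _
    · rw [(hb_d _ _ J I).2 a, v0 _ _ fun b => a ((sh J I 1).1 (by rwa [one_smul]))]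
  have hw : (fun J => w (J - et t)) ∈ D.U pc (SS A ε) j (i + 1) := fun J I =>
    ⟨by simpa only [sub_add_cancel] using w1 (J - et t) I, fun a => hi _ (by
      rw [w2, (dv _ I).2 fun b => a ⟨(sh J I (-1)).1 (by
        rw [neg_smul, one_smul, ← sub_eq_add_neg]; exact b.1), by
          have := b.2
          simp only [Pi.sub_apply, sum_sub_distrib, we] at this
          omega⟩])⟩
  refine ⟨hbM σ τ (g.restrictScalars k) fun J => w (J - et t), fun J I =>
    ⟨hg _ ▸ Submodule.mem_map_of_mem (hw J I).1,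
      fun a => (congrArg g ((hw J I).2 a)).trans (map_zero g)⟩, ?_⟩
  rw [← hb_map, ← gv]
  congr 1
  ext J I
  have := dw (J - et t) I
  rw [sub_add_cancel] at this
  rw [← this]
  have s := sh J I (-1)
  rw [neg_smul, one_smul, ← sub_eq_add_neg] at s
  by_cases a : (I, J) ∈ SS A ε
  · rw [(hb_d _ _ J I).1 a, (hb_d _ _ _ I).1 (s.2 a), hb_td, hb_td]
    simp only [add_sub_right_comm]
  · rw [(hb_d _ _ J I).2 a, (hb_d _ _ _ I).2 fun b => a (s.1 b)]

omit [Finite ρ] in
theorem hb_zero {j : τ → ℤ} {i : ℤ} (h : ∀ J I, (I, J) ∈ SS A ε → (#I : ℤ) + 2 * ∑ t, J t = i →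
    pc (j - ∑ s ∈ I, wt D.b s - (D.m : ℤ) • J) = ⊥) : D.hh pc A ε j i = 0 := by
  refine (hd_eq_zero fun z hz _ => ⟨0, zero_mem _, ?_⟩).1
  rw [map_zero]
  ext J I
  by_cases a : (I, J) ∈ SS A ε ∧ (#I : ℤ) + 2 * ∑ t, J t = i
  · have := (hz J I).1
    rw [h J I a.1 a.2] at this
    exact Eq.symm this
  · exact ((hz J I).2 a).symm

omit [LinearOrder σ] [Fintype σ] [Fintype τ] [Finite ρ] in
theorem hb_deg (j J : τ → ℤ) (I : Finset σ) (t : τ) :
    (j - ∑ s ∈ I, wt D.b s - (D.m : ℤ) • J) t ≤ j t - D.m * J t := by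
  have : 0 ≤ (∑ s ∈ I, wt D.b s) t := by
    rw [Finset.sum_apply]
    exact sum_nonneg fun s _ => hb_wt0 _ s t
  simp only [Pi.sub_apply, Pi.smul_apply, smul_eq_mul]
  omega

theorem hh_low (G : IsGM D.β pc) : ∃ L : ℤ, ∀ (A : Finset σ) (ε : τ → Ty) t j i,
    ε t = .pos ∨ ε t = .zero → j t < L → D.hh pc A ε j i = 0 := by
  obtain ⟨L, hL⟩ := G.low
  refine ⟨L, fun A ε t j i a b => hb_zero fun J I c _ => hL _ t ?_⟩
  have p : (ε t).ok (J t) := c.2 t
  have q : 0 ≤ J t := by
    rcases a with a | a <;> rw [a] at p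
    · exact p
    · exact Eq.ge p
  have := hb_deg (D := D) j J I t
  have : 0 ≤ (D.m : ℤ) * J t := by positivity
  omega

theorem hh_top (G : IsGM D.β pc) (j : τ → ℤ) : ∃ N : ℤ, ∀ i, N < i → D.hh pc A ε j i = 0 := by
  obtain ⟨L, hL⟩ := G.low
  refine ⟨Fintype.card σ + 2 * ∑ t, |j t - L|, fun i a => hb_zero fun J I _ b => ?_⟩
  have c : (#I : ℤ) ≤ Fintype.card σ := by exact_mod_cast card_le_univ I
  obtain ⟨t, -, d⟩ : ∃ t ∈ (univ : Finset τ), |j t - L| < J t :=
    exists_lt_of_sum_lt (by omega)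
  refine hL _ t ?_
  have := hb_deg (D := D) j J I t
  have m : (1 : ℤ) ≤ D.m := by exact_mod_cast D.pos
  have := le_abs_self (j t - L)
  have := abs_nonneg (j t - L)
  nlinarith

theorem hh_neg_top (j : τ → ℤ) (i : ℤ) (hi : (Fintype.card σ : ℤ) - 2 * Fintype.card τ < i) :
    D.hh pc A (fun _ => .neg) j i = 0 := by
  refine hb_zero fun J I a b => absurd b ?_
  have c : (#I : ℤ) ≤ Fintype.card σ := by exact_mod_cast card_le_univ I
  have d : ∑ t, J t ≤ ∑ _t : τ, (-1 : ℤ) := sum_le_sum fun t _ => by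
    have : J t < 0 := a.2 t
    omega
  rw [sum_const, card_univ, smul_neg, nsmul_one] at d
  omega

theorem hh_pos_bot (j : τ → ℤ) (i : ℤ) (hi : i < 0) : D.hh pc A (fun _ => .pos) j i = 0 := by
  refine hb_zero fun J I a b => absurd b ?_
  have d : 0 ≤ ∑ t, J t := sum_nonneg fun t _ => a.2 t
  omega

theorem hh_off {t : τ} (h0 : ∀ a : τ → ℤ, a t ≠ 0 → pc a = ⊥) (ht : ε t = .zero)
    (hA : ∀ s ∈ A, D.b s ≠ t) (j : τ → ℤ) (hj : j t ≠ 0) (i : ℤ) : D.hh pc A ε j i = 0 := by
  refine hb_zero fun J I a _ => h0 _ ?_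
  have p : (ε t).ok (J t) := a.2 t
  rw [ht] at p
  have p : J t = 0 := p
  have q : (∑ s ∈ I, wt D.b s) t = 0 := by
    rw [Finset.sum_apply]
    exact sum_eq_zero fun s b => hb_wt_ne (hA s (a.1 b))
  simpa only [Pi.sub_apply, Pi.smul_apply, p, q, smul_zero, sub_zero] using hj

end Pool.Agent.Lib.MP_40dc3c_ag.P
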