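import Pool.Agent.Lib.MP_40dc3c_ag.P.Hv
import Pool.Agent.Lib.MP_40dc3c_ag.P.Reg

/-! Vanishing in large degrees and the calculus of Euler characteristics. -/

namespace Pool.Agent.Lib.MP_40dc3c_ag.P

open MvPolynomial Finset Function

variable {k : Type} [Field k] {σ τ ρ : Type} [LinearOrder σ] [Fintype σ] [Fintype τ] [Finite ρ]
  {M M' M'' : Type} [AddCommGroup M] [Module (MvPolynomial ρ k) M] [Module k M]
  [IsScalarTower k (MvPolynomial ρ k) M] [AddCommGroup M'] [Module (MvPolynomial ρ k) M']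
  [Module k M'] [IsScalarTower k (MvPolynomial ρ k) M'] [AddCommGroup M'']
  [Module (MvPolynomial ρ k) M''] [Module k M''] [IsScalarTower k (MvPolynomial ρ k) M'']
  {D : Dat k σ τ ρ} {pc : (τ → ℤ) → Submodule k M} {pc' : (τ → ℤ) → Submodule k M'}
  {pc'' : (τ → ℤ) → Submodule k M''} {A : Finset σ} {ε : τ → Ty}

theorem hc_mid {hA hB hC : ℤ → ℤ} (h : Tri hA hB hC) {i : ℤ} (a : hA i = 0) (c : hC i = 0) :
    hB i = 0 := by
  obtain ⟨α, β, γ, e⟩ := h
  have := e i
  omega

theorem hc_left {hA hB hC : ℤ → ℤ} (h : Tri hA hB hC) {i : ℤ} (b : hB i = 0)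
    (c : hC (i + 1) = 0) : hA i = 0 := by
  obtain ⟨α, β, γ, e⟩ := h
  have := e i
  have := e (i + 1)
  omega

theorem hc_eq {hA hB hC : ℤ → ℤ} (h : Tri hA hB hC) {i : ℤ} (b : hB i = 0)
    (b' : hB (i + 1) = 0) : hA i = hC (i + 1) := by
  obtain ⟨α, β, γ, e⟩ := h
  have := e i
  have := e (i + 1)
  omega

theorem hc_shift (F : ℤ → ℤ) (c : ℤ) : ∑ᶠ i : ℤ, (i.negOnePow : ℤ) * F (i - c) =
    (c.negOnePow : ℤ) * ∑ᶠ i : ℤ, (i.negOnePow : ℤ) * F i := by
  rw [mul_finsum, ← finsum_comp_equiv (Equiv.addRight c)]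
  refine finsum_congr fun i => ?_
  simp only [Equiv.coe_addRight, add_sub_cancel_right, Int.negOnePow_add, Units.val_mul]
  ring

theorem hc_fin {F : ℤ → ℤ} (h : (support F).Finite) (c : ℤ) :
    (support fun i => F (i - c)).Finite :=
  h.preimage (f := fun i => i - c) (sub_left_injective.injOn)

omit [Finite ρ] [Fintype τ] [LinearOrder σ] [Module k M] [IsScalarTower k (MvPolynomial ρ k) M] in
theorem hc_upd [DecidableEq τ] (h : D.OK M A ε) {t : τ} (ht : ε t ≠ .zero) (x : Ty) :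
    D.OK M A (update ε t x) := fun t' => by
  by_cases e : t' = t
  · subst e
    exact .inr ((h t').resolve_left ht)
  · rw [update_of_ne e]
    exact h t'

omit [Finite ρ] [Fintype τ] [Module k M] [IsScalarTower k (MvPolynomial ρ k) M] in
theorem hc_erase (h : D.OK M A ε) {s : σ} (ht : ε (D.b s) = .zero) : D.OK M (A.erase s) ε :=
  fun t => by
    by_cases e : ε t = .zero
    · exact .inl e
    · obtain ⟨h1, h2⟩ := (h t).resolve_left e
      refine .inr ⟨fun s' hs => mem_erase.2 ⟨?_, h1 s' hs⟩, h2⟩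
      rintro rfl
      exact e (hs ▸ ht)

theorem hc_sum [DecidableEq τ] (ε : τ → Ty) (t : τ) (x : Ty) (j : τ → ℤ) :
    ∑ t', (update ε t x t').wv (j t') = ∑ t', (ε t').wv (j t') - (ε t).wv (j t) + x.wv (j t) := by
  rw [← add_sum_erase _ _ (mem_univ t), ← add_sum_erase _ (fun t' => (ε t').wv (j t')) (mem_univ t),
    update_self, sum_congr rfl fun t' ht => by rw [update_of_ne (ne_of_mem_erase ht)]]
  ring

theorem hc_sum' {ε : τ → Ty} {t : τ} (ht : ε t = .pos ∨ ε t = .zero) (c : ℤ) (j : τ → ℤ) :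
    ∑ t', (ε t').wv ((j - c • et t) t') = ∑ t', (ε t').wv (j t') :=
  sum_congr rfl fun t' _ => by
    by_cases e : t' = t
    · subst e
      rcases ht with e | e <;> rw [e] <;> rfl
    · simp [wt, e]

/-- the weight of a type in the induction. -/
def hcW : Ty → ℕ
  | .neg => 2
  | .pos => 1
  | _ => 0

theorem hc_lt [DecidableEq τ] (ε : τ → Ty) {t : τ} {x : Ty} (h : hcW x < hcW (ε t)) :
    ∑ t', hcW (update ε t x t') < ∑ t', hcW (ε t') :=
  sum_lt_sum (fun t' _ => by
    by_cases e : t' = t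
    · subst e
      rw [update_self]
      exact h.le
    · rw [update_of_ne e]) ⟨t, mem_univ t, by rwa [update_self]⟩

theorem van (G : IsGM D.β pc) (h : D.OK M A ε) : ∃ B : ℤ, ∀ j i,
    B < 2 * ∑ t, (ε t).wv (j t) - D.m * i → D.hh pc A ε j i = 0 := by
  classical
  induction hn : ∑ t, hcW (ε t) + #A using Nat.strong_induction_on generalizing A ε with
  | _ n ih => ?_
  subst hn
  have hm : (0 : ℤ) < D.m := Int.natCast_pos.2 D.pos
  by_cases h1 : ∃ t, ε t = .neg
  · obtain ⟨t, ht⟩ := h1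
    have hz : ε t ≠ .zero := by simp [ht]
    obtain ⟨B₁, e1⟩ := ih _ (Nat.add_lt_add_right (hc_lt ε (t := t) (x := .all)
      (by simp [ht, hcW])) _) (hc_upd h hz .all) rfl
    obtain ⟨B₂, e2⟩ := ih _ (Nat.add_lt_add_right (hc_lt ε (t := t) (x := .pos)
      (by simp [ht, hcW])) _) (hc_upd h hz .pos) rfl
    refine ⟨max B₁ (B₂ + D.m), fun j i hj => ?_⟩
    have T := tri_add G (hc_upd h hz .all) (update_self t _ _) j
    rw [update_idem, update_idem, ← ht, update_eq_self] at T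
    refine hc_left T (e1 j i ?_) (e2 j (i + 1) ?_)
    · rw [hc_sum, ht, show Ty.neg.wv (j t) = min (j t) 0 from rfl,
        show Ty.all.wv (j t) = j t from rfl]
      omega
    · rw [hc_sum, ht, mul_add (D.m : ℤ), show Ty.neg.wv (j t) = min (j t) 0 from rfl,
        show Ty.pos.wv (j t) = 0 from rfl]
      omega
  by_cases h2 : ∃ t, ε t = .pos
  · obtain ⟨t, ht⟩ := h2
    obtain ⟨B, e1⟩ := ih _ (Nat.add_lt_add_right (hc_lt ε (t := t) (x := .zero)
      (by simp [ht, hcW])) _) (hc_upd h (by simp [ht]) .zero) rfl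
    obtain ⟨L, hL⟩ := hh_low (D := D) G
    refine ⟨B, fun j i hj => ?_⟩
    obtain ⟨n, hn⟩ : ∃ n : ℕ, j t < L + n := ⟨(j t - L).toNat + 1, by omega⟩
    induction n generalizing j i with
    | zero => exact hL A ε t j i (.inl ht) (by simpa using hn)
    | succ n ih' =>
      refine hc_mid (tri_pos G h ht j) (e1 j i ?_) (ih' _ _ ?_ ?_)
      · rwa [hc_sum, ht, show Ty.zero.wv (j t) = Ty.pos.wv (j t) from rfl, sub_add_cancel]
      · rw [hc_sum' (.inl ht), mul_sub]
        omega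
      · simp only [Pi.sub_apply, Pi.smul_apply, wt, id, Pi.single_eq_same, smul_eq_mul, mul_one]
        omega
  by_cases h3 : ∃ s ∈ A, ε (D.b s) = .zero
  · obtain ⟨s, hs, ht⟩ := h3
    obtain ⟨B, e1⟩ := ih _ (Nat.add_lt_add_left (card_erase_lt_of_mem hs) _) (hc_erase h ht) rfl
    refine ⟨B, fun j i hj => hc_mid (tri_peel G h hs ht j) (e1 j i hj) (e1 _ _ ?_)⟩
    have := hc_sum' (.inr ht) 1 j
    rw [one_smul] at this
    rw [show wt D.b s = et (D.b s) from rfl, this, mul_sub]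
    omega
  have h4 : ∀ t, ε t ≠ .all → ε t = .zero := fun t ht => by
    have a : ε t ≠ .neg := fun e => h1 ⟨t, e⟩
    have b : ε t ≠ .pos := fun e => h2 ⟨t, e⟩
    cases hx : ε t <;> simp_all
  obtain ⟨T, hT⟩ : ∃ T : Finset τ, ∀ t, t ∈ T ↔ ε t = .all :=
    ⟨univ.filter fun t => ε t = .all, by simp⟩
  have e1 : ε = eT T .all := funext fun t => by
    by_cases e : t ∈ T
    · rw [eT, if_pos e, (hT t).1 e]
    · rw [eT, if_neg e, h4 t fun e' => e ((hT t).2 e')]
  have e2 : A = AT D.b T := Finset.ext fun s => by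
    simp only [AT, mem_filter, mem_univ, true_and, hT]
    refine ⟨fun hs => by_contra fun e => h3 ⟨s, hs, h4 _ e⟩, fun e => ?_⟩
    exact ((h _).resolve_left (by simp [e])).1 s rfl
  subst e1 e2
  obtain ⟨B, hB⟩ := V0 G h
  refine ⟨B, fun j i hj => hB j i ?_⟩
  rwa [← sum_subset (subset_univ T) fun t _ e => by rw [eT, if_neg e]; rfl,
    sum_congr rfl (g := j) fun t e => by rw [eT, if_pos e]; rfl] at hj

theorem hh_supp (G : IsGM D.β pc) (h : D.OK M A ε) (j : τ → ℤ) :
    (support (D.hh pc A ε j)).Finite := by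
  obtain ⟨B, hB⟩ := van G h
  obtain ⟨N, hN⟩ := hh_top (A := A) (ε := ε) G j
  have hm : (1 : ℤ) ≤ D.m := Int.natCast_pos.2 D.pos
  refine (Set.finite_Icc (-|B - 2 * ∑ t, (ε t).wv (j t)|) N).subset fun i hi =>
    ⟨not_lt.1 fun e => hi (hB j i ?_), not_lt.1 fun e => hi (hN i e)⟩
  have h1 := le_abs_self (B - 2 * ∑ t, (ε t).wv (j t))
  have h2 := abs_nonneg (B - 2 * ∑ t, (ε t).wv (j t))
  nlinarith

theorem Tri.chi {hA hB hC : ℤ → ℤ} (h : Tri hA hB hC) (fA : (support hA).Finite)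
    (fC : (support hC).Finite) : ∑ᶠ i : ℤ, (i.negOnePow : ℤ) * hB i =
      ∑ᶠ i : ℤ, (i.negOnePow : ℤ) * hA i + ∑ᶠ i : ℤ, (i.negOnePow : ℤ) * hC i := by
  obtain ⟨α, β, γ, e⟩ := h
  have ad : ∀ F H : ℤ → ℤ, (support F).Finite → (support H).Finite →
      ∑ᶠ i : ℤ, (i.negOnePow : ℤ) * (F i + H i) =
        ∑ᶠ i : ℤ, (i.negOnePow : ℤ) * F i + ∑ᶠ i : ℤ, (i.negOnePow : ℤ) * H i := fun F H a b => by
    simp only [mul_add]
    exact finsum_add_distrib (a.subset (support_mul_subset_right _ _))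
      (b.subset (support_mul_subset_right _ _))
  have fα : (support fun i => (α i : ℤ)).Finite := fC.subset fun i hi => by
    have := e i
    simp only [mem_support] at hi ⊢
    omega
  have fβ : (support fun i => (β i : ℤ)).Finite := fC.subset fun i hi => by
    have := e i
    simp only [mem_support] at hi ⊢
    omega
  have fγ : (support fun i => (γ i : ℤ)).Finite := fA.subset fun i hi => by
    have := e i
    simp only [mem_support] at hi ⊢
    omega
  have s := hc_shift (fun i => (α i : ℤ)) (-1)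
  have f1 := hc_fin fα (-1)
  simp only [sub_neg_eq_add] at s f1
  simp only [fun i => (e i).1, fun i => (e i).2.1, fun i => (e i).2.2]
  rw [ad _ _ fβ fγ, ad _ _ fγ f1, ad _ _ fα fβ, s, Int.negOnePow_neg, Int.negOnePow_one]
  simp only [Units.val_neg, Units.val_one]
  ring

theorem ch_per (G : IsGM D.β pc) (h : D.OK M A ε) {t : τ} (ht : ε t = .all) (j : τ → ℤ) :
    D.ch pc A ε (j + (D.m : ℤ) • et t) = D.ch pc A ε j := by
  have s := hc_shift (D.hh pc A ε (j + (D.m : ℤ) • et t)) (-2)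
  simp only [sub_neg_eq_add, hh_per G h ht] at s
  rw [Dat.ch, Dat.ch, s, Int.negOnePow_even _ (by decide), Units.val_one, one_mul]

theorem ch_peel (G : IsGM D.β pc) (h : D.OK M A ε) {s : σ} (hs : s ∈ A)
    (ht : ε (D.b s) = .zero) (j : τ → ℤ) :
    D.ch pc A ε j = dl (D.b s) (D.ch pc (A.erase s) ε) j := by
  rw [Dat.ch, (tri_peel G h hs ht j).chi (hh_supp G (hc_erase h ht) j)
    (hc_fin (hh_supp G (hc_erase h ht) _) 1), hc_shift, Int.negOnePow_one, Units.val_neg,
    Units.val_one, neg_one_mul, ← sub_eq_add_neg]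
  rfl

theorem ch_ses (G' : IsGM D.β pc') (G : IsGM D.β pc) (G'' : IsGM D.β pc'') (h : D.OK M A ε)
    (f : M' →ₗ[MvPolynomial ρ k] M) (g : M →ₗ[MvPolynomial ρ k] M'') (hf : Injective f)
    (he : Exact f g) (hg : Surjective g) (e : τ → ℤ) (hfe : ∀ j, ∀ x ∈ pc' j, f x ∈ pc (j + e))
    (hge : ∀ j, ∀ x ∈ pc j, g x ∈ pc'' j) (j : τ → ℤ) :
    D.ch pc A ε j = D.ch pc' A ε (j - e) + D.ch pc'' A ε j := by
  have h' : D.OK M' A ε := fun t => (h t).imp_right fun a =>
    ⟨a.1, fun x => hf (by rw [map_smul, a.2, map_zero])⟩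
  have h'' : D.OK M'' A ε := fun t => (h t).imp_right fun a => ⟨a.1, fun x => by
    obtain ⟨y, rfl⟩ := hg x
    rw [← map_smul, a.2, map_zero]⟩
  exact (tri_ses G' G G'' h f g hf he hg e hfe hge j).chi (hh_supp G' h' _) (hh_supp G'' h'' _)

/-- the quotient of a cyclic module by a regular homogeneous element. -/
theorem ch_reg {I : Ideal (MvPolynomial ρ k)} (hI : Hg D.β I)
    (h : D.OK (MvPolynomial ρ k ⧸ I) A ε) {f : MvPolynomial ρ k} {e : τ → ℤ}
    (hf : f.IsWeightedHomogeneous (wt D.β) e) (hr : ∀ x, f * x ∈ I → x ∈ I) (j : τ → ℤ) :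
    D.ch (qpc D.β (I ⊔ .span {f})) A ε j =
      D.ch (qpc D.β I) A ε j - D.ch (qpc D.β I) A ε (j - e) := by
  have G := qpc_gm hI
  have z : ∀ (J : Ideal (MvPolynomial ρ k)) x, J.mkQ x = 0 ↔ x ∈ J := fun J x =>
    Submodule.Quotient.mk_eq_zero J
  rw [ch_ses G G (qpc_gm (hI.sup (hg_span (G := {f}) (by simpa using ⟨e, hf⟩)))) h
    (f • LinearMap.id) (Submodule.factor le_sup_left) ?_ ?_ (Submodule.factor_surjective _) e
    (fun j x hx => G.smul_hom hf hx) ?_ j, add_sub_cancel_left]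
  · refine (injective_iff_map_eq_zero _).2 fun x hx => ?_
    obtain ⟨y, rfl⟩ := I.mkQ_surjective x
    exact (z I y).2 (hr y ((z I _).1 hx))
  · intro x
    obtain ⟨y, rfl⟩ := I.mkQ_surjective x
    refine (z _ y).trans ⟨fun hy => ?_, ?_⟩
    · obtain ⟨a, ha, b, hb, rfl⟩ := Submodule.mem_sup.1 hy
      obtain ⟨c, rfl⟩ := Ideal.mem_span_singleton.1 hb
      exact ⟨I.mkQ c, by rw [map_add, (z I a).2 ha, zero_add]; rfl⟩
    · rintro ⟨w, hw⟩
      obtain ⟨c, rfl⟩ := I.mkQ_surjective w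
      have h1 : y - f * c ∈ I := (Submodule.Quotient.eq I).1 hw.symm
      rw [← sub_add_cancel y (f * c)]
      exact Submodule.add_mem_sup h1 (Ideal.mem_span_singleton.2 (dvd_mul_right f c))
  · rintro j _ ⟨y, hy, rfl⟩
    exact ⟨y, hy, rfl⟩

theorem ch_low (G : IsGM D.β pc) : ∃ L : ℤ, ∀ (A : Finset σ) (ε : τ → Ty) t j,
    ε t = .pos ∨ ε t = .zero → j t < L → D.ch pc A ε j = 0 := by
  obtain ⟨L, hL⟩ := hh_low (D := D) G
  exact ⟨L, fun A ε t j ht hj => finsum_eq_zero_of_forall_eq_zero fun i => by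
    rw [hL A ε t j i ht hj, mul_zero]⟩

theorem hc_neg [DecidableEq τ] (G : IsGM D.β pc) (h : ∀ t (x : M), D.h t • x = 0) (N : ℤ)
    (T : Finset τ) : ∃ c : ℤ, ∀ j, (∀ t, c ≤ j t) → ∀ i ≤ N, D.hh pc univ (fun _ => .pos) j i =
      D.hh pc univ (fun t => if t ∈ T then .neg else .pos) j (i - #T) := by
  induction T using Finset.induction_on with
  | empty => exact ⟨0, fun j _ i _ => by simp⟩
  | insert t T ht ih =>
    obtain ⟨c, hc⟩ := ih
    set ε : τ → Ty := fun t => if t ∈ T then .neg else .pos with hε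
    have ok : D.OK M univ (update ε t .all) := fun t' => .inr ⟨fun s _ => mem_univ s, h t'⟩
    obtain ⟨B, hB⟩ := van G ok
    have hm : (0 : ℤ) ≤ D.m := Int.natCast_nonneg _
    refine ⟨max c (|B| + |D.m * N| + 1), fun j hj i hi => ?_⟩
    have a1 := le_abs_self B
    have a2 := abs_nonneg B
    have a3 := le_abs_self (D.m * N)
    have a4 := abs_nonneg (D.m * N)
    have s : ∑ t', (update ε t .all t').wv (j t') = j t := by
      rw [sum_eq_single t (fun t' _ e => ?_) (by simp), update_self, Ty.wv]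
      have := hj t'
      rw [update_of_ne e, hε]
      by_cases e' : t' ∈ T <;> simp only [e', if_true, if_false, Ty.wv]
      omega
    have z : ∀ i ≤ N, D.hh pc univ (update ε t .all) j i = 0 := fun i hi => hB j i (by
      have := hj t
      have := mul_le_mul_of_nonneg_left hi hm
      rw [s]
      omega)
    have T' := tri_add G ok (update_self t _ _) j
    have e1 : update ε t .neg = fun t' => if t' ∈ insert t T then .neg else .pos := by
      funext t'
      by_cases e : t' = t <;> simp [hε, e]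
    have e2 : update ε t .pos = ε := update_eq_self_iff.2 (by simp [hε, ht])
    rw [update_idem, update_idem, e1, e2] at T'
    rw [hc j (fun t' => (le_max_left _ _).trans (hj t')) i hi, card_insert_of_notMem ht,
      hc_eq T' (z _ (by omega)) (z _ (by omega))]
    congr 1
    omega

theorem V2 (G : IsGM D.β pc) (h : ∀ t (x : M), D.h t • x = 0) : ∃ j₀, ∀ j, j₀ ≤ j →
    D.EE pc j = (-1) ^ Fintype.card τ * D.ch pc univ (fun _ => .neg) j := by
  classical
  obtain ⟨c, hc⟩ := hc_neg G h (Fintype.card σ) univ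
  refine ⟨fun _ => c, fun j hj => ?_⟩
  have s := hc_shift (D.hh pc univ (fun _ => .neg) j) (Fintype.card τ)
  have e := hc j hj
  simp only [mem_univ, if_true, card_univ] at e
  rw [Int.coe_negOnePow_natCast] at s
  rw [Dat.ch, ← s, finsum_eq_sum_of_support_subset
    (s := (range (Fintype.card σ + 1)).map Nat.castEmbedding) _ fun i hi => ?_, sum_map, Dat.EE]
  · refine sum_congr rfl fun i hi => ?_
    have := mem_range.1 hi
    rw [Nat.castEmbedding_apply, Int.coe_negOnePow_natCast, e i (by omega)]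
  · have h1 := right_ne_zero_of_mul hi
    have h2 : i ≤ Fintype.card σ := not_lt.1 fun a => h1 (hh_neg_top j _ (by omega))
    have h3 : 0 ≤ i := not_lt.1 fun a => h1 ((e i h2).symm.trans (hh_pos_bot j i a))
    exact mem_map.2 ⟨i.toNat, mem_range.2 (by omega), Int.toNat_of_nonneg h3⟩

variable [DecidableEq τ]

theorem ch_add (G : IsGM D.β pc) (h : D.OK M A ε) {t : τ} (ht : ε t = .all) (j : τ → ℤ) :
    D.ch pc A ε j = D.ch pc A (update ε t .neg) j + D.ch pc A (update ε t .pos) j :=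
  (tri_add G h ht j).chi (hh_supp G (hc_upd h (by simp [ht]) _) j)
    (hh_supp G (hc_upd h (by simp [ht]) _) j)

theorem ch_pos (G : IsGM D.β pc) (h : D.OK M A ε) {t : τ} (ht : ε t = .pos) (j : τ → ℤ) :
    D.ch pc A ε j - D.ch pc A ε (j - (D.m : ℤ) • et t) = D.ch pc A (update ε t .zero) j := by
  rw [Dat.ch, (tri_pos G h ht j).chi (hh_supp G (hc_upd h (by simp [ht]) _) j)
    (hc_fin (hh_supp G h _) 2), hc_shift, Int.negOnePow_even _ (by decide), Units.val_one, one_mul]
  exact add_sub_cancel_right _ _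

end Pool.Agent.Lib.MP_40dc3c_ag.P
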