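import Pool.Agent.Lib.MP_40dc3c_ag.P.Les

/-! The homology of a direct sum of complexes. -/

namespace Pool.Agent.Lib.MP_40dc3c_ag.P

open Finset Function

theorem hv_sum {k V W Λ : Type} [Field k] [AddCommGroup V] [Module k V] [AddCommGroup W]
    [Module k W] {d : V →ₗ[k] V} {δ : W →ₗ[k] W} {U U' : Submodule k V} {L : Set Λ}
    {Y Y' : Λ → Submodule k W} {g g' g'' : Λ → V →ₗ[k] W}
    (c1 : ∀ l y, δ (g' l y) = g l (d y)) (c2 : ∀ l x, δ (g l x) = g'' l (d x))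
    (hU : ∀ y ∈ U', d y ∈ U) (i1 : ∀ x ∈ U, (∀ l ∈ L, g l x = 0) → x = 0)
    (i2 : ∀ x ∈ U, (∀ l ∈ L, g'' l (d x) = 0) → d x = 0)
    (s1 : ∀ l ∈ L, ∀ v ∈ Y l, ∃ x ∈ U, g l x = v ∧ ∀ l' ∈ L, l' ≠ l → g l' x = 0)
    (s2 : ∀ l ∈ L, ∀ v ∈ Y' l, ∃ y ∈ U', g' l y = v ∧ ∀ l' ∈ L, l' ≠ l → g' l' y = 0)
    (m1 : ∀ l x, g l x ∈ Y l) (m2 : ∀ l y, g' l y ∈ Y' l)
    (fin : ∀ x, {l | l ∈ L ∧ g l x ≠ 0}.Finite) (F : Finset Λ) (hF : ∀ l ∈ F, l ∈ L)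
    (h0 : ∀ l ∈ L, l ∉ F → ∀ v ∈ Y l, δ v = 0 → ∃ y ∈ Y' l, δ y = v)
    (fd : ∀ l, FiniteDimensional k (Hm δ (Y' l) (Y l))) :
    hd d U' U = ∑ l ∈ F, hd δ (Y' l) (Y l) := by
  classical
  have cyc : ∀ l, ∀ x ∈ U ⊓ LinearMap.ker d, g l x ∈ Y l ⊓ LinearMap.ker δ := fun l x hx =>
    ⟨m1 l x, by
      have : d x = 0 := hx.2
      rw [SetLike.mem_coe, LinearMap.mem_ker, c2, this, map_zero]⟩
  let φ : ↥(U ⊓ LinearMap.ker d) →ₗ[k] ∀ l : F, Hm δ (Y' l) (Y l) := LinearMap.pi fun l =>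
    ((((Y' l.1).map δ).mkQ ∘ₗ g l) ∘ₗ (U ⊓ LinearMap.ker d).subtype).codRestrict _ fun x =>
      Submodule.mem_map_of_mem (cyc l x x.2)
  have hφ : ∀ x (l : F), (φ x l).1 = ((Y' l.1).map δ).mkQ (g l x) := fun _ _ => rfl
  have hs : Surjective φ := fun z => by
    have : ∀ l : F, ∃ x ∈ U, δ (g l x) = 0 ∧ ((Y' l.1).map δ).mkQ (g l x) = (z l).1 ∧
        ∀ l' ∈ L, l' ≠ l → g l' x = 0 := fun l => by
      obtain ⟨v, hv, e⟩ := (z l).2
      obtain ⟨x, hx, rfl, h⟩ := s1 l (hF _ l.2) v hv.1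
      exact ⟨x, hx, hv.2, e, h⟩
    choose x hx h1 h2 h3 using this
    have e : ∀ l : F, g l (∑ l', x l') = g l (x l) := fun l => by
      rw [map_sum, sum_eq_single l (fun l' _ h => h3 l' l (hF _ l.2) fun e => h (Subtype.ext e.symm))
        fun h => (h (mem_univ _)).elim]
    have hm : ∑ l', x l' ∈ U := sum_mem fun l _ => hx l
    refine ⟨⟨∑ l', x l', hm, i2 _ hm fun l hl => ?_⟩, funext fun l => Subtype.ext ?_⟩
    · rw [← c2]
      by_cases h : l ∈ F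
      · exact (congrArg δ (e ⟨l, h⟩)).trans (h1 ⟨l, h⟩)
      · rw [map_sum, sum_eq_zero fun l' _ => h3 l' l hl fun e => h (e ▸ l'.2), map_zero]
    · rw [hφ, e, h2]
  have hk : ∀ x ∈ (⊤ : Submodule k ↥(U ⊓ LinearMap.ker d)),
      ((U'.map d).mkQ ∘ₗ (U ⊓ LinearMap.ker d).subtype) x = 0 ↔ φ x = 0 := fun x _ => by
    rw [LinearMap.comp_apply, mkQ_zero]
    refine ⟨fun ⟨y, _, e⟩ => funext fun l => Subtype.ext ?_, fun h => ?_⟩
    · rw [hφ]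
      exact mkQ_zero.2 ⟨g' l y, m2 l y, (c1 l y).trans (congrArg (g l) e)⟩
    · have : ∀ l, l ∈ L → ∃ y ∈ U', δ (g' l y) = g l x ∧ ∀ l' ∈ L, l' ≠ l → g' l' y = 0 := by
        intro l hl
        have : ∃ v ∈ Y' l, δ v = g l x := by
          by_cases hf : l ∈ F
          · exact mkQ_zero.1 ((hφ x ⟨l, hf⟩).symm.trans (congrArg (fun z => (z ⟨l, hf⟩).1) h))
          · exact h0 l hl hf _ (cyc l x x.2).1 (cyc l x x.2).2
        obtain ⟨v, hv, e⟩ := this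
        obtain ⟨y, hy, rfl, h⟩ := s2 l hl v hv
        exact ⟨y, hy, e, h⟩
      choose! y hy h1 h2 using this
      have hm : ∑ l ∈ (fin x).toFinset, y l ∈ U' :=
        sum_mem fun l hl => hy l ((fin x).mem_toFinset.1 hl).1
      refine ⟨_, hm, sub_eq_zero.1 (i1 _ (sub_mem (hU _ hm) x.2.1) fun l hl => ?_)⟩
      rw [map_sub, ← c1, map_sum, sub_eq_zero]
      by_cases hf : l ∈ (fin x).toFinset
      · rw [sum_eq_single_of_mem l hf fun l' hl' e =>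
          h2 l' ((fin x).mem_toFinset.1 hl').1 l hl e.symm]
        exact h1 l hl
      · rw [sum_eq_zero fun l' hl' => h2 l' ((fin x).mem_toFinset.1 hl').1 l hl
          fun e => hf (e ▸ hl'), map_zero]
        exact (by_contra fun n => hf ((fin x).mem_toFinset.2 ⟨hl, n⟩) : g l x = 0).symm
  have := rk_congr hk
  rw [Submodule.map_comp, Submodule.map_subtype_top, Submodule.map_top,
    LinearMap.range_eq_top.2 hs] at this
  have e : Module.finrank k (Hm d U' U) = ∑ l : F, Module.finrank k (Hm δ (Y' l) (Y l)) := by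
    rw [← Module.finrank_pi_fintype, ← finrank_top k (∀ l : F, Hm δ (Y' l) (Y l))]
    exact congrArg Cardinal.toNat this
  rw [hd, e, Nat.cast_sum, ← sum_coe_sort F]
  rfl

end Pool.Agent.Lib.MP_40dc3c_ag.P
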