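import Pool.Agent.Lib.MP_40dc3c_ag.P.Car
import Pool.Agent.Lib.MP_40dc3c_ag.P.Gm
import Pool.Agent.Lib.MP_40dc3c_ag.P.MDefs

/-! Unfolding a Koszul factorisation into the periodic complex. -/

namespace Pool.Agent.Lib.MP_40dc3c_ag.P

open MvPolynomial Finset Function

set_option linter.unusedSectionVars false

variable {k : Type} [Field k] {σ τ ρ : Type} [LinearOrder σ] [Fintype σ] [Fintype τ] [Finite ρ]
  {M : Type} [AddCommGroup M] [Module (MvPolynomial ρ k) M] [Module k M]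
  [IsScalarTower k (MvPolynomial ρ k) M] {D : Dat k σ τ ρ} {pc : (τ → ℤ) → Submodule k M}
  {T : Finset τ} {π : (τ → ℤ) → M →ₗ[k] M}

/-- the projections on the graded pieces. -/
structure HvPr (β : ρ → τ) (pc : (τ → ℤ) → Submodule k M) (π : (τ → ℤ) → M →ₗ[k] M) : Prop where
  mem : ∀ j x, π j x ∈ pc j
  self : ∀ j, ∀ x ∈ pc j, π j x = x
  ne : ∀ i j, i ≠ j → ∀ x ∈ pc j, π i x = 0
  fin : ∀ x, {j | π j x ≠ 0}.Finite
  sum : ∀ x, ∑ᶠ j, π j x = x
  smul : ∀ (f : MvPolynomial ρ k) e, f.IsWeightedHomogeneous (wt β) e →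
    ∀ j x, π (j + e) (f • x) = f • π j x

theorem IsGM.hvPr {β : ρ → τ} (G : IsGM β pc) : ∃ π, HvPr β pc π := by
  obtain ⟨π, h1, h2, h3, h4, h5, h6⟩ := G.exists_proj
  exact ⟨π, h1, h2, h3, h4, h5, h6⟩

theorem HvPr.zero {β : ρ → τ} (P : HvPr β pc π) {x : M} (h : ∀ e, π e x = 0) : x = 0 := by
  rw [← P.sum x, finsum_eq_zero_of_forall_eq_zero h]

theorem HvPr.smul' {β : ρ → τ} (P : HvPr β pc π) {f : MvPolynomial ρ k} {e : τ → ℤ}
    (hf : f.IsWeightedHomogeneous (wt β) e) (j : τ → ℤ) (x : M) :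
    π j (f • x) = f • π (j - e) x := by
  rw [← P.smul f e hf, sub_add_cancel]

theorem hv_mem {b : σ → τ} {s : σ} : s ∈ AT b T ↔ b s ∈ T := by simp [AT]

theorem hv_S {b : σ → τ} {I : Finset σ} {J : τ → ℤ} :
    (I, J) ∈ SS (AT b T) (eT T .all) ↔ I ⊆ AT b T ∧ ∀ t, t ∉ T → J t = 0 := by
  refine and_congr_right fun _ => forall_congr' fun t => ?_
  by_cases h : t ∈ T <;> simp [eT, h, Ty.ok]

theorem hv_wt {b : σ → τ} {s : σ} {t : τ} (h : t ≠ b s) : wt b s t = 0 := by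
  classical
  simp [wt, h]

theorem hv_wt_sum (b : σ → τ) (s : σ) {T : Finset τ} (h : b s ∈ T) : ∑ t ∈ T, wt b s t = 1 := by
  rw [sum_eq_single_of_mem _ h fun t _ e => hv_wt e]
  simp [wt]

variable (D T) in
/-- the index `J` is seen in degree `i`. -/
def hvA (i : ℤ) (I : Finset σ) (J : τ → ℤ) : Prop :=
  (I, J) ∈ SS (AT D.b T) (eT T .all) ∧ (#I : ℤ) + 2 * ∑ t, J t = i

variable (D) in
/-- the degree of the entry. -/
noncomputable def hvE (j : τ → ℤ) (I : Finset σ) (J : τ → ℤ) : τ → ℤ :=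
  j - ∑ s ∈ I, wt D.b s - (D.m : ℤ) • J

theorem hvE_inj {j : τ → ℤ} {I : Finset σ} {J J' : τ → ℤ} (h : hvE D j I J = hvE D j I J') :
    J = J' :=
  smul_right_injective _ (Nat.cast_ne_zero.2 D.pos.ne' : (D.m : ℤ) ≠ 0) (sub_right_injective h)

theorem hvA_insert {i : ℤ} {I : Finset σ} {J : τ → ℤ} {s : σ} (hs : s ∈ AT D.b T) (h : s ∉ I) :
    hvA D T (i + 1) (insert s I) J ↔ hvA D T i I J := by
  simp only [hvA, hv_S, insert_subset_iff, hs, true_and, card_insert_of_notMem h]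
  refine and_congr_right fun _ => ?_
  push_cast
  omega

theorem hvE_insert (j : τ → ℤ) {I : Finset σ} (J : τ → ℤ) {s : σ} (h : s ∉ I) :
    hvE D j (insert s I) J = hvE D j I J - wt D.b s := by
  rw [hvE, hvE, sum_insert h]
  abel

theorem hvA_erase {i : ℤ} {I : Finset σ} {J : τ → ℤ} {s : σ} (hs : s ∈ AT D.b T) (h : s ∈ I) :
    hvA D T (i + 1) (I.erase s) (J + wt D.b s) ↔ hvA D T i I J := by
  have e : I.erase s ⊆ AT D.b T ↔ I ⊆ AT D.b T := by
    rw [← subset_insert_iff, insert_eq_of_mem hs]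
  have e' : ∀ t, t ∉ T → (J + wt D.b s) t = J t := fun t ht => by
    rw [Pi.add_apply, hv_wt (t := t) fun e => ht (by rw [e]; exact hv_mem.1 hs), add_zero]
  have c := card_erase_add_one h
  simp only [hvA, hv_S, e, Pi.add_apply J, sum_add_distrib, hv_wt_sum D.b s (mem_univ _)]
  refine and_congr (and_congr_right fun _ => forall₂_congr fun t ht => ?_) (by omega)
  rw [← Pi.add_apply J, e' t ht]

theorem hvE_erase (j : τ → ℤ) {I : Finset σ} (J : τ → ℤ) {s : σ} (h : s ∈ I) :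
    hvE D j (I.erase s) (J + wt D.b s) = hvE D j I J - ((D.m : ℤ) - 1) • wt D.b s := by
  rw [hvE, hvE, ← add_sum_erase I _ h]
  module

theorem hv_kd (P : HvPr D.β pc π) (A : Finset σ) (w : Finset σ → M) (I : Finset σ) (e : τ → ℤ) :
    π e (kd M A D.a D.c w I) = ∑ s ∈ A, if s ∈ I then
      D.c s • sg s I • π (e - ((D.m : ℤ) - 1) • wt D.b s) (w (I.erase s)) else
      D.a s • sg s I • π (e - wt D.b s) (w (insert s I)) := by
  rw [kd_apply, Finset.sum_apply, map_sum]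
  refine sum_congr rfl fun s _ => ?_
  rw [Pi.add_apply, Pi.smul_apply, Pi.smul_apply, io_apply, ep_apply]
  split_ifs
  · rw [smul_zero, zero_add, P.smul' (D.hc s), map_zsmul]
  · rw [smul_zero, add_zero, P.smul' (D.ha s), map_zsmul]

variable (D T π) in
open Classical in
/-- unfolding. -/
noncomputable def hvG (j : τ → ℤ) (i : ℤ) :
    (Finset σ → M) →ₗ[k] ((τ → ℤ) → Finset σ → M) where
  toFun w J I := if hvA D T i I J then π (hvE D j I J) (w I) else 0
  map_add' v w := by ext J I; by_cases h : hvA D T i I J <;> simp [h]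
  map_smul' c v := by ext J I; by_cases h : hvA D T i I J <;> simp [h]

theorem hvG_pos {j : τ → ℤ} {i : ℤ} {I : Finset σ} {J : τ → ℤ} (h : hvA D T i I J)
    (w : Finset σ → M) : hvG D T π j i w J I = π (hvE D j I J) (w I) := if_pos h

theorem hvG_neg {j : τ → ℤ} {i : ℤ} {I : Finset σ} {J : τ → ℤ} (h : ¬hvA D T i I J)
    (w : Finset σ → M) : hvG D T π j i w J I = 0 := if_neg h

theorem hvG_mem (P : HvPr D.β pc π) (j : τ → ℤ) (i : ℤ) (w : Finset σ → M) :
    hvG D T π j i w ∈ D.U pc (SS (AT D.b T) (eT T .all)) j i := fun J I =>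
  ⟨by
    by_cases h : hvA D T i I J
    · rw [hvG_pos h]
      exact P.mem _ _
    · rw [hvG_neg h]
      exact zero_mem _, fun h => hvG_neg h w⟩

theorem hvG_d (P : HvPr D.β pc π) (j : τ → ℤ) (i : ℤ) (w : Finset σ → M) :
    D.d M (SS (AT D.b T) (eT T .all)) (hvG D T π j (i + 1) w) =
      hvG D T π j i (kd M (AT D.b T) D.a D.c w) := by
  classical
  funext J I
  change (if (I, J) ∈ SS (AT D.b T) (eT T .all) then
    td M D.b D.a D.c (hvG D T π j (i + 1) w) J I else 0) = _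
  split_ifs with hS
  swap
  · exact (hvG_neg (fun h => hS h.1) _).symm
  rw [td_apply, Finset.sum_apply, ← sum_subset (subset_univ (AT D.b T)) fun s _ hs => by
    have hI : s ∉ I := fun h => hs (hS.1 h)
    rw [Pi.add_apply, Pi.smul_apply, Pi.smul_apply, io_apply, ep_apply, if_neg hI, if_neg hI,
      hvG_neg fun h => hs (h.1.1 (mem_insert_self s I)), smul_zero, smul_zero, smul_zero, add_zero]]
  by_cases h : hvA D T i I J
  · rw [hvG_pos h, hv_kd P]
    refine sum_congr rfl fun s hs => ?_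
    rw [Pi.add_apply, Pi.smul_apply, Pi.smul_apply, io_apply, ep_apply]
    split_ifs with hI
    · rw [smul_zero, zero_add, hvG_pos ((hvA_erase hs hI).2 h), hvE_erase _ _ hI]
    · rw [smul_zero, add_zero, hvG_pos ((hvA_insert hs hI).2 h), hvE_insert _ _ hI]
  · rw [hvG_neg h]
    refine sum_eq_zero fun s hs => ?_
    rw [Pi.add_apply, Pi.smul_apply, Pi.smul_apply, io_apply, ep_apply]
    split_ifs with hI
    · rw [hvG_neg (mt (hvA_erase hs hI).1 h), smul_zero, smul_zero, smul_zero, add_zero]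
    · rw [hvG_neg (mt (hvA_insert hs hI).1 h), smul_zero, smul_zero, smul_zero, add_zero]

variable (D T π) in
/-- the folded vectors. -/
def hvW (j : τ → ℤ) (i : ℤ) (w : Finset σ → M) : Prop :=
  ∀ I e, π e (w I) ≠ 0 → ∃ J, hvA D T i I J ∧ hvE D j I J = e

theorem hvW.kd (P : HvPr D.β pc π) {j : τ → ℤ} {i : ℤ} {w : Finset σ → M}
    (h : hvW D T π j (i + 1) w) : hvW D T π j i (kd M (AT D.b T) D.a D.c w) := fun I e he => by
  rw [hv_kd P] at he
  obtain ⟨s, hs, h1⟩ := exists_ne_zero_of_sum_ne_zero he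
  split_ifs at h1 with hI
  · obtain ⟨J, h2, h3⟩ := h _ _ (right_ne_zero_of_smul (right_ne_zero_of_smul h1))
    obtain ⟨J, rfl⟩ : ∃ J', J = J' + wt D.b s := ⟨J - wt D.b s, (sub_add_cancel _ _).symm⟩
    exact ⟨J, (hvA_erase hs hI).1 h2, sub_left_injective ((hvE_erase j J hI).symm.trans h3)⟩
  · obtain ⟨J, h2, h3⟩ := h _ _ (right_ne_zero_of_smul (right_ne_zero_of_smul h1))
    exact ⟨J, (hvA_insert hs hI).1 h2, sub_left_injective ((hvE_insert j J hI).symm.trans h3)⟩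

theorem hvW.zero (P : HvPr D.β pc π) {j : τ → ℤ} {i : ℤ} {w : Finset σ → M}
    (h : hvW D T π j i w) (h0 : hvG D T π j i w = 0) : w = 0 :=
  funext fun I => P.zero fun e => by_contra fun he => by
    obtain ⟨J, h1, rfl⟩ := h I e he
    exact he ((hvG_pos h1 w).symm.trans (congrFun (congrFun h0 J) I))

theorem hv_fin (G : IsGM D.β pc) {S : Set (Finset σ × (τ → ℤ))} {j : τ → ℤ} {i : ℤ}
    {v : (τ → ℤ) → Finset σ → M} (hv : v ∈ D.U pc S j i) (I : Finset σ) :
    (support fun J => v J I).Finite := by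
  classical
  obtain ⟨L, hL⟩ := G.low
  let u : τ → ℤ := fun t => |(j - ∑ s ∈ I, wt D.b s) t - L|
  refine (Set.finite_Icc (fun t => -(|i - #I| + ∑ t, u t)) u).subset fun J hJ => ?_
  have h1 : ∀ t, J t ≤ u t := fun t => by
    by_contra h
    refine hJ ((Submodule.mem_bot k).1 (hL _ t ?_ ▸ (hv J I).1))
    have h2 := le_abs_self ((j - ∑ s ∈ I, wt D.b s) t - L)
    have h3 : 0 ≤ u t := abs_nonneg _
    have h4 : (1 : ℤ) ≤ D.m := by exact_mod_cast D.pos
    rw [Pi.sub_apply, Pi.smul_apply, smul_eq_mul]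
    change _ ≤ u t at h2
    nlinarith
  have h2 : (#I : ℤ) + 2 * ∑ t, J t = i := (by_contra fun h => hJ ((hv J I).2 h) : _ ∧ _).2
  refine ⟨fun t => ?_, h1⟩
  have h3 : ∑ t' ∈ univ.erase t, J t' ≤ ∑ t', u t' :=
    (sum_le_sum fun t' _ => h1 t').trans
      (sum_le_sum_of_subset_of_nonneg (erase_subset _ _) fun t' _ _ => abs_nonneg _)
  have h4 := add_sum_erase univ J (mem_univ t)
  have h5 := neg_abs_le (i - #I)
  have h6 := abs_nonneg (i - #I)
  change -(|i - #I| + ∑ t, u t) ≤ J t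
  omega

theorem hv_fold (G : IsGM D.β pc) (P : HvPr D.β pc π) {j : τ → ℤ} {i : ℤ}
    {v : (τ → ℤ) → Finset σ → M} (hv : v ∈ D.U pc (SS (AT D.b T) (eT T .all)) j i) :
    ∃ w, hvW D T π j i w ∧ hvG D T π j i w = v := by
  have key : ∀ I e, π e (∑ᶠ J, v J I) = ∑ᶠ J, π e (v J I) := fun I e =>
    map_finsum (π e) (hv_fin G hv I)
  refine ⟨fun I => ∑ᶠ J, v J I, fun I e he => ?_, funext fun J => funext fun I => ?_⟩
  · rw [key] at he
    obtain ⟨J, hJ⟩ : ∃ J, π e (v J I) ≠ 0 := by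
      by_contra h
      push Not at h
      exact he (finsum_eq_zero_of_forall_eq_zero h)
    refine ⟨J, by_contra fun h => hJ ?_, by_contra fun h => hJ (P.ne _ _ (Ne.symm h) _ (hv J I).1)⟩
    rw [(hv J I).2 h, map_zero]
  · by_cases h : hvA D T i I J
    · rw [hvG_pos h, key, finsum_eq_single _ J fun J' e =>
        P.ne _ _ (fun e' => e (hvE_inj e').symm) _ (hv J' I).1]
      exact P.self _ _ (hv J I).1
    · rw [hvG_neg h, (hv J I).2 h]

end Pool.Agent.Lib.MP_40dc3c_ag.P
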