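import Pool.Agent.Lib.MP_40dc3c_ag.P.Les
import Pool.Agent.Lib.MP_40dc3c_ag.P.Car

/-! Complexes of period two; supports in a Koszul module. -/

namespace Pool.Agent.Lib.MP_40dc3c_ag.P

open Finset Function

set_option linter.unusedSectionVars false

theorem th_two (e : ZMod 2) : e + 1 + 1 = e := by revert e; decide

theorem th_one : (1 + 1 : ZMod 2) = 0 := rfl

theorem th_nx (i : ZMod 2) : Equiv.addRight 1 i = i + 1 := rfl

theorem th_add {k VA VB VC : Type} [Field k] [AddCommGroup VA] [Module k VA] [AddCommGroup VB]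
    [Module k VB] [AddCommGroup VC] [Module k VC] {dA : VA →ₗ[k] VA} {dB : VB →ₗ[k] VB}
    {dC : VC →ₗ[k] VC} {UA : ZMod 2 → Submodule k VA} {UB : ZMod 2 → Submodule k VB}
    {UC : ZMod 2 → Submodule k VC} {f : VA →ₗ[k] VB} {g : VB →ₗ[k] VC}
    (hA : IsCx (Equiv.addRight 1) dA UA) (hB : IsCx (Equiv.addRight 1) dB UB)
    (hC : IsCx (Equiv.addRight 1) dC UC) (h : Ses dA dB dC UA UB UC f g)
    (fA : ∀ i, FiniteDimensional k (Hm dA (UA (i + 1)) (UA i)))
    (fC : ∀ i, FiniteDimensional k (Hm dC (UC (i + 1)) (UC i))) :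
    (∀ i, FiniteDimensional k (Hm dB (UB (i + 1)) (UB i))) ∧
      hd dB (UB 1) (UB 0) - hd dB (UB 0) (UB 1) = (hd dA (UA 1) (UA 0) - hd dA (UA 0) (UA 1)) +
        (hd dC (UC 1) (UC 0) - hd dC (UC 0) (UC 1)) := by
  have fA' := fun i => (th_nx i).symm ▸ fA i
  have fC' := fun i => (th_nx i).symm ▸ fC i
  refine ⟨fun i => th_nx i ▸ les_fin hA hB hC h fA' fC' i, ?_⟩
  obtain ⟨α, β, γ, e⟩ := les_nat hA hB hC h fA' fC'
  have e0 := e 0
  have e1 := e 1
  rw [th_nx, zero_add] at e0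
  rw [th_nx, th_one] at e1
  omega

theorem th_congr {k VA VB : Type} [Field k] [AddCommGroup VA] [Module k VA] [AddCommGroup VB]
    [Module k VB] {dA : VA →ₗ[k] VA} {dB : VB →ₗ[k] VB} {UA : ZMod 2 → Submodule k VA}
    {UB : ZMod 2 → Submodule k VB} {f : VA →ₗ[k] VB} (hA : IsCx (Equiv.addRight 1) dA UA)
    (hb : ∀ i, Set.BijOn f (UA i) (UB i)) (u : kˣ)
    (hd' : ∀ i, ∀ x ∈ UA i, f (dA x) = u • dB (f x)) :
    hd dA (UA 1) (UA 0) - hd dA (UA 0) (UA 1) = hd dB (UB 1) (UB 0) - hd dB (UB 0) (UB 1) ∧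
      ∀ i, FiniteDimensional k (Hm dA (UA (i + 1)) (UA i)) ↔
        FiniteDimensional k (Hm dB (UB (i + 1)) (UB i)) := by
  have r1 := rank_congr (nx' := Equiv.addRight (1 : ZMod 2)) (U' := UB) hA (fun i => i)
    (fun _ => rfl) hb u hd'
  have r2 := hd_congr (nx' := Equiv.addRight (1 : ZMod 2)) (U' := UB) hA (fun i => i)
    (fun _ => rfl) hb u hd'
  have e0 := r2 0
  have e1 := r2 1
  rw [th_nx, zero_add] at e0
  rw [th_nx, th_one] at e1
  refine ⟨by rw [e0, e1], fun i => ?_⟩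
  have e := r1 i
  rw [th_nx] at e
  rw [FiniteDimensional, FiniteDimensional, ← Module.rank_lt_aleph0_iff,
    ← Module.rank_lt_aleph0_iff, e]

variable {k : Type} [Field k] {σ : Type} [LinearOrder σ] {E : Type} [CommRing E] [Algebra k E]
  {M M' M'' : Type} [AddCommGroup M] [Module E M] [Module k M] [IsScalarTower k E M]
  [AddCommGroup M'] [Module E M'] [Module k M'] [IsScalarTower k E M']
  [AddCommGroup M''] [Module E M''] [Module k M''] [IsScalarTower k E M'']
  {A : Finset σ} {a c : σ → E}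

section ks

omit [Algebra k E] [IsScalarTower k E M] [IsScalarTower k E M']

variable {e : ZMod 2} {v : Finset σ → M} {s : σ}

theorem ks_smul (r : E) (hv : v ∈ KS M k A e) : r • v ∈ KS M k A e := fun I h => by
  rw [Pi.smul_apply, hv I h, smul_zero]

omit [Module E M] in
theorem ks_mono {A' : Finset σ} (h : A ⊆ A') (hv : v ∈ KS M k A e) : v ∈ KS M k A' e :=
  fun I hI => hv I fun h' => hI ⟨h'.1.trans h, h'.2⟩

theorem ks_io (s : σ) (hv : v ∈ KS M k A (e + 1)) : io E M s v ∈ KS M k (A.erase s) e := by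
  intro I hI
  change (if s ∈ I then 0 else sg s I • v (insert s I)) = 0
  split_ifs with h
  · rfl
  · rw [hv _ fun h' => hI ⟨fun x hx => mem_erase.2 ⟨fun e => h (e ▸ hx),
      h'.1 (mem_insert_of_mem hx)⟩, ?_⟩, smul_zero]
    have := h'.2
    rwa [card_insert_of_notMem h, Nat.cast_succ, add_left_inj] at this

theorem ks_ep (hs : s ∈ A) (hv : v ∈ KS M k A e) : ep E M s v ∈ KS M k A (e + 1) := by
  intro I hI
  change (if s ∈ I then sg s I • v (I.erase s) else 0) = 0
  split_ifs with h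
  · rw [hv _ fun h' => hI ⟨?_, ?_⟩, smul_zero]
    · rw [← insert_erase h]
      exact insert_subset hs h'.1
    · rw [← card_erase_add_one h, Nat.cast_succ, h'.2]
  · rfl

theorem ks_kd (hv : v ∈ KS M k A (e + 1)) : kd M A a c v ∈ KS M k A e := by
  rw [kd_apply]
  refine Submodule.sum_mem _ fun s hs => add_mem (ks_smul _ (ks_mono (erase_subset s A)
    (ks_io s hv))) (ks_smul _ ?_)
  have := ks_ep (E := E) hs hv
  rwa [th_two] at this

theorem ks_io_zero (hv : v ∈ KS M k (A.erase s) e) : io E M s v = 0 := by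
  funext I
  change (if s ∈ I then 0 else sg s I • v (insert s I)) = 0
  split_ifs with h
  · rfl
  · rw [hv _ fun h' => notMem_erase s A (h'.1 (mem_insert_self s I)), smul_zero]

theorem ks_map (g : M →ₗ[E] M') (hv : v ∈ KS M k A e) : g.compLeft _ v ∈ KS M' k A e :=
  fun I h => (congrArg g (hv I h)).trans (map_zero g)

theorem ks_lift (g : M →ₗ[E] M') (hg : Surjective g) {z : Finset σ → M'} (hz : z ∈ KS M' k A e) :
    ∃ y ∈ KS M k A e, g.compLeft _ y = z := by
  classical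
  choose y hy using fun I => hg (z I)
  refine ⟨fun I => if z I = 0 then 0 else y I, fun I h => if_pos (hz I h), funext fun I => ?_⟩
  change g (if z I = 0 then 0 else y I) = z I
  split_ifs with h
  · rw [map_zero, h]
  · exact hy I

theorem ks_div {r : E} (hi : ∀ x : M, r • x = 0 → x = 0) (g : M →ₗ[E] M')
    (hk : ∀ x, g x = 0 ↔ ∃ y, x = r • y) (hv : v ∈ KS M k A e) (h : g.compLeft _ v = 0) :
    ∃ y ∈ KS M k A e, v = r • y := by
  choose y hy using fun I => (hk (v I)).1 (congrFun h I)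
  exact ⟨y, fun I hI => hi _ ((hy I).symm.trans (hv I hI)), funext hy⟩

theorem cl_io (g : M →ₗ[E] M') (s : σ) (v : Finset σ → M) :
    g.compLeft _ (io E M s v) = io E M' s (g.compLeft _ v) :=
  (io_map g.toAddMonoidHom s v).symm

theorem cl_ep (g : M →ₗ[E] M') (s : σ) (v : Finset σ → M) :
    g.compLeft _ (ep E M s v) = ep E M' s (g.compLeft _ v) :=
  (ep_map g.toAddMonoidHom s v).symm

theorem cl_kd (g : M →ₗ[E] M') (v : Finset σ → M) :
    g.compLeft _ (kd M A a c v) = kd M' A a c (g.compLeft _ v) := by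
  simp only [kd_apply, map_sum, map_add, map_smul, cl_io, cl_ep]

theorem kd_erase (hs : s ∈ A) (v : Finset σ → M) : kd M A a c v =
    kd M (A.erase s) a c v + (a s • io E M s v + c s • ep E M s v) := by
  rw [kd_apply, kd_apply, sum_erase_add _ _ hs]

theorem kd_kd (h : ∀ x : M, (∑ s ∈ A, a s * c s) • x = 0) (v : Finset σ → M) :
    kd M A a c (kd M A a c v) = 0 := (kd_sq A a c v).trans (funext fun _ => h _)

theorem th_kill {r : E} (g : M →ₗ[E] M') (hg : Surjective g) (hk : ∀ x, g x = 0 ↔ ∃ y, x = r • y)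
    (x : M') : r • x = 0 := by
  obtain ⟨y, rfl⟩ := hg x
  rw [← map_smul]
  exact (hk _).2 ⟨y, rfl⟩

theorem th_erase (h : ∀ x : M, (∑ s ∈ A, a s * c s) • x = 0) (hs : s ∈ A) (g : M →ₗ[E] M')
    (hg : Surjective g) (hk : ∀ x : M', (a s * c s) • x = 0) (x : M') :
    (∑ s ∈ A.erase s, a s * c s) • x = 0 := by
  obtain ⟨y, rfl⟩ := hg x
  have := congrArg g (h y)
  rwa [map_smul, map_zero, ← sum_erase_add _ _ hs, add_smul, hk, add_zero] at this

end ks

end Pool.Agent.Lib.MP_40dc3c_ag.P
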