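import Pool.Agent.Lib.MP_40dc3c_ag.P.Hb
import Pool.Agent.Lib.MP_40dc3c_ag.P.MDefs
import Pool.Agent.Lib.MP_40dc3c_ag.P.ThA
import Pool.Agent.Lib.MP_40dc3c_ag.P.Hva
import Pool.Agent.Lib.MP_40dc3c_ag.P.Hvb

/-! The periodic complex and its folded form. -/

namespace Pool.Agent.Lib.MP_40dc3c_ag.P

open MvPolynomial Finset Function

set_option linter.unusedSectionVars false

variable {k : Type} [Field k] {σ τ ρ : Type} [LinearOrder σ] [Fintype σ] [Fintype τ] [Finite ρ]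
  {M : Type} [AddCommGroup M] [Module (MvPolynomial ρ k) M] [Module k M]
  [IsScalarTower k (MvPolynomial ρ k) M] {D : Dat k σ τ ρ} {pc : (τ → ℤ) → Submodule k M}
  {T : Finset τ}

/-- the vectors of bounded weight. -/
def hvL (π : (τ → ℤ) → M →ₗ[k] M) (T : Finset τ) (m B : ℤ) : Submodule k (Finset σ → M) where
  carrier := {w | ∀ I e, B < 2 * ∑ t ∈ T, e t + (2 - m) * #I → π e (w I) = 0}
  add_mem' ha hb I e h := by rw [Pi.add_apply, map_add, ha I e h, hb I e h, add_zero]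
  zero_mem' I e _ := map_zero _
  smul_mem' c w hw I e h := by rw [Pi.smul_apply, map_smul, hw I e h, smul_zero]

variable {π : (τ → ℤ) → M →ₗ[k] M}

theorem hv_supp (P : HvPr D.β pc π) (w : Finset σ → M) :
    {x : Finset σ × (τ → ℤ) | π x.2 (w x.1) ≠ 0}.Finite :=
  (Set.finite_iUnion fun I => (P.fin (w I)).image (Prod.mk I)).subset fun x hx =>
    Set.mem_iUnion.2 ⟨x.1, x.2, hx, rfl⟩

theorem hvL_ex (P : HvPr D.β pc π) (T : Finset τ) (S : Finset (Finset σ → M)) :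
    ∃ B, ∀ w ∈ S, w ∈ hvL π T D.m B := by
  obtain ⟨B, hB⟩ := ((S.finite_toSet.biUnion fun w _ => hv_supp P w).image
    fun x => 2 * ∑ t ∈ T, x.2 t + (2 - (D.m : ℤ)) * #x.1).bddAbove
  exact ⟨B, fun w hw I e h => by_contra fun n =>
    h.not_ge (hB ⟨(I, e), Set.mem_biUnion hw n, rfl⟩)⟩

theorem hv_cyc (G : IsGM D.β pc) (P : HvPr D.β pc π) : ∃ B, ∀ w, kd M (AT D.b T) D.a D.c w = 0 →
    ∃ y, w - kd M (AT D.b T) D.a D.c y ∈ hvL π T D.m B := by
  classical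
  have := Fintype.ofFinite ρ
  have := G.fg
  obtain ⟨S, hS⟩ := IsNoetherian.noetherian (LinearMap.ker (kd M (AT D.b T) D.a D.c))
  obtain ⟨B, hB⟩ := hvL_ex P T S
  choose n hn using D.nil
  have nil : ∀ y, D.β y ∈ T → ∀ z ∈ S, (X y ^ n y : MvPolynomial ρ k) • z ∈
      LinearMap.range (kd M (AT D.b T) D.a D.c) := fun y hy z hz => by
    have h0 : kd M (AT D.b T) D.a D.c z = 0 :=
      LinearMap.mem_ker.1 (hS ▸ Submodule.subset_span hz)
    refine (Ideal.span_le (I := (LinearMap.range (kd M (AT D.b T) D.a D.c)).comap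
      (LinearMap.toSpanSingleton _ _ z))).2 ?_ (hn y)
    rintro f ⟨s, hs, rfl | rfl⟩
    · have := kd_ep (AT D.b T) D.a D.c s z
      rw [h0, map_zero, add_zero, if_pos (hv_mem.2 (hs ▸ hy))] at this
      exact ⟨_, this⟩
    · have := kd_io (AT D.b T) D.a D.c s z
      rw [h0, map_zero, add_zero, if_pos (hv_mem.2 (hs ▸ hy))] at this
      exact ⟨_, this⟩
  refine ⟨B + 2 * ∑ y, n y, fun w hw => ?_⟩
  have key : w ∈ (LinearMap.range (kd M (AT D.b T) D.a D.c)).restrictScalars k ⊔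
      hvL π T D.m (B + 2 * ∑ y, n y) := by
    obtain ⟨f, -, rfl⟩ := Submodule.mem_span_finset.1 (hS.ge hw)
    refine sum_mem fun z hz => ?_
    rw [(f z).as_sum, sum_smul]
    refine sum_mem fun d _ => ?_
    rw [gm_mono]
    refine Submodule.smul_mem _ _ ?_
    by_cases h : ∃ y, D.β y ∈ T ∧ n y ≤ d y
    · obtain ⟨y, hy, h⟩ := h
      rw [← tsub_add_cancel_of_le (Finsupp.single_le_iff.2 h), monomial_add_single, mul_smul]
      exact Submodule.mem_sup_left (Submodule.smul_mem (LinearMap.range _) _ (nil y hy z hz))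
    · refine Submodule.mem_sup_right fun I e he => ?_
      rw [Pi.smul_apply, P.smul' (isWeightedHomogeneous_monomial _ d 1 rfl), hB z hz, smul_zero]
      have h1 : ∑ t ∈ T, Finsupp.weight (wt D.β) d t ≤ ∑ y, (n y : ℤ) := by
        rw [gm_wt]
        refine sum_le_sum fun y _ => ?_
        split_ifs with hy
        · exact_mod_cast (not_le.1 fun e => h ⟨y, hy, e⟩).le
        · exact Nat.cast_nonneg _
      simp only [Pi.sub_apply, sum_sub_distrib]
      push_cast at he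
      omega
  obtain ⟨_, ⟨y, rfl⟩, u, hu, rfl⟩ := Submodule.mem_sup.1 key
  exact ⟨y, by rwa [add_sub_cancel_left]⟩

theorem hv_wgt {i : ℤ} {I : Finset σ} {J : τ → ℤ} (h : hvA D T i I J) (j : τ → ℤ) :
    2 * ∑ t ∈ T, hvE D j I J t + (2 - D.m) * #I = 2 * ∑ t ∈ T, j t - D.m * i := by
  obtain ⟨h1, rfl⟩ := h
  rw [hv_S] at h1
  have e1 : ∑ t ∈ T, ∑ s ∈ I, wt D.b s t = #I := by
    rw [sum_comm, sum_congr rfl fun s hs => hv_wt_sum D.b s (hv_mem.1 (h1.1 hs))]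
    simp
  simp only [hvE, Pi.sub_apply, Pi.smul_apply, smul_eq_mul, sum_sub_distrib, Finset.sum_apply, e1,
    ← mul_sum, sum_subset (subset_univ T) fun t _ ht => h1.2 t ht]
  ring

theorem hv_V0 (G : IsGM D.β pc) : ∃ B : ℤ, ∀ j i, B < 2 * ∑ t ∈ T, j t - D.m * i →
    ∀ x ∈ D.U pc (SS (AT D.b T) (eT T .all)) j i, D.d M (SS (AT D.b T) (eT T .all)) x = 0 →
      ∃ y ∈ D.U pc (SS (AT D.b T) (eT T .all)) j (i + 1),
        D.d M (SS (AT D.b T) (eT T .all)) y = x := by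
  obtain ⟨π, P⟩ := G.hvPr
  obtain ⟨B, hB⟩ := hv_cyc (T := T) G P
  refine ⟨B, fun j i hi x hx h0 => ?_⟩
  obtain ⟨i, rfl⟩ : ∃ i', i = i' + 1 := ⟨i - 1, (sub_add_cancel _ _).symm⟩
  obtain ⟨w, h1, rfl⟩ := hv_fold G P hx
  obtain ⟨y, hy⟩ := hB w ((h1.kd P).zero P ((hvG_d P j i w).symm.trans h0))
  refine ⟨_, hvG_mem P j _ y, ?_⟩
  rw [hvG_d P, eq_comm, ← sub_eq_zero, ← map_sub]
  funext J I
  by_cases h : hvA D T (i + 1) I J
  · exact (hvG_pos h _).trans (hy _ _ (by rwa [hv_wgt h]))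
  · exact hvG_neg h _

theorem V0 (G : IsGM D.β pc) (h : D.OK M (AT D.b T) (eT T .all)) : ∃ B : ℤ, ∀ j i,
    B < 2 * ∑ t ∈ T, j t - D.m * i → D.hh pc (AT D.b T) (eT T .all) j i = 0 := by
  obtain ⟨B, hB⟩ := hv_V0 (T := T) G
  exact ⟨B, fun j i hi => (hd_eq_zero (hB j i hi)).1⟩

section

variable [DecidableEq τ]

theorem hv_uniq {j₀ : τ → ℤ} {r r' : τ → ℕ}
    (hr : r ∈ Fintype.piFinset fun t => if t ∈ T then range D.m else {0})
    (hr' : r' ∈ Fintype.piFinset fun t => if t ∈ T then range D.m else {0}) {i i' : ℤ}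
    {I : Finset σ} {J J' : τ → ℤ} (h : hvA D T i I J) (h' : hvA D T i' I J')
    (e : hvE D (j₀ + fun t => (r t : ℤ)) I J = hvE D (j₀ + fun t => (r' t : ℤ)) I J') :
    (r, i) = (r', i') := by
  have key : ∀ t, r t = r' t := fun t => by
    have h1 := Fintype.mem_piFinset.1 hr t
    have h2 := Fintype.mem_piFinset.1 hr' t
    split_ifs at h1 h2
    · have e1 := congrFun e t
      simp only [hvE, Pi.sub_apply, Pi.add_apply, Pi.smul_apply, smul_eq_mul] at e1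
      rw [mem_range] at h1 h2
      have := Int.eq_zero_of_abs_lt_dvd (m := D.m) (x := (r t : ℤ) - r' t) ⟨J t - J' t, by
        linarith⟩ (by rw [abs_lt]; constructor <;> omega)
      omega
    · rw [mem_singleton.1 h1, mem_singleton.1 h2]
  obtain rfl : r = r' := funext key
  obtain rfl := hvE_inj e
  rw [← h.2, ← h'.2]

theorem hv_ex {j₀ : τ → ℤ} (hj : ∀ t, t ∉ T → j₀ t = 0) {I : Finset σ} (hI : I ⊆ AT D.b T)
    {e : τ → ℤ} (he : ∀ t, t ∉ T → e t = 0) :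
    ∃ r ∈ Fintype.piFinset fun t => if t ∈ T then range D.m else {0}, ∃ J,
      hvA D T (#I + 2 * ∑ t, J t) I J ∧ hvE D (j₀ + fun t => (r t : ℤ)) I J = e := by
  have hm : (0 : ℤ) < D.m := by exact_mod_cast D.pos
  obtain ⟨u, hu⟩ : ∃ u : τ → ℤ, u = e + ∑ s ∈ I, wt D.b s - j₀ := ⟨_, rfl⟩
  have h0 : ∀ t, t ∉ T → u t = 0 := fun t ht => by
    rw [hu, Pi.sub_apply, Pi.add_apply, he t ht, hj t ht, Finset.sum_apply,
      sum_eq_zero fun s hs => hv_wt fun e => ht (by rw [e]; exact hv_mem.1 (hI hs))]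
    rfl
  refine ⟨fun t => (u t % D.m).toNat, Fintype.mem_piFinset.2 fun t => ?_, fun t => -(u t / D.m),
    ⟨hv_S.2 ⟨hI, fun t ht => by simp [h0 t ht]⟩, rfl⟩, funext fun t => ?_⟩
  · split_ifs with ht
    · have := Int.emod_lt_of_pos (u t) hm
      have := Int.emod_nonneg (u t) hm.ne'
      rw [mem_range]
      omega
    · simp [h0 t ht]
  · have h1 := Int.emod_add_mul_ediv (u t) D.m
    have h2 := congrFun hu t
    simp only [hvE, Pi.sub_apply, Pi.add_apply, Pi.smul_apply, smul_eq_mul,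
      Int.toNat_of_nonneg (Int.emod_nonneg (u t) hm.ne')] at h2 ⊢
    linarith

theorem hv_par {i : ℤ} {I : Finset σ} {J : τ → ℤ} (h : hvA D T i I J) :
    (#I : ZMod 2) = (i : ZMod 2) := by
  rw [← h.2]
  push_cast
  rw [show (2 : ZMod 2) = 0 from rfl, zero_mul, add_zero]

theorem hv_inj (P : HvPr D.β pc π) (h0 : ∀ (a : τ → ℤ) t, t ∉ T → a t ≠ 0 → pc a = ⊥)
    {j₀ : τ → ℤ} (hj : ∀ t, t ∉ T → j₀ t = 0) {p : ZMod 2} {w : Finset σ → M}
    (hw : w ∈ KS M k (AT D.b T) p)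
    (h : ∀ r ∈ Fintype.piFinset fun t => if t ∈ T then range D.m else {0}, ∀ i : ℤ,
      (i : ZMod 2) = p → hvG D T π (j₀ + fun t => (r t : ℤ)) i w = 0) : w = 0 :=
  funext fun I => P.zero fun e => by_contra fun n => by
    have hI : I ⊆ AT D.b T ∧ (#I : ZMod 2) = p := by_contra fun c => n (by rw [hw I c, map_zero])
    obtain ⟨r, hr, J, h1, rfl⟩ := hv_ex (D := D) hj hI.1 (e := e) fun t ht => by_contra fun c =>
      n ((Submodule.mem_bot k).1 (h0 e t ht c ▸ P.mem e _))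
    exact n ((hvG_pos h1 w).symm.trans
      (congrFun (congrFun (h r hr _ ((hv_par h1).symm.trans hI.2)) J) I))

theorem hv_sec (G : IsGM D.β pc) (P : HvPr D.β pc π) (j₀ : τ → ℤ) {r : τ → ℕ}
    (hr : r ∈ Fintype.piFinset fun t => if t ∈ T then range D.m else {0}) {i : ℤ}
    {v : (τ → ℤ) → Finset σ → M}
    (hv : v ∈ D.U pc (SS (AT D.b T) (eT T .all)) (j₀ + fun t => (r t : ℤ)) i) :
    ∃ x ∈ KS M k (AT D.b T) (i : ZMod 2), hvG D T π (j₀ + fun t => (r t : ℤ)) i x = v ∧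
      ∀ r' ∈ Fintype.piFinset fun t => if t ∈ T then range D.m else {0}, ∀ i' : ℤ,
        (r', i') ≠ (r, i) → hvG D T π (j₀ + fun t => (r' t : ℤ)) i' x = 0 := by
  obtain ⟨w, h1, h2⟩ := hv_fold G P hv
  refine ⟨w, fun I hI => P.zero fun e => by_contra fun n => ?_, h2, fun r' hr' i' hn =>
    funext fun J => funext fun I => ?_⟩
  · obtain ⟨J, h3, -⟩ := h1 I e n
    exact hI ⟨h3.1.1, hv_par h3⟩
  · by_cases h : hvA D T i' I J
    · refine (hvG_pos h w).trans (by_contra fun n => ?_)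
      obtain ⟨J', h3, h4⟩ := h1 I _ n
      exact hn (hv_uniq hr' hr h h3 h4.symm)
    · exact hvG_neg h w

theorem hv_half (G : IsGM D.β pc) (h0 : ∀ (a : τ → ℤ) t, t ∉ T → a t ≠ 0 → pc a = ⊥)
    {j₀ : τ → ℤ} (hj : ∀ t, t ∉ T → j₀ t = 0) (p : ZMod 2) (F : Finset ℤ)
    (hF : ∀ r ∈ Fintype.piFinset fun t => if t ∈ T then range D.m else {0}, ∀ i, i ∉ F →
      D.hh pc (AT D.b T) (eT T .all) (j₀ + fun t => (r t : ℤ)) i = 0) :
    hd ((kd M (AT D.b T) D.a D.c).restrictScalars k) (KS M k (AT D.b T) (p + 1))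
      (KS M k (AT D.b T) p) =
    ∑ r ∈ Fintype.piFinset fun t => if t ∈ T then range D.m else {0}, ∑ i ∈ F,
      if (i : ZMod 2) = p then D.hh pc (AT D.b T) (eT T .all) (j₀ + fun t => (r t : ℤ)) i
      else 0 := by
  obtain ⟨π, P⟩ := G.hvPr
  have fd := fun (l : (τ → ℕ) × ℤ) =>
    haveI := U_fin G (SS (AT D.b T) (eT T .all)) (j₀ + fun t => (l.1 t : ℤ)) l.2
    Hm_fin (dA := D.d M (SS (AT D.b T) (eT T .all)))
      (D.U pc (SS (AT D.b T) (eT T .all)) (j₀ + fun t => (l.1 t : ℤ)) (l.2 + 1))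
      (D.U pc (SS (AT D.b T) (eT T .all)) (j₀ + fun t => (l.1 t : ℤ)) l.2)
  refine (hv_sum (d := (kd M (AT D.b T) D.a D.c).restrictScalars k)
    (U := KS M k (AT D.b T) p) (U' := KS M k (AT D.b T) (p + 1)) (δ := D.d M (SS (AT D.b T) (eT T .all)))
    (L := {l : (τ → ℕ) × ℤ | (l.1 ∈ Fintype.piFinset fun t => if t ∈ T then range D.m else {0}) ∧
      (l.2 : ZMod 2) = p})
    (Y := fun l => D.U pc (SS (AT D.b T) (eT T .all)) (j₀ + fun t => (l.1 t : ℤ)) l.2)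
    (Y' := fun l => D.U pc (SS (AT D.b T) (eT T .all)) (j₀ + fun t => (l.1 t : ℤ)) (l.2 + 1))
    (g := fun l => hvG D T π (j₀ + fun t => (l.1 t : ℤ)) l.2)
    (g' := fun l => hvG D T π (j₀ + fun t => (l.1 t : ℤ)) (l.2 + 1))
    (g'' := fun l => hvG D T π (j₀ + fun t => (l.1 t : ℤ)) (l.2 - 1))
    (fun l y => hvG_d P _ _ y) (fun l x => ?_) (fun y hy => ks_kd hy)
    (fun x hx h => hv_inj P h0 hj hx fun r hr i hi => h (r, i) ⟨hr, hi⟩)
    (fun x hx h => hv_inj P h0 hj (p := p + 1) (ks_kd (by rwa [th_two])) fun r hr i hi => ?_)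
    (fun l hl v hv => ?_) (fun l hl v hv => ?_) (fun l x => hvG_mem P _ _ x)
    (fun l x => hvG_mem P _ _ x) (fun x => ?_)
    (((Fintype.piFinset fun t => if t ∈ T then range D.m else {0}) ×ˢ F).filter
      fun l => (l.2 : ZMod 2) = p)
    (fun l hl => ⟨(mem_product.1 (mem_filter.1 hl).1).1, (mem_filter.1 hl).2⟩)
    (fun l hl hn => Hm_eq_bot_iff.1 ?_) fd).trans (by rw [sum_filter, sum_product]; rfl)
  · have := hvG_d (T := T) P (j₀ + fun t => (l.1 t : ℤ)) (l.2 - 1) x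
    rwa [sub_add_cancel] at this
  · have := h (r, i + 1) ⟨hr, by
      change ((i + 1 : ℤ) : ZMod 2) = p
      rw [Int.cast_add, hi, Int.cast_one, th_two]⟩
    simpa only [add_sub_cancel_right] using this
  · obtain ⟨x, hx, e, h⟩ := hv_sec G P j₀ hl.1 hv
    exact ⟨x, hl.2 ▸ hx, e, fun l' hl' n => h _ hl'.1 _ n⟩
  · obtain ⟨x, hx, e, h⟩ := hv_sec G P j₀ hl.1 hv
    rw [Int.cast_add, hl.2, Int.cast_one] at hx
    exact ⟨x, hx, e, fun l' hl' n => h _ hl'.1 _ fun c =>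
      n (Prod.ext (Prod.mk.inj c).1 (add_right_cancel (Prod.mk.inj c).2))⟩
  · refine ((hv_supp P x).biUnion (t := fun y => {l : (τ → ℕ) × ℤ |
      (l.1 ∈ Fintype.piFinset fun t => if t ∈ T then range D.m else {0}) ∧ ∃ J,
        hvA D T l.2 y.1 J ∧ hvE D (j₀ + fun t => (l.1 t : ℤ)) y.1 J = y.2}) fun y _ =>
      Set.Subsingleton.finite ?_).subset fun l hl => ?_
    · rintro l ⟨h1, J, h2, h3⟩ l' ⟨h1', J', h2', h3'⟩
      exact hv_uniq h1 h1' h2 h2' (h3.trans h3'.symm)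
    · obtain ⟨J, hJ⟩ := Function.ne_iff.1 hl.2
      obtain ⟨I, hI⟩ := Function.ne_iff.1 hJ
      have h : hvA D T l.2 I J := by_contra fun c => hI (hvG_neg c x)
      rw [hvG_pos h] at hI
      exact Set.mem_biUnion (x := (I, _)) hI ⟨hl.1.1, J, h, rfl⟩
  · have := fd l
    have e := hF _ hl.1 l.2 fun c => hn (mem_filter.2 ⟨mem_product.2 ⟨hl.1, c⟩, hl.2⟩)
    exact Submodule.finrank_eq_zero.1 (Nat.cast_eq_zero.1 e)

end

theorem V4 [DecidableEq τ] (G : IsGM D.β pc) (h : D.OK M (AT D.b T) (eT T .all))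
    (h0 : ∀ (a : τ → ℤ) t, t ∉ T → a t ≠ 0 → pc a = ⊥) (j₀ : τ → ℤ) (hj : ∀ t, t ∉ T → j₀ t = 0) :
    ∑ r ∈ Fintype.piFinset fun t => if t ∈ T then range D.m else {0},
      D.ch pc (AT D.b T) (eT T .all) (j₀ + fun t => (r t : ℤ)) = theta M k (AT D.b T) D.a D.c :=
    by
  obtain ⟨B, hB⟩ := V0 G h
  have hm : (1 : ℤ) ≤ D.m := by exact_mod_cast D.pos
  have fin : ∀ j, (support (D.hh pc (AT D.b T) (eT T .all) j)).Finite := fun j => by
    obtain ⟨N, hN⟩ := hh_top (A := AT D.b T) (ε := eT T .all) G j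
    refine (Set.finite_Icc (-|B - 2 * ∑ t ∈ T, j t|) N).subset fun i hi =>
      ⟨by_contra fun c => hi (hB j i ?_), by_contra fun c => hi (hN i (not_le.1 c))⟩
    have h1 := le_abs_self (B - 2 * ∑ t ∈ T, j t)
    have h2 := abs_nonneg (B - 2 * ∑ t ∈ T, j t)
    nlinarith
  obtain ⟨F, hF⟩ : ∃ F : Finset ℤ,
      ∀ r ∈ Fintype.piFinset fun t => if t ∈ T then range D.m else {0}, ∀ i, i ∉ F →
        D.hh pc (AT D.b T) (eT T .all) (j₀ + fun t => (r t : ℤ)) i = 0 :=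
    ⟨(Fintype.piFinset fun t => if t ∈ T then range D.m else {0}).biUnion fun r =>
      (fin (j₀ + fun t => (r t : ℤ))).toFinset, fun r hr i hi => by_contra fun c =>
        hi (mem_biUnion.2 ⟨r, hr, (fin _).mem_toFinset.2 c⟩)⟩
  have e0 := hv_half G h0 hj 0 F hF
  have e1 := hv_half G h0 hj 1 F hF
  rw [zero_add] at e0
  rw [th_one] at e1
  rw [theta, e0, e1, ← sum_sub_distrib]
  refine sum_congr rfl fun r hr => ?_
  rw [Dat.ch, finsum_eq_sum_of_support_subset (s := F) _ fun i hi => by_contra fun c =>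
    hi (by rw [hF r hr i c, mul_zero]), ← sum_sub_distrib]
  refine sum_congr rfl fun i _ => ?_
  rcases Int.even_or_odd i with c | c
  · have c' : (i : ZMod 2) = 0 := (ZMod.intCast_eq_zero_iff_even).2 c
    rw [Int.negOnePow_even i c, c']
    simp
  · have c' : (i : ZMod 2) = 1 := (ZMod.intCast_eq_one_iff_odd).2 c
    rw [Int.negOnePow_odd i c, c']
    simp

end Pool.Agent.Lib.MP_40dc3c_ag.P
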