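import Pool.Agent.Lib.MP_40dc3c_ag.P.Hb
import Pool.Agent.Lib.MP_40dc3c_ag.P.MDefs
import Pool.Agent.Lib.MP_40dc3c_ag.P.Th

/-! The folded complex is the direct sum of the periodic complexes. -/

namespace Pool.Agent.Lib.MP_40dc3c_ag.P

open MvPolynomial Finset Function

/-- the homology of a direct sum of complexes. -/
theorem hd_sum {k V W Λ : Type} [Field k] [AddCommGroup V] [Module k V] [AddCommGroup W]
    [Module k W] {d : V →ₗ[k] V} {d' : W →ₗ[k] W} {Z : ZMod 2 → Submodule k V}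
    {U : Λ → Submodule k W} (nx : Λ ≃ Λ) (par : Λ → ZMod 2) (hp : ∀ l, par (nx l) = par l + 1)
    (p : Λ → V →ₗ[k] W) (hZ : ∀ e, ∀ x ∈ Z (e + 1), d x ∈ Z e) (hm : ∀ l x, p l x ∈ U l)
    (hz : ∀ e l, ∀ x ∈ Z e, par l ≠ e → p l x = 0) (hc : ∀ l x, p l (d x) = d' (p (nx l) x))
    (hi : ∀ e, ∀ x ∈ Z e, (∀ l, p l x = 0) → x = 0) (hf : ∀ x, {l | p l x ≠ 0}.Finite)
    (hs : ∀ l, ∀ v ∈ U l, ∃ x ∈ Z (par l), p l x = v ∧ ∀ l', l' ≠ l → p l' x = 0)
    (F : Finset Λ) (hF : ∀ l, l ∉ F → Hm d' (U (nx l)) (U l) = ⊥)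
    (fin : ∀ l, FiniteDimensional k (Hm d' (U (nx l)) (U l))) (e : ZMod 2) :
    hd d (Z (e + 1)) (Z e) = ∑ l ∈ F with par l = e, hd d' (U (nx l)) (U l) := by
  classical
  have lift : ∀ (e : ZMod 2) (v : Λ → W), (∀ l, v l ∈ U l) → (∀ l, par l ≠ e → v l = 0) →
      {l | v l ≠ 0}.Finite → ∃ x ∈ Z e, ∀ l, p l x = v l := fun e v h1 h2 h3 => by
    choose x a b c using fun l => hs l (v l) (h1 l)
    refine ⟨∑ l ∈ h3.toFinset, x l, Submodule.sum_mem _ fun l hl => ?_, fun l => ?_⟩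
    · exact (not_not.1 (mt (h2 l) (h3.mem_toFinset.1 hl))) ▸ a l
    · rw [map_sum, sum_eq_single l (fun l' _ h => c l' l h.symm) fun h => ?_, b]
      rw [b]
      exact not_not.1 (mt h3.mem_toFinset.2 h)
  have cyc : ∀ l x, d x = 0 → d' (p l x) = 0 := fun l x hx => by
    rw [← nx.apply_symm_apply l, ← hc, hx, map_zero]
  let φ : ↥(Z e ⊓ LinearMap.ker d) →ₗ[k]
      ∀ l : {l ∈ F | par l = e}, Hm d' (U (nx l.1)) (U l.1) := LinearMap.pi fun l =>
    (((U (nx l.1)).map d').mkQ ∘ₗ p l.1 ∘ₗ Submodule.subtype _).codRestrict _ fun x =>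
      ⟨p l.1 x.1, ⟨hm _ _, cyc _ _ x.2.2⟩, rfl⟩
  let ψ : ↥(Z e ⊓ LinearMap.ker d) →ₗ[k] Hm d (Z (e + 1)) (Z e) :=
    (((Z (e + 1)).map d).mkQ ∘ₗ Submodule.subtype _).codRestrict _ fun x => ⟨x.1, x.2, rfl⟩
  have sψ : Surjective ψ := by
    rintro ⟨_, x, hx, rfl⟩
    exact ⟨⟨x, hx⟩, rfl⟩
  have sφ : Surjective φ := fun w => by
    choose z hz1 hz2 using fun l => (w l).2
    obtain ⟨x, a, b⟩ := lift e (fun l => if h : l ∈ {l ∈ F | par l = e} then z ⟨l, h⟩ else 0)
      (fun l => by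
        split_ifs with h
        exacts [(hz1 ⟨l, h⟩).1, zero_mem _]) 
      (fun l hl => dif_neg fun h : l ∈ {l ∈ F | par l = e} => hl (mem_filter.1 h).2)
      ((finite_toSet {l ∈ F | par l = e}).subset fun l hl => not_not.1 fun h => hl (dif_neg h))
    refine ⟨⟨x, a, hi (e + 1) _ (hZ _ _ (by rw [th_two]; exact a)) fun l => ?_⟩,
      funext fun l => Subtype.ext ?_⟩
    · rw [hc, b]
      split_ifs with h
      exacts [(hz1 ⟨_, h⟩).2, map_zero _]
    · rw [← hz2 l]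
      exact congrArg (Submodule.mkQ _) ((b l.1).trans (dif_pos l.2))
  have hk : LinearMap.ker ψ = LinearMap.ker φ := by
    ext ⟨x, hx, hx0⟩
    rw [LinearMap.mem_ker, LinearMap.mem_ker, Subtype.ext_iff, _root_.funext_iff]
    refine ⟨fun h l => Subtype.ext ?_, fun h => (Submodule.Quotient.mk_eq_zero _).2 ?_⟩
    · obtain ⟨y, -, rfl⟩ := (Submodule.Quotient.mk_eq_zero _).1 h
      exact (Submodule.Quotient.mk_eq_zero _).2 ⟨_, hm _ _, (hc _ _).symm⟩
    · have : ∀ l, ∃ y ∈ U (nx l), d' y = p l x ∧ (p l x = 0 → y = 0) := fun l => by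
        by_cases h0 : p l x = 0
        · exact ⟨0, zero_mem _, by rw [h0, map_zero], fun _ => rfl⟩
        by_cases hl : l ∈ F
        · obtain ⟨y, a, b⟩ := (Submodule.Quotient.mk_eq_zero _).1 (congrArg Subtype.val
            (h ⟨l, mem_filter.2 ⟨hl, not_not.1 (mt (hz e l x hx) h0)⟩⟩))
          exact ⟨y, a, b, fun h => (h0 h).elim⟩
        · obtain ⟨y, a, b⟩ := Hm_eq_bot_iff.1 (hF l hl) _ (hm l x) (cyc l x hx0)
          exact ⟨y, a, b, fun h => (h0 h).elim⟩
      choose y a b c using this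
      obtain ⟨Y, a', b'⟩ := lift (e + 1) (fun l => y (nx.symm l))
        (fun l => by simpa using a (nx.symm l))
        (fun l hl => c _ (hz e _ x hx fun h => hl (by rw [← h, ← hp, nx.apply_symm_apply])))
        (((hf x).preimage nx.symm.injective.injOn).subset fun l hl h => hl (c _ h))
      refine ⟨Y, a', sub_eq_zero.1 (hi e _ (sub_mem (hZ _ _ a') hx) fun l => ?_)⟩
      rw [map_sub, hc, b', nx.symm_apply_apply, b]
      exact sub_self _
  rw [hd, ← (ψ.quotKerEquivOfSurjective sψ).finrank_eq, (Submodule.quotEquivOfEq _ _ hk).finrank_eq,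
    (φ.quotKerEquivOfSurjective sφ).finrank_eq, Module.finrank_pi_fintype, Nat.cast_sum]
  exact sum_coe_sort _ fun l => hd d' (U (nx l)) (U l)

theorem hw_fin {τ : Type} [Fintype τ] (c : τ → ℤ) (n : ℤ) :
    {J : τ → ℤ | J ≤ c ∧ ∑ t, J t = n}.Finite := by
  classical
  refine (Set.finite_Icc (fun t => n - ∑ u ∈ univ.erase t, c u) c).subset fun J hJ =>
    ⟨fun t => ?_, hJ.1⟩
  have h1 := sum_le_sum fun u (_ : u ∈ univ.erase t) => hJ.1 u
  have h2 := add_sum_erase univ J (mem_univ t)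
  have h3 := hJ.2
  change n - _ ≤ J t
  omega

theorem hw_uniq {m r r' : ℕ} {a a' : ℤ} (h1 : r < m) (h2 : r' < m)
    (h : (r : ℤ) - m * a = r' - m * a') : r = r' ∧ a = a' := by
  have e : a = a' := by
    rcases lt_trichotomy a a' with c | c | c
    · nlinarith
    · exact c
    · nlinarith
  subst e
  exact ⟨by omega, rfl⟩

variable {k : Type} [Field k] {σ τ ρ : Type} [LinearOrder σ] [Fintype σ] [Fintype τ] [Finite ρ]
  {M : Type} [AddCommGroup M] [Module (MvPolynomial ρ k) M] [Module k M]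
  [IsScalarTower k (MvPolynomial ρ k) M] {D : Dat k σ τ ρ} {pc : (τ → ℤ) → Submodule k M}
  {T : Finset τ}

open Classical in
/-- the component of a folded vector. -/
noncomputable def unf (D : Dat k σ τ ρ) (π : (τ → ℤ) → M →ₗ[k] M) (S : Set (Finset σ × (τ → ℤ)))
    (j : τ → ℤ) (i : ℤ) : (Finset σ → M) →ₗ[k] (τ → ℤ) → Finset σ → M :=
  LinearMap.pi fun J => LinearMap.pi fun I => if (I, J) ∈ S ∧ (#I : ℤ) + 2 * ∑ t, J t = i then
    π (j - ∑ s ∈ I, wt D.b s - (D.m : ℤ) • J) ∘ₗ LinearMap.proj I else 0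

omit [LinearOrder σ] [Fintype σ] [Finite ρ] [Module (MvPolynomial ρ k) M]
  [IsScalarTower k (MvPolynomial ρ k) M] in
open Classical in
theorem unf_apply (π : (τ → ℤ) → M →ₗ[k] M) (S : Set (Finset σ × (τ → ℤ))) (j : τ → ℤ) (i : ℤ)
    (x : Finset σ → M) (J : τ → ℤ) (I : Finset σ) : unf D π S j i x J I =
      if (I, J) ∈ S ∧ (#I : ℤ) + 2 * ∑ t, J t = i then
        π (j - ∑ s ∈ I, wt D.b s - (D.m : ℤ) • J) (x I) else 0 := by
  simp only [unf, LinearMap.pi_apply]
  split_ifs <;> rfl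

omit [LinearOrder σ] [Fintype τ] in
theorem mem_SS_all {b : σ → τ} {I : Finset σ} {J : τ → ℤ} :
    (I, J) ∈ SS (AT b T) (eT T .all) ↔ (∀ s ∈ I, b s ∈ T) ∧ ∀ t, t ∉ T → J t = 0 := by
  refine and_congr (forall₂_congr fun s _ => by simp [AT]) (forall_congr' fun t => ?_)
  by_cases h : t ∈ T <;> simp [eT, h, Ty.ok]

omit [Finite ρ] in
theorem unf_kd {π : (τ → ℤ) → M →ₗ[k] M} (h6 : ∀ (f : MvPolynomial ρ k) e,
      f.IsWeightedHomogeneous (wt D.β) e → ∀ j x, π (j + e) (f • x) = f • π j x)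
    (j : τ → ℤ) (i : ℤ) (x : Finset σ → M) :
    unf D π (SS (AT D.b T) (eT T .all)) j i (kd M (AT D.b T) D.a D.c x) =
      D.d M (SS (AT D.b T) (eT T .all)) (unf D π (SS (AT D.b T) (eT T .all)) j (i + 1) x) := by
  classical
  funext J I
  change _ = if (I, J) ∈ SS (AT D.b T) (eT T .all) then td M D.b D.a D.c _ J I else 0
  rw [unf_apply]
  by_cases hS : (I, J) ∈ SS (AT D.b T) (eT T .all)
  swap
  · rw [if_neg hS, if_neg fun h => hS h.1]
  have hS' := mem_SS_all.1 hS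
  have hA : ∀ s, s ∈ AT D.b T ↔ D.b s ∈ T := fun s => by simp [AT]
  have hw : ∀ s, ∑ t, wt D.b s t = 1 := fun s => by simp [wt]
  have key : ∀ s ∈ AT D.b T, (D.a s • io (MvPolynomial ρ k) M s
      (unf D π (SS (AT D.b T) (eT T .all)) j (i + 1) x J) + D.c s • ep (MvPolynomial ρ k) M s
      (unf D π (SS (AT D.b T) (eT T .all)) j (i + 1) x (J + wt D.b s))) I =
      if (#I : ℤ) + 2 * ∑ t, J t = i then π (j - ∑ s ∈ I, wt D.b s - (D.m : ℤ) • J)
        ((D.a s • io (MvPolynomial ρ k) M s x + D.c s • ep (MvPolynomial ρ k) M s x) I)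
      else 0 := fun s hs => by
    simp only [Pi.add_apply, Pi.smul_apply, io_apply, ep_apply, unf_apply]
    by_cases hI : s ∈ I
    · have h1 : (I.erase s, J + wt D.b s) ∈ SS (AT D.b T) (eT T .all) :=
        mem_SS_all.2 ⟨fun r hr => hS'.1 r (mem_of_mem_erase hr), fun t ht => by
          have : t ≠ D.b s := fun e => ht (e ▸ (hA s).1 hs)
          simp [hS'.2 t ht, wt, this]⟩
      have h2 : (#(I.erase s) : ℤ) + 2 * ∑ t, (J t + wt D.b s t) = i + 1 ↔
          (#I : ℤ) + 2 * ∑ t, J t = i := by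
        rw [sum_add_distrib, hw, ← card_erase_add_one hI]
        omega
      have h3 : j - ∑ s ∈ I, wt D.b s - (D.m : ℤ) • J = j - ∑ s ∈ I.erase s, wt D.b s -
          (D.m : ℤ) • (J + wt D.b s) + ((D.m : ℤ) - 1) • wt D.b s := by
        rw [← sum_erase_add _ _ hI]
        module
      simp only [if_pos hI, h1, h2, true_and, smul_zero, zero_add, h3, h6 _ _ (D.hc s), map_zsmul]
      split_ifs <;> simp
    · have h1 : (insert s I, J) ∈ SS (AT D.b T) (eT T .all) :=
        mem_SS_all.2 ⟨forall_mem_insert _ _ _ |>.2 ⟨(hA s).1 hs, hS'.1⟩, hS'.2⟩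
      have h2 : (#(insert s I) : ℤ) + 2 * ∑ t, J t = i + 1 ↔ (#I : ℤ) + 2 * ∑ t, J t = i := by
        rw [card_insert_of_notMem hI]
        omega
      have h3 : j - ∑ s ∈ I, wt D.b s - (D.m : ℤ) • J = j - ∑ s ∈ insert s I, wt D.b s -
          (D.m : ℤ) • J + wt D.b s := by
        rw [sum_insert hI]
        module
      simp only [if_neg hI, h1, h2, true_and, smul_zero, add_zero, h3, h6 _ _ (D.ha s), map_zsmul]
      split_ifs <;> simp
  rw [if_pos hS, td_apply, kd_apply, Finset.sum_apply, Finset.sum_apply, map_sum,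
    ← sum_subset (subset_univ (AT D.b T)) fun s _ hs => ?_, sum_congr rfl key]
  · simp only [hS, true_and]
    split_ifs <;> simp
  · have hI : s ∉ I := fun h => hs (hS.1 h)
    simp only [Pi.add_apply, Pi.smul_apply, io_apply, ep_apply, unf_apply, if_neg hI]
    rw [if_neg fun h => hs (h.1.1 (mem_insert_self s I))]
    simp

theorem V4' [DecidableEq τ] (G : IsGM D.β pc)
    (h0 : ∀ (a : τ → ℤ) t, t ∉ T → a t ≠ 0 → pc a = ⊥) (j₀ : τ → ℤ) (hj : ∀ t, t ∉ T → j₀ t = 0)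
    (hV : ∃ B : ℤ, ∀ j i,
      B < 2 * ∑ t ∈ T, j t - D.m * i → D.hh pc (AT D.b T) (eT T .all) j i = 0) :
    ∑ r ∈ Fintype.piFinset fun t => if t ∈ T then range D.m else {0},
      D.ch pc (AT D.b T) (eT T .all) (j₀ + fun t => (r t : ℤ)) =
      theta M k (AT D.b T) D.a D.c := by
  classical
  obtain ⟨π, h1, h2, h3, h4, h5, h6⟩ := G.exists_proj
  obtain ⟨B, hB⟩ := hV
  obtain ⟨L, hL⟩ := G.low
  set R := Fintype.piFinset fun t => if t ∈ T then range D.m else {0} with hR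
  set S := SS (AT D.b T) (eT T .all) with hS
  have m0 : (0 : ℤ) < D.m := by exact_mod_cast D.pos
  have hr : ∀ (r : R) t, r.1 t < D.m := fun r t => by
    have := Fintype.mem_piFinset.1 r.2 t
    split_ifs at this
    exacts [mem_range.1 this, mem_singleton.1 this ▸ D.pos]
  let jj : R → τ → ℤ := fun r => j₀ + fun t => (r.1 t : ℤ)
  have hfin : ∀ r : R, {i | D.hh pc (AT D.b T) (eT T .all) (jj r) i ≠ 0}.Finite := fun r => by
    obtain ⟨N, hN⟩ := hh_top (A := AT D.b T) (ε := eT T .all) G (jj r)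
    refine (Set.finite_Icc (-|2 * ∑ t ∈ T, jj r t - B|) N).subset fun i hi =>
      ⟨not_lt.1 fun c => hi (hB _ _ ?_), not_lt.1 fun c => hi (hN i c)⟩
    have := neg_abs_le (2 * ∑ t ∈ T, jj r t - B)
    have := abs_nonneg (2 * ∑ t ∈ T, jj r t - B)
    nlinarith
  obtain ⟨N, hN⟩ : ∃ N : Finset ℤ, ∀ r i, i ∉ N → D.hh pc (AT D.b T) (eT T .all) (jj r) i = 0 :=
    ⟨(Set.finite_iUnion hfin).toFinset, fun r i hi => not_not.1 fun c =>
      hi ((Set.Finite.mem_toFinset _).2 (Set.mem_iUnion.2 ⟨r, c⟩))⟩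
  have hd0 : ∀ (r r' : R) (I : Finset σ) (J J' : τ → ℤ),
      jj r - ∑ s ∈ I, wt D.b s - (D.m : ℤ) • J = jj r' - ∑ s ∈ I, wt D.b s - (D.m : ℤ) • J' →
      r = r' ∧ J = J' := fun r r' I J J' e => by
    have := fun t => hw_uniq (a := J t) (a' := J' t) (hr r t) (hr r' t) (by
      have := congrFun e t
      simp only [jj, Pi.sub_apply, Pi.add_apply, Pi.smul_apply, smul_eq_mul] at this
      omega)
    exact ⟨Subtype.ext (funext fun t => (this t).1), funext fun t => (this t).2⟩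
  have fin : ∀ (l : R × ℤ), FiniteDimensional k (Hm (D.d M S) (D.U pc S (jj l.1) (l.2 + 1))
      (D.U pc S (jj l.1) l.2)) := fun l => by
    have := U_fin G S (jj l.1) l.2
    exact Hm_fin _ _
  have par : ∀ (I : Finset σ) (J : τ → ℤ), (((#I : ℤ) + 2 * ∑ t, J t : ℤ) : ZMod 2) = #I :=
    fun I J => by
      rw [Int.cast_add, Int.cast_mul, show ((2 : ℤ) : ZMod 2) = 0 from rfl, zero_mul, add_zero,
        Int.cast_natCast]
  have key := hd_sum (d := (kd M (AT D.b T) D.a D.c).restrictScalars k) (d' := D.d M S)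
    (Z := KS M k (AT D.b T)) (U := fun l : R × ℤ => D.U pc S (jj l.1) l.2)
    ⟨fun l => (l.1, l.2 + 1), fun l => (l.1, l.2 - 1), fun l => by simp, fun l => by simp⟩
    (fun l => (l.2 : ZMod 2)) (fun l => by simp) (fun l => unf D π S (jj l.1) l.2)
    (fun _ _ => ks_kd) (fun l x J I => ?_) (fun e l x hx he => ?_)
    (fun l x => unf_kd h6 _ _ x) (fun e x hx hx0 => ?_) (fun x => ?_) (fun l v hv => ?_)
    (univ ×ˢ N) (fun l hl => ?_) fin
  · have k0 := key 0
    have k1 := key 1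
    rw [zero_add] at k0
    rw [th_one] at k1
    rw [theta, k0, k1, sum_filter, sum_filter, ← sum_sub_distrib, sum_product, ← sum_coe_sort]
    refine sum_congr rfl fun r _ => ?_
    rw [Dat.ch, finsum_eq_sum_of_support_subset (s := N) _ fun i hi => not_not.1 fun c =>
      hi (by rw [hN r i c, mul_zero])]
    refine sum_congr rfl fun i _ => ?_
    rcases Int.even_or_odd i with c | c
    · simp [Int.negOnePow_even i c, ZMod.intCast_eq_zero_iff_even.2 c, Dat.hh, hS, jj]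
    · simp [Int.negOnePow_odd i c, ZMod.intCast_eq_one_iff_odd.2 c, Dat.hh, hS, jj]
  · rw [unf_apply]
    refine ⟨?_, fun c => if_neg c⟩
    split_ifs
    exacts [h1 _ _, zero_mem _]
  · funext J I
    rw [unf_apply]
    split_ifs with c
    · rw [hx I fun c' => he (by rw [← c.2, par, c'.2]), map_zero]
      rfl
    · rfl
  · funext I
    by_cases hI : I ⊆ AT D.b T
    swap
    · exact hx I fun c => hI c.1
    have hI' : ∀ s ∈ I, D.b s ∈ T := fun s hs => by simpa [AT] using hI hs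
    rw [← h5 (x I)]
    refine finsum_eq_zero_of_forall_eq_zero fun a => ?_
    by_cases ha : ∀ t, t ∉ T → a t = 0
    swap
    · push Not at ha
      obtain ⟨t, b, c⟩ := ha
      exact (Submodule.mem_bot k).1 (h0 a t b c ▸ h1 a _)
    obtain ⟨n, hn⟩ : ∃ n, a + ∑ s ∈ I, wt D.b s - j₀ = n := ⟨_, rfl⟩
    have n0 : ∀ t, t ∉ T → n t = 0 := fun t ht => by
      rw [← hn, Pi.sub_apply, Pi.add_apply, ha t ht, hj t ht, Finset.sum_apply,
        sum_eq_zero fun s hs => ?_]
      · rfl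
      · have : t ≠ D.b s := fun e => ht (e ▸ hI' s hs)
        simp [wt, this]
    let r : R := ⟨fun t => (n t % D.m).toNat, Fintype.mem_piFinset.2 fun t => by
      split_ifs with ht
      · have := Int.emod_lt_of_pos (n t) m0
        exact mem_range.2 (by omega)
      · simp [n0 t ht]⟩
    have e := congrFun (congrFun (hx0 (r, (#I : ℤ) + 2 * ∑ t, -(n t / D.m)))
      fun t => -(n t / D.m)) I
    rw [unf_apply, if_pos ⟨mem_SS_all.2 ⟨hI', fun t ht => by simp [n0 t ht]⟩, rfl⟩] at e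
    refine Eq.trans (congrArg (π · (x I)) (funext fun t => ?_)) e
    have e1 := congrFun hn t
    have e2 := Int.emod_add_mul_ediv (n t) D.m
    have e3 := Int.toNat_of_nonneg (Int.emod_nonneg (n t) m0.ne')
    simp only [jj, r, Pi.sub_apply, Pi.add_apply, Pi.smul_apply, smul_eq_mul, e3] at e1 ⊢
    linarith
  · refine (Set.finite_iUnion fun y : R × Finset σ => ((h4 (x y.2)).preimage (f := fun J =>
      jj y.1 - ∑ s ∈ y.2, wt D.b s - (D.m : ℤ) • J) fun J _ J' _ e => (hd0 _ _ _ _ _ e).2).image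
      fun J => (y.1, (#y.2 : ℤ) + 2 * ∑ t, J t)).subset fun l hl => ?_
    obtain ⟨J, hJ⟩ := Function.ne_iff.1 hl
    obtain ⟨I, hI⟩ := Function.ne_iff.1 hJ
    rw [unf_apply] at hI
    split_ifs at hI with c
    · exact Set.mem_iUnion.2 ⟨(l.1, I), J, hI, Prod.ext rfl c.2⟩
    · exact (hI rfl).elim
  · have hf : ∀ I, (support fun J => v J I).Finite := fun I => by
      refine (hw_fin (fun t => |(jj l.1 - ∑ s ∈ I, wt D.b s) t - L|)
        ((l.2 - #I) / 2)).subset fun J hJ => ⟨fun t => not_lt.1 fun c => hJ ?_, ?_⟩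
      · refine (Submodule.mem_bot k).1 (hL _ t ?_ ▸ (hv J I).1)
        have := le_abs_self ((jj l.1 - ∑ s ∈ I, wt D.b s) t - L)
        have := abs_nonneg ((jj l.1 - ∑ s ∈ I, wt D.b s) t - L)
        rw [Pi.sub_apply, Pi.smul_apply, smul_eq_mul]
        nlinarith
      · have := (not_not.1 (mt (hv J I).2 hJ)).2
        omega
    have hp : ∀ (l' : R × ℤ) J I, unf D π S (jj l'.1) l'.2 (fun I => ∑ᶠ J, v J I) J I =
        if l' = l then v J I else 0 := fun l' J I => by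
      have e : π (jj l'.1 - ∑ s ∈ I, wt D.b s - (D.m : ℤ) • J) (∑ᶠ J, v J I) =
          if l'.1 = l.1 then v J I else 0 := by
        rw [map_finsum _ (hf I), finsum_eq_single _ J fun J' c =>
          h3 _ _ (fun e => c (hd0 _ _ _ _ _ e).2.symm) _ (hv J' I).1]
        split_ifs with c
        exacts [h2 _ _ (c ▸ (hv J I).1), h3 _ _ (fun e => c (hd0 _ _ _ _ _ e).1) _ (hv J I).1]
      rw [unf_apply, e]
      by_cases c : l' = l
      · subst c
        simp only [if_true]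
        split_ifs with c
        exacts [rfl, ((hv J I).2 c).symm]
      · rw [if_neg c]
        split_ifs with c1 c2
        · exact (hv J I).2 fun c3 => c (Prod.ext c2 (c1.2.symm.trans c3.2))
        · rfl
        · rfl
    refine ⟨fun I => ∑ᶠ J, v J I, fun I hI => finsum_eq_zero_of_forall_eq_zero fun J =>
      (hv J I).2 fun c => hI ⟨c.1.1, by rw [← c.2, par]⟩, funext fun J => funext fun I =>
      (hp l J I).trans (if_pos rfl), fun l' c => funext fun J => funext fun I =>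
      (hp l' J I).trans (if_neg c)⟩
  · have := fin l
    refine Submodule.finrank_eq_zero.1 (Int.natCast_eq_zero.1 (hN l.1 l.2 fun c => hl ?_))
    exact mem_product.2 ⟨mem_univ _, c⟩

end Pool.Agent.Lib.MP_40dc3c_ag.P
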