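import Pool.Agent.Lib.MP_40dc3c_ag.P.KDefs
import Pool.Agent.Lib.MP_40dc3c_ag.T.B2

/-! The affine Fermat hypersurface and the Gauss objects. -/

namespace Pool.Agent.Lib.MP_40dc3c_ag.P

open MvPolynomial Finset Function T

variable {k : Type} [Field k] (ω : kˣ →* ℂˣ)

theorem fN_inv (ι : Type) [Fintype ι] (m : ℕ) (ζ : ι → rootsOfUnity m k) (a : MvPolynomial ι k)
    (ha : a ∈ Ideal.span {(∑ i, X i ^ m + 1 : MvPolynomial ι k)}) :
    diagAct ι m ζ a ∈ Ideal.span {(∑ i, X i ^ m + 1 : MvPolynomial ι k)} := by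
  obtain ⟨b, rfl⟩ := Ideal.mem_span_singleton'.1 ha
  rw [map_mul, map_add, aff_inv, map_one]
  exact Ideal.mul_mem_left _ _ (Ideal.mem_span_singleton_self _)

/-- the affine Fermat hypersurface with the character `c`. -/
@[reducible] noncomputable def fN (ι : Type) [Fintype ι] (m : ℕ) [NeZero m] (c : ι → ℤ) : Obj k :=
  (aff ω ι m c).quot (Ideal.span {(∑ i, X i ^ m + 1 : MvPolynomial ι k)}) (fN_inv ι m)

section
open scoped TensorProduct

theorem ja_ring {A T F ι : Type} [Fintype ι] [CommRing A] [CommRing T] [CommRing F] [Algebra k A]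
    [Algebra k T] [Algebra k F] {m : ℕ} [NeZero m] {ε : k} (hε : ε ^ m = -1) {y : ι → A}
    {x : Unit → T} {u : ι → F} (hA : Pres k y fun _ _ z => IsUnit (∑ i, z i ^ m))
    (hT : Pres k x fun _ _ z => IsUnit (z ())) (hF : Pres k u fun _ _ z => ∑ i, z i ^ m = -1) :
    ∃ φ : A →ₐ[k] T ⊗[k] F, (∀ i, φ (y i) = ε • (x () ⊗ₜ[k] u i)) ∧
      Kum φ m (∑ i, y i ^ m) (x () ⊗ₜ[k] 1) := by
  have e0 : ε ≠ 0 := fun h => by simp [h, NeZero.ne m] at hε
  have mul : ∀ i, x () ⊗ₜ[k] u i = (x () ⊗ₜ[k] (1 : F)) * (1 ⊗ₜ[k] u i) := fun i => by simp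
  have un : IsUnit (x () ⊗ₜ[k] (1 : F)) :=
    hT.self.map (Algebra.TensorProduct.includeLeft : T →ₐ[k] T ⊗[k] F)
  have pot : ∑ i, (ε • (x () ⊗ₜ[k] u i)) ^ m = (x () ⊗ₜ[k] (1 : F)) ^ m := by
    simp only [smul_pow, hε, Algebra.TensorProduct.tmul_pow, one_pow, neg_smul, one_smul]
    rw [sum_neg_distrib, ← TensorProduct.tmul_sum, hF.self, TensorProduct.tmul_neg, neg_neg]
  obtain ⟨φ, hφ⟩ := hA.lift _ (fun i => ε • (x () ⊗ₜ[k] u i)) (pot ▸ un.pow m)
  refine ⟨φ, hφ, by simp only [map_sum, map_pow, hφ, pot], fun S _ _ v v' h1 h2 => ?_,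
    fun S _ _ w z hz => ?_⟩
  · refine Algebra.TensorProduct.ext (hT.ext _ _ _ fun _ => h2) (hF.ext _ _ _ fun i => ?_)
    have := DFunLike.congr_fun h1 (y i)
    rw [AlgHom.comp_apply, AlgHom.comp_apply, hφ, map_smul, map_smul, mul, map_mul,
      map_mul, ← h2] at this
    exact (un.map v).mul_left_cancel (smul_right_injective S e0 this)
  · have hu : IsUnit z := (isUnit_pow_iff (NeZero.ne m)).1 (hz ▸ hA.self.map w)
    obtain ⟨z', hw⟩ := hu.exists_right_inv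
    obtain ⟨v1, h1⟩ := hT.lift S (fun _ => z) hu
    obtain ⟨v2, h2⟩ := hF.lift S (fun i => ε⁻¹ • (z' * w (y i))) (by
      simp only [map_sum, map_pow] at hz
      simp only [smul_pow, mul_pow, inv_pow, hε]
      rw [← smul_sum, ← mul_sum, ← hz, ← mul_pow, mul_comm, hw]
      simp)
    refine ⟨Algebra.TensorProduct.lift v1 v2 fun _ _ => .all _ _, hA.ext _ _ _ fun i => ?_,
      by simp [h1]⟩
    rw [AlgHom.comp_apply, hφ, map_smul, Algebra.TensorProduct.lift_tmul, h1, h2,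
      mul_smul_comm, smul_smul, mul_inv_cancel₀ e0, one_smul, ← mul_assoc, hw, one_mul]

theorem ja_ring' {A F ι : Type} [Fintype ι] [DecidableEq ι] [CommRing A] [CommRing F] [Algebra k A]
    [Algebra k F] {m : ℕ} (o : ι) {x : {i // i ≠ o} → A} {u : ι → F}
    (hA : Pres k x fun _ _ _ => True) (hF : Pres k u fun _ _ z => ∑ i, z i ^ m = -1) :
    ∃ φ : A →ₐ[k] F, (∀ i, φ (x i) = u i) ∧ Kum φ m (-1 - ∑ i, x i ^ m) (u o) := by
  obtain ⟨φ, hφ⟩ := hA.lift F (fun i => u i) trivial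
  refine ⟨φ, hφ, ?_, fun S _ _ v v' h1 h2 => hF.ext _ _ _ fun i => ?_, fun S _ _ w z hz => ?_⟩
  · have := hF.self
    rw [Fintype.sum_eq_add_sum_subtype_ne _ o] at this
    simp only [map_sub, map_neg, map_one, map_sum, map_pow, hφ]
    linear_combination this
  · by_cases c : i = o
    · rw [c]; exact h2
    · simpa [hφ] using DFunLike.congr_fun h1 (x ⟨i, c⟩)
  · obtain ⟨v, hv⟩ := hF.lift S (fun i => if h : i = o then z else w (x ⟨i, h⟩)) (by
      beta_reduce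
      have e : ∑ i : {i // i ≠ o}, (if h : i.1 = o then z else w (x ⟨i.1, h⟩)) ^ m =
          ∑ i, w (x i) ^ m := sum_congr rfl fun i _ => by rw [dif_neg i.2]
      rw [Fintype.sum_eq_add_sum_subtype_ne _ o, dif_pos rfl, e, hz]
      simp)
    refine ⟨v, hA.ext _ _ _ fun i => ?_, by rw [hv, dif_pos rfl]⟩
    rw [AlgHom.comp_apply, hφ, hv, dif_neg i.2]

theorem ja_pres (ι : Type) [Fintype ι] (m : ℕ) :
    Pres k (fun i => Ideal.Quotient.mk
      (Ideal.span {(∑ i, X i ^ m + 1 : MvPolynomial ι k)}) (X i)) fun _ _ z => ∑ i, z i ^ m = -1 := by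
  refine ⟨?_, fun _ _ _ _ _ h => Ideal.Quotient.algHom_ext k (algHom_ext h), fun _ _ _ z hz =>
    ⟨Ideal.Quotient.liftₐ _ (aeval z) fun a ha => ?_, fun i => by simp⟩⟩
  · have := Ideal.Quotient.eq_zero_iff_mem.2
      (Ideal.mem_span_singleton_self (∑ i, X i ^ m + 1 : MvPolynomial ι k))
    rw [eq_neg_iff_add_eq_zero, ← this]
    simp only [map_add, map_sum, map_pow, map_one]
  · obtain ⟨b, rfl⟩ := Ideal.mem_span_singleton'.1 ha
    simp [hz]

theorem ja_act (ι : Type) [Fintype ι] (m : ℕ) [NeZero m] (c : ι → ℤ) (g) (i : ι) :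
    (fN ω ι m c).act g (Ideal.Quotient.mk _ (X i)) = ((g i).1 : k) • Ideal.Quotient.mk _ (X i) :=
  (quotAct_mk (aff ω ι m c) _ (fN_inv ι m) g _).trans
    ((congrArg _ (b2_act_aff ω m c g i)).trans
      (map_smul (Ideal.Quotient.mkₐ k (Ideal.span {(∑ i, X i ^ m + 1 : MvPolynomial ι k)})) _ _))

theorem ja_dvd (ι : Type) [Fintype ι] (m : ℕ) [NeZero m] (c : ι → ℤ) (g) :
    (aff ω ι m c).act g (∑ i, X i ^ m) ∣ ∑ i, X i ^ m :=
  (aff_inv ι m g).dvd

theorem ja_inv (ι : Type) [Fintype ι] (m : ℕ) [NeZero m] (c : ι → ℤ) (g) :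
    ((aff ω ι m c).away _ (ja_dvd ω ι m c)).act g
      (algebraMap (MvPolynomial ι k) _ (∑ i, X i ^ m)) =
      algebraMap (MvPolynomial ι k) _ (∑ i, X i ^ m) :=
  (awayAct_algebraMap (aff ω ι m c) _ (ja_dvd ω ι m c) g _).trans
    (congrArg _ (aff_inv ι m g))

theorem ja_chi (ι : Type) [Fintype ι] (m : ℕ) (c : ι → ℤ) (a : Unit → rootsOfUnity m k)
    (b : ι → rootsOfUnity m k) :
    chis ω m (fun _ : Unit => ∑ i, c i) a * chis ω m c b = chis ω m c fun i => a () * b i := by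
  have h : ∀ s : Finset ι, chi ω m (∑ i ∈ s, c i) (a ()) = ∏ i ∈ s, chi ω m (c i) (a ()) := by
    classical
    intro s
    induction s using Finset.induction_on with
    | empty => simp [chi_apply]
    | insert i s hi ih =>
      rw [sum_insert hi, prod_insert hi, ← ih]
      simp only [chi_apply]
      exact zpow_add₀ (Units.ne_zero _) _ _
  simp only [chis_apply, map_mul, Fintype.prod_unique, prod_mul_distrib]
  exact congrArg (· * _) (h univ)

theorem ja_fin (n : ℕ) : Ge (Obj.one k) (Obj.triv ⟨MvPolynomial (Fin n) k⟩) := by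
  induction n with
  | zero =>
    exact Eqv.iso (X := Obj.triv ⟨MvPolynomial (Fin 0) k⟩) (Y := Obj.one k)
      ⟨(isEmptyAlgEquiv k (Fin 0)).toAlgHom, 1, fun _ _ => rfl, fun _ => rfl⟩
      (isEmptyAlgEquiv k (Fin 0)).bijective
  | succ n ih =>
    exact ih.trans (ge_poly ⟨MvPolynomial (Fin n) k⟩ ⟨MvPolynomial (Fin (n + 1)) k⟩
      (finSuccEquiv k n).symm)

theorem ja_aff (ι : Type) [Fintype ι] (m : ℕ) [NeZero m] (c : ι → ℤ) :
    Ge (Obj.one k) (aff ω ι m c) :=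
  (ja_fin _).trans (Eqv.iso (X := aff ω ι m c)
    (Y := Obj.triv ⟨MvPolynomial (Fin (Fintype.card ι)) k⟩)
    ⟨(renameEquiv k (Fintype.equivFin ι)).toAlgHom, 1,
      fun _ a => by rw [MonoidHom.one_apply, map_one]; rfl, fun _ => (map_one _).symm⟩
    (renameEquiv k (Fintype.equivFin ι)).bijective)

theorem ja_obj [IsAlgClosed k] (p : ℕ) [Fact p.Prime] [CharP k p] {ι : Type} [Fintype ι]
    {O T F : Obj k} {m : ℕ} [NeZero m] {y : ι → O.A.R} {x : Unit → T.A.R}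
    {u : ι → F.A.R} (hA : Pres k y fun _ _ z => IsUnit (∑ i, z i ^ m))
    (hT : Pres k x fun _ _ z => IsUnit (z ())) (hF : Pres k u fun _ _ z => ∑ i, z i ^ m = -1)
    (π : T.G × F.G →* O.G) (hπ : Surjective π) (hχ : ∀ g, T.χ g.1 * F.χ g.2 = O.χ (π g))
    {a : T.G → k} {b : F.G → ι → k} (ha : ∀ g, T.act g (x ()) = a g • x ())
    (hb : ∀ g i, F.act g (u i) = b g i • u i)
    (hc : ∀ g i, O.act (π g) (y i) = (a g.1 * b g.2 i) • y i)
    (hζ : ∀ ζ : rootsOfUnity m k, ∃ g, π g = 1 ∧ a g.1 = ζ.1) {f : O.A.R}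
    (hf : ∀ g, O.act g f = f) (ef : f = ∑ i, y i ^ m) {f' : T.A.R}
    (hf' : ∀ g, T.act g f' = f') (ef' : f' = x () ^ m) :
    Ge (O.as p f hf) ((T.as p f' hf').ten F) := by
  obtain ⟨ε, hε⟩ := IsAlgClosed.exists_pow_nat_eq (-1 : k) (NeZero.pos m)
  obtain ⟨φ, hφ, K⟩ := ja_ring hε hA hT hF
  have act : ∀ g s t, (T.ten F).act g (s ⊗ₜ[k] t) = T.act g.1 s ⊗ₜ[k] F.act g.2 t :=
    fun _ _ _ => rfl
  let E : Eqv O (T.ten F) :=
    { φ := φ
      π := π
      comm := fun g s => by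
        refine DFunLike.congr_fun (hA.ext _ (φ.comp (O.act (π g))) (((T.ten F).act g).comp φ)
          fun i => ?_) s
        rw [AlgHom.comp_apply, AlgHom.comp_apply, hc, map_smul, hφ, map_smul, act, ha, hb,
          TensorProduct.smul_tmul_smul, smul_comm]
      chi := hχ }
  have K' : Kum E.φ m (∑ i, y i ^ m) (x () ⊗ₜ[k] 1) := K
  have h1 : ∀ g, (T.ten F).act g (f' ⊗ₜ 1) = f' ⊗ₜ 1 := fun g => by rw [act, hf', map_one]
  have h2 : E.φ f = f' ⊗ₜ 1 := by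
    rw [ef, ← K'.pow, ef', Algebra.TensorProduct.tmul_pow, one_pow]
  refine (E.as_cover p _ h1 h2 K'.ff.1 K'.ff.2 hπ (K'.trans _ fun ζ => ?_)).trans
    (cls_eq.1 ((cls_ten _ _).trans (cls_as_ten p _ _ hf' h1))).2
  obtain ⟨g, h3, h4⟩ := hζ ζ
  exact ⟨g, h3, by rw [act, ha, h4, map_one, ← Algebra.smul_def, TensorProduct.smul_tmul']⟩

end

variable [IsAlgClosed k] (p : ℕ) [Fact p.Prime] [CharP k p]

theorem ja_ge (ι : Type) [Fintype ι] (m : ℕ) [NeZero m] (c : ι → ℤ) :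
    Ge (((aff ω ι m c).away _ (ja_dvd ω ι m c)).as p _ (ja_inv ω ι m c))
      ((gauT ω p Unit m fun _ => ∑ i, c i).ten (fN ω ι m c)) :=
  ja_obj p (O := (aff ω ι m c).away _ (ja_dvd ω ι m c))
    (T := tor ω Unit m fun _ => ∑ i, c i) (F := fN ω ι m c) (m := m)
    (b2_pres_away _ _ fun _ _ _ z => by simp)
    (b2_pres_away _ _ fun _ _ _ z => by simp) (ja_pres ι m)
    { toFun := fun g i => g.1 () * g.2 i
      map_one' := funext fun _ => mul_one _
      map_mul' := fun _ _ => funext fun _ => mul_mul_mul_comm _ _ _ _ }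
    (fun g => ⟨(1, g), funext fun _ => one_mul _⟩)
    (fun g => ja_chi ω ι m c g.1 g.2)
    (fun g => b2_act_away ω m _ _ _ g ()) (ja_act ω ι m c)
    (fun g i => b2_act_away ω m c _ _ _ i)
    (fun ζ => ⟨(fun _ => ζ, fun _ => ζ⁻¹), funext fun _ => mul_inv_cancel ζ, rfl⟩)
    (ja_inv ω ι m c)
    (by rw [map_sum]; exact sum_congr rfl fun i _ => map_pow _ _ _)
    (tor_inv ω Unit m _)
    (by rw [Fintype.sum_unique (ι := Unit), map_pow])

theorem ge_jacN (hω : Injective ω) (ι : Type) [Fintype ι] (m : ℕ) [NeZero m] (hm : ¬p ∣ m)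
    (c : ι → ℤ) (hc : ¬(m : ℤ) ∣ ∑ i, c i) :
    Ge (gau ω p ι m c) ((U ω p m (∑ i, c i)).ten (fN ω ι m c)) :=
  ((Eqv.toAway _ _ (ja_dvd ω ι m c)).as_res p _
    (ja_inv ω ι m c) rfl (isAway_localization _) bijective_id).trans
    ((ja_ge ω p ι m c).trans ((gauT_ge ω p hω Unit m hm _ fun _ => hc).ten_right _))

omit [Fact p.Prime] [CharP k p] in
theorem one_ge_fN (ι : Type) [Fintype ι] [Nonempty ι] (m : ℕ) [NeZero m] :
    Ge (Obj.one k) (fN ω ι m 0) := by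
  classical
  obtain ⟨o⟩ := ‹Nonempty ι›
  obtain ⟨φ, hφ, K⟩ := ja_ring' (m := m) o (b2_pres_aff (k := k) {i // i ≠ o}) (ja_pres ι m)
  let E : Eqv (aff ω {i // i ≠ o} m 0) (fN ω ι m 0) :=
    { φ := φ
      π := { toFun := fun g i => g i.1, map_one' := rfl, map_mul' := fun _ _ => rfl }
      comm := fun g s => by
        refine DFunLike.congr_fun (algHom_ext (f := φ.comp ((aff ω {i // i ≠ o} m 0).act _))
          (g := ((fN ω ι m 0).act g).comp φ) fun i => ?_) s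
        rw [AlgHom.comp_apply, AlgHom.comp_apply, b2_act_aff, map_smul, hφ, ja_act]
        rfl
      chi := fun g => by
        change chis ω m 0 g = chis ω m 0 _
        simp [chis_apply, chi_apply] }
  have K' : Kum E.φ m _ (Ideal.Quotient.mk _ (X o)) := K
  refine (ja_aff ω _ m 0).trans (E.cover K'.ff.1 K'.ff.2 (fun g => ?_) (K'.trans _ fun ζ => ?_))
  · exact ⟨fun i => if h : i = o then 1 else g ⟨i, h⟩, funext fun i => dif_neg i.2⟩
  · refine ⟨Pi.mulSingle o ζ, funext fun i =>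
      Pi.mulSingle_eq_of_ne (M := fun _ : ι => rootsOfUnity m k) i.2 ζ, ?_⟩
    rw [ja_act, Pi.mulSingle_eq_same, Algebra.smul_def]

end Pool.Agent.Lib.MP_40dc3c_ag.P
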