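import Pool.Agent.Lib.MP_40dc3c_ag.P.Jba
import Pool.Agent.Lib.MP_40dc3c_ag.T.B6a

/-! The affine part of the product is dominated by the point. -/

namespace Pool.Agent.Lib.MP_40dc3c_ag.P

open MvPolynomial Finset Function T

set_option linter.unusedSectionVars false

variable {k : Type} [Field k] (ω : kˣ →* ℂˣ) {σ τ : Type} [Fintype σ] [Fintype τ] {b : σ → τ}
  {s₀ : τ → σ} (hs : ∀ t, b (s₀ t) = t) (m : ℕ) [NeZero m]

theorem jb_chi_sum (c : σ → ℤ) (S : Finset σ) (ζ : rootsOfUnity m k) :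
    ∏ s ∈ S, chi ω m (c s) ζ = chi ω m (∑ s ∈ S, c s) ζ := by
  classical
  induction S using Finset.induction_on with
  | empty => simp [jb_chi0]
  | insert s S h ih =>
    rw [prod_insert h, sum_insert h, ih, chi_apply, chi_apply, chi_apply,
      zpow_add₀ (Units.ne_zero _)]

theorem jb_chi_dvd {c : ℤ} (h : (m : ℤ) ∣ c) (ζ : rootsOfUnity m k) : chi ω m c ζ = 1 := by
  obtain ⟨e, rfl⟩ := h
  rw [chi_apply, zpow_mul, zpow_natCast, ← Units.val_pow_eq_pow_val, ← map_pow,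
    (mem_rootsOfUnity _ _).1 ζ.2, map_one, Units.val_one, one_zpow]

theorem jb_fib {M : Type*} [CommMonoid M] (b : σ → τ) (f : σ → M) :
    ∏ t, ∏ s ∈ blk b t, f s = ∏ s, f s := by
  classical
  rw [← Finset.prod_fiberwise univ b f]
  exact Finset.prod_congr rfl fun t _ => Finset.prod_congr (by ext; simp [blk]) fun _ _ => rfl

include hs in
theorem jb_s0 (t : τ) : s₀ t ∈ blk b t := by simp [blk, hs]

theorem jb_univ {s : σ} : jbU b s₀ univ s ↔ ¬s = s₀ (b s) :=
  ⟨fun h => h.2, fun h => ⟨mem_univ _, h⟩⟩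

open Classical in
include hs in
theorem jb_fer {B : Type} [CommRing B] [Algebra k B] (y : σ → B) (t : τ) :
    aeval y (fer k b m t) = ∑ s ∈ (blk b t).erase (s₀ t), y s ^ m + y (s₀ t) ^ m := by
  rw [Finset.sum_erase_add _ (fun s => y s ^ m) (jb_s0 hs t)]
  simp only [fer, blk, map_sum, map_pow, aeval_X]

open Classical in
/-- from the chart to the product. -/
noncomputable def jbA (k : Type) [Field k] : (MvPolynomial σ k ⧸ (FI k b m ⊔ unitI k s₀)) →ₐ[k]
    (MvPolynomial σ k ⧸ jbI b s₀ m k univ) :=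
  Ideal.Quotient.liftₐ _ (aeval fun s => if s = s₀ (b s) then 1 else Ideal.Quotient.mk _ (X s))
    fun a ha => by
      have : FI k b m ⊔ unitI k s₀ ≤ RingHom.ker (aeval fun s => if s = s₀ (b s) then 1 else
          Ideal.Quotient.mk _ (X s) :
          MvPolynomial σ k →ₐ[k] MvPolynomial σ k ⧸ jbI b s₀ m k univ) := by
        refine sup_le (Ideal.span_le.2 ?_) (Ideal.span_le.2 ?_)
        · rintro _ ⟨t, rfl⟩
          rw [SetLike.mem_coe, RingHom.mem_ker, jb_fer hs, if_pos (by rw [hs]), one_pow]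
          refine Eq.trans ?_ (jb_rel (k := k) (b := b) (s₀ := s₀) (m := m) (mem_univ t))
          exact congrArg (· + 1) (Finset.sum_congr rfl fun i hi => by
            rw [if_neg (by rw [(jb_mem.1 hi).1]; exact (jb_mem.1 hi).2)])
        · rintro _ ⟨t, rfl⟩
          rw [SetLike.mem_coe, RingHom.mem_ker, map_sub, aeval_X, if_pos (by rw [hs]), map_one,
            sub_self]
      exact this ha

open Classical in
theorem jbA_X (s : σ) : jbA hs m k (Ideal.Quotient.mk _ (X s)) =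
    if s = s₀ (b s) then 1 else Ideal.Quotient.mk _ (X s) := aeval_X _ s

theorem jb_unit (t : τ) : Ideal.Quotient.mk (FI k b m ⊔ unitI k s₀) (X (s₀ t)) = 1 :=
  Ideal.Quotient.eq.2 (Ideal.mem_sup_right (Ideal.subset_span ⟨t, rfl⟩))

theorem jbA_bij : Bijective (jbA hs m k) := by
  classical
  let ψ : (MvPolynomial σ k ⧸ jbI b s₀ m k univ) →ₐ[k]
      (MvPolynomial σ k ⧸ (FI k b m ⊔ unitI k s₀)) :=
    jbLift (fun s => if s = s₀ (b s) then 0 else Ideal.Quotient.mk _ (X s))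
      (fun s h => if_pos (not_not.1 fun e => h (jb_univ.2 e))) fun t _ => by
        have h := jb_fer (k := k) hs m
          (fun s => Ideal.Quotient.mk (FI k b m ⊔ unitI k s₀) (X s)) t
        have e : (aeval fun s => Ideal.Quotient.mk (FI k b m ⊔ unitI k s₀) (X s)) =
            Ideal.Quotient.mkₐ k (FI k b m ⊔ unitI k s₀) := algHom_ext fun s => aeval_X _ s
        rw [e, jb_unit, one_pow] at h
        refine Eq.trans ?_ (h.symm.trans (Ideal.Quotient.eq_zero_iff_mem.2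
          (Ideal.mem_sup_left (Ideal.subset_span ⟨t, rfl⟩))))
        exact congrArg (· + 1) (Finset.sum_congr rfl fun i hi => by
          rw [if_neg (by rw [(jb_mem.1 hi).1]; exact (jb_mem.1 hi).2)])
  have e : ∀ s, ψ (Ideal.Quotient.mk _ (X s)) =
      if s = s₀ (b s) then 0 else Ideal.Quotient.mk _ (X s) := jbLift_X _ _ _
  have h1 : ψ.comp (jbA hs m k) = AlgHom.id k _ := jb_ext fun s => by
    rw [AlgHom.comp_apply, jbA_X, AlgHom.id_apply]
    split_ifs with h
    · rw [map_one, h, jb_unit]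
    · rw [e, if_neg h]
  have h2 : (jbA hs m k).comp ψ = AlgHom.id k _ := jb_ext fun s => by
    rw [AlgHom.comp_apply, e, AlgHom.id_apply]
    split_ifs with h
    · rw [map_zero, jb_zero fun e' => jb_univ.1 e' h]
    · rw [jbA_X, if_neg h]
  exact bijective_iff_has_inverse.2 ⟨ψ, AlgHom.congr_fun h1, AlgHom.congr_fun h2⟩

open Classical in
/-- the change of coordinates in the group. -/
noncomputable def jbG {G : Type} [CommGroup G] (b : σ → τ) (s₀ : τ → σ) : (σ → G) →* (σ → G) where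
  toFun g s := (if s = s₀ (b s) then 1 else g s) * g (s₀ (b s))
  map_one' := funext fun s => by simp
  map_mul' g h := funext fun s => by
    simp only [Pi.mul_apply]
    split_ifs
    · simp
    · exact mul_mul_mul_comm _ _ _ _

open Classical in
theorem jbG_apply {G : Type} [CommGroup G] (g : σ → G) (s : σ) :
    jbG b s₀ g s = (if s = s₀ (b s) then 1 else g s) * g (s₀ (b s)) := rfl

include hs in
theorem jbG_surj {G : Type} [CommGroup G] : Surjective (jbG (G := G) b s₀) := fun g => by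
  classical
  refine ⟨fun s => if s = s₀ (b s) then g s else g s * (g (s₀ (b s)))⁻¹, funext fun s => ?_⟩
  rw [jbG_apply, if_pos (by rw [hs] : s₀ (b s) = s₀ (b (s₀ (b s))))]
  split_ifs with h
  · rw [one_mul, ← h]
  · rw [inv_mul_cancel_right]

open Classical in
include hs in
theorem jbG_nrm (g : σ → rootsOfUnity m k) (s : σ) :
    nrm b s₀ m (jbG b s₀ g) s = if s = s₀ (b s) then 1 else g s := by
  change jbG b s₀ g s * (jbG b s₀ g (s₀ (b s)))⁻¹ = _
  rw [jbG_apply, jbG_apply, hs, if_pos rfl, one_mul, mul_inv_cancel_right]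

theorem jbA_comm (g : σ → rootsOfUnity m k)
    {A : (MvPolynomial σ k ⧸ (FI k b m ⊔ unitI k s₀)) →ₐ[k]
      (MvPolynomial σ k ⧸ (FI k b m ⊔ unitI k s₀))}
    {B : (MvPolynomial σ k ⧸ jbI b s₀ m k univ) →ₐ[k] (MvPolynomial σ k ⧸ jbI b s₀ m k univ)}
    (hA : ∀ s, A (Ideal.Quotient.mk _ (X s)) =
      ((nrm b s₀ m (jbG b s₀ g) s).1 : k) • Ideal.Quotient.mk _ (X s))
    (hB : ∀ s, B (Ideal.Quotient.mk _ (X s)) = ((g s).1 : k) • Ideal.Quotient.mk _ (X s))
    (a : MvPolynomial σ k ⧸ (FI k b m ⊔ unitI k s₀)) : jbA hs m k (A a) = B (jbA hs m k a) := by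
  refine AlgHom.congr_fun (φ₁ := (jbA hs m k).comp A) (φ₂ := B.comp (jbA hs m k))
    (jb_ext fun s => ?_) a
  rw [AlgHom.comp_apply, hA, map_smul, AlgHom.comp_apply, jbA_X, jbG_nrm hs]
  split_ifs with h
  · simp
  · rw [hB]

open Classical in
theorem jbA_chi (c : σ → ℤ) (hc : ∀ t, (m : ℤ) ∣ ∑ s ∈ blk b t, c s) (g : σ → rootsOfUnity m k) :
    chis ω m (fun s => if jbU b s₀ univ s then c s else 0) g = chis ω m c (jbG b s₀ g) := by
  have e : ∏ s, chi ω m (c s) (g (s₀ (b s))) = 1 := by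
    rw [← jb_fib b]
    refine Finset.prod_eq_one fun t _ => ?_
    rw [← jb_chi_dvd ω m (hc t) (g (s₀ t)), ← jb_chi_sum]
    exact Finset.prod_congr rfl fun s h => by rw [show b s = t by simpa [blk] using h]
  simp only [chis_apply, jbG_apply, map_mul, Finset.prod_mul_distrib, e, mul_one, jb_univ]
  refine Finset.prod_congr rfl fun s _ => ?_
  by_cases h : s = s₀ (b s)
  · rw [if_neg (not_not.2 h), if_pos h, jb_chi0, map_one]
  · rw [if_pos h, if_neg h]

open Classical in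
theorem cls_Jo (c : σ → ℤ) (hc : ∀ t, (m : ℤ) ∣ ∑ s ∈ blk b t, c s) : (Jo ω hs m c).cls =
    ∏ t, (fN ω {s // b s = t ∧ s ≠ s₀ t} m fun s => c s.1).cls :=
  (b7_cls (X := Jo ω hs m c) (Y := jbO ω b s₀ m c univ)
    ⟨jbA hs m k, jbG b s₀, fun g => jbA_comm hs m g (jb_diag _ _) (jb_diag _ g),
      jbA_chi ω m c hc⟩ (jbA_bij hs m) (jbG_surj hs)).trans (cls_jbO ω c univ)

variable [IsAlgClosed k]

theorem one_ge_Jo0 (h2 : ∀ t, 2 ≤ #(blk b t)) : Ge (Obj.one k) (Jo ω hs m 0) := by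
  classical
  rw [← cge_iff, cls_Jo ω hs m 0 (by simp), cls_one, ← Finset.prod_const_one (s := univ (α := τ))]
  refine Cls.Ge.prod _ fun t _ => ?_
  obtain ⟨s, h1, h⟩ := Finset.exists_mem_ne (h2 t) (s₀ t)
  have : Nonempty {s // b s = t ∧ s ≠ s₀ t} := ⟨⟨s, by simpa [blk] using h1, h⟩⟩
  exact cge_iff.2 (one_ge_fN ω _ m)

theorem one_ge_Jo (p : ℕ) [Fact p.Prime] [CharP k p] (hω : Injective ω) (hm : ¬p ∣ m)
    (c : σ → ℤ) (hc : Prim b m c) (h : ∏ s, (U ω p m (c s)).cls = 1) :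
    Ge (Obj.one k) (Jo ω hs m c) := by
  classical
  rw [← cge_iff, cls_Jo ω hs m c hc.sum, cls_one, ← h, ← jb_fib b]
  refine Cls.Ge.prod _ fun t _ => ?_
  have e : (m : ℤ) ∣ ∑ i : {s // b s = t ∧ s ≠ s₀ t}, c i.1 - -c (s₀ t) := by
    rw [sub_neg_eq_add, ← Finset.sum_subtype _ (fun _ => jb_mem) c,
      Finset.sum_erase_add _ _ (jb_s0 hs t)]
    exact hc.sum t
  have h1 := (Cls.Ge.refl (U ω p m (c (s₀ t))).cls).mul (cge_iff.2 (ge_jacN ω p hω
    {s // b s = t ∧ s ≠ s₀ t} m hm (fun s => c s.1) fun h' => hc.ne (s₀ t) (by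
      simpa using dvd_sub e h')))
  rwa [cls_gau ω p {s // b s = t ∧ s ≠ s₀ t}, cls_ten, cls_U_congr ω p m e, ← mul_assoc,
    cls_U_mul_neg ω p hω m hm (hc.ne _), one_mul,
    ← Finset.prod_subtype _ (fun _ => jb_mem) fun s => (U ω p m (c s)).cls,
    Finset.mul_prod_erase _ (fun s => (U ω p m (c s)).cls) (jb_s0 hs t)] at h1

end Pool.Agent.Lib.MP_40dc3c_ag.P
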