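import Pool.Agent.Lib.MP_40dc3c_ag.P.Ja
import Pool.Agent.Lib.MP_40dc3c_ag.T.B7

/-! Products of affine Fermat hypersurfaces, one block at a time. -/

namespace Pool.Agent.Lib.MP_40dc3c_ag.P

open MvPolynomial Finset Function T
open scoped TensorProduct

set_option linter.unusedSectionVars false

variable {k : Type} [Field k] (ω : kˣ →* ℂˣ) {σ τ : Type} [Fintype σ] (b : σ → τ) (s₀ : τ → σ)
  (m : ℕ)

/-- the variables that are in use. -/
def jbU (T : Finset τ) (s : σ) : Prop := b s ∈ T ∧ s ≠ s₀ (b s)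

open Classical in
/-- the ideal of the product over the blocks in `T`. -/
noncomputable def jbI (k : Type) [Field k] (T : Finset τ) : Ideal (MvPolynomial σ k) :=
  .span ({f | ∃ s, ¬jbU b s₀ T s ∧ f = X s} ∪
    {f | ∃ t ∈ T, f = ∑ s ∈ (blk b t).erase (s₀ t), X s ^ m + 1})

variable {b s₀ m}

theorem jb_mem {t : τ} {s : σ} [DecidableEq σ] :
    s ∈ (blk b t).erase (s₀ t) ↔ b s = t ∧ s ≠ s₀ t := by
  simp [blk, and_comm]

open Classical in
/-- the map given by a point. -/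
noncomputable def jbLift {B : Type} [CommRing B] [Algebra k B] {T : Finset τ} (y : σ → B)
    (h0 : ∀ s, ¬jbU b s₀ T s → y s = 0)
    (h1 : ∀ t ∈ T, ∑ s ∈ (blk b t).erase (s₀ t), y s ^ m + 1 = 0) :
    (MvPolynomial σ k ⧸ jbI b s₀ m k T) →ₐ[k] B :=
  Ideal.Quotient.liftₐ _ (aeval y) fun a ha => by
    have : jbI b s₀ m k T ≤ RingHom.ker (aeval y : MvPolynomial σ k →ₐ[k] B) := by
      rw [jbI, Ideal.span_le]
      rintro _ (⟨s, h, rfl⟩ | ⟨t, ht, rfl⟩)
      · simpa only [SetLike.mem_coe, RingHom.mem_ker, aeval_X] using h0 s h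
      · simpa only [SetLike.mem_coe, RingHom.mem_ker, map_add, map_sum, map_pow, aeval_X, map_one]
          using h1 t ht
    exact this ha

open Classical in
theorem jbLift_X {B : Type} [CommRing B] [Algebra k B] {T : Finset τ} (y : σ → B)
    (h0 : ∀ s, ¬jbU b s₀ T s → y s = 0)
    (h1 : ∀ t ∈ T, ∑ s ∈ (blk b t).erase (s₀ t), y s ^ m + 1 = 0) (s : σ) :
    jbLift (k := k) y h0 h1 (Ideal.Quotient.mk _ (X s)) = y s := aeval_X y s

theorem jb_zero {T : Finset τ} {s : σ} (h : ¬jbU b s₀ T s) :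
    Ideal.Quotient.mk (jbI b s₀ m k T) (X s) = 0 :=
  Ideal.Quotient.eq_zero_iff_mem.2 (Ideal.subset_span (Or.inl ⟨s, h, rfl⟩))

open Classical in
theorem jb_rel {T : Finset τ} {t : τ} (h : t ∈ T) : ∑ s ∈ (blk b t).erase (s₀ t),
    Ideal.Quotient.mk (jbI b s₀ m k T) (X s) ^ m + 1 = 0 := by
  have : Ideal.Quotient.mk (jbI b s₀ m k T) (∑ s ∈ (blk b t).erase (s₀ t), X s ^ m + 1) = 0 :=
    Ideal.Quotient.eq_zero_iff_mem.2 (Ideal.subset_span (Or.inr ⟨t, h, rfl⟩))
  simpa only [map_add, map_sum, map_pow, map_one] using this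

theorem jb_inv (T : Finset τ) (g : σ → rootsOfUnity m k) (a : MvPolynomial σ k)
    (ha : a ∈ jbI b s₀ m k T) : diagAct σ m g a ∈ jbI b s₀ m k T := by
  have : jbI b s₀ m k T ≤ (jbI b s₀ m k T).comap (diagAct σ m g) := by
    refine Ideal.span_le.2 ?_
    rintro _ (⟨s, h, rfl⟩ | ⟨t, ht, rfl⟩)
    · rw [SetLike.mem_coe, Ideal.mem_comap, diagAct_X]
      exact Ideal.mul_mem_left _ _ (Ideal.subset_span (Or.inl ⟨s, h, rfl⟩))
    · rw [SetLike.mem_coe, Ideal.mem_comap, map_add, map_sum, map_one]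
      simp only [diagAct_X_pow]
      exact Ideal.subset_span (Or.inr ⟨t, ht, rfl⟩)
  exact this ha

theorem jb_ext {ι B : Type} [CommRing B] [Algebra k B] {I : Ideal (MvPolynomial ι k)}
    {f g : (MvPolynomial ι k ⧸ I) →ₐ[k] B}
    (h : ∀ s, f (Ideal.Quotient.mk _ (X s)) = g (Ideal.Quotient.mk _ (X s))) : f = g :=
  Ideal.Quotient.algHom_ext k (algHom_ext h)

theorem jb_text {ι κ B : Type} [CommRing B] [Algebra k B] {I : Ideal (MvPolynomial ι k)}
    {J : Ideal (MvPolynomial κ k)}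
    {f g : (MvPolynomial ι k ⧸ I) ⊗[k] (MvPolynomial κ k ⧸ J) →ₐ[k] B}
    (h : ∀ s, f (Ideal.Quotient.mk _ (X s) ⊗ₜ 1) = g (Ideal.Quotient.mk _ (X s) ⊗ₜ 1))
    (h' : ∀ s, f (1 ⊗ₜ Ideal.Quotient.mk _ (X s)) = g (1 ⊗ₜ Ideal.Quotient.mk _ (X s))) :
    f = g := by
  have e1 : f.comp Algebra.TensorProduct.includeLeft = g.comp Algebra.TensorProduct.includeLeft :=
    jb_ext h
  have e2 : f.comp Algebra.TensorProduct.includeRight =
      g.comp Algebra.TensorProduct.includeRight := jb_ext h'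
  refine Algebra.TensorProduct.ext' fun a b => ?_
  have h1 : f (a ⊗ₜ 1) = g (a ⊗ₜ 1) := AlgHom.congr_fun e1 a
  have h2 : f (1 ⊗ₜ b) = g (1 ⊗ₜ b) := AlgHom.congr_fun e2 b
  rw [← mul_one a, ← one_mul b, ← Algebra.TensorProduct.tmul_mul_tmul, map_mul, map_mul, h1, h2]

theorem jb_diag {ι : Type} (I : Ideal (MvPolynomial ι k)) (g : ι → rootsOfUnity m k) (s : ι) :
    Ideal.Quotient.mk I (diagAct ι m g (X s)) = ((g s).1 : k) • Ideal.Quotient.mk I (X s) := by
  rw [diagAct_X, ← smul_eq_C_mul]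
  rfl

theorem jb_chi0 (ζ : rootsOfUnity m k) : chi ω m 0 ζ = 1 := by rw [chi_apply, zpow_zero]

/-- the ring of the affine Fermat hypersurface. -/
abbrev FN (k : Type) [Field k] (ι : Type) [Fintype ι] (m : ℕ) : Type :=
  MvPolynomial ι k ⧸ Ideal.span {(∑ i, X i ^ m + 1 : MvPolynomial ι k)}

theorem jb_relN (ι : Type) [Fintype ι] :
    ∑ i, (Ideal.Quotient.mk _ (X i) : FN k ι m) ^ m + 1 = 0 := by
  have : Ideal.Quotient.mk (Ideal.span {(∑ i, X i ^ m + 1 : MvPolynomial ι k)})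
      (∑ i, X i ^ m + 1) = 0 :=
    Ideal.Quotient.eq_zero_iff_mem.2 (Ideal.mem_span_singleton_self _)
  simpa only [map_add, map_sum, map_pow, map_one] using this

section step

open Classical

variable (k) {T : Finset τ} {t : τ}

variable (b s₀ m T t) in
/-- the point of the larger product with values in the tensor product. -/
noncomputable def jbPt (s : σ) :
    FN k {s // b s = t ∧ s ≠ s₀ t} m ⊗[k] (MvPolynomial σ k ⧸ jbI b s₀ m k T) :=
  if h : b s = t ∧ s ≠ s₀ t then Ideal.Quotient.mk _ (X ⟨s, h⟩) ⊗ₜ 1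
  else 1 ⊗ₜ Ideal.Quotient.mk _ (X s)

/-- the map to the tensor product. -/
noncomputable def jbTo (ht : t ∉ T) : (MvPolynomial σ k ⧸ jbI b s₀ m k (insert t T)) →ₐ[k]
    FN k {s // b s = t ∧ s ≠ s₀ t} m ⊗[k] (MvPolynomial σ k ⧸ jbI b s₀ m k T) :=
  jbLift (jbPt k b s₀ m T t)
    (fun s h => by
      rw [jbPt, dif_neg fun e : b s = t ∧ s ≠ s₀ t => h ⟨by simp [e.1], e.1 ▸ e.2⟩,
        jb_zero fun e => h ⟨mem_insert_of_mem e.1, e.2⟩, TensorProduct.tmul_zero])
    fun u hu => by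
      rcases mem_insert.1 hu with rfl | hu
      · have := congrArg (Algebra.TensorProduct.includeLeft :
          _ →ₐ[k] FN k {s // b s = u ∧ s ≠ s₀ u} m ⊗[k] (MvPolynomial σ k ⧸ jbI b s₀ m k T))
          (jb_relN (k := k) (m := m) {s // b s = u ∧ s ≠ s₀ u})
        simp only [map_add, map_sum, map_pow, map_one, map_zero] at this
        rw [Finset.sum_subtype _ (fun _ => jb_mem), ← this]
        exact congrArg (· + 1) (Finset.sum_congr rfl fun i _ => by rw [jbPt, dif_pos i.2]; rfl)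
      · have := congrArg (Algebra.TensorProduct.includeRight :
          _ →ₐ[k] FN k {s // b s = t ∧ s ≠ s₀ t} m ⊗[k] (MvPolynomial σ k ⧸ jbI b s₀ m k T))
          (jb_rel (k := k) (b := b) (s₀ := s₀) (m := m) hu)
        simp only [map_add, map_sum, map_pow, map_one, map_zero] at this
        rw [← this]
        exact congrArg (· + 1) (Finset.sum_congr rfl fun i hi => by
          rw [jbPt, dif_neg fun e : b i = t ∧ i ≠ s₀ t => ht (e.1 ▸ (jb_mem.1 hi).1 ▸ hu)]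
          rfl)

theorem jbTo_X (ht : t ∉ T) (s : σ) :
    jbTo k ht (Ideal.Quotient.mk _ (X s)) = jbPt k b s₀ m T t s := jbLift_X _ _ _ s

variable (T) in
/-- the projection on the new factor. -/
noncomputable def jbFac : FN k {s // b s = t ∧ s ≠ s₀ t} m →ₐ[k]
    (MvPolynomial σ k ⧸ jbI b s₀ m k (insert t T)) :=
  Ideal.Quotient.liftₐ _ (aeval fun i => Ideal.Quotient.mk _ (X i.1)) fun a ha => by
    obtain ⟨c, rfl⟩ := Ideal.mem_span_singleton'.1 ha
    have := jb_rel (k := k) (b := b) (s₀ := s₀) (m := m) (mem_insert_self t T)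
    rw [Finset.sum_subtype _ (fun _ => jb_mem)] at this
    simp only [map_mul, map_add, map_sum, map_pow, aeval_X, map_one]
    rw [this, mul_zero]

theorem jbFac_X (i : {s // b s = t ∧ s ≠ s₀ t}) :
    jbFac (m := m) k T (Ideal.Quotient.mk _ (X i)) = Ideal.Quotient.mk _ (X i.1) := aeval_X _ i

/-- the projection on the old factors. -/
noncomputable def jbOld (ht : t ∉ T) : (MvPolynomial σ k ⧸ jbI b s₀ m k T) →ₐ[k]
    (MvPolynomial σ k ⧸ jbI b s₀ m k (insert t T)) :=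
  jbLift (fun s => if b s = t then 0 else Ideal.Quotient.mk _ (X s))
    (fun s h => by
      split_ifs with e
      · rfl
      · exact jb_zero fun e' => h ⟨(mem_insert.1 e'.1).resolve_left e, e'.2⟩)
    fun u hu => by
      refine Eq.trans ?_
        (jb_rel (k := k) (b := b) (s₀ := s₀) (m := m) (mem_insert_of_mem (b := t) hu))
      exact congrArg (· + 1) (Finset.sum_congr rfl fun i hi => by
        rw [if_neg fun e : b i = t => ht (e ▸ (jb_mem.1 hi).1 ▸ hu)])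

theorem jbOld_X (ht : t ∉ T) (s : σ) : jbOld (b := b) (s₀ := s₀) (m := m) k ht
    (Ideal.Quotient.mk _ (X s)) = if b s = t then 0 else Ideal.Quotient.mk _ (X s) :=
  jbLift_X _ _ _ s

theorem jbTo_bij (ht : t ∉ T) : Bijective (jbTo (b := b) (s₀ := s₀) (m := m) k ht) := by
  let ψ := Algebra.TensorProduct.productMap (jbFac (b := b) (s₀ := s₀) (m := m) (t := t) k T)
    (jbOld k ht)
  have e : ∀ x y, ψ (x ⊗ₜ y) = jbFac k T x * jbOld k ht y := fun _ _ => rfl
  have h1 : ψ.comp (jbTo k ht) = AlgHom.id k _ := jb_ext fun s => by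
    rw [AlgHom.comp_apply, jbTo_X, jbPt, AlgHom.id_apply]
    split_ifs with h
    · rw [e, map_one, mul_one, jbFac_X]
    · rw [e, map_one, one_mul, jbOld_X]
      split_ifs with h'
      · exact (jb_zero fun e' => h ⟨h', h' ▸ e'.2⟩).symm
      · rfl
  have h2 : (jbTo k ht).comp ψ = AlgHom.id k _ := by
    refine jb_text (B := FN k {s // b s = t ∧ s ≠ s₀ t} m ⊗[k] (MvPolynomial σ k ⧸ jbI b s₀ m k T))
      (fun i => ?_) fun s => ?_
    · rw [AlgHom.comp_apply, e, map_one, mul_one, jbFac_X, jbTo_X, jbPt, dif_pos i.2]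
      rfl
    · rw [AlgHom.comp_apply, e, map_one, one_mul, jbOld_X, AlgHom.id_apply]
      split_ifs with h
      · rw [map_zero, jb_zero fun e' : jbU b s₀ T s => ht (h ▸ e'.1), TensorProduct.tmul_zero]
      · rw [jbTo_X, jbPt, dif_neg fun e' : b s = t ∧ s ≠ s₀ t => h e'.1]
  exact bijective_iff_has_inverse.2 ⟨ψ, AlgHom.congr_fun h1, AlgHom.congr_fun h2⟩

/-- the map of groups. -/
noncomputable def jbPi {G : Type} [Group G] (P : σ → Prop) :
    (Subtype P → G) × (σ → G) →* (σ → G) where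
  toFun g s := if h : P s then g.1 ⟨s, h⟩ else g.2 s
  map_one' := funext fun s => by split_ifs <;> rfl
  map_mul' g h := funext fun s => by
    simp only [Pi.mul_apply]
    split_ifs <;> rfl

theorem jbPi_apply {G : Type} [Group G] (P : σ → Prop) (g : (Subtype P → G) × (σ → G)) (s : σ) :
    jbPi P g s = if h : P s then g.1 ⟨s, h⟩ else g.2 s := rfl

variable {k} [NeZero m]

variable (b s₀ m) in
/-- the product over the blocks in `T`. -/
@[reducible] noncomputable def jbO (c : σ → ℤ) (T : Finset τ) : Obj k :=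
  (aff ω σ m fun s => if jbU b s₀ T s then c s else 0).quot (jbI b s₀ m k T) (jb_inv T)

omit [NeZero m] in
theorem jb_comm (ht : t ∉ T)
    (g : ({s // b s = t ∧ s ≠ s₀ t} → rootsOfUnity m k) × (σ → rootsOfUnity m k))
    {A : FN k {s // b s = t ∧ s ≠ s₀ t} m →ₐ[k] FN k {s // b s = t ∧ s ≠ s₀ t} m}
    {B : (MvPolynomial σ k ⧸ jbI b s₀ m k T) →ₐ[k] (MvPolynomial σ k ⧸ jbI b s₀ m k T)}
    {Z : (MvPolynomial σ k ⧸ jbI b s₀ m k (insert t T)) →ₐ[k]
      (MvPolynomial σ k ⧸ jbI b s₀ m k (insert t T))}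
    (hA : ∀ i, A (Ideal.Quotient.mk _ (X i)) = ((g.1 i).1 : k) • Ideal.Quotient.mk _ (X i))
    (hB : ∀ s, B (Ideal.Quotient.mk _ (X s)) = ((g.2 s).1 : k) • Ideal.Quotient.mk _ (X s))
    (hZ : ∀ s, Z (Ideal.Quotient.mk _ (X s)) = ((jbPi _ g s).1 : k) • Ideal.Quotient.mk _ (X s))
    (a : MvPolynomial σ k ⧸ jbI b s₀ m k (insert t T)) :
    jbTo k ht (Z a) = Algebra.TensorProduct.map A B (jbTo k ht a) := by
  refine AlgHom.congr_fun (φ₁ := (jbTo k ht).comp Z)
    (φ₂ := (Algebra.TensorProduct.map A B).comp (jbTo k ht)) (jb_ext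
      (B := FN k {s // b s = t ∧ s ≠ s₀ t} m ⊗[k] (MvPolynomial σ k ⧸ jbI b s₀ m k T))
      fun s => ?_) a
  rw [AlgHom.comp_apply, hZ, map_smul, AlgHom.comp_apply, jbTo_X, jbPt, jbPi_apply]
  split_ifs with h
  · rw [Algebra.TensorProduct.map_tmul, map_one, hA, TensorProduct.smul_tmul']
  · rw [Algebra.TensorProduct.map_tmul, map_one, hB, TensorProduct.tmul_smul]

/-- an equivariant map to a tensor product. -/
noncomputable def jbEqv (X Y Z : Obj k) (φ : Z.A.R →ₐ[k] X.A.R ⊗[k] Y.A.R) (π : X.G × Y.G →* Z.G)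
    (h : ∀ g a, φ (Z.act (π g) a) = Algebra.TensorProduct.map (X.act g.1) (Y.act g.2) (φ a))
    (h' : ∀ g : X.G × Y.G, X.χ g.1 * Y.χ g.2 = Z.χ (π g)) : Eqv Z (X.ten Y) := ⟨φ, π, h, h'⟩

theorem jb_chis (c : σ → ℤ) (ht : t ∉ T)
    (g : ({s // b s = t ∧ s ≠ s₀ t} → rootsOfUnity m k) × (σ → rootsOfUnity m k)) :
    chis ω m (fun s : {s // b s = t ∧ s ≠ s₀ t} => c s.1) g.1 *
      chis ω m (fun s => if jbU b s₀ T s then c s else 0) g.2 =
      chis ω m (fun s => if jbU b s₀ (insert t T) s then c s else 0) (jbPi _ g) := by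
  have e : ∏ i : {s // b s = t ∧ s ≠ s₀ t}, chi ω m (c i.1) (g.1 i) =
      ∏ s with b s = t ∧ s ≠ s₀ t, chi ω m (c s) (jbPi _ g s) := by
    rw [Finset.prod_subtype (p := fun s => b s = t ∧ s ≠ s₀ t) _ (fun _ => by simp)]
    exact Finset.prod_congr rfl fun i _ => by rw [jbPi_apply, dif_pos i.2]
  simp only [chis_apply]
  rw [e, Finset.prod_filter, ← Finset.prod_mul_distrib]
  refine Finset.prod_congr rfl fun s _ => ?_
  by_cases h : b s = t ∧ s ≠ s₀ t
  · rw [if_pos h, if_neg fun e' : jbU b s₀ T s => ht (h.1 ▸ e'.1), jb_chi0, mul_one,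
      if_pos (show jbU b s₀ (insert t T) s from ⟨by simp [h.1], h.1 ▸ h.2⟩)]
  · have : jbU b s₀ (insert t T) s ↔ jbU b s₀ T s :=
      ⟨fun e' => ⟨(mem_insert.1 e'.1).resolve_left fun e'' => h ⟨e'', e'' ▸ e'.2⟩, e'.2⟩,
        fun e' => ⟨mem_insert_of_mem e'.1, e'.2⟩⟩
    rw [if_neg h, one_mul, jbPi_apply, dif_neg h]
    simp only [this]

theorem jb_insert (c : σ → ℤ) (ht : t ∉ T) : (jbO ω b s₀ m c (insert t T)).cls =
    (fN ω {s // b s = t ∧ s ≠ s₀ t} m fun s => c s.1).cls * (jbO ω b s₀ m c T).cls :=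
  b7_cls (jbEqv (fN ω {s // b s = t ∧ s ≠ s₀ t} m fun s => c s.1) (jbO ω b s₀ m c T)
    (jbO ω b s₀ m c (insert t T)) (jbTo k ht) (jbPi _)
    (fun g => jb_comm ht g (jb_diag _ g.1) (jb_diag _ g.2) (jb_diag _ _)) (jb_chis ω c ht))
    (jbTo_bij k ht) fun g => ⟨(fun i => g i.1, g), funext fun s => by
      change jbPi _ _ s = _
      rw [jbPi_apply]
      split_ifs <;> rfl⟩

theorem jb_empty (c : σ → ℤ) : (jbO ω b s₀ m c ∅).cls = 1 := by
  have n : ∀ s, ¬jbU b s₀ ∅ s := fun s h => notMem_empty _ h.1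
  let ψ : (MvPolynomial σ k ⧸ jbI b s₀ m k ∅) →ₐ[k] k :=
    jbLift (fun _ => 0) (fun _ _ => rfl) fun t h => absurd h (notMem_empty t)
  have h : (Algebra.ofId k _).comp ψ = AlgHom.id k _ := jb_ext fun s => by
    rw [jb_zero (n s), map_zero, map_zero]
  exact (b7_cls (X := Obj.one k) (Y := jbO ω b s₀ m c ∅)
    ⟨Algebra.ofId k _, 1, fun h a => (((jbO ω b s₀ m c ∅).act h).commutes a).symm,
      fun h => by simp [chis_apply, n, jb_chi0]⟩
    (bijective_iff_has_inverse.2 ⟨ψ, fun a => ψ.commutes a, AlgHom.congr_fun h⟩)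
    fun _ => ⟨1, Subsingleton.elim _ _⟩).symm

theorem cls_jbO (c : σ → ℤ) (T : Finset τ) : (jbO ω b s₀ m c T).cls =
    ∏ t ∈ T, (fN ω {s // b s = t ∧ s ≠ s₀ t} m fun s => c s.1).cls := by
  induction T using Finset.induction_on with
  | empty => rw [jb_empty, prod_empty]
  | insert t T ht ih => rw [jb_insert ω c ht, ih, prod_insert ht]

end step

end Pool.Agent.Lib.MP_40dc3c_ag.P
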