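import Pool.Agent.Lib.MP_40dc3c_ag.P.Ti
import Pool.Agent.Lib.MP_40dc3c_ag.P.Lo
import Pool.Agent.Lib.MP_40dc3c_ag.P.Cor
import Pool.Agent.Lib.MP_40dc3c_ag.T.O4

/-! The functional on the square of the affine part. -/

namespace Pool.Agent.Lib.MP_40dc3c_ag.P

open MvPolynomial Finset Function T
open scoped TensorProduct

section
variable {k : Type} [Field k] {σ τ : Type}

/-- block scalars act on a form by a scalar. -/
theorem la_form [Fintype τ] {β : σ → τ} {m : ℕ} (v : τ → rootsOfUnity m k) {f : MvPolynomial σ k}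
    {d : τ → ℤ} (h : f.IsWeightedHomogeneous (wt β) d) :
    diagAct σ m (v ∘ β) f = C (∏ t, (((v t).1 : kˣ) : k) ^ (d t).toNat) * f := by
  induction h using IsWeightedHomogeneous.induction_on with
  | zero => simp
  | add p q _ _ a b => rw [map_add, a, b, mul_add]
  | monomial u r hr =>
    subst hr
    simp only [weight_wt, Int.toNat_natCast]
    rw [← Finsupp.prod_fintype (u.mapDomain β) (fun t n => (((v t).1 : kˣ) : k) ^ n)
      fun _ => pow_zero _, Finsupp.prod_mapDomain_index (fun _ => pow_zero _)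
      fun _ _ _ => pow_add _ _ _, monomial_eq, map_mul, map_finsuppProd, map_finsuppProd,
      mul_left_comm, ← Finsupp.prod_mul, algHom_C, algebraMap_eq]
    simp only [map_pow, diagAct_X, mul_pow, comp]

theorem la_scal [Fintype τ] {β : σ → τ} {m : ℕ} {I : Ideal (MvPolynomial σ k)} (h : Hg β I)
    (g : σ → rootsOfUnity m k) (v : τ → rootsOfUnity m k) :
    I.map (diagAct σ m (g * v ∘ β)) = I.map (diagAct σ m g) := by
  have key : ∀ (g : σ → rootsOfUnity m k) (v : τ → rootsOfUnity m k),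
      I.map (diagAct σ m (g * v ∘ β)) ≤ I.map (diagAct σ m g) := fun g v => by
    obtain ⟨G, hG, rfl⟩ := h.exists_span
    rw [Ideal.map_span, Ideal.span_le]
    rintro _ ⟨f, hf, rfl⟩
    obtain ⟨d, hd⟩ := hG f hf
    rw [map_mul, AlgHom.mul_apply, la_form v hd]
    exact Ideal.mem_map_of_mem _ (Ideal.mul_mem_left _ _ (Ideal.subset_span hf))
  refine (key g v).antisymm (le_trans (le_of_eq ?_) (key _ v⁻¹))
  rw [show g * v ∘ β * v⁻¹ ∘ β = g from mul_inv_cancel_right g (v ∘ β)]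

theorem la_unit (F : Ideal (MvPolynomial σ k)) (s₀ : τ → σ) :
    two (F ⊔ unitI k s₀) (F ⊔ unitI k s₀) = two F F ⊔ unitI k (Sum.map s₀ s₀) := by
  simp only [two, Ideal.map_sup]
  rw [sup_sup_sup_comm]
  congr 1
  simp only [unitI, Ideal.map_span, ← Ideal.span_union, ← Set.range_comp,
    Sum.range_eq (fun t => (X (Sum.map s₀ s₀ t) - 1 : MvPolynomial (σ ⊕ σ) k))]
  congr 3 <;> (funext t; simp)

variable {J : Type} [CommRing J] [Algebra k J] (p : MvPolynomial σ k →ₐ[k] J)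

/-- the map to the square of a quotient. -/
noncomputable def laP : MvPolynomial (σ ⊕ σ) k →ₐ[k] J ⊗[k] J :=
  aeval (Sum.elim (fun s => p (X s) ⊗ₜ[k] (1 : J)) fun s => (1 : J) ⊗ₜ[k] p (X s))

theorem laP_l : (laP p).comp (rename Sum.inl) = Algebra.TensorProduct.includeLeft.comp p :=
  algHom_ext fun s => by simp [laP]

theorem laP_r : (laP p).comp (rename Sum.inr) = Algebra.TensorProduct.includeRight.comp p :=
  algHom_ext fun s => by simp [laP]

theorem laP_two (V W : Ideal (MvPolynomial σ k)) : (two V W).map (laP p) =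
    (V.map p).map (Algebra.TensorProduct.includeLeft : J →ₐ[k] J ⊗[k] J) ⊔
    (W.map p).map (Algebra.TensorProduct.includeRight : J →ₐ[k] J ⊗[k] J) := by
  rw [two, Ideal.map_sup, map_algHom_comp, map_algHom_comp, map_algHom_comp, map_algHom_comp,
    laP_l, laP_r]

theorem laP_act {m : ℕ} {g g' : σ → rootsOfUnity m k} {φ φ' : J →ₐ[k] J}
    (h : φ.comp p = p.comp (diagAct σ m g)) (h' : φ'.comp p = p.comp (diagAct σ m g')) :
    (Algebra.TensorProduct.map φ φ').comp (laP p) =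
      (laP p).comp (diagAct (σ ⊕ σ) m (Sum.elim g g')) := by
  refine algHom_ext ?_
  rintro (s | s)
  · simp [laP, show φ (p (X s)) = _ from AlgHom.congr_fun h _, ← Algebra.smul_def]
  · simp [laP, show φ' (p (X s)) = _ from AlgHom.congr_fun h' _,
      Algebra.algebraMap_eq_smul_one, TensorProduct.smul_tmul']

variable {p} (hp : Surjective p)
include hp

theorem laP_surj : Surjective (laP p) := fun x => by
  induction x using TensorProduct.induction_on with
  | zero => exact ⟨0, map_zero _⟩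
  | add _ _ a b => exact (laP p).range.add_mem a b
  | tmul a b =>
    obtain ⟨a, rfl⟩ := hp a
    obtain ⟨b, rfl⟩ := hp b
    refine ⟨rename Sum.inl a * rename Sum.inr b, ?_⟩
    rw [map_mul, show laP p (rename Sum.inl a) = _ from AlgHom.congr_fun (laP_l p) a,
      show laP p (rename Sum.inr b) = _ from AlgHom.congr_fun (laP_r p) b]
    simp

theorem laP_ker : RingHom.ker (laP p) = two (RingHom.ker p) (RingHom.ker p) := by
  refine le_antisymm (fun x hx => ?_) ((Ideal.map_eq_bot_iff_le_ker _).1 ?_)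
  · have l : ∀ r : σ → σ ⊕ σ, (RingHom.ker p).map (rename r) ≤ two (RingHom.ker p) (RingHom.ker p) →
        ∃ f : J →ₐ[k] _ ⧸ two (RingHom.ker p) (RingHom.ker p), ∀ s,
          f (p (X s)) = Ideal.Quotient.mk _ (X (r s)) := fun r h =>
      ⟨p.liftOfSurjective hp ((Ideal.Quotient.mkₐ k _).comp (rename r)) fun _ a =>
        Ideal.Quotient.eq_zero_iff_mem.2 (h (Ideal.mem_map_of_mem _ a)), fun s =>
          (AlgHom.liftOfSurjective_apply _ _ _ _ _).trans (by simp)⟩
    obtain ⟨f, hf⟩ := l Sum.inl le_sup_left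
    obtain ⟨f', hf'⟩ := l Sum.inr le_sup_right
    have e : (Algebra.TensorProduct.lift f f' fun _ _ => Commute.all _ _).comp (laP p) =
        Ideal.Quotient.mkₐ k _ := algHom_ext (by rintro (s | s) <;> simp [laP, hf, hf'])
    refine Ideal.Quotient.eq_zero_iff_mem.1 ((AlgHom.congr_fun e x).symm.trans ?_)
    rw [AlgHom.comp_apply, show laP p x = 0 from hx, map_zero]
  · rw [laP_two, (Ideal.map_eq_bot_iff_le_ker p).2 le_rfl]
    simp

variable [Fintype σ] {b : σ → τ} {m : ℕ} {s₀ : τ → σ} (hs : ∀ t, b (s₀ t) = t)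
  (hk : RingHom.ker p = FI k b m ⊔ unitI k s₀)
include hs hk

theorem la_cor [Finite τ] (P : Ideal J) :
    FI k b m ≤ cor b (P.comap p) ∧ (cor b (P.comap p)).map p = P := by
  refine ⟨le_cor (hg_FI b m) (le_sup_left.trans (hk.ge.trans (Ideal.ker_le_comap p))),
    le_antisymm (Ideal.map_le_iff_le_comap.2 (cor_le_self b _)) ?_⟩
  obtain ⟨-, -, h⟩ := loc_lam b s₀ hs le_rfl (hg_FI (k := k) b m) 0 (fun _ _ _ _ => rfl) p hp hk
  obtain ⟨I, h1, -, h2⟩ := h P
  exact h2.ge.trans (Ideal.map_mono (le_cor h1 (Ideal.map_le_iff_le_comap.1 h2.le)))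

theorem la_aD : Hg (Sum.map b b) (aD k b m s₀) ∧
    (aD k b m s₀).map (laP p) = RingHom.ker (Algebra.TensorProduct.lmul' k) := by
  refine ⟨(two_hg (hg_FI b m) (hg_FI b m)).2.sup (hg_span ?_), le_antisymm ?_ ?_⟩
  · rintro _ ⟨s, rfl⟩
    refine ⟨_, ((isWeightedHomogeneous_X k _ _).mul (isWeightedHomogeneous_X k _ _)).sub ?_⟩
    have := (isWeightedHomogeneous_X k (wt (Sum.map b b)) (.inr s)).mul
      (isWeightedHomogeneous_X k (wt (Sum.map b b)) (.inl (s₀ (b s))))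
    simpa only [wt, Sum.map_inl, Sum.map_inr, hs, add_comm] using this
  · rw [aD, Ideal.map_sup, Ideal.map_span]
    refine sup_le (((Ideal.map_eq_bot_iff_le_ker _).2 ?_).le.trans bot_le) (Ideal.span_le.2 ?_)
    · rw [laP_ker hp, hk, la_unit]
      exact le_sup_left
    · rintro _ ⟨_, ⟨s, rfl⟩, rfl⟩
      simp [laP, RingHom.mem_ker, mul_comm]
  · refine (KaehlerDifferential.span_range_eq_ideal k _).ge.trans (Ideal.span_le.2 ?_)
    rintro _ ⟨a, rfl⟩
    obtain ⟨a, rfl⟩ := hp a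
    refine Ideal.Quotient.eq.1 (AlgHom.congr_fun (algHom_ext fun s => ?_ :
      (Ideal.Quotient.mkₐ k _).comp (Algebra.TensorProduct.includeRight.comp p) =
        (Ideal.Quotient.mkₐ k _).comp (Algebra.TensorProduct.includeLeft.comp p)) a)
    have e : p (X (s₀ (b s))) = 1 := by
      have : p (X (s₀ (b s)) - 1) = 0 := hk.ge (Ideal.mem_sup_right (Ideal.subset_span ⟨b s, rfl⟩))
      rwa [map_sub, map_one, sub_eq_zero] at this
    have h := Ideal.mem_map_of_mem (laP p)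
      (Ideal.mem_sup_right (Ideal.subset_span ⟨s, rfl⟩) : _ ∈ aD k b m s₀)
    refine (Ideal.Quotient.eq.2 ?_).symm
    simpa [laP, e] using! h

end

variable {k : Type} [Field k] [IsAlgClosed k] {σ τ : Type} [LinearOrder σ] [Fintype σ] [Fintype τ]
  {b : σ → τ} {m : ℕ} [NeZero m] {ω : kˣ →* ℂˣ} {c : σ → ℤ} {s₀ : τ → σ}

omit [NeZero m] in
theorem la_main (hm : (m : k) ≠ 0) (hω : Injective ω) (hs : ∀ t, b (s₀ t) = t)
    (hc : ∀ s, ¬(m : ℤ) ∣ c s) (J : Alg k) {p : MvPolynomial σ k →ₐ[k] J.R} (hp : Surjective p)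
    (hk : RingHom.ker p = FI k b m ⊔ unitI k s₀) : ∃ Λ : KK J J →ₗ[ℂ] ℂ,
      (∀ g φ h, AlgHom.comp φ p = p.comp (diagAct σ m (nrm b s₀ m g)) →
        (∀ x, Λ (pullL φ h J x) = chis ω m c g * Λ x) ∧
        ∀ x, Λ (pullR J φ h x) = chis ω m c g⁻¹ * Λ x) ∧
      Λ (T.diag _) = thb ω m c (aD k b m s₀) ∧ ∀ P P' : Ideal J.R, Λ (box J J (q P) (q P')) =
        thb ω m c (two (cor b (P.comap p)) (cor b (P'.comap p))) := by
  obtain ⟨Θ, hΘ⟩ := exists_thb hm ω c
  have h0 : hF k σ m ∈ two (FI k b m) (FI k b m) := hF_mem le_rfl le_rfl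
  obtain ⟨Λ, h1, h2⟩ := loc_lam (Sum.map b b) (Sum.map s₀ s₀) (by rintro (t | t) <;> simp [hs])
    ((Ideal.span_singleton_le_iff_mem _).2 h0) (two_hg (hg_FI b m) (hg_FI b m)).2 Θ
    (fun P t h k => by
      have h' := (Ideal.span_singleton_le_iff_mem _).1 h
      rw [hΘ P h']
      rcases t with t | t
      · exact thb_var hm hω h' (hc _) (.inl k)
      · exact thb_var hm hω h' (hc _) (.inr k))
    (laP p) (laP_surj hp) (by rw [laP_ker hp, hk, la_unit])
  replace h1 : ∀ I, Hg (Sum.map b b) I → two (FI k b m) (FI k b m) ≤ I →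
      Λ (q (I.map (laP p))) = thb ω m c I := fun I a a' => (h1 I a a').trans (hΘ I (a' h0))
  have h3 : ∀ I g g' (φ φ' : J.R →ₐ[k] J.R), Hg (Sum.map b b) I → two (FI k b m) (FI k b m) ≤ I →
      φ.comp p = p.comp (diagAct σ m (nrm b s₀ m g)) →
      φ'.comp p = p.comp (diagAct σ m (nrm b s₀ m g')) →
      Λ (q ((I.map (laP p)).map (Algebra.TensorProduct.map φ φ'))) =
        thb ω m c (I.map (diagAct (σ ⊕ σ) m (Sum.elim g g'))) := fun I g g' φ φ' a a' e e' => by
    rw [map_algHom_comp, laP_act p e e', ← map_algHom_comp,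
      show Sum.elim (nrm b s₀ m g) (nrm b s₀ m g') = Sum.elim g g' *
      (Sum.elim (fun t => (g (s₀ t))⁻¹) fun t => (g' (s₀ t))⁻¹) ∘ Sum.map b b from
        funext (by rintro (s | s) <;> rfl), la_scal a]
    refine h1 _ (a.diag m _) (le_trans ?_ (Ideal.map_mono a'))
    rw [two_map]
    exact sup_le_sup (Ideal.map_mono (FI_le_map le_rfl g)) (Ideal.map_mono (FI_le_map le_rfl g'))
  have h4 : (AlgHom.id k J.R).comp p = p.comp (diagAct σ m (nrm b s₀ m 1)) := by
    rw [map_one, map_one]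
    rfl
  refine ⟨Λ, fun g φ h e => ⟨LinearMap.congr_fun (ext_q (f := Λ ∘ₗ pullL φ h J)
    (g := chis ω m c g • Λ) fun Q _ => ?_), LinearMap.congr_fun (ext_q
      (f := Λ ∘ₗ pullR J φ h) (g := chis ω m c g⁻¹ • Λ) fun Q _ => ?_)⟩, ?_, fun P P' => ?_⟩
  · obtain ⟨I, a, a', rfl⟩ := h2 Q
    exact (congrArg Λ (pull_q _ _ _)).trans ((h3 I g 1 φ _ a a' e h4).trans
      ((thb_lact hm g).trans (congrArg _ (h1 I a a').symm)))
  · obtain ⟨I, a, a', rfl⟩ := h2 Q
    exact (congrArg Λ (pull_q _ _ _)).trans ((h3 I 1 g _ φ a a' h4 e).trans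
      ((thb_ract hm (a' h0) g).trans (congrArg _ (h1 I a a').symm)))
  · exact (congrArg (fun I => Λ (q I)) (la_aD hp hs hk).2).symm.trans
      (h1 _ (la_aD hp hs hk).1 le_sup_left)
  · refine Eq.trans (congrArg Λ ((box_q _ _ _ _).trans (congrArg q ?_))) (h1 _
      (two_hg (hg_cor b _) (hg_cor b _)).2 (sup_le_sup (Ideal.map_mono (la_cor hp hs hk P).1)
        (Ideal.map_mono (la_cor hp hs hk P').1)))
    rw [laP_two, (la_cor hp hs hk P).2, (la_cor hp hs hk P').2]
    rfl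

theorem exists_lam (hm : (m : k) ≠ 0) (hω : Injective ω) (hs : ∀ t, b (s₀ t) = t)
    (hc : ∀ s, ¬(m : ℤ) ∣ c s) : ∃ Λ : KK (Jo ω hs m c).A (Jo ω hs m c).A →ₗ[ℂ] ℂ,
      (∀ g x, Λ ((Jo ω hs m c).aut g _ x) = chis ω m c g * Λ x) ∧
      (∀ g x, Λ ((Jo ω hs m c).autR g _ x) = chis ω m c g⁻¹ * Λ x) ∧
      Λ (T.diag _) = thb ω m c (aD k b m s₀) ∧
      ∀ P P' : Ideal (MvPolynomial σ k ⧸ (FI k b m ⊔ unitI k s₀)),
        Λ (box (Jo ω hs m c).A (Jo ω hs m c).A (q P) (q P')) =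
          thb ω m c (two (cor b (P.comap (Ideal.Quotient.mk _)))
            (cor b (P'.comap (Ideal.Quotient.mk _)))) := by
  obtain ⟨Λ, h1, h2, h3⟩ := la_main hm hω hs hc (Jo ω hs m c).A
    (Ideal.Quotient.mkₐ_surjective k (FI k b m ⊔ unitI k s₀)) Ideal.mk_ker
  exact ⟨Λ, fun g => (h1 g ((Jo ω hs m c).act g) _ (AlgHom.ext fun _ => rfl)).1,
    fun g => (h1 g ((Jo ω hs m c).act g) _ (AlgHom.ext fun _ => rfl)).2, h2, h3⟩

end Pool.Agent.Lib.MP_40dc3c_ag.P
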