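import Pool.Agent.Lib.MP_40dc3c_ag.P.TDefs

/-! The long exact sequence, numerically. -/

namespace Pool.Agent.Lib.MP_40dc3c_ag.P

variable {k : Type} [Field k] {Λ Λ' VA VB VC : Type} [AddCommGroup VA] [Module k VA]
  [AddCommGroup VB] [Module k VB] [AddCommGroup VC] [Module k VC] {nx : Λ ≃ Λ} {nx' : Λ' ≃ Λ'}
  {dA : VA →ₗ[k] VA} {dB : VB →ₗ[k] VB} {dC : VC →ₗ[k] VC} {UA : Λ → Submodule k VA}
  {UB : Λ → Submodule k VB} {UC : Λ → Submodule k VC} {f : VA →ₗ[k] VB} {g : VB →ₗ[k] VC}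

/-- a short exact sequence of complexes. -/
structure Ses (dA : VA →ₗ[k] VA) (dB : VB →ₗ[k] VB) (dC : VC →ₗ[k] VC) (UA : Λ → Submodule k VA)
    (UB : Λ → Submodule k VB) (UC : Λ → Submodule k VC) (f : VA →ₗ[k] VB) (g : VB →ₗ[k] VC) :
    Prop where
  fm : ∀ i, ∀ x ∈ UA i, f x ∈ UB i
  gm : ∀ i, ∀ y ∈ UB i, g y ∈ UC i
  inj : ∀ i, ∀ x ∈ UA i, f x = 0 → x = 0
  ex : ∀ i, ∀ y ∈ UB i, g y = 0 ↔ ∃ x ∈ UA i, f x = y
  surj : ∀ i, ∀ z ∈ UC i, ∃ y ∈ UB i, g y = z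
  fd : ∀ i, ∀ x ∈ UA i, f (dA x) = dB (f x)
  gd : ∀ i, ∀ y ∈ UB i, g (dB y) = dC (g y)

theorem rk_congr {P : Submodule k VA} {F : VA →ₗ[k] VB} {G : VA →ₗ[k] VC}
    (h : ∀ x ∈ P, F x = 0 ↔ G x = 0) : Module.rank k (P.map F) = Module.rank k (P.map G) := by
  have e : LinearMap.ker (F.domRestrict P) = LinearMap.ker (G.domRestrict P) :=
    Submodule.ext fun x => h x.1 x.2
  rw [← LinearMap.range_domRestrict, ← LinearMap.range_domRestrict,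
    ← (LinearMap.quotKerEquivRange _).rank_eq, ← (LinearMap.quotKerEquivRange _).rank_eq, e]

theorem rk_sub {R P : Submodule k VA} (h : R ≤ P) :
    Module.rank k P = Module.rank k (P.map R.mkQ) + Module.rank k R := by
  rw [← LinearMap.rank_range_add_rank_ker (R.mkQ.domRestrict P), LinearMap.range_domRestrict,
    LinearMap.ker_domRestrict, Submodule.ker_mkQ, (Submodule.comapSubtypeEquivOfLe h).rank_eq]

theorem rk_split {P : Submodule k VA} (F : VA →ₗ[k] VB) (G : VA →ₗ[k] VC)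
    (h : ∀ x ∈ P, F x = 0 → G x = 0) : Module.rank k (P.map F) =
      Module.rank k (P.map G) + Module.rank k ((P ⊓ LinearMap.ker G).map F) := by
  rw [rk_sub (Submodule.map_mono (f := F) (inf_le_left (b := LinearMap.ker G))),
    ← Submodule.map_comp]
  refine congrArg (· + _) (rk_congr fun x hx => ?_)
  rw [LinearMap.comp_apply, Submodule.mkQ_apply, Submodule.Quotient.mk_eq_zero]
  refine ⟨fun ⟨y, ⟨h1, h2⟩, e⟩ => ?_, fun e => ⟨x, ⟨hx, e⟩, rfl⟩⟩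
  have := h _ (sub_mem hx h1) (by rw [map_sub, e, sub_self])
  rwa [map_sub, show G y = 0 from h2, sub_zero] at this

theorem mkQ_zero {R : Submodule k VA} {x : VA} : R.mkQ x = 0 ↔ x ∈ R :=
  Submodule.Quotient.mk_eq_zero R

theorem les (hA : IsCx nx dA UA) (hB : IsCx nx dB UB) (hC : IsCx nx dC UC)
    (h : Ses dA dB dC UA UB UC f g) : ∃ α β γ : Λ → Cardinal, ∀ i,
      Module.rank k (Hm dC (UC (nx i)) (UC i)) = α i + β i ∧
      Module.rank k (Hm dB (UB (nx i)) (UB i)) = β i + γ i ∧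
      Module.rank k (Hm dA (UA (nx i)) (UA i)) = γ i + α (nx i) := by
  have gf : ∀ i, ∀ x ∈ UA i, g (f x) = 0 := fun i x hx => (h.ex i _ (h.fm i x hx)).2 ⟨x, hx, rfl⟩
  have key : ∀ i, ∀ y ∈ UB i, g y ∈ (UC (nx i)).map dC →
      ∃ w ∈ UB (nx i), ∃ x ∈ UA i, y = dB w + f x ∧ dB y = dB (f x) := by
    rintro i y hy ⟨z, hz, e⟩
    obtain ⟨w, hw, rfl⟩ := h.surj _ z hz
    obtain ⟨x, hx, e2⟩ := (h.ex i _ (sub_mem hy (hB.mem i w hw))).1 (by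
      rw [map_sub, h.gd _ w hw, e, sub_self])
    exact ⟨w, hw, x, hx, by rw [e2, add_sub_cancel], by rw [e2, map_sub, hB.sq _ w hw, sub_zero]⟩
  have cyc : ∀ i, ∀ x ∈ UA i, dB (f x) = 0 → dA x = 0 := fun i x hx e =>
    h.inj (nx.symm i) _ (hA.mem _ x (by rwa [nx.apply_symm_apply])) ((h.fd i x hx).trans e)
  refine ⟨fun i => Module.rank k ((UB i ⊓ LinearMap.ker (dC ∘ₗ g)).map
      (((UA i).map (dB ∘ₗ f)).mkQ ∘ₗ dB)),
    fun i => Module.rank k ((UB i ⊓ LinearMap.ker dB).map (((UC (nx i)).map dC).mkQ ∘ₗ g)),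
    fun i => Module.rank k ((UA i ⊓ LinearMap.ker dA).map (((UB (nx i)).map dB).mkQ ∘ₗ f)),
    fun i => ⟨?_, ?_, ?_⟩⟩
  · have e : UC i ⊓ LinearMap.ker dC = (UB i ⊓ LinearMap.ker (dC ∘ₗ g)).map g := by
      refine le_antisymm (fun z hz => ?_) ?_
      · obtain ⟨y, hy, rfl⟩ := h.surj i z hz.1
        exact ⟨y, ⟨hy, hz.2⟩, rfl⟩
      · rintro _ ⟨y, hy, rfl⟩
        exact ⟨h.gm i y hy.1, hy.2⟩
    rw [Hm, e, ← Submodule.map_comp, rk_split _ (((UA i).map (dB ∘ₗ f)).mkQ ∘ₗ dB) fun y hy e => by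
      obtain ⟨w, -, x, hx, -, e2⟩ := key i y hy.1 (mkQ_zero.1 e)
      exact mkQ_zero.2 ⟨x, hx, e2.symm⟩]
    refine congrArg (fun T : Submodule k _ => _ + Module.rank k T) (le_antisymm ?_
      (Submodule.map_mono fun y hy => ⟨⟨hy.1, ?_⟩, ?_⟩))
    · rintro _ ⟨y, ⟨hy, e⟩, rfl⟩
      obtain ⟨x, hx, e2⟩ := mkQ_zero.1 e
      refine ⟨y - f x, ⟨sub_mem hy.1 (h.fm i x hx), ?_⟩, by simp [gf i x hx]⟩
      exact (map_sub dB _ _).trans (sub_eq_zero.2 e2.symm)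
    · exact (h.gd i y hy.1).symm.trans (by rw [show dB y = 0 from hy.2, map_zero])
    · exact mkQ_zero.2 ((show dB y = 0 from hy.2) ▸ zero_mem _)
  · rw [Hm, rk_split _ (((UC (nx i)).map dC).mkQ ∘ₗ g) fun y _ e => by
      obtain ⟨w, hw, rfl⟩ := mkQ_zero.1 e
      exact mkQ_zero.2 ⟨g w, h.gm _ w hw, (h.gd _ w hw).symm⟩]
    refine congrArg (fun T : Submodule k _ => _ + Module.rank k T) (le_antisymm ?_ ?_)
    · rintro _ ⟨y, ⟨hy, e⟩, rfl⟩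
      obtain ⟨w, hw, x, hx, e1, e2⟩ := key i y hy.1 (mkQ_zero.1 e)
      refine ⟨x, ⟨hx, cyc i x hx (e2.symm.trans hy.2)⟩, ?_⟩
      rw [e1, map_add, mkQ_zero.2 (Submodule.mem_map_of_mem hw), zero_add]
      rfl
    · rintro _ ⟨x, hx, rfl⟩
      refine ⟨f x, ⟨⟨h.fm i x hx.1, ?_⟩, mkQ_zero.2 (gf i x hx.1 ▸ zero_mem _)⟩, rfl⟩
      exact (h.fd i x hx.1).symm.trans (by rw [show dA x = 0 from hx.2, map_zero])
  · rw [Hm, rk_split _ (((UB (nx i)).map dB).mkQ ∘ₗ f) fun y _ e => by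
      obtain ⟨w, hw, rfl⟩ := mkQ_zero.1 e
      exact mkQ_zero.2 ⟨f w, h.fm _ w hw, (h.fd _ w hw).symm⟩]
    refine congrArg (_ + ·) ((rk_congr (G := ((UA (nx i)).map (dB ∘ₗ f)).mkQ ∘ₗ f)
      fun x hx => ?_).trans (congrArg (fun T : Submodule k _ => Module.rank k T)
        (le_antisymm ?_ ?_)))
    · refine mkQ_zero.trans (Iff.trans ⟨?_, fun ⟨w, hw, e⟩ => ⟨w, hw, ?_⟩⟩ mkQ_zero.symm)
      · rintro ⟨w, hw, rfl⟩
        exact ⟨w, hw, (h.fd _ w hw).symm⟩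
      · refine sub_eq_zero.1 (h.inj i _ (sub_mem (hA.mem i w hw) hx.1.1) ?_)
        rw [map_sub, h.fd _ w hw]
        exact sub_eq_zero.2 e
    · rintro _ ⟨x, ⟨hx, e⟩, rfl⟩
      obtain ⟨w, hw, e2⟩ := mkQ_zero.1 e
      exact ⟨w, ⟨hw, (h.gd _ w hw).symm.trans ((congrArg g e2).trans (gf i x hx.1))⟩,
        congrArg _ e2⟩
    · rintro _ ⟨w, hw, rfl⟩
      obtain ⟨x, hx, e⟩ := (h.ex i _ (hB.mem i w hw.1)).1 ((h.gd _ w hw.1).trans hw.2)
      exact ⟨x, ⟨⟨hx, cyc i x hx ((congrArg dB e).trans (hB.sq _ w hw.1))⟩,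
        mkQ_zero.2 ⟨w, hw.1, e.symm⟩⟩, congrArg _ e⟩

theorem les_fin (hA : IsCx nx dA UA) (hB : IsCx nx dB UB) (hC : IsCx nx dC UC)
    (h : Ses dA dB dC UA UB UC f g) (fA : ∀ i, FiniteDimensional k (Hm dA (UA (nx i)) (UA i)))
    (fC : ∀ i, FiniteDimensional k (Hm dC (UC (nx i)) (UC i))) (i : Λ) :
    FiniteDimensional k (Hm dB (UB (nx i)) (UB i)) := by
  obtain ⟨α, β, γ, e⟩ := les hA hB hC h
  have h1 := Module.rank_lt_aleph0_iff.2 (fA i)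
  have h2 := Module.rank_lt_aleph0_iff.2 (fC i)
  rw [(e i).2.2, Cardinal.add_lt_aleph0_iff] at h1
  rw [(e i).1, Cardinal.add_lt_aleph0_iff] at h2
  exact Module.rank_lt_aleph0_iff.1 ((e i).2.1 ▸ Cardinal.add_lt_aleph0 h2.2 h1.1)

theorem les_nat (hA : IsCx nx dA UA) (hB : IsCx nx dB UB) (hC : IsCx nx dC UC)
    (h : Ses dA dB dC UA UB UC f g) (fA : ∀ i, FiniteDimensional k (Hm dA (UA (nx i)) (UA i)))
    (fC : ∀ i, FiniteDimensional k (Hm dC (UC (nx i)) (UC i))) : ∃ α β γ : Λ → ℕ, ∀ i,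
      hd dC (UC (nx i)) (UC i) = α i + β i ∧ hd dB (UB (nx i)) (UB i) = β i + γ i ∧
      hd dA (UA (nx i)) (UA i) = γ i + α (nx i) := by
  obtain ⟨α, β, γ, e⟩ := les hA hB hC h
  have h1 := fun i => Cardinal.add_lt_aleph0_iff.1 ((e i).2.2 ▸ Module.rank_lt_aleph0_iff.2 (fA i))
  have h2 := fun i => Cardinal.add_lt_aleph0_iff.1 ((e i).1 ▸ Module.rank_lt_aleph0_iff.2 (fC i))
  refine ⟨fun i => (α i).toNat, fun i => (β i).toNat, fun i => (γ i).toNat, fun i => ?_⟩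
  simp only [hd, Module.finrank, (e i).1, (e i).2.1, (e i).2.2]
  rw [Cardinal.toNat_add (h2 i).1 (h2 i).2, Cardinal.toNat_add (h2 i).2 (h1 i).1,
    Cardinal.toNat_add (h1 i).1 (h1 i).2]
  simp

/-- an isomorphism of complexes up to units and a change of the index. -/
theorem rank_congr {U' : Λ' → Submodule k VB} (hA : IsCx nx dA UA) (φ : Λ → Λ')
    (hφ : ∀ i, φ (nx i) = nx' (φ i)) (hb : ∀ i, Set.BijOn f (UA i) (U' (φ i))) (u : kˣ)
    (hd' : ∀ i, ∀ x ∈ UA i, f (dA x) = u • dB (f x)) (i : Λ) :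
    Module.rank k (Hm dA (UA (nx i)) (UA i)) = Module.rank k (Hm dB (U' (nx' (φ i))) (U' (φ i))) := by
  have e : U' (φ i) ⊓ LinearMap.ker dB = (UA i ⊓ LinearMap.ker dA).map f := by
    refine le_antisymm (fun y hy => ?_) ?_
    · obtain ⟨x, hx, rfl⟩ := (hb i).surjOn hy.1
      refine ⟨x, ⟨hx, (hb (nx.symm i)).injOn (hA.mem _ x (by rwa [nx.apply_symm_apply]))
        (zero_mem _) ?_⟩, rfl⟩
      rw [hd' i x hx, show dB (f x) = 0 from hy.2, smul_zero, map_zero]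
    · rintro _ ⟨x, hx, rfl⟩
      have := hd' i x hx.1
      rw [show dA x = 0 from hx.2, map_zero] at this
      exact ⟨(hb i).mapsTo hx.1, (smul_eq_zero_iff_eq u).1 this.symm⟩
  rw [Hm, Hm, e, ← Submodule.map_comp, ← hφ]
  refine rk_congr fun x hx => mkQ_zero.trans (Iff.trans ⟨?_, fun ⟨w, hw, e⟩ => ?_⟩ mkQ_zero.symm)
  · rintro ⟨w, hw, rfl⟩
    exact ⟨u • f w, Submodule.smul_of_tower_mem _ u ((hb _).mapsTo hw), by
      rw [hd' _ w hw, Units.smul_def, Units.smul_def, map_smul]⟩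
  · obtain ⟨z, hz, rfl⟩ := (hb _).surjOn hw
    have hz' := Submodule.smul_mem _ ((u⁻¹ : kˣ) : k) hz
    refine ⟨_, hz', (hb i).injOn (hA.mem i _ hz') hx.1 ?_⟩
    rw [hd' _ _ hz', map_smul, map_smul, Units.smul_def, smul_smul, u.mul_inv, one_smul, e]

theorem hd_congr {U' : Λ' → Submodule k VB} (hA : IsCx nx dA UA) (φ : Λ → Λ')
    (hφ : ∀ i, φ (nx i) = nx' (φ i)) (hb : ∀ i, Set.BijOn f (UA i) (U' (φ i))) (u : kˣ)
    (hd' : ∀ i, ∀ x ∈ UA i, f (dA x) = u • dB (f x)) (i : Λ) :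
    hd dA (UA (nx i)) (UA i) = hd dB (U' (nx' (φ i))) (U' (φ i)) := by
  simp only [hd, Module.finrank, rank_congr hA φ hφ hb u hd' i]

theorem Hm_eq_bot_iff {U' U : Submodule k VA} :
    Hm dA U' U = ⊥ ↔ ∀ x ∈ U, dA x = 0 → ∃ y ∈ U', dA y = x := by
  rw [Hm, ← le_bot_iff, Submodule.map_le_iff_le_comap, Submodule.comap_bot, Submodule.ker_mkQ]
  exact ⟨fun h x hx e => h ⟨hx, e⟩, fun h x hx => h x hx.1 hx.2⟩

theorem hd_eq_zero {U' U : Submodule k VA} (h : ∀ x ∈ U, dA x = 0 → ∃ y ∈ U', dA y = x) :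
    hd dA U' U = 0 ∧ FiniteDimensional k (Hm dA U' U) := by
  rw [hd, Hm_eq_bot_iff.2 h]
  exact ⟨by simp, inferInstance⟩

theorem Hm_fin (U' U : Submodule k VA) [FiniteDimensional k U] :
    FiniteDimensional k (Hm dA U' U) := inferInstance

theorem hd_nonneg (U' U : Submodule k VA) : 0 ≤ hd dA U' U := Int.natCast_nonneg _

theorem hd_eq_sub {U' U : Submodule k VA} [FiniteDimensional k U] (h1 : ∀ x ∈ U', dA x ∈ U)
    (h2 : ∀ x ∈ U', dA (dA x) = 0) : hd dA U' U =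
      (Module.finrank k ↥(U ⊓ LinearMap.ker dA) : ℤ) - Module.finrank k (U'.map dA) := by
  have hle : U'.map dA ≤ U ⊓ LinearMap.ker dA := by
    rintro _ ⟨x, hx, rfl⟩
    exact ⟨h1 x hx, h2 x hx⟩
  have := Submodule.finiteDimensional_of_le (hle.trans inf_le_left)
  have e := congrArg Cardinal.toNat (rk_sub hle)
  rw [Cardinal.toNat_add (Module.rank_lt_aleph0 k _) (Module.rank_lt_aleph0 k _)] at e
  simp only [hd, Module.finrank, e]
  simp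

end Pool.Agent.Lib.MP_40dc3c_ag.P
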