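import Pool.Agent.Lib.MP_40dc3c_ag.P.Hc
import Pool.Agent.Lib.MP_40dc3c_ag.P.Mf
import Pool.Agent.Lib.MP_40dc3c_ag.T.B1

/-! Averaging with a primitive character. -/

namespace Pool.Agent.Lib.MP_40dc3c_ag.P

open MvPolynomial Finset Function T

set_option linter.unusedSectionVars false

variable {k : Type} [Field k] {σ τ : Type} [LinearOrder σ] [Fintype σ] [Fintype τ] [DecidableEq τ]
  {b : σ → τ} {m : ℕ} (hm : (m : k) ≠ 0) {T : Finset τ}

theorem lact_inl (g : σ → rootsOfUnity m k) (f : MvPolynomial σ k) :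
    lact m g (rename Sum.inl f) = rename Sum.inl (diagAct σ m g f) :=
  DFunLike.congr_fun (algHom_ext (f := (lact m g).comp (rename Sum.inl))
    (g := (rename Sum.inl).comp (diagAct σ m g)) fun s => by simp [lact]) f

theorem lact_inr (g : σ → rootsOfUnity m k) (f : MvPolynomial σ k) :
    lact m g (rename Sum.inr f) = rename Sum.inr f :=
  DFunLike.congr_fun (algHom_ext (f := (lact m g).comp (rename Sum.inr))
    (g := rename Sum.inr) fun s => by simp [lact]) f

/-- a group element that is trivial on the variables of `A` does not change the homology. -/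
theorem chI_map {I : Ideal (MvPolynomial (σ ⊕ σ) k)} (hI : Hg (Sum.elim b b) I) {A : Finset σ}
    {ε : τ → Ty} (h : (ferD k b m hm).OK (MvPolynomial (σ ⊕ σ) k ⧸ I) A ε)
    (g : σ ⊕ σ → rootsOfUnity m k) (h1 : ∀ s ∈ A, g (.inl s) = 1 ∧ g (.inr s) = 1) (j : τ → ℤ) :
    chI b m hm (I.map (diagAct _ m g)) A ε j = chI b m hm I A ε j := by
  let γ := diagAct (k := k) (σ ⊕ σ) m
  let φ := Ideal.quotientEquivAlg I (I.map (γ g)) (AlgEquiv.ofBijective (γ g) (hom_bij γ _)) rfl
  have e : ∀ f, φ (Ideal.Quotient.mk _ f) = Ideal.Quotient.mk _ (γ g f) := fun _ => rfl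
  have es : ∀ f x, φ (f • x) = γ g f • φ x := fun f x => by
    obtain ⟨y, rfl⟩ := Ideal.Quotient.mk_surjective x
    exact (e (f * y)).trans (congrArg _ (map_mul _ _ _))
  rw [chI, chI, Dat.ch, Dat.ch]
  refine finsum_congr fun i => congrArg _ (hh_inv (D := ferD k b m hm) (qpc_gm hI) h
    φ.toLinearEquiv (fun j x => ⟨?_, ?_⟩) 1 (fun s hs x => (es _ x).trans ?_)
    (fun s hs x => (es _ x).trans ?_) j i).symm
  · intro hx
    obtain ⟨f, hf, e'⟩ := Submodule.mem_map.1 hx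
    refine ⟨γ g⁻¹ f, hom_diag m _ hf, φ.injective ((e _).trans (Eq.trans ?_ e'))⟩
    rw [← AlgHom.mul_apply, ← map_mul, mul_inv_cancel, map_one]
    rfl
  · rintro ⟨f, hf, rfl⟩
    exact ⟨_, hom_diag m g hf, (e f).symm⟩
  · rw [Pi.one_apply, one_smul]
    refine congrArg (· • _) ?_
    change γ _ (fa k s) = fa k s
    simp [γ, fa, h1 s hs]
  · rw [Pi.one_apply, inv_one, one_smul]
    refine congrArg (· • _) ?_
    change γ _ (fc k m s) = fc k m s
    simp [γ, fc, h1 s hs]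

theorem exists_chi_ne [IsAlgClosed k] {ω : kˣ →* ℂˣ} (hω : Injective ω) (hm : (m : k) ≠ 0)
    {c : ℤ} (hc : ¬(m : ℤ) ∣ c) : ∃ ζ : rootsOfUnity m k, chi ω m c ζ ≠ 1 := by
  have : NeZero (m : k) := ⟨hm⟩
  have : NeZero m := NeZero.of_neZero_natCast k
  obtain ⟨z, hz⟩ := HasEnoughRootsOfUnity.exists_primitiveRoot k m
  refine ⟨hz.toRootsOfUnity, fun h => hc ?_⟩
  rw [chi_apply, ← Units.val_zpow_eq_zpow_val, Units.val_eq_one, ← map_zpow,
    map_eq_one_iff ω hω] at h
  exact (hz.zpow_eq_one_iff_dvd c).1 (by simpa using congrArg Units.val h)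

theorem avg_kill {G : Type} [CommGroup G] [Fintype G] (χ : G →* ℂ) (F : G → ℂ) (g₀ : G)
    (h0 : χ g₀ ≠ 1) (h : ∀ g, F (g₀⁻¹ * g) = F g) : ∑ g, χ g⁻¹ * F g = 0 := by
  have e : ∑ g, χ g⁻¹ * F g = χ g₀ * ∑ g, χ g⁻¹ * F g := by
    rw [mul_sum, ← Equiv.sum_comp (Equiv.mulLeft g₀⁻¹)]
    refine sum_congr rfl fun g _ => ?_
    rw [Equiv.coe_mulLeft, h, mul_inv, inv_inv, map_mul, mul_assoc]
  by_contra h1
  exact h0 (mul_right_cancel₀ h1 (e.symm.trans (one_mul _).symm))

theorem lact_xt_mul (g g' : {s // b s ∈ T} → rootsOfUnity m k) :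
    lact m (xt b T (g * g')) = (lact m (xt b T g)).comp (lact m (xt b T g')) := by
  refine algHom_ext fun y => ?_
  rcases y with s | s
  · by_cases h : b s ∈ T <;> simp [lact, xt, h, mul_left_comm, mul_assoc]
  · simp [lact]

section avg

variable {I : Ideal (MvPolynomial (σ ⊕ σ) k)} (hI : Hg (Sum.elim b b) I)
  (h1 : ∀ t ∈ T, rename Sum.inl (fer k b m t) ∈ I ∧ rename Sum.inr (fer k b m t) ∈ I)

include h1 in
theorem avg_ok (g : σ → rootsOfUnity m k) {ε : τ → Ty} (hε : ∀ t, t ∉ T → ε t = .zero) :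
    (ferD k b m hm).OK (MvPolynomial (σ ⊕ σ) k ⧸ I.map (lact m g)) (AT b T) ε := fun t => by
  by_cases ht : t ∈ T
  swap
  · exact .inl (hε t ht)
  refine .inr ⟨fun s hs => by
    have : b s = t := hs
    simp [AT, this, ht], fun x => Module.mem_annihilator.1 ?_ x⟩
  rw [Ideal.annihilator_quotient, ferD_h, ← diagAct_fer b m g t, ← lact_inl, diagAct_fer,
    ← lact_inr g]
  exact sub_mem (Ideal.mem_map_of_mem _ (h1 t ht).1) (Ideal.mem_map_of_mem _ (h1 t ht).2)

variable [IsAlgClosed k] {ω : kˣ →* ℂˣ} (hω : Injective ω) (hb : Surjective b)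
  (c : {s // b s ∈ T} → ℤ) (hc : ∀ s, ¬(m : ℤ) ∣ c s)
  [Fintype ({s // b s ∈ T} → rootsOfUnity m k)] {ε : τ → Ty} (hε : ∀ t, t ∉ T → ε t = .zero)

include hI h1 hω hb hc hε

theorem avg_zero {t : τ} (hT : t ∈ T) (ht : ε t = .zero) (j : τ → ℤ) :
    ∑ g : {s // b s ∈ T} → rootsOfUnity m k, chis ω m c g⁻¹ *
      chI b m hm (I.map (lact m (xt b T g))) (AT b T) ε j = 0 := by
  obtain ⟨s, rfl⟩ := hb t
  obtain ⟨ζ, hζ⟩ := exists_chi_ne hω hm (hc ⟨s, hT⟩)
  refine avg_kill _ _ (Pi.mulSingle ⟨s, hT⟩ ζ) (by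
    rwa [chis_apply, Fintype.prod_eq_single ⟨s, hT⟩ fun r hr => by
      rw [Pi.mulSingle_eq_of_ne hr, map_one], Pi.mulSingle_eq_same]) fun g => ?_
  have hs : s ∈ AT b T := by simp [AT, hT]
  have p (g) : chI b m hm (I.map (lact m (xt b T g))) (AT b T) ε j =
      dl (b s) (chI b m hm (I.map (lact m (xt b T g))) ((AT b T).erase s) ε) j :=
    ch_peel (D := ferD k b m hm) (qpc_gm (hI.diag m _)) (avg_ok hm h1 _ hε) hs ht j
  rw [p, p, lact_xt_mul, ← map_algHom_comp]
  congr 2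
  ext1 j
  refine chI_map hm (hI.diag m _) ((avg_ok hm h1 _ hε).erase ht) _ (fun r hr => ⟨?_, rfl⟩) j
  have hr' : b r ∈ T := by simpa [AT] using mem_of_mem_erase hr
  have : (⟨r, hr'⟩ : {s // b s ∈ T}) ≠ ⟨s, hT⟩ := fun e => ne_of_mem_erase hr (congrArg (·.1) e)
  simp [xt, hr', this]

theorem avg_pos {t : τ} (hT : t ∈ T) (ht : ε t = .pos) (j : τ → ℤ) :
    ∑ g : {s // b s ∈ T} → rootsOfUnity m k, chis ω m c g⁻¹ *
      chI b m hm (I.map (lact m (xt b T g))) (AT b T) ε j = 0 := by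
  have hG (g) := qpc_gm (hI.diag m (Sum.elim (xt b T g) 1))
  choose L hL using fun g => ch_low (D := ferD k b m hm) (hG g)
  obtain ⟨L₀, hL₀⟩ := (Set.finite_range L).bddBelow
  have hm0 : (1 : ℤ) ≤ m := by exact_mod_cast (ferD k b m hm).pos
  have key (n : ℕ) : ∀ j : τ → ℤ, j t < L₀ + n →
      ∑ g : {s // b s ∈ T} → rootsOfUnity m k, chis ω m c g⁻¹ *
        chI b m hm (I.map (lact m (xt b T g))) (AT b T) ε j = 0 := by
    induction n with
    | zero =>
      refine fun j hj => sum_eq_zero fun g _ => ?_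
      have : chI b m hm (I.map (lact m (xt b T g))) (AT b T) ε j = 0 :=
        hL g _ ε t j (.inl ht) ((by simpa using hj : j t < L₀).trans_le (hL₀ ⟨g, rfl⟩))
      rw [this, Int.cast_zero, mul_zero]
    | succ n ih =>
      intro j hj
      have a := ih (j - (m : ℤ) • et t) (by
        simp only [Pi.sub_apply, Pi.smul_apply, show et t t = 1 from wt_self id t, smul_eq_mul]
        push_cast at hj
        omega)
      have z := avg_zero hm hI h1 hω hb c hc (ε := update ε t .zero) (fun t' h => by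
        rw [update_of_ne (ne_of_mem_of_not_mem hT h).symm, hε t' h]) hT (update_self ..) j
      rw [← a, ← sub_eq_zero, ← sum_sub_distrib]
      refine Eq.trans ?_ z
      refine sum_congr rfl fun g _ => ?_
      rw [← mul_sub, ← Int.cast_sub]
      exact congrArg _ (congrArg _
        (ch_pos (D := ferD k b m hm) (hG g) (avg_ok hm h1 _ hε) ht j))
  exact key (j t - L₀ + 1).toNat j (by omega)

theorem avg_switch {t : τ} (hT : t ∈ T) (ht : ε t = .all) (j : τ → ℤ) :
    ∑ g : {s // b s ∈ T} → rootsOfUnity m k, chis ω m c g⁻¹ *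
        chI b m hm (I.map (lact m (xt b T g))) (AT b T) (update ε t .neg) j =
      ∑ g : {s // b s ∈ T} → rootsOfUnity m k, chis ω m c g⁻¹ *
        chI b m hm (I.map (lact m (xt b T g))) (AT b T) ε j := by
  have z := avg_pos hm hI h1 hω hb c hc (ε := update ε t .pos) (fun t' h => by
    rw [update_of_ne (ne_of_mem_of_not_mem hT h).symm, hε t' h]) hT (update_self ..) j
  rw [← add_zero (∑ _, _), ← z, ← sum_add_distrib]
  refine sum_congr rfl fun g _ => ?_
  rw [← mul_add, ← Int.cast_add]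
  exact congrArg _ (congrArg _
    (ch_add (D := ferD k b m hm) (qpc_gm (hI.diag m _)) (avg_ok hm h1 _ hε) ht j).symm)

end avg

theorem avg_neg [IsAlgClosed k] {ω : kˣ →* ℂˣ} (hω : Injective ω) (hb : Surjective b)
    {I : Ideal (MvPolynomial (σ ⊕ σ) k)} (hI : Hg (Sum.elim b b) I)
    (h1 : ∀ t ∈ T, rename Sum.inl (fer k b m t) ∈ I ∧ rename Sum.inr (fer k b m t) ∈ I)
    (c : {s // b s ∈ T} → ℤ) (hc : ∀ s, ¬(m : ℤ) ∣ c s) (j : τ → ℤ) :
    ∑ᶠ g : {s // b s ∈ T} → rootsOfUnity m k, chis ω m c g⁻¹ *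
        chI b m hm (I.map (lact m (xt b T g))) (AT b T) (eT T .neg) j =
      ∑ᶠ g : {s // b s ∈ T} → rootsOfUnity m k, chis ω m c g⁻¹ *
        chI b m hm (I.map (lact m (xt b T g))) (AT b T) (eT T .all) j := by
  have : NeZero (m : k) := ⟨hm⟩
  have : NeZero m := NeZero.of_neZero_natCast k
  have := Fintype.ofFinite ({s // b s ∈ T} → rootsOfUnity m k)
  rw [finsum_eq_sum_of_fintype, finsum_eq_sum_of_fintype]
  have key (Q : Finset τ) (hQ : Q ⊆ T) :
      ∑ g : {s // b s ∈ T} → rootsOfUnity m k, chis ω m c g⁻¹ * chI b m hm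
        (I.map (lact m (xt b T g))) (AT b T) (fun t => if t ∈ Q then .neg else eT T .all t) j =
      ∑ g : {s // b s ∈ T} → rootsOfUnity m k, chis ω m c g⁻¹ *
        chI b m hm (I.map (lact m (xt b T g))) (AT b T) (eT T .all) j := by
    induction Q using Finset.induction_on with
    | empty => simp
    | insert t Q ht ih =>
      have hT := hQ (mem_insert_self t Q)
      have hQ' := (subset_insert t Q).trans hQ
      rw [← ih hQ', ← avg_switch hm hI h1 hω hb c hc
        (ε := fun t => if t ∈ Q then .neg else eT T .all t) (fun t' h => by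
        simp [eT, h, notMem_mono hQ' h]) hT (by simp [eT, ht, hT]) j]
      congr! 4 with g
      ext t'
      by_cases e : t' = t <;> simp [e]
  rw [← key T subset_rfl]
  congr! 4 with g
  ext t
  by_cases e : t ∈ T <;> simp [eT, e]

end Pool.Agent.Lib.MP_40dc3c_ag.P
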