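import Pool.Agent.Lib.MP_40dc3c_ag.P.Fr
import Pool.Agent.Lib.MP_40dc3c_ag.P.La
import Pool.Agent.Lib.MP_40dc3c_ag.P.Dg
import Pool.Agent.Lib.MP_40dc3c_ag.P.Cor

/-! A subvariety of the middle dimension that sees a primitive character. -/

namespace Pool.Agent.Lib.MP_40dc3c_ag.P

open MvPolynomial Finset Function T

variable {k : Type} [Field k] [IsAlgClosed k] {ω : kˣ →* ℂˣ} (p : ℕ) [Fact p.Prime] [CharP k p]
  {σ τ : Type} [LinearOrder σ] [Fintype σ] [Fintype τ] {b : σ → τ} {m : ℕ} [NeZero m]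

omit [IsAlgClosed k] [NeZero m] in
theorem mid_ndvd {f : ℕ} (hf : 0 < f) (hm : m ∣ p ^ f - 1) : ¬p ∣ m := fun h => by
  have hp : p.Prime := Fact.out
  have h1 : p ∣ p ^ f := dvd_pow_self p hf.ne'
  have h2 := Nat.dvd_sub h1 (h.trans hm)
  rw [Nat.sub_sub_self (Nat.one_le_pow _ _ hp.pos)] at h2
  exact hp.one_lt.ne' (Nat.dvd_one.1 h2)

omit [IsAlgClosed k] [NeZero m] [LinearOrder σ] in
theorem chis_neg (c : σ → ℤ) (g : σ → rootsOfUnity m k) :
    chis ω m (fun s => -c s) g = chis ω m c g⁻¹ := by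
  simp [chis_apply, chi_apply]

theorem mid (halg : ∀ x : kˣ, IsOfFinOrder x) (hω : Injective ω) {f : ℕ} (hf : 0 < f)
    (hm : m ∣ p ^ f - 1) (h3 : ∀ t, 3 ≤ #(blk b t)) (c : σ → ℤ) (hc : Prim b m c)
    (hU : ∏ s, (U ω p m (c s)).cls = 1) : ∃ V e, Subv b m V e ∧
      2 * e = Fintype.card σ - 2 * Fintype.card τ ∧ thb ω m c (two V V) ≠ 0 := by
  have hp : p.Prime := Fact.out
  have hpm := mid_ndvd p hf hm
  have hk : (m : k) ≠ 0 := fun h => hpm ((CharP.cast_eq_zero_iff k p m).1 h)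
  have : ∀ t, ∃ s, b s = t := fun t => by
    obtain ⟨s, hs⟩ := card_pos.1 (show 0 < #(blk b t) by have := h3 t; omega)
    exact ⟨s, by simpa [blk] using hs⟩
  choose s₀ hs using this
  have hc' : Prim b m fun s => -c s :=
    ⟨fun s h => hc.ne s (dvd_neg.1 h), fun t => by rw [sum_neg_distrib]; exact dvd_neg.2 (hc.sum t)⟩
  have hU' : ∏ s, (U ω p m (-c s)).cls = 1 := by
    have h := prod_eq_one (s := univ) fun s _ => cls_U_mul_neg ω p hω m hpm (hc.ne s)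
    rwa [prod_mul_distrib, hU, one_mul] at h
  obtain ⟨Λ, hl, hr, hd, hb⟩ := exists_lam hk hω hs hc.ne
  obtain ⟨φ, hφ, h1, h2, h4⟩ := exists_frobJ ω p hs m halg f hf hm h3 c
  obtain ⟨P, j, hP, hj, hn, h0⟩ := core (Jo ω hs m c) (chis ω m fun s => -c s) (chis_neg c)
    (fun g h => mul_comm g h) (one_ge_Jo ω hs m p hω hpm c hc hU)
    (one_ge_Jo ω hs m p hω hpm _ hc' hU') Λ hl (fun g x => by rw [hr, chis_neg])
    (by
      rw [hd, thb_aD hk hω hs hc]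
      exact pow_ne_zero _ (neg_ne_zero.2 (Nat.cast_ne_zero.2 (NeZero.ne m))))
    φ hφ h1 (p ^ f) (Nat.one_lt_pow hf.ne' hp.one_lt) h2 _ (by rw [h4, map_smul, smul_eq_mul])
  have hle : FI k b m ⊔ unitI k s₀ ≤ P.comap (Ideal.Quotient.mk _) := fun x hx => by
    rw [Ideal.mem_comap, Ideal.Quotient.eq_zero_iff_mem.2 hx]
    exact zero_mem _
  refine ⟨_, j, subv_cor hs (Ideal.comap_isPrime _ P) hle ?_, hn, hb P P ▸ h0⟩
  rw [← hj]
  exact ((DoubleQuot.quotQuotEquivQuotOfLEₐ k hle).symm.trans (Ideal.quotientEquivAlgOfEq k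
    (Ideal.map_comap_of_surjective _ Ideal.Quotient.mk_surjective P))).trdeg_eq

end Pool.Agent.Lib.MP_40dc3c_ag.P
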