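import Pool.Agent.Lib.MP_40dc3c_ag.P.Gr
import Pool.Agent.Lib.MP_40dc3c_ag.P.Mid
import Pool.Agent.Lib.MP_40dc3c_ag.P.Cnt
import Pool.Agent.Lib.MP_40dc3c_ag.T.B5a

/-! The rank of numerical equivalence on a product of Fermat hypersurfaces. -/

namespace Pool.Agent.Lib.MP_40dc3c_ag.P

open MvPolynomial Finset Function T
open scoped LinearAlgebra.Projectivization

theorem closure_fin (p : ℕ) [Fact p.Prime] (x : (AlgebraicClosure (ZMod p))ˣ) :
    IsOfFinOrder x := by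
  have hi : IsIntegral (ZMod p) (x : AlgebraicClosure (ZMod p)) := Algebra.IsIntegral.isIntegral _
  have := IntermediateField.adjoin.finiteDimensional hi
  have : Finite (IntermediateField.adjoin (ZMod p) {(x : AlgebraicClosure (ZMod p))}) :=
    Module.finite_of_finite (ZMod p)
  have h0 : IntermediateField.AdjoinSimple.gen (ZMod p) (x : AlgebraicClosure (ZMod p)) ≠ 0 :=
    fun h => x.ne_zero (congrArg Subtype.val h)
  obtain ⟨n, hn, h⟩ := isOfFinOrder_iff_pow_eq_one.1 (isOfFinOrder_of_finite (Units.mk0 _ h0))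
  exact isOfFinOrder_iff_pow_eq_one.2 ⟨n, hn, Units.ext
    (congrArg Subtype.val (congrArg Units.val h))⟩

theorem sum_blk_bT {σ τ M : Type} [Fintype σ] [AddCommMonoid M] {b : σ → τ} {T : Finset τ}
    [Fintype {s // b s ∈ T}] (t : {t // t ∈ T}) (f : σ → M) :
    ∑ s ∈ blk (bT b T) t, f s.1 = ∑ s ∈ blk b t.1, f s := by
  refine sum_bij (fun s _ => s.1) (fun s hs => ?_) (fun _ _ _ _ => Subtype.ext)
    (fun s hs => ?_) fun _ _ => rfl
  · simpa [blk, bT, Subtype.ext_iff] using hs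
  · have e : b s = t.1 := by simpa [blk] using hs
    exact ⟨⟨s, e ▸ t.2⟩, by simpa [blk, bT, Subtype.ext_iff] using e, rfl⟩

variable {n : ℕ} {d : Fin n → ℕ}

theorem blk_fst (t : Fin n) : blk (Sigma.fst : (Σ t, Fin (d t + 2)) → Fin n) t =
    univ.map (Embedding.sigmaMk t) := by
  ext ⟨t', i⟩
  simp only [blk, mem_filter, mem_univ, true_and, mem_map, Embedding.sigmaMk_apply]
  exact ⟨by rintro rfl; exact ⟨i, rfl⟩, fun ⟨_, h⟩ => (congrArg Sigma.fst h).symm⟩

/-- the section that kills the first variables. -/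
def secV (T : Finset (Fin n)) (α : Fin n → ℕ) (h : ∀ t, α t ≤ d t) :
    Sec (Sigma.fst : (Σ t, Fin (d t + 2)) → Fin n) T where
  R t := (Ici ⟨α t, by have := h t; omega⟩).map (Embedding.sigmaMk t)
  y t := ⟨t, ⟨d t, by omega⟩⟩
  w t := ⟨t, ⟨d t + 1, by omega⟩⟩
  sub t := (map_subset_map.2 (subset_univ _)).trans (blk_fst t).ge
  hy t := mem_map_of_mem _ (mem_Ici.2 (h t))
  hw t := mem_map_of_mem _ (mem_Ici.2 ((h t).trans (Nat.le_succ _)))
  ne t := by simp

/-- the section that kills the last variables. -/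
def secW (T : Finset (Fin n)) (α : Fin n → ℕ) (h : ∀ t, α t ≤ d t) :
    Sec (Sigma.fst : (Σ t, Fin (d t + 2)) → Fin n) T where
  R t := (Iic ⟨α t + 1, by have := h t; omega⟩).map (Embedding.sigmaMk t)
  y t := ⟨t, ⟨0, by omega⟩⟩
  w t := ⟨t, ⟨1, by omega⟩⟩
  sub t := (map_subset_map.2 (subset_univ _)).trans (blk_fst t).ge
  hy t := mem_map_of_mem _ (mem_Iic.2 (Nat.zero_le _))
  hw t := mem_map_of_mem _ (mem_Iic.2 (Nat.le_add_left _ _))
  ne t := by simp

theorem card_secV (T : Finset (Fin n)) (α : Fin n → ℕ) (h : ∀ t, α t ≤ d t) (t : Fin n) :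
    #((secV T α h).R t) = d t + 2 - α t := by simp [secV]

theorem card_secW (T : Finset (Fin n)) (α : Fin n → ℕ) (h : ∀ t, α t ≤ d t) (t : Fin n) :
    #((secW T α h).R t) = α t + 2 := by simp [secW]

theorem card_blk (t : Fin n) :
    #(blk (Sigma.fst : (Σ t, Fin (d t + 2)) → Fin n) t) = d t + 2 := by simp [blk_fst]

theorem Pat.α_eq {π : Pat d} {t : Fin n} (h : t ∈ π.T) : π.α t = 0 := by
  obtain ⟨a, ha⟩ := Sum.isRight_iff.1 (mem_filter.1 h).2
  simp [Pat.α, ha]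

theorem Pat.c_eq {π : Pat d} {s : Σ t, Fin (d t + 2)} (h : s.1 ∉ π.T) : π.c s = 0 := by
  obtain ⟨a, ha⟩ := Sum.isLeft_iff.1 (Sum.not_isRight.1 fun e => h (mem_filter.2 ⟨mem_univ _, e⟩))
  simp [Pat.c, ha]

theorem Pat.OK.dvd_iff {π : Pat d} {m r : ℕ} (h : π.OK m r) (s : Σ t, Fin (d t + 2)) :
    (m : ℤ) ∣ π.c s ↔ s.1 ∉ π.T :=
  ⟨fun h1 h2 => (h.pos s h2).2.not_ge (Nat.le_of_dvd (h.pos s h2).1 (Int.natCast_dvd_natCast.1 h1)),
    fun h1 => by simp [Pat.c_eq h1]⟩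

theorem Pat.OK.sep {π π' : Pat d} {m r : ℕ} (h : π.OK m r) (h' : π'.OK m r) (hn : π ≠ π')
    (hc : ∀ s, (m : ℤ) ∣ π.c s - π'.c s) : ∃ t, t ∉ π.T ∧ t ∉ π'.T ∧ π'.α t < π.α t := by
  have hT : π.T = π'.T := Finset.ext fun t => not_iff_not.1 (by
    rw [← h.dvd_iff ⟨t, 0⟩, ← h'.dvd_iff ⟨t, 0⟩]
    exact dvd_iff_dvd_of_dvd_sub (hc _))
  by_contra h0
  have hle : ∀ t ∈ univ, π.α t ≤ π'.α t := fun t _ => by
    by_cases ht : t ∈ π.T
    · simp [Pat.α_eq ht]
    · exact not_lt.1 fun e => h0 ⟨t, ht, hT ▸ ht, e⟩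
  have hs : ∑ t, π.α t = ∑ t, π'.α t := by
    have h1 := h.wt
    have h2 := h'.wt
    rw [hT] at h1
    omega
  have hα := (sum_eq_sum_iff_of_le hle).1 hs
  refine hn (funext fun t => ?_)
  have e1 := hα t (mem_univ t)
  have e2 : (π t).isRight ↔ (π' t).isRight := by simpa [Pat.T] using Finset.ext_iff.1 hT t
  have e3 : t ∈ π.T → ∀ i, π.c ⟨t, i⟩ = π'.c ⟨t, i⟩ := fun ht i => by
    have a1 := h.pos ⟨t, i⟩ ht
    have a2 := h'.pos ⟨t, i⟩ (hT ▸ ht)
    have := Int.eq_zero_of_abs_lt_dvd (hc ⟨t, i⟩) (abs_lt.2 ⟨by omega, by omega⟩)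
    omega
  simp only [Pat.α, Pat.c, Pat.T, mem_filter, mem_univ, true_and] at e1 e3
  revert e1 e2 e3
  rcases π t with a | a <;> rcases π' t with a' | a' <;> simp [funext_iff]

theorem card_inter {T T' : Finset (Fin n)} {α α' : Fin n → ℕ} (h : ∀ t, α t ≤ d t)
    (h' : ∀ t, α' t ≤ d t) {t : Fin n} (hl : α' t < α t) {_ : DecidableEq (Σ t, Fin (d t + 2))} :
    #((secV T α h).R t ∩ (secW T' α' h').R t) ≤ 1 := by
  simp only [secV, secW, ← map_inter, card_map, card_le_one, mem_inter, mem_Ici, mem_Iic,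
    Fin.le_def, Fin.ext_iff]
  intro a h1 b h2
  omega

open Classical in
theorem main (p f m n : ℕ) [Fact p.Prime] (d : Fin n → ℕ) (hd : ∀ t, 0 < d t) (hf : 0 < f)
    (hm : m ∣ p ^ f - 1) (hg : ∀ ω : (AlgebraicClosure (ZMod p))ˣ →* ℂˣ, Injective ω →
      ∀ [NeZero m], ¬p ∣ m → ∀ (ι : Type) [Fintype ι] (c : ι → ℤ), Even (Fintype.card ι) →
      Fe.Tate p (univ.val.map fun i => (c i : ℚ) / m) → ∏ i, (U ω p m (c i)).cls = 1) :
    ∃ μ : ℂ →₀ ℤ, (∀ (F : Type) [Field F] [Fintype F] (j : ℕ), Fintype.card F = (p ^ f) ^ j →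
      (Nat.card {x : (t : Fin n) → ℙ F (Fin (d t + 2) → F) // ∀ t, ∑ s, (x t).rep s ^ m = 0} : ℂ) =
        μ.sum fun t c => c * t ^ j) ∧
      ∀ r ≤ ∑ t, d t, ∃ (N : ℕ)
        (V W : Fin N → Ideal (MvPolynomial (Σ t, Fin (d t + 2)) (AlgebraicClosure (ZMod p))))
        (M : Matrix (Fin N) (Fin N) ℚ),
        (N : ℤ) = (μ.sum fun t c => if IsOfFinOrder (t / ((p : ℂ) ^ f) ^ r) then c else 0) ∧
        (∀ a, Subv Sigma.fst m (V a) (∑ t, d t - r) ∧ Subv Sigma.fst m (W a) r) ∧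
        (∀ a b, Inter Sigma.fst m (V a) (W b) (M a b)) ∧ M.det ≠ 0 := by
  have hp : p.Prime := Fact.out
  obtain ⟨μ, h1, h2⟩ := Cn.count p f m d hf hm
  refine ⟨μ, h1, fun r hr => ?_⟩
  obtain ⟨S, hS, h3⟩ := h2 r
  have hpm := mid_ndvd p hf hm
  have : NeZero m := ⟨fun e => hpm (e ▸ dvd_zero p)⟩
  have hk : (m : AlgebraicClosure (ZMod p)) ≠ 0 := by rwa [Ne, CharP.cast_eq_zero_iff _ p]
  obtain ⟨ω, hω⟩ := exists_omega (closure_fin p)
  letI : LinearOrder (Σ t, Fin (d t + 2)) := LinearOrder.lift' _ (Fintype.equivFin _).injective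
  let π (a : Fin #S) : Pat d := (S.equivFin.symm a).1
  have ok : ∀ a, (π a).OK m r := fun a => (h3 _ (S.equivFin.symm a).2).1
  have cd : ∀ T : Finset (Fin n), Fintype.card {s : Σ t, Fin (d t + 2) // s.1 ∈ T} =
      ∑ t ∈ T, d t + 2 * #T := fun T => by
    rw [Fintype.card_subtype, card_eq_sum_card_fiberwise (f := Sigma.fst) (t := T)
      (fun s hs => by simpa using hs), mul_comm, ← smul_eq_mul, ← sum_const, ← sum_add_distrib]
    refine sum_congr rfl fun t ht => (congrArg card ?_).trans (card_blk t)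
    ext s
    simp only [blk, mem_filter, mem_univ, true_and, and_iff_right_iff_imp]
    rintro rfl
    exact ht
  choose P e hP he hθ using fun a => mid p (b := bT Sigma.fst (π a).T) (closure_fin p) hω hf hm
    (fun t => by
      have := sum_blk_bT (b := (Sigma.fst : (Σ t, Fin (d t + 2)) → Fin n)) t fun _ => 1
      have := hd t.1
      simp only [sum_const, smul_eq_mul, mul_one, card_blk] at *
      omega)
    (fun s => (π a).c s.1) ⟨fun s h => ((ok a).dvd_iff _).1 h s.2, fun t => by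
      rw [sum_blk_bT t fun s => ((π a).c s : ℤ), blk_fst, sum_map]
      exact_mod_cast (ok a).dvd _ t.2⟩
    (hg ω hω hpm _ _ (by
      have := (ok a).wt
      rw [cd]
      exact ⟨r + #(π a).T - ∑ t, (π a).α t, by omega⟩) (h3 _ (S.equivFin.symm a).2).2)
  have hα : ∀ a, ∑ t ∈ (π a).Tᶜ, (π a).α t = ∑ t, (π a).α t := fun a => by
    rw [← sum_add_sum_compl (π a).T, sum_eq_zero fun t => Pat.α_eq, zero_add]
  have hw : ∀ a, e a + ∑ t ∈ (π a).Tᶜ, (π a).α t = r := fun a => by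
    have h4 := he a
    have := (ok a).wt
    rw [cd, Fintype.card_coe] at h4
    rw [hα]
    omega
  obtain ⟨V, W, M, h⟩ := gram hk hω (fun t => by have := hd t; rw [card_blk]; omega)
    (fun a => (π a).T) (fun a s => (π a).c s) (fun a => secV _ _ (ok a).le)
    (fun a => secW _ _ (ok a).le) P e (dv := ∑ t, d t - r) (dw := r) hP hθ
    (fun a => (ok a).dvd_iff)
    (fun a t _ => by have := (ok a).le t; rw [card_secV, card_secW, card_blk]; omega)
    (fun a => by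
      have h4 := he a
      have h5 := hw a
      have h6 : ∑ t ∈ (π a).Tᶜ, (#((secV (π a).T _ (ok a).le).R t) - 2) +
          ∑ t ∈ (π a).Tᶜ, (π a).α t = ∑ t ∈ (π a).Tᶜ, d t := by
        rw [← sum_add_distrib]
        exact sum_congr rfl fun t _ => by have := (ok a).le t; rw [card_secV]; omega
      rw [cd, Fintype.card_coe] at h4
      have := sum_add_sum_compl (π a).T d
      omega)
    (fun a => by simpa only [card_secW, Nat.add_sub_cancel] using hw a)
    fun a a' h4 h5 => by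
      obtain ⟨t, t1, t2, t3⟩ := (ok a).sep (ok a') (fun e =>
        h4 (S.equivFin.symm.injective (Subtype.ext e))) h5
      exact ⟨t, t1, t2, card_inter (ok a).le (ok a').le t3⟩
  exact ⟨_, V, W, M, hS, h⟩

end Pool.Agent.Lib.MP_40dc3c_ag.P
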