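import Pool.Agent.Lib.MP_40dc3c_ag.P.Hc
import Pool.Agent.Lib.MP_40dc3c_ag.P.Reg

/-! Shift operators and regular sequences in fresh variables. -/

namespace Pool.Agent.Lib.MP_40dc3c_ag.P

open MvPolynomial Finset Function

section op

variable {τ : Type} (t : τ)

/-- a polynomial in the shift in the direction of a block. -/
noncomputable def op (p : Polynomial ℤ) : Module.End ℤ ((τ → ℤ) → ℤ) :=
  Polynomial.aeval (LinearMap.funLeft ℤ ℤ (· - et t) : Module.End ℤ ((τ → ℤ) → ℤ)) p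

/-- the polynomial of a regular element. -/
noncomputable def uu (a : ℕ) : Polynomial ℤ := 1 - Polynomial.X ^ a

theorem op_mul (p q : Polynomial ℤ) (F : (τ → ℤ) → ℤ) : op t (p * q) F = op t p (op t q F) := by
  rw [op, map_mul]
  rfl

theorem op_one (F : (τ → ℤ) → ℤ) : op t 1 F = F := by
  rw [op, map_one]
  rfl

theorem op_pow (a : ℕ) (F : (τ → ℤ) → ℤ) (j : τ → ℤ) :
    op t (Polynomial.X ^ a) F j = F (j - (a : ℤ) • et t) := by
  induction a generalizing F with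
  | zero => simp [op_one]
  | succ a ih =>
    rw [pow_succ, op_mul, ih, op, Polynomial.aeval_X, Nat.cast_succ, add_smul, one_smul, ← sub_sub]
    rfl

theorem op_uu (a : ℕ) (F : (τ → ℤ) → ℤ) (j : τ → ℤ) :
    op t (uu a) F j = F j - F (j - (a : ℤ) • et t) := by
  rw [← op_pow t a F j, uu, op, map_sub, map_one]
  rfl

/-- functions that vanish in low degree. -/
def Low (F : (τ → ℤ) → ℤ) : Prop := ∃ L : ℤ, ∀ j, j t < L → F j = 0

variable {t}

theorem et_self : et t t = 1 := by simp [wt]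

theorem Low.sub {F H : (τ → ℤ) → ℤ} (h : Low t F) (h' : Low t H) : Low t (F - H) := by
  obtain ⟨L, a⟩ := h
  obtain ⟨L', b⟩ := h'
  exact ⟨min L L', fun j hj => by
    rw [Pi.sub_apply, a j (hj.trans_le (min_le_left _ _)), b j (hj.trans_le (min_le_right _ _)),
      sub_self]⟩

theorem Low.op {F : (τ → ℤ) → ℤ} (h : Low t F) (p : Polynomial ℤ) : Low t (op t p F) := by
  obtain ⟨L, a⟩ := h
  refine ⟨L, fun j hj => ?_⟩
  induction p using Polynomial.induction_on' with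
  | add p q hp hq =>
    rw [P.op, map_add]
    exact (congrArg₂ (· + ·) hp hq).trans (add_zero 0)
  | monomial n c =>
    rw [← Polynomial.C_mul_X_pow_eq_monomial, op_mul, P.op, Polynomial.aeval_C,
      Module.algebraMap_end_apply, Pi.smul_apply, op_pow, a, smul_zero]
    simp only [Pi.sub_apply, Pi.smul_apply, et_self, smul_eq_mul]
    omega

theorem Low.inj {F H : (τ → ℤ) → ℤ} (h : Low t F) (h' : Low t H) {a : ℕ} (ha : 0 < a)
    (e : P.op t (uu a) F = P.op t (uu a) H) : F = H := by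
  obtain ⟨L, hL⟩ := h.sub h'
  have e' : ∀ j, (F - H) j = (F - H) (j - (a : ℤ) • et t) := fun j => by
    rw [← sub_eq_zero, ← op_uu, map_sub, e, sub_self, Pi.zero_apply]
  have key : ∀ (n : ℕ) j, j t < L + n → (F - H) j = 0 := fun n => by
    induction n with
    | zero => simpa using hL
    | succ n ih =>
      intro j hj
      rw [e', ih]
      simp only [Pi.sub_apply, Pi.smul_apply, et_self, smul_eq_mul]
      omega
  exact sub_eq_zero.1 (funext fun j => key (j t - L + 1).toNat j (by omega))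

theorem op_solve [DecidableEq τ] {F H : (τ → ℤ) → ℤ} (h : Low t F) {ν : ℕ} (hν : 0 < ν)
    (hH : ∀ j, j t ≠ 0 → H j = 0) (e : op t (uu 1 * uu 1) F = op t (uu ν) H) (j : τ → ℤ)
    (hj : (ν : ℤ) ≤ j t) : F j = ν * H (update j t 0) := by
  let S : (τ → ℤ) → ℤ := fun j => min (ν : ℤ) (max 0 (j t + 1)) * H (update j t 0)
  have hS : Low t S := ⟨0, fun j hj => by
    rw [show S j = _ * _ from rfl, max_eq_left (by omega), min_eq_right (by omega), zero_mul]⟩
  have u : ∀ (j : τ → ℤ) (a : ℤ), update (j - a • et t) t 0 = update j t 0 := fun j a =>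
    funext fun s => by
      by_cases c : s = t
      · simp [c]
      · simp [c, wt]
  have v : ∀ j : τ → ℤ, H j = (if j t = 0 then 1 else 0) * H (update j t 0) := fun j => by
    split_ifs with c
    · rw [one_mul, ← c, update_eq_self]
    · rw [zero_mul, hH j c]
  have : F = S := h.inj hS one_pos ((h.op _).inj (hS.op _) one_pos (by
    rw [← op_mul, e]
    funext j
    rw [op_uu, v j, v (j - _)]
    simp only [op_uu, S, u, ← sub_mul, Pi.sub_apply, Pi.smul_apply, et_self, smul_eq_mul]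
    congr 1
    split_ifs <;> omega))
  rw [this, show S j = _ * _ from rfl, max_eq_right (by omega), min_eq_left (by omega)]

end op

variable {k : Type} [Field k] {σ τ ρ : Type}

/-- a homogeneous ideal with generators that avoid the variables in `Y`. -/
def Fr (β : ρ → τ) (Y : Set ρ) (I : Ideal (MvPolynomial ρ k)) : Prop :=
  ∃ G : Set (MvPolynomial ρ k), I = .span G ∧
    ∀ g ∈ G, (∃ d, g.IsWeightedHomogeneous (wt β) d) ∧ ∀ y ∈ Y, y ∉ g.vars

section fr

variable {β : ρ → τ} {Y Y' : Set ρ} {I J : Ideal (MvPolynomial ρ k)}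

theorem Fr.hg (h : Fr β Y I) : Hg β I := by
  obtain ⟨G, rfl, hG⟩ := h
  exact hg_span fun g hg => (hG g hg).1

theorem Fr.mono (h : Fr β Y I) (hY : Y' ⊆ Y) : Fr β Y' I :=
  h.imp fun _ a => ⟨a.1, fun g hg => ⟨(a.2 g hg).1, fun y hy => (a.2 g hg).2 y (hY hy)⟩⟩

theorem Fr.sup (h : Fr β Y I) (h' : Fr β Y J) : Fr β Y (I ⊔ J) := by
  obtain ⟨G, rfl, a⟩ := h
  obtain ⟨G', rfl, b⟩ := h'
  exact ⟨G ∪ G', (Ideal.span_union _ _).symm, fun g hg => hg.elim (a g) (b g)⟩

theorem fr_vars {Z : Set ρ} (h : ∀ z ∈ Z, z ∉ Y) :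
    Fr β Y (.span (X '' Z) : Ideal (MvPolynomial ρ k)) := by
  refine ⟨_, rfl, ?_⟩
  rintro _ ⟨z, hz, rfl⟩
  exact ⟨⟨_, isWeightedHomogeneous_X k _ z⟩, fun y hy c => by
    rw [vars_X, mem_singleton] at c
    exact h z hz (c ▸ hy)⟩

theorem fr_map {b : σ → τ} {K : Ideal (MvPolynomial σ k)} (hK : Hg b K) (ι : σ → ρ)
    (hι : ∀ s, β (ι s) = b s) (h : ∀ s, ι s ∉ Y) : Fr β Y (K.map (rename ι)) := by
  obtain ⟨G, hG, rfl⟩ := hK.exists_span
  refine ⟨_, Ideal.map_span _ _, ?_⟩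
  rintro _ ⟨g, hg, rfl⟩
  obtain ⟨d, hd⟩ := hG g hg
  refine ⟨hom_rename ι id hι g d hd, fun y hy c => ?_⟩
  obtain ⟨s, -, rfl⟩ := mem_vars_rename ι g c
  exact h s hy

theorem Fr.reg (h : Fr β Y I) {y : ρ} (hy : y ∈ Y) {ν : ℕ} (hν : 0 < ν) {ψ : MvPolynomial ρ k}
    (hψ : ψ.degreeOf y = 0) (x : MvPolynomial ρ k) (hx : (X y ^ ν + ψ) * x ∈ I) : x ∈ I := by
  obtain ⟨G, rfl, hG⟩ := h
  exact reg_fresh G y (fun g hg => (hG g hg).2 y hy) hν (hψ ▸ hν) isUnit_one x (by simpa using hx)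

theorem qpc_off {t : τ} (h : ∀ y, β y = t → X y ∈ I) (a : τ → ℤ) (ha : a t ≠ 0) :
    qpc β I a = ⊥ := by
  classical
  rw [eq_bot_iff]
  rintro _ ⟨f, hf, rfl⟩
  have hl : Ideal.span (X '' {y | β y = t}) ≤ I := Ideal.span_le.2 (by
    rintro _ ⟨y, hy, rfl⟩
    exact h y hy)
  refine Ideal.Quotient.eq_zero_iff_mem.2 (hl (mem_ideal_span_X_image.2 fun d hd => ?_))
  by_contra c
  push Not at c
  refine ha ?_
  rw [← hf (mem_support_iff.1 hd), Finsupp.weight_apply, Finsupp.sum, Finset.sum_apply]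
  refine sum_eq_zero fun y _ => ?_
  by_cases e : β y = t
  · simp [c y e]
  · simp [wt, Ne.symm e]

end fr

variable [LinearOrder σ] [Fintype σ] [Fintype τ] {D : Dat k σ τ ρ} {A : Finset σ} {ε : τ → Ty}
  {t : τ} {I J : Ideal (MvPolynomial ρ k)} {Y : Set ρ}

omit [LinearOrder σ] [Fintype τ] in
theorem smul_quot {f : MvPolynomial ρ k} : (∀ x : MvPolynomial ρ k ⧸ I, f • x = 0) ↔ f ∈ I := by
  refine ⟨fun h => mul_one f ▸ Ideal.Quotient.eq_zero_iff_mem.1 (h (Ideal.Quotient.mk I 1)),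
    fun h x => ?_⟩
  obtain ⟨y, rfl⟩ := Ideal.Quotient.mk_surjective x
  exact Ideal.Quotient.eq_zero_iff_mem.2 (I.mul_mem_right y h)

omit [LinearOrder σ] [Fintype τ] in
theorem ok_mono (h : D.OK (MvPolynomial ρ k ⧸ I) A ε) (hl : I ≤ J) :
    D.OK (MvPolynomial ρ k ⧸ J) A ε := fun t =>
  (h t).imp_right fun a => ⟨a.1, smul_quot.2 (hl (smul_quot.1 a.2))⟩

variable [Finite ρ]

theorem mb_reg (hI : Fr D.β Y I) (h : D.OK (MvPolynomial ρ k ⧸ I) A ε) {y : ρ} (hy : y ∈ Y)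
    {ν : ℕ} (hν : 0 < ν) {ψ f : MvPolynomial ρ k} (hψ : ψ.degreeOf y = 0) (e : f = X y ^ ν + ψ)
    (hf : f.IsWeightedHomogeneous (wt D.β) ((ν : ℤ) • et t)) :
    D.ch (qpc D.β (I ⊔ .span {f})) A ε = op t (uu ν) (D.ch (qpc D.β I) A ε) := funext fun j => by
  rw [op_uu, ch_reg hI.hg h hf (e ▸ hI.reg hy hν hψ)]

theorem mb_vars (Z : Finset ρ) (hZ : ∀ y ∈ Z, D.β y = t) (hI : Fr D.β Z I)
    (h : D.OK (MvPolynomial ρ k ⧸ I) A ε) : D.ch (qpc D.β (I ⊔ .span (X '' (Z : Set ρ)))) A ε =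
      op t (uu 1 ^ #Z) (D.ch (qpc D.β I) A ε) := by
  classical
  induction Z using Finset.induction_on with
  | empty =>
    rw [coe_empty, Set.image_empty, Ideal.span_empty, sup_bot_eq, card_empty, pow_zero, op_one]
  | insert y Z hy ih =>
    have hy' := hZ y (mem_insert_self y Z)
    rw [coe_insert, Set.image_insert_eq, Ideal.span_insert, sup_comm (Ideal.span {X y}),
      ← sup_assoc, mb_reg (Y := {y}) (t := t) ((hI.mono (by simp)).sup
        (fr_vars fun z hz c => hy (c ▸ hz))) (ok_mono h le_sup_left) rfl one_pos (degreeOf_zero y)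
        (by simp) (by simpa [wt, hy'] using isWeightedHomogeneous_X k (wt D.β) y),
      ih (fun z hz => hZ z (mem_insert_of_mem hz)) (hI.mono (by simp)),
      card_insert_of_notMem hy, pow_succ', op_mul]

theorem mb_peel {M : Type} [AddCommGroup M] [Module (MvPolynomial ρ k) M] [Module k M]
    [IsScalarTower k (MvPolynomial ρ k) M] {pc : (τ → ℤ) → Submodule k M} (G : IsGM D.β pc)
    (h : D.OK M A ε) (ht : ε t = .zero) (Z : Finset σ) (hZ : ∀ s ∈ Z, D.b s = t) (hA : Z ⊆ A) :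
    D.OK M (A \ Z) ε ∧ D.ch pc A ε = op t (uu 1 ^ #Z) (D.ch pc (A \ Z) ε) := by
  induction Z using Finset.induction_on with
  | empty => simpa [op_one] using h
  | insert s Z hs ih =>
    obtain ⟨a, b⟩ := ih (fun z hz => hZ z (mem_insert_of_mem hz)) ((subset_insert s Z).trans hA)
    have hs' := hZ s (mem_insert_self s Z)
    rw [sdiff_insert, b, card_insert_of_notMem hs, pow_succ, op_mul]
    refine ⟨hc_erase a (hs' ▸ ht), congrArg _ (funext fun j => ?_)⟩
    rw [ch_peel G a (mem_sdiff.2 ⟨hA (mem_insert_self s Z), hs⟩) (hs' ▸ ht), op_uu, dl, hs',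
      Nat.cast_one, one_smul]

theorem mb_ci [DecidableEq τ] (hI : Hg D.β I) (ht : ε t = .all) (hA : ∀ s, D.b s = t → s ∈ A)
    (h : D.OK (MvPolynomial ρ k ⧸ I) A (update ε t .zero)) (hr : ∀ x, D.h t * x ∈ I → x ∈ I)
    (e : J = I ⊔ .span {D.h t}) (j : τ → ℤ) : D.ch (qpc D.β J) A ε j = 0 := by
  subst e
  have z : ∀ (J : Ideal (MvPolynomial ρ k)) x, J.mkQ x = 0 ↔ x ∈ J := fun J x =>
    Submodule.Quotient.mk_eq_zero J
  refine finsum_eq_zero_of_forall_eq_zero fun i => ?_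
  rw [hh_ci (qpc_gm hI) ht hA h (fun x hx => ?_) (Submodule.factor le_sup_left) (fun x => ?_)
    (fun j => ?_), mul_zero]
  · obtain ⟨y, rfl⟩ := I.mkQ_surjective x
    exact (z I y).2 (hr y ((z I _).1 hx))
  · obtain ⟨y, rfl⟩ := I.mkQ_surjective x
    refine (z _ y).trans ⟨fun hy => ?_, ?_⟩
    · obtain ⟨a, ha, b, hb, rfl⟩ := Submodule.mem_sup.1 hy
      obtain ⟨c, rfl⟩ := Ideal.mem_span_singleton.1 hb
      exact ⟨I.mkQ c, by rw [map_add, (z I a).2 ha, zero_add]; rfl⟩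
    · rintro ⟨w, hw⟩
      obtain ⟨c, rfl⟩ := I.mkQ_surjective w
      have h1 : y - D.h t * c ∈ I := (Submodule.Quotient.eq I).1 hw
      rw [← sub_add_cancel y (D.h t * c)]
      exact Submodule.add_mem_sup h1 (Ideal.mem_span_singleton.2 (dvd_mul_right _ c))
  · rw [qpc, qpc, ← Submodule.map_comp]
    rfl

end Pool.Agent.Lib.MP_40dc3c_ag.P
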