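import Pool.Agent.Lib.MP_40dc3c_ag.P.RaA
import Pool.Agent.Lib.MP_40dc3c_ag.P.Reg

/-! The Tate complex of the diagonal is a resolution. -/

namespace Pool.Agent.Lib.MP_40dc3c_ag.P

open MvPolynomial Finset Function

variable {k : Type} [Field k] {σ τ : Type} [LinearOrder σ] [Fintype σ] [Fintype τ] {b : σ → τ}
  {m : ℕ} (hm : (m : k) ≠ 0) {W : Ideal (MvPolynomial σ k)}

theorem ra_kos (A : Finset σ) : ∀ G : Set (MvPolynomial (σ ⊕ σ) k),
    (∀ s ∈ A, ∀ g ∈ G, Sum.inl s ∉ g.vars) →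
      RaKE (MvPolynomial (σ ⊕ σ) k ⧸ Ideal.span G) (fa k) A := by
  induction A using Finset.induction_on with
  | empty => exact fun _ _ => raKE_empty
  | insert s A hs ih =>
    intro G hG
    obtain ⟨g, h1, h2, h3⟩ := ra_quot G (fa k s) fun x hx =>
      reg_fresh G (.inl s) (hG s (mem_insert_self s A)) one_pos (ψ := -X (.inr s))
        (by simp [degreeOf_neg, degreeOf_X]) isUnit_one x (by
          rwa [C_1, one_mul, pow_one, ← sub_eq_add_neg])
    refine raKE_step g h1 h2 h3 hs (ih _ fun r hr f hf => ?_)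
    rcases hf with rfl | hf
    · intro e
      have := vars_sub_subset _ e
      simp only [vars_X, mem_union, mem_singleton, Sum.inl.injEq, reduceCtorEq, or_false] at this
      exact hs (this ▸ hr)
    · exact hG r (mem_insert_of_mem hr) f hf

omit [LinearOrder σ] [Fintype τ] in
theorem ra_h (t : τ) :
    raH (fa k) (fc k m) b t = rename Sum.inl (fer k b m t) - rename Sum.inr (fer k b m t) := by
  simp only [raH, fer, fa_mul_fc, map_sum, map_pow, rename_X, sum_sub_distrib]

omit [LinearOrder σ] [Fintype σ] in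
theorem ra_inr (s : σ) (w : MvPolynomial σ k) :
    Sum.inl s ∉ (rename (Sum.inr : σ → σ ⊕ σ) w).vars := fun e => by
  classical
  simpa using vars_rename _ _ e

omit [LinearOrder σ] [Fintype σ] in
theorem ra_sup (s₀ : σ) (A : Finset σ) (h : s₀ ∉ A) :
    ∑ s ∈ A, fa k s * fc k m s ∈ supported k {Sum.inl s₀}ᶜ :=
  sum_mem fun s hs => fa_mul_fc (k := k) m s ▸ sub_mem
    (pow_mem (X_mem_supported.2 (by simpa using ne_of_mem_of_not_mem hs h)) _)
    (pow_mem (X_mem_supported.2 (by simp)) _)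

include hm in
theorem ra_res (hb : Surjective b) (Q : Finset τ) : RaE (MvPolynomial (σ ⊕ σ) k ⧸ Ideal.span
    (raH (fa k) (fc k m) b '' Q ∪ rename Sum.inr '' (W : Set (MvPolynomial σ k))))
    (fa k) (fc k m) b Q := by
  classical
  induction Q using Finset.induction_on with
  | empty =>
    refine raE_empty (ra_kos _ _ ?_)
    rintro s - _ (⟨t, ht, -⟩ | ⟨w, -, rfl⟩)
    · simp at ht
    · exact ra_inr s w
  | insert t Q ht ih =>
    obtain ⟨s, rfl⟩ := hb t
    have hp : 0 < m := Nat.pos_of_ne_zero fun e => hm (by simp [e])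
    have v0 : ∀ f : MvPolynomial (σ ⊕ σ) k, f ∈ supported k {Sum.inl s}ᶜ → Sum.inl s ∉ f.vars :=
      fun f hf e => mem_supported.1 hf e rfl
    obtain ⟨g, h1, h2, h3⟩ := ra_quot (raH (fa k) (fc k m) b '' Q ∪ rename Sum.inr '' (W : Set _))
      (raH (fa k) (fc k m) b (b s)) fun x hx => by
        refine reg_fresh _ (.inl s) ?_ hp (ψ := raH (fa k) (fc k m) b (b s) - X (.inl s) ^ m) ?_
          isUnit_one x (by rwa [C_1, one_mul, add_sub_cancel])
        · rintro _ (⟨t, hq, rfl⟩ | ⟨w, -, rfl⟩)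
          · exact v0 _ (ra_sup s _ fun e => ht ((mem_filter.1 e).2 ▸ hq))
          · exact ra_inr s w
        · refine lt_of_eq_of_lt
            (by_contra fun n => v0 _ ?_ (mem_vars_iff_degreeOf_ne_zero.2 n)) hp
          rw [raH, ← add_sum_erase _ _ (show s ∈ _ by simp), fa_mul_fc, add_sub_right_comm,
            sub_sub_cancel_left]
          exact add_mem (neg_mem (pow_mem (X_mem_supported.2 (by simp)) _))
            (ra_sup s _ (notMem_erase s _))
    rw [coe_insert, Set.image_insert_eq, Set.insert_union]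
    refine raE_step g h1 h2 h3 (fun t' hq x => ?_) ih
    obtain ⟨x, rfl⟩ := Ideal.Quotient.mk_surjective x
    exact Ideal.Quotient.eq_zero_iff_mem.2
      (Ideal.mul_mem_right x _ (Ideal.subset_span (.inl ⟨t', hq, rfl⟩)))

omit [LinearOrder σ] in
theorem ra_mem {N : Type} [AddCommGroup N] [Module (MvPolynomial (σ ⊕ σ) k) N] [Module k N]
    [IsScalarTower k (MvPolynomial (σ ⊕ σ) k) N] (i : ℤ) (v : (τ → ℤ) → Finset σ → N) :
    v ∈ (ferD k b m hm).U (fun _ => (⊤ : Submodule k N)) (SS univ fun _ => .pos) 0 i ↔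
      v ∈ raU σ (MvPolynomial (σ ⊕ σ) k) N univ i :=
  ⟨fun h J I e => (h J I).2 fun a => e ⟨a.1.2, by simp, a.2⟩,
    fun h J I => ⟨trivial, fun e => h J I fun a => e ⟨⟨subset_univ I, a.1⟩, a.2.2⟩⟩⟩

theorem tate_exact (hb : Surjective b) (hW : FI k b m ≤ W) {i : ℤ} (hi : 0 < i)
    (v : (τ → ℤ) → Finset σ → MvPolynomial (σ ⊕ σ) k ⧸ two (FI k b m) W)
    (hv : v ∈ (ferD k b m hm).U (fun _ => ⊤) (SS univ fun _ => .pos) 0 i)
    (h0 : (ferD k b m hm).d _ (SS univ fun _ => .pos) v = 0) :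
    ∃ u ∈ (ferD k b m hm).U (fun _ => ⊤) (SS univ fun _ => .pos) 0 (i + 1),
      (ferD k b m hm).d _ (SS univ fun _ => .pos) u = v := by
  have R := ra_res (W := W) hm hb univ
  have f : ∀ t, rename (Sum.inr : σ → σ ⊕ σ) (fer k b m t) ∈ rename Sum.inr '' (W : Set _) :=
    fun t => ⟨_, hW (Ideal.subset_span ⟨t, rfl⟩), rfl⟩
  rw [show Ideal.span _ = two (FI k b m) W from le_antisymm (Ideal.span_le.2 ?_)
    (sup_le (Ideal.map_le_iff_le_comap.2 (Ideal.span_le.2 ?_))
      (Ideal.span_mono Set.subset_union_right))] at R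
  · exact (R i hi v ((ra_mem hm i v).1 hv) h0).imp fun u hu => ⟨(ra_mem hm _ u).2 hu.1, hu.2⟩
  · rintro _ (⟨t, -, rfl⟩ | ⟨w, hw, rfl⟩)
    · rw [ra_h]
      exact sub_mem (Ideal.mem_sup_left (Ideal.mem_map_of_mem _ (Ideal.subset_span ⟨t, rfl⟩)))
        (Ideal.mem_sup_right (Ideal.subset_span (f t)))
    · exact Ideal.mem_sup_right (Ideal.mem_map_of_mem _ hw)
  · rintro _ ⟨t, rfl⟩
    rw [SetLike.mem_coe, Ideal.mem_comap, eq_add_of_sub_eq (ra_h (k := k) (b := b) (m := m) t).symm]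
    exact add_mem (Ideal.subset_span (.inl ⟨t, mem_univ t, rfl⟩)) (Ideal.subset_span (.inr (f t)))

theorem tate_zero (hW : FI k b m ≤ W)
    (v : (τ → ℤ) → Finset σ → MvPolynomial (σ ⊕ σ) k ⧸ two (FI k b m) W)
    (hv : v ∈ (ferD k b m hm).U (fun _ => ⊤) (SS univ fun _ => .pos) 0 0)
    (x : MvPolynomial (σ ⊕ σ) k) (hx : v 0 ∅ = Ideal.Quotient.mk _ x) :
    rename (Sum.elim id id) x ∈ W ↔
      ∃ u ∈ (ferD k b m hm).U (fun _ => ⊤) (SS univ fun _ => .pos) 0 1,
        (ferD k b m hm).d _ (SS univ fun _ => .pos) u = v := by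
  classical
  have d : ∀ u : (τ → ℤ) → Finset σ → MvPolynomial (σ ⊕ σ) k ⧸ two (FI k b m) W,
      raD _ (fa k) (fc k m) b u 0 ∅ = ∑ s, fa k s • u 0 {s} := fun u => by
    rw [raD_pos (J := 0) (fun _ => le_rfl), td_apply, Finset.sum_apply]
    simp [io_apply, ep_apply, sg]
  refine ⟨fun h => ?_, ?_⟩
  · have e : ∀ y : MvPolynomial (σ ⊕ σ) k, y - rename Sum.inr (rename (Sum.elim id id) y) ∈
        Ideal.span (Set.range (fa k)) := fun y => by
      rw [← Ideal.Quotient.eq, rename_rename]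
      refine DFunLike.congr_fun (algHom_ext (f := Ideal.Quotient.mkₐ k _)
        (g := (Ideal.Quotient.mkₐ k _).comp (rename _)) fun s => ?_) y
      rcases s with s | s
      · have : X (.inl s) - X (.inr s) ∈ Ideal.span (Set.range (fa k)) := Ideal.subset_span ⟨s, rfl⟩
        simpa [Ideal.Quotient.eq] using this
      · simp
    obtain ⟨r, hr⟩ := Ideal.mem_span_range_iff_exists_fun.1 (e x)
    have m1 : (Pi.single 0 (∑ s, Pi.single {s} (Ideal.Quotient.mk (two (FI k b m) W) (r s))) :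
        (τ → ℤ) → Finset σ → _) ∈ raU σ (MvPolynomial (σ ⊕ σ) k) _ univ (0 + 1) := fun J I hI => by
      by_cases hJ : J = 0
      · subst hJ
        rw [Pi.single_eq_same, Finset.sum_apply]
        refine sum_eq_zero fun s _ => Pi.single_eq_of_ne (fun e => hI ?_) _
        exact ⟨fun _ => le_rfl, fun _ _ => rfl, by simp [e]⟩
      · rw [Pi.single_eq_of_ne hJ, Pi.zero_apply]
    refine ⟨_, (ra_mem hm _ _).2 m1, funext fun J => funext fun I => ?_⟩
    by_cases p : raP univ 0 J I
    · have h1 : 0 ≤ ∑ t, J t := sum_nonneg fun t _ => p.1 t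
      have h2 := p.2.2
      obtain rfl : I = ∅ := card_eq_zero.1 (by omega)
      obtain rfl : J = 0 := funext fun t =>
        (sum_eq_zero_iff_of_nonneg fun t _ => p.1 t).1 (by omega) t (mem_univ t)
      refine (d _).trans ?_
      rw [hx, eq_add_of_sub_eq hr.symm, map_add, (Ideal.Quotient.eq_zero_iff_mem
        (I := two (FI k b m) W)).2 (Ideal.mem_sup_right (Ideal.mem_map_of_mem _ h)), add_zero,
        map_sum]
      refine sum_congr rfl fun s _ => ?_
      simp only [Pi.single_eq_same, Finset.sum_apply, Pi.single_apply, singleton_inj, sum_ite_eq,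
        mem_univ, if_true]
      rw [mul_comm]
      rfl
    · exact (raD_mem m1 J I p).trans ((ra_mem hm _ _).1 hv J I p).symm
  · rintro ⟨u, -, rfl⟩
    choose r hr using fun s => Ideal.Quotient.mk_surjective (u 0 {s})
    have e : x - ∑ s, fa k s * r s ∈ two (FI k b m) W := by
      rw [← Ideal.Quotient.eq, ← hx, map_sum]
      exact (d u).trans (sum_congr rfl fun s _ => by rw [← hr]; rfl)
    have le : two (FI k b m) W ≤ W.comap (rename (Sum.elim id id)) :=
      sup_le (Ideal.map_le_iff_le_comap.2 fun y hy => by simpa using hW hy)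
        (Ideal.map_le_iff_le_comap.2 fun y hy => by simpa using hy)
    simpa [fa] using le e

end Pool.Agent.Lib.MP_40dc3c_ag.P
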