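import Pool.Agent.Lib.MP_40dc3c_ag.P.KDefs
import Pool.Agent.Lib.MP_40dc3c_ag.T.CH

/-! Two lemmas on functions that are killed by iterated differences. -/

namespace Pool.Agent.Lib.MP_40dc3c_ag.P

open MvPolynomial Finset Filter T

variable {τ : Type}

theorem dl_comm {B : Type} [AddCommGroup B] (t t' : τ) :
    Function.Commute (dl (B := B) t) (dl t') := fun F => funext fun j => by
  simp only [dl, sub_right_comm j (et t)]
  abel

theorem et_le (t t' : τ) : 0 ≤ et t t' ∧ et t t' ≤ 1 := by
  classical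
  simp only [wt, Pi.single_apply]
  split_ifs <;> simp

theorem sum_et [Fintype τ] : ∑ t : τ, et t = fun _ => 1 := by
  classical
  funext t'
  simp [wt, Finset.sum_apply, Pi.single_apply]

theorem seq_evp [Fintype τ] (n : ℕ) : ∀ (F : (τ → ℤ) → ℤ) (c : τ → ℕ) (L : ℤ), ∑ t, c t = n →
    (∀ t j, (∀ t', L ≤ j t') → (dl t)^[c t] F j = 0) →
    ∀ j₀ : τ → ℤ, EvP fun N => (F (j₀ + fun _ => (N : ℤ)) : ℚ) := by
  classical
  induction n using Nat.strong_induction_on with | _ n ih => ?_
  intro F c L hn h j₀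
  have sh : ∀ (G : (τ → ℤ) → ℤ) t, (∀ j, (∀ t', L ≤ j t') → G j = 0) →
      ∀ j, (∀ t', L + 1 ≤ j t') → dl t G j = 0 := fun G t hG j hj => by
    rw [dl, hG j fun t' => by have := hj t'; omega, hG _ fun t' => by
      have := hj t'
      have := et_le t t'
      rw [Pi.sub_apply]
      omega, sub_zero]
  have h1 : ∀ t (j₁ : τ → ℤ), EvP fun N => (dl t F (j₁ + fun _ => (N : ℤ)) : ℤ) := fun t j₁ => by
    rcases hc : c t with _ | c'
    · refine ⟨0, ?_⟩
      filter_upwards [eventually_all.2 fun t' => (tendsto_natCast_atTop_atTop (R := ℤ)).eventually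
        (eventually_ge_atTop (L + 1 - j₁ t'))] with N hN
      rw [sh F t (fun j hj => by simpa [hc] using h t j hj) _ fun t' => by
        have := hN t'
        rw [Pi.add_apply]
        omega]
      simp
    · refine ih _ ?_ _ (Function.update c t c') (L + 1) rfl (fun t' j hj => ?_) j₁
      · rw [← hn, sum_update_of_mem (mem_univ t), ← add_sum_erase _ _ (mem_univ t), hc,
          sdiff_singleton_eq_erase]
        omega
      · rcases eq_or_ne t' t with rfl | ht
        · rw [Function.update_self, ← Function.iterate_succ_apply, Nat.succ_eq_add_one, ← hc]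
          exact h t' j fun s => by have := hj s; omega
        · rw [Function.update_of_ne ht, ← ((dl_comm t t').iterate_right _).eq]
          exact sh _ t (h t') j hj
  have h2 : ∀ s : Finset τ, EvP fun N => (F (j₀ + ∑ t ∈ s, et t + fun _ => (N : ℤ)) : ℚ) -
      F (j₀ + fun _ => (N : ℤ)) := fun s => by
    induction s using Finset.induction_on with
    | empty => exact ⟨0, Eventually.of_forall fun N => by simp⟩
    | insert a s ha ih' =>
      convert (h1 a (j₀ + ∑ t ∈ insert a s, et t)).add ih' using 2 with N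
      rw [dl, sum_insert ha, show j₀ + (et a + ∑ t ∈ s, et t) + (fun _ => (N : ℤ)) - et a =
        j₀ + ∑ t ∈ s, et t + fun _ => (N : ℤ) by abel]
      push_cast
      ring
  refine EvP.of_diff ?_
  convert h2 univ using 5 with N
  rw [sum_et]
  funext t
  simp only [Pi.add_apply]
  push_cast
  ring

theorem poly_of_dl [Fintype τ] (F : (τ → ℤ) → ℤ)
    (h : ∀ t, ∃ (c : ℕ) (L : ℤ), ∀ j, L ≤ j t → (dl t)^[c] F j = 0) :
    ∃ P : Polynomial ℚ, ∀ᶠ N : ℕ in atTop, (F (fun _ => N) : ℚ) = P.eval (N : ℚ) := by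
  choose c L h using h
  obtain ⟨L₀, hL⟩ := (Set.finite_range L).bddAbove
  simpa only [zero_add, EvP] using seq_evp _ F c L₀ rfl
    (fun t j hj => h t j ((hL ⟨t, rfl⟩).trans (hj t))) 0

theorem const_of_per (F : (τ → ℤ) → ℂ) (t : τ) {m c : ℕ} (hm : 0 < m) (j₀ : τ → ℤ)
    (h1 : ∀ j, j₀ ≤ j → (dl t)^[c] F j = 0)
    (h2 : ∀ j, j₀ ≤ j → F (j + (m : ℤ) • et t) = F j) (j : τ → ℤ) (hj : j₀ ≤ j) :
    F (j + et t) = F j := by
  have he : 0 ≤ et t := fun t' => (et_le t t').1
  induction c generalizing F j₀ j with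
  | zero => exact (h1 _ (hj.trans (le_add_of_nonneg_right he))).trans (h1 j hj).symm
  | succ c ih =>
    have h3 := ih (dl t F) (j₀ + et t)
      (fun i hi => h1 i ((le_add_of_nonneg_right he).trans hi)) fun i hi => by
        rw [dl, dl, h2 i ((le_add_of_nonneg_right he).trans hi), add_sub_right_comm,
          h2 _ (le_sub_iff_add_le.2 hi)]
    have h4 : ∀ n : ℕ, dl t F (j + (n : ℤ) • et t + et t) = dl t F (j + et t) ∧
        F (j + (n : ℤ) • et t) = F j + n * dl t F (j + et t) := fun n => by
      induction n with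
      | zero => simp
      | succ n ihn =>
        rw [Nat.cast_succ, add_smul, one_smul, ← add_assoc, h3 _ (add_le_add_left (hj.trans
          (le_add_of_nonneg_right (smul_nonneg (Int.natCast_nonneg n) he))) _)]
        refine ⟨ihn.1, ?_⟩
        have := ihn.1
        rw [dl, add_sub_cancel_right, ihn.2] at this
        push_cast
        linear_combination this
    have h5 := (h4 m).2
    rw [h2 j hj, left_eq_add, mul_eq_zero, dl, add_sub_cancel_right, sub_eq_zero] at h5
    exact h5.resolve_left (Nat.cast_ne_zero.2 hm.ne')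

end Pool.Agent.Lib.MP_40dc3c_ag.P
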