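import Pool.Agent.Lib.MP_40dc3c_ag.P.ThA
import Pool.Agent.Lib.MP_40dc3c_ag.P.Seq

/-! Exactness of Koszul and Tate complexes along regular elements. -/

namespace Pool.Agent.Lib.MP_40dc3c_ag.P

open Finset Function

variable {σ τ : Type} [LinearOrder σ] {E : Type} [CommRing E] {N N' : Type} [AddCommGroup N]
  [Module E N] [AddCommGroup N'] [Module E N'] {a c : σ → E}

theorem ra_lift (g : N →ₗ[E] N') (hg : Surjective g) (z : N') : ∃ y, g y = z ∧ (z = 0 → y = 0) := by
  by_cases h : z = 0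
  · exact ⟨0, by rw [map_zero, h], fun _ => rfl⟩
  · exact (hg z).imp fun y hy => ⟨hy, fun e => (h e).elim⟩

theorem ra_quot (G : Set E) (f : E) (hr : ∀ x, f * x ∈ Ideal.span G → x ∈ Ideal.span G) :
    ∃ g : (E ⧸ Ideal.span G) →ₗ[E] (E ⧸ Ideal.span (insert f G)), Surjective g ∧
      (∀ x, g x = 0 ↔ ∃ y, x = f • y) ∧ ∀ x : E ⧸ Ideal.span G, f • x = 0 → x = 0 := by
  refine ⟨Submodule.factor (Ideal.span_mono (Set.subset_insert f G)),
    Submodule.factor_surjective _, fun x => ⟨fun hx => ?_, ?_⟩, fun x hx => ?_⟩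
  · obtain ⟨x, rfl⟩ := Ideal.Quotient.mk_surjective x
    obtain ⟨y, z, hz, rfl⟩ := Ideal.mem_span_insert.1 (Ideal.Quotient.eq_zero_iff_mem.1 hx)
    exact ⟨Ideal.Quotient.mk _ y, by
      rw [map_add, Ideal.Quotient.eq_zero_iff_mem.2 hz, add_zero, mul_comm]; rfl⟩
  · rintro ⟨y, rfl⟩
    obtain ⟨y, rfl⟩ := Ideal.Quotient.mk_surjective y
    exact Ideal.Quotient.eq_zero_iff_mem.2
      (Ideal.mul_mem_right y _ (Ideal.subset_span (Set.mem_insert f G)))
  · obtain ⟨x, rfl⟩ := Ideal.Quotient.mk_surjective x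
    exact Ideal.Quotient.eq_zero_iff_mem.2 (hr x (Ideal.Quotient.eq_zero_iff_mem.1 hx))

variable (E N) in
/-- the part of degree `i` of the Koszul complex on `A`. -/
def raK (A : Finset σ) (i : ℕ) : Submodule E (Finset σ → N) where
  carrier := {v | ∀ I, ¬(I ⊆ A ∧ #I = i) → v I = 0}
  add_mem' ha hb I h := by simp [ha I h, hb I h]
  zero_mem' _ _ := rfl
  smul_mem' c v hv I h := by simp [hv I h]

section kos

variable {A : Finset σ} {i : ℕ} {v : Finset σ → N} {s : σ}

omit [LinearOrder σ] in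
theorem raK_mono {A' : Finset σ} (h : A ⊆ A') (hv : v ∈ raK E N A i) : v ∈ raK E N A' i :=
  fun I hI => hv I fun h' => hI ⟨h'.1.trans h, h'.2⟩

theorem raK_io (s : σ) (hv : v ∈ raK E N A (i + 1)) : io E N s v ∈ raK E N (A.erase s) i := by
  intro I hI
  rw [io_apply]
  split_ifs with h
  · rfl
  · rw [hv _ fun e => hI ⟨subset_erase.2 ⟨(subset_insert s I).trans e.1, h⟩, ?_⟩, smul_zero]
    have := e.2
    have := card_insert_of_notMem h
    omega

theorem raK_ep (hs : s ∈ A) (hv : v ∈ raK E N A i) : ep E N s v ∈ raK E N A (i + 1) := by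
  intro I hI
  rw [ep_apply]
  split_ifs with h
  · rw [hv _ fun e => hI ⟨insert_erase h ▸ insert_subset hs e.1, ?_⟩, smul_zero]
    rw [← card_erase_add_one h, e.2]
  · rfl

variable [Fintype σ]

theorem raK_kd (hv : v ∈ raK E N A (i + 1)) : kd N univ a 0 v ∈ raK E N A i := by
  rw [kd_apply]
  refine Submodule.sum_mem _ fun s _ => ?_
  rw [Pi.zero_apply, zero_smul, add_zero]
  exact Submodule.smul_mem _ _ (raK_mono (erase_subset s A) (raK_io s hv))

variable (N a) in
/-- the Koszul complex is exact in positive degrees. -/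
def RaKE (A : Finset σ) : Prop := ∀ i, 0 < i → ∀ v ∈ raK E N A i, kd N univ a 0 v = 0 →
  ∃ u ∈ raK E N A (i + 1), kd N univ a 0 u = v

theorem raKE_empty : RaKE N a ∅ := fun i hi v hv _ => ⟨0, zero_mem _, by
  rw [map_zero]
  refine (funext fun I => hv I fun e => ?_).symm
  rw [subset_empty.1 e.1] at e
  exact hi.ne e.2⟩

theorem raKE_step (g : N →ₗ[E] N') (hg : Surjective g) (hk : ∀ x, g x = 0 ↔ ∃ y, x = a s • y)
    (hr : ∀ x : N, a s • x = 0 → x = 0) (hs : s ∉ A) (h : RaKE N' a A) :
    RaKE N a (insert s A) := by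
  intro i hi v hv h0
  have e1 : ∀ x : Finset σ → N, kd N univ a 0 (ep E N s x) = a s • x - ep E N s (kd N univ a 0 x) :=
    fun x => eq_sub_of_add_eq ((kd_ep univ a 0 s x).trans (if_pos (mem_univ s)))
  have e2 : ∀ x : Finset σ → N, kd N univ a 0 (io E N s x) = -io E N s (kd N univ a 0 x) :=
    fun x => eq_neg_of_add_eq_zero_left (by simpa using kd_io univ a 0 s x)
  have e3 : ∀ x : Finset σ → N, kd N univ a 0 (kd N univ a 0 x) = 0 := fun x => by
    simpa using kd_sq univ a 0 x
  have e4 := (io_ep (E := E) s s v).trans (if_pos rfl)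
  have h1 : io E N s (ep E N s v) ∈ raK E N A i := by
    simpa [hs] using raK_io s (raK_ep (mem_insert_self s A) hv)
  obtain ⟨u', hu', e5⟩ := h i hi (g.compLeft _ (io E N s (ep E N s v)))
    (fun I hI => (congrArg g (h1 I hI)).trans (map_zero g)) (by
      rw [← cl_kd, e2, e1, h0, map_zero, sub_zero, map_smul, map_neg, neg_eq_zero]
      exact funext fun I => (hk _).2 ⟨_, rfl⟩)
  choose u hu hu0 using fun I => ra_lift g hg (u' I)
  have h2 : u ∈ raK E N (insert s A) (i + 1) :=
    raK_mono (subset_insert s A) fun I hI => hu0 I (hu' I hI)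
  have h3 := sub_mem (raK_mono (subset_insert s A) h1) (raK_kd (a := a) h2)
  have e6 : g.compLeft _ (io E N s (ep E N s v) - kd N univ a 0 u) = 0 := by
    rw [map_sub, cl_kd, ← e5, show g.compLeft _ u = u' from funext hu, sub_self]
  choose w hw using fun I => (hk _).1 (congrFun e6 I)
  have e7 : io E N s (ep E N s v) - kd N univ a 0 u = a s • w := funext hw
  have h4 : w ∈ raK E N (insert s A) i := fun I hI => hr _ ((hw I).symm.trans (h3 I hI))
  refine ⟨u + ep E N s w, add_mem h2 (raK_ep (mem_insert_self s A) h4), ?_⟩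
  have e8 : v - kd N univ a 0 (u + ep E N s w) = ep E N s (io E N s v + kd N univ a 0 w) := by
    rw [map_add, e1, ← e7, map_add, ← sub_eq_of_eq_add' e4.symm]
    abel
  have e9 := e1 (v - kd N univ a 0 (u + ep E N s w))
  rw [map_sub (kd N univ a 0), h0, e3, sub_zero, map_zero, sub_zero, e8, ep_sq, map_zero,
    ← e8] at e9
  exact (sub_eq_zero.1 (funext fun I => hr _ (congrFun e9 I).symm)).symm

end kos

variable [Fintype σ] [Fintype τ] {b : σ → τ} {Q : Finset τ} {i : ℤ} {t : τ} {J : τ → ℤ}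
  {v : (τ → ℤ) → Finset σ → N}

omit [LinearOrder σ] [Fintype σ] in
/-- the indices of degree `i` with exponents in the blocks of `Q`. -/
def raP (Q : Finset τ) (i : ℤ) (J : τ → ℤ) (I : Finset σ) : Prop :=
  (∀ t, 0 ≤ J t) ∧ (∀ t, t ∉ Q → J t = 0) ∧ (#I : ℤ) + 2 * ∑ t, J t = i

omit [LinearOrder σ] [Fintype σ] in
variable (E N σ) in
/-- the part of degree `i` of the resolution. -/
def raU (Q : Finset τ) (i : ℤ) : Submodule E ((τ → ℤ) → Finset σ → N) where
  carrier := {v | ∀ J I, ¬raP Q i J I → v J I = 0}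
  add_mem' ha hb J I h := by simp [ha J I h, hb J I h]
  zero_mem' _ _ _ := rfl
  smul_mem' c v hv J I h := by simp [hv J I h]

omit [Fintype τ] in
variable (N b a c) in
/-- the differential of the resolution. -/
noncomputable def raD : ((τ → ℤ) → Finset σ → N) →ₗ[E] ((τ → ℤ) → Finset σ → N) :=
  cut N E (SS univ fun _ => .pos) ∘ₗ td N b a c

omit [Fintype τ] in
theorem raD_pos (h : ∀ t, 0 ≤ J t) (v : (τ → ℤ) → Finset σ → N) :
    raD N a c b v J = td N b a c v J := funext fun I => if_pos ⟨subset_univ I, h⟩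

omit [Fintype τ] in
theorem raD_neg (h : ¬∀ t, 0 ≤ J t) (v : (τ → ℤ) → Finset σ → N) : raD N a c b v J = 0 :=
  funext fun _ => if_neg fun e => h e.2

omit [LinearOrder σ] [Fintype σ] in
theorem ra_wt (b : σ → τ) (s : σ) : (∀ t, 0 ≤ wt b s t) ∧ wt b s (b s) = 1 ∧
    (∀ t, t ≠ b s → wt b s t = 0) ∧ ∑ t, wt b s t = 1 := by
  classical
  refine ⟨fun t => (et_le (b s) t).1, by simp [wt], fun t h => by simp [wt, h], ?_⟩
  rw [sum_eq_single (b s) (fun t _ h => by simp [wt, h]) (by simp)]
  simp [wt]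

theorem raD_mem (hv : v ∈ raU σ E N Q (i + 1)) : raD N a c b v ∈ raU σ E N Q i := by
  intro J I hI
  by_cases h : ∀ t, 0 ≤ J t
  swap
  · rw [raD_neg h, Pi.zero_apply]
  rw [raD_pos h, td_apply, Finset.sum_apply]
  refine sum_eq_zero fun s _ => ?_
  rw [Pi.add_apply, Pi.smul_apply, Pi.smul_apply, io_apply, ep_apply]
  obtain ⟨w0, -, -, w1⟩ := ra_wt b s
  split_ifs with hs
  · rw [hv _ _ fun e => hI ⟨h, fun t ht => ?_, ?_⟩]
    · simp
    · have := e.2.1 t ht
      have := h t
      have := w0 t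
      rw [Pi.add_apply] at *
      omega
    · have := e.2.2
      have := card_erase_add_one hs
      simp only [Pi.add_apply, sum_add_distrib, w1] at *
      omega
  · rw [hv _ _ fun e => hI ⟨h, e.2.1, ?_⟩]
    · simp
    · have := e.2.2
      have := card_insert_of_notMem hs
      omega

omit [Fintype τ] in
theorem raD_map (g : N →ₗ[E] N') (v : (τ → ℤ) → Finset σ → N) :
    (raD N' a c b fun J I => g (v J I)) = fun J I => g (raD N a c b v J I) := by
  funext J
  by_cases h : ∀ t, 0 ≤ J t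
  · rw [raD_pos h, raD_pos h, td_apply, td_apply]
    change _ = g.compLeft _ _
    simp only [map_sum, map_add, map_smul, cl_io, cl_ep]
    rfl
  · rw [raD_neg h, raD_neg h]
    exact funext fun I => (map_zero g).symm

open Classical in
omit [LinearOrder σ] [Fintype τ] in
variable (b a c) in
/-- the form of a block. -/
noncomputable def raH (t : τ) : E := ∑ s with b s = t, a s * c s

omit [LinearOrder σ] [Fintype τ] in
theorem raH_eq [DecidableEq τ] (t : τ) : raH a c b t = ∑ s with b s = t, a s * c s := by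
  rw [raH]
  congr

theorem raD_sq [DecidableEq τ] (hQ : ∀ t' ∈ Q, ∀ x : N, raH a c b t' • x = 0)
    (hv : v ∈ raU σ E N (insert t Q) i) (h : ∀ t, 0 ≤ J t) :
    raD N a c b (raD N a c b v) J = raH a c b t • v (J + et t) := by
  have e : raD N a c b (raD N a c b v) J = td N b a c (td N b a c v) J := by
    rw [raD_pos h, td_apply, td_apply, raD_pos h]
    exact sum_congr rfl fun s _ => by
      rw [raD_pos (J := J + wt b s) fun t => add_nonneg (h t) ((ra_wt b s).1 t)]
  have e' : ∑ s, (a s * c s) • v (J + wt b s) = ∑ t, raH a c b t • v (J + et t) := by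
    rw [← sum_fiberwise univ b]
    refine sum_congr rfl fun t _ => ?_
    rw [raH_eq, sum_smul]
    refine sum_congr rfl fun s hs => ?_
    rw [← (mem_filter.1 hs).2]
    rfl
  rw [e, td_sq, e', Finset.sum_eq_single t (fun t' _ ht => funext fun I => ?_) (by simp)]
  by_cases hq : t' ∈ Q
  · exact hQ t' hq _
  · rw [Pi.smul_apply, hv _ _ fun e => ?_, smul_zero, Pi.zero_apply]
    have h1 := e.2.1 t' (by simp [ht, hq])
    have h2 : et t' t' = 1 := (ra_wt id t').2.1
    have := h t'
    rw [Pi.add_apply] at h1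
    omega

variable (N b a c) in
/-- the resolution is exact in positive degrees. -/
def RaE (Q : Finset τ) : Prop := ∀ i, 0 < i → ∀ v ∈ raU σ E N Q i, raD N a c b v = 0 →
  ∃ u ∈ raU σ E N Q (i + 1), raD N a c b u = v

theorem raE_empty (h : RaKE N a univ) : RaE N a c b ∅ := by
  classical
  intro i hi v hv h0
  have z : ∀ i, ∀ x ∈ raU σ E N (∅ : Finset τ) i, ∀ J, J ≠ 0 → x J = 0 := fun i x hx J hJ =>
    funext fun I => hx J I fun e => hJ (funext fun t => e.2.1 t (notMem_empty t))
  have d : ∀ i, ∀ x ∈ raU σ E N (∅ : Finset τ) i, raD N a c b x 0 = kd N univ a 0 (x 0) :=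
    fun i x hx => by
      rw [raD_pos (J := 0) (fun _ => le_rfl), td_apply, kd_apply]
      refine sum_congr rfl fun s _ => ?_
      rw [z i x hx (0 + wt b s) fun e => ?_, map_zero, smul_zero, Pi.zero_apply, zero_smul]
      have := congrFun e (b s)
      rw [zero_add, (ra_wt b s).2.1] at this
      exact one_ne_zero this
  lift i to ℕ using hi.le
  obtain ⟨u, hu, e⟩ := h i (by omega) (v 0) (fun I hI => hv 0 I fun e => hI ⟨subset_univ I, by
    simpa using e.2.2⟩) ((d i v hv).symm.trans (congrFun h0 0))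
  have m : (Pi.single 0 u : (τ → ℤ) → Finset σ → N) ∈ raU σ E N (∅ : Finset τ) (i + 1) :=
    fun J I hI => by
      by_cases hJ : J = 0
      · subst hJ
        rw [Pi.single_eq_same]
        refine hu I fun e => hI ⟨fun _ => le_rfl, fun _ _ => rfl, ?_⟩
        simp [e.2]
      · rw [Pi.single_eq_of_ne hJ, Pi.zero_apply]
  refine ⟨_, m, funext fun J => ?_⟩
  by_cases hJ : J = 0
  · rw [hJ, d _ _ m, Pi.single_eq_same, e]
  · rw [z _ _ (raD_mem m) J hJ, z _ _ hv J hJ]

theorem raE_step [DecidableEq τ] (g : N →ₗ[E] N') (hg : Surjective g)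
    (hk : ∀ x, g x = 0 ↔ ∃ y, x = raH a c b t • y) (hr : ∀ x : N, raH a c b t • x = 0 → x = 0)
    (hQ : ∀ t' ∈ Q, ∀ x : N, raH a c b t' • x = 0) (h : RaE N a c b Q) :
    RaE N' a c b (insert t Q) := by
  intro i hi v' hv' h0
  obtain ⟨w0, w1, w2, w3⟩ : (∀ t', 0 ≤ et t t') ∧ et t t = 1 ∧ (∀ t', t' ≠ t → et t t' = 0) ∧
    ∑ t', et t t' = 1 := ra_wt id t
  choose v hv hv0 using fun J I => ra_lift g hg (v' J I)
  have m1 : v ∈ raU σ E N (insert t Q) i := fun J I hI => hv0 J I (hv' J I hI)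
  have e1 : (fun J I => g (raD N a c b v J I)) = 0 := by
    rw [← raD_map, ← h0]
    exact congrArg _ (funext fun J => funext fun I => hv J I)
  choose w hw using fun J I => (hk _).1 (congrFun (congrFun e1 J) I)
  have m2 : w ∈ raU σ E N (insert t Q) (i - 1) := fun J I hI => hr _ ((hw J I).symm.trans
    (raD_mem (i := i - 1) (by rwa [sub_add_cancel]) J I hI))
  have m3 : (fun J => w (J - et t)) ∈ raU σ E N (insert t Q) (i + 1) := fun J I hI =>
    m2 _ I fun e => hI ⟨fun t' => (w0 t').trans (sub_nonneg.1 (e.1 t')), fun t' ht => by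
      have := e.2.1 t' ht
      rwa [Pi.sub_apply, w2 t' fun e => ht (e ▸ mem_insert_self _ _), sub_zero] at this, by
      have := e.2.2
      simp only [Pi.sub_apply, sum_sub_distrib, w3] at this
      omega⟩
  have m4 := sub_mem m1 (raD_mem (a := a) (c := c) (b := b) m3)
  have e2 : raD N a c b (v - raD N a c b fun J => w (J - et t)) = 0 := funext fun J => by
    by_cases hJ : ∀ t, 0 ≤ J t
    · rw [map_sub, Pi.sub_apply, raD_sq hQ m3 hJ, add_sub_cancel_right]
      exact sub_eq_zero.2 (funext (hw J))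
    · exact raD_neg hJ _
  obtain ⟨u, hu, e3⟩ := h i hi _ (fun J I hI => by_contra fun hn => by
    have p : raP (insert t Q) i J I := by_contra fun e => hn (m4 J I e)
    have q : ¬∀ t', 0 ≤ (J - et t) t' := fun q => hn (hr _ (by
      have := congrFun (raD_sq hQ m4 q) I
      rw [e2, map_zero, sub_add_cancel] at this
      exact this.symm))
    refine hI ⟨p.1, fun t' ht => ?_, p.2.2⟩
    by_cases e : t' = t
    · subst e
      refine by_contra fun n => q fun r => ?_
      have := p.1 r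
      by_cases e : r = t'
      · subst e
        rw [Pi.sub_apply, w1]
        omega
      · rwa [Pi.sub_apply, w2 r e, sub_zero]
    · exact p.2.1 t' (by simp [e, ht])) e2
  have m5 : u + (fun J => w (J - et t)) ∈ raU σ E N (insert t Q) (i + 1) :=
    add_mem (fun J I hI => hu J I fun e => hI ⟨e.1, fun t' ht => e.2.1 t' fun a =>
      ht (mem_insert_of_mem a), e.2.2⟩) m3
  refine ⟨fun J I => g ((u + fun J => w (J - et t)) J I),
    fun J I hI => (congrArg g (m5 J I hI)).trans (map_zero g), ?_⟩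
  rw [raD_map, map_add, e3, sub_add_cancel]
  exact funext fun J => funext fun I => hv J I

end Pool.Agent.Lib.MP_40dc3c_ag.P
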