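import Pool.Agent.Lib.MP_40dc3c_ag.P.Gm
import Pool.Agent.Lib.MP_40dc3c_ag.P.Reg

/-! A homogeneous basis of the quotient gives coordinates on the doubled ring. -/

namespace Pool.Agent.Lib.MP_40dc3c_ag.P

open MvPolynomial Finset Function TensorProduct

variable {k : Type} [Field k] {σ τ : Type} {b : σ → τ} {W : Ideal (MvPolynomial σ k)}

theorem rb_basis (W : Ideal (MvPolynomial σ k)) : ∃ (ι : Type) (d : ι → σ →₀ ℕ)
    (B : Module.Basis ι k (MvPolynomial σ k ⧸ W)),
    ∀ x, B x = Ideal.Quotient.mkₐ k W (monomial (d x) 1) := by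
  obtain ⟨S, h1, h2, h3⟩ := exists_linearIndependent k
    (Set.range fun d : σ →₀ ℕ => Ideal.Quotient.mkₐ k W (monomial d 1))
  have h4 : ⊤ ≤ Submodule.span k (Set.range ((↑) : S → MvPolynomial σ k ⧸ W)) := by
    rw [Subtype.range_coe, h2]
    intro q _
    obtain ⟨f, rfl⟩ := Ideal.Quotient.mkₐ_surjective k W q
    induction f using MvPolynomial.induction_on' with
    | monomial u r =>
      rw [show (monomial u r : MvPolynomial σ k) = r • monomial u 1 by
        rw [smul_monomial, smul_eq_mul, mul_one], map_smul]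
      exact Submodule.smul_mem _ _ (Submodule.subset_span ⟨u, rfl⟩)
    | add p q hp hq => rw [map_add]; exact add_mem (hp trivial) (hq trivial)
  choose d hd using fun x : S => h1 x.2
  exact ⟨S, d, Module.Basis.mk h3 h4, fun x => by rw [Module.Basis.mk_apply]; exact (hd x).symm⟩

theorem rb_inl {f : MvPolynomial σ k} {d : τ → ℤ} (h : f.IsWeightedHomogeneous (wt b) d) :
    (rename (Sum.inl : σ → σ ⊕ σ) f).IsWeightedHomogeneous (wt (Sum.elim b b)) d :=
  hom_algHom (rename Sum.inl) (fun s => by
    rw [rename_X]; exact isWeightedHomogeneous_X k (wt (Sum.elim b b)) (Sum.inl s)) h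

theorem rb_inr {f : MvPolynomial σ k} {d : τ → ℤ} (h : f.IsWeightedHomogeneous (wt b) d) :
    (rename (Sum.inr : σ → σ ⊕ σ) f).IsWeightedHomogeneous (wt (Sum.elim b b)) d :=
  hom_algHom (rename Sum.inr) (fun s => by
    rw [rename_X]; exact isWeightedHomogeneous_X k (wt (Sum.elim b b)) (Sum.inr s)) h

theorem rb_split (u : σ ⊕ σ →₀ ℕ) (r : k) : ∃ u1 u2 : σ →₀ ℕ,
    (monomial u r : MvPolynomial (σ ⊕ σ) k) =
      rename Sum.inl (monomial u1 r) * rename Sum.inr (monomial u2 1) := by
  refine ⟨u.comapDomain Sum.inl Sum.inl_injective.injOn,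
    u.comapDomain Sum.inr Sum.inr_injective.injOn, ?_⟩
  rw [rename_monomial, rename_monomial, monomial_mul, mul_one]
  congr 2
  ext (s | s)
  · rw [Finsupp.add_apply, Finsupp.mapDomain_apply Sum.inl_injective,
      Finsupp.mapDomain_of_notMem_range _ _ (by simp)]
    simp
  · rw [Finsupp.add_apply, Finsupp.mapDomain_apply Sum.inr_injective,
      Finsupp.mapDomain_of_notMem_range _ _ (by simp)]
    simp

theorem rb_red (hW : Hg b W) {ι : Type} {δ : ι → τ → ℤ} {w : ι → MvPolynomial σ k}
    (hw : ∀ x, (w x).IsWeightedHomogeneous (wt b) (δ x))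
    (B : Module.Basis ι k (MvPolynomial σ k ⧸ W)) (hB : ∀ x, B x = Ideal.Quotient.mkₐ k W (w x))
    {g : MvPolynomial σ k} {d : τ → ℤ} (hg : g.IsWeightedHomogeneous (wt b) d) :
    ∃ c : ι →₀ k, (∀ x, c x ≠ 0 → δ x = d) ∧ g - Finsupp.linearCombination k w c ∈ W := by
  classical
  have h1 : ∀ c : ι →₀ k, Ideal.Quotient.mkₐ k W (Finsupp.linearCombination k w c) =
      Finsupp.linearCombination k B c := fun c => by
    induction c using Finsupp.induction_linear with
    | zero => simp
    | add p q hp hq => rw [map_add, map_add, map_add, hp, hq]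
    | single x r => rw [Finsupp.linearCombination_single, Finsupp.linearCombination_single,
        map_smul, hB]
  have h2 : ∀ c : ι →₀ k, weightedHomogeneousComponent (wt b) d (Finsupp.linearCombination k w c) =
      Finsupp.linearCombination k w (c.filter fun x => δ x = d) := fun c => by
    induction c using Finsupp.induction_linear with
    | zero => rw [Finsupp.filter_zero, map_zero, map_zero]
    | add p q hp hq => rw [map_add, map_add, Finsupp.filter_add, map_add, hp, hq]
    | single x r =>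
      rw [Finsupp.linearCombination_single, map_smul]
      by_cases e : δ x = d
      · rw [Finsupp.filter_single_of_pos (fun x => δ x = d) e, Finsupp.linearCombination_single,
          IsWeightedHomogeneous.weightedHomogeneousComponent_same (e ▸ hw x)]
      · rw [Finsupp.filter_single_of_neg (fun x => δ x = d) e, map_zero,
          (hw x).weightedHomogeneousComponent_ne d (Ne.symm e), smul_zero]
  have h3 : g - Finsupp.linearCombination k w (B.repr (Ideal.Quotient.mkₐ k W g)) ∈ W := by
    rw [← Ideal.Quotient.eq, ← Ideal.Quotient.mkₐ_eq_mk k W, h1, B.linearCombination_repr]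
  refine ⟨(B.repr (Ideal.Quotient.mkₐ k W g)).filter fun x => δ x = d, fun x hx => ?_, ?_⟩
  · by_contra e
    exact hx (Finsupp.filter_apply_neg (fun x => δ x = d) _ e)
  · have := hW _ h3 d
    rwa [map_sub, h2, hg.weightedHomogeneousComponent_same] at this

theorem rb_coord {ι : Type} (B : Module.Basis ι k (MvPolynomial σ k ⧸ W)) (x : ι) :
    ∃ ψ : MvPolynomial (σ ⊕ σ) k →ₗ[k] MvPolynomial σ k,
      (∀ f g, ψ (rename Sum.inl f * rename Sum.inr g) =
        B.repr (Ideal.Quotient.mkₐ k W g) x • f) ∧ ∀ V, ∀ e ∈ two V W, ψ e ∈ V := by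
  let θ : MvPolynomial (σ ⊕ σ) k →ₐ[k] MvPolynomial σ k ⊗[k] (MvPolynomial σ k ⧸ W) :=
    aeval (R := k) (Sum.elim (fun s : σ => (X s : MvPolynomial σ k) ⊗ₜ[k] 1) fun s =>
      (1 : MvPolynomial σ k) ⊗ₜ[k] Ideal.Quotient.mkₐ k W (X s))
  have t1 : ∀ f, θ (rename Sum.inl f) = f ⊗ₜ 1 := fun f =>
    DFunLike.congr_fun (show θ.comp (rename Sum.inl) = Algebra.TensorProduct.includeLeft from
      algHom_ext fun s => by simp [θ]) f
  have t2 : ∀ f, θ (rename Sum.inr f) = 1 ⊗ₜ Ideal.Quotient.mkₐ k W f := fun f =>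
    DFunLike.congr_fun (show θ.comp (rename Sum.inr) =
      Algebra.TensorProduct.includeRight.comp (Ideal.Quotient.mkₐ k W) from
        algHom_ext fun s => by simp [θ]) f
  let p : MvPolynomial σ k ⊗[k] (MvPolynomial σ k ⧸ W) →ₗ[k] MvPolynomial σ k :=
    (TensorProduct.rid k _).toLinearMap ∘ₗ (B.coord x).lTensor _
  have p1 : ∀ f q, p (f ⊗ₜ q) = B.repr q x • f := fun f q => by simp [p]
  let ψ := p ∘ₗ θ.toLinearMap
  have q1 : ∀ f g, ψ (rename Sum.inl f * rename Sum.inr g) =
      B.repr (Ideal.Quotient.mkₐ k W g) x • f := fun f g => by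
    show p (θ _) = _
    rw [map_mul, t1, t2, Algebra.TensorProduct.tmul_mul_tmul, mul_one, one_mul, p1]
  refine ⟨ψ, q1, fun V e he => ?_⟩
  let I : Ideal (MvPolynomial (σ ⊕ σ) k) :=
    { carrier := {e | ∀ a, ψ (e * a) ∈ V}
      zero_mem' := fun a => by rw [zero_mul, map_zero]; exact zero_mem _
      add_mem' := fun {u v} hu hv a => by
        rw [add_mul, map_add]; exact add_mem (hu a) (hv a)
      smul_mem' := fun c u hu a => by
        rw [smul_eq_mul, mul_comm c, mul_assoc]; exact hu _ }
  have key : ∀ e, (∀ f g, ψ (e * (rename Sum.inl f * rename Sum.inr g)) ∈ V) → e ∈ I := by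
    intro e h a
    induction a using MvPolynomial.induction_on' with
    | monomial u r =>
      obtain ⟨u1, u2, e1⟩ := rb_split u r
      rw [e1]; exact h _ _
    | add u v hu hv => rw [mul_add, map_add]; exact add_mem hu hv
  have h : two V W ≤ I := sup_le
    (Ideal.map_le_iff_le_comap.2 fun f hf => key _ fun f' g => by
      rw [← mul_assoc, ← map_mul, q1]
      exact V.smul_of_tower_mem _ (V.mul_mem_right _ hf))
    (Ideal.map_le_iff_le_comap.2 fun f hf => key _ fun f' g => by
      rw [mul_left_comm, ← map_mul, q1, Ideal.Quotient.mkₐ_eq_mk,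
        Ideal.Quotient.eq_zero_iff_mem.2 (W.mul_mem_right _ hf), map_zero, Finsupp.zero_apply,
        zero_smul]
      exact zero_mem _)
  have := h he 1
  rwa [mul_one] at this

theorem exists_free (hW : Hg b W) : ∃ (ι : Type) (δ : ι → τ → ℤ) (w : ι → MvPolynomial σ k)
    (Φ : (ι →₀ MvPolynomial σ k) →ₗ[k] MvPolynomial (σ ⊕ σ) k),
    (∀ x, (w x).IsWeightedHomogeneous (wt b) (δ x)) ∧
    (∀ x f, Φ (.single x f) = rename Sum.inl f * rename Sum.inr (w x)) ∧
    (∀ f v, Φ (f • v) = rename Sum.inl f * Φ v) ∧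
    (∀ e, ∃ v, e - Φ v ∈ two ⊥ W) ∧ (∀ V v, Φ v ∈ two V W ↔ ∀ x, v x ∈ V) ∧
    (∀ j v, (∀ x, (v x).IsWeightedHomogeneous (wt b) (j - δ x)) →
      (Φ v).IsWeightedHomogeneous (wt (Sum.elim b b)) j) ∧
    ∀ j (e : MvPolynomial (σ ⊕ σ) k), e.IsWeightedHomogeneous (wt (Sum.elim b b)) j →
      ∃ v, (∀ x, (v x).IsWeightedHomogeneous (wt b) (j - δ x)) ∧ e - Φ v ∈ two ⊥ W := by
  classical
  obtain ⟨ι, d, B, hB⟩ := rb_basis W
  let w : ι → MvPolynomial σ k := fun x => monomial (d x) 1
  let δ : ι → τ → ℤ := fun x => Finsupp.weight (wt b) (d x)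
  have hw : ∀ x, (w x).IsWeightedHomogeneous (wt b) (δ x) :=
    fun x => isWeightedHomogeneous_monomial _ _ _ rfl
  let Φ : (ι →₀ MvPolynomial σ k) →ₗ[k] MvPolynomial (σ ⊕ σ) k := Finsupp.lsum k fun x =>
    LinearMap.mulRight k (rename Sum.inr (w x)) ∘ₗ (rename Sum.inl).toLinearMap
  have f1 : ∀ x f, Φ (.single x f) = rename Sum.inl f * rename Sum.inr (w x) := fun x f => by
    simp only [Φ, Finsupp.lsum_single]; rfl
  have f2 : ∀ v, Φ v = ∑ x ∈ v.support, rename Sum.inl (v x) * rename Sum.inr (w x) :=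
    fun v => rfl
  have f7 : ∀ j (e : MvPolynomial (σ ⊕ σ) k), e.IsWeightedHomogeneous (wt (Sum.elim b b)) j →
      ∃ v, (∀ x, (v x).IsWeightedHomogeneous (wt b) (j - δ x)) ∧ e - Φ v ∈ two ⊥ W := by
    intro j e he
    induction he using IsWeightedHomogeneous.induction_on with
    | zero => exact ⟨0, fun x => isWeightedHomogeneous_zero _ _ _, by simp⟩
    | add p q _ _ hp hq =>
      obtain ⟨u, hu, hu'⟩ := hp
      obtain ⟨v, hv, hv'⟩ := hq
      refine ⟨u + v, fun x => (hu x).add (hv x), ?_⟩
      rw [map_add, add_sub_add_comm]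
      exact add_mem hu' hv'
    | monomial u r hu =>
      obtain ⟨u1, u2, e1⟩ := rb_split u (1 : k)
      have e2 : (monomial u r : MvPolynomial (σ ⊕ σ) k) =
          rename Sum.inl (monomial u1 r) * rename Sum.inr (monomial u2 1) := by
        have := congrArg (r • ·) e1
        simp only [← smul_mul_assoc, ← map_smul, smul_monomial, smul_eq_mul, mul_one] at this
        exact this
      have g1 := isWeightedHomogeneous_monomial (wt b) u1 (1 : k) rfl
      have g2 := isWeightedHomogeneous_monomial (wt b) u2 (1 : k) rfl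
      have e3 : j = Finsupp.weight (wt b) u1 + Finsupp.weight (wt b) u2 :=
        (isWeightedHomogeneous_monomial _ u (1 : k) hu).inj_right (by simp)
          (e1 ▸ (rb_inl g1).mul (rb_inr g2))
      obtain ⟨c, hc, hc'⟩ := rb_red hW hw B hB g2
      let T : (ι →₀ k) →ₗ[k] ι →₀ MvPolynomial σ k :=
        Finsupp.mapRange.linearMap (LinearMap.toSpanSingleton k _ (monomial u1 r))
      have t1 : ∀ c, Φ (T c) =
          rename Sum.inl (monomial u1 r) * rename Sum.inr (Finsupp.linearCombination k w c) := by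
        intro c
        induction c using Finsupp.induction_linear with
        | zero => simp
        | add p q hp hq => simp only [map_add, hp, hq, mul_add]
        | single x a =>
          rw [show T (.single x a) = .single x (a • monomial u1 r) by simp [T], f1,
            Finsupp.linearCombination_single, map_smul, map_smul, smul_mul_assoc, mul_smul_comm]
      refine ⟨T c, fun x => ?_, ?_⟩
      · rw [show T c x = c x • monomial u1 r by simp [T]]
        by_cases e : c x = 0
        · rw [e, zero_smul]; exact isWeightedHomogeneous_zero _ _ _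
        · rw [smul_monomial]
          exact isWeightedHomogeneous_monomial _ _ _ (by rw [hc x e, e3, add_sub_cancel_right])
      · rw [t1, e2, ← mul_sub, ← map_sub]
        exact Ideal.mul_mem_left _ _ (Ideal.mem_sup_right (Ideal.mem_map_of_mem _ hc'))
  refine ⟨ι, δ, w, Φ, hw, f1, fun f v => ?_, fun e => ?_, fun V v => ⟨fun h x => ?_, fun h => ?_⟩,
    fun j v h => ?_, f7⟩
  · induction v using Finsupp.induction_linear with
    | zero => simp
    | add p q hp hq => rw [smul_add, map_add, map_add, hp, hq, mul_add]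
    | single x g => rw [Finsupp.smul_single, f1, f1, smul_eq_mul, map_mul, mul_assoc]
  · induction e using MvPolynomial.induction_on' with
    | monomial u r =>
      obtain ⟨v, -, hv⟩ := f7 _ _ (isWeightedHomogeneous_monomial (wt (Sum.elim b b)) u r rfl)
      exact ⟨v, hv⟩
    | add p q hp hq =>
      obtain ⟨u, hu⟩ := hp
      obtain ⟨v, hv⟩ := hq
      refine ⟨u + v, ?_⟩
      rw [map_add, add_sub_add_comm]
      exact add_mem hu hv
  · obtain ⟨ψ, h1, h2⟩ := rb_coord B x
    have h3 : ∀ v, ψ (Φ v) = v x := fun v => by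
      induction v using Finsupp.induction_linear with
      | zero => simp
      | add p q hp hq => rw [map_add, map_add, hp, hq, Finsupp.add_apply]
      | single y g =>
        rw [f1, h1, ← hB, B.repr_self, Finsupp.single_apply, Finsupp.single_apply]
        split_ifs <;> simp
    exact h3 v ▸ h2 V _ h
  · rw [f2]
    exact Ideal.sum_mem _ fun x _ =>
      Ideal.mul_mem_right _ _ (Ideal.mem_sup_left (Ideal.mem_map_of_mem _ (h x)))
  · rw [f2]
    refine IsWeightedHomogeneous.sum _ _ _ fun x _ => ?_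
    have := (rb_inl (h x)).mul (rb_inr (hw x))
    rwa [sub_add_cancel] at this

end Pool.Agent.Lib.MP_40dc3c_ag.P
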