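import Mathlib

/-! Subvarieties of a product of Fermat hypersurfaces and their intersection numbers. -/

namespace Pool.Agent.Lib.MP_40dc3c_ag.P

open MvPolynomial Filter

variable {k : Type} [Field k] {σ τ : Type}

open Classical in
/-- the multidegree of a variable; `b s` is the block of `s`. -/
noncomputable def wt (b : σ → τ) (s : σ) : τ → ℤ := Pi.single (b s) 1

open Classical in
/-- the Fermat form of a block. -/
noncomputable def fer (k : Type) [Field k] [Fintype σ] (b : σ → τ) (m : ℕ) (t : τ) :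
    MvPolynomial σ k := ∑ s with b s = t, X s ^ m

/-- `V` is the ideal of a subvariety of dimension `e` of the product. -/
def Subv [Fintype σ] [Fintype τ] (b : σ → τ) (m : ℕ) (V : Ideal (MvPolynomial σ k)) (e : ℕ) :
    Prop :=
  V.IsPrime ∧ (∀ f ∈ V, ∀ d, weightedHomogeneousComponent (wt b) d f ∈ V) ∧
    (∀ t, fer k b m t ∈ V) ∧ (∀ t, ∃ s, b s = t ∧ X s ∉ V) ∧
    Algebra.trdeg k (MvPolynomial σ k ⧸ V) = e + Fintype.card τ

/-- a multigraded free resolution of `S / W` over `S / F`, with maps lifted to `S`. -/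
structure Res (b : σ → τ) (F W : Ideal (MvPolynomial σ k)) : Type 1 where
  /-- the basis in homological degree `i`. -/
  n : ℕ → Type
  /-- the degrees of the basis vectors. -/
  δ : ∀ i, n i → τ → ℤ
  /-- the differential. -/
  A : ∀ i, (n (i + 1) →₀ MvPolynomial σ k) →ₗ[MvPolynomial σ k] (n i →₀ MvPolynomial σ k)
  /-- the augmentation. -/
  ε : (n 0 →₀ MvPolynomial σ k) →ₗ[MvPolynomial σ k] MvPolynomial σ k
  homA : ∀ i x y, (A i (.single y 1) x).IsWeightedHomogeneous (wt b) (δ (i + 1) y - δ i x)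
  homε : ∀ x, (ε (.single x 1)).IsWeightedHomogeneous (wt b) (δ 0 x)
  onto : ∀ a, ∃ v, a - ε v ∈ W
  ex0 : ∀ v, ε v ∈ W ↔ ∃ u, ∀ x, (v - A 0 u) x ∈ F
  ex : ∀ i v, (∀ x, A i v x ∈ F) ↔ ∃ u, ∀ y, (v - A (i + 1) u) y ∈ F

variable {b : σ → τ} {F W : Ideal (MvPolynomial σ k)}

/-- cycles modulo `V`. -/
def Res.Cyc (R : Res b F W) (V : Ideal (MvPolynomial σ k)) :
    ∀ i, (R.n i →₀ MvPolynomial σ k) → Prop
  | 0, _ => True
  | i + 1, v => ∀ x, R.A i v x ∈ V

/-- the span of the cycles modulo `V` of multidegree `j`. -/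
noncomputable def Res.Z (R : Res b F W) (V : Ideal (MvPolynomial σ k)) (i : ℕ) (j : τ → ℤ) :
    Submodule k (R.n i →₀ MvPolynomial σ k) :=
  .span k {v | R.Cyc V i v ∧ ∀ x, (v x).IsWeightedHomogeneous (wt b) (j - R.δ i x)}

/-- the span of the boundaries modulo `V`. -/
noncomputable def Res.B (R : Res b F W) (V : Ideal (MvPolynomial σ k)) (i : ℕ) :
    Submodule k (R.n i →₀ MvPolynomial σ k) := .span k {v | ∃ u, ∀ x, (v - R.A i u) x ∈ V}

/-- the dimension of the part of multidegree `j` of `Tor_i (S / V, S / W)` over `S / F`. -/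
noncomputable def Res.tor (R : Res b F W) (V : Ideal (MvPolynomial σ k)) (i : ℕ) (j : τ → ℤ) : ℕ :=
  Module.finrank k ((R.Z V i j).map (R.B V i).mkQ)

/-- `c` is the intersection number of `V` and `W`: the Euler characteristic of the Tor sheaves. -/
def Inter [Fintype σ] (b : σ → τ) (m : ℕ) (V W : Ideal (MvPolynomial σ k)) (c : ℚ) : Prop :=
  ∃ (R : Res b (.span (Set.range (fer k b m))) W) (P : Polynomial ℚ), P.eval 0 = c ∧
    ∀ᶠ N : ℕ in atTop, ∑ i ∈ Finset.range (Fintype.card σ + 1),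
      (-1 : ℚ) ^ i * R.tor V i (fun _ => N) = P.eval (N : ℚ)

end Pool.Agent.Lib.MP_40dc3c_ag.P
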