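import Pool.Agent.Lib.MP_40dc3c_ag.P.Reg
import Pool.Agent.Lib.MP_40dc3c_ag.T.Dom

/-! Products of subvarieties with linear sections are subvarieties. -/

namespace Pool.Agent.Lib.MP_40dc3c_ag.P

open scoped TensorProduct
open Function hiding eval
open MvPolynomial Finset T

variable {k : Type} [Field k] {σ τ : Type}

theorem prime_sum [IsAlgClosed k] {ρ ρ' : Type} [Finite ρ] [Finite ρ']
    {P : Ideal (MvPolynomial ρ k)} {Q : Ideal (MvPolynomial ρ' k)} (hP : P.IsPrime)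
    (hQ : Q.IsPrime) : (P.map (rename Sum.inl) ⊔ Q.map (rename Sum.inr) :
      Ideal (MvPolynomial (ρ ⊕ ρ') k)).IsPrime ∧
    Algebra.trdeg k (MvPolynomial (ρ ⊕ ρ') k ⧸ (P.map (rename Sum.inl) ⊔ Q.map (rename Sum.inr))) =
      Algebra.trdeg k (MvPolynomial ρ k ⧸ P) + Algebra.trdeg k (MvPolynomial ρ' k ⧸ Q) ∧
    (∀ f, rename Sum.inl f ∈ (P.map (rename Sum.inl) ⊔ Q.map (rename Sum.inr) :
      Ideal (MvPolynomial (ρ ⊕ ρ') k)) → f ∈ P) ∧
    ∀ f, rename Sum.inr f ∈ (P.map (rename Sum.inl) ⊔ Q.map (rename Sum.inr) :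
      Ideal (MvPolynomial (ρ ⊕ ρ') k)) → f ∈ Q := by
  let e := tensorEquivSum k ρ ρ' k
  have h1 : e.toAlgHom.comp Algebra.TensorProduct.includeLeft = rename Sum.inl :=
    algHom_ext fun s => by simp [e]
  have h2 : e.toAlgHom.comp Algebra.TensorProduct.includeRight = rename Sum.inr :=
    algHom_ext fun s => by simp [e]
  have he : P.map (rename Sum.inl) ⊔ Q.map (rename Sum.inr) =
      (boxI k P Q).map (e : _ →+* MvPolynomial (ρ ⊕ ρ') k) := by
    rw [boxI, Ideal.map_sup, ← h1, ← h2]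
    congr 1
    · exact (Ideal.map_map (Algebra.TensorProduct.includeLeft :
        _ →ₐ[k] MvPolynomial ρ k ⊗[k] MvPolynomial ρ' k).toRingHom e.toAlgHom.toRingHom).symm
    · exact (Ideal.map_map (Algebra.TensorProduct.includeRight :
        _ →ₐ[k] MvPolynomial ρ k ⊗[k] MvPolynomial ρ' k).toRingHom e.toAlgHom.toRingHom).symm
  have hp := boxI_prime (k := k) P Q
  have hm : ∀ x, e x ∈ (boxI k P Q).map (e : _ →+* MvPolynomial (ρ ⊕ ρ') k) →
      Algebra.TensorProduct.map (Ideal.Quotient.mkₐ k P) (Ideal.Quotient.mkₐ k Q) x = 0 :=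
    fun x hx => by
      rw [← RingHom.mem_ker, ← boxI_eq_ker]
      obtain ⟨y, hy, e'⟩ := (Ideal.mem_map_iff_of_surjective _ e.surjective).1 hx
      exact e.injective e' ▸ hy
  refine ⟨he ▸ Ideal.map_isPrime_of_equiv e, ?_, fun f hf => ?_, fun f hf => ?_⟩
  · rw [← trdeg_boxI]
    exact (Ideal.quotientEquivAlg _ _ e he).trdeg_eq.symm
  · rw [he, ← h1] at hf
    refine Ideal.Quotient.eq_zero_iff_mem.1 (Algebra.TensorProduct.includeLeft_injective (S := k)
      (algebraMap k (MvPolynomial ρ' k ⧸ Q)).injective ?_)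
    exact (hm _ hf).trans (map_zero _).symm
  · rw [he, ← h2] at hf
    refine Ideal.Quotient.eq_zero_iff_mem.1 (Algebra.TensorProduct.includeRight_injective
      (algebraMap k (MvPolynomial ρ k ⧸ P)).injective ?_)
    exact (hm _ hf).trans (map_zero _).symm

/-- `I` is the extension of a prime of dimension `e` in the variables of `A` that does not hold
the variables of `N`. -/
def PrA (A N : Set σ) (I : Ideal (MvPolynomial σ k)) (e : ℕ) : Prop :=
  ∃ (ρ : Type) (_ : Finite ρ) (f : ρ → σ) (P : Ideal (MvPolynomial ρ k)), Injective f ∧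
    Set.range f = A ∧ P.IsPrime ∧ Algebra.trdeg k (MvPolynomial ρ k ⧸ P) = e ∧
    (∀ r, f r ∈ N → X r ∉ P) ∧ I = P.map (rename f)

variable {A A' N N' : Set σ} {I I' : Ideal (MvPolynomial σ k)} {e e' : ℕ}

theorem map_rename {ρ ρ' : Type} (P : Ideal (MvPolynomial ρ k)) (f : ρ → ρ') (g : ρ' → σ) :
    (P.map (rename f)).map (rename g) = P.map (rename (g ∘ f)) := by
  rw [← rename_comp_rename]
  exact Ideal.map_map (rename f).toRingHom (rename g).toRingHom

theorem PrA.union [IsAlgClosed k] (h : PrA A N I e) (h' : PrA A' N I' e') (hd : Disjoint A A') :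
    PrA (A ∪ A') N (I ⊔ I') (e + e') := by
  obtain ⟨ρ, _, f, P, a1, rfl, a3, a4, a5, rfl⟩ := h
  obtain ⟨ρ', _, f', P', b1, rfl, b3, b4, b5, rfl⟩ := h'
  obtain ⟨c1, c2, c3, c4⟩ := prime_sum a3 b3
  refine ⟨ρ ⊕ ρ', inferInstance, Sum.elim f f', _, a1.sumElim b1 fun r r' e =>
    Set.disjoint_left.1 hd ⟨r, rfl⟩ ⟨r', e.symm⟩, Set.Sum.elim_range f f', c1, ?_, ?_, ?_⟩
  · rw [c2, a4, b4, Nat.cast_add]
  · rintro (r | r) hr h
    · exact a5 r hr (c3 _ (by rwa [rename_X]))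
    · exact b5 r hr (c4 _ (by rwa [rename_X]))
  · rw [Ideal.map_sup, map_rename, map_rename]
    rfl

theorem PrA.univ (h : PrA Set.univ N I e) : I.IsPrime ∧
    Algebra.trdeg k (MvPolynomial σ k ⧸ I) = e ∧ ∀ s ∈ N, X s ∉ I := by
  obtain ⟨ρ, _, f, P, a1, a2, a3, a4, a5, rfl⟩ := h
  let E := renameEquiv k (Equiv.ofBijective f ⟨a1, Set.range_eq_univ.1 a2⟩)
  refine ⟨Ideal.map_isPrime_of_equiv E, ?_, fun s hs h => ?_⟩
  · rw [← a4]
    exact (Ideal.quotientEquivAlg P _ E rfl).trdeg_eq.symm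
  · obtain ⟨r, rfl⟩ := Set.range_eq_univ.1 a2 s
    obtain ⟨y, hy, e'⟩ := (Ideal.mem_map_iff_of_surjective (rename f) E.surjective).1 h
    rw [← rename_X (R := k) f r] at e'
    exact a5 r hs (rename_injective f a1 e' ▸ hy)

theorem PrA.pt [Finite σ] (a : σ → k) (hd : Disjoint A N) :
    PrA A N (.span {f : MvPolynomial σ k | ∃ s ∈ A, f = X s - C (a s)}) 0 := by
  let P : Ideal (MvPolynomial A k) :=
    .span (Set.range fun s : A => (X s - C (a s) : MvPolynomial A k))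
  let ψ : MvPolynomial A k →ₐ[k] k := aeval fun s => a s
  have h1 : Ideal.Quotient.mkₐ k P = (Algebra.ofId k _).comp ψ := algHom_ext fun s => by
    rw [AlgHom.comp_apply, aeval_X]
    exact Ideal.Quotient.eq.2 (Ideal.subset_span ⟨s, rfl⟩)
  have h2 : P = RingHom.ker ψ := le_antisymm (Ideal.span_le.2 (by
    rintro _ ⟨s, rfl⟩
    simp [ψ])) fun f hf => Ideal.Quotient.eq_zero_iff_mem.1 ((AlgHom.congr_fun h1 f).trans (by
      rw [AlgHom.comp_apply, RingHom.mem_ker.1 hf, map_zero]))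
  have h3 : P.IsPrime := h2 ▸ RingHom.ker_isPrime _
  refine ⟨A, inferInstance, Subtype.val, P, Subtype.val_injective, Subtype.range_coe, h3, ?_,
    fun r hr => absurd hr (Set.disjoint_left.1 hd r.2), ?_⟩
  · have : Algebra.IsAlgebraic k (MvPolynomial A k ⧸ P) := ⟨fun a => by
      obtain ⟨f, rfl⟩ := Ideal.Quotient.mkₐ_surjective k P a
      rw [h1]
      exact isAlgebraic_algebraMap _⟩
    rw [Nat.cast_zero]
    exact trdeg_eq_zero
  · rw [Ideal.map_span, ← Set.range_comp]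
    congr 1
    ext f
    simp [eq_comm]

theorem PrA.vars [Finite σ] (hd : Disjoint A N) :
    PrA A N (.span {f : MvPolynomial σ k | ∃ s ∈ A, f = X s}) 0 := by
  simpa using PrA.pt (k := k) 0 hd

theorem PrA.biUnion [IsAlgClosed k] [Finite σ] {ι : Type} (s : Finset ι) {A : ι → Set σ}
    {I : ι → Ideal (MvPolynomial σ k)} {e : ι → ℕ} (h : ∀ i ∈ s, PrA (A i) N (I i) (e i))
    (hd : ∀ i ∈ s, ∀ j ∈ s, i ≠ j → Disjoint (A i) (A j)) :
    PrA (⋃ i ∈ s, A i) N (⨆ i ∈ s, I i) (∑ i ∈ s, e i) := by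
  classical
  induction s using Finset.induction_on with
  | empty => simpa using PrA.vars (k := k) (A := ∅) (N := N) (by simp)
  | insert a s ha ih =>
    rw [Finset.set_biUnion_insert, Finset.iSup_insert, sum_insert ha]
    refine (h a (mem_insert_self _ _)).union (ih (fun i hi => h i (mem_insert_of_mem hi))
      fun i hi j hj => hd i (mem_insert_of_mem hi) j (mem_insert_of_mem hj)) ?_
    simp only [Set.disjoint_iUnion_right]
    exact fun j hj => hd a (mem_insert_self _ _) j (mem_insert_of_mem hj) fun e => ha (e ▸ hj)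

theorem PrA.lin {y w : σ} (h : y ≠ w) {c : k} (hc : c ≠ 0) (N : Set σ) :
    PrA {y, w} N (.span {X y - C c * X w}) 1 := by
  have hp : Prime (X 0 ^ 1 + rename Fin.succ (-(C c * X 0) : MvPolynomial (Fin 1) k) :
      MvPolynomial (Fin 2) k) := prime_pow_add 0 0 (by simp) (by simpa using hc) one_ne_zero
  refine ⟨Fin 2, inferInstance, ![y, w], _, ?_, by simp [Matrix.range_cons, Set.pair_comm],
    (Ideal.span_singleton_prime hp.ne_zero).2 hp, trdeg_pow_add _ one_ne_zero hp,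
    fun r _ hr => ?_, ?_⟩
  · intro a b hab
    fin_cases a <;> fin_cases b <;> simp_all [eq_comm]
  · obtain ⟨g, hg⟩ := Ideal.mem_span_singleton'.1 hr
    have := congrArg (eval ![c, 1]) hg
    fin_cases r <;> simp [hc.symm] at this
  · simp [Ideal.map_span, sub_eq_add_neg]

theorem PrA.fermat [IsAlgClosed k] {m : ℕ} (hm : (m : k) ≠ 0) (R : Finset σ) (h : 3 ≤ #R)
    (N : Set σ) : PrA (R : Set σ) N (.span {(∑ s ∈ R, X s ^ m : MvPolynomial σ k)}) (#R - 1) := by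
  classical
  obtain ⟨n, hn⟩ := Nat.exists_eq_add_of_le' h
  have hm0 : m ≠ 0 := by rintro rfl; simp at hm
  let E := (R.equivFinOfCardEq hn).symm
  have hp := prime_fermat (n := n) hm
  refine ⟨Fin (n + 3), inferInstance, Subtype.val ∘ E, _, Subtype.val_injective.comp E.injective,
    by rw [E.surjective.range_comp, Subtype.range_coe_subtype]; rfl,
    (Ideal.span_singleton_prime hp.ne_zero).2 hp, by rw [trdeg_fermat hm, hn]; rfl,
    fun r _ hr => ?_, ?_⟩
  · obtain ⟨g, hg⟩ := Ideal.mem_span_singleton'.1 hr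
    obtain ⟨ε, hε⟩ := IsAlgClosed.exists_pow_nat_eq (-1 : k) (Nat.pos_of_ne_zero hm0)
    obtain ⟨r', hr'⟩ := exists_ne r
    have := congrArg (eval (Pi.single r 1 + Pi.single r' ε)) hg
    rw [map_mul, map_sum, sum_eq_add r r' hr'.symm (fun c _ hc => by simp [hc.1, hc.2, hm0])
      (by simp) (by simp)] at this
    simp [hr', hr'.symm, hε] at this
  · rw [Ideal.map_span, Set.image_singleton, map_sum, ← R.sum_coe_sort, ← E.sum_comp]
    simp

theorem PrA.fermat_aff [IsAlgClosed k] {m : ℕ} (hm : (m : k) ≠ 0) (R : Finset σ) (h : 2 ≤ #R) :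
    PrA (R : Set σ) ∅ (.span {(∑ s ∈ R, X s ^ m + 1 : MvPolynomial σ k)}) (#R - 1) := by
  obtain ⟨n, hn⟩ := Nat.exists_eq_add_of_le' h
  let E := (R.equivFinOfCardEq hn).symm
  have hp := prime_fermat_aff (n := n) hm (one_ne_zero (α := k))
  refine ⟨Fin (n + 2), inferInstance, Subtype.val ∘ E, _, Subtype.val_injective.comp E.injective,
    by rw [E.surjective.range_comp, Subtype.range_coe_subtype]; rfl,
    (Ideal.span_singleton_prime hp.ne_zero).2 hp, by rw [trdeg_fermat_aff hm one_ne_zero, hn]; rfl,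
    fun r hr => hr.elim, ?_⟩
  rw [Ideal.map_span, Set.image_singleton, map_add, map_sum, ← R.sum_coe_sort, ← E.sum_comp]
  simp

variable [Fintype σ] {b : σ → τ} {T : Finset τ} (D : Sec b T) {m : ℕ}

theorem Sec.blk {t : τ} {s : σ} (h : s ∈ D.R t) : b s = t := by
  simpa [P.blk] using D.sub t h

theorem Sec.two_le (t : τ) : 2 ≤ #(D.R t) := one_lt_card.2 ⟨_, D.hy t, _, D.hw t, D.ne t⟩

theorem Sec.pair {t : τ} (h : #(D.R t) = 2) : (D.R t : Set σ) = {D.y t, D.w t} := by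
  classical
  rw [← coe_pair, eq_comm, coe_inj]
  refine eq_of_subset_of_card_le (insert_subset (D.hy t) (singleton_subset_iff.2 (D.hw t))) ?_
  rw [h, card_pair (D.ne t)]

theorem Sec.prA [IsAlgClosed k] (hm : (m : k) ≠ 0) {e : τ → k} {t : τ} (he : e t ≠ 0) (N : Set σ) :
    PrA (D.R t : Set σ) N (.span {D.φ m e t}) (#(D.R t) - 1) := by
  rw [Sec.φ]
  split_ifs with h
  · rw [h, D.pair h]
    exact PrA.lin (D.ne t) he N
  · exact PrA.fermat hm _ (by have := D.two_le t; omega) N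

theorem Sec.φ_hom (m : ℕ) (e : τ → k) (t : τ) :
    ∃ d, (D.φ m e t).IsWeightedHomogeneous (wt b) d := by
  have hX : ∀ s ∈ D.R t, (X s : MvPolynomial σ k).IsWeightedHomogeneous (wt b) (et t) :=
    fun s hs => D.blk hs ▸ isWeightedHomogeneous_X k (wt b) s
  rw [Sec.φ]
  split_ifs
  · exact ⟨_, (weightedHomogeneousSubmodule k _ _).sub_mem (hX _ (D.hy t))
      ((hX _ (D.hw t)).C_mul _)⟩
  · exact ⟨_, IsWeightedHomogeneous.sum _ _ _ fun s hs => (hX s hs).pow m⟩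

theorem Sec.hg0 (m : ℕ) (e : τ → k) {P : Ideal (MvPolynomial {s // b s ∈ T} k)}
    (hP : Hg (bT b T) P) : Hg b (D.I m e P) := by
  refine ((hP.rename Subtype.val Subtype.val fun _ => rfl).sup (hg_span ?_)).sup (hg_span ?_)
  · rintro _ ⟨s, -, -, rfl⟩
    exact ⟨_, isWeightedHomogeneous_X k (wt b) s⟩
  · rintro _ ⟨t, -, rfl⟩
    exact D.φ_hom m e t

theorem fer_bT [DecidableEq τ] (m : ℕ) (t : {t // t ∈ T}) :
    rename Subtype.val (fer k (bT b T) m t) = fer k b m t.1 := by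
  rw [fer, fer, map_sum]
  refine sum_bij (fun s _ => s.1) (fun s hs => ?_) (fun _ _ _ _ => Subtype.ext)
    (fun s hs => ?_) (by simp)
  · simpa [bT, Subtype.ext_iff] using hs
  · have : b s = t := by simpa using hs
    exact ⟨⟨s, this ▸ t.2⟩, by simpa [bT, Subtype.ext_iff] using this, rfl⟩

theorem Sec.φ_dvd {e : τ → k} {t : τ} (he : e t ^ m = -1) :
    D.φ m e t ∣ ∑ s ∈ D.R t, X s ^ m := by
  classical
  rw [Sec.φ]
  split_ifs with h
  · rw [show D.R t = {D.y t, D.w t} from coe_inj.1 (by rw [D.pair h, coe_pair]),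
      sum_pair (D.ne t)]
    convert sub_dvd_pow_sub_pow (X (D.y t)) (C (e t) * X (D.w t)) m using 1
    rw [mul_pow, ← map_pow, he, map_neg, map_one]
    ring
  · rfl

theorem Sec.fer_mem [DecidableEq τ] (hm : m ≠ 0) {e : τ → k} (he : ∀ t, e t ^ m = -1)
    {P : Ideal (MvPolynomial {s // b s ∈ T} k)} (hP : ∀ t, fer k (bT b T) m t ∈ P) (t : τ) :
    fer k b m t ∈ D.I m e P := by
  classical
  by_cases ht : t ∈ T
  · exact Ideal.mem_sup_left (Ideal.mem_sup_left
      (fer_bT (k := k) (b := b) m ⟨t, ht⟩ ▸ Ideal.mem_map_of_mem _ (hP ⟨t, ht⟩)))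
  · change ∑ s ∈ Pool.Agent.Lib.MP_40dc3c_ag.P.blk b t, X s ^ m ∈ _
    rw [← sum_sdiff (D.sub t)]
    refine add_mem (Ideal.sum_mem _ fun s hs => Ideal.pow_mem_of_mem _ ?_ _
      (Nat.pos_of_ne_zero hm)) (Ideal.mem_of_dvd _ (D.φ_dvd (he t)) ?_)
    · obtain rfl : b s = t := by
        simpa [Pool.Agent.Lib.MP_40dc3c_ag.P.blk] using (mem_sdiff.1 hs).1
      exact Ideal.mem_sup_left (Ideal.mem_sup_right
        (Ideal.subset_span ⟨s, ht, (mem_sdiff.1 hs).2, rfl⟩))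
    · exact Ideal.mem_sup_right (Ideal.subset_span ⟨t, ht, rfl⟩)

theorem Sec.prime [IsAlgClosed k] [Fintype τ] [DecidableEq τ] (hm : (m : k) ≠ 0) {e : τ → k}
    (he : ∀ t, e t ≠ 0)
    {P : Ideal (MvPolynomial {s // b s ∈ T} k)} (hP : P.IsPrime) {r : ℕ}
    (hr : Algebra.trdeg k (MvPolynomial {s // b s ∈ T} k ⧸ P) = r) : (D.I m e P).IsPrime ∧
      Algebra.trdeg k (MvPolynomial σ k ⧸ D.I m e P) = (r + ∑ t ∈ Tᶜ, (#(D.R t) - 1) : ℕ) ∧
      (∀ s : {s // b s ∈ T}, X s ∉ P → X s.1 ∉ D.I m e P) ∧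
      ∀ t, t ∉ T → ∀ s ∈ D.R t, X s ∉ D.I m e P := by
  let N : Set σ := {s | (∃ h : b s ∈ T, X ⟨s, h⟩ ∉ P) ∨ b s ∉ T ∧ s ∈ D.R (b s)}
  have h1 : PrA {s | b s ∈ T} N (P.map (rename Subtype.val)) r :=
    ⟨_, inferInstance, Subtype.val, P, Subtype.val_injective, Subtype.range_coe_subtype, hP, hr,
      fun s hs => hs.elim (fun h => h.2) fun h => absurd s.2 h.1, rfl⟩
  have h2 := PrA.vars (k := k) (A := {s | b s ∉ T ∧ s ∉ D.R (b s)}) (N := N)
    (Set.disjoint_left.2 fun s hs hn => hn.elim (fun h => hs.1 h.1) fun h => hs.2 h.2)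
  have h3 := PrA.biUnion Tᶜ (fun t _ => D.prA hm (he t) N) fun i _ j _ hij =>
    Set.disjoint_left.2 fun s hi hj => hij ((D.blk hi).symm.trans (D.blk hj))
  have h4 := (h1.union h2 (Set.disjoint_left.2 fun s hs hn => hn.1 hs)).union h3 (by
    simp only [Set.disjoint_iUnion_right]
    refine fun t ht => Set.disjoint_left.2 fun s hs hs' => ?_
    obtain rfl := D.blk hs'
    exact hs.elim (mem_compl.1 ht) fun h => h.2 hs')
  have e1 : ({s | b s ∈ T} ∪ {s | b s ∉ T ∧ s ∉ D.R (b s)}) ∪ ⋃ t ∈ Tᶜ, (D.R t : Set σ) =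
      Set.univ := Set.eq_univ_of_forall fun s => by
    by_cases a : b s ∈ T
    · exact .inl (.inl a)
    by_cases a' : s ∈ D.R (b s)
    · exact .inr (Set.mem_iUnion₂.2 ⟨b s, mem_compl.2 a, a'⟩)
    · exact .inl (.inr ⟨a, a'⟩)
  have e2 : D.I m e P = P.map (rename Subtype.val) ⊔
      .span {f | ∃ s ∈ {s | b s ∉ T ∧ s ∉ D.R (b s)}, f = X s} ⊔
        ⨆ t ∈ Tᶜ, Ideal.span {D.φ m e t} := by
    rw [Sec.I]
    congr 1
    · simp only [Set.mem_ofPred_eq, and_assoc]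
    · refine le_antisymm (Ideal.span_le.2 ?_) (iSup₂_le fun t ht => Ideal.span_mono ?_)
      · rintro _ ⟨t, ht, rfl⟩
        exact (le_iSup₂ (f := fun t (_ : t ∈ Tᶜ) => Ideal.span {D.φ m e t}) t (mem_compl.2 ht))
          (Ideal.mem_span_singleton_self _)
      · rintro _ rfl
        exact ⟨t, mem_compl.1 ht, rfl⟩
  rw [e1, ← e2, add_zero] at h4
  obtain ⟨a1, a2, a3⟩ := h4.univ
  refine ⟨a1, a2, fun s hs => a3 _ (.inl ⟨s.2, hs⟩), fun t ht s hs => a3 _ (.inr ?_)⟩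
  obtain rfl := D.blk hs
  exact ⟨ht, hs⟩

end Pool.Agent.Lib.MP_40dc3c_ag.P
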