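import Pool.Agent.Lib.MP_40dc3c_ag.P.SDefs

/-! Koszul factorisations, the Tate complex and its truncations. -/

namespace Pool.Agent.Lib.MP_40dc3c_ag.P

open MvPolynomial Finset

section hom

variable {k : Type} [Field k] {V : Type} [AddCommGroup V] [Module k V]

/-- the homology of `U' → U → V`. -/
abbrev Hm (d : V →ₗ[k] V) (U' U : Submodule k V) : Submodule k (V ⧸ U'.map d) :=
  (U ⊓ LinearMap.ker d).map (U'.map d).mkQ

/-- the dimension of the homology. -/
noncomputable def hd (d : V →ₗ[k] V) (U' U : Submodule k V) : ℤ := Module.finrank k (Hm d U' U)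

/-- a complex inside `V`; `d` maps `U (nx i)` to `U i`. -/
structure IsCx {Λ : Type} (nx : Λ ≃ Λ) (d : V →ₗ[k] V) (U : Λ → Submodule k V) : Prop where
  mem : ∀ i, ∀ x ∈ U (nx i), d x ∈ U i
  sq : ∀ i, ∀ x ∈ U i, d (d x) = 0

end hom

section kos

variable {σ τ : Type} [LinearOrder σ] (E : Type) [CommRing E] (M : Type) [AddCommGroup M]
  [Module E M]

/-- the Koszul sign. -/
def sg (s : σ) (I : Finset σ) : ℤ := (-1) ^ #{r ∈ I | r < s}

/-- contraction with a basis vector. -/
def io (s : σ) : (Finset σ → M) →ₗ[E] (Finset σ → M) where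
  toFun v I := if s ∈ I then 0 else sg s I • v (insert s I)
  map_add' v w := by ext I; by_cases h : s ∈ I <;> simp [h]
  map_smul' c v := by ext I; by_cases h : s ∈ I <;> simp [h, smul_comm c]

/-- exterior multiplication by a basis vector. -/
def ep (s : σ) : (Finset σ → M) →ₗ[E] (Finset σ → M) where
  toFun v I := if s ∈ I then sg s I • v (I.erase s) else 0
  map_add' v w := by ext I; by_cases h : s ∈ I <;> simp [h]
  map_smul' c v := by ext I; by_cases h : s ∈ I <;> simp [h, smul_comm c]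

variable {E}

/-- the Koszul factorisation of `∑ s ∈ A, a s * c s`. -/
def kd (A : Finset σ) (a c : σ → E) : (Finset σ → M) →ₗ[E] (Finset σ → M) :=
  ∑ s ∈ A, (a s • io E M s + c s • ep E M s)

variable (k : Type) [Field k] [Algebra k E] [Module k M] [IsScalarTower k E M]

/-- the vectors supported on subsets of `A` of parity `e`. -/
def KS (A : Finset σ) (e : ZMod 2) : Submodule k (Finset σ → M) where
  carrier := {v | ∀ I, ¬(I ⊆ A ∧ (#I : ZMod 2) = e) → v I = 0}
  add_mem' ha hb I h := by simp [ha I h, hb I h]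
  zero_mem' _ _ := rfl
  smul_mem' c v hv I h := by simp [hv I h]

/-- the Euler characteristic of the Koszul factorisation with coefficients in `M`. -/
noncomputable def theta (A : Finset σ) (a c : σ → E) : ℤ :=
  hd ((kd M A a c).restrictScalars k) (KS M k A 1) (KS M k A 0) -
    hd ((kd M A a c).restrictScalars k) (KS M k A 0) (KS M k A 1)

/-- the homology of the Koszul factorisation is finite dimensional. -/
def ThFin (A : Finset σ) (a c : σ → E) : Prop :=
  ∀ e, FiniteDimensional k (Hm ((kd M A a c).restrictScalars k) (KS M k A (e + 1)) (KS M k A e))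

variable [Fintype σ]

/-- the differential of the Tate complex. -/
noncomputable def td (b : σ → τ) (a c : σ → E) :
    ((τ → ℤ) → Finset σ → M) →ₗ[E] ((τ → ℤ) → Finset σ → M) where
  toFun v J := ∑ s, (a s • io E M s (v J) + c s • ep E M s (v (J + wt b s)))
  map_add' v w := by ext J : 1; simp only [Pi.add_apply, map_add, smul_add, sum_add_distrib]; abel
  map_smul' r v := by
    ext J : 1
    simp only [Pi.smul_apply, map_smul, RingHom.id_apply, smul_sum, smul_add, smul_comm r]

omit [LinearOrder σ] [Fintype σ] in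
open Classical in
/-- restriction to a set of indices. -/
noncomputable def cut (E : Type) [CommRing E] [Module E M] (S : Set (Finset σ × (τ → ℤ))) :
    ((τ → ℤ) → Finset σ → M) →ₗ[E] ((τ → ℤ) → Finset σ → M) where
  toFun v J I := if (I, J) ∈ S then v J I else 0
  map_add' v w := by ext J I; by_cases h : (I, J) ∈ S <;> simp [h]
  map_smul' c v := by ext J I; by_cases h : (I, J) ∈ S <;> simp [h]

end kos

/-- the types of truncation of a block. -/
inductive Ty : Type
  | pos | all | neg | zero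
  deriving DecidableEq

/-- the allowed exponents. -/
def Ty.ok : Ty → ℤ → Prop
  | .pos, j => 0 ≤ j
  | .all, _ => True
  | .neg, j => j < 0
  | .zero, j => j = 0

/-- the index set of a truncation. -/
def SS {σ τ : Type} (A : Finset σ) (ε : τ → Ty) : Set (Finset σ × (τ → ℤ)) :=
  {x | x.1 ⊆ A ∧ ∀ t, (ε t).ok (x.2 t)}

/-- the data of a Tate complex over a polynomial ring. -/
structure Dat (k : Type) [Field k] (σ τ ρ : Type) where
  /-- blocks of the Koszul variables. -/
  b : σ → τ
  /-- blocks of the variables of the ring. -/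
  β : ρ → τ
  /-- the degree of the forms. -/
  m : ℕ
  /-- the linear forms. -/
  a : σ → MvPolynomial ρ k
  /-- the cofactors. -/
  c : σ → MvPolynomial ρ k
  pos : 0 < m
  ha : ∀ s, (a s).IsWeightedHomogeneous (wt β) (wt b s)
  hc : ∀ s, (c s).IsWeightedHomogeneous (wt β) (((m : ℤ) - 1) • wt b s)
  nil : ∀ y, ∃ N : ℕ, X y ^ N ∈ Ideal.span {f | ∃ s, b s = β y ∧ (f = a s ∨ f = c s)}

section gr

variable {k : Type} [Field k] {σ τ ρ : Type}

/-- the ideal is multihomogeneous. -/
def Hg (β : ρ → τ) (I : Ideal (MvPolynomial ρ k)) : Prop :=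
  ∀ f ∈ I, ∀ d, weightedHomogeneousComponent (wt β) d f ∈ I

/-- the graded pieces of a quotient ring. -/
noncomputable def qpc (β : ρ → τ) (I : Ideal (MvPolynomial ρ k)) (j : τ → ℤ) :
    Submodule k (MvPolynomial ρ k ⧸ I) :=
  (weightedHomogeneousSubmodule k (wt β) j).map (Ideal.Quotient.mkₐ k I).toLinearMap

variable {M : Type} [AddCommGroup M] [Module (MvPolynomial ρ k) M] [Module k M]

/-- a finite multigraded module. -/
structure IsGM (β : ρ → τ) (pc : (τ → ℤ) → Submodule k M) : Prop where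
  ind : iSupIndep pc
  top : iSup pc = ⊤
  smul : ∀ y j, ∀ x ∈ pc j, (X y : MvPolynomial ρ k) • x ∈ pc (j + wt β y)
  fg : Module.Finite (MvPolynomial ρ k) M

variable [LinearOrder σ] [Fintype σ] [Fintype τ] [IsScalarTower k (MvPolynomial ρ k) M]
  (D : Dat k σ τ ρ) (pc : (τ → ℤ) → Submodule k M)

open Classical in
/-- the form of a block. -/
noncomputable def Dat.h (t : τ) : MvPolynomial ρ k := ∑ s with D.b s = t, D.a s * D.c s

/-- the part of homological degree `i` and multidegree `j` on the index set `S`. -/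
def Dat.U (S : Set (Finset σ × (τ → ℤ))) (j : τ → ℤ) (i : ℤ) :
    Submodule k ((τ → ℤ) → Finset σ → M) where
  carrier := {v | ∀ J I, v J I ∈ pc (j - ∑ s ∈ I, wt D.b s - (D.m : ℤ) • J) ∧
    (¬((I, J) ∈ S ∧ (#I : ℤ) + 2 * ∑ t, J t = i) → v J I = 0)}
  add_mem' ha hb J I := ⟨add_mem (ha J I).1 (hb J I).1, fun h => by
    simp [(ha J I).2 h, (hb J I).2 h]⟩
  zero_mem' J I := ⟨zero_mem _, fun _ => rfl⟩
  smul_mem' c v hv J I := ⟨Submodule.smul_mem _ c (hv J I).1, fun h => by simp [(hv J I).2 h]⟩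

/-- the truncated differential. -/
noncomputable def Dat.d (M : Type) [AddCommGroup M] [Module (MvPolynomial ρ k) M] [Module k M]
    [IsScalarTower k (MvPolynomial ρ k) M] (S : Set (Finset σ × (τ → ℤ))) :
    ((τ → ℤ) → Finset σ → M) →ₗ[k] ((τ → ℤ) → Finset σ → M) :=
  (cut M (MvPolynomial ρ k) S ∘ₗ td M D.b D.a D.c).restrictScalars k

/-- the dimension of the homology of a truncation. -/
noncomputable def Dat.hh (A : Finset σ) (ε : τ → Ty) (j : τ → ℤ) (i : ℤ) : ℤ :=
  hd (D.d M (SS A ε)) (D.U pc (SS A ε) j (i + 1)) (D.U pc (SS A ε) j i)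

/-- the Euler characteristic of a truncation. -/
noncomputable def Dat.ch (A : Finset σ) (ε : τ → Ty) (j : τ → ℤ) : ℤ :=
  ∑ᶠ i : ℤ, (i.negOnePow : ℤ) * D.hh pc A ε j i

/-- the truncated Euler characteristic of the Tate complex. -/
noncomputable def Dat.EE (j : τ → ℤ) : ℤ :=
  ∑ i ∈ range (Fintype.card σ + 1), (-1) ^ i * D.hh pc univ (fun _ => .pos) j i

/-- the truncation is a complex. -/
def Dat.OK (M : Type) [AddCommGroup M] [Module (MvPolynomial ρ k) M] (A : Finset σ)
    (ε : τ → Ty) : Prop :=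
  ∀ t, ε t = .zero ∨ (∀ s, D.b s = t → s ∈ A) ∧ ∀ x : M, D.h t • x = 0

end gr

section fer

variable {k : Type} [Field k] {σ τ : Type}

/-- the ideal of a product. -/
noncomputable def two (V W : Ideal (MvPolynomial σ k)) : Ideal (MvPolynomial (σ ⊕ σ) k) :=
  V.map (rename Sum.inl) ⊔ W.map (rename Sum.inr)

/-- the equations of the diagonal. -/
noncomputable def fa (k : Type) [Field k] (s : σ) : MvPolynomial (σ ⊕ σ) k :=
  X (.inl s) - X (.inr s)

/-- the cofactors of the Fermat form. -/
noncomputable def fc (k : Type) [Field k] (m : ℕ) (s : σ) : MvPolynomial (σ ⊕ σ) k :=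
  ∑ i ∈ range m, X (.inl s) ^ i * X (.inr s) ^ (m - 1 - i)

/-- the invariant of Hochster of a cyclic module. -/
noncomputable def thI [LinearOrder σ] (m : ℕ) (A : Finset σ)
    (I : Ideal (MvPolynomial (σ ⊕ σ) k)) : ℤ :=
  theta (MvPolynomial (σ ⊕ σ) k ⧸ I) k A (fa k) (fc k m)

theorem fa_mul_fc (m : ℕ) (s : σ) :
    fa k s * fc k m s = X (.inl s) ^ m - X (.inr s) ^ m := by
  rw [mul_comm]
  exact Commute.geom_sum₂_mul (Commute.all _ _) m

theorem fc_nil {m : ℕ} (hm : (m : k) ≠ 0) (s : σ) (I : Ideal (MvPolynomial (σ ⊕ σ) k))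
    (h1 : fa k s ∈ I) (h2 : fc k m s ∈ I) :
    X (.inl s) ^ (m - 1) ∈ I ∧ X (.inr s) ^ (m - 1) ∈ I := by
  have e : Ideal.Quotient.mk I (X (.inl s)) = Ideal.Quotient.mk I (X (.inr s)) :=
    Ideal.Quotient.eq.2 h1
  have h3 := Ideal.Quotient.eq_zero_iff_mem.2 h2
  rw [fc, map_sum, sum_congr rfl (g := fun _ => Ideal.Quotient.mk I (X (.inr s)) ^ (m - 1))
    fun i hi => by
      rw [map_mul, map_pow, map_pow, e, ← pow_add]
      congr 1
      have := mem_range.1 hi
      omega, sum_const, card_range, ← Nat.cast_smul_eq_nsmul k] at h3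
  have h4 := (smul_eq_zero_iff_right hm).1 h3
  simp only [← Ideal.Quotient.eq_zero_iff_mem, map_pow, e]
  exact ⟨h4, h4⟩

/-- the data of the diagonal of a product of Fermat cones. -/
noncomputable def ferD (k : Type) [Field k] (b : σ → τ) (m : ℕ) (hm : (m : k) ≠ 0) :
    Dat k σ τ (σ ⊕ σ) where
  b := b
  β := Sum.elim b b
  m := m
  a := fa k
  c := fc k m
  pos := Nat.pos_of_ne_zero fun e => hm (by simp [e])
  ha s := (weightedHomogeneousSubmodule k _ _).sub_mem
    (isWeightedHomogeneous_X k (wt (Sum.elim b b)) (.inl s))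
    (isWeightedHomogeneous_X k (wt (Sum.elim b b)) (.inr s))
  hc s := (weightedHomogeneousSubmodule k _ _).sum_mem fun i hi => by
    have h := ((isWeightedHomogeneous_X k (wt (Sum.elim b b)) (.inl s)).pow i).mul
      ((isWeightedHomogeneous_X k (wt (Sum.elim b b)) (.inr s)).pow (m - 1 - i))
    have e : ((m : ℤ) - 1) • wt b s = i • wt b s + (m - 1 - i) • wt b s := by
      have := mem_range.1 hi
      rw [← add_nsmul, ← natCast_zsmul]
      congr 1
      omega
    rw [e]
    exact h
  nil y := by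
    rcases y with s | s
    · refine ⟨m - 1, (fc_nil hm s _ ?_ ?_).1⟩
      · exact Ideal.subset_span ⟨s, rfl, .inl rfl⟩
      · exact Ideal.subset_span ⟨s, rfl, .inr rfl⟩
    · refine ⟨m - 1, (fc_nil hm s _ ?_ ?_).2⟩
      · exact Ideal.subset_span ⟨s, rfl, .inl rfl⟩
      · exact Ideal.subset_span ⟨s, rfl, .inr rfl⟩

/-- the truncated Euler characteristic for a pair of ideals. -/
noncomputable def EI [LinearOrder σ] [Fintype σ] [Fintype τ] (b : σ → τ) (m : ℕ)
    (hm : (m : k) ≠ 0) (V W : Ideal (MvPolynomial σ k)) (j : τ → ℤ) : ℤ :=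
  (ferD k b m hm).EE (qpc (Sum.elim b b) (two V W)) j

end fer

end Pool.Agent.Lib.MP_40dc3c_ag.P
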